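import Pool.Agent.MP_2a1f0e_nt.DH.Basic

/-!
The twisted fourth moment of smooth zeta sums: objects and interfaces.
-/

set_option autoImplicit false

open Finset MeasureTheory
open scoped ENNReal ComplexConjugate

namespace Pool.Agent.MP_c853c5_nt.W

open Pool.Agent.MP_2a1f0e_nt Pool.Agent.MP_2a1f0e_nt.GM Pool.Agent.MP_2a1f0e_nt.DH

/-! ### vectors and matrices -/

abbrev V : Type := ℤ × ℤ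
abbrev Pr : Type := V × V
abbrev R2 : Type := ℝ × ℝ
abbrev MM : Type := R2 × R2
abbrev Fld : Type := MM → V → ℂ
abbrev Pk : Type := Pr → MM → ℂ

open Classical in
noncomputable def iE (p : Prop) : ℝ≥0∞ := if p then 1 else 0

open Classical in
noncomputable def iC (p : Prop) : ℂ := if p then 1 else 0

def om2 (u v : V) : ℤ := u.1 * v.2 - u.2 * v.1

def hh (P : Pr) : ℤ := om2 P.1 P.2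

/-- the row vector `u` times the matrix with rows `G.1`, `G.2` -/
def vg (u : V) (G : Pr) : V := (u.1 * G.1.1 + u.2 * G.2.1, u.1 * G.1.2 + u.2 * G.2.2)

def pg (P G : Pr) : Pr := (vg P.1 G, vg P.2 G)

def ct (u : V) : ℕ := Int.gcd u.1 u.2

def Prim (u : V) : Prop := ct u = 1

def dt (x : MM) : ℝ := x.1.1 * x.2.2 - x.1.2 * x.2.1

def vx (u : V) (x : MM) : R2 :=
  ((u.1 : ℝ) * x.1.1 + (u.2 : ℝ) * x.2.1, (u.1 : ℝ) * x.1.2 + (u.2 : ℝ) * x.2.2)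

def act (G : Pr) (x : MM) : MM := (vx G.1 x, vx G.2 x)

def rt (m : MM) (a : R2) : R2 := (a.1 * m.1.1 + a.2 * m.2.1, a.1 * m.1.2 + a.2 * m.2.2)

/-- right multiplication by `m` -/
def rm (m x : MM) : MM := (rt m x.1, rt m x.2)

noncomputable def tt (P : Pr) (x : MM) : ℝ := (vx P.1 x).1 / (vx P.2 x).1

noncomputable def tr (P : Pr) (x : MM) : ℝ := (vx P.1 x).2 / (vx P.2 x).2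

/-! ### the projective line modulo `q` -/

noncomputable def PQ (q : ℕ) : Finset V :=
  (Ico (0 : ℤ) q ×ˢ Ico (0 : ℤ) q).filter fun w => Nat.Coprime (ct w) q

noncomputable def psiD (q : ℕ) : ℝ := (q : ℝ) * ∏ p ∈ q.primeFactors, (1 + 1 / (p : ℝ))

noncomputable def ind (q : ℕ) (n : ℤ) : ℂ := iC ((q : ℤ) ∣ n)

noncomputable def dl (q : ℕ) (n : ℤ) : ℂ := ind q n - ((1 / psiD q : ℝ) : ℂ)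

noncomputable def NC (q : ℕ) (f : V → ℂ) (c : ℂ) : ℝ :=
  (∑ w ∈ PQ q, ‖f w - c‖ ^ 2) / (q.totient : ℝ)

noncomputable def av (q : ℕ) (f : V → ℂ) : ℂ := (∑ w ∈ PQ q, f w) / ((PQ q).card : ℂ)

noncomputable def NV (q : ℕ) (f : V → ℂ) : ℝ := NC q f (av q f)

noncomputable def BV (q : ℕ) (f g : V → ℂ) : ℂ :=
  (∑ w ∈ PQ q, (f w - av q f) * conj (g w - av q g)) / (q.totient : ℂ)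

def Per (q : ℕ) (f : V → ℂ) : Prop :=
  ∀ w w' : V, (q : ℤ) ∣ w.1 - w'.1 → (q : ℤ) ∣ w.2 - w'.2 → f w = f w'

/-- the field of a packet -/
noncomputable def vf (q : ℕ) (pt : Pr → V) (Ψ : Pk) : Fld :=
  fun x w => ∑' P : Pr, Ψ P x * ind q (om2 w (pt P))

noncomputable def LF (μ : Measure MM) (q : ℕ) (f : Fld) : ℝ≥0∞ :=
  ∫⁻ x, ENNReal.ofReal (NV q (f x)) ∂μ

noncomputable def L0 (μ : Measure MM) (q : ℕ) (f : Fld) : ℝ≥0∞ :=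
  ∫⁻ x, ENNReal.ofReal (NC q (f x) 0) ∂μ

noncomputable def LN (μ : Measure MM) (q : ℕ) (pt : Pr → V) (Ψ : Pk) : ℝ≥0∞ :=
  LF μ q (vf q pt Ψ)

def MF (f : Fld) : Prop := ∀ w, Measurable fun x => f x w

/-! ### unfolding -/

/-- an unfolding measure -/
def UM (μ : Measure MM) : Prop := SFinite μ ∧ ∀ f : MM → ℝ≥0∞, Measurable f →
  (∀ x, dt x = 0 → f x = 0) → ∫⁻ x, ∑' G : Pr, iE (hh G = 1) * f (act G x) ∂μ = ∫⁻ x, f x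

def IsOrb (z : Pr × Pr) : Prop := z.1.2 = (0, 1) ∧ 0 ≤ z.1.1.2 ∧ z.1.1.2 < |z.1.1.1|

abbrev Orb : Type := {z : Pr × Pr // IsOrb z}

def nI (z : Pr × Pr) : ℤ := om2 z.1.1 z.2.1
def pI (z : Pr × Pr) : ℤ := om2 z.1.1 z.2.2
def sI (z : Pr × Pr) : ℤ := om2 z.1.2 z.2.1
def rI (z : Pr × Pr) : ℤ := om2 z.1.2 z.2.2

noncomputable def LL (μ : Measure MM) (S : Pr → MM → Prop) : ℝ≥0∞ :=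
  ∫⁻ x, (∑' P : Pr, iE (S P x)) ^ 2 ∂μ

/-- a support condition with a point map -/
structure Shp (μ : Measure MM) (pt : Pr → V) (S : Pr → MM → Prop) : Prop where
  eqv : ∀ P G, pt (pg P G) = vg (pt P) G
  inv : ∀ P G x, hh G = 1 → (S (pg P G) x ↔ S P (act G x))
  meas : ∀ P, MeasurableSet {x | S P x}
  sup : ∀ P x, S P x → Prim P.2 ∧ hh P ≠ 0 ∧ dt x ≠ 0 ∧ Prim (pt P)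
  fin : LL μ S ≠ ⊤

/-- a packet with support in `S` -/
structure Pac (S : Pr → MM → Prop) (Ψ : Pk) : Prop where
  meas : ∀ P, Measurable (Ψ P)
  inv : ∀ P G x, hh G = 1 → Ψ (pg P G) x = Ψ P (act G x)
  bd : ∀ P x, ‖Ψ P x‖ ≤ 1
  sp : ∀ P x, Ψ P x ≠ 0 → S P x

noncomputable def vol (S₁ S₂ : Pr → MM → Prop) (z : Pr × Pr) : ℝ≥0∞ :=
  volume {x | S₁ z.1 x ∧ S₂ z.2 x}

noncomputable def OS (ν : ℤ → ℂ) (pt₁ pt₂ : Pr → V) (Ψ₁ Ψ₂ : Pk) : ℂ :=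
  ∑' z : Orb, ν (om2 (pt₁ z.1.1) (pt₂ z.1.2)) * ∫ x, Ψ₁ z.1.1 x * conj (Ψ₂ z.1.2 x)

/-! ### the class of packets -/

def Cn (α : ℝ) (a : R2) : Prop := α ≤ a.1 ∧ a.1 ≤ 4 * α ∧ |a.2| ≤ a.1

def Adm (α : ℝ) (g : R2 → ℂ) : Prop :=
  Measurable g ∧ (∀ a, ‖g a‖ ≤ 1) ∧ ∀ a, g a ≠ 0 → Cn α a

noncomputable def E (ξ z : ℝ) : ℂ := (om z : ℂ) * ex (ξ * z)

noncomputable def FT1 (f : ℝ → ℂ) (y : ℝ) : ℂ := ∫ z : ℝ, f z * ex (-(y * z))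

noncomputable def Eh (ξ y : ℝ) : ℂ := FT1 (E ξ) y

structure Dat : Type where
  g : R2 → ℂ
  al : ℝ
  x1 : ℝ
  x2 : ℝ
  H2 : ℝ
  H : ℝ

noncomputable def Dat.PP (d : Dat) : ℝ := |d.H2| * |d.H|
noncomputable def Dat.DD (d : Dat) : ℝ := d.al ^ 2 * (d.PP + d.H ^ 2)
noncomputable def Dat.XX (d : Dat) : ℝ := d.al ^ 4 * (d.H2 ^ 2 + d.PP)
noncomputable def Dat.X (d : Dat) : ℝ := |d.H2| * d.al ^ 2 / |d.H|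
noncomputable def Dat.xi (d : Dat) : ℝ := 1 + |d.x1| + |d.x2|
noncomputable def Dat.CC (d : Dat) (Q : ℕ) : ℝ := 128 * d.al ^ 2 * d.H2 ^ 2 / Q
noncomputable def Dat.sc (d : Dat) (m : ℕ) : Dat := ⟨d.g, d.al, d.x1, d.x2, d.H2 / m, d.H / m⟩

def Dat.ok (d : Dat) (Λ : ℝ) (Q : ℕ) : Prop :=
  0 < d.al ∧ Adm d.al d.g ∧ d.al ≤ Λ ∧ |d.H2| ≤ Λ ∧ |d.H| ≤ Λ ∧ 1 ≤ Q ∧ (Q : ℝ) ≤ Λ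

/-- all vectors -/
noncomputable def pa (d : Dat) : Pk := fun P x =>
  iC (Prim P.2) * d.g (vx P.2 x) * (om (dt x) : ℂ) * E d.x1 (tt P x / d.H2) *
    E d.x2 ((hh P : ℝ) / d.H)

/-- primitive vectors -/
noncomputable def pk (d : Dat) : Pk := fun P x => iC (Prim P.1) * pa d P x

def SupA (α H2 H : ℝ) (P : Pr) (x : MM) : Prop :=
  Prim P.2 ∧ hh P ≠ 0 ∧ Cn α (vx P.2 x) ∧ 1 ≤ dt x ∧ dt x ≤ 2 ∧ |tt P x| ≤ 2 * |H2| ∧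
    |H| ≤ |(hh P : ℝ)| ∧ |(hh P : ℝ)| ≤ 2 * |H|

def Sup (α H2 H : ℝ) (P : Pr) (x : MM) : Prop := Prim P.1 ∧ SupA α H2 H P x

def SupL (α : ℝ) (P : Pr) (x : MM) : Prop := hh P = 1 ∧ SupA α 1 1 P x

/-- one dyadic block of levels -/
def AP (η : ℝ) : Prop := ∃ m : ℕ, ∀ ε : ℝ, 0 < ε → ∃ K : ℝ, 0 < K ∧ ∀ μ : Measure MM, UM μ →
  ∀ (d : Dat) (Λ : ℝ) (Q : ℕ), d.ok Λ Q →
    ∑ q ∈ Ico Q (2 * Q), LN μ q Prod.fst (pk d) ≤ ENNReal.ofReal (K * Λ ^ ε * d.xi ^ m *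
      ((1 + d.PP / Q) * (d.DD * Q + d.XX * (Q : ℝ) ^ η)))

/-- all levels up to `Q` -/
def APs (η : ℝ) : Prop := ∃ m : ℕ, ∀ ε : ℝ, 0 < ε → ∃ K : ℝ, 0 < K ∧ ∀ μ : Measure MM, UM μ →
  ∀ (d : Dat) (Λ : ℝ) (Q : ℕ), d.ok Λ Q →
    ∑ q ∈ Icc 1 Q, LN μ q Prod.fst (pk d) ≤ ENNReal.ofReal (K * Λ ^ ε * d.xi ^ m *
      (d.DD * (Q + |d.H2|) + d.XX * (Q : ℝ) ^ η))

/-- block form of `APs` -/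
def APb (η : ℝ) : Prop := ∃ m : ℕ, ∀ ε : ℝ, 0 < ε → ∃ K : ℝ, 0 < K ∧ ∀ μ : Measure MM, UM μ →
  ∀ (d : Dat) (Λ : ℝ) (Q : ℕ), d.ok Λ Q →
    ∑ q ∈ Ico Q (2 * Q), LN μ q Prod.fst (pk d) ≤ ENNReal.ofReal (K * Λ ^ ε * d.xi ^ m *
      (d.DD * (Q + |d.H2|) + d.XX * (Q : ℝ) ^ η))

/-- small radius -/
def APr (η : ℝ) : Prop := ∃ m : ℕ, ∀ ε : ℝ, 0 < ε → ∃ K : ℝ, 0 < K ∧ ∀ μ : Measure MM, UM μ →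
  ∀ (d : Dat) (Λ : ℝ) (Q : ℕ), d.ok Λ Q → d.X ^ (1 + η) ≤ Q →
    ∑ q ∈ Ico Q (2 * Q), LN μ q Prod.fst (pk d) ≤ ENNReal.ofReal (K * Λ ^ ε * d.xi ^ m *
      ((1 + d.PP / Q) * (d.DD * Q)))

/-- all vectors, with a coefficient that depends on the content -/
def APl (η : ℝ) : Prop := ∃ m : ℕ, ∀ ε : ℝ, 0 < ε → ∃ K : ℝ, 0 < K ∧ ∀ μ : Measure MM, UM μ →
  ∀ (d : Dat) (Λ : ℝ) (Q : ℕ) (lam : ℕ → ℕ → ℂ) (Y : ℝ), d.ok Λ Q → 0 ≤ Y →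
    (∀ q k, 1 ≤ k → ‖lam q k‖ ≤ k.divisors.card) →
    (∀ q k, 1 ≤ k → lam q k ≠ 0 → d.PP * (Nat.gcd k q : ℝ) ≤ Y * Q * (k : ℝ) ^ 2) →
    ∑ q ∈ Ico Q (2 * Q), LN μ q Prod.fst (fun P x => lam q (ct P.1) * pa d P x) ≤
      ENNReal.ofReal (K * Λ ^ ε * d.xi ^ m * ((1 + Y) * (d.DD * Q + d.XX * (Q : ℝ) ^ η)))

/-- all vectors, large area -/
def APd (η : ℝ) : Prop := ∃ m : ℕ, ∀ ε : ℝ, 0 < ε → ∃ K : ℝ, 0 < K ∧ ∀ μ : Measure MM, UM μ →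
  ∀ (d : Dat) (Λ : ℝ) (Q : ℕ), d.ok Λ Q → (Q : ℝ) ≤ 2 * d.PP →
    ∑ q ∈ Ico Q (2 * Q), LN μ q Prod.fst (pa d) ≤ ENNReal.ofReal (K * Λ ^ ε * d.xi ^ m *
      (d.DD * (Q + |d.H2|) + d.XX * (Q : ℝ) ^ η))

/-! ### general lemmas -/

def CoVStmt : Prop :=
  (∀ P : Pr, hh P ≠ 0 →
    (∀ f : MM → ℝ≥0∞, ∫⁻ x, f (act P x) = ENNReal.ofReal (1 / (hh P : ℝ) ^ 2) * ∫⁻ x, f x) ∧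
    (∀ f : MM → ℂ, ∫ x, f (act P x) = ((1 / (hh P : ℝ) ^ 2 : ℝ) : ℂ) * ∫ x, f x) ∧
    (∀ f : MM → ℝ, ∫ x, f (act P x) = 1 / (hh P : ℝ) ^ 2 * ∫ x, f x) ∧
    ∀ f : MM → ℝ, Integrable f → Integrable fun x => f (act P x)) ∧
  ∀ m : MM, dt m = 1 → ∀ f : MM → ℝ≥0∞, ∫⁻ x, f (rm m x) = ∫⁻ x, f x

def UmStmt : Prop := ∃ μ : Measure MM, UM μ

def RtStmt : Prop := ∀ (μ : Measure MM) (m : MM), UM μ → dt m = 1 →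
  UM (μ.map (rm m)) ∧ ∀ F : MM → ℝ≥0∞, ∫⁻ x, F x ∂(μ.map (rm m)) = ∫⁻ x, F (rm m x) ∂μ

def OrbStmt : Prop := ∀ z : Pr × Pr, Prim z.1.2 → hh z.1 ≠ 0 →
  ∃! w : (Pr × Pr) × Pr, IsOrb w.1 ∧ hh w.2 = 1 ∧ z = (pg w.1.1 w.2, pg w.1.2 w.2)

/-- the anchors at `x` -/
def An (G : Pr) (x : MM) : Prop := hh G = 1 ∧ 0 ≤ tt G x ∧ tt G x < 1

def AnchStmt : Prop := ∀ (x : MM) (P : Pr), Prim P.2 → (vx P.2 x).1 ≠ 0 →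
  ∃! w : Pr × V, An w.1 x ∧ P = (vg w.2 w.1, w.1.2)

def UnfStmt : Prop := ∀ μ : Measure MM, UM μ → ∀ f : Pr × Pr → MM → ℝ≥0∞,
  (∀ z, Measurable (f z)) →
  (∀ (z : Pr × Pr) G x, hh G = 1 → f (pg z.1 G, pg z.2 G) x = f z (act G x)) →
  (∀ z x, f z x ≠ 0 → Prim z.1.2 ∧ hh z.1 ≠ 0 ∧ dt x ≠ 0) →
  ∫⁻ x, ∑' z : Pr × Pr, f z x ∂μ = ∑' z : Orb, ∫⁻ x, f z.1 x

def UnfCStmt : Prop := ∀ μ : Measure MM, UM μ → ∀ f : Pr × Pr → MM → ℂ,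
  (∀ z, Measurable (f z)) →
  (∀ (z : Pr × Pr) G x, hh G = 1 → f (pg z.1 G, pg z.2 G) x = f z (act G x)) →
  (∀ z x, f z x ≠ 0 → Prim z.1.2 ∧ hh z.1 ≠ 0 ∧ dt x ≠ 0) →
  ∑' z : Orb, ∫⁻ x, ‖f z.1 x‖ₑ ≠ ⊤ →
  Integrable (fun x => ∑' z : Pr × Pr, f z x) μ ∧
    ∫ x, ∑' z : Pr × Pr, f z x ∂μ = ∑' z : Orb, ∫ x, f z.1 x

def CardStmt : Prop := ∀ q : ℕ, 1 ≤ q → ((PQ q).card : ℝ) = (q.totient : ℝ) * psiD q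

def GramStmt : Prop := ∀ q : ℕ, 1 ≤ q → ∀ y y' : V, Nat.Coprime (ct y) q →
  Nat.Coprime (ct y') q →
  ∑ w ∈ PQ q, ind q (om2 w y) * ind q (om2 w y') = (q.totient : ℂ) * ind q (om2 y y')

def GrsStmt : Prop := ∀ q : ℕ, 1 ≤ q → ∀ (pt₁ pt₂ : Pr → V) (a b : Pr → ℂ),
  (Summable fun P => ‖a P‖) → (Summable fun P => ‖b P‖) → (∀ P, a P ≠ 0 → Prim (pt₁ P)) →
  (∀ P, b P ≠ 0 → Prim (pt₂ P)) →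
  BV q (fun w => ∑' P : Pr, a P * ind q (om2 w (pt₁ P)))
      (fun w => ∑' P : Pr, b P * ind q (om2 w (pt₂ P))) =
    ∑' z : Pr × Pr, dl q (om2 (pt₁ z.1) (pt₂ z.2)) * (a z.1 * conj (b z.2))

def PbStmt : Prop := ∀ (g q : ℕ) (f : V → ℂ) (c : ℂ), 1 ≤ g → 1 ≤ q → Per q f →
  NC (g * q) f c ≤ g * (g.divisors.card : ℝ) * NC q f c

def GcdStmt : Prop :=
  (∀ q M : ℕ, 1 ≤ q → ∑ m ∈ Icc 1 M, (Nat.gcd m q : ℝ) / m ≤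
    (q.divisors.card : ℝ) * ∑ m ∈ Icc 1 M, 1 / (m : ℝ)) ∧
  (∀ n M : ℕ, 1 ≤ n → ∑ h ∈ Icc 1 M, (Nat.gcd h n : ℝ) ≤ (n.divisors.card : ℝ) * M) ∧
  (∀ e N : ℕ, 1 ≤ e → 1 ≤ N → ∑ a ∈ Icc N (2 * N), (Nat.gcd a e : ℝ) / a ≤
    2 * (e.divisors.card : ℝ)) ∧
  (∀ h a n : ℤ, h ≠ 0 → ((Ico 0 |h|).filter fun d => h ∣ a * d - n).card ≤ Int.gcd h a) ∧
  (∀ (r a n : ℤ) (Y : ℝ) (S : Finset ℤ), r ≠ 0 → Int.gcd r a = 1 → 0 ≤ Y →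
    (∀ s ∈ S, |(s : ℝ)| ≤ Y ∧ r ∣ a * s - n) → (S.card : ℝ) ≤ 2 * Y / |(r : ℝ)| + 1) ∧
  ∀ (m : ℤ) (S : Finset (ℤ × ℤ)), m ≠ 0 → (∀ k ∈ S, k.1 * k.2 = m) →
    S.card ≤ 2 * m.natAbs.divisors.card

def PsmStmt : Prop := ∀ q : ℕ, 1 ≤ q →
  (q : ℝ) / psiD q = ∑ e ∈ q.divisors, (ArithmeticFunction.moebius e : ℝ) / psiD e

def MinkSStmt : Prop := ∀ (ι : Type) [Countable ι] (μ : Measure MM) (q : ℕ) (f : Fld)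
  (fs : ι → Fld) (b : ι → ℝ) (B : ℝ), (∀ s, MF (fs s)) → (∀ s, 0 < b s) → Summable b →
  ∑' s, b s ≤ B → (∀ x, ∀ w ∈ PQ q, HasSum (fun s => fs s x w) (f x w)) →
  LF μ q f ≤ ENNReal.ofReal B * ∑' s, ENNReal.ofReal (1 / b s) * LF μ q (fs s)

def MinkIStmt : Prop := ∀ (S : Type) [MeasureSpace S] [SFinite (volume : Measure S)]
  (μ : Measure MM), SFinite μ → ∀ (q : ℕ) (f : Fld) (fs : S → Fld) (c : S → ℂ) (a : S → ℝ)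
  (B : ℝ), (∀ w, Measurable fun p : S × MM => fs p.1 p.2 w) → Measurable a → Integrable a →
  ∫ s, a s ≤ B → (∀ s, ‖c s‖ ≤ a s) →
  (∀ x, ∀ w ∈ PQ q, Integrable (fun s => c s * fs s x w) ∧ f x w = ∫ s, c s * fs s x w) →
  LF μ q f ≤ ENNReal.ofReal B * ∫⁻ s, ENNReal.ofReal (a s) * LF μ q (fs s)

def RoughStmt : Prop := ∀ μ : Measure MM, UM μ → ∀ (q : ℕ) (pt : Pr → V) (S : Pr → MM → Prop)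
  (Ψ : Pk), 1 ≤ q → Shp μ pt S → (∀ P x, ‖Ψ P x‖ ≤ 1) → (∀ P x, Ψ P x ≠ 0 → S P x) →
  L0 μ q (vf q pt Ψ) ≤ ∑' z : Orb, iE ((q : ℤ) ∣ om2 (pt z.1.1) (pt z.1.2)) * vol S S z.1

def OsStmt : Prop := ∀ μ : Measure MM, UM μ → ∀ (pt₁ pt₂ : Pr → V) (S₁ S₂ : Pr → MM → Prop),
  Shp μ pt₁ S₁ → Shp μ pt₂ S₂ → ∑' z : Orb, vol S₁ S₂ z.1 ≠ ⊤ ∧
  ∀ (q : ℕ) (Ψ₁ Ψ₂ : Pk), 1 ≤ q → Pac S₁ Ψ₁ → Pac S₂ Ψ₂ →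
    (∀ κ : ℝ, 0 < κ → ‖OS (dl q) pt₁ pt₂ Ψ₁ Ψ₂‖ₑ ≤
      ENNReal.ofReal κ * LN μ q pt₁ Ψ₁ + ENNReal.ofReal κ⁻¹ * LN μ q pt₂ Ψ₂) ∧
    (pt₁ = pt₂ → Ψ₁ = Ψ₂ → 0 ≤ (OS (dl q) pt₁ pt₂ Ψ₁ Ψ₂).re ∧
      LN μ q pt₁ Ψ₁ = ENNReal.ofReal (OS (dl q) pt₁ pt₂ Ψ₁ Ψ₂).re)

noncomputable def bmp : ContDiffBump (0 : ℝ) := ⟨1 / 200, 1 / 100, by norm_num, by norm_num⟩

/-- bump of radius `1/100` -/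
noncomputable def bb (x : ℝ) : ℝ := bmp x

noncomputable def th (a₁ a₂ b₁ b₂ : ℝ) : ℝ := bb (a₁ - 1) * bb a₂ * bb b₁ * bb (b₂ - 32 / 25)

/-- the weight of the new midpoint -/
noncomputable def th0 (A₀ : ℝ) (z : Pr × Pr) (x : MM) : ℝ :=
  th ((vx z.1.2 x).1 / A₀) ((vx z.1.2 x).2 / A₀) ((vx z.2.2 x).1 * A₀ / (rI z : ℝ))
    ((vx z.2.2 x).2 * A₀ / (rI z : ℝ))

noncomputable def c0 : ℝ := (∫ x : ℝ, bb x) ^ 4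

def ThStmt : Prop := 0 < c0 ∧ ∀ (A₀ : ℝ) (z : Pr × Pr), 0 < A₀ → rI z ≠ 0 →
  Integrable (th0 A₀ z) ∧ ∫ x, th0 A₀ z x = c0

def MidStmt : Prop := ∀ μ : Measure MM, UM μ → ∀ (ι : Type) (J : Finset ι) (n q : ℕ)
  (pt₁ pt₂ : Pr → V) (S₁ S₂ : Pr → MM → Prop) (Ψ₁ Ψ₂ : ι → (Fin n → ℝ) → Pk)
  (c : (Fin n → ℝ) → ℂ) (A₀ κ : ℝ) (G : Pr × Pr → ℂ), 1 ≤ q → Shp μ pt₁ S₁ → Shp μ pt₂ S₂ →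
  0 < A₀ → 0 < κ → Measurable c → Integrable c →
  (∀ j ∈ J, ∀ ζ, Pac S₁ (Ψ₁ j ζ) ∧ Pac S₂ (Ψ₂ j ζ)) →
  (∀ j ∈ J, ∀ P, (Measurable fun p : (Fin n → ℝ) × MM => Ψ₁ j p.1 P p.2) ∧
    Measurable fun p : (Fin n → ℝ) × MM => Ψ₂ j p.1 P p.2) →
  (∀ z, IsOrb z → G z ≠ 0 → rI z ≠ 0) →
  (∀ z, IsOrb z → ∀ x, G z * (th0 A₀ z x : ℂ) =
    ∑ j ∈ J, ∫ ζ, c ζ * (Ψ₁ j ζ z.1 x * conj (Ψ₂ j ζ z.2 x))) →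
  (Summable fun z : Orb => ‖G z.1‖) ∧
  ENNReal.ofReal c0 * ‖∑' z : Orb, dl q (om2 (pt₁ z.1.1) (pt₂ z.1.2)) * G z.1‖ₑ ≤
    ∑ j ∈ J, ∫⁻ ζ, ‖c ζ‖ₑ * (ENNReal.ofReal κ * LN μ q pt₁ (Ψ₁ j ζ) +
      ENNReal.ofReal κ⁻¹ * LN μ q pt₂ (Ψ₂ j ζ))

/-- ceiling of `Q / g` -/
def cq (Q g : ℕ) : ℕ := (Q + g - 1) / g

def PdlStmt : Prop := ∀ (μ : Measure MM) (Q M X : ℕ) (Δ Z : ℝ) (f : ℕ → Fld)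
  (fm : ℕ → ℕ → Fld) (U : ℕ → ℕ → ℝ≥0∞) (S : ℕ → ℕ → Prop), 1 ≤ Q → DivB X Δ → 2 * Q ≤ X →
  M ≤ X → 0 ≤ Z →
  (∀ q ∈ Ico Q (2 * Q), ∀ x, ∀ w ∈ PQ q, f q x w = ∑ m ∈ Icc 1 M, fm q m x w) →
  (∀ q ∈ Ico Q (2 * Q), ∀ m ∈ Icc 1 M, MF (fm q m) ∧ (∀ x, Per (q / Nat.gcd m q) (fm q m x)) ∧
    LF μ (q / Nat.gcd m q) (fm q m) ≤ iE (S m (Nat.gcd m q)) * U m (q / Nat.gcd m q)) →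
  (∀ m ∈ Icc 1 M, ∀ g, g ∣ m → S m g →
    ∑ q' ∈ Ico (cq Q g) (2 * cq Q g), U m q' ≤ ENNReal.ofReal (Z / (m : ℝ) ^ 2)) →
  ∑ q ∈ Ico Q (2 * Q), LF μ q (f q) ≤ ENNReal.ofReal (4 * Δ ^ 5 * Z)

/-! ### Fourier analysis -/

def F1Stmt : Prop := ∀ f : ℝ → ℂ, ContDiff ℝ (⊤ : ℕ∞) f → HasCompactSupport f →
  Continuous (FT1 f) ∧ (∀ A : ℕ, ∃ C : ℝ, 0 < C ∧ ∀ y, ‖FT1 f y‖ ≤ C / (1 + |y|) ^ A) ∧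
  ∀ z, f z = ∫ y : ℝ, FT1 f y * ex (y * z)

def EhStmt : Prop := ∀ A : ℕ, ∃ C : ℝ, 0 < C ∧ ∀ ξ y : ℝ,
  ‖Eh ξ y‖ ≤ C * (1 + |ξ|) ^ A / (1 + |y|) ^ A

noncomputable def wh (y : ℝ) : ℂ :=
  ∫ s : ℝ, (Wt s : ℂ) * Complex.exp (Complex.I * (s : ℂ) * (y : ℂ))

/-- smooth with bounded derivatives -/
def Bdd (Ω : ℝ → ℂ) : Prop :=
  ContDiff ℝ (⊤ : ℕ∞) Ω ∧ ∀ j : ℕ, ∃ B : ℝ, ∀ s, ‖iteratedDeriv j Ω s‖ ≤ B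

def WhStmt : Prop := Bdd ex ∧ Bdd wh ∧
  ∀ A : ℕ, ∃ C : ℝ, 0 < C ∧ ∀ s, ‖wh s‖ ≤ C / (1 + |s|) ^ A

def Co1Stmt : Prop := ∀ M A : ℕ, ∃ C : ℝ, 0 < C ∧ ∀ ξ l : ℝ, ∃ c : ℝ → ℂ, Measurable c ∧
  Integrable c ∧ (∀ ζ, ‖c ζ‖ ≤ C * (1 + |ξ|) ^ (M + A) / ((1 + |l|) ^ A * (1 + |ζ|) ^ M)) ∧
  ∀ z : ℝ, (om z : ℂ) * Eh ξ (l * z) = ∫ ζ : ℝ, c ζ * E ζ z

def Pois1Stmt : Prop := ∀ ξ H c θ : ℝ, H ≠ 0 →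
  HasSum (fun b : ℤ => ((|H| : ℝ) : ℂ) * Eh ξ (H * (b - θ)) * ex ((b - θ) * c))
    (∑' k : ℤ, E ξ ((k + c) / H) * ex (θ * k))

def PoisZStmt : Prop := ∀ (q : ℕ) (w : V) (β ξ₁ ξ₂ H2 H : ℝ), 1 ≤ q → Nat.Coprime (ct w) q →
  H2 ≠ 0 → H ≠ 0 →
  (Summable fun k : V => ‖Eh ξ₁ (H2 * k.1 / q) * Eh ξ₂ (-(H * (k.2 + k.1 * β) / q))‖) ∧
  ∑' k : V, E ξ₁ ((k.2 + k.1 * β) / H2) * E ξ₂ (k.1 / H) * ind q (om2 w k) =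
    ∑' k : V, ((|H2| * |H| / q : ℝ) : ℂ) *
      (Eh ξ₁ (H2 * k.1 / q) * Eh ξ₂ (-(H * (k.2 + k.1 * β) / q))) * ind q (om2 w k)

def MelAStmt : Prop := ∀ (f : ℝ → ℝ) (a b : ℝ), 0 < a → ContDiff ℝ (⊤ : ℕ∞) f →
  (∀ x, x ≤ a ∨ b ≤ x → f x = 0) → ∀ A : ℕ, ∃ C : ℝ, 0 < C ∧ ∃ φ : ℝ → ℂ, Continuous φ ∧
    (∀ ξ, ‖φ ξ‖ ≤ C / (1 + |ξ|) ^ A) ∧ ∀ x : ℝ, 0 < x → (f x : ℂ) = ∫ ξ : ℝ, φ ξ * pw x ξ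

def SepAStmt : Prop := ∀ (k n : ℕ) (A φ : (Fin k → ℝ) × (Fin n → ℝ) → ℝ) (Ω : ℝ → ℂ) (R : ℝ),
  ContDiff ℝ (⊤ : ℕ∞) A → ContDiff ℝ (⊤ : ℕ∞) φ → Bdd Ω → (∀ p, R < ‖p.2‖ → A p = 0) →
  ∀ j : ℕ, ∃ C : ℝ, 0 < C ∧ ∀ (π : Fin k → ℝ) (ξ : ℝ) (y : Fin n → ℝ), ‖π‖ ≤ R →
    ‖iteratedFDeriv ℝ j (fun y => (A (π, y) : ℂ) * Ω (ξ * φ (π, y))) y‖ ≤ C * (1 + |ξ|) ^ j

def SepBStmt : Prop := ∀ (n M : ℕ) (R : ℝ), ∃ C : ℝ, 0 < C ∧ ∀ (F : (Fin n → ℝ) → ℂ) (B : ℝ),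
  ContDiff ℝ (⊤ : ℕ∞) F → (∀ y, R < ‖y‖ → F y = 0) →
  (∀ j ≤ M, ∀ y, ‖iteratedFDeriv ℝ j F y‖ ≤ B) →
  ∃ c : (Fin n → ℝ) → ℂ, Measurable c ∧ Integrable c ∧ (∀ ζ, ‖c ζ‖ ≤ C * B / (1 + ‖ζ‖) ^ M) ∧
    ∀ y, F y = ∫ ζ, c ζ * ex (∑ i, ζ i * y i)

def SepStmt : Prop := ∀ (k n : ℕ) (A φ : (Fin k → ℝ) × (Fin n → ℝ) → ℝ) (Ω : ℝ → ℂ) (R : ℝ),
  ContDiff ℝ (⊤ : ℕ∞) A → ContDiff ℝ (⊤ : ℕ∞) φ → Bdd Ω → (∀ p, R < ‖p.2‖ → A p = 0) →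
  ∀ M : ℕ, ∃ C : ℝ, 0 < C ∧ ∀ (π : Fin k → ℝ) (ξ : ℝ), ‖π‖ ≤ R →
    ∃ c : (Fin n → ℝ) → ℂ, Measurable c ∧ Integrable c ∧
      (∀ ζ, ‖c ζ‖ ≤ C * (1 + |ξ|) ^ M / (1 + ‖ζ‖) ^ M) ∧
      ∀ y, (A (π, y) : ℂ) * Ω (ξ * φ (π, y)) = ∫ ζ, c ζ * ex (∑ i, ζ i * y i)

def IsLg (L : ℝ → ℝ) : Prop :=
  ContDiff ℝ (⊤ : ℕ∞) L ∧ ∀ z : ℝ, |z| ≤ 1 / 2 → Real.log (1 + z) = z * L z

def LgStmt : Prop := ∃ L : ℝ → ℝ, IsLg L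

def ScStmt : Prop := ∀ ε : ℝ, 0 < ε → ∃ C : ℝ, 0 < C ∧ ∀ Λ c : ℝ, 1 ≤ Λ → 1 ≤ 3 * Λ ^ 17 * c →
  (Summable fun i : ℕ => 1 / (1 + c * (4 / 3) ^ i)) ∧
    ∑' i : ℕ, 1 / (1 + c * (4 / 3) ^ i) ≤ C * Λ ^ ε

/-! ### positive counts -/

def InvB (α H2 H : ℝ) (z : Pr × Pr) : Prop :=
  hh z.1 ≠ 0 ∧ hh z.2 ≠ 0 ∧ |H| ≤ |(hh z.1 : ℝ)| ∧ |(hh z.1 : ℝ)| ≤ 2 * |H| ∧
  |H| ≤ |(hh z.2 : ℝ)| ∧ |(hh z.2 : ℝ)| ≤ 2 * |H| ∧ |(rI z : ℝ)| ≤ 32 * α ^ 2 ∧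
  |(pI z : ℝ)| ≤ 2 * |(rI z : ℝ)| * |H2| + 8 * |H| ∧
  |(sI z : ℝ)| ≤ 2 * |(rI z : ℝ)| * |H2| + 8 * |H| ∧
  |(nI z : ℝ)| ≤ 4 * H2 ^ 2 * |(rI z : ℝ)| + 32 * (|H2| * |H|)

noncomputable def vb (H2 H : ℝ) (r : ℤ) : ℝ := if r = 0 then |H2| / |H| else 1 / |(r : ℝ)|

/-- size conditions -/
def Bd (Λ α H2 H : ℝ) : Prop := 1 ≤ Λ ∧ 0 < α ∧ α ≤ Λ ∧ |H2| ≤ Λ ∧ |H| ≤ Λ

def Cs (α H2 H R₀ : ℝ) (z : Pr × Pr) : Prop :=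
  IsOrb z ∧ Prim z.1.1 ∧ Prim z.2.1 ∧ Prim z.2.2 ∧ InvB α H2 H z ∧ |(rI z : ℝ)| ≤ R₀

def InvStmt : Prop := ∀ (α H2 H : ℝ) (z : Pr × Pr) (x : MM), 0 < α → SupA α H2 H z.1 x →
  SupA α H2 H z.2 x → InvB α H2 H z

def FinStmt : Prop := ∀ (α H2 H : ℝ) (x : MM), 0 < α → {P : Pr | SupA α H2 H P x}.Finite

def VolZStmt : Prop := ∀ α Ω : ℝ, 0 < α →
  volume {Z : MM | Cn α Z.1 ∧ Cn α Z.2 ∧ |dt Z| ≤ Ω} ≤ ENNReal.ofReal (144 * α ^ 2 * Ω)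

def Vol1Stmt : Prop := ∀ (α H2 H : ℝ) (P : Pr), 0 < α → P.2 = (0, 1) →
  volume {x : MM | SupA α H2 H P x} ≤ ENNReal.ofReal (96 * α ^ 2 * (|H2| / |H|))

def VolStmt : Prop := ∀ (α H2 H : ℝ) (z : Pr × Pr), 0 < α → IsOrb z →
  vol (SupA α H2 H) (SupA α H2 H) z ≤ ENNReal.ofReal (288 * α ^ 2 * vb H2 H (rI z))

def LogVStmt : Prop := ∀ ε : ℝ, 0 < ε → ∃ C : ℝ, 0 < C ∧ ∀ Λ α : ℝ, 1 ≤ Λ → 0 < α → α ≤ Λ →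
  ∫⁻ Z : MM, iE (Cn α Z.1 ∧ Cn α Z.2 ∧ 1 ≤ |dt Z|) * ENNReal.ofReal (1 / |dt Z|) ≤
    ENNReal.ofReal (C * Λ ^ ε * α ^ 2)

/-- weighted count over the orbits that satisfy `T` -/
def CntP (T : Pr × Pr → Prop) : Prop := ∀ ε : ℝ, 0 < ε → ∃ C : ℝ, 0 < C ∧
  ∀ (Λ α H2 H R₀ A B : ℝ) (S : Finset (Pr × Pr)), Bd Λ α H2 H → 0 ≤ R₀ → 0 ≤ A → 0 ≤ B →
    (∀ z ∈ S, Cs α H2 H R₀ z ∧ T z) →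
    ∑ z ∈ S, (A + B / |(nI z : ℝ)|) * vb H2 H (rI z) ≤
      C * Λ ^ ε * ((|H2| * |H| + H ^ 2) * (B + A * (1 + |H2| * |H| + H2 ^ 2 * R₀)))

def CntAStmt : Prop := CntP fun z => nI z ≠ 0 ∧ pI z * sI z ≠ 0

def CntBStmt : Prop := CntP fun z => nI z ≠ 0 ∧ pI z * sI z = 0

def CntCStmt : Prop := ∀ ε : ℝ, 0 < ε → ∃ C : ℝ, 0 < C ∧
  ∀ (Λ α H2 H R₀ : ℝ) (S : Finset (Pr × Pr)), Bd Λ α H2 H →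
    (∀ z ∈ S, Cs α H2 H R₀ z ∧ nI z = 0) →
    ∑ z ∈ S, vb H2 H (rI z) ≤ C * Λ ^ ε * (|H2| * |H| + H ^ 2)

def TrivStmt : Prop := ∀ ε : ℝ, 0 < ε → ∃ C : ℝ, 0 < C ∧
  ∀ (Λ α H2 H R₀ A B B₀ : ℝ) (ν : ℤ → ℝ), Bd Λ α H2 H → 0 ≤ R₀ → 0 ≤ A → 0 ≤ B → 0 ≤ B₀ →
    ν 0 ≤ B₀ → (∀ n : ℤ, n ≠ 0 → |(n : ℝ)| ≤ 160 * Λ ^ 4 → ν n ≤ A + B / |(n : ℝ)|) →
    ∑' z : Orb, iE (|(rI z.1 : ℝ)| ≤ R₀) * ENNReal.ofReal (ν (nI z.1)) *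
        vol (Sup α H2 H) (Sup α H2 H) z.1 ≤
      ENNReal.ofReal (C * Λ ^ ε * (α ^ 2 * (|H2| * |H| + H ^ 2) *
        (B₀ + B + A * (1 + |H2| * |H| + H2 ^ 2 * R₀))))

def CntLStmt : Prop := ∀ ε : ℝ, 0 < ε → ∃ C : ℝ, 0 < C ∧
  ∀ (Λ α : ℝ) (a b : ℕ) (S : Finset (Pr × Pr)), 1 ≤ Λ → 0 < α → α ≤ Λ → 1 ≤ a → 1 ≤ b →
    (∀ z ∈ S, IsOrb z ∧ hh z.1 = 1 ∧ hh z.2 = 1 ∧ InvB α 1 1 z ∧ (a : ℤ) ∣ rI z ∧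
      (b : ℤ) ∣ nI z) →
    ∑ z ∈ S, vb 1 1 (rI z) ≤ C * Λ ^ ε * (1 + α ^ 2 / (a * b))

def LeftStmt : Prop := ∀ ε : ℝ, 0 < ε → ∃ C : ℝ, 0 < C ∧ ∀ μ : Measure MM, UM μ →
  ∀ (Λ α : ℝ) (Ψ : Pk), 1 ≤ Λ → 0 < α → α ≤ Λ → (∀ P x, ‖Ψ P x‖ ≤ 1) →
    (∀ P x, Ψ P x ≠ 0 → SupL α P x) →
    (∀ a b : ℕ, 1 ≤ a → 1 ≤ b → Nat.Coprime a b → LN μ (a * b) (vg ((a : ℤ), (b : ℤ))) Ψ ≤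
      ENNReal.ofReal (C * Λ ^ ε * (α ^ 2 * (1 + α ^ 2 / (a * b))))) ∧
    ∀ g : ℕ, 1 ≤ g → L0 μ g (vf g Prod.snd Ψ) ≤
      ENNReal.ofReal (C * Λ ^ ε * (α ^ 2 * (1 + α ^ 2 / g)))

def CrudeStmt : Prop := ∃ C : ℝ, 0 < C ∧ ∀ μ : Measure MM, UM μ → ∀ Λ α H2 H : ℝ,
  Bd Λ α H2 H → LL μ (SupA α H2 H) ≤ ENNReal.ofReal (C * Λ ^ 14 * (α ^ 2 * |H2|))

def ShpStmt : Prop := ∀ μ : Measure MM, UM μ → ∀ α : ℝ, 0 < α →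
  (∀ H2 H : ℝ, Shp μ Prod.fst (Sup α H2 H)) ∧
  (∀ (H2 H : ℝ) (m : MM), dt m = 1 → Shp μ Prod.fst fun P x => Sup α H2 H P (rm m x)) ∧
  (∀ a b : ℕ, Nat.Coprime a b → Shp μ (vg ((a : ℤ), (b : ℤ))) (SupL α)) ∧
  Shp μ Prod.snd (SupL α)

def BaseStmt : Prop := AP 1

def R1Stmt : Prop := ∀ η : ℝ, 0 < η → η ≤ 1 → APr η → AP (η / (1 + η))

/-! ### Poisson summation -/

/-- the dual packet -/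
noncomputable def pd (d : Dat) (q : ℕ) : Pk := fun P x =>
  iC (Prim P.2 ∧ hh P ≠ 0) * d.g (vx P.2 x) * (om (dt x) : ℂ) * ((d.PP / q : ℝ) : ℂ) *
    (Eh d.x1 (d.H2 * (hh P : ℝ) / q) * Eh d.x2 (-(d.H * tt P x / q)))

noncomputable def Rl (ξ H : ℝ) (g : ℕ) : ℂ := ∑' k : ℤ, iC (k ≠ 0) * Eh ξ (-(H * k / g))

/-- the terms on the line of the anchor -/
noncomputable def lnF (d : Dat) (q : ℕ) : Fld := fun x w =>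
  ∑' G : Pr, iC (An G x) * d.g (vx G.2 x) * (om (dt x) : ℂ) * ((d.PP / q : ℝ) : ℂ) *
    (Eh d.x1 0 * Rl d.x2 d.H (Int.gcd (om2 w G.2) q))

noncomputable def pc (d : Dat) (q : ℕ) (H' T' : ℝ) : Pk := fun P x =>
  pd d q P x * ((om ((hh P : ℝ) / H') * om (tt P x / T') : ℝ) : ℂ)

noncomputable def tm (d : Dat) (q : ℕ) (H' T₀ : ℝ) : Pk := fun P x =>
  pd d q P x * ((om ((hh P : ℝ) / H') * psi (|tt P x| / T₀) : ℝ) : ℂ)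

/-- signed scales -/
noncomputable def Ts (c : ℝ) (s : Bool × ℕ) : ℝ := (if s.1 then 1 else -1) * (c * (4 / 3) ^ s.2)

abbrev Ix : Type := (Bool × ℕ) × Option (Bool × ℕ)

noncomputable def pcs (d : Dat) (q : ℕ) (T₀ : ℝ) (s : Ix) : Pk :=
  s.2.elim (tm d q (Ts (4 / 5) s.1) T₀) fun s' => pc d q (Ts (4 / 5) s.1) (Ts T₀ s')

def ContStmt : Prop := ∀ (d : Dat) (q M : ℕ) (κ : ℕ → ℂ) (x : MM) (w : V), 1 ≤ q → 0 < d.al →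
  Adm d.al d.g → 2 * |d.H| ≤ M →
  vf q Prod.fst (fun P x => κ (ct P.1) * pa d P x) x w =
    ∑ m ∈ Icc 1 M, κ m * vf (q / Nat.gcd m q) Prod.fst (pk (d.sc m)) x w ∧
  vf q Prod.fst (fun P x => (∑ e ∈ (ct P.1).divisors, κ e) * pa d P x) x w =
    ∑ e ∈ Icc 1 M, κ e * vf (q / Nat.gcd e q) Prod.fst (pa (d.sc e)) x w

def AllStmt : Prop := ∀ η : ℝ, 0 < η → η ≤ 1 → AP η → APl η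

def PoisFStmt : Prop := ∀ (d : Dat) (q : ℕ) (x : MM), 1 ≤ q → 0 < d.al → Adm d.al d.g →
  (Summable fun P => ‖pd d q P x‖) ∧ ∃ κ : ℂ, ∀ w ∈ PQ q,
    vf q Prod.fst (pa d) x w = vf q Prod.fst (pd d q) x w + lnF d q x w + κ

def LineBStmt : Prop := ∃ C : ℝ, 0 < C ∧ ∀ (ξ H : ℝ) (g : ℕ), 1 ≤ g → H ≠ 0 →
  ‖Rl ξ H g‖ ≤ C * (1 + |ξ|) ^ 2 * min 1 (g / |H|)

def LineLStmt : Prop := ∀ ε : ℝ, 0 < ε → ∃ K : ℝ, 0 < K ∧ ∀ μ : Measure MM, UM μ →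
  ∀ (d : Dat) (Λ : ℝ) (Q : ℕ), d.ok Λ Q → 1 / 2 ≤ |d.H| →
    ∑ q ∈ Ico Q (2 * Q), LF μ q (lnF d q) ≤
      ENNReal.ofReal (K * Λ ^ ε * d.xi ^ 4 * (d.DD * |d.H2| + d.XX))

/-- one piece of the dual packet -/
def APp (η : ℝ) : Prop := ∃ m : ℕ, ∀ ε : ℝ, 0 < ε → ∃ K : ℝ, 0 < K ∧ ∀ μ : Measure MM, UM μ →
  ∀ (d : Dat) (Λ : ℝ) (Q : ℕ) (H' T' : ℝ), d.ok Λ Q → 1 / 2 ≤ |d.H| → (Q : ℝ) ≤ 2 * d.PP →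
    H' ≠ 0 → T' ≠ 0 →
    ∑ q ∈ Ico Q (2 * Q), LN μ q Prod.fst (pc d q H' T') ≤
      ENNReal.ofReal (K * Λ ^ ε * d.xi ^ m * ((d.DD * Q + d.XX * (Q : ℝ) ^ η) /
        ((1 + |d.H2| * |H'| / Q) ^ 2 * (1 + |d.H| * |T'| / Q) ^ 2)))

def PieceStmt : Prop := ∀ η : ℝ, 0 < η → η ≤ 1 → APl η → APp η

def TermStmt : Prop := ∃ K : ℝ, 0 < K ∧ ∀ μ : Measure MM, UM μ →
  ∀ (d : Dat) (Λ : ℝ) (Q : ℕ) (H' : ℝ), d.ok Λ Q → 1 / 2 ≤ |d.H| → (Q : ℝ) ≤ 2 * d.PP →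
    H' ≠ 0 →
    ∑ q ∈ Ico Q (2 * Q), LN μ q Prod.fst (tm d q H' (1 / Λ ^ 16)) ≤
      ENNReal.ofReal (K * d.xi ^ 16 * (d.DD * Q / (1 + |d.H2| * |H'| / Q) ^ 2))

def PartStmt : Prop := ∀ (d : Dat) (q : ℕ) (T₀ : ℝ) (x : MM) (w : V), 0 < T₀ →
  (Summable fun P => ‖pd d q P x‖) →
  HasSum (fun s : Ix => vf q Prod.fst (pcs d q T₀ s) x w) (vf q Prod.fst (pd d q) x w)

def DualStmt : Prop := ∀ η : ℝ, 0 < η → η ≤ 1 → APp η → APd η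

def BlkStmt : Prop := ∀ η : ℝ, 0 < η → η ≤ 1 → APl η → APd η → APb η

def DyStmt : Prop := ∀ η : ℝ, 0 < η → η ≤ 1 → APb η → APs η

/-! ### the exchange of the level and its complementary divisor -/

noncomputable def nuQ (Q : ℕ) (n : ℤ) : ℂ :=
  ∑ q ∈ Icc 1 (3 * Q), (Wt ((q : ℝ) / Q) : ℂ) * dl q n

noncomputable def swp (Q Cm : ℕ) (n : ℤ) : ℂ :=
  ∑ c ∈ Icc 1 Cm, (Wt (|(n : ℝ)| / (c * Q)) : ℂ) * dl c n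

def RsStmt : Prop := ∃ C I : ℝ, 0 < C ∧ ∀ (Y : ℝ) (M : ℕ), 0 < Y → 3 * Y ≤ M + 1 →
  |∑ k ∈ Icc 1 M, Wt ((k : ℝ) / Y) / k - I| ≤ C * min 1 (1 / Y) ∧
  |∑ k ∈ Icc 1 M, Wt (Y / (k : ℝ)) / k - I| ≤ C * min 1 (1 / Y)

def ErStmt : Prop := ∀ ε : ℝ, 0 < ε → ∃ C : ℝ, 0 < C ∧ ∀ (Λ : ℝ) (Q Cm : ℕ) (n : ℤ), 1 ≤ Q →
  (Q : ℝ) ≤ Λ → n ≠ 0 → |(n : ℝ)| ≤ Λ → 3 * |(n : ℝ)| ≤ Cm →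
  ‖nuQ Q n - swp Q Cm n‖ ≤ C * Λ ^ ε * (Q / |(n : ℝ)| + 1 / Q)

def NuStmt : Prop := ∀ (Q Cm : ℕ) (n : ℤ), 1 ≤ Q → ‖nuQ Q n‖ ≤ 3 * Q ∧
  (n ≠ 0 → ‖nuQ Q n‖ ≤ (n.natAbs.divisors.card : ℝ) + 4) ∧ swp Q Cm 0 = 0 ∧ ‖swp Q Cm n‖ ≤ Cm

def BigZ (d : Dat) (Z : MM) : Prop := 1000 * |d.H| ≤ |dt Z| * |d.H2|

noncomputable def Fz (d : Dat) (Z : MM) (z : Pr × Pr) : ℂ :=
  iC (Prim z.1.1 ∧ Prim z.1.2 ∧ Prim z.2.1 ∧ Prim z.2.2) *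
    ((1 / (rI z : ℝ) ^ 2 * om (dt Z / (rI z : ℝ)) ^ 2 : ℝ) : ℂ) *
    (E d.x1 (((pI z : ℝ) - (hh z.1 : ℝ) * (Z.2.1 / Z.1.1)) / ((rI z : ℝ) * d.H2)) *
      E d.x2 ((hh z.1 : ℝ) / d.H)) *
    conj (E d.x1 (((sI z : ℝ) + (hh z.2 : ℝ) / (Z.2.1 / Z.1.1)) / ((rI z : ℝ) * d.H2)) *
      E d.x2 ((hh z.2 : ℝ) / d.H))

noncomputable def Jb (d : Dat) (z : Pr × Pr) : ℂ :=
  ∫ x, iC (BigZ d (act (z.1.2, z.2.2) x)) * (pk d z.1 x * conj (pk d z.2 x))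

def ChgStmt : Prop := ∀ (d : Dat) (z : Pr × Pr), 0 < d.al → Adm d.al d.g →
  (Measurable fun Z : MM => iC (BigZ d Z) * (d.g Z.1 * conj (d.g Z.2)) * Fz d Z z) ∧
  Jb d z = ∫ Z : MM, iC (BigZ d Z) * (d.g Z.1 * conj (d.g Z.2)) * Fz d Z z ∧
  ∫⁻ Z : MM, ‖iC (BigZ d Z) * (d.g Z.1 * conj (d.g Z.2)) * Fz d Z z‖ₑ ≤
    vol (Sup d.al d.H2 d.H) (Sup d.al d.H2 d.H) z

/-- smooth, equal to `1 / x` on `1/10 ≤ x` -/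
noncomputable def iv (x : ℝ) : ℝ := Real.smoothTransition (20 * x - 1) * x⁻¹

noncomputable def bmq : ContDiffBump (0 : ℝ) := ⟨10, 11, by norm_num, by norm_num⟩

noncomputable def cut (y : Fin 9 → ℝ) : ℝ := ∏ i, bmq (y i)

noncomputable def sg (ω : ℝ) : ℝ := ω / |ω|

def rot (s : ℝ) : MM := ((0, -s), (s, 0))

/-- the nine variables -/
noncomputable def yv (A₀ ω Ha2 Hb2 Ha Hb : ℝ) (z : Pr × Pr) (x : MM) : Fin 9 → ℝ :=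
  ![(vx z.1.2 x).1 / A₀, (vx z.1.2 x).2 / A₀, (vx z.2.2 x).1 * A₀ / ω, (vx z.2.2 x).2 * A₀ / ω,
    dt x, tt z.1 x / Ha2, tr z.2 x / Hb2, (hh z.1 : ℝ) / Ha, (hh z.2 : ℝ) / Hb]

noncomputable def ch1 (α A₀ Ha2 ξ Ha : ℝ) (i : ℤ) (ζ : Fin 9 → ℝ) : Dat :=
  ⟨fun a => iC (Cn α a) * ex ((ζ 0 * a.1 + ζ 1 * a.2) / A₀), α, ζ 5 * (4 / 3) ^ i, ξ + ζ 7,
    Ha2 * (4 / 3) ^ i, Ha⟩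

noncomputable def ch2 (α B₀ Hb2 ξ Hb : ℝ) (j : ℤ) (ζ : Fin 9 → ℝ) : Dat :=
  ⟨fun a => iC (Cn α a) * ex (-((ζ 3 * a.1 - ζ 2 * a.2) / B₀)), α, -(ζ 6 * (4 / 3) ^ j), ξ - ζ 8,
    Hb2 * (4 / 3) ^ j, Hb⟩

/-- first child -/
noncomputable def k1 (α A₀ Ha2 ξ Ha : ℝ) (i : ℤ) (ζ : Fin 9 → ℝ) : Pk := fun P x =>
  ex (ζ 4 * dt x) * pk (ch1 α A₀ Ha2 ξ Ha i ζ) P x

/-- second child -/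
noncomputable def k2 (α A₀ ω Hb2 ξ Hb : ℝ) (j : ℤ) (ζ : Fin 9 → ℝ) : Pk := fun P x =>
  pk (ch2 α (|ω| / A₀) Hb2 ξ Hb j ζ) P (rm (rot (sg ω)) x)

/-- the rough packet at the top -/
noncomputable def kL (A₀ : ℝ) (ζ : Fin 9 → ℝ) : Pk := fun P x =>
  iC (SupL (A₀ / 2) P x) * (om (dt x) : ℂ) *
    ex ((ζ 0 * (vx P.2 x).1 + ζ 1 * (vx P.2 x).2) / A₀ + ζ 4 * dt x + ζ 5 * tt P x +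
      ζ 7 * (hh P : ℝ))

def ChStmt : Prop :=
  (∀ (α A₀ H2 ξ H : ℝ) (i : ℤ) (ζ : Fin 9 → ℝ), Adm α (ch1 α A₀ H2 ξ H i ζ).g ∧
    Adm α (ch2 α A₀ H2 ξ H i ζ).g) ∧
  (∀ (α A₀ ω H2 ξ H H2' : ℝ) (i : ℤ), ω ≠ 0 → 5 / 6 * |H2 * (4 / 3) ^ i| ≤ |H2'| →
    (∀ ζ, Pac (Sup α H2' H) (k1 α A₀ H2 ξ H i ζ) ∧
      Pac (fun P x => Sup α H2' H P (rm (rot (sg ω)) x)) (k2 α A₀ ω H2 ξ H i ζ)) ∧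
    ∀ P, (Measurable fun p : (Fin 9 → ℝ) × MM => k1 α A₀ H2 ξ H i p.1 P p.2) ∧
      Measurable fun p : (Fin 9 → ℝ) × MM => k2 α A₀ ω H2 ξ H i p.1 P p.2) ∧
  (∀ A₀ : ℝ, (∀ ζ, Pac (SupL (A₀ / 2)) (kL A₀ ζ)) ∧
    ∀ P, Measurable fun p : (Fin 9 → ℝ) × MM => kL A₀ p.1 P p.2) ∧
  (∀ (α β A₀ ω Ha2 Hb2 ξ ξ' Ha Hb : ℝ) (i j : ℤ) (ζ : Fin 9 → ℝ) (z : Pr × Pr) (x : MM),
    ω ≠ 0 → 0 < A₀ →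
    k1 α A₀ Ha2 ξ Ha i 0 z.1 x * conj (k2 β A₀ ω Hb2 ξ' Hb j 0 z.2 x) *
        ex (∑ l, ζ l * yv A₀ ω Ha2 Hb2 Ha Hb z x l) =
      k1 α A₀ Ha2 ξ Ha i ζ z.1 x * conj (k2 β A₀ ω Hb2 ξ' Hb j ζ z.2 x)) ∧
  ∀ (β A₀ ω Hb2 ξ' Hb : ℝ) (j : ℤ) (ζ : Fin 9 → ℝ) (z : Pr × Pr) (x : MM), ω ≠ 0 → 0 < A₀ →
    kL A₀ 0 z.1 x * conj (k2 β A₀ ω Hb2 ξ' Hb j 0 z.2 x) *
        ex (∑ l, ζ l * yv A₀ ω 1 Hb2 1 Hb z x l) =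
      kL A₀ ζ z.1 x * conj (k2 β A₀ ω Hb2 ξ' Hb j ζ z.2 x)

abbrev PY : Type := (Fin 4 → ℝ) × (Fin 9 → ℝ)

noncomputable def rh (p : PY) : ℝ := (p.2 0 * p.2 3 - p.2 1 * p.2 2) * iv (p.2 4)

noncomputable def thA (p : PY) : ℝ :=
  th (p.2 0) (p.2 1) (p.2 2 * iv (rh p)) (p.2 3 * iv (rh p)) * cut p.2

noncomputable def ph2 (p : PY) : ℝ :=
  p.2 5 + p.2 7 * p.1 0 * p.1 1 * p.2 2 * iv (p.2 0) * iv (rh p)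

noncomputable def sh2 (p : PY) : ℝ :=
  p.2 6 - p.2 8 * p.1 0 * p.1 1 * p.2 1 * iv (p.2 3) * iv (rh p)

noncomputable def z1 (p : PY) : ℝ := ph2 p - p.2 7 * p.1 0 * p.1 2 * iv (rh p)

noncomputable def z2 (p : PY) : ℝ := sh2 p + p.2 8 * p.1 0 * iv (p.1 2) * iv (rh p)

noncomputable def nh2 (p : PY) : ℝ :=
  rh p * ph2 p * sh2 p + p.2 7 * p.2 8 * p.1 0 ^ 2 * iv (rh p)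

noncomputable def A2 (p : PY) : ℝ :=
  thA p * (iv (rh p) ^ 2 * om (iv (rh p)) ^ 2) * (om (z1 p) * om (z2 p) * Wt (p.1 3 * nh2 p))

noncomputable def f2 (p : PY) : ℝ := z1 p - z2 p

/-- the four parameters -/
noncomputable def pi2 (d : Dat) (Z : MM) (Q c : ℕ) : Fin 4 → ℝ :=
  ![d.H / (dt Z * d.H2), sg (dt Z), Z.2.1 / Z.1.1, |dt Z| * d.H2 ^ 2 / (c * Q)]

noncomputable def ph3 (p : PY) : ℝ := -(rh p * p.2 5) - p.2 2 * p.1 2 * iv (p.2 0)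

noncomputable def v13 (p : PY) : ℝ := rh p * p.2 6 - p.2 8 * p.1 3 * p.2 1 * iv (p.2 3)

noncomputable def v23 (p : PY) : ℝ := (ph3 p * v13 p - p.2 8 * p.1 3 * p.1 2) * iv (rh p)

noncomputable def A3 (p : PY) : ℝ :=
  thA p * (om (v13 p * p.1 0) * om (v23 p * p.1 1) * om (rh p) * om (ph3 p))

noncomputable def f3 (L : ℝ → ℝ) (p : PY) : ℝ :=
  p.2 8 * L (p.2 8 * p.1 3 * p.1 2 * iv (v23 p) * iv (rh p)) * iv (v23 p) * iv (rh p)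

def AmpStmt : Prop := ContDiff ℝ (⊤ : ℕ∞) A2 ∧ ContDiff ℝ (⊤ : ℕ∞) f2 ∧
  ContDiff ℝ (⊤ : ℕ∞) A3 ∧ (∀ L : ℝ → ℝ, ContDiff ℝ (⊤ : ℕ∞) L → ContDiff ℝ (⊤ : ℕ∞) (f3 L)) ∧
  ∀ p : PY, 11 < ‖p.2‖ → A2 p = 0 ∧ A3 p = 0

def Id2Stmt : Prop := ∀ (d : Dat) (Z : MM) (Q c : ℕ) (z : Pr × Pr), 0 < d.al → Cn d.al Z.1 →
  Cn d.al Z.2 → BigZ d Z → 1 ≤ Q → 1 ≤ c →
  (Fz d Z z * (Wt (|(nI z : ℝ)| / (c * Q)) : ℂ) ≠ 0 → 1 ≤ |dt Z| ∧ d.H2 ≠ 0 ∧ d.H ≠ 0 ∧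
    rI z ≠ 0 ∧ 1 / 4 ≤ pi2 d Z Q c 3 ∧ pi2 d Z Q c 3 ≤ 4) ∧
  (dt Z ≠ 0 → d.H2 ≠ 0 → d.H ≠ 0 → ∀ x : MM,
    Fz d Z z * (Wt (|(nI z : ℝ)| / (c * Q)) : ℂ) * (th0 √|dt Z| z x : ℂ) =
      ∑ j ∈ Icc (-1 : ℤ) 1 ×ˢ Icc (-1 : ℤ) 1, ((1 / dt Z ^ 2 : ℝ) : ℂ) *
        (k1 (√|dt Z| / 2) √|dt Z| d.H2 d.x2 d.H j.1 0 z.1 x *
          conj (k2 (√|dt Z| / 2) √|dt Z| (dt Z) d.H2 d.x2 d.H j.2 0 z.2 x)) *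
        ((A2 (pi2 d Z Q c, yv √|dt Z| (dt Z) d.H2 d.H2 d.H d.H z x) : ℂ) *
          ex (d.x1 * f2 (pi2 d Z Q c, yv √|dt Z| (dt Z) d.H2 d.H2 d.H d.H z x))))

def FixP (η : ℝ) : Prop := ∃ m : ℕ, ∀ ε : ℝ, 0 < ε → ∃ K : ℝ, 0 < K ∧
  ∀ (d : Dat) (Λ : ℝ) (Q Cm : ℕ) (Z : MM), d.ok Λ Q → Cn d.al Z.1 → Cn d.al Z.2 → BigZ d Z →
    ‖∑' z : Orb, swp Q Cm (nI z.1) * Fz d Z z.1‖ₑ ≤ iE (1 ≤ |dt Z|) *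
      ENNReal.ofReal (K * Λ ^ ε * d.xi ^ m * ((d.PP + d.H ^ 2) * (d.CC Q + |d.H2|) / |dt Z| +
        (d.H2 ^ 2 + d.PP) * d.CC Q ^ η))

def FixStmt : Prop := ∀ η : ℝ, 0 < η → η ≤ 1 → APs η → FixP η

def OutP (η : ℝ) : Prop := ∃ m : ℕ, ∀ ε : ℝ, 0 < ε → ∃ K : ℝ, 0 < K ∧
  ∀ (d : Dat) (Λ : ℝ) (Q Cm : ℕ), d.ok Λ Q →
    ‖∑' z : Orb, swp Q Cm (nI z.1) * Jb d z.1‖ₑ ≤
      ENNReal.ofReal (K * Λ ^ ε * d.xi ^ m * (d.DD * (d.CC Q + |d.H2|) + d.XX * d.CC Q ^ η))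

def OutStmt : Prop := ∀ η : ℝ, 0 < η → η ≤ 1 → FixP η → OutP η

def R2Stmt : Prop := ∀ η : ℝ, 0 < η → η ≤ 1 → OutP η → APr η

/-! ### the top level -/

/-- the smooth zeta sum -/
noncomputable def Zo (y t : ℝ) : ℂ :=
  ∑ n ∈ Icc 1 ⌊2 * y⌋₊, (om ((n : ℝ) / y) : ℂ) * pw (n : ℝ) t

noncomputable def Q4 (T y : ℝ) (a b : ℕ) : ℂ :=
  ∑ k₁ ∈ Icc 1 ⌊2 * y⌋₊, ∑ l₂ ∈ Icc 1 ⌊2 * y⌋₊, ∑ k₂ ∈ Icc 1 ⌊2 * y⌋₊, ∑ l₁ ∈ Icc 1 ⌊2 * y⌋₊,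
    ((om ((k₁ : ℝ) / y) * om ((l₂ : ℝ) / y) * om ((k₂ : ℝ) / y) * om ((l₁ : ℝ) / y) : ℝ) : ℂ) *
      wh (T * Real.log (((a : ℝ) * k₁ * l₁) / ((b : ℝ) * l₂ * k₂)))

def ap (a e : ℕ) : ℕ := a / Nat.gcd a e

noncomputable def Gw (T y : ℝ) (a b e f : ℕ) (P : Pr) : ℂ :=
  ((om ((e : ℝ) * P.1.1 / (a * y)) * om ((e : ℝ) * P.1.2 / (b * y)) *
      om ((f : ℝ) * P.2.1 / y) * om ((f : ℝ) * P.2.2 / y) : ℝ) : ℂ) *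
    wh (T * Real.log (((P.1.1 : ℝ) * P.2.2) / ((P.1.2 : ℝ) * P.2.1)))

/-- pairs of primitive vectors in a box -/
noncomputable def Bx (M : ℕ) : Finset Pr :=
  ((Icc (1 : ℤ) M ×ˢ Icc (1 : ℤ) M) ×ˢ (Icc (1 : ℤ) M ×ˢ Icc (1 : ℤ) M)).filter
    fun P => ct P.1 = 1 ∧ ct P.2 = 1

noncomputable def TS (T y : ℝ) (a b e f M : ℕ) (κ : Pr → ℂ) : ℂ :=
  ∑ P ∈ Bx M, Gw T y a b e f P * κ P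

noncomputable def dlT (a b e : ℕ) (P : Pr) : ℂ :=
  iC (Nat.Coprime (ap a e) (ap b e)) *
    dl (ap a e * ap b e) (om2 ((ap a e : ℤ), (ap b e : ℤ)) P.1)

/-- ranges at the top -/
def Rg (T y : ℝ) (N M : ℕ) : Prop :=
  1 ≤ T ∧ 0 < y ∧ y ≤ 2 * T ∧ 1 ≤ N ∧ (N : ℝ) ≤ 2 * T ∧ 4 * N * y ≤ M ∧ (M : ℝ) ≤ 20 * T ^ 2

def ExpStmt : Prop := ∀ (N : ℕ) (T y : ℝ) (α : ℕ → ℂ), 1 ≤ N → 0 < T →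
  Integrable (fun t : ℝ => Wt (t / T) * (‖Zo y t‖ ^ 4 * ‖DP N α t‖ ^ 2)) ∧
  ((∫ t : ℝ, Wt (t / T) * (‖Zo y t‖ ^ 4 * ‖DP N α t‖ ^ 2) : ℝ) : ℂ) =
    T * ∑ a ∈ Icc N (2 * N), ∑ b ∈ Icc N (2 * N), α a * conj (α b) * Q4 T y a b

def RepStmt : Prop := ∀ (T y : ℝ) (N M a b : ℕ), Rg T y N M → a ∈ Icc N (2 * N) →
  b ∈ Icc N (2 * N) →
  Q4 T y a b = ∑ e ∈ Icc 1 M, ∑ f ∈ Icc 1 M, TS T y a b e f M fun P =>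
    iC (Nat.Coprime (ap a e) (ap b e)) *
      ind (ap a e * ap b e) (om2 ((ap a e : ℤ), (ap b e : ℤ)) P.1)

def DiagStmt : Prop := ∀ ε : ℝ, 0 < ε → ∃ C : ℝ, 0 < C ∧ ∀ (T y : ℝ) (N M : ℕ), Rg T y N M →
  ∑ a ∈ Icc N (2 * N), ∑ b ∈ Icc N (2 * N), ∑ e ∈ Icc 1 M, ∑ f ∈ Icc 1 M,
    ‖TS T y a b e f M fun P => iC (hh P = 0) * dlT a b e P‖ ≤ C * T ^ ε * (N * y ^ 2)

def M4Stmt : Prop := ∀ ε : ℝ, 0 < ε → ∃ C : ℝ, 0 < C ∧ ∀ T y : ℝ, 1 ≤ T → 0 < y →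
  y ≤ 8 * T ^ 2 → ∫ t in (T / 2)..(3 * T), ‖Zo y t‖ ^ 4 ≤ C * T ^ ε * (T * y ^ 2)

def Lev1Stmt : Prop := ∀ ε : ℝ, 0 < ε → ∃ C : ℝ, 0 < C ∧ ∀ (T y : ℝ) (N M a b e f : ℕ),
  Rg T y N M → a ∈ Icc N (2 * N) → b ∈ Icc N (2 * N) → 1 ≤ e → 1 ≤ f →
  ‖TS T y a b e f M fun _ => 1‖ ≤ C * T ^ ε * (N * y / e * (y / f))

def TailStmt : Prop := ∀ δ : ℝ, 0 < δ → ∃ C : ℝ, 0 < C ∧ ∀ (T y : ℝ) (N M a b e f : ℕ)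
  (κ : Pr → ℂ), Rg T y N M → a ∈ Icc N (2 * N) → b ∈ Icc N (2 * N) → 1 ≤ e → 1 ≤ f →
  (∀ P, ‖κ P‖ ≤ 1) → (∀ P, κ P ≠ 0 → T ^ δ * (N * y / e * (y / f)) / T ≤ |(hh P : ℝ)|) →
  ‖TS T y a b e f M κ‖ ≤ C * y ^ 2 / T ^ 6

noncomputable def GT (T y : ℝ) (a b e f : ℕ) (H' : ℝ) (z : Pr × Pr) : ℂ :=
  iC (hh z.1 = 1) * iC (Prim z.2.1 ∧ Prim z.2.2) * Gw T y a b e f z.2 *
    (om ((hh z.2 : ℝ) / H') : ℂ)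

noncomputable def pi3 (N a b : ℕ) (A₀ y₁ y₂ H' : ℝ) : Fin 4 → ℝ :=
  ![(N : ℝ) / a, (N : ℝ) / b, 1 / A₀ ^ 2, H' * A₀ ^ 2 / (y₁ * y₂)]

def Id3Stmt : Prop := ∀ (L : ℝ → ℝ) (T y A₀ H' y₁ y₂ : ℝ) (N a b e f : ℕ) (z : Pr × Pr),
  IsLg L → 0 < y → 1 ≤ A₀ → H' ≠ 0 → 1 ≤ N → a ∈ Icc N (2 * N) → b ∈ Icc N (2 * N) → 1 ≤ e →
  1 ≤ f → y₁ = N * y / e → y₂ = y / f → |H'| * A₀ ^ 2 / (y₁ * y₂) ≤ 1 / 100 → IsOrb z →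
  (GT T y a b e f H' z ≠ 0 → rI z ≠ 0) ∧ ∀ x : MM,
    GT T y a b e f H' z * (th0 A₀ z x : ℂ) =
      ∑ j ∈ Ico (-3 : ℤ) 5,
        (kL A₀ 0 z.1 x * conj (k2 (y₂ / A₀) A₀ (-y₂) (y₁ / y₂) 0 H' j 0 z.2 x)) *
        ((A3 (pi3 N a b A₀ y₁ y₂ H', yv A₀ (-y₂) 1 (y₁ / y₂) 1 H' z x) : ℂ) *
          wh (T * H' / (y₁ * y₂) *
            f3 L (pi3 N a b A₀ y₁ y₂ H', yv A₀ (-y₂) 1 (y₁ / y₂) 1 H' z x)))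

def TopP (η : ℝ) : Prop := ∃ m : ℕ, ∀ ε : ℝ, 0 < ε → ∃ K : ℝ, 0 < K ∧
  ∀ (δ T y H' : ℝ) (N M e f : ℕ), 0 < δ → δ ≤ 1 / 4 → 10 ^ 8 ≤ T → Rg T y N M → e ∈ Icc 1 M →
    f ∈ Icc 1 M → 4 / 5 ≤ |H'| → |H'| ≤ T ^ δ * (N * y / e * (y / f)) / T →
    ∑ a ∈ Icc N (2 * N), ∑ b ∈ Icc N (2 * N),
        ‖TS T y a b e f M fun P => dlT a b e P * (om ((hh P : ℝ) / H') : ℂ)‖ ≤
      K * T ^ (ε + 2 * η + m * δ) *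
        (N * y / e * (y / f) * (1 + y ^ 2 / T) ^ 2 * (((N : ℝ) ^ 2 + √T) / √T))

def TopMidStmt : Prop := ∀ η : ℝ, 0 < η → η ≤ 1 → APs η → TopP η

/-- the twisted fourth moment -/
def WattI : Prop := ∀ ε : ℝ, 0 < ε → ∃ C : ℝ, 0 < C ∧ ∀ (N : ℕ) (T y : ℝ) (α : ℕ → ℂ),
  1 ≤ T → 0 < y → y ≤ 2 * T → 1 ≤ N → (N : ℝ) ≤ 2 * T → (∀ n, ‖α n‖ ≤ 1) →
  ∫ t in T..(2 * T), ‖Zo y t‖ ^ 4 * ‖DP N α t‖ ^ 2 ≤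
    C * T ^ ε * ((T + √T * (N : ℝ) ^ 2) * (y ^ 2 * N) * (1 + y ^ 2 / T) ^ 2)

/-- the same on a well spaced set -/
def WattD : Prop := ∀ ε : ℝ, 0 < ε → ∃ C : ℝ, 0 < C ∧ ∀ (N : ℕ) (T y : ℝ) (α : ℕ → ℂ)
  (S : Finset ℝ), 2 ≤ T → 0 < y → y ≤ T → 1 ≤ N → (N : ℝ) ≤ T → (∀ n, ‖α n‖ ≤ 1) →
  (∀ t ∈ S, T ≤ t ∧ t ≤ 2 * T) → (∀ s ∈ S, ∀ t ∈ S, s ≠ t → 1 ≤ |s - t|) →
  ∑ t ∈ S, ‖Zo y t‖ ^ 4 * ‖DP N α t‖ ^ 2 ≤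
    C * T ^ ε * ((T + √T * (N : ℝ) ^ 2) * (y ^ 2 * N) * (1 + y ^ 2 / T) ^ 2)

def TopSumStmt : Prop := (∀ η₀ : ℝ, 0 < η₀ → ∃ η : ℝ, 0 < η ∧ η ≤ η₀ ∧ TopP η) → WattI

def DiscStmt : Prop := WattI → WattD

end Pool.Agent.MP_c853c5_nt.W
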