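import Pool.Agent.MP_c853c5_nt.W.Api

/-!
From primitive vectors to all vectors, with a coefficient that depends on the content.
-/

set_option autoImplicit false

open Finset MeasureTheory
open scoped ENNReal ComplexConjugate

namespace Pool.Agent.MP_c853c5_nt.W

open Pool.Agent.MP_2a1f0e_nt Pool.Agent.MP_2a1f0e_nt.GM Pool.Agent.MP_2a1f0e_nt.DH

lemma blk_All {η Y : ℝ} (hη : 0 < η) (d : Dat) {Q g k : ℕ} (hQ : 1 ≤ Q) (hg : 1 ≤ g)
    (hk : 1 ≤ k) (hY : 0 ≤ Y) (hS : d.PP * (g : ℝ) ≤ Y * Q * (k : ℝ) ^ 2) :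
    (1 + (d.sc k).PP / (cq Q g : ℕ)) *
        ((d.sc k).DD * (cq Q g : ℕ) + (d.sc k).XX * ((cq Q g : ℕ) : ℝ) ^ η) ≤
      (1 + Y) * (d.DD * Q + d.XX * (Q : ℝ) ^ η) / (k : ℝ) ^ 2 := by
  obtain ⟨h1, h2, h3, -⟩ := cq_facts hQ hg
  have c1 : (1 : ℝ) ≤ (cq Q g : ℕ) := by exact_mod_cast h1
  have c2 : ((cq Q g : ℕ) : ℝ) ≤ Q := by exact_mod_cast h2
  have c3 : (Q : ℝ) ≤ g * (cq Q g : ℕ) := by exact_mod_cast h3
  have g0 : (0 : ℝ) < g := by exact_mod_cast hg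
  have k0 : (0 : ℝ) < k := by exact_mod_cast hk
  have c0 : (0 : ℝ) < (cq Q g : ℕ) := by linarith
  have hD := d.DD_nonneg
  have hX := d.XX_nonneg
  have e1 : (d.sc k).PP / (cq Q g : ℕ) ≤ Y := by
    rw [Dat.sc_PP, div_div, div_le_iff₀ (by positivity)]
    have : Y * Q * (k : ℝ) ^ 2 ≤ Y * (g * (cq Q g : ℕ)) * (k : ℝ) ^ 2 := by gcongr
    have h4 : d.PP * (g : ℝ) ≤ Y * ((k : ℝ) ^ 2 * (cq Q g : ℕ)) * g := by
      refine hS.trans (this.trans_eq ?_)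
      ring
    exact le_of_mul_le_mul_right h4 g0
  have e2 : (d.sc k).DD * (cq Q g : ℕ) + (d.sc k).XX * ((cq Q g : ℕ) : ℝ) ^ η ≤
      (d.DD * Q + d.XX * (Q : ℝ) ^ η) / (k : ℝ) ^ 2 := by
    rw [Dat.sc_DD, Dat.sc_XX, div_mul_eq_mul_div, div_mul_eq_mul_div, ← add_div]
    gcongr
  have e3 : 0 ≤ (d.sc k).DD * (cq Q g : ℕ) + (d.sc k).XX * ((cq Q g : ℕ) : ℝ) ^ η := by
    have := (d.sc k).DD_nonneg
    have := (d.sc k).XX_nonneg
    positivity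
  rw [mul_div_assoc]
  exact mul_le_mul (by linarith) e2 e3 (by linarith)

theorem all_stmt (hP : PdlStmt) (hC : ContStmt) : AllStmt := by
  intro η hη _ hA
  obtain ⟨m, hA⟩ := hA
  refine ⟨m, fun ε hε => ?_⟩
  obtain ⟨K, hK, hA⟩ := hA (ε / 2) (by linarith)
  obtain ⟨C, hC1, hD⟩ := exD 1 7 4 (show 0 < ε / 2 by linarith)
  refine ⟨4 * C * K, by positivity, ?_⟩
  intro μ hμ d Λ Q lam Y hd hY hl hl'
  have hΛ := hd.one_le
  obtain ⟨X, Δ, hDiv, hX, hΔ⟩ := hD Λ hΛ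
  have hd' := hd
  obtain ⟨d1, d2, -, -, d5, d6, d7⟩ := hd'
  rw [pow_one] at hX
  have Δ0 : 0 ≤ Δ := by linarith [hDiv.1]
  have hM : ⌈2 * |d.H|⌉₊ ≤ X := Nat.ceil_le.2 (by linarith)
  have hQX : 2 * Q ≤ X := by
    have : (2 : ℝ) * Q ≤ X := by linarith
    exact_mod_cast this
  obtain ⟨R, hR⟩ : ∃ R : ℝ, R = (1 + Y) * (d.DD * Q + d.XX * (Q : ℝ) ^ η) := ⟨_, rfl⟩
  have hDD := d.DD_nonneg
  have hXX := d.XX_nonneg
  have hxi : 0 ≤ d.xi := by linarith [d.one_le_xi]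
  have R0 : 0 ≤ R := by
    rw [hR]
    positivity
  have Λ0 : 0 < Λ := by linarith
  have h := hP μ Q ⌈2 * |d.H|⌉₊ X Δ (Δ ^ 2 * (K * Λ ^ (ε / 2) * d.xi ^ m * R))
    (fun q => vf q Prod.fst fun P x => lam q (ct P.1) * pa d P x)
    (fun q k x w => lam q k * vf (q / Nat.gcd k q) Prod.fst (pk (d.sc k)) x w)
    (fun k q' => ENNReal.ofReal (Δ ^ 2) * LN μ q' Prod.fst (pk (d.sc k)))
    (fun k g => d.PP * (g : ℝ) ≤ Y * Q * (k : ℝ) ^ 2) d6 hDiv hQX hM (by positivity)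
    (fun q hq x w _ => (hC d q _ (lam q) x w (d6.trans (mem_Ico.1 hq).1) d1 d2
      (Nat.le_ceil _)).1) ?_ ?_
  · refine h.trans (ENNReal.ofReal_le_ofReal ?_)
    rw [← hR]
    have e : Λ ^ ε = Λ ^ (ε / 2) * Λ ^ (ε / 2) := by
      rw [← Real.rpow_add Λ0, add_halves]
    calc _ = 4 * Δ ^ 7 * (K * Λ ^ (ε / 2) * d.xi ^ m * R) := by ring
      _ ≤ 4 * (C * Λ ^ (ε / 2)) * (K * Λ ^ (ε / 2) * d.xi ^ m * R) := by gcongr
      _ = _ := by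
        rw [e]
        ring
  · intro q _ k hk
    have k1 := (mem_Icc.1 hk).1
    refine ⟨(MF_vf _ _ (measurable_pk (d := d.sc k) d2.1)).const_mul _,
      fun x => (per_vf _ _ _ x).const_mul _, ?_⟩
    by_cases h0 : lam q k = 0
    · refine (LF_mul_le μ _ _ (a := fun _ => lam q k) (B := 0) fun _ => by simp [h0]).trans ?_
      simp
    · rw [iE_pos (hl' q k k1 h0), one_mul]
      exact LF_mul_le μ _ _ (a := fun _ => lam q k) fun _ =>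
        (hl q k k1).trans (hDiv.2 k ((mem_Icc.1 hk).2.trans hM))
  · intro k hk g hg hS
    have k1 := (mem_Icc.1 hk).1
    have g1 : 1 ≤ g := Nat.pos_of_dvd_of_pos hg k1
    obtain ⟨h1, h2, -, -⟩ := cq_facts d6 g1
    have h3 := hA μ hμ (d.sc k) Λ (cq Q g) (hd.sc k1 h1 h2)
    have h4 := blk_All hη d d6 g1 k1 hY hS
    rw [← hR] at h4
    rw [← mul_sum]
    refine (mul_le_mul_right h3 _).trans ?_
    rw [← ENNReal.ofReal_mul (by positivity)]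
    refine ENNReal.ofReal_le_ofReal ?_
    have e : (d.sc k).xi = d.xi := rfl
    rw [e, mul_div_assoc, mul_div_assoc]
    gcongr

end Pool.Agent.MP_c853c5_nt.W
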