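import Pool.Agent.MP_c853c5_nt.W.Defs

set_option autoImplicit false

open Finset MeasureTheory

namespace Pool.Agent.MP_c853c5_nt.W

open Pool.Agent.MP_2a1f0e_nt Pool.Agent.MP_2a1f0e_nt.GM Pool.Agent.MP_2a1f0e_nt.DH

lemma contDiff_iv_Amp : ContDiff ℝ (⊤ : ℕ∞) iv := by
  rw [contDiff_iff_contDiffAt]
  intro x
  by_cases hx : x = 0
  · have h : iv =ᶠ[nhds x] fun _ => 0 := by
      filter_upwards [Iio_mem_nhds (show x < 1 / 20 by rw [hx]; norm_num)] with y hy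
      have hy' : y < 1 / 20 := hy
      unfold iv
      rw [Real.smoothTransition.zero_of_nonpos (by linarith), zero_mul]
    exact contDiffAt_const.congr_of_eventuallyEq h
  · unfold iv
    refine ContDiffAt.mul ?_ (contDiffAt_inv ℝ hx)
    exact (Real.smoothTransition.contDiff.comp
      (f := fun x : ℝ => 20 * x - 1) (by fun_prop)).contDiffAt

lemma cut_zero_Amp {y : Fin 9 → ℝ} (h : 11 < ‖y‖) : cut y = 0 := by
  have h1 : ∃ i, 11 < |y i| := by
    by_contra h2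
    push Not at h2
    have : ‖y‖ ≤ 11 := (pi_norm_le_iff_of_nonneg (by norm_num)).2 fun i => by
      rw [Real.norm_eq_abs]
      exact h2 i
    linarith
  obtain ⟨i, hi⟩ := h1
  refine Finset.prod_eq_zero (Finset.mem_univ i) (bmq.zero_of_le_dist ?_)
  rw [Real.dist_eq, sub_zero]
  exact hi.le

theorem amp_stmt : AmpStmt := by
  have hiv := contDiff_iv_Amp
  have hom := contDiff_om
  have hW : ContDiff ℝ (⊤ : ℕ∞) Wt := contDiff_Wt
  have hbb : ContDiff ℝ (⊤ : ℕ∞) bb := bmp.contDiff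
  have hq : ContDiff ℝ (⊤ : ℕ∞) (bmq : ℝ → ℝ) := bmq.contDiff
  have hcut : ContDiff ℝ (⊤ : ℕ∞) cut := by
    unfold cut
    exact contDiff_prod fun i _ => hq.comp (contDiff_apply ℝ ℝ i)
  have hrh : ContDiff ℝ (⊤ : ℕ∞) rh := by
    unfold rh
    fun_prop
  have hth : ContDiff ℝ (⊤ : ℕ∞) thA := by
    unfold thA th
    fun_prop
  have h1 : ContDiff ℝ (⊤ : ℕ∞) ph2 := by
    unfold ph2
    fun_prop
  have h2 : ContDiff ℝ (⊤ : ℕ∞) sh2 := by
    unfold sh2
    fun_prop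
  have h3 : ContDiff ℝ (⊤ : ℕ∞) z1 := by
    unfold z1
    fun_prop
  have h4 : ContDiff ℝ (⊤ : ℕ∞) z2 := by
    unfold z2
    fun_prop
  have h5 : ContDiff ℝ (⊤ : ℕ∞) nh2 := by
    unfold nh2
    fun_prop
  have h6 : ContDiff ℝ (⊤ : ℕ∞) ph3 := by
    unfold ph3
    fun_prop
  have h7 : ContDiff ℝ (⊤ : ℕ∞) v13 := by
    unfold v13
    fun_prop
  have h8 : ContDiff ℝ (⊤ : ℕ∞) v23 := by
    unfold v23
    fun_prop
  refine ⟨?_, ?_, ?_, fun L hL => ?_, fun p hp => ?_⟩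
  · unfold A2
    fun_prop
  · unfold f2
    fun_prop
  · unfold A3
    fun_prop
  · unfold f3
    fun_prop
  · simp only [A2, A3, thA, cut_zero_Amp hp, mul_zero, zero_mul, and_self]

end Pool.Agent.MP_c853c5_nt.W
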