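import Pool.Agent.MP_c853c5_nt.W.Basic

set_option autoImplicit false

open Finset MeasureTheory Filter
open scoped ENNReal ComplexConjugate

namespace Pool.Agent.MP_c853c5_nt.W

open Pool.Agent.MP_2a1f0e_nt Pool.Agent.MP_2a1f0e_nt.GM Pool.Agent.MP_2a1f0e_nt.DH

/-! ### measurability -/

lemma continuous_vx (u : V) : Continuous (vx u) := by unfold vx; fun_prop
lemma continuous_act (G : Pr) : Continuous (act G) := (continuous_vx _).prodMk (continuous_vx _)
lemma continuous_dt : Continuous dt := by unfold dt; fun_prop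
lemma continuous_rt (m : MM) : Continuous (rt m) := by unfold rt; fun_prop
lemma continuous_rm (m : MM) : Continuous (rm m) := by unfold rm rt; fun_prop

lemma measurable_tt (P : Pr) : Measurable (tt P) :=
  (continuous_vx P.1).fst.measurable.div (continuous_vx P.2).fst.measurable

lemma measurableSet_Cn (α : ℝ) : MeasurableSet {a : R2 | Cn α a} :=
  (measurableSet_le measurable_const measurable_fst).inter
    ((measurableSet_le measurable_fst measurable_const).inter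
      (measurableSet_le (continuous_snd.abs.measurable) measurable_fst))

lemma measurableSet_SupA (α H2 H : ℝ) (P : Pr) : MeasurableSet {x | SupA α H2 H P x} :=
  (MeasurableSet.const _).inter ((MeasurableSet.const _).inter
    (((continuous_vx P.2).measurable (measurableSet_Cn α)).inter
    ((measurableSet_le measurable_const continuous_dt.measurable).inter
    ((measurableSet_le continuous_dt.measurable measurable_const).inter
    ((measurableSet_le (continuous_abs.measurable.comp (measurable_tt P)) measurable_const).inter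
    ((MeasurableSet.const _).inter (MeasurableSet.const _)))))))

lemma measurableSet_Sup (α H2 H : ℝ) (P : Pr) : MeasurableSet {x | Sup α H2 H P x} :=
  (MeasurableSet.const _).inter (measurableSet_SupA α H2 H P)

lemma measurableSet_SupL (α : ℝ) (P : Pr) : MeasurableSet {x | SupL α P x} :=
  (MeasurableSet.const _).inter (measurableSet_SupA α 1 1 P)

lemma measurableSet_An (G : Pr) : MeasurableSet {x | An G x} :=
  (MeasurableSet.const _).inter ((measurableSet_le measurable_const (measurable_tt G)).inter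
    (measurableSet_lt (measurable_tt G) measurable_const))

lemma measurable_ctsum {X ι : Type*} [MeasurableSpace X] [Countable ι] {f : ι → X → ℂ}
    (hf : ∀ i, Measurable (f i)) : Measurable fun x => ∑' i, f i x := by
  have hs : MeasurableSet {x | ∑' i, ‖f i x‖ₑ ≠ ⊤} :=
    ((Measurable.ennreal_tsum fun i => (hf i).enorm) (measurableSet_singleton ⊤)).compl
  have hi : ∀ x, ∑' i, ‖f i x‖ₑ ≠ ⊤ ↔ Summable fun i => f i x := fun x => by
    rw [← summable_norm_iff]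
    simp only [enorm_eq_nnnorm]
    rw [ENNReal.tsum_coe_ne_top_iff_summable, ← NNReal.summable_coe]
    rfl
  refine measurable_of_tendsto_metrizable' (atTop : Filter (Finset ι))
    (f := fun t => Set.indicator {x | ∑' i, ‖f i x‖ₑ ≠ ⊤} fun x => ∑ i ∈ t, f i x)
    (fun t => (Finset.measurable_sum t fun i _ => hf i).indicator hs) ?_
  refine tendsto_pi_nhds.2 fun x => ?_
  by_cases hx : x ∈ {x | ∑' i, ‖f i x‖ₑ ≠ ⊤}
  · simp only [Set.indicator_of_mem hx]
    exact ((hi x).1 hx).hasSum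
  · simp only [Set.indicator_of_notMem hx]
    rw [tsum_eq_zero_of_not_summable fun h => hx ((hi x).2 h)]
    exact tendsto_const_nhds

lemma measurable_vf {X : Type*} [MeasurableSpace X] (q : ℕ) (pt : Pr → V) {F : Pr → X → ℂ}
    (hF : ∀ P, Measurable (F P)) (w : V) :
    Measurable fun x => ∑' P : Pr, F P x * ind q (om2 w (pt P)) :=
  measurable_ctsum fun P => (hF P).mul_const _

lemma MF_vf (q : ℕ) (pt : Pr → V) {Ψ : Pk} (h : ∀ P, Measurable (Ψ P)) : MF (vf q pt Ψ) :=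
  fun w => measurable_vf q pt h w

lemma MF.const_mul {f : Fld} (h : MF f) (c : ℂ) : MF fun x w => c * f x w :=
  fun w => (h w).const_mul c

lemma measurable_NC {X : Type*} [MeasurableSpace X] (q : ℕ) {f : X → V → ℂ} {c : X → ℂ}
    (hf : ∀ w, Measurable fun x => f x w) (hc : Measurable c) :
    Measurable fun x => NC q (f x) (c x) :=
  (Finset.measurable_sum _ fun w _ => ((hf w).sub hc).norm.pow_const 2).div_const _

lemma measurable_av {X : Type*} [MeasurableSpace X] (q : ℕ) {f : X → V → ℂ}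
    (hf : ∀ w, Measurable fun x => f x w) : Measurable fun x => av q (f x) :=
  (Finset.measurable_sum _ fun w _ => hf w).div_const _

lemma measurable_NV {X : Type*} [MeasurableSpace X] (q : ℕ) {f : X → V → ℂ}
    (hf : ∀ w, Measurable fun x => f x w) : Measurable fun x => NV q (f x) :=
  measurable_NC q hf (measurable_av q hf)

/-! ### the class -/

lemma measurable_pa {d : Dat} (h : Measurable d.g) (P : Pr) : Measurable (pa d P) :=
  ((((h.comp (continuous_vx P.2).measurable).const_mul _).mul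
    (Complex.measurable_ofReal.comp (measurable_om.comp continuous_dt.measurable))).mul
    (measurable_E measurable_const ((measurable_tt P).div_const _))).mul_const _

lemma measurable_pk {d : Dat} (h : Measurable d.g) (P : Pr) : Measurable (pk d P) :=
  (measurable_pa h P).const_mul _

lemma measurable_pd {d : Dat} (h : Measurable d.g) (q : ℕ) (P : Pr) : Measurable (pd d q P) :=
  ((((h.comp (continuous_vx P.2).measurable).const_mul _).mul
    (Complex.measurable_ofReal.comp (measurable_om.comp continuous_dt.measurable))).mul_const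
    _).mul (((measurable_Eh _).comp
      (((measurable_tt P).const_mul _).div_const _).neg).const_mul _)

lemma measurable_pc {d : Dat} (h : Measurable d.g) (q : ℕ) (H' T' : ℝ) (P : Pr) :
    Measurable (pc d q H' T' P) :=
  (measurable_pd h q P).mul (Complex.measurable_ofReal.comp
    ((measurable_om.comp ((measurable_tt P).div_const _)).const_mul _))

lemma measurable_tm {d : Dat} (h : Measurable d.g) (q : ℕ) (H' T₀ : ℝ) (P : Pr) :
    Measurable (tm d q H' T₀ P) :=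
  (measurable_pd h q P).mul (Complex.measurable_ofReal.comp
    ((contDiff_psi.continuous.measurable.comp
      ((continuous_abs.measurable.comp (measurable_tt P)).div_const _)).const_mul _))

lemma MF_lnF {d : Dat} (h : Measurable d.g) (q : ℕ) : MF (lnF d q) := fun w =>
  measurable_ctsum fun G => ((((measurable_iC (measurableSet_An G)).mul
    (h.comp (continuous_vx G.2).measurable)).mul
    (Complex.measurable_ofReal.comp (measurable_om.comp continuous_dt.measurable))).mul_const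
    _).mul_const _

lemma pa_inv (d : Dat) (P : Pr) {G : Pr} (x : MM) (h : hh G = 1) :
    pa d (pg P G) x = pa d P (act G x) := by
  simp only [pa, tt_pg, hh_pg, dt_act, h, mul_one, Int.cast_one, one_mul]
  rw [show (pg P G).2 = vg P.2 G from rfl, vx_vg, iC_congr (prim_vg h _)]

lemma pk_inv (d : Dat) (P : Pr) {G : Pr} (x : MM) (h : hh G = 1) :
    pk d (pg P G) x = pk d P (act G x) := by
  simp only [pk, pa_inv d P x h]
  rw [show (pg P G).1 = vg P.1 G from rfl, iC_congr (prim_vg h _)]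

lemma supA_inv (α H2 H : ℝ) (P : Pr) {G : Pr} (x : MM) (h : hh G = 1) :
    SupA α H2 H (pg P G) x ↔ SupA α H2 H P (act G x) := by
  simp only [SupA, tt_pg, hh_pg, dt_act, h, mul_one, Int.cast_one, one_mul]
  rw [show (pg P G).2 = vg P.2 G from rfl, vx_vg, prim_vg h]

lemma sup_inv (α H2 H : ℝ) (P : Pr) {G : Pr} (x : MM) (h : hh G = 1) :
    Sup α H2 H (pg P G) x ↔ Sup α H2 H P (act G x) := by
  rw [Sup, Sup, supA_inv α H2 H P x h, show (pg P G).1 = vg P.1 G from rfl, prim_vg h]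

lemma supL_inv (α : ℝ) (P : Pr) {G : Pr} (x : MM) (h : hh G = 1) :
    SupL α (pg P G) x ↔ SupL α P (act G x) := by
  rw [SupL, SupL, supA_inv α 1 1 P x h, hh_pg, h, mul_one]

lemma norm_pa_le {d : Dat} (h : ∀ a, ‖d.g a‖ ≤ 1) (P : Pr) (x : MM) : ‖pa d P x‖ ≤ 1 := by
  simp only [pa, norm_mul]
  exact mul_le_one₀ (mul_le_one₀ (mul_le_one₀ (mul_le_one₀ (norm_iC_le _) (norm_nonneg _) (h _))
    (norm_nonneg _) (norm_om_le _)) (norm_nonneg _) (norm_E_le _ _)) (norm_nonneg _)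
    (norm_E_le _ _)

lemma norm_pk_le {d : Dat} (h : ∀ a, ‖d.g a‖ ≤ 1) (P : Pr) (x : MM) : ‖pk d P x‖ ≤ 1 := by
  rw [pk, norm_mul]
  exact mul_le_one₀ (norm_iC_le _) (norm_nonneg _) (norm_pa_le h P x)

/-- the exact support of `pa` -/
lemma pa_mem {d : Dat} {P : Pr} {x : MM} (h : pa d P x ≠ 0) : Prim P.2 ∧ d.g (vx P.2 x) ≠ 0 ∧
    (1 < dt x ∧ dt x < 5 / 3) ∧ (1 < tt P x / d.H2 ∧ tt P x / d.H2 < 5 / 3) ∧
    (1 < (hh P : ℝ) / d.H ∧ (hh P : ℝ) / d.H < 5 / 3) := by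
  simp only [pa, mul_ne_zero_iff] at h
  exact ⟨iC_ne_zero h.1.1.1.1, h.1.1.1.2, om_mem (Complex.ofReal_ne_zero.1 h.1.1.2), E_mem h.1.2,
    E_mem h.2⟩

lemma pa_sup {d : Dat} (hd : Adm d.al d.g) {H2' : ℝ} (h2 : 5 / 6 * |d.H2| ≤ |H2'|) {P : Pr}
    {x : MM} (h : pa d P x ≠ 0) : SupA d.al H2' d.H P x := by
  obtain ⟨h1, h3, h4, h5, h6⟩ := pa_mem h
  obtain ⟨-, -, h7⟩ := abs_of_mem h5
  obtain ⟨h8, h9, h10⟩ := abs_of_mem h6
  refine ⟨h1, fun h0 => ?_, hd.2.2 _ h3, h4.1.le, by linarith [h4.2], by linarith, h9.le,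
    by linarith [abs_nonneg d.H]⟩
  rw [h0, Int.cast_zero, abs_zero] at h9
  linarith [abs_nonneg d.H]

lemma pa_supA {d : Dat} (hd : Adm d.al d.g) {P : Pr} {x : MM} (h : pa d P x ≠ 0) :
    SupA d.al d.H2 d.H P x := pa_sup hd (by linarith [abs_nonneg d.H2]) h

lemma pac_pk {d : Dat} (hd : Adm d.al d.g) {H2' : ℝ} (h2 : 5 / 6 * |d.H2| ≤ |H2'|) :
    Pac (Sup d.al H2' d.H) (pk d) :=
  ⟨measurable_pk hd.1, fun P _ x h => pk_inv d P x h, norm_pk_le hd.2.1, fun P x h =>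
    ⟨iC_ne_zero (left_ne_zero_of_mul h), pa_sup hd h2 (right_ne_zero_of_mul h)⟩⟩

lemma pac_pk' {d : Dat} (hd : Adm d.al d.g) : Pac (Sup d.al d.H2 d.H) (pk d) :=
  pac_pk hd (by linarith [abs_nonneg d.H2])

lemma SupA.half {α H2 H : ℝ} {P : Pr} {x : MM} (h : SupA α H2 H P x) : 1 / 2 ≤ |H| := by
  have h1 : (1 : ℝ) ≤ |(hh P : ℝ)| := by exact_mod_cast Int.one_le_abs h.2.1
  linarith [h.2.2.2.2.2.2.2]

lemma InvB.half {α H2 H : ℝ} {z : Pr × Pr} (h : InvB α H2 H z) : 1 / 2 ≤ |H| := by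
  have h1 : (1 : ℝ) ≤ |(hh z.1 : ℝ)| := by exact_mod_cast Int.one_le_abs h.1
  linarith [h.2.2.2.1]

lemma pa_eq_zero {d : Dat} (hd : Adm d.al d.g) (h : |d.H| < 1 / 2 ∨ d.H2 = 0) : pa d = 0 := by
  funext P x
  by_contra h0
  rcases h with h | h
  · linarith [(pa_supA hd h0).half]
  · exact (abs_of_mem (pa_mem h0).2.2.2.1).1 h

lemma pk_eq_zero {d : Dat} (hd : Adm d.al d.g) (h : |d.H| < 1 / 2 ∨ d.H2 = 0) : pk d = 0 := by
  funext P x
  simp [pk, pa_eq_zero hd h]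

lemma Dat.PP_nonneg (d : Dat) : 0 ≤ d.PP := by unfold Dat.PP; positivity
lemma Dat.DD_nonneg (d : Dat) : 0 ≤ d.DD := by
  have := d.PP_nonneg
  unfold Dat.DD; positivity
lemma Dat.XX_nonneg (d : Dat) : 0 ≤ d.XX := by
  have := d.PP_nonneg
  unfold Dat.XX; positivity
lemma Dat.X_nonneg (d : Dat) : 0 ≤ d.X := by unfold Dat.X; positivity
lemma Dat.CC_nonneg (d : Dat) (Q : ℕ) : 0 ≤ d.CC Q := by unfold Dat.CC; positivity
lemma Dat.one_le_xi (d : Dat) : 1 ≤ d.xi := by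
  unfold Dat.xi; linarith [abs_nonneg d.x1, abs_nonneg d.x2]

lemma Dat.XX_eq (d : Dat) (h : d.H ≠ 0) : d.XX = d.DD * d.X := by
  have h1 : |d.H| ≠ 0 := abs_ne_zero.2 h
  unfold Dat.XX Dat.DD Dat.X Dat.PP
  rw [← sq_abs d.H, ← sq_abs d.H2]
  field_simp

lemma Dat.ok.one_le {d : Dat} {Λ : ℝ} {Q : ℕ} (h : d.ok Λ Q) : 1 ≤ Λ :=
  (show (1 : ℝ) ≤ Q by exact_mod_cast h.2.2.2.2.2.1).trans h.2.2.2.2.2.2

lemma Dat.ok.bd {d : Dat} {Λ : ℝ} {Q : ℕ} (h : d.ok Λ Q) : Bd Λ d.al d.H2 d.H :=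
  ⟨h.one_le, h.1, h.2.2.1, h.2.2.2.1, h.2.2.2.2.1⟩

lemma Dat.sc_PP (d : Dat) (m : ℕ) : (d.sc m).PP = d.PP / (m : ℝ) ^ 2 := by
  simp only [Dat.sc, Dat.PP, abs_div, Nat.abs_cast]; ring

lemma Dat.sc_DD (d : Dat) (m : ℕ) : (d.sc m).DD = d.DD / (m : ℝ) ^ 2 := by
  rw [Dat.DD, Dat.sc_PP]; simp only [Dat.sc, Dat.DD]; ring

lemma Dat.sc_XX (d : Dat) (m : ℕ) : (d.sc m).XX = d.XX / (m : ℝ) ^ 2 := by
  rw [Dat.XX, Dat.sc_PP]; simp only [Dat.sc, Dat.XX]; ring

lemma Dat.ok.sc {d : Dat} {Λ : ℝ} {Q Q' m : ℕ} (h : d.ok Λ Q) (hm : 1 ≤ m) (h1 : 1 ≤ Q')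
    (h2 : Q' ≤ Q) : (d.sc m).ok Λ Q' := by
  have hm' : (1 : ℝ) ≤ m := by exact_mod_cast hm
  have k : ∀ a : ℝ, |a / m| ≤ |a| := fun a => by
    rw [abs_div, Nat.abs_cast]; exact div_le_self (abs_nonneg _) hm'
  exact ⟨h.1, h.2.1, h.2.2.1, (k _).trans h.2.2.2.1, (k _).trans h.2.2.2.2.1, h1,
    (show (Q' : ℝ) ≤ Q by exact_mod_cast h2).trans h.2.2.2.2.2.2⟩

lemma cq_facts {Q g : ℕ} (hQ : 1 ≤ Q) (hg : 1 ≤ g) :
    1 ≤ cq Q g ∧ cq Q g ≤ Q ∧ Q ≤ g * cq Q g ∧ g * cq Q g < Q + g := by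
  have h1 := Nat.div_add_mod (Q + g - 1) g
  have h2 := Nat.mod_lt (Q + g - 1) hg
  have h3 : Q ≤ g * cq Q g := by unfold cq; omega
  have h4 : g * cq Q g < Q + g := by unfold cq; omega
  refine ⟨Nat.pos_of_ne_zero fun h => by rw [h] at h3; omega, ?_, h3, h4⟩
  by_contra hc
  have : g * (Q + 1) ≤ g * cq Q g := Nat.mul_le_mul_left _ (by omega)
  nlinarith

/-! ### the quadratic forms -/

lemma NC_nonneg (q : ℕ) (f : V → ℂ) (c : ℂ) : 0 ≤ NC q f c := by unfold NC; positivity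

lemma NV_nonneg (q : ℕ) (f : V → ℂ) : 0 ≤ NV q f := NC_nonneg _ _ _

lemma av_congr {q : ℕ} {f g : V → ℂ} (h : ∀ w ∈ PQ q, f w = g w) : av q f = av q g := by
  rw [av, av, sum_congr rfl h]

lemma NC_congr {q : ℕ} {f g : V → ℂ} (h : ∀ w ∈ PQ q, f w = g w) (c : ℂ) :
    NC q f c = NC q g c := by
  rw [NC, NC, sum_congr rfl fun w hw => by rw [h w hw]]

lemma NV_congr {q : ℕ} {f g : V → ℂ} (h : ∀ w ∈ PQ q, f w = g w) : NV q f = NV q g := by
  rw [NV, NV, av_congr h, NC_congr h]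

lemma sum_sub_av (q : ℕ) (f : V → ℂ) : ∑ w ∈ PQ q, (f w - av q f) = 0 := by
  rw [sum_sub_distrib, sum_const, nsmul_eq_mul, av]
  by_cases h : (PQ q).card = 0
  · simp [card_eq_zero.1 h]
  · rw [mul_div_cancel₀ _ (Nat.cast_ne_zero.2 h), sub_self]

lemma NV_le_NC (q : ℕ) (f : V → ℂ) (c : ℂ) : NV q f ≤ NC q f c := by
  unfold NV NC
  refine div_le_div_of_nonneg_right ?_ (Nat.cast_nonneg _)
  have h : ∀ w, ‖f w - av q f‖ ^ 2 + 2 * ((f w - av q f) * conj (av q f - c)).re ≤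
      ‖f w - c‖ ^ 2 := fun w => by
    rw [show f w - c = (f w - av q f) + (av q f - c) by ring, ← Complex.normSq_eq_norm_sq,
      ← Complex.normSq_eq_norm_sq, Complex.normSq_add]
    linarith [Complex.normSq_nonneg (av q f - c)]
  refine le_trans (le_of_eq ?_) (sum_le_sum fun w _ => h w)
  rw [sum_add_distrib, ← mul_sum, ← Complex.re_sum, ← sum_mul, sum_sub_av]
  simp

lemma NC_mul (q : ℕ) (a : ℂ) (f : V → ℂ) (c : ℂ) :
    NC q (fun w => a * f w) (a * c) = ‖a‖ ^ 2 * NC q f c := by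
  simp only [NC, ← mul_sub, norm_mul, mul_pow, ← mul_sum, mul_div_assoc]

lemma av_mul (q : ℕ) (a : ℂ) (f : V → ℂ) : av q (fun w => a * f w) = a * av q f := by
  simp only [av, ← mul_sum, mul_div_assoc]

lemma NV_mul (q : ℕ) (a : ℂ) (f : V → ℂ) : NV q (fun w => a * f w) = ‖a‖ ^ 2 * NV q f := by
  rw [NV, av_mul, NC_mul, NV]

lemma NV_add_const_le (q : ℕ) (f : V → ℂ) (c : ℂ) : NV q (fun w => f w + c) ≤ NV q f :=
  (NV_le_NC q _ (av q f + c)).trans_eq (by simp only [NC, NV, add_sub_add_right_eq_sub])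

lemma NC_mono {q : ℕ} {f g : V → ℂ} (h : ∀ w ∈ PQ q, ‖f w‖ ≤ ‖g w‖) : NC q f 0 ≤ NC q g 0 := by
  unfold NC
  refine div_le_div_of_nonneg_right (sum_le_sum fun w hw => ?_) (Nat.cast_nonneg _)
  rw [sub_zero, sub_zero]
  exact pow_le_pow_left₀ (norm_nonneg _) (h w hw) 2

lemma NC_le_sq {q : ℕ} (hq : 1 ≤ q) {f : V → ℂ} {B : ℝ} (h : ∀ w ∈ PQ q, ‖f w‖ ≤ B) :
    NC q f 0 ≤ (q : ℝ) ^ 2 * B ^ 2 := by
  have h1 : (1 : ℝ) ≤ q.totient := by exact_mod_cast Nat.totient_pos.2 hq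
  refine (div_le_self (by positivity) h1).trans ?_
  refine (sum_le_card_nsmul _ _ (B ^ 2) fun w hw => ?_).trans ?_
  · rw [sub_zero]; exact pow_le_pow_left₀ (norm_nonneg _) (h w hw) 2
  · rw [nsmul_eq_mul]
    exact mul_le_mul_of_nonneg_right (by exact_mod_cast card_PQ_le q) (sq_nonneg _)

/-- weighted Cauchy inequality -/
lemma NC_sum_le {ι : Type*} (q : ℕ) (J : Finset ι) (f : ι → V → ℂ) (c : ι → ℂ) {b : ι → ℝ}
    (hb : ∀ j ∈ J, 0 < b j) : NC q (fun w => ∑ j ∈ J, f j w) (∑ j ∈ J, c j) ≤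
      (∑ j ∈ J, b j) * ∑ j ∈ J, NC q (f j) (c j) / b j := by
  have h : ∀ w, ‖∑ j ∈ J, f j w - ∑ j ∈ J, c j‖ ^ 2 ≤
      (∑ j ∈ J, b j) * ∑ j ∈ J, ‖f j w - c j‖ ^ 2 / b j := fun w => by
    rw [← sum_sub_distrib]
    refine (pow_le_pow_left₀ (norm_nonneg _) (norm_sum_le _ _) 2).trans ?_
    refine sum_sq_le_sum_mul_sum_of_sq_le_mul J (fun j hj => (hb j hj).le)
      (fun j hj => div_nonneg (sq_nonneg _) (hb j hj).le) fun j hj => ?_
    rw [mul_div_cancel₀ _ (hb j hj).ne']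
  unfold NC
  refine (div_le_div_of_nonneg_right (sum_le_sum fun w _ => h w) (Nat.cast_nonneg _)).trans_eq ?_
  rw [← mul_sum, sum_comm, mul_div_assoc, sum_div]
  congr 1
  refine sum_congr rfl fun j _ => ?_
  rw [← sum_div, div_right_comm]

lemma NV_sum_le {ι : Type*} (q : ℕ) (J : Finset ι) (f : ι → V → ℂ) {b : ι → ℝ}
    (hb : ∀ j ∈ J, 0 < b j) :
    NV q (fun w => ∑ j ∈ J, f j w) ≤ (∑ j ∈ J, b j) * ∑ j ∈ J, NV q (f j) / b j :=
  (NV_le_NC q _ _).trans (NC_sum_le q J f (fun j => av q (f j)) hb)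

lemma NV_add_le (q : ℕ) (f g : V → ℂ) : NV q (fun w => f w + g w) ≤ 2 * NV q f + 2 * NV q g := by
  have h := NV_sum_le q (univ : Finset Bool) (fun j => if j then f else g) (b := fun _ => 1)
    fun _ _ => one_pos
  simp only [Fintype.sum_bool, if_true, Bool.false_eq_true, if_false, div_one] at h
  linarith

lemma BV_self (q : ℕ) (f : V → ℂ) : BV q f f = (NV q f : ℂ) := by
  simp only [BV, NV, NC, Complex.mul_conj, Complex.normSq_eq_norm_sq]
  push_cast
  rfl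

lemma norm_BV_le (q : ℕ) (f g : V → ℂ) {κ : ℝ} (hκ : 0 < κ) :
    ‖BV q f g‖ ≤ κ * NV q f + κ⁻¹ * NV q g := by
  unfold BV NV NC
  rw [norm_div, Complex.norm_natCast, ← mul_div_assoc, ← mul_div_assoc, ← add_div, mul_sum,
    mul_sum, ← sum_add_distrib]
  refine div_le_div_of_nonneg_right ((norm_sum_le _ _).trans (sum_le_sum fun w _ => ?_))
    (Nat.cast_nonneg _)
  rw [norm_mul, Complex.norm_conj]
  generalize ‖f w - av q f‖ = a
  generalize ‖g w - av q g‖ = b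
  have h1 : κ * κ⁻¹ = 1 := mul_inv_cancel₀ hκ.ne'
  have h2 : 0 < κ⁻¹ := inv_pos.2 hκ
  have h3 : κ⁻¹ * (κ * a - b / 2) ^ 2 = κ * a ^ 2 - a * b + κ⁻¹ * b ^ 2 / 4 := by
    linear_combination (κ * a ^ 2 - a * b) * h1
  nlinarith [mul_nonneg h2.le (sq_nonneg (κ * a - b / 2)), mul_nonneg h2.le (sq_nonneg b)]

lemma per_vf (q : ℕ) (pt : Pr → V) (Ψ : Pk) (x : MM) : Per q (vf q pt Ψ x) := by
  intro w w' h1 h2
  refine tsum_congr fun P => ?_
  congr 1
  refine iC_congr ((Int.dvd_iff_dvd_of_dvd_sub ?_))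
  rw [show om2 w (pt P) - om2 w' (pt P) = (w.1 - w'.1) * (pt P).2 - (w.2 - w'.2) * (pt P).1 by
    simp only [om2]; ring]
  exact (h1.mul_right _).sub (h2.mul_right _)

lemma Per.const_mul {q : ℕ} {f : V → ℂ} (h : Per q f) (c : ℂ) : Per q fun w => c * f w :=
  fun w w' h1 h2 => by simp only [h w w' h1 h2]

/-! ### integrals -/

lemma LF_congr {μ : Measure MM} {q : ℕ} {f g : Fld} (h : ∀ x, ∀ w ∈ PQ q, f x w = g x w) :
    LF μ q f = LF μ q g := lintegral_congr fun x => by rw [NV_congr (h x)]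

lemma LF_le_L0 (μ : Measure MM) (q : ℕ) (f : Fld) : LF μ q f ≤ L0 μ q f :=
  lintegral_mono fun _ => ENNReal.ofReal_le_ofReal (NV_le_NC _ _ _)

lemma LN_zero (μ : Measure MM) (q : ℕ) (pt : Pr → V) : LN μ q pt 0 = 0 := by
  simp [LN, LF, vf, NV, NC, av]

lemma LF_mul_le (μ : Measure MM) (q : ℕ) (f : Fld) {a : MM → ℂ} {B : ℝ} (h : ∀ x, ‖a x‖ ≤ B) :
    LF μ q (fun x w => a x * f x w) ≤ ENNReal.ofReal (B ^ 2) * LF μ q f := by
  rw [LF, LF, ← lintegral_const_mul' _ _ ENNReal.ofReal_ne_top]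
  refine lintegral_mono fun x => ?_
  rw [← ENNReal.ofReal_mul (sq_nonneg _), NV_mul]
  exact ENNReal.ofReal_le_ofReal (mul_le_mul_of_nonneg_right
    (pow_le_pow_left₀ (norm_nonneg _) (h x) 2) (NV_nonneg _ _))

lemma LN_mul_le (μ : Measure MM) (q : ℕ) (pt : Pr → V) (Ψ : Pk) {a : MM → ℂ}
    (h : ∀ x, ‖a x‖ ≤ 1) : LN μ q pt (fun P x => a x * Ψ P x) ≤ LN μ q pt Ψ := by
  have h1 := LF_mul_le μ q (vf q pt Ψ) h
  rw [one_pow, ENNReal.ofReal_one, one_mul] at h1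
  refine le_trans (le_of_eq (LF_congr fun x w _ => ?_)) h1
  simp only [vf, mul_assoc, tsum_mul_left]

lemma LF_add_le (μ : Measure MM) (q : ℕ) {f g k : Fld} (hf : MF f)
    (h : ∀ x, ∃ c : ℂ, ∀ w ∈ PQ q, k x w = f x w + g x w + c) :
    LF μ q k ≤ 2 * LF μ q f + 2 * LF μ q g := by
  rw [LF, LF, LF, ← lintegral_const_mul' _ _ ENNReal.ofNat_ne_top,
    ← lintegral_const_mul' _ _ ENNReal.ofNat_ne_top,
    ← lintegral_add_left ((measurable_NV q hf).ennreal_ofReal.const_mul _)]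
  refine lintegral_mono fun x => ?_
  obtain ⟨c, hc⟩ := h x
  have h1 := (NV_congr hc).trans_le ((NV_add_const_le q _ c).trans (NV_add_le q (f x) (g x)))
  refine (ENNReal.ofReal_le_ofReal h1).trans (ENNReal.ofReal_add_le.trans_eq ?_)
  rw [ENNReal.ofReal_mul zero_le_two, ENNReal.ofReal_mul zero_le_two, ENNReal.ofReal_ofNat]

lemma sum_lintegral_le {X ι : Type*} [MeasurableSpace X] (μ : Measure X) (J : Finset ι)
    (f : ι → X → ℝ≥0∞) : ∑ j ∈ J, ∫⁻ x, f j x ∂μ ≤ ∫⁻ x, ∑ j ∈ J, f j x ∂μ := by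
  classical
  induction J using Finset.induction_on with
  | empty => simp
  | insert a s ha ih =>
    simp only [sum_insert ha]
    exact (add_le_add le_rfl ih).trans (le_lintegral_add _ _)

/-- weighted Cauchy inequality for fields -/
lemma LF_sum_le {ι : Type*} (μ : Measure MM) (q : ℕ) (J : Finset ι) {k : Fld} {f : ι → Fld}
    {b : ι → ℝ} (hb : ∀ j ∈ J, 0 < b j) (hf : ∀ j ∈ J, MF (f j))
    (h : ∀ x, ∀ w ∈ PQ q, k x w = ∑ j ∈ J, f j x w) :
    LF μ q k ≤ ENNReal.ofReal (∑ j ∈ J, b j) *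
      ∑ j ∈ J, ENNReal.ofReal (1 / b j) * LF μ q (f j) := by
  simp only [LF, ← lintegral_const_mul' _ _ ENNReal.ofReal_ne_top]
  rw [← lintegral_finsetSum _ fun j hj =>
    (measurable_NV q (hf j hj)).ennreal_ofReal.const_mul _,
    ← lintegral_const_mul' _ _ ENNReal.ofReal_ne_top]
  refine lintegral_mono fun x => ?_
  refine (ENNReal.ofReal_le_ofReal ((NV_congr (h x)).trans_le
    (NV_sum_le q J (fun j => f j x) hb))).trans_eq ?_
  rw [ENNReal.ofReal_mul (sum_nonneg fun j hj => (hb j hj).le), ENNReal.ofReal_sum_of_nonneg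
    fun j hj => div_nonneg (NV_nonneg _ _) (hb j hj).le]
  congr 1
  refine sum_congr rfl fun j hj => ?_
  rw [← ENNReal.ofReal_mul (div_nonneg zero_le_one (hb j hj).le), one_div_mul_eq_div]

lemma exists_intK (n : ℕ) : ∃ B : ℝ, 0 < B ∧
    ∫⁻ ζ : Fin n → ℝ, ENNReal.ofReal (1 / (1 + ‖ζ‖) ^ (n + 1)) ≤ ENNReal.ofReal B := by
  have h := integrable_one_add_norm (E := Fin n → ℝ) (μ := volume) (r := (n + 1 : ℕ))
    (by simp)
  have h2 : ∫⁻ ζ : Fin n → ℝ, ENNReal.ofReal (1 / (1 + ‖ζ‖) ^ (n + 1)) ≠ ⊤ := by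
    refine (lt_of_le_of_lt (le_of_eq (lintegral_congr fun ζ => ?_)) h.2).ne
    beta_reduce
    rw [Real.rpow_neg (by positivity), Real.rpow_natCast, Real.enorm_eq_ofReal (by positivity),
      one_div]
  refine ⟨_ + 1, ?_, (ENNReal.ofReal_toReal h2).symm.le.trans
    (ENNReal.ofReal_le_ofReal (le_add_of_nonneg_right zero_le_one))⟩
  positivity

lemma tsum_Orb_le {f : Pr × Pr → ℝ≥0∞} {B : ℝ≥0∞}
    (h : ∀ S : Finset (Pr × Pr), (∀ z ∈ S, IsOrb z ∧ f z ≠ 0) → ∑ z ∈ S, f z ≤ B) :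
    ∑' z : Orb, f z.1 ≤ B := by
  classical
  rw [ENNReal.tsum_eq_iSup_sum]
  refine iSup_le fun s => ?_
  refine (sum_map s (Function.Embedding.subtype _) f).symm.trans_le ?_
  rw [← sum_filter_ne_zero]
  refine h _ fun z hz => ⟨?_, (mem_filter.1 hz).2⟩
  obtain ⟨a, -, rfl⟩ := mem_map.1 (mem_filter.1 hz).1
  exact a.2

end Pool.Agent.MP_c853c5_nt.W
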