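import Pool.Agent.MP_c853c5_nt.W.Api
set_option autoImplicit false
open Finset MeasureTheory
open scoped ENNReal ComplexConjugate
namespace Pool.Agent.MP_c853c5_nt.W
open Pool.Agent.MP_2a1f0e_nt Pool.Agent.MP_2a1f0e_nt.GM Pool.Agent.MP_2a1f0e_nt.DH

noncomputable def nu_Base (Q : ℕ) (n : ℤ) : ℝ :=
  (((Ico Q (2 * Q)).filter fun q : ℕ => (q : ℤ) ∣ n).card : ℝ)

lemma sum_iE_Base (Q : ℕ) (n : ℤ) :
    ∑ q ∈ Ico Q (2 * Q), iE ((q : ℤ) ∣ n) = ENNReal.ofReal (nu_Base Q n) := by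
  rw [nu_Base, ENNReal.ofReal_natCast, card_filter]
  push_cast
  refine sum_congr rfl fun q _ => ?_
  by_cases h : (q : ℤ) ∣ n
  · rw [iE_pos h, if_pos h]
  · rw [iE_neg h, if_neg h]

lemma nu_zero_Base (Q : ℕ) : nu_Base Q 0 ≤ Q := by
  unfold nu_Base
  have h := card_filter_le (Ico Q (2 * Q)) fun q : ℕ => (q : ℤ) ∣ 0
  rw [Nat.card_Ico] at h
  exact_mod_cast h.trans (by omega)

lemma nu_le_Base (Q : ℕ) {n : ℤ} (hn : n ≠ 0) : nu_Base Q n ≤ (n.natAbs.divisors.card : ℝ) := by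
  unfold nu_Base
  refine Nat.cast_le.2 (card_le_card fun q hq => ?_)
  exact Nat.mem_divisors.2 ⟨Int.natCast_dvd.1 (mem_filter.1 hq).2, Int.natAbs_ne_zero.2 hn⟩

lemma vol_Base (hI : InvStmt) {α H2 H : ℝ} (hα : 0 < α) (z : Pr × Pr) :
    vol (Sup α H2 H) (Sup α H2 H) z ≤
      iE (|(rI z : ℝ)| ≤ 32 * α ^ 2) * vol (Sup α H2 H) (Sup α H2 H) z := by
  by_cases h : |(rI z : ℝ)| ≤ 32 * α ^ 2
  · rw [iE_pos h, one_mul]
  · have e : {x | Sup α H2 H z.1 x ∧ Sup α H2 H z.2 x} = ∅ :=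
      Set.eq_empty_of_forall_notMem fun x hx =>
        h (hI α H2 H z x hα hx.1.2 hx.2.2).2.2.2.2.2.2.1
    rw [vol, e, measure_empty]
    exact zero_le

lemma alg_Base (d : Dat) {Q Δ : ℝ} (hQ : 1 ≤ Q) (hΔ : 1 ≤ Δ) :
    d.al ^ 2 * (|d.H2| * |d.H| + d.H ^ 2) *
        (Q + 0 + Δ * (1 + |d.H2| * |d.H| + d.H2 ^ 2 * (32 * d.al ^ 2))) ≤
      32 * Δ * ((1 + d.PP / Q) * (d.DD * Q + d.XX * Q)) := by
  have hQ0 : Q ≠ 0 := (zero_lt_one.trans_le hQ).ne'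
  have e1 : (1 + d.PP / Q) * (d.DD * Q + d.XX * Q) =
      d.DD * Q + d.DD * d.PP + d.XX * Q + d.XX * d.PP := by
    field_simp
    ring
  have e2 : d.DD * (d.H2 ^ 2 * d.al ^ 2) = d.XX * d.PP := by
    unfold Dat.DD Dat.XX Dat.PP
    rw [← sq_abs d.H, ← sq_abs d.H2]
    ring
  have e3 : d.al ^ 2 * (|d.H2| * |d.H| + d.H ^ 2) *
      (Q + 0 + Δ * (1 + |d.H2| * |d.H| + d.H2 ^ 2 * (32 * d.al ^ 2))) =
      d.DD * Q + Δ * (d.DD + d.DD * d.PP + 32 * (d.DD * (d.H2 ^ 2 * d.al ^ 2))) := by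
    unfold Dat.DD Dat.PP
    ring
  rw [e1, e3, e2]
  have hD := d.DD_nonneg
  have hX := d.XX_nonneg
  have hP := d.PP_nonneg
  have h1 : d.DD ≤ d.DD * Q := le_mul_of_one_le_right hD hQ
  have h2 : 0 ≤ d.DD * d.PP := mul_nonneg hD hP
  have h3 : 0 ≤ d.XX * Q := mul_nonneg hX (by linarith only [hQ])
  have h4 : d.DD * Q ≤ Δ * (d.DD * Q) := le_mul_of_one_le_left (hD.trans h1) hΔ
  have h5 : d.DD * Q + (d.DD + d.DD * d.PP + 32 * (d.XX * d.PP)) ≤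
      32 * (d.DD * Q + d.DD * d.PP + d.XX * Q + d.XX * d.PP) := by
    linarith only [h1, h2, h3, hD]
  have h6 := mul_le_mul_of_nonneg_left h5 (zero_le_one.trans hΔ)
  linarith only [h4, h6]

theorem base_stmt (hR : RoughStmt) (hS : ShpStmt) (hT : TrivStmt) (hI : InvStmt) : BaseStmt := by
  refine ⟨0, fun ε hε => ?_⟩
  have hε2 : 0 < ε / 2 := by positivity
  obtain ⟨C, hC, hT⟩ := hT (ε / 2) hε2
  obtain ⟨C', hC', hD⟩ := exD 4 1 160 hε2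
  refine ⟨32 * C * C', by positivity, fun μ hμ d Λ Q hd => ?_⟩
  have hΛ := hd.one_le
  obtain ⟨X, Δ, hX, hXΛ, hΔ⟩ := hD Λ hΛ
  have hQ : 1 ≤ Q := hd.2.2.2.2.2.1
  have hQ' : (1 : ℝ) ≤ Q := by exact_mod_cast hQ
  have hpac := pac_pk' hd.2.1
  have h1 : ∑ q ∈ Ico Q (2 * Q), LN μ q Prod.fst (pk d) ≤
      ∑ q ∈ Ico Q (2 * Q), ∑' z : Orb, iE ((q : ℤ) ∣ nI z.1) *
        vol (Sup d.al d.H2 d.H) (Sup d.al d.H2 d.H) z.1 :=
    sum_le_sum fun q hq => (LF_le_L0 μ q _).trans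
      (hR μ hμ q Prod.fst _ (pk d) (hQ.trans (mem_Ico.1 hq).1) ((hS μ hμ d.al hd.1).1 d.H2 d.H)
        hpac.bd hpac.sp)
  rw [← Summable.tsum_finsetSum fun _ _ => ENNReal.summable] at h1
  have h2 : ∑' z : Orb, ∑ q ∈ Ico Q (2 * Q), iE ((q : ℤ) ∣ nI z.1) *
        vol (Sup d.al d.H2 d.H) (Sup d.al d.H2 d.H) z.1 ≤
      ∑' z : Orb, iE (|(rI z.1 : ℝ)| ≤ 32 * d.al ^ 2) * ENNReal.ofReal (nu_Base Q (nI z.1)) *
        vol (Sup d.al d.H2 d.H) (Sup d.al d.H2 d.H) z.1 := by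
    refine ENNReal.tsum_le_tsum fun z => ?_
    rw [← sum_mul, sum_iE_Base, mul_comm (iE _), mul_assoc]
    exact mul_le_mul_right (vol_Base hI hd.1 z.1) _
  have h3 := hT Λ d.al d.H2 d.H (32 * d.al ^ 2) Δ 0 Q (nu_Base Q) hd.bd (by positivity)
    (zero_le_one.trans hX.1) le_rfl (Nat.cast_nonneg Q) (nu_zero_Base Q) fun n hn hnΛ => by
      rw [zero_div, add_zero]
      refine (nu_le_Base Q hn).trans (hX.2 _ ?_)
      have h4 : ((n.natAbs : ℕ) : ℝ) ≤ X := by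
        rw [Nat.cast_natAbs, Int.cast_abs]
        exact hnΛ.trans hXΛ
      exact_mod_cast h4
  refine ((h1.trans h2).trans h3).trans (ENNReal.ofReal_le_ofReal ?_)
  rw [pow_zero, mul_one, Real.rpow_one]
  have hp : 0 ≤ Λ ^ (ε / 2) := Real.rpow_nonneg (zero_le_one.trans hΛ) _
  have hY : 0 ≤ (1 + d.PP / Q) * (d.DD * Q + d.XX * Q) := by
    have := d.DD_nonneg
    have := d.XX_nonneg
    have := d.PP_nonneg
    positivity
  have hsq : Λ ^ ε = Λ ^ (ε / 2) * Λ ^ (ε / 2) := by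
    rw [← Real.rpow_add (zero_lt_one.trans_le hΛ), add_halves]
  rw [pow_one] at hΔ
  calc C * Λ ^ (ε / 2) * (d.al ^ 2 * (|d.H2| * |d.H| + d.H ^ 2) *
        ((Q : ℝ) + 0 + Δ * (1 + |d.H2| * |d.H| + d.H2 ^ 2 * (32 * d.al ^ 2))))
      ≤ C * Λ ^ (ε / 2) * (32 * Δ * ((1 + d.PP / Q) * (d.DD * Q + d.XX * Q))) :=
        mul_le_mul_of_nonneg_left (alg_Base d hQ' hX.1) (by positivity)
    _ ≤ C * Λ ^ (ε / 2) * (32 * (C' * Λ ^ (ε / 2)) * ((1 + d.PP / Q) * (d.DD * Q + d.XX * Q))) :=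
        mul_le_mul_of_nonneg_left (mul_le_mul_of_nonneg_right
          (mul_le_mul_of_nonneg_left hΔ (by norm_num)) hY) (by positivity)
    _ = 32 * C * C' * Λ ^ ε * ((1 + d.PP / Q) * (d.DD * Q + d.XX * Q)) := by
        rw [hsq]; ring

end Pool.Agent.MP_c853c5_nt.W
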