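import Pool.Agent.MP_c853c5_nt.W.Defs

set_option autoImplicit false

open Finset MeasureTheory
open scoped ENNReal ComplexConjugate

namespace Pool.Agent.MP_c853c5_nt.W

open Pool.Agent.MP_2a1f0e_nt Pool.Agent.MP_2a1f0e_nt.GM Pool.Agent.MP_2a1f0e_nt.DH

/-! ### indicators -/

lemma iE_pos {p : Prop} (h : p) : iE p = 1 := by simp [iE, h]
lemma iE_neg {p : Prop} (h : ¬p) : iE p = 0 := by simp [iE, h]
lemma iC_pos {p : Prop} (h : p) : iC p = 1 := by simp [iC, h]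
lemma iC_neg {p : Prop} (h : ¬p) : iC p = 0 := by simp [iC, h]
lemma iE_le_one (p : Prop) : iE p ≤ 1 := by by_cases h : p <;> simp [iE, h]
lemma iE_ne_top (p : Prop) : iE p ≠ ⊤ := by by_cases h : p <;> simp [iE, h]
lemma iE_ne_zero {p : Prop} (h : iE p ≠ 0) : p := by_contra fun hp => h (iE_neg hp)
lemma iC_ne_zero {p : Prop} (h : iC p ≠ 0) : p := by_contra fun hp => h (iC_neg hp)
lemma iE_mono {p q : Prop} (h : p → q) : iE p ≤ iE q := by
  by_cases hp : p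
  · rw [iE_pos hp, iE_pos (h hp)]
  · rw [iE_neg hp]; exact zero_le
lemma iE_congr {p q : Prop} (h : p ↔ q) : iE p = iE q := by rw [propext h]
lemma iC_congr {p q : Prop} (h : p ↔ q) : iC p = iC q := by rw [propext h]
lemma iE_and (p q : Prop) : iE (p ∧ q) = iE p * iE q := by
  by_cases hp : p <;> by_cases hq : q <;> simp [iE, hp, hq]
lemma iC_and (p q : Prop) : iC (p ∧ q) = iC p * iC q := by
  by_cases hp : p <;> by_cases hq : q <;> simp [iC, hp, hq]
lemma norm_iC_le (p : Prop) : ‖iC p‖ ≤ 1 := by by_cases h : p <;> simp [iC, h]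
lemma enorm_iC (p : Prop) : ‖iC p‖ₑ = iE p := by by_cases h : p <;> simp [iC, iE, h]
lemma conj_iC (p : Prop) : conj (iC p) = iC p := by by_cases h : p <;> simp [iC, h]
lemma iC_add_not (p : Prop) : iC p + iC (¬p) = 1 := by by_cases h : p <;> simp [iC, h]

lemma measurable_iE {X : Type*} [MeasurableSpace X] {p : X → Prop} (h : MeasurableSet {x | p x}) :
    Measurable fun x => iE (p x) := by
  classical
  exact Measurable.ite h measurable_const measurable_const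

lemma measurable_iC {X : Type*} [MeasurableSpace X] {p : X → Prop} (h : MeasurableSet {x | p x}) :
    Measurable fun x => iC (p x) := by
  classical
  exact Measurable.ite h measurable_const measurable_const

lemma lintegral_iE {X : Type*} [MeasurableSpace X] (μ : Measure X) {p : X → Prop}
    (h : MeasurableSet {x | p x}) : ∫⁻ x, iE (p x) ∂μ = μ {x | p x} := by
  rw [← lintegral_indicator_one h]
  refine lintegral_congr fun x => ?_
  by_cases hx : p x
  · rw [iE_pos hx, Set.indicator_of_mem (show x ∈ {x | p x} from hx)]; rfl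
  · rw [iE_neg hx, Set.indicator_of_notMem (show x ∉ {x | p x} from hx)]

lemma enorm_le_iE {c : ℂ} {p : Prop} (h1 : ‖c‖ ≤ 1) (h2 : c ≠ 0 → p) : ‖c‖ₑ ≤ iE p := by
  by_cases h : p
  · rw [iE_pos h, ← ofReal_norm_eq_enorm]
    exact ENNReal.ofReal_le_one.2 h1
  · have : c = 0 := by_contra fun hc => h (h2 hc)
    simp [this]

/-! ### algebra -/

lemma om2_vg (u v : V) (G : Pr) : om2 (vg u G) (vg v G) = om2 u v * hh G := by
  simp only [om2, vg, hh]; ring

lemma om2_self (u : V) : om2 u u = 0 := by simp only [om2]; ring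

lemma om2_swap (u v : V) : om2 u v = -om2 v u := by simp only [om2]; ring

lemma hh_pg (P G : Pr) : hh (pg P G) = hh P * hh G := om2_vg _ _ _

lemma vg_vg (u : V) (P G : Pr) : vg u (pg P G) = vg (vg u P) G := by
  simp only [vg, pg, Prod.mk.injEq]; constructor <;> ring

lemma vx_vg (u : V) (G : Pr) (x : MM) : vx (vg u G) x = vx u (act G x) := by
  simp only [vx, vg, act, Prod.mk.injEq]; constructor <;> (push_cast; ring)

lemma act_pg (P G : Pr) (x : MM) : act (pg P G) x = act P (act G x) := by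
  simp only [act, pg, vx_vg]

lemma dt_act (G : Pr) (x : MM) : dt (act G x) = (hh G : ℝ) * dt x := by
  simp only [dt, act, vx, hh, om2]; push_cast; ring

lemma dt_rm (m x : MM) : dt (rm m x) = dt x * dt m := by
  simp only [dt, rm, rt]; ring

lemma vx_rm (u : V) (m x : MM) : vx u (rm m x) = rt m (vx u x) := by
  simp only [vx, rm, rt, Prod.mk.injEq]; constructor <;> ring

lemma act_rm (G : Pr) (m x : MM) : act G (rm m x) = rm m (act G x) := by
  simp only [act, rm, vx_rm]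
  rw [← vx_rm, ← vx_rm]; rfl

lemma tt_pg (P G : Pr) (x : MM) : tt (pg P G) x = tt P (act G x) := by
  simp only [tt, pg, vx_vg]

lemma plucker (z : Pr × Pr) : hh z.1 * hh z.2 = nI z * rI z - pI z * sI z := by
  simp only [hh, nI, rI, pI, sI, om2]; ring

/-- `r u = p u' - h v'`, first coordinate at `x` -/
lemma ru_one (z : Pr × Pr) (x : MM) : (rI z : ℝ) * (vx z.1.1 x).1 =
    (pI z : ℝ) * (vx z.1.2 x).1 - (hh z.1 : ℝ) * (vx z.2.2 x).1 := by
  simp only [hh, rI, pI, om2, vx]; push_cast; ring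

lemma rv_one (z : Pr × Pr) (x : MM) : (rI z : ℝ) * (vx z.2.1 x).1 =
    (hh z.2 : ℝ) * (vx z.1.2 x).1 + (sI z : ℝ) * (vx z.2.2 x).1 := by
  simp only [hh, rI, sI, om2, vx]; push_cast; ring

lemma rv_two (z : Pr × Pr) (x : MM) : (rI z : ℝ) * (vx z.2.1 x).2 =
    (hh z.2 : ℝ) * (vx z.1.2 x).2 + (sI z : ℝ) * (vx z.2.2 x).2 := by
  simp only [hh, rI, sI, om2, vx]; push_cast; ring

lemma om2_dt (u v : V) (x : MM) : (om2 u v : ℝ) * dt x =
    (vx u x).1 * (vx v x).2 - (vx u x).2 * (vx v x).1 := by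
  simp only [om2, vx, dt]; push_cast; ring

lemma sg_mul {ω : ℝ} (h : ω ≠ 0) : sg ω * ω = |ω| := by
  have : |ω| ≠ 0 := abs_ne_zero.2 h
  unfold sg
  field_simp
  rw [sq_abs]

lemma sg_sq {ω : ℝ} (h : ω ≠ 0) : sg ω ^ 2 = 1 := by
  have : |ω| ≠ 0 := abs_ne_zero.2 h
  unfold sg
  field_simp
  rw [sq_abs]

lemma abs_sg {ω : ℝ} (h : ω ≠ 0) : |sg ω| = 1 := by
  rw [sg, abs_div, abs_abs, div_self (abs_ne_zero.2 h)]

lemma dt_rot {ω : ℝ} (h : ω ≠ 0) : dt (rot (sg ω)) = 1 := by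
  simp only [dt, rot]; nlinarith [sg_sq h]

/-! ### primitive vectors -/

lemma ct_dvd_one (u : V) : (ct u : ℤ) ∣ u.1 := Int.gcd_dvd_left _ _
lemma ct_dvd_two (u : V) : (ct u : ℤ) ∣ u.2 := Int.gcd_dvd_right _ _

lemma prim_iff {u : V} : Prim u ↔ IsCoprime u.1 u.2 := Int.isCoprime_iff_gcd_eq_one.symm

lemma prim_iff_exists {u : V} : Prim u ↔ ∃ v : V, om2 v u = 1 := by
  rw [prim_iff]
  constructor
  · rintro ⟨a, b, h⟩
    exact ⟨(b, -a), by simp only [om2]; linarith⟩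
  · rintro ⟨v, h⟩
    exact ⟨-v.2, v.1, by simp only [om2] at h; linarith⟩

lemma prim_two_of_hh {G : Pr} (h : hh G = 1) : Prim G.2 := prim_iff_exists.2 ⟨G.1, h⟩

lemma prim_one_of_hh {G : Pr} (h : hh G = 1) : Prim G.1 :=
  prim_iff_exists.2 ⟨-G.2, by simp only [hh, om2, Prod.fst_neg, Prod.snd_neg] at h ⊢; linarith⟩

lemma ct_vg {G : Pr} (h : hh G = 1) (u : V) : ct (vg u G) = ct u := by
  apply Nat.dvd_antisymm
  · have h1 := ct_dvd_one (vg u G)
    have h2 := ct_dvd_two (vg u G)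
    have e1 : u.1 = (vg u G).1 * G.2.2 - (vg u G).2 * G.2.1 := by
      simp only [hh, om2, vg] at h ⊢; linear_combination (-u.1) * h
    have e2 : u.2 = (vg u G).2 * G.1.1 - (vg u G).1 * G.1.2 := by
      simp only [hh, om2, vg] at h ⊢; linear_combination (-u.2) * h
    refine Int.dvd_gcd ?_ ?_
    · rw [e1]; exact (h1.mul_right _).sub (h2.mul_right _)
    · rw [e2]; exact (h2.mul_right _).sub (h1.mul_right _)
  · have h1 := ct_dvd_one u
    have h2 := ct_dvd_two u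
    exact Int.dvd_gcd ((h1.mul_right _).add (h2.mul_right _))
      ((h1.mul_right _).add (h2.mul_right _))

lemma prim_vg {G : Pr} (h : hh G = 1) (u : V) : Prim (vg u G) ↔ Prim u := by
  rw [Prim, ct_vg h, Prim]

lemma Prim.coprime {u : V} (h : Prim u) (q : ℕ) : Nat.Coprime (ct u) q := by
  rw [show ct u = 1 from h]; exact Nat.coprime_one_left q

/-- parallel primitive vectors -/
lemma prim_par {u v : V} (hu : Prim u) (hv : Prim v) (h : om2 u v = 0) : v = u ∨ v = -u := by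
  obtain ⟨a, ha⟩ := prim_iff_exists.1 hu
  obtain ⟨b, hb⟩ := prim_iff_exists.1 hv
  have e1 : v.1 = om2 a v * u.1 := by
    simp only [om2] at h ha ⊢; linear_combination (-v.1) * ha - a.1 * h
  have e2 : v.2 = om2 a v * u.2 := by
    simp only [om2] at h ha ⊢; linear_combination (-v.2) * ha - a.2 * h
  have e3 : om2 a v * om2 b u = 1 := by
    rw [← hb]
    conv_rhs => rw [om2, e1, e2]
    simp only [om2]; ring
  rcases Int.eq_one_or_neg_one_of_mul_eq_one e3 with k | k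
  · left; rw [k, one_mul] at e1 e2; exact Prod.ext e1 e2
  · right; rw [k, neg_one_mul] at e1 e2; exact Prod.ext e1 e2

/-- a vector on the line of `w` modulo `q` -/
lemma lin_mod {q : ℕ} {w u : V} (hw : Nat.Coprime (ct w) q) (h : (q : ℤ) ∣ om2 w u) :
    ∃ k : ℤ, (q : ℤ) ∣ u.1 - k * w.1 ∧ (q : ℤ) ∣ u.2 - k * w.2 := by
  obtain ⟨s, c, hs⟩ : IsCoprime (ct w : ℤ) (q : ℤ) := Nat.isCoprime_iff_coprime.2 hw
  have hg : (ct w : ℤ) = w.1 * Int.gcdA w.1 w.2 + w.2 * Int.gcdB w.1 w.2 := Int.gcd_eq_gcd_ab _ _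
  obtain ⟨n, hn⟩ := h
  rw [hg] at hs
  simp only [om2] at hn
  refine ⟨s * (u.1 * Int.gcdA w.1 w.2 + u.2 * Int.gcdB w.1 w.2),
    ⟨c * u.1 - s * Int.gcdB w.1 w.2 * n, ?_⟩, ⟨c * u.2 + s * Int.gcdA w.1 w.2 * n, ?_⟩⟩
  · linear_combination (-u.1) * hs - s * Int.gcdB w.1 w.2 * hn
  · linear_combination (-u.2) * hs + s * Int.gcdA w.1 w.2 * hn

lemma mem_PQ {q : ℕ} {w : V} : w ∈ PQ q ↔
    (0 ≤ w.1 ∧ w.1 < q) ∧ (0 ≤ w.2 ∧ w.2 < q) ∧ Nat.Coprime (ct w) q := by
  simp only [PQ, mem_filter, mem_product, mem_Ico, and_assoc]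

lemma card_PQ_le (q : ℕ) : (PQ q).card ≤ q ^ 2 := by
  refine (card_filter_le _ _).trans ?_
  simp [sq]

lemma dvd_mul_iff_div {q m : ℕ} (hq : 1 ≤ q) (n : ℤ) :
    (q : ℤ) ∣ (m : ℤ) * n ↔ ((q / Nat.gcd m q : ℕ) : ℤ) ∣ n := by
  have hg : 0 < Nat.gcd m q := Nat.gcd_pos_of_pos_right _ hq
  obtain ⟨m', hm⟩ := Nat.gcd_dvd_left m q
  obtain ⟨q', hq'⟩ := Nat.gcd_dvd_right m q
  have hc : Nat.Coprime q' m' := by
    have := Nat.coprime_div_gcd_div_gcd hg
    rw [Nat.div_eq_of_eq_mul_right hg hm, Nat.div_eq_of_eq_mul_right hg hq'] at this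
    exact this.symm
  rw [Nat.div_eq_of_eq_mul_right hg hq']
  generalize Nat.gcd m q = g at hg hm hq'
  subst hm hq'
  push_cast
  rw [mul_assoc, mul_dvd_mul_iff_left (by exact_mod_cast hg.ne')]
  exact ⟨fun h => (Nat.isCoprime_iff_coprime.2 hc).dvd_of_dvd_mul_left h, fun h => h.mul_left _⟩

lemma isOrb_hh {z : Pr × Pr} (h : IsOrb z) : hh z.1 = z.1.1.1 := by
  simp only [hh, om2, h.1]; ring

lemma isOrb_hh_ne {z : Pr × Pr} (h : IsOrb z) : hh z.1 ≠ 0 := by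
  rw [isOrb_hh h]
  exact abs_pos.1 (h.2.1.trans_lt h.2.2)

lemma isOrb_one {z : Pr × Pr} (h : IsOrb z) (h1 : hh z.1 = 1) : z.1 = ((1, 0), (0, 1)) := by
  rw [isOrb_hh h] at h1
  obtain ⟨h2, h3, h4⟩ := h
  rw [h1, abs_one] at h4
  exact Prod.ext (Prod.ext h1 (by simp only; omega)) h2

/-! ### weights -/

lemma om_nonneg (x : ℝ) : 0 ≤ om x := by
  by_cases h : x ≤ 1
  · rw [om_eq_zero (Or.inl h)]
  · exact sub_nonneg.2 (psi_anti (by linarith))

lemma om_le_one (x : ℝ) : om x ≤ 1 := by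
  unfold om; linarith [psi_le_one (3 / 4 * x), psi_nonneg x]

lemma om_mem {x : ℝ} (h : om x ≠ 0) : 1 < x ∧ x < 5 / 3 := by
  by_contra hc
  rw [not_and_or, not_lt, not_lt] at hc
  exact h (om_eq_zero hc)

lemma om_eq_one {x : ℝ} (h1 : 5 / 4 ≤ x) (h2 : x ≤ 4 / 3) : om x = 1 := by
  unfold om; rw [psi_eq_one (by linarith), psi_eq_zero h1, sub_zero]

lemma om_zero : om 0 = 0 := om_eq_zero (Or.inl zero_le_one)

lemma continuous_om : Continuous om := contDiff_om.continuous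

lemma measurable_om : Measurable om := continuous_om.measurable

lemma norm_om_le (x : ℝ) : ‖(om x : ℂ)‖ ≤ 1 := by
  rw [Complex.norm_real, Real.norm_of_nonneg (om_nonneg x)]; exact om_le_one x

lemma om_step (z c : ℝ) : om (z / c) = psi (z / (c * (4 / 3))) - psi (z / c) := by
  unfold om; congr 2; ring

/-- telescoping -/
lemma om_tel (z c : ℝ) (I : ℕ) : ∑ i ∈ range I, om (z / (c * (4 / 3) ^ i)) =
    psi (z / (c * (4 / 3) ^ I)) - psi (z / c) := by
  induction I with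
  | zero => simp
  | succ I ih => rw [sum_range_succ, ih, om_step, pow_succ, mul_assoc]; ring

lemma om_three {z : ℝ} (h1 : 15 / 16 ≤ z) (h2 : z ≤ 16 / 9) :
    ∑ i ∈ Icc (-1 : ℤ) 1, om (z / (4 / 3) ^ i) = 1 := by
  have h := om_tel z (3 / 4) 3
  rw [psi_eq_one (by rw [div_le_one (by norm_num)]; linarith),
    psi_eq_zero (by rw [le_div_iff₀ (by norm_num)]; linarith)] at h
  rw [show Icc (-1 : ℤ) 1 = {-1, 0, 1} by decide, sum_insert (by decide), sum_insert (by decide),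
    sum_singleton]
  simp only [sum_range_succ, sum_range_zero] at h
  norm_num at h ⊢
  linarith

lemma om_eight {z : ℝ} (h1 : 135 / 256 ≤ z) (h2 : z ≤ 4) :
    ∑ i ∈ Ico (-3 : ℤ) 5, om (z / (4 / 3) ^ i) = 1 := by
  have h := om_tel z (27 / 64) 8
  rw [psi_eq_one (by rw [div_le_one (by norm_num)]; norm_num; linarith),
    psi_eq_zero (by rw [le_div_iff₀ (by norm_num)]; linarith)] at h
  rw [show Ico (-3 : ℤ) 5 = {-3, -2, -1, 0, 1, 2, 3, 4} by decide, sum_insert (by decide),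
    sum_insert (by decide), sum_insert (by decide), sum_insert (by decide),
    sum_insert (by decide), sum_insert (by decide), sum_insert (by decide), sum_singleton]
  simp only [sum_range_succ, sum_range_zero] at h
  norm_num at h ⊢
  linarith

lemma norm_E_le (ξ z : ℝ) : ‖E ξ z‖ ≤ 1 := by
  rw [E, norm_mul, norm_ex, mul_one]; exact norm_om_le z

lemma E_mem {ξ z : ℝ} (h : E ξ z ≠ 0) : 1 < z ∧ z < 5 / 3 :=
  om_mem fun h0 => h (by rw [E, h0, Complex.ofReal_zero, zero_mul])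

lemma E_zero (ξ : ℝ) : E ξ 0 = 0 := by rw [E, om_zero, Complex.ofReal_zero, zero_mul]

lemma E_add (ξ ζ z : ℝ) : E (ξ + ζ) z = E ξ z * ex (ζ * z) := by
  rw [E, E, add_mul, ex_add, mul_assoc]

lemma continuous_E : Continuous fun p : ℝ × ℝ => E p.1 p.2 :=
  (Complex.continuous_ofReal.comp (continuous_om.comp continuous_snd)).mul
    (continuous_ex.comp (continuous_fst.mul continuous_snd))

lemma measurable_E {X : Type*} [MeasurableSpace X] {f g : X → ℝ} (hf : Measurable f)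
    (hg : Measurable g) : Measurable fun x => E (f x) (g x) :=
  (Complex.measurable_ofReal.comp (measurable_om.comp hg)).mul
    (continuous_ex.measurable.comp (hf.mul hg))

lemma contDiff_ex : ContDiff ℝ (⊤ : ℕ∞) ex := by
  unfold ex
  refine Complex.contDiff_exp.comp (contDiff_const.mul ?_)
  exact Complex.ofRealCLM.contDiff.comp (contDiff_const.mul contDiff_id)

lemma contDiff_E (ξ : ℝ) : ContDiff ℝ (⊤ : ℕ∞) (E ξ) :=
  (Complex.ofRealCLM.contDiff.comp contDiff_om).mul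
    (contDiff_ex.comp (contDiff_const.mul contDiff_id))

lemma hasCompactSupport_E (ξ : ℝ) : HasCompactSupport (E ξ) :=
  HasCompactSupport.intro (isCompact_Icc (a := 1) (b := 5 / 3)) fun x hx => by
    by_contra h
    exact hx ⟨(E_mem h).1.le, (E_mem h).2.le⟩

lemma measurable_Eh (ξ : ℝ) : Measurable (Eh ξ) := by
  have h : Continuous fun p : ℝ × ℝ => E ξ p.2 * ex (-(p.1 * p.2)) :=
    ((contDiff_E ξ).continuous.comp continuous_snd).mul
      (continuous_ex.comp (continuous_fst.mul continuous_snd).neg)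
  exact (h.stronglyMeasurable.integral_prod_right' (ν := volume)).measurable

lemma abs_of_mem {a b : ℝ} (h : 1 < a / b ∧ a / b < 5 / 3) :
    b ≠ 0 ∧ |b| < |a| ∧ |a| < 5 / 3 * |b| := by
  have hb : b ≠ 0 := by
    rintro rfl
    rw [div_zero] at h
    linarith [h.1]
  have hb' : 0 < |b| := abs_pos.2 hb
  have e : a / b = |a| / |b| := by rw [← abs_div, abs_of_pos (by linarith [h.1])]
  rw [e, lt_div_iff₀ hb', div_lt_iff₀ hb', one_mul] at h
  exact ⟨hb, h.1, h.2⟩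

lemma bb_nonneg (x : ℝ) : 0 ≤ bb x := bmp.nonneg
lemma bb_le_one (x : ℝ) : bb x ≤ 1 := bmp.le_one
lemma contDiff_bb : ContDiff ℝ (⊤ : ℕ∞) bb := bmp.contDiff

lemma bb_mem {x : ℝ} (h : bb x ≠ 0) : |x| < 1 / 100 := by
  have : x ∈ Function.support bmp := h
  rw [bmp.support_eq, Metric.mem_ball, dist_zero_right, Real.norm_eq_abs] at this
  exact this

lemma th_mem {a₁ a₂ b₁ b₂ : ℝ} (h : th a₁ a₂ b₁ b₂ ≠ 0) : |a₁ - 1| < 1 / 100 ∧ |a₂| < 1 / 100 ∧
    |b₁| < 1 / 100 ∧ |b₂ - 32 / 25| < 1 / 100 := by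
  simp only [th, mul_ne_zero_iff] at h
  exact ⟨bb_mem h.1.1.1, bb_mem h.1.1.2, bb_mem h.1.2, bb_mem h.2⟩

lemma iv_eq {x : ℝ} (h : 1 / 10 ≤ x) : iv x = x⁻¹ := by
  rw [iv, Real.smoothTransition.one_of_one_le (by linarith), one_mul]

lemma contDiff_iv : ContDiff ℝ (⊤ : ℕ∞) iv := by
  refine contDiff_iff_contDiffAt.2 fun x => ?_
  by_cases hx : x = 0
  · refine (contDiffAt_const (c := (0 : ℝ))).congr_of_eventuallyEq ?_
    filter_upwards [Iio_mem_nhds (show x < 1 / 20 by rw [hx]; norm_num)] with z hz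
    rw [iv, Real.smoothTransition.zero_of_nonpos (by linarith [Set.mem_Iio.1 hz]), zero_mul]
  · exact (Real.smoothTransition.contDiff.comp (by fun_prop)).contDiffAt.mul
      (contDiffAt_inv ℝ hx)

lemma cut_eq_one {y : Fin 9 → ℝ} (h : ∀ i, |y i| ≤ 10) : cut y = 1 :=
  prod_eq_one fun i _ => bmq.one_of_mem_closedBall (by
    rw [Metric.mem_closedBall, dist_zero_right, Real.norm_eq_abs]; exact h i)

/-! ### arithmetic -/

lemma le_psiD (q : ℕ) : (q : ℝ) ≤ psiD q :=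
  le_mul_of_one_le_right (Nat.cast_nonneg _)
    (Finset.one_le_prod fun p _ => le_add_of_nonneg_right (by positivity))

lemma one_le_psiD {q : ℕ} (hq : 1 ≤ q) : 1 ≤ psiD q :=
  (show (1 : ℝ) ≤ q by exact_mod_cast hq).trans (le_psiD q)

lemma norm_ind_le (q : ℕ) (n : ℤ) : ‖ind q n‖ ≤ 1 := norm_iC_le _

lemma norm_dl_le {q : ℕ} (hq : 1 ≤ q) (n : ℤ) : ‖dl q n‖ ≤ 1 := by
  have h1 := one_le_psiD hq
  have h2 : 0 ≤ 1 / psiD q := by positivity
  have h3 : 1 / psiD q ≤ 1 := by rw [div_le_one (by linarith)]; exact h1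
  unfold dl ind
  by_cases h : (q : ℤ) ∣ n
  · rw [iC_pos h, ← Complex.ofReal_one, ← Complex.ofReal_sub, Complex.norm_real,
      Real.norm_of_nonneg (by linarith)]
    linarith
  · rw [iC_neg h, zero_sub, norm_neg, Complex.norm_real, Real.norm_of_nonneg h2]; exact h3

lemma norm_dlT_le {a b e : ℕ} (ha : 1 ≤ a) (hb : 1 ≤ b) (P : Pr) : ‖dlT a b e P‖ ≤ 1 := by
  have h1 : ∀ a : ℕ, 1 ≤ a → 1 ≤ ap a e := fun a ha =>
    Nat.div_pos (Nat.gcd_le_left _ ha) (Nat.gcd_pos_of_pos_left _ ha)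
  rw [dlT, norm_mul]
  exact mul_le_one₀ (norm_iC_le _) (norm_nonneg _)
    (norm_dl_le (Nat.mul_pos (h1 a ha) (h1 b hb)) _)

lemma DivB_log {X Y : ℕ} {Δ : ℝ} (h : DivB X Δ) (hY : Y ≤ X) : (Nat.log 2 Y : ℝ) + 1 ≤ Δ := by
  rcases Nat.eq_zero_or_pos Y with rfl | h0
  · simpa using h.1
  have h1 := h.2 _ ((Nat.pow_log_le_self 2 h0.ne').trans hY)
  rw [Nat.divisors_prime_pow Nat.prime_two, card_map, card_range] at h1
  exact_mod_cast h1

lemma harm_le {X M : ℕ} {Δ : ℝ} (h : DivB X Δ) (hM : M ≤ X) :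
    ∑ m ∈ Icc 1 M, 1 / (m : ℝ) ≤ 2 * Δ := by
  rcases Nat.eq_zero_or_pos M with rfl | h0
  · simpa using zero_le_one.trans h.1
  have h1 : ∑ m ∈ Icc 1 M, 1 / (m : ℝ) ≤ 1 + Real.log M := by
    have := harmonic_le_one_add_log M
    rw [harmonic_eq_sum_Icc] at this
    push_cast at this
    simpa only [one_div] using this
  have h2 : Real.log M ≤ ((Nat.log 2 M : ℝ) + 1) * Real.log 2 := by
    have h3 : (M : ℝ) ≤ 2 ^ (Nat.log 2 M + 1) := by
      exact_mod_cast (Nat.lt_pow_succ_log_self one_lt_two M).le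
    have := Real.log_le_log (by exact_mod_cast h0) h3
    rwa [Real.log_pow, Nat.cast_add, Nat.cast_one] at this
  have h4 : Real.log 2 ≤ 1 := by linarith [Real.log_two_lt_d9]
  have h5 := DivB_log h hM
  nlinarith [h.1, Nat.cast_nonneg (α := ℝ) (Nat.log 2 M)]

/-- a divisor bound up to `B * Λ ^ k` whose `j`-th power is at most `C * Λ ^ ε` -/
lemma exD (k j : ℕ) (B : ℝ) {ε : ℝ} (hε : 0 < ε) : ∃ C : ℝ, 1 ≤ C ∧ ∀ Λ : ℝ, 1 ≤ Λ →
    ∃ (X : ℕ) (Δ : ℝ), DivB X Δ ∧ B * Λ ^ k ≤ X ∧ Δ ^ j ≤ C * Λ ^ ε := by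
  have hη : 0 < ε / ((k + 1) * (j + 1)) := by positivity
  obtain ⟨C, hC, h⟩ := exists_DivB hη
  set η := ε / ((k + 1) * (j + 1)) with hηe
  have hB : 1 ≤ |B| + 1 := by linarith [abs_nonneg B]
  refine ⟨(C * (|B| + 2) ^ η) ^ j, one_le_pow₀ (one_le_mul_of_one_le_of_one_le hC
    (Real.one_le_rpow (by linarith) hη.le)), fun Λ hΛ => ?_⟩
  have hk : 1 ≤ Λ ^ k := one_le_pow₀ hΛ
  have h1 : 1 ≤ (|B| + 1) * Λ ^ k := one_le_mul_of_one_le_of_one_le hB hk
  have h2 : 1 ≤ ⌈(|B| + 1) * Λ ^ k⌉₊ := Nat.one_le_ceil_iff.2 (by linarith)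
  refine ⟨_, _, h _ h2, le_trans ?_ (Nat.le_ceil _), ?_⟩
  · nlinarith [le_abs_self B]
  have h3 : (⌈(|B| + 1) * Λ ^ k⌉₊ : ℝ) ≤ (|B| + 2) * Λ ^ k := by
    linarith [(Nat.ceil_lt_add_one (by linarith : 0 ≤ (|B| + 1) * Λ ^ k)).le]
  have h4 : ((Λ ^ k) ^ η) ^ j ≤ Λ ^ ε := by
    rw [← Real.rpow_natCast Λ k, ← Real.rpow_mul (by linarith), ← Real.rpow_mul_natCast
      (by linarith)]
    refine Real.rpow_le_rpow_of_exponent_le hΛ ?_
    rw [hηe, mul_div_assoc', div_mul_eq_mul_div, div_le_iff₀ (by positivity)]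
    nlinarith [Nat.cast_nonneg (α := ℝ) k, Nat.cast_nonneg (α := ℝ) j,
      mul_nonneg hε.le (Nat.cast_nonneg (α := ℝ) k), mul_nonneg hε.le (Nat.cast_nonneg (α := ℝ) j)]
  calc (C * (⌈(|B| + 1) * Λ ^ k⌉₊ : ℝ) ^ η) ^ j ≤ (C * ((|B| + 2) * Λ ^ k) ^ η) ^ j := by gcongr
    _ = (C * (|B| + 2) ^ η) ^ j * ((Λ ^ k) ^ η) ^ j := by
      rw [Real.mul_rpow (by linarith) (by linarith), ← mul_assoc, mul_pow]
    _ ≤ _ := by gcongr

end Pool.Agent.MP_c853c5_nt.W
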