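import Pool.Agent.MP_c853c5_nt.W.Api
set_option autoImplicit false
open Finset MeasureTheory
open scoped ENNReal ComplexConjugate
namespace Pool.Agent.MP_c853c5_nt.W
open Pool.Agent.MP_2a1f0e_nt Pool.Agent.MP_2a1f0e_nt.GM Pool.Agent.MP_2a1f0e_nt.DH

lemma moeb_Blk (u : V) :
    iC (Prim u) = ∑ e ∈ (ct u).divisors, ((ArithmeticFunction.moebius e : ℤ) : ℂ) := by
  have h := congrArg (fun f : ArithmeticFunction ℤ => f (ct u))
    ArithmeticFunction.moebius_mul_coe_zeta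
  simp only [ArithmeticFunction.coe_mul_zeta_apply, ArithmeticFunction.one_apply] at h
  rw [← Int.cast_sum, h]
  by_cases hu : ct u = 1
  · rw [iC_pos (show Prim u from hu), if_pos hu, Int.cast_one]
  · rw [iC_neg (show ¬Prim u from hu), if_neg hu, Int.cast_zero]

lemma norm_kap_Blk (e : ℕ) (p : Prop) :
    ‖((ArithmeticFunction.moebius e : ℤ) : ℂ) * iC p‖ ≤ 1 := by
  rw [norm_mul, Complex.norm_intCast]
  refine mul_le_one₀ ?_ (norm_nonneg _) (norm_iC_le p)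
  exact_mod_cast ArithmeticFunction.abs_moebius_le_one

lemma gcd_le_Blk {e t : ℕ} (ht : 1 ≤ t) (q : ℕ) : Nat.gcd (e * t) q ≤ Nat.gcd e q * t := by
  rcases Nat.eq_zero_or_pos (Nat.gcd e q) with h | h
  · obtain ⟨rfl, rfl⟩ := Nat.gcd_eq_zero_iff.1 h
    simp
  · refine Nat.le_of_dvd (Nat.mul_pos h ht) ?_
    rw [← Nat.gcd_mul_right]
    exact Nat.dvd_gcd (Nat.gcd_dvd_left _ _) ((Nat.gcd_dvd_right _ _).mul_right t)

theorem blk_stmt (hP : PdlStmt) (hC : ContStmt) : BlkStmt := by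
  rintro η hη hη1 ⟨m₁, h₁⟩ ⟨m₂, h₂⟩
  refine ⟨m₁ + m₂, fun ε hε => ?_⟩
  obtain ⟨K₁, hK₁, h₁⟩ := h₁ ε hε
  obtain ⟨K₂, hK₂, h₂⟩ := h₂ (ε / 2) (half_pos hε)
  obtain ⟨C, hC1, hD⟩ := exD 1 5 3 (half_pos hε)
  refine ⟨4 * K₁ + 8 * C * K₂, by positivity, fun μ hμ d Λ Q hd => ?_⟩
  have hΛ := hd.one_le
  have hΛ0 : 0 < Λ := by linarith
  obtain ⟨X, Δ, hX, hX1, hΔ⟩ := hD Λ hΛ
  rw [pow_one] at hX1
  have hQ : 1 ≤ Q := hd.2.2.2.2.2.1
  have hQΛ : (Q : ℝ) ≤ Λ := hd.2.2.2.2.2.2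
  have hQ0 : (0 : ℝ) < Q := by exact_mod_cast hQ
  have hg : Measurable d.g := hd.2.1.1
  have hPP := d.PP_nonneg
  have hDD := d.DD_nonneg
  have hXX := d.XX_nonneg
  have hxi := d.one_le_xi
  obtain ⟨M, hM1, hM2⟩ : ∃ M : ℕ, 2 * |d.H| ≤ M ∧ M ≤ X := by
    refine ⟨⌈2 * |d.H|⌉₊, Nat.le_ceil _, Nat.ceil_le.2 ?_⟩
    linarith [hd.2.2.2.2.1]
  obtain ⟨κ₁, hκ₁⟩ : ∃ κ : ℕ → ℕ → ℂ, κ = fun q e => ((ArithmeticFunction.moebius e : ℤ) : ℂ) *
    iC ((Q : ℝ) * (e : ℝ) ^ 2 < d.PP * (Nat.gcd e q : ℝ)) := ⟨_, rfl⟩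
  obtain ⟨κ₂, hκ₂⟩ : ∃ κ : ℕ → ℕ → ℂ, κ = fun q e => ((ArithmeticFunction.moebius e : ℤ) : ℂ) *
    iC (¬(Q : ℝ) * (e : ℝ) ^ 2 < d.PP * (Nat.gcd e q : ℝ)) := ⟨_, rfl⟩
  obtain ⟨R, hR⟩ : ∃ R : ℝ, R = d.DD * (Q + |d.H2|) + d.XX * (Q : ℝ) ^ η := ⟨_, rfl⟩
  have hR0 : 0 ≤ R := by rw [hR]; positivity
  have tail := h₁ μ hμ d Λ Q (fun q k => ∑ e ∈ k.divisors, κ₂ q e) 1 hd zero_le_one
    (fun q k _ => (norm_sum_le _ _).trans ((sum_le_card_nsmul _ _ 1 fun e _ => by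
      rw [hκ₂]; exact norm_kap_Blk e _).trans (by simp)))
    (fun q k hk hne => by
      obtain ⟨e, he, h0⟩ := exists_ne_zero_of_sum_ne_zero hne
      rw [hκ₂] at h0
      have h1 := not_lt.1 (iC_ne_zero (right_ne_zero_of_mul h0))
      obtain ⟨t, rfl⟩ := Nat.dvd_of_mem_divisors he
      have ht : 1 ≤ t := Nat.pos_of_mul_pos_left hk
      have ht' : (1 : ℝ) ≤ t := by exact_mod_cast ht
      have h2 : (Nat.gcd (e * t) q : ℝ) ≤ Nat.gcd e q * t := by exact_mod_cast gcd_le_Blk ht q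
      calc d.PP * (Nat.gcd (e * t) q : ℝ) ≤ d.PP * (Nat.gcd e q * t) :=
            mul_le_mul_of_nonneg_left h2 hPP
        _ = d.PP * Nat.gcd e q * t := by ring
        _ ≤ Q * (e : ℝ) ^ 2 * (t : ℝ) ^ 2 :=
            mul_le_mul h1 (by nlinarith) (by positivity) (by positivity)
        _ = _ := by push_cast; ring)
  have head := hP μ Q M X Δ (K₂ * Λ ^ (ε / 2) * d.xi ^ m₂ * R)
    (fun q x w => ∑ e ∈ Icc 1 M, κ₁ q e * vf (q / Nat.gcd e q) Prod.fst (pa (d.sc e)) x w)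
    (fun q e x w => κ₁ q e * vf (q / Nat.gcd e q) Prod.fst (pa (d.sc e)) x w)
    (fun e q' => LN μ q' Prod.fst (pa (d.sc e)))
    (fun e g => (Q : ℝ) * (e : ℝ) ^ 2 < d.PP * (g : ℝ) ∧ g < 2 * Q) hQ hX
    (by exact_mod_cast (show (2 : ℝ) * Q ≤ X by linarith)) hM2 (by positivity)
    (fun _ _ _ _ _ => rfl)
    (fun q hq e _ => ⟨(MF_vf _ _ (measurable_pa (d := d.sc e) hg)).const_mul _,
      fun x => (per_vf _ _ _ x).const_mul _, by
        have hq' := mem_Ico.1 hq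
        by_cases h : (Q : ℝ) * (e : ℝ) ^ 2 < d.PP * (Nat.gcd e q : ℝ)
        · rw [iE_pos ⟨h, (Nat.gcd_le_right e (by omega)).trans_lt hq'.2⟩]
          have := LF_mul_le μ (q / Nat.gcd e q) (vf (q / Nat.gcd e q) Prod.fst (pa (d.sc e)))
            (a := fun _ => κ₁ q e) (B := 1) fun _ => by rw [hκ₁]; exact norm_kap_Blk e _
          rwa [one_pow, ENNReal.ofReal_one] at this
        · have := LF_mul_le μ (q / Nat.gcd e q) (vf (q / Nat.gcd e q) Prod.fst (pa (d.sc e)))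
            (a := fun _ => κ₁ q e) (B := 0) fun _ => by
              simp only [hκ₁, iC_neg h, mul_zero, norm_zero, le_refl]
          rw [zero_pow two_ne_zero, ENNReal.ofReal_zero, zero_mul] at this
          exact this.trans zero_le⟩)
    (fun e he g hge hS => by
      have he1 : 1 ≤ e := (mem_Icc.1 he).1
      have he' : (1 : ℝ) ≤ e := by exact_mod_cast he1
      have hg1 : 1 ≤ g := Nat.pos_of_dvd_of_pos hge he1
      have hg' : (0 : ℝ) < g := by exact_mod_cast hg1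
      obtain ⟨c1, c2, c3, c4⟩ := cq_facts hQ hg1
      have c5 : g * cq Q g ≤ 2 * Q := by
        rcases le_total g Q with h | h
        · omega
        · have : cq Q g < 2 := Nat.lt_of_mul_lt_mul_left (a := g) (by omega)
          rw [show cq Q g = 1 by omega]
          omega
      have c6 : (g : ℝ) * cq Q g ≤ 2 * Q := by exact_mod_cast c5
      have c7 : (cq Q g : ℝ) ≤ Q := by exact_mod_cast c2
      refine (h₂ μ hμ (d.sc e) Λ (cq Q g) (hd.sc he1 c1 c2) ?_).trans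
        (ENNReal.ofReal_le_ofReal ?_)
      · rw [Dat.sc_PP, ← mul_div_assoc, le_div_iff₀ (by positivity)]
        refine le_of_mul_le_mul_left ?_ hg'
        have := mul_le_mul_of_nonneg_right c6 (sq_nonneg (e : ℝ))
        linarith [hS.1]
      · rw [Dat.sc_DD, Dat.sc_XX, mul_div_assoc]
        refine mul_le_mul_of_nonneg_left ?_ (show 0 ≤ K₂ * Λ ^ (ε / 2) * d.xi ^ m₂ by positivity)
        have a1 : |(d.sc e).H2| ≤ |d.H2| := by
          change |d.H2 / e| ≤ _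
          rw [abs_div, Nat.abs_cast]
          exact div_le_self (abs_nonneg _) he'
        have a2 : (cq Q g : ℝ) ^ η ≤ (Q : ℝ) ^ η :=
          Real.rpow_le_rpow (Nat.cast_nonneg _) c7 hη.le
        rw [hR, div_mul_eq_mul_div, div_mul_eq_mul_div, ← add_div]
        gcongr)
  have split : ∀ q ∈ Ico Q (2 * Q), LN μ q Prod.fst (pk d) ≤
      2 * LN μ q Prod.fst (fun P x => (∑ e ∈ (ct P.1).divisors, κ₂ q e) * pa d P x) +
      2 * LF μ q fun x w =>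
        ∑ e ∈ Icc 1 M, κ₁ q e * vf (q / Nat.gcd e q) Prod.fst (pa (d.sc e)) x w := by
    intro q hq
    have hq1 : 1 ≤ q := hQ.trans (mem_Ico.1 hq).1
    refine LF_add_le μ q (MF_vf _ _ fun P => (measurable_pa hg P).const_mul _)
      fun x => ⟨0, fun w _ => ?_⟩
    have e0 : pk d = fun P x =>
        (∑ e ∈ (ct P.1).divisors, ((ArithmeticFunction.moebius e : ℤ) : ℂ)) * pa d P x := by
      funext P x
      rw [pk, moeb_Blk]
    rw [e0, (hC d q M _ x w hq1 hd.1 hd.2.1 hM1).2, (hC d q M _ x w hq1 hd.1 hd.2.1 hM1).2,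
      add_zero, ← sum_add_distrib]
    refine sum_congr rfl fun e _ => ?_
    rw [← add_mul, hκ₁, hκ₂]
    beta_reduce
    rw [← mul_add, add_comm (iC _), iC_add_not, mul_one]
  refine (sum_le_sum split).trans ?_
  rw [sum_add_distrib, ← mul_sum, ← mul_sum]
  refine (add_le_add (mul_le_mul_right tail 2) (mul_le_mul_right head 2)).trans ?_
  have hΔ0 : 0 ≤ Δ := zero_le_one.trans hX.1
  rw [← ENNReal.ofReal_ofNat, ← ENNReal.ofReal_mul zero_le_two, ← ENNReal.ofReal_mul zero_le_two,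
    ← ENNReal.ofReal_add (by positivity) (by positivity), ← hR]
  refine ENNReal.ofReal_le_ofReal ?_
  have a1 : d.xi ^ m₁ ≤ d.xi ^ (m₁ + m₂) := pow_le_pow_right₀ hxi (Nat.le_add_right _ _)
  have a2 : d.xi ^ m₂ ≤ d.xi ^ (m₁ + m₂) := pow_le_pow_right₀ hxi (Nat.le_add_left _ _)
  have a3 : d.DD * Q + d.XX * (Q : ℝ) ^ η ≤ R := by
    rw [hR]
    nlinarith [mul_nonneg hDD (abs_nonneg d.H2)]
  have a4 : Λ ^ ε = Λ ^ (ε / 2) * Λ ^ (ε / 2) := by rw [← Real.rpow_add hΛ0, add_halves]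
  have b1 : K₁ * Λ ^ ε * d.xi ^ m₁ * ((1 + 1) * (d.DD * Q + d.XX * (Q : ℝ) ^ η)) ≤
      K₁ * Λ ^ ε * d.xi ^ (m₁ + m₂) * ((1 + 1) * R) := by gcongr
  have b2 : 4 * Δ ^ 5 * (K₂ * Λ ^ (ε / 2) * d.xi ^ m₂ * R) ≤
      4 * (C * Λ ^ (ε / 2)) * (K₂ * Λ ^ (ε / 2) * d.xi ^ (m₁ + m₂) * R) := by gcongr
  rw [a4] at b1 ⊢
  linarith

theorem dy_stmt : DyStmt := by
  rintro η hη hη1 ⟨m, h⟩
  refine ⟨m, fun ε hε => ?_⟩
  obtain ⟨K, hK, h⟩ := h (ε / 2) (half_pos hε)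
  obtain ⟨C, hC1, hD⟩ := exD 1 1 1 (half_pos hε)
  refine ⟨C * K, by positivity, fun μ hμ d Λ Q hd => ?_⟩
  have hΛ := hd.one_le
  have hΛ0 : 0 < Λ := by linarith
  obtain ⟨X, Δ, hX, hX1, hΔ⟩ := hD Λ hΛ
  rw [pow_one, one_mul] at hX1
  rw [pow_one] at hΔ
  have hQ : 1 ≤ Q := hd.2.2.2.2.2.1
  have hQΛ : (Q : ℝ) ≤ Λ := hd.2.2.2.2.2.2
  have hDD := d.DD_nonneg
  have hXX := d.XX_nonneg
  have hxi := d.one_le_xi
  have hL := DivB_log hX (show Q ≤ X by exact_mod_cast hQΛ.trans hX1)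
  obtain ⟨Z, hZ⟩ : ∃ Z : ℝ,
    Z = K * Λ ^ (ε / 2) * d.xi ^ m * (d.DD * (Q + |d.H2|) + d.XX * (Q : ℝ) ^ η) := ⟨_, rfl⟩
  have hZ0 : 0 ≤ Z := by rw [hZ]; positivity
  rw [← sum_fiberwise_of_maps_to (t := range (Nat.log 2 Q + 1)) (g := Nat.log 2)
    fun q hq => mem_range.2 (Nat.lt_succ_of_le (Nat.log_mono_right (mem_Icc.1 hq).2))]
  refine (sum_le_card_nsmul _ _ (ENNReal.ofReal Z) fun j hj => ?_).trans ?_
  · have h1 : 2 ^ j ≤ Q := (Nat.pow_le_pow_right two_pos (Nat.le_of_lt_succ (mem_range.1 hj))).trans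
      (Nat.pow_log_le_self 2 (by omega))
    have h2 : ((2 ^ j : ℕ) : ℝ) ≤ Q := by exact_mod_cast h1
    refine (sum_le_sum_of_subset fun q hq => ?_).trans ((h μ hμ d Λ (2 ^ j) ⟨hd.1, hd.2.1,
      hd.2.2.1, hd.2.2.2.1, hd.2.2.2.2.1, Nat.one_le_two_pow, h2.trans hQΛ⟩).trans
      (ENNReal.ofReal_le_ofReal ?_))
    · obtain ⟨hq1, rfl⟩ := mem_filter.1 hq
      refine mem_Ico.2 ⟨Nat.pow_log_le_self 2 (by have := (mem_Icc.1 hq1).1; omega), ?_⟩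
      rw [← pow_succ']
      exact Nat.lt_pow_succ_log_self one_lt_two q
    · rw [hZ]
      gcongr
  · rw [card_range, nsmul_eq_mul, ← ENNReal.ofReal_natCast,
      ← ENNReal.ofReal_mul (Nat.cast_nonneg _)]
    refine ENNReal.ofReal_le_ofReal ?_
    have a4 : Λ ^ ε = Λ ^ (ε / 2) * Λ ^ (ε / 2) := by rw [← Real.rpow_add hΛ0, add_halves]
    push_cast
    refine (mul_le_mul_of_nonneg_right (hL.trans hΔ) hZ0).trans_eq ?_
    rw [a4, hZ]
    ring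

end Pool.Agent.MP_c853c5_nt.W
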