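import Pool.Agent.MP_c853c5_nt.W.Api

/-!
The number of primitive pairs modulo `q`.
-/

set_option autoImplicit false

open Finset MeasureTheory
open scoped ENNReal ComplexConjugate

namespace Pool.Agent.MP_c853c5_nt.W

open Pool.Agent.MP_2a1f0e_nt Pool.Agent.MP_2a1f0e_nt.GM Pool.Agent.MP_2a1f0e_nt.DH

lemma mult_Card {q e : ℕ} (he : 0 < e) (h : e ∣ q) :
    ∑ x ∈ Ico (0 : ℤ) q, (if (e : ℤ) ∣ x then (1 : ℝ) else 0) = (q : ℝ) / e := by
  obtain ⟨k, rfl⟩ := h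
  have he' : (0 : ℤ) < e := by exact_mod_cast he
  have h1 := Int.Ico_filter_dvd_card 0 ((e * k : ℕ) : ℤ) he'
  have e0 : (e : ℚ) ≠ 0 := by exact_mod_cast he.ne'
  have e1 : (((e * k : ℕ) : ℤ) : ℚ) / ((e : ℤ) : ℚ) = ((k : ℤ) : ℚ) := by
    push_cast
    field_simp
  rw [e1, Int.ceil_intCast] at h1
  simp only [Int.cast_zero, zero_div, Int.ceil_zero, sub_zero] at h1
  rw [max_eq_left (Int.natCast_nonneg k)] at h1
  have h2 : ((Ico (0 : ℤ) ((e * k : ℕ) : ℤ)).filter fun x => (e : ℤ) ∣ x).card = k := by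
    exact_mod_cast h1
  rw [sum_boole, h2]
  have e2 : (e : ℝ) ≠ 0 := by exact_mod_cast he.ne'
  push_cast
  field_simp

lemma prod_dvd_Card {t : Finset ℕ} (ht : ∀ p ∈ t, p.Prime) (n : ℕ) :
    (∏ p ∈ t, p) ∣ n ↔ ∀ p ∈ t, p ∣ n :=
  ⟨fun h _ hp => (dvd_prod_of_mem _ hp).trans h, fun h =>
    Finset.prod_primes_dvd n (fun p hp => (ht p hp).prime) h⟩

lemma sub_Card {q : ℕ} {t : Finset ℕ} (ht : t ⊆ q.primeFactors) :
    ∑ w ∈ Ico (0 : ℤ) q ×ˢ Ico (0 : ℤ) q,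
      ∏ p ∈ t, (-(if p ∣ ct w then (1 : ℝ) else 0)) =
      (q : ℝ) ^ 2 * ∏ p ∈ t, (-(1 / (p : ℝ) ^ 2)) := by
  have hp : ∀ p ∈ t, p.Prime := fun p h => Nat.prime_of_mem_primeFactors (ht h)
  have he : 0 < ∏ p ∈ t, p := prod_pos fun p h => (hp p h).pos
  have hd : (∏ p ∈ t, p) ∣ q :=
    (prod_dvd_prod_of_subset _ _ (fun p => p) ht).trans (Nat.prod_primeFactors_dvd q)
  obtain ⟨I, hI⟩ : ∃ I : ℤ → ℝ, I = fun x => if ((∏ p ∈ t, p : ℕ) : ℤ) ∣ x then (1 : ℝ) else 0 :=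
    ⟨_, rfl⟩
  have e1 : ∀ w : V, ∏ p ∈ t, (-(if p ∣ ct w then (1 : ℝ) else 0)) = (-1) ^ t.card *
      (I w.1 * I w.2) := by
    intro w
    rw [hI, prod_neg, prod_boole, ite_zero_mul_ite_zero, mul_one]
    congr 1
    refine if_congr ?_ rfl rfl
    rw [← prod_dvd_Card hp, ct, ← Int.natCast_dvd_natCast, Int.dvd_coe_gcd_iff]
  have e2 : ∑ x ∈ Ico (0 : ℤ) q, I x = (q : ℝ) / (∏ p ∈ t, p : ℕ) := by
    rw [hI]
    exact mult_Card he hd
  simp only [e1]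
  rw [← mul_sum, sum_product' (f := fun x y => I x * I y), prod_neg, ← sum_mul_sum, e2,
    prod_div_distrib, prod_const_one, prod_pow]
  push_cast
  ring

lemma cop_Card {q : ℕ} (hq : 1 ≤ q) (n : ℕ) :
    (if Nat.Coprime n q then (1 : ℝ) else 0) =
      ∏ p ∈ q.primeFactors, (1 + -(if p ∣ n then (1 : ℝ) else 0)) := by
  by_cases h : Nat.Coprime n q
  · rw [if_pos h]
    refine (prod_eq_one fun p hp => ?_).symm
    have h1 := Nat.prime_of_mem_primeFactors hp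
    have h2 := Nat.dvd_of_mem_primeFactors hp
    rw [if_neg fun h3 => h1.one_lt.ne' (Nat.eq_one_of_dvd_coprimes h h3 h2)]
    simp
  · rw [if_neg h]
    obtain ⟨p, h1, h2, h3⟩ := Nat.Prime.not_coprime_iff_dvd.1 h
    refine (prod_eq_zero (Nat.mem_primeFactors.2 ⟨h1, h3, by omega⟩) ?_).symm
    rw [if_pos h2]
    simp

theorem card_stmt : CardStmt := by
  intro q hq
  have h1 : ((PQ q).card : ℝ) =
      (q : ℝ) ^ 2 * ∏ p ∈ q.primeFactors, (1 + -(1 / (p : ℝ) ^ 2)) := by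
    rw [PQ, ← sum_boole]
    simp only [cop_Card hq, prod_one_add]
    rw [sum_comm, mul_sum]
    exact sum_congr rfl fun t ht => sub_Card (mem_powerset.1 ht)
  have h2 : (q.totient : ℝ) = q * ∏ p ∈ q.primeFactors, (1 - (p : ℝ)⁻¹) := by
    have := congrArg (fun x : ℚ => (x : ℝ)) (Nat.totient_eq_mul_prod_factors q)
    push_cast at this
    exact this
  rw [h1, h2, psiD, mul_mul_mul_comm, ← prod_mul_distrib, ← sq]
  congr 1
  refine prod_congr rfl fun p _ => ?_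
  ring

end Pool.Agent.MP_c853c5_nt.W
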