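import Pool.Agent.MP_c853c5_nt.W.Api

set_option autoImplicit false

open Finset MeasureTheory
open scoped ENNReal ComplexConjugate

namespace Pool.Agent.MP_c853c5_nt.W

open Pool.Agent.MP_2a1f0e_nt Pool.Agent.MP_2a1f0e_nt.GM Pool.Agent.MP_2a1f0e_nt.DH

lemma adm_Ch (α : ℝ) {φ : R2 → ℝ} (hφ : Measurable φ) : Adm α fun a => iC (Cn α a) * ex (φ a) :=
  ⟨(measurable_iC (measurableSet_Cn α)).mul (continuous_ex.measurable.comp hφ),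
    fun a => by rw [norm_mul, norm_ex, mul_one]; exact norm_iC_le _,
    fun a h => iC_ne_zero (left_ne_zero_of_mul h)⟩

lemma adm1_Ch (α A₀ H2 ξ H : ℝ) (i : ℤ) (ζ : Fin 9 → ℝ) : Adm α (ch1 α A₀ H2 ξ H i ζ).g :=
  adm_Ch α (by fun_prop)

lemma adm2_Ch (α A₀ H2 ξ H : ℝ) (i : ℤ) (ζ : Fin 9 → ℝ) : Adm α (ch2 α A₀ H2 ξ H i ζ).g :=
  adm_Ch α (by fun_prop)

lemma can_Ch (a t H : ℝ) (i : ℤ) :
    a * (4 / 3) ^ i * (t / (H * (4 / 3) ^ i)) = a * (t / H) := by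
  rw [mul_assoc, ← mul_div_assoc, mul_comm H, mul_div_mul_left _ _ (zpow_ne_zero _ (by norm_num))]

lemma k1_Ch (α A₀ H2 ξ H : ℝ) (i : ℤ) (ζ : Fin 9 → ℝ) (P : Pr) (x : MM) :
    k1 α A₀ H2 ξ H i ζ P x = k1 α A₀ H2 ξ H i 0 P x *
      ex ((ζ 0 * (vx P.2 x).1 + ζ 1 * (vx P.2 x).2) / A₀ + ζ 4 * dt x + ζ 5 * (tt P x / H2) +
        ζ 7 * ((hh P : ℝ) / H)) := by
  simp only [k1, pk, pa, ch1, E, can_Ch, Pi.zero_apply, zero_mul, add_zero, zero_div, ex_zero,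
    add_mul, ex_add]
  ring

lemma kL_Ch (A₀ : ℝ) (ζ : Fin 9 → ℝ) (P : Pr) (x : MM) :
    kL A₀ ζ P x = kL A₀ 0 P x *
      ex ((ζ 0 * (vx P.2 x).1 + ζ 1 * (vx P.2 x).2) / A₀ + ζ 4 * dt x + ζ 5 * (tt P x / 1) +
        ζ 7 * ((hh P : ℝ) / 1)) := by
  simp only [kL, Pi.zero_apply, zero_mul, add_zero, zero_div, ex_zero, mul_one, div_one]

lemma k2_Ch (α A₀ H2 ξ H : ℝ) {ω : ℝ} (hω : ω ≠ 0) (j : ℤ) (ζ : Fin 9 → ℝ) (P : Pr) (x : MM) :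
    k2 α A₀ ω H2 ξ H j ζ P x = k2 α A₀ ω H2 ξ H j 0 P x *
      ex (-(ζ 2 * ((vx P.2 x).1 * A₀ / ω) + ζ 3 * ((vx P.2 x).2 * A₀ / ω) + ζ 6 * (tr P x / H2) +
        ζ 8 * ((hh P : ℝ) / H))) := by
  have h0 : sg ω ≠ 0 := abs_ne_zero.1 (by rw [abs_sg hω]; exact one_ne_zero)
  have h1 : sg ω / |ω| = 1 / ω := by
    rw [div_eq_div_iff (abs_ne_zero.2 hω) hω, one_mul, sg_mul hω]
  have e1 : tt P (rm (rot (sg ω)) x) = tr P x := by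
    simp only [tt, tr, vx_rm, rt, rot, mul_zero, zero_add]
    exact mul_div_mul_right _ _ h0
  have e2 : (ζ 3 * (vx P.2 (rm (rot (sg ω)) x)).1 - ζ 2 * (vx P.2 (rm (rot (sg ω)) x)).2) /
      (|ω| / A₀) = ζ 2 * ((vx P.2 x).1 * A₀ / ω) + ζ 3 * ((vx P.2 x).2 * A₀ / ω) := by
    simp only [vx_rm, rt, rot, div_div_eq_mul_div]
    linear_combination (ζ 2 * (vx P.2 x).1 * A₀ + ζ 3 * (vx P.2 x).2 * A₀) * h1
  have e3 : ∀ a : ℝ, (ξ - a) * ((hh P : ℝ) / H) =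
      ξ * ((hh P : ℝ) / H) + -(a * ((hh P : ℝ) / H)) := fun a => by ring
  simp only [k2, pk, pa, ch2, E, e1, e2, e3, neg_mul, can_Ch, Pi.zero_apply, zero_mul, sub_zero,
    zero_div, neg_zero, ex_zero, neg_add, ex_add]
  ring

lemma sum_Ch (A₀ ω Ha2 Hb2 Ha Hb : ℝ) (ζ : Fin 9 → ℝ) (z : Pr × Pr) (x : MM) :
    ∑ l, ζ l * yv A₀ ω Ha2 Hb2 Ha Hb z x l =
      ((ζ 0 * (vx z.1.2 x).1 + ζ 1 * (vx z.1.2 x).2) / A₀ + ζ 4 * dt x + ζ 5 * (tt z.1 x / Ha2) +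
        ζ 7 * ((hh z.1 : ℝ) / Ha)) +
      (ζ 2 * ((vx z.2.2 x).1 * A₀ / ω) + ζ 3 * ((vx z.2.2 x).2 * A₀ / ω) +
        ζ 6 * (tr z.2 x / Hb2) + ζ 8 * ((hh z.2 : ℝ) / Hb)) := by
  have e : ∑ l, ζ l * yv A₀ ω Ha2 Hb2 Ha Hb z x l = ζ 0 * ((vx z.1.2 x).1 / A₀) +
      ζ 1 * ((vx z.1.2 x).2 / A₀) + ζ 2 * ((vx z.2.2 x).1 * A₀ / ω) +
      ζ 3 * ((vx z.2.2 x).2 * A₀ / ω) + ζ 4 * dt x + ζ 5 * (tt z.1 x / Ha2) +
      ζ 6 * (tr z.2 x / Hb2) + ζ 7 * ((hh z.1 : ℝ) / Ha) + ζ 8 * ((hh z.2 : ℝ) / Hb) := by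
    rw [Fin.sum_univ_castSucc, Fin.sum_univ_eight]
    rfl
  rw [e]
  ring

lemma meas1_Ch (A₀ H2 H : ℝ) (P : Pr) : Measurable fun p : (Fin 9 → ℝ) × MM =>
    ex ((p.1 0 * (vx P.2 p.2).1 + p.1 1 * (vx P.2 p.2).2) / A₀ + p.1 4 * dt p.2 +
      p.1 5 * (tt P p.2 / H2) + p.1 7 * ((hh P : ℝ) / H)) := by
  have h1 := (continuous_vx P.2).measurable
  have h2 := continuous_dt.measurable
  have h3 := measurable_tt P
  exact continuous_ex.measurable.comp (by fun_prop)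

lemma meas2_Ch (A₀ ω H2 H : ℝ) (P : Pr) : Measurable fun p : (Fin 9 → ℝ) × MM =>
    ex (-(p.1 2 * ((vx P.2 p.2).1 * A₀ / ω) + p.1 3 * ((vx P.2 p.2).2 * A₀ / ω) +
      p.1 6 * (tr P p.2 / H2) + p.1 8 * ((hh P : ℝ) / H))) := by
  have h1 := (continuous_vx P.2).measurable
  have h2 : Measurable (tr P) :=
    (continuous_vx P.1).snd.measurable.div (continuous_vx P.2).snd.measurable
  exact continuous_ex.measurable.comp (by fun_prop)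

lemma pac1_Ch (α A₀ ξ H : ℝ) {H2 H2' : ℝ} {i : ℤ} (h : 5 / 6 * |H2 * (4 / 3) ^ i| ≤ |H2'|)
    (ζ : Fin 9 → ℝ) : Pac (Sup α H2' H) (k1 α A₀ H2 ξ H i ζ) := by
  have p := pac_pk (d := ch1 α A₀ H2 ξ H i ζ) (adm1_Ch α A₀ H2 ξ H i ζ) h
  refine ⟨fun P => (continuous_ex.comp (continuous_const.mul continuous_dt)).measurable.mul
    (p.meas P), fun P G x hG => ?_, fun P x => ?_, fun P x hx => p.sp P x (right_ne_zero_of_mul hx)⟩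
  · rw [k1, k1, p.inv P G x hG, dt_act, hG, Int.cast_one, one_mul]
  · rw [k1, norm_mul, norm_ex, one_mul]
    exact p.bd P x

lemma pac2_Ch (α A₀ ω ξ H : ℝ) {H2 H2' : ℝ} {i : ℤ} (h : 5 / 6 * |H2 * (4 / 3) ^ i| ≤ |H2'|)
    (ζ : Fin 9 → ℝ) :
    Pac (fun P x => Sup α H2' H P (rm (rot (sg ω)) x)) (k2 α A₀ ω H2 ξ H i ζ) := by
  have p := pac_pk (d := ch2 α (|ω| / A₀) H2 ξ H i ζ) (adm2_Ch α _ H2 ξ H i ζ) h
  refine ⟨fun P => (p.meas P).comp (continuous_rm _).measurable, fun P G x hG => ?_,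
    fun P x => p.bd P _, fun P x hx => p.sp P _ hx⟩
  rw [k2, k2, p.inv P G _ hG, act_rm]

lemma measL_Ch (A₀ : ℝ) (P : Pr) : Measurable fun p : (Fin 9 → ℝ) × MM => kL A₀ p.1 P p.2 := by
  have h := meas1_Ch A₀ 1 1 P
  simp only [div_one] at h
  exact (((measurable_iC (measurableSet_SupL (A₀ / 2) P)).mul (Complex.measurable_ofReal.comp
    (measurable_om.comp continuous_dt.measurable))).comp measurable_snd).mul h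

lemma pacL_Ch (A₀ : ℝ) (ζ : Fin 9 → ℝ) : Pac (SupL (A₀ / 2)) (kL A₀ ζ) := by
  refine ⟨fun P => Measurable.of_uncurry_left (f := fun ζ x => kL A₀ ζ P x) (measL_Ch A₀ P),
    fun P G x hG => ?_, fun P x => ?_,
    fun P x hx => iC_ne_zero (left_ne_zero_of_mul (left_ne_zero_of_mul hx))⟩
  · rw [kL, kL, iC_congr (supL_inv _ P x hG), dt_act, tt_pg, hh_pg, hG, Int.cast_one, one_mul,
      mul_one, show (pg P G).2 = vg P.2 G from rfl, vx_vg]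
  · rw [kL, norm_mul, norm_ex, mul_one, norm_mul]
    exact mul_le_one₀ (norm_iC_le _) (norm_nonneg _) (norm_om_le _)

theorem ch_stmt : ChStmt := by
  refine ⟨fun α A₀ H2 ξ H i ζ => ⟨adm1_Ch α A₀ H2 ξ H i ζ, adm2_Ch α A₀ H2 ξ H i ζ⟩,
    fun α A₀ ω H2 ξ H H2' i hω h => ⟨fun ζ => ⟨pac1_Ch α A₀ ξ H h ζ, pac2_Ch α A₀ ω ξ H h ζ⟩,
      fun P => ⟨?_, ?_⟩⟩, fun A₀ => ⟨pacL_Ch A₀, measL_Ch A₀⟩,
    fun α β A₀ ω Ha2 Hb2 ξ ξ' Ha Hb i j ζ z x hω _ => ?_,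
    fun β A₀ ω Hb2 ξ' Hb j ζ z x hω _ => ?_⟩
  · rw [funext fun p : (Fin 9 → ℝ) × MM => k1_Ch α A₀ H2 ξ H i p.1 P p.2]
    exact (((pac1_Ch α A₀ ξ H h 0).meas P).comp measurable_snd).mul (meas1_Ch A₀ H2 H P)
  · rw [funext fun p : (Fin 9 → ℝ) × MM => k2_Ch α A₀ H2 ξ H hω i p.1 P p.2]
    exact (((pac2_Ch α A₀ ω ξ H h 0).meas P).comp measurable_snd).mul (meas2_Ch A₀ ω H2 H P)
  · rw [k1_Ch α A₀ Ha2 ξ Ha i ζ, k2_Ch β A₀ Hb2 ξ' Hb hω j ζ, sum_Ch, ex_add, map_mul, conj_ex,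
      neg_neg]
    ring
  · rw [kL_Ch A₀ ζ, k2_Ch β A₀ Hb2 ξ' Hb hω j ζ, sum_Ch, ex_add, map_mul, conj_ex, neg_neg]
    ring

end Pool.Agent.MP_c853c5_nt.W
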