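import Pool.Agent.MP_c853c5_nt.W.Api

set_option autoImplicit false

open Finset MeasureTheory
open scoped ENNReal ComplexConjugate

namespace Pool.Agent.MP_c853c5_nt.W

open Pool.Agent.MP_2a1f0e_nt Pool.Agent.MP_2a1f0e_nt.GM Pool.Agent.MP_2a1f0e_nt.DH

lemma meas_Chg (d : Dat) (z : Pr × Pr) (hg : Measurable d.g) :
    Measurable fun Z : MM => iC (BigZ d Z) * (d.g Z.1 * conj (d.g Z.2)) * Fz d Z z := by
  have hb : Measurable fun Z : MM => Z.2.1 / Z.1.1 :=
    (measurable_fst.comp measurable_snd).div (measurable_fst.comp measurable_fst)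
  refine ((measurable_iC (measurableSet_le measurable_const
    (continuous_dt.abs.measurable.mul_const _))).mul ((hg.comp measurable_fst).mul
      (Complex.continuous_conj.measurable.comp (hg.comp measurable_snd)))).mul ?_
  unfold Fz
  refine ((measurable_const.mul (Complex.measurable_ofReal.comp (measurable_const.mul
    ((measurable_om.comp (continuous_dt.measurable.div_const _)).pow_const 2)))).mul
    ((measurable_E measurable_const ((measurable_const.sub (hb.const_mul _)).div_const _)).mul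
      measurable_const)).mul (Complex.continuous_conj.measurable.comp
    ((measurable_E measurable_const ((measurable_const.add
      (measurable_const.div hb)).div_const _)).mul measurable_const))

lemma key_Chg (d : Dat) (z : Pr × Pr) (h0 : 0 < d.al) (hd : Adm d.al d.g) (hr : rI z ≠ 0)
    (x : MM) : iC (BigZ d (act (z.1.2, z.2.2) x)) * (pk d z.1 x * conj (pk d z.2 x)) =
      (((rI z : ℝ) ^ 2 : ℝ) : ℂ) * (iC (BigZ d (act (z.1.2, z.2.2) x)) *
        (d.g (act (z.1.2, z.2.2) x).1 * conj (d.g (act (z.1.2, z.2.2) x).2)) *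
        Fz d (act (z.1.2, z.2.2) x) z) := by
  have a1 : (act (z.1.2, z.2.2) x).1 = vx z.1.2 x := rfl
  have a2 : (act (z.1.2, z.2.2) x).2 = vx z.2.2 x := rfl
  by_cases g1 : d.g (vx z.1.2 x) = 0
  · simp [pk, pa, a1, g1]
  by_cases g2 : d.g (vx z.2.2 x) = 0
  · simp [pk, pa, a2, g2]
  have ha : (vx z.1.2 x).1 ≠ 0 := (h0.trans_le (hd.2.2 _ g1).1).ne'
  have hb : (vx z.2.2 x).1 ≠ 0 := (h0.trans_le (hd.2.2 _ g2).1).ne'
  have hr' : (rI z : ℝ) ≠ 0 := Int.cast_ne_zero.2 hr
  have e1 : dt (act (z.1.2, z.2.2) x) / (rI z : ℝ) = dt x := by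
    rw [dt_act]
    exact mul_div_cancel_left₀ _ hr'
  have e2 : ((pI z : ℝ) - (hh z.1 : ℝ) * ((vx z.2.2 x).1 / (vx z.1.2 x).1)) /
      ((rI z : ℝ) * d.H2) = tt z.1 x / d.H2 := by
    rw [← mul_div_mul_left (tt z.1 x) d.H2 hr', tt, ← mul_div_assoc (rI z : ℝ), ru_one]
    congr 1
    field_simp
  have e3 : ((sI z : ℝ) + (hh z.2 : ℝ) / ((vx z.2.2 x).1 / (vx z.1.2 x).1)) /
      ((rI z : ℝ) * d.H2) = tt z.2 x / d.H2 := by
    rw [← mul_div_mul_left (tt z.2 x) d.H2 hr', tt, ← mul_div_assoc (rI z : ℝ), rv_one]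
    congr 1
    field_simp
    ring
  have hc : ((rI z : ℝ) : ℂ) ≠ 0 := Complex.ofReal_ne_zero.2 hr'
  rw [Fz, a1, a2, e1, e2, e3]
  simp only [pk, pa, iC_and, map_mul, conj_iC, Complex.conj_ofReal, Complex.ofReal_mul,
    Complex.ofReal_pow, Complex.ofReal_div, Complex.ofReal_one]
  generalize ((rI z : ℝ) : ℂ) = r at hc ⊢
  have k : r ^ 2 * (1 / r ^ 2) = 1 := mul_one_div_cancel (pow_ne_zero 2 hc)
  generalize 1 / r ^ 2 = s at k ⊢
  refine (one_mul _).symm.trans ?_
  rw [← k]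
  ring

theorem chg_stmt (hC : CoVStmt) : ChgStmt := by
  intro d z h0 hd
  refine ⟨meas_Chg d z hd.1, ?_⟩
  by_cases hr : rI z = 0
  · have hF : ∀ Z : MM, Fz d Z z = 0 := fun Z => by simp [Fz, hr]
    refine ⟨?_, by simp [hF]⟩
    simp only [hF, mul_zero, integral_zero, Jb]
    refine (integral_congr_ae (Filter.Eventually.of_forall fun x => ?_)).trans
      (integral_zero _ _)
    by_cases hb : BigZ d (act (z.1.2, z.2.2) x)
    · have e : hh (z.1.2, z.2.2) = 0 := hr
      rw [BigZ, dt_act, e] at hb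
      simp only [Int.cast_zero, zero_mul, abs_zero] at hb
      simp [pk_eq_zero hd (Or.inl (by linarith))]
    · simp [iC_neg hb]
  obtain ⟨c1, c2, -⟩ := hC.1 (z.1.2, z.2.2) hr
  have e : hh (z.1.2, z.2.2) = rI z := rfl
  rw [e] at c1 c2
  have hr' : (rI z : ℝ) ≠ 0 := Int.cast_ne_zero.2 hr
  have hp : 0 < (rI z : ℝ) ^ 2 := by positivity
  constructor
  · rw [Jb]
    simp only [key_Chg d z h0 hd hr]
    rw [integral_const_mul,
      c2 fun Z => iC (BigZ d Z) * (d.g Z.1 * conj (d.g Z.2)) * Fz d Z z, ← mul_assoc,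
      ← Complex.ofReal_mul, mul_one_div_cancel hp.ne', Complex.ofReal_one, one_mul]
  · have c3 := c1 fun Z => ‖iC (BigZ d Z) * (d.g Z.1 * conj (d.g Z.2)) * Fz d Z z‖ₑ
    have c4 := congrArg (fun t => ENNReal.ofReal ((rI z : ℝ) ^ 2) * t) c3
    beta_reduce at c4
    rw [← mul_assoc, ← ENNReal.ofReal_mul hp.le, mul_one_div_cancel hp.ne', ENNReal.ofReal_one,
      one_mul, ← lintegral_const_mul' _ _ ENNReal.ofReal_ne_top] at c4
    rw [← c4, vol, ← lintegral_iE volume
      (p := fun x => Sup d.al d.H2 d.H z.1 x ∧ Sup d.al d.H2 d.H z.2 x)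
      ((measurableSet_Sup _ _ _ z.1).inter (measurableSet_Sup _ _ _ z.2))]
    refine lintegral_mono fun x => ?_
    have hP := pac_pk' hd
    have k : ‖iC (BigZ d (act (z.1.2, z.2.2) x)) * (pk d z.1 x * conj (pk d z.2 x))‖ₑ ≤
        iE (Sup d.al d.H2 d.H z.1 x ∧ Sup d.al d.H2 d.H z.2 x) := by
      refine enorm_le_iE ?_ fun h => ?_
      · rw [norm_mul, norm_mul, Complex.norm_conj]
        exact mul_le_one₀ (norm_iC_le _) (by positivity)
          (mul_le_one₀ (hP.bd _ _) (norm_nonneg _) (hP.bd _ _))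
      · have h2 := right_ne_zero_of_mul h
        exact ⟨hP.sp _ _ (left_ne_zero_of_mul h2),
          hP.sp _ _ fun h3 => right_ne_zero_of_mul h2 (by rw [h3, map_zero])⟩
    rw [key_Chg d z h0 hd hr, enorm_mul] at k
    refine le_trans (le_of_eq ?_) k
    beta_reduce
    congr 1
    rw [← ofReal_norm, Complex.norm_real, Real.norm_of_nonneg hp.le]

end Pool.Agent.MP_c853c5_nt.W
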