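import Pool.Agent.MP_c853c5_nt.W.Api

set_option autoImplicit false

open Finset MeasureTheory
open scoped ENNReal ComplexConjugate

namespace Pool.Agent.MP_c853c5_nt.W

open Pool.Agent.MP_2a1f0e_nt Pool.Agent.MP_2a1f0e_nt.GM Pool.Agent.MP_2a1f0e_nt.DH

lemma fibZ_CntA {ι : Type*} (T : Finset ι) (W : ι → ℝ) (f : ι → ℤ) (Y : ℝ) (c : ℕ → ℝ)
    (hc0 : ∀ m, 0 ≤ c m) (hf : ∀ z ∈ T, f z ≠ 0 ∧ |(f z : ℝ)| ≤ Y)
    (hc : ∀ z₀ ∈ T, ∑ z ∈ T.filter (fun z => f z = f z₀), W z ≤ c (f z₀).natAbs) :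
    ∑ z ∈ T, W z ≤ 2 * ∑ m ∈ Icc 1 ⌊Y⌋₊, c m := by
  classical
  rw [← sum_fiberwise_of_maps_to (t := T.image f) (g := f) fun z hz => mem_image_of_mem f hz]
  have h1 : ∑ k ∈ T.image f, ∑ z ∈ T.filter (fun z => f z = k), W z ≤
      ∑ k ∈ T.image f, c k.natAbs := sum_le_sum fun k hk => by
    obtain ⟨z₀, hz, rfl⟩ := mem_image.1 hk
    exact hc z₀ hz
  refine h1.trans ?_
  have h2 : T.image f ⊆ (Icc 1 ⌊Y⌋₊).image (fun m : ℕ => (m : ℤ)) ∪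
      (Icc 1 ⌊Y⌋₊).image (fun m : ℕ => -(m : ℤ)) := by
    intro k hk
    obtain ⟨z, hz, rfl⟩ := mem_image.1 hk
    have h3 : (f z).natAbs ∈ Icc 1 ⌊Y⌋₊ := mem_Icc.2 ⟨Int.natAbs_pos.2 (hf z hz).1,
      Nat.le_floor (by rw [Nat.cast_natAbs, Int.cast_abs]; exact (hf z hz).2)⟩
    rcases Int.natAbs_eq (f z) with e | e
    · exact mem_union_left _ (mem_image.2 ⟨_, h3, e.symm⟩)
    · exact mem_union_right _ (mem_image.2 ⟨_, h3, e.symm⟩)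
  refine (sum_le_sum_of_subset_of_nonneg h2 fun _ _ _ => hc0 _).trans ?_
  refine (le_add_of_nonneg_right (sum_nonneg fun _ _ => hc0 _)).trans
    (sum_union_inter.trans_le ?_)
  rw [sum_image fun a _ b _ h => by exact_mod_cast h,
    sum_image fun a _ b _ h => by exact_mod_cast neg_injective h]
  simp only [Int.natAbs_natCast, Int.natAbs_neg]
  linarith

lemma fibC_CntA {ι : Type*} (T : Finset ι) (f : ι → ℤ) (Y : ℝ) (c : ℕ → ℝ)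
    (hc0 : ∀ m, 0 ≤ c m) (hf : ∀ z ∈ T, f z ≠ 0 ∧ |(f z : ℝ)| ≤ Y)
    (hc : ∀ z₀ ∈ T, ((T.filter fun z => f z = f z₀).card : ℝ) ≤ c (f z₀).natAbs) :
    (T.card : ℝ) ≤ 2 * ∑ m ∈ Icc 1 ⌊Y⌋₊, c m := by
  have h := fibZ_CntA T (fun _ => 1) f Y c hc0 hf fun z hz => by simpa using hc z hz
  simpa using h

lemma sum_const_CntA {Y c : ℝ} (hY : 0 ≤ Y) (hc : 0 ≤ c) : ∑ _m ∈ Icc 1 ⌊Y⌋₊, c ≤ Y * c := by
  rw [sum_const, Nat.card_Icc, Nat.add_sub_cancel, nsmul_eq_mul]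
  exact mul_le_mul_of_nonneg_right (Nat.floor_le hY) hc

lemma nat_le_CntA {k : ℤ} {X : ℕ} (h : |(k : ℝ)| ≤ X) : k.natAbs ≤ X := by
  rw [← Int.cast_abs, ← Nat.cast_natAbs] at h
  exact_mod_cast h

/-- all invariants fixed -/
lemma levA_CntA (hG : GcdStmt) (T : Finset (Pr × Pr)) (h n r p s : ℤ)
    (hT : ∀ z ∈ T, IsOrb z ∧ hh z.1 = h ∧ nI z = n ∧ rI z = r ∧ pI z = p ∧ sI z = s) :
    T.card ≤ Int.gcd h n := by
  rcases T.eq_empty_or_nonempty with rfl | ⟨z₀, hz₀⟩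
  · simp
  have hh0 : h ≠ 0 := (hT z₀ hz₀).2.1 ▸ isOrb_hh_ne (hT z₀ hz₀).1
  have key : ∀ z ∈ T, z.1.2 = (0, 1) ∧ z.1.1.1 = h ∧ z.2.1.1 = -s ∧ z.2.2.1 = -r ∧
      h * z.2.1.2 = n - z.1.1.2 * s ∧ h * z.2.2.2 = p - z.1.1.2 * r := by
    intro z hz
    obtain ⟨a1, a2, a3, a4, a5, a6⟩ := hT z hz
    rw [isOrb_hh a1] at a2
    simp only [nI, rI, pI, sI, om2, a1.1, a2] at a3 a4 a5 a6
    have b1 : z.2.1.1 = -s := by linarith
    have b2 : z.2.2.1 = -r := by linarith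
    rw [b1] at a3
    rw [b2] at a5
    exact ⟨a1.1, a2, b1, b2, by linarith, by linarith⟩
  have h1 : T.card ≤ ((Ico 0 |h|).filter fun d => h ∣ s * d - n).card := by
    refine card_le_card_of_injOn (fun z => z.1.1.2) (fun z hz => ?_) fun z hz z' hz' e => ?_
    · obtain ⟨-, a2, -, -, a5, -⟩ := key z hz
      have a1 := (hT z hz).1
      refine mem_coe.2 (mem_filter.2 ⟨mem_Ico.2 ⟨a1.2.1, a2 ▸ a1.2.2⟩, -z.2.1.2, ?_⟩)
      show s * z.1.1.2 - n = _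
      linarith
    · obtain ⟨a1, a2, a3, a4, a5, a6⟩ := key z hz
      obtain ⟨b1, b2, b3, b4, b5, b6⟩ := key z' hz'
      have e' : z.1.1.2 = z'.1.1.2 := e
      rw [e', ← b5] at a5
      rw [e', ← b6] at a6
      exact Prod.ext (Prod.ext (Prod.ext (a2.trans b2.symm) e') (a1.trans b1.symm))
        (Prod.ext (Prod.ext (a3.trans b3.symm) (mul_left_cancel₀ hh0 a5))
          (Prod.ext (a4.trans b4.symm) (mul_left_cancel₀ hh0 a6)))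
  refine h1.trans ((hG.2.2.2.1 h s n hh0).trans (Nat.le_of_dvd (Int.gcd_pos_of_ne_zero_left _ hh0)
    (Int.dvd_gcd (Int.gcd_dvd_left _ _) ?_)))
  have e : n = h * z₀.2.1.2 + z₀.1.1.2 * s := by linarith [(key z₀ hz₀).2.2.2.2.1]
  rw [e]
  exact ((Int.gcd_dvd_left _ _).mul_right _).add ((Int.gcd_dvd_right _ _).mul_left _)

/-- the conditions on the orbits -/
def Q_CntA (α H2 H R₀ : ℝ) (z : Pr × Pr) : Prop :=
  Cs α H2 H R₀ z ∧ nI z ≠ 0 ∧ pI z * sI z ≠ 0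

section Lev

variable {Λ α H2 H R₀ Δ : ℝ} {X : ℕ}

lemma r_le_CntA (hB : Bd Λ α H2 H) {r : ℝ} (h : r ≤ 32 * α ^ 2) : r ≤ 32 * Λ ^ 2 :=
  h.trans (by have := hB.2.1; have := hB.2.2.1; gcongr)

lemma Y_le_CntA (hB : Bd Λ α H2 H) (hX : 6000 * Λ ^ 6 ≤ X) {r : ℝ} (h0 : 0 ≤ r)
    (h : r ≤ 32 * α ^ 2) : 4 * H2 ^ 2 * r + 32 * (|H2| * |H|) ≤ X := by
  have h1 := r_le_CntA hB h
  obtain ⟨a1, -, -, a4, a5⟩ := hB
  have h2 : 4 * H2 ^ 2 * r ≤ 4 * Λ ^ 2 * (32 * Λ ^ 2) := by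
    rw [← sq_abs H2]
    gcongr
  have h3 : |H2| * |H| ≤ Λ * Λ := by gcongr
  have h4 : Λ ^ 2 ≤ Λ ^ 6 := pow_le_pow_right₀ a1 (by norm_num)
  have h5 : Λ ^ 4 ≤ Λ ^ 6 := pow_le_pow_right₀ a1 (by norm_num)
  have h6 : 0 ≤ Λ ^ 6 := by positivity
  nlinarith

lemma levB_CntA (hG : GcdStmt) (hD : DivB X Δ) (hB : Bd Λ α H2 H) (hX : 6000 * Λ ^ 6 ≤ X)
    (T : Finset (Pr × Pr)) (h h' n r : ℤ)
    (hT : ∀ z ∈ T, Q_CntA α H2 H R₀ z ∧ hh z.1 = h ∧ hh z.2 = h' ∧ nI z = n ∧ rI z = r) :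
    (T.card : ℝ) ≤ 2 * Δ * Int.gcd h n := by
  rcases T.eq_empty_or_nonempty with rfl | ⟨z₀, hz₀⟩
  · have := hD.1
    rw [card_empty, Nat.cast_zero]
    positivity
  have h1 : T.card ≤ Int.gcd h n * (T.image fun z => (pI z, sI z)).card := by
    refine card_le_mul_card_image T _ fun k _ => levA_CntA hG _ h n r k.1 k.2 fun z hz => ?_
    obtain ⟨a1, a2⟩ := mem_filter.1 hz
    obtain ⟨b1, b2, -, b4, b5⟩ := hT z a1
    exact ⟨b1.1.1, b2, b4, b5, congrArg Prod.fst a2, congrArg Prod.snd a2⟩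
  have hm : ∀ z ∈ T, pI z * sI z = n * r - h * h' := fun z hz => by
    obtain ⟨-, b2, b3, b4, b5⟩ := hT z hz
    have := plucker z
    rw [b2, b3, b4, b5] at this
    linarith
  have h2 := hG.2.2.2.2.2 (pI z₀ * sI z₀) (T.image fun z => (pI z, sI z)) (hT z₀ hz₀).1.2.2
    fun k hk => by
      obtain ⟨z, hz, rfl⟩ := mem_image.1 hk
      exact (hm z hz).trans (hm z₀ hz₀).symm
  have h3 : (pI z₀ * sI z₀).natAbs ≤ X := by
    refine nat_le_CntA ?_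
    obtain ⟨-, -, -, -, -, -, c1, c2, c3, -⟩ := (hT z₀ hz₀).1.1.2.2.2.2.1
    have c4 := r_le_CntA hB c1
    obtain ⟨a1, -, -, a4, a5⟩ := hB
    have c5 : 2 * |(rI z₀ : ℝ)| * |H2| + 8 * |H| ≤ 72 * Λ ^ 3 := by
      have d1 : 2 * |(rI z₀ : ℝ)| * |H2| ≤ 2 * (32 * Λ ^ 2) * Λ := by gcongr
      have d2 : Λ ≤ Λ ^ 3 := le_self_pow₀ a1 (by norm_num)
      nlinarith
    have c6 : |(pI z₀ : ℝ)| * |(sI z₀ : ℝ)| ≤ 72 * Λ ^ 3 * (72 * Λ ^ 3) :=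
      mul_le_mul (c2.trans c5) (c3.trans c5) (abs_nonneg _) (by positivity)
    have c7 : 0 ≤ Λ ^ 6 := by positivity
    rw [Int.cast_mul, abs_mul]
    nlinarith
  have h4 : ((T.image fun z => (pI z, sI z)).card : ℝ) ≤ 2 * Δ := by
    have := hD.2 _ h3
    have h5 : ((T.image fun z => (pI z, sI z)).card : ℝ) ≤
        2 * ((pI z₀ * sI z₀).natAbs.divisors.card : ℝ) := by exact_mod_cast h2
    linarith
  have h5 : (T.card : ℝ) ≤ Int.gcd h n * ((T.image fun z => (pI z, sI z)).card : ℝ) := by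
    exact_mod_cast h1
  rw [mul_comm]
  exact h5.trans (mul_le_mul_of_nonneg_left h4 (Nat.cast_nonneg _))

lemma levC_CntA (hG : GcdStmt) (hD : DivB X Δ) (hB : Bd Λ α H2 H) (hX : 6000 * Λ ^ 6 ≤ X)
    (T : Finset (Pr × Pr)) (h n r : ℤ)
    (hT : ∀ z ∈ T, Q_CntA α H2 H R₀ z ∧ hh z.1 = h ∧ nI z = n ∧ rI z = r) :
    (T.card : ℝ) ≤ 8 * |H| * Δ * Int.gcd h n := by
  have hΔ := hD.1
  refine (fibC_CntA T (fun z => hh z.2) (2 * |H|) (fun _ => 2 * Δ * Int.gcd h n)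
    (fun _ => by positivity) (fun z hz => ?_) fun z₀ _ => ?_).trans ?_
  · obtain ⟨-, c2, -, -, -, c6, -⟩ := (hT z hz).1.1.2.2.2.2.1
    exact ⟨c2, c6⟩
  · refine levB_CntA (R₀ := R₀) hG hD hB hX _ h (hh z₀.2) n r fun z hz => ?_
    obtain ⟨a1, a2⟩ := mem_filter.1 hz
    obtain ⟨b1, b2, b3, b4⟩ := hT z a1
    exact ⟨b1, b2, a2, b3, b4⟩
  · have := sum_const_CntA (Y := 2 * |H|) (c := 2 * Δ * Int.gcd h n) (by positivity)
      (by positivity)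
    linarith

lemma levD_CntA (hG : GcdStmt) (hD : DivB X Δ) (hB : Bd Λ α H2 H) (hX : 6000 * Λ ^ 6 ≤ X)
    (T : Finset (Pr × Pr)) (n r : ℤ)
    (hT : ∀ z ∈ T, Q_CntA α H2 H R₀ z ∧ nI z = n ∧ rI z = r) :
    (T.card : ℝ) ≤ 32 * Δ ^ 2 * H ^ 2 := by
  have hΔ := hD.1
  rcases T.eq_empty_or_nonempty with rfl | ⟨z₁, hz₁⟩
  · rw [card_empty, Nat.cast_zero]
    positivity
  have hn0 : 1 ≤ n.natAbs := Int.natAbs_pos.2 ((hT z₁ hz₁).2.1 ▸ (hT z₁ hz₁).1.2.1)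
  have hnX : n.natAbs ≤ X := by
    obtain ⟨-, -, -, -, -, -, c1, -, -, c4⟩ := (hT z₁ hz₁).1.1.2.2.2.2.1
    rw [← (hT z₁ hz₁).2.1]
    exact nat_le_CntA (c4.trans (Y_le_CntA hB hX (abs_nonneg _) c1))
  refine (fibC_CntA T (fun z => hh z.1) (2 * |H|)
    (fun m => 8 * |H| * Δ * Nat.gcd m n.natAbs) (fun _ => by positivity) (fun z hz => ?_)
    fun z₀ _ => ?_).trans ?_
  · obtain ⟨c1, -, -, c4, -⟩ := (hT z hz).1.1.2.2.2.2.1
    exact ⟨c1, c4⟩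
  · refine levC_CntA (R₀ := R₀) hG hD hB hX _ (hh z₀.1) n r fun z hz => ?_
    obtain ⟨a1, a2⟩ := mem_filter.1 hz
    obtain ⟨b1, b3, b4⟩ := hT z a1
    exact ⟨b1, a2, b3, b4⟩
  · rw [← mul_sum]
    have h1 := hG.2.1 n.natAbs ⌊2 * |H|⌋₊ hn0
    have h2 : (n.natAbs.divisors.card : ℝ) * ⌊2 * |H|⌋₊ ≤ Δ * (2 * |H|) :=
      mul_le_mul (hD.2 _ hnX) (Nat.floor_le (by positivity)) (Nat.cast_nonneg _) (by positivity)
    have h3 := mul_le_mul_of_nonneg_left (h1.trans h2) (show 0 ≤ 8 * |H| * Δ by positivity)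
    rw [← sq_abs H]
    nlinarith

lemma levE_CntA (hG : GcdStmt) (hD : DivB X Δ) (hB : Bd Λ α H2 H) (hX : 6000 * Λ ^ 6 ≤ X)
    {A B : ℝ} (hA : 0 ≤ A) (hB' : 0 ≤ B) (T : Finset (Pr × Pr)) (r : ℤ)
    (hT : ∀ z ∈ T, Q_CntA α H2 H R₀ z ∧ rI z = r) :
    ∑ z ∈ T, (A + B / |(nI z : ℝ)|) ≤ 64 * Δ ^ 2 * H ^ 2 *
      (A * (4 * H2 ^ 2 * |(r : ℝ)| + 32 * (|H2| * |H|)) + 2 * B * Δ) := by
  have hΔ := hD.1
  rcases T.eq_empty_or_nonempty with rfl | ⟨z₁, hz₁⟩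
  · rw [sum_empty]
    positivity
  have hY : 4 * H2 ^ 2 * |(r : ℝ)| + 32 * (|H2| * |H|) ≤ X := by
    obtain ⟨-, -, -, -, -, -, c1, -⟩ := (hT z₁ hz₁).1.1.2.2.2.2.1
    rw [← (hT z₁ hz₁).2]
    exact Y_le_CntA hB hX (abs_nonneg _) c1
  have hY0 : 0 ≤ 4 * H2 ^ 2 * |(r : ℝ)| + 32 * (|H2| * |H|) := by positivity
  refine (fibZ_CntA T _ nI (4 * H2 ^ 2 * |(r : ℝ)| + 32 * (|H2| * |H|))
    (fun m => 32 * Δ ^ 2 * H ^ 2 * (A + B * (1 / (m : ℝ)))) (fun _ => by positivity)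
    (fun z hz => ?_) fun z₀ _ => ?_).trans ?_
  · obtain ⟨-, -, -, -, -, -, -, -, -, c4⟩ := (hT z hz).1.1.2.2.2.2.1
    exact ⟨(hT z hz).1.2.1, (hT z hz).2 ▸ c4⟩
  · rw [sum_congr rfl fun z hz => by rw [(mem_filter.1 hz).2], sum_const, nsmul_eq_mul,
      Nat.cast_natAbs, Int.cast_abs, mul_one_div]
    refine mul_le_mul_of_nonneg_right
      (levD_CntA (R₀ := R₀) hG hD hB hX _ (nI z₀) r fun z hz => ?_) (by positivity)
    obtain ⟨a1, a2⟩ := mem_filter.1 hz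
    exact ⟨(hT z a1).1, a2, (hT z a1).2⟩
  · rw [← mul_sum, sum_add_distrib, ← mul_sum]
    have h1 := sum_const_CntA hY0 hA
    have h2 := mul_le_mul_of_nonneg_left
      (harm_le hD (Nat.floor_le_of_le hY)) hB'
    have h3 := mul_le_mul_of_nonneg_left (add_le_add h1 h2)
      (show 0 ≤ 32 * Δ ^ 2 * H ^ 2 by positivity)
    linarith

lemma levF_CntA (hG : GcdStmt) (hD : DivB X Δ) (hB : Bd Λ α H2 H) (hX : 6000 * Λ ^ 6 ≤ X)
    (hR : 0 ≤ R₀) {A B : ℝ} (hA : 0 ≤ A) (hB' : 0 ≤ B) (S : Finset (Pr × Pr))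
    (hS : ∀ z ∈ S, Q_CntA α H2 H R₀ z) :
    ∑ z ∈ S, (A + B / |(nI z : ℝ)|) * vb H2 H (rI z) ≤
      8192 * Δ ^ 4 * ((|H2| * |H| + H ^ 2) * (B + A * (1 + |H2| * |H| + H2 ^ 2 * R₀))) := by
  have hΔ := hD.1
  have hP : 0 ≤ |H2| * |H| := by positivity
  set M := B + A * (1 + |H2| * |H| + H2 ^ 2 * R₀) with hM
  have m1 : 0 ≤ A * (|H2| * |H|) := by positivity
  have m2 : 0 ≤ A * (H2 ^ 2 * R₀) := by positivity
  have m3 : B + A * (|H2| * |H|) + A * (H2 ^ 2 * R₀) ≤ M := by rw [hM]; nlinarith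
  have m4 : A * (32 * (|H2| * |H|)) + 2 * B * Δ ≤ 32 * Δ * (B + A * (|H2| * |H|)) := by
    nlinarith [mul_nonneg m1 (sub_nonneg.2 hΔ), mul_nonneg hB' (zero_le_one.trans hΔ)]
  have hM0 : 0 ≤ M := by linarith
  rw [← sum_filter_add_sum_filter_not S fun z => rI z = 0]
  have h1 : ∑ z ∈ S.filter (fun z => rI z = 0), (A + B / |(nI z : ℝ)|) * vb H2 H (rI z) ≤
      8192 * Δ ^ 4 * (|H2| * |H| * M) := by
    rw [sum_congr rfl fun z hz => by rw [(mem_filter.1 hz).2, vb, if_pos rfl], ← sum_mul]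
    have h2 := levE_CntA (R₀ := R₀) hG hD hB hX hA hB' (S.filter fun z => rI z = 0) 0
      fun z hz => ⟨hS z (mem_filter.1 hz).1, (mem_filter.1 hz).2⟩
    rw [Int.cast_zero, abs_zero, mul_zero, zero_add] at h2
    have h3 : H ^ 2 * (|H2| / |H|) = |H2| * |H| := by
      rcases eq_or_ne H 0 with rfl | h
      · simp
      · rw [← sq_abs H]
        have := abs_ne_zero.2 h
        field_simp
    have h4 : Δ ^ 3 ≤ Δ ^ 4 := pow_le_pow_right₀ hΔ (by norm_num)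
    calc _ ≤ 64 * Δ ^ 2 * H ^ 2 * (32 * Δ * M) * (|H2| / |H|) := by
          refine mul_le_mul_of_nonneg_right (h2.trans ?_) (by positivity)
          refine mul_le_mul_of_nonneg_left (m4.trans ?_) (by positivity)
          exact mul_le_mul_of_nonneg_left (by linarith) (by positivity)
      _ = 2048 * Δ ^ 3 * (H ^ 2 * (|H2| / |H|) * M) := by ring
      _ ≤ _ := by
          rw [h3]
          gcongr
          norm_num
  have h2 : ∑ z ∈ S.filter (fun z => ¬rI z = 0), (A + B / |(nI z : ℝ)|) * vb H2 H (rI z) ≤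
      8192 * Δ ^ 4 * (H ^ 2 * M) := by
    have hYX : min R₀ (32 * α ^ 2) ≤ X := by
      have a1 := r_le_CntA hB (min_le_right R₀ _)
      have a2 : Λ ^ 2 ≤ Λ ^ 6 := pow_le_pow_right₀ hB.1 (by norm_num)
      have a3 : 0 ≤ Λ ^ 6 := by have := hB.1; positivity
      linarith
    have hY0 : 0 ≤ min R₀ (32 * α ^ 2) := le_min hR (by positivity)
    refine (fibZ_CntA _ _ rI (min R₀ (32 * α ^ 2))
      (fun m => 64 * Δ ^ 2 * H ^ 2 * (4 * A * H2 ^ 2 +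
        (A * (32 * (|H2| * |H|)) + 2 * B * Δ) * (1 / (m : ℝ)))) (fun _ => by positivity)
      (fun z hz => ?_) fun z₀ hz₀ => ?_).trans ?_
    · obtain ⟨a1, a2⟩ := mem_filter.1 hz
      obtain ⟨-, -, -, -, -, -, c1, -⟩ := (hS z a1).1.2.2.2.2.1
      exact ⟨a2, le_min (hS z a1).1.2.2.2.2.2 c1⟩
    · have hr := (mem_filter.1 hz₀).2
      rw [sum_congr rfl fun z hz => by rw [(mem_filter.1 hz).2, vb, if_neg hr], ← sum_mul,
        Nat.cast_natAbs, Int.cast_abs]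
      have h3 := levE_CntA (R₀ := R₀) hG hD hB hX hA hB'
        ((S.filter fun z => ¬rI z = 0).filter fun z => rI z = rI z₀) (rI z₀)
        fun z hz => ⟨hS z (mem_filter.1 (mem_filter.1 hz).1).1, (mem_filter.1 hz).2⟩
      refine (mul_le_mul_of_nonneg_right h3 (by positivity)).trans_eq ?_
      have h4 : |(rI z₀ : ℝ)| ≠ 0 := abs_ne_zero.2 (Int.cast_ne_zero.2 hr)
      field_simp
      ring
    · rw [← mul_sum, sum_add_distrib, ← mul_sum _ _ (A * (32 * (|H2| * |H|)) + 2 * B * Δ)]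
      have a1 := (sum_const_CntA hY0 (show 0 ≤ 4 * A * H2 ^ 2 by positivity)).trans
        (mul_le_mul_of_nonneg_right (min_le_left _ _) (by positivity))
      have a2 := mul_le_mul m4 (harm_le hD (Nat.floor_le_of_le hYX))
        (sum_nonneg fun _ _ => by positivity) (by positivity)
      have a3 : R₀ * (4 * A * H2 ^ 2) + 32 * Δ * (B + A * (|H2| * |H|)) * (2 * Δ) ≤
          64 * Δ ^ 2 * M := by
        have b1 : 1 ≤ Δ ^ 2 := one_le_pow₀ hΔ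
        have b2 := mul_le_mul_of_nonneg_left m3 (show 0 ≤ 64 * Δ ^ 2 by positivity)
        nlinarith [mul_nonneg m2 (sub_nonneg.2 b1)]
      have a4 := mul_le_mul_of_nonneg_left ((add_le_add a1 a2).trans a3)
        (show 0 ≤ 64 * Δ ^ 2 * H ^ 2 by positivity)
      linarith
  linarith

end Lev

theorem cntA_stmt (hG : GcdStmt) : CntAStmt := by
  intro ε hε
  obtain ⟨C, hC, h⟩ := exD 6 4 6000 hε
  refine ⟨8192 * C, by positivity, fun Λ α H2 H R₀ A B S hB hR hA hB' hS => ?_⟩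
  obtain ⟨X, Δ, hD, hX, hΔ⟩ := h Λ hB.1
  refine (levF_CntA hG hD hB hX hR hA hB' S hS).trans
    (mul_le_mul_of_nonneg_right ?_ (by positivity))
  linarith

end Pool.Agent.MP_c853c5_nt.W
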