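import Pool.Agent.MP_c853c5_nt.W.Api

set_option autoImplicit false

open Finset MeasureTheory
open scoped ENNReal ComplexConjugate

namespace Pool.Agent.MP_c853c5_nt.W

open Pool.Agent.MP_2a1f0e_nt Pool.Agent.MP_2a1f0e_nt.GM Pool.Agent.MP_2a1f0e_nt.DH

lemma icc_CntB {x : ℝ} {k : ℤ} (h : |(k : ℝ)| ≤ x) : k ∈ Icc (-⌊x⌋) ⌊x⌋ := by
  have h1 : |k| ≤ ⌊x⌋ := Int.le_floor.2 (by rwa [Int.cast_abs])
  exact mem_Icc.2 (abs_le.1 h1)

lemma card_icc_CntB {H : ℝ} (hH : 1 / 2 ≤ H) :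
    ((Icc (-⌊2 * H⌋) ⌊2 * H⌋).card : ℝ) ≤ 6 * H := by
  have h0 : 0 ≤ ⌊2 * H⌋ := Int.floor_nonneg.2 (by linarith)
  have h1 : ((Icc (-⌊2 * H⌋) ⌊2 * H⌋).card : ℤ) = 2 * ⌊2 * H⌋ + 1 := by
    rw [Int.card_Icc]; omega
  have h2 : (⌊2 * H⌋ : ℝ) ≤ 2 * H := Int.floor_le _
  have h3 : ((Icc (-⌊2 * H⌋) ⌊2 * H⌋).card : ℝ) = 2 * ⌊2 * H⌋ + 1 := by exact_mod_cast h1
  linarith

lemma cnt_CntB (hG : GcdStmt) {H Y : ℝ} (hH : 1 / 2 ≤ H) (hY : 0 ≤ Y) (S : Finset (Pr × Pr))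
    (key : Pr × Pr → ℤ × ℤ × ℤ × ℤ) (val : Pr × Pr → ℤ) (a n : ℤ × ℤ × ℤ × ℤ → ℤ)
    (h1 : ∀ z ∈ S, H ≤ |((key z).1 : ℝ)| ∧ |((key z).1 : ℝ)| ≤ 2 * H ∧
      |((key z).2.1 : ℝ)| ≤ 2 * H ∧ |((key z).2.2.1 : ℝ)| ≤ 2 * H ∧ |(key z).2.2.2| ≤ 1 ∧
      Int.gcd (key z).1 (a (key z)) = 1 ∧ |(val z : ℝ)| ≤ Y ∧
      (key z).1 ∣ a (key z) * val z - n (key z))
    (h2 : ∀ z ∈ S, ∀ z' ∈ S, key z = key z' → val z = val z' → z = z') :
    (S.card : ℝ) ≤ 648 * H ^ 3 * (2 * Y / H + 1) := by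
  classical
  have hH0 : 0 < H := by linarith
  set I : Finset ℤ := Icc (-⌊2 * H⌋) ⌊2 * H⌋ with hI
  set K : Finset (ℤ × ℤ × ℤ × ℤ) := I ×ˢ I ×ˢ I ×ˢ Icc (-1 : ℤ) 1 with hK
  have hmap : ∀ z ∈ S, key z ∈ K := by
    intro z hz
    obtain ⟨-, b1, b2, b3, b4, -⟩ := h1 z hz
    simp only [hK, mem_product]
    exact ⟨icc_CntB b1, icc_CntB b2, icc_CntB b3, mem_Icc.2 (abs_le.1 b4)⟩
  have hIc : (I.card : ℝ) ≤ 6 * H := card_icc_CntB hH
  have hKc : (K.card : ℝ) ≤ 648 * H ^ 3 := by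
    have e : K.card = I.card * (I.card * (I.card * 3)) := by
      simp only [hK, card_product]; rfl
    rw [e]; push_cast
    have h0 : (0 : ℝ) ≤ I.card := Nat.cast_nonneg _
    calc (I.card : ℝ) * (I.card * (I.card * 3)) ≤ 6 * H * (6 * H * (6 * H * 3)) := by gcongr
      _ = 648 * H ^ 3 := by ring
  have hfib : ∀ k ∈ K, ((S.filter fun z => key z = k).card : ℝ) ≤ 2 * Y / H + 1 := by
    intro k _
    rcases (S.filter fun z => key z = k).eq_empty_or_nonempty with he | ⟨z0, hz0⟩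
    · rw [he, card_empty, Nat.cast_zero]; positivity
    · obtain ⟨hz0S, hz0k⟩ := mem_filter.1 hz0
      obtain ⟨b0, -, -, -, -, bg, -, -⟩ := h1 z0 hz0S
      rw [hz0k] at b0 bg
      have hk0 : k.1 ≠ 0 := by
        intro h0
        rw [h0, Int.cast_zero, abs_zero] at b0
        linarith
      have hinj : Set.InjOn val (S.filter fun z => key z = k : Finset _) := by
        intro z hz z' hz' hv
        obtain ⟨hzS, hzk⟩ := mem_filter.1 (mem_coe.1 hz)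
        obtain ⟨hzS', hzk'⟩ := mem_filter.1 (mem_coe.1 hz')
        exact h2 z hzS z' hzS' (hzk.trans hzk'.symm) hv
      rw [← card_image_of_injOn hinj]
      have h5 := hG.2.2.2.2.1 k.1 (a k) (n k) Y ((S.filter fun z => key z = k).image val) hk0 bg hY
        (by
          intro s hs
          obtain ⟨z, hz, rfl⟩ := mem_image.1 hs
          obtain ⟨hzS, hzk⟩ := mem_filter.1 hz
          obtain ⟨-, -, -, -, -, -, c1, c2⟩ := h1 z hzS
          rw [hzk] at c2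
          exact ⟨c1, c2⟩)
      refine h5.trans ?_
      gcongr
  have hsum : (S.card : ℝ) = ∑ k ∈ K, ((S.filter fun z => key z = k).card : ℝ) := by
    rw [card_eq_sum_card_fiberwise (f := key) (t := K) (fun z hz => hmap z hz)]
    push_cast; rfl
  rw [hsum]
  calc ∑ k ∈ K, ((S.filter fun z => key z = k).card : ℝ) ≤ ∑ _k ∈ K, (2 * Y / H + 1) :=
        sum_le_sum hfib
    _ = K.card * (2 * Y / H + 1) := by rw [sum_const, nsmul_eq_mul]
    _ ≤ 648 * H ^ 3 * (2 * Y / H + 1) := by gcongr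

lemma caseS_CntB {z : Pr × Pr} (ho : IsOrb z) (hv : Prim z.2.1) (hs : sI z = 0) :
    z.2.1.1 = 0 ∧ |z.2.1.2| = 1 ∧ |rI z| = |hh z.2| ∧ |nI z| = |hh z.1| := by
  obtain ⟨⟨⟨h, d⟩, w⟩, ⟨⟨v1, v2⟩, ⟨x1, x2⟩⟩⟩ := z
  obtain ⟨hw, -, -⟩ := ho
  simp only at hw
  subst hw
  simp only [sI, om2, zero_mul, one_mul, zero_sub, neg_eq_zero] at hs
  subst hs
  have e1 : |v2| = 1 := by
    simp only [Prim, ct, Int.gcd_zero_left] at hv
    rw [Int.abs_eq_natAbs, hv]; rfl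
  refine ⟨rfl, e1, ?_, ?_⟩
  · simp only [rI, hh, om2, zero_mul, one_mul, zero_sub, abs_neg, abs_mul, e1]
  · simp only [nI, hh, om2, mul_zero, mul_one, sub_zero, abs_mul, e1]

/-- the sign of the second anchor -/
noncomputable def sgn_CntB (z : Pr × Pr) : ℤ := if z.2.2 = z.1.1 then 1 else -1

lemma caseP_CntB {z : Pr × Pr} (ho : IsOrb z) (hu : Prim z.1.1) (hv : Prim z.2.2)
    (hp : pI z = 0) : (sgn_CntB z = 1 ∨ sgn_CntB z = -1) ∧
      z.2.2 = (sgn_CntB z * z.1.1.1, sgn_CntB z * z.1.1.2) ∧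
      |rI z| = |hh z.1| ∧ |nI z| = |hh z.2| := by
  have hpar := prim_par hu hv hp
  have hne := isOrb_hh_ne ho
  have hpl := plucker z
  have hA : (sgn_CntB z = 1 ∨ sgn_CntB z = -1) ∧
      z.2.2 = (sgn_CntB z * z.1.1.1, sgn_CntB z * z.1.1.2) := by
    unfold sgn_CntB
    split_ifs with hc
    · exact ⟨Or.inl rfl, by rw [hc]; simp⟩
    · refine ⟨Or.inr rfl, ?_⟩
      rcases hpar with h | h
      · exact absurd h hc
      · rw [h]; ext <;> simp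
  have hr : |rI z| = |hh z.1| := by
    rw [isOrb_hh ho, rI, ho.1, hA.2]
    rcases hA.1 with h | h <;> simp [om2, h]
  refine ⟨hA.1, hA.2, hr, ?_⟩
  rw [hp, zero_mul, sub_zero] at hpl
  have h1 : |hh z.1| * |hh z.2| = |hh z.1| * |nI z| := by
    rw [← abs_mul, hpl, abs_mul, hr, mul_comm]
  exact (mul_left_cancel₀ (abs_ne_zero.2 hne) h1).symm

lemma term_CntB {H2 H A B : ℝ} {n r : ℤ} (hH : 1 / 2 ≤ |H|) (hA : 0 ≤ A) (hB : 0 ≤ B)
    (hn : |H| ≤ |(n : ℝ)|) (hr : |H| ≤ |(r : ℝ)|) :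
    (A + B / |(n : ℝ)|) * vb H2 H r ≤ (A + B / |H|) * (1 / |H|) := by
  have hH0 : 0 < |H| := by linarith
  have hr0 : r ≠ 0 := by
    intro h0
    rw [h0, Int.cast_zero, abs_zero] at hr
    linarith
  rw [vb, if_neg hr0]
  gcongr

lemma absc_CntB {a b : ℤ} (h : |a| = |b|) : |(a : ℝ)| = |(b : ℝ)| := by exact_mod_cast h

lemma dle_CntB {z : Pr × Pr} (ho : IsOrb z) : |(z.1.1.2 : ℝ)| ≤ |(z.1.1.1 : ℝ)| := by
  have h : |z.1.1.2| ≤ |z.1.1.1| := by rw [abs_of_nonneg ho.2.1]; exact ho.2.2.le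
  exact_mod_cast h

lemma cardS_CntB (hG : GcdStmt) {α H2 H R₀ : ℝ} (hH : 1 / 2 ≤ |H|) (S : Finset (Pr × Pr))
    (hS : ∀ z ∈ S, Cs α H2 H R₀ z ∧ sI z = 0) :
    (S.card : ℝ) ≤ 648 * |H| ^ 3 * (2 * (4 * |H| * |H2| + 8 * |H|) / |H| + 1) := by
  refine cnt_CntB hG hH (by positivity) S (fun z => (z.1.1.1, z.1.1.2, z.2.2.1, z.2.1.2)) pI
    (fun _ => 1) (fun k => -(k.2.1 * k.2.2.1)) ?_ ?_
  · intro z hz
    obtain ⟨⟨ho, -, hv, -, hI, -⟩, hs⟩ := hS z hz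
    obtain ⟨-, c2, c3, -⟩ := caseS_CntB ho hv hs
    obtain ⟨-, -, b1, b2, -, b4, -, b6, -, -⟩ := hI
    have hd := dle_CntB ho
    have hr := absc_CntB c3
    have hx : |(z.2.2.1 : ℝ)| = |(rI z : ℝ)| := by
      apply absc_CntB
      rw [rI, ho.1]; simp [om2]
    rw [isOrb_hh ho] at b1 b2
    refine ⟨b1, b2, hd.trans b2, ?_, c2.le, Int.gcd_one_right _, ?_, ?_⟩
    · show |(z.2.2.1 : ℝ)| ≤ 2 * |H|
      rw [hx, hr]; exact b4
    · refine b6.trans ?_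
      rw [hr]
      have := mul_le_mul_of_nonneg_right b4 (abs_nonneg H2)
      linarith
    · exact ⟨z.2.2.2, by simp only [pI, om2]; ring⟩
  · intro z hz z' hz' hk hval
    obtain ⟨⟨ho, -, hv, -, -, -⟩, hs⟩ := hS z hz
    obtain ⟨⟨ho', -, hv', -, -, -⟩, hs'⟩ := hS z' hz'
    obtain ⟨c1, -⟩ := caseS_CntB ho hv hs
    obtain ⟨c1', -⟩ := caseS_CntB ho' hv' hs'
    have hne := isOrb_hh_ne ho
    rw [isOrb_hh ho] at hne
    simp only [Prod.mk.injEq] at hk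
    obtain ⟨k1, k2, k3, k4⟩ := hk
    have ht : z.2.2.2 = z'.2.2.2 := by
      simp only [pI, om2] at hval
      rw [← k1, ← k2, ← k3] at hval
      exact mul_left_cancel₀ hne (by linarith)
    refine Prod.ext (Prod.ext (Prod.ext k1 k2) (ho.1.trans ho'.1.symm))
      (Prod.ext (Prod.ext (c1.trans c1'.symm) k4) (Prod.ext k3 ht))

lemma cardP_CntB (hG : GcdStmt) {α H2 H R₀ : ℝ} (hH : 1 / 2 ≤ |H|) (S : Finset (Pr × Pr))
    (hS : ∀ z ∈ S, Cs α H2 H R₀ z ∧ pI z = 0) :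
    (S.card : ℝ) ≤ 648 * |H| ^ 3 * (2 * (4 * |H| * |H2| + 8 * |H|) / |H| + 1) := by
  refine cnt_CntB hG hH (by positivity) S (fun z => (z.1.1.1, z.1.1.2, hh z.2, sgn_CntB z))
    (fun z => z.2.1.1) (fun k => k.2.1) (fun k => k.2.2.2 * k.2.2.1) ?_ ?_
  · intro z hz
    obtain ⟨⟨ho, hu, -, hv, hI, -⟩, hp⟩ := hS z hz
    obtain ⟨c1, c2, c3, -⟩ := caseP_CntB ho hu hv hp
    obtain ⟨-, -, b1, b2, -, b4, -, -, b7, -⟩ := hI
    have hd := dle_CntB ho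
    have hr := absc_CntB c3
    have hx : |(z.2.1.1 : ℝ)| = |(sI z : ℝ)| := by
      apply absc_CntB
      rw [sI, ho.1]; simp [om2]
    rw [← hr] at b2
    have b2' := b2
    rw [hr, isOrb_hh ho] at b2
    rw [isOrb_hh ho] at b1
    refine ⟨b1, b2, hd.trans b2, b4, ?_, hu, ?_, ?_⟩
    · show |sgn_CntB z| ≤ 1
      rcases c1 with h | h <;> simp [h]
    · show |(z.2.1.1 : ℝ)| ≤ _
      rw [hx]
      refine b7.trans ?_
      have := mul_le_mul_of_nonneg_right b2' (abs_nonneg H2)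
      linarith
    · refine ⟨z.2.1.2, ?_⟩
      show z.1.1.2 * z.2.1.1 - sgn_CntB z * hh z.2 = z.1.1.1 * z.2.1.2
      rw [hh, c2]
      rcases c1 with h | h <;> simp only [om2, h] <;> ring
  · intro z hz z' hz' hk hval
    obtain ⟨⟨ho, hu, -, hv, -, -⟩, hp⟩ := hS z hz
    obtain ⟨⟨ho', hu', -, hv', -, -⟩, hp'⟩ := hS z' hz'
    obtain ⟨c1, c2, -⟩ := caseP_CntB ho hu hv hp
    obtain ⟨-, c2', -⟩ := caseP_CntB ho' hu' hv' hp'
    have hne := isOrb_hh_ne ho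
    rw [isOrb_hh ho] at hne
    simp only [Prod.mk.injEq] at hk
    obtain ⟨k1, k2, k3, k4⟩ := hk
    have hv2 : z.2.2 = z'.2.2 := by rw [c2, c2', k1, k2, k4]
    have hval' : z.2.1.1 = z'.2.1.1 := hval
    have ht : z.2.1.2 = z'.2.1.2 := by
      simp only [hh, om2] at k3
      rw [← hv2, ← hval', c2] at k3
      simp only at k3
      refine mul_left_cancel₀ hne ?_
      rcases c1 with h | h <;> rw [h] at k3 <;> linarith
    exact Prod.ext (Prod.ext (Prod.ext k1 k2) (ho.1.trans ho'.1.symm))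
      (Prod.ext (Prod.ext hval' ht) hv2)

lemma num_CntB {x y A B W : ℝ} (hx : 1 / 2 ≤ x) (hy : 0 ≤ y) (hA : 0 ≤ A) (hB : 0 ≤ B)
    (hW : 0 ≤ W) :
    2 * (648 * x ^ 3 * (2 * (4 * x * y + 8 * x) / x + 1)) * ((A + B / x) * (1 / x)) ≤
      44064 * ((y * x + x ^ 2) * (B + A * (1 + y * x + W))) := by
  have hx0 : 0 < x := by linarith
  have e : 2 * (648 * x ^ 3 * (2 * (4 * x * y + 8 * x) / x + 1)) * ((A + B / x) * (1 / x)) =
      1296 * (A * ((8 * y + 17) * x ^ 2) + B * ((8 * y + 17) * x)) := by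
    field_simp
    ring
  have h1 : (8 * y + 17) * x ≤ 34 * (y * x + x ^ 2) := by nlinarith [mul_nonneg hy hx0.le]
  have h2 : (8 * y + 17) * x ^ 2 ≤ 34 * ((y * x + x ^ 2) * (1 + y * x + W)) := by
    have a1 : 0 ≤ y * x := mul_nonneg hy hx0.le
    have a2 : x ^ 2 * (1 + y * x) ≤ (y * x + x ^ 2) * (1 + y * x + W) := by
      apply mul_le_mul <;> first | positivity | linarith
    have a3 : y * x ^ 2 * (1 / 2) ≤ y * x ^ 2 * x := by gcongr
    nlinarith [sq_nonneg x, mul_nonneg hy (sq_nonneg x)]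
  have h3 := mul_le_mul_of_nonneg_left h1 hB
  have h4 := mul_le_mul_of_nonneg_left h2 hA
  rw [e]
  nlinarith

theorem cntB_stmt (hG : GcdStmt) : CntBStmt := by
  classical
  intro ε hε
  refine ⟨44064, by norm_num, ?_⟩
  intro Λ α H2 H R₀ A B S hBd hR hA hB hS
  have hΛ : 1 ≤ Λ ^ ε := Real.one_le_rpow hBd.1 hε.le
  have hF : 0 ≤ (|H2| * |H| + H ^ 2) * (B + A * (1 + |H2| * |H| + H2 ^ 2 * R₀)) := by positivity
  rcases S.eq_empty_or_nonempty with he | ⟨z0, hz0⟩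
  · rw [he, sum_empty]; positivity
  have hH : 1 / 2 ≤ |H| := (hS z0 hz0).1.2.2.2.2.1.half
  have hterm : ∀ z ∈ S, (A + B / |(nI z : ℝ)|) * vb H2 H (rI z) ≤ (A + B / |H|) * (1 / |H|) := by
    intro z hz
    obtain ⟨⟨ho, hu, hv, hv', hI, -⟩, -, hT⟩ := hS z hz
    obtain ⟨-, -, b1, -, b3, -⟩ := hI
    rcases mul_eq_zero.1 hT with hp | hs
    · obtain ⟨-, -, c3, c4⟩ := caseP_CntB ho hu hv' hp
      exact term_CntB hH hA hB (by rw [absc_CntB c4]; exact b3) (by rw [absc_CntB c3]; exact b1)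
    · obtain ⟨-, -, c3, c4⟩ := caseS_CntB ho hv hs
      exact term_CntB hH hA hB (by rw [absc_CntB c4]; exact b1) (by rw [absc_CntB c3]; exact b3)
  have hc1 := cardS_CntB hG hH (S.filter fun z => sI z = 0) (α := α) (H2 := H2) (R₀ := R₀)
    fun z hz => ⟨(hS z (mem_filter.1 hz).1).1, (mem_filter.1 hz).2⟩
  have hc2 := cardP_CntB hG hH (S.filter fun z => ¬sI z = 0) (α := α) (H2 := H2) (R₀ := R₀)
    fun z hz => ⟨(hS z (mem_filter.1 hz).1).1,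
      (mul_eq_zero.1 (hS z (mem_filter.1 hz).1).2.2).resolve_right (mem_filter.1 hz).2⟩
  have hc : (S.card : ℝ) ≤
      2 * (648 * |H| ^ 3 * (2 * (4 * |H| * |H2| + 8 * |H|) / |H| + 1)) := by
    have e := card_filter_add_card_filter_not (s := S) (fun z => sI z = 0)
    have e' : ((S.filter fun z => sI z = 0).card : ℝ) + (S.filter fun z => ¬sI z = 0).card =
        S.card := by exact_mod_cast e
    linarith
  have hnum := num_CntB (W := H2 ^ 2 * R₀) hH (abs_nonneg H2) hA hB (by positivity)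
  rw [sq_abs] at hnum
  calc ∑ z ∈ S, (A + B / |(nI z : ℝ)|) * vb H2 H (rI z)
      ≤ ∑ _z ∈ S, (A + B / |H|) * (1 / |H|) := sum_le_sum hterm
    _ = S.card * ((A + B / |H|) * (1 / |H|)) := by rw [sum_const, nsmul_eq_mul]
    _ ≤ 2 * (648 * |H| ^ 3 * (2 * (4 * |H| * |H2| + 8 * |H|) / |H| + 1)) *
        ((A + B / |H|) * (1 / |H|)) := by gcongr
    _ ≤ 44064 * 1 * ((|H2| * |H| + H ^ 2) * (B + A * (1 + |H2| * |H| + H2 ^ 2 * R₀))) := by
        rw [mul_one 44064]; exact hnum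
    _ ≤ _ := by gcongr

end Pool.Agent.MP_c853c5_nt.W
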