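import Pool.Agent.MP_c853c5_nt.W.Api

set_option autoImplicit false

open Finset MeasureTheory
open scoped ENNReal ComplexConjugate

namespace Pool.Agent.MP_c853c5_nt.W

open Pool.Agent.MP_2a1f0e_nt Pool.Agent.MP_2a1f0e_nt.GM Pool.Agent.MP_2a1f0e_nt.DH

/-- nonzero integers of size at most `M` -/
noncomputable def J_CntC (M : ℕ) : Finset ℤ := (Icc (-(M : ℤ)) M).erase 0

lemma mem_CntC {M : ℕ} {a : ℤ} : a ∈ J_CntC M ↔ a ≠ 0 ∧ |a| ≤ M := by
  simp only [J_CntC, mem_erase, mem_Icc, abs_le]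

lemma sum_CntC (M : ℕ) (f : ℕ → ℝ) :
    ∑ a ∈ J_CntC M, f a.natAbs = 2 * ∑ m ∈ Icc 1 M, f m := by
  induction M with
  | zero => simp [J_CntC]
  | succ M ih =>
    have e : J_CntC (M + 1) = insert ((M : ℤ) + 1) (insert (-((M : ℤ) + 1)) (J_CntC M)) := by
      ext a
      simp only [mem_insert, mem_CntC, abs_le]
      push_cast
      omega
    rw [e, sum_insert, sum_insert, ih, sum_Icc_succ_top (by omega), Int.natAbs_neg,
      show ((M : ℤ) + 1).natAbs = M + 1 by omega]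
    · ring
    · simp only [mem_CntC, abs_le]
      omega
    · simp only [mem_insert, mem_CntC, abs_le]
      omega

lemma card_CntC (M : ℕ) : ((J_CntC M).card : ℝ) = 2 * M := by
  simpa using sum_CntC M fun _ => 1

lemma memf_CntC {Y : ℝ} {a : ℤ} (h0 : a ≠ 0) (h : |(a : ℝ)| ≤ Y) : a ∈ J_CntC ⌊Y⌋₊ := by
  refine mem_CntC.2 ⟨h0, ?_⟩
  rw [← Int.natCast_natAbs, Nat.cast_le, Nat.le_floor_iff ((abs_nonneg _).trans h),
    Nat.cast_natAbs, Int.cast_abs]
  exact h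

/-- the orbit with given parameters -/
def ph_CntC (h d σ a b : ℤ) : Pr × Pr := (((h, d), (0, 1)), ((σ * h, σ * d), (a, b)))

lemma par_CntC {α H2 H R₀ : ℝ} {z : Pr × Pr} (hz : Cs α H2 H R₀ z) (hn : nI z = 0) :
    ∃ σ ∈ ({1, -1} : Finset ℤ), ∃ h d a b : ℤ, z = ph_CntC h d σ a b ∧ 0 ≤ d ∧ d < |h| ∧
      h ∈ J_CntC ⌊2 * |H|⌋₊ ∧ h * b - d * a ∈ J_CntC ⌊2 * |H|⌋₊ := by
  obtain ⟨⟨o1, o2, o3⟩, p1, p2, -, ⟨i1, i2, -, i4, -, i6, -⟩, -⟩ := hz
  obtain ⟨⟨⟨h, d⟩, u'⟩, v, a, b⟩ := z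
  dsimp only at o1 o2 o3 p1 p2 i1 i2 i4 i6
  subst o1
  have e : hh ((h, d), (0, 1)) = h := by simp [hh, om2]
  rw [e] at i1 i4
  rcases prim_par p1 p2 hn with k | k <;> subst k
  · refine ⟨1, by simp, h, d, a, b, by simp [ph_CntC], o2, o3, memf_CntC i1 i4, memf_CntC i2 i6⟩
  · have e2 : hh (-(h, d), (a, b)) = -(h * b - d * a) := by simp [hh, om2]; ring
    rw [e2] at i2 i6
    rw [Int.cast_neg, abs_neg] at i6
    exact ⟨-1, by simp, h, d, a, b, by simp [ph_CntC], o2, o3, memf_CntC i1 i4,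
      memf_CntC (neg_ne_zero.1 i2) i6⟩

theorem cntC_stmt (hG : GcdStmt) : CntCStmt := by
  classical
  intro ε hε
  obtain ⟨C, hC, hD⟩ := exD 2 2 32 hε
  refine ⟨128 * C, by positivity, fun Λ α H2 H R₀ S hB hS => ?_⟩
  obtain ⟨hΛ, hα, hαΛ, -, -⟩ := hB
  obtain ⟨X, Δ, hΔ, hX, hC2⟩ := hD Λ hΛ
  have hΛε : 1 ≤ Λ ^ ε := Real.one_le_rpow hΛ hε.le
  set M := ⌊2 * |H|⌋₊ with hM
  set R := ⌊32 * α ^ 2⌋₊ with hR
  have hM' : (M : ℝ) ≤ 2 * |H| := Nat.floor_le (by positivity)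
  have hRX : R ≤ X := by
    have : (R : ℝ) ≤ 32 * α ^ 2 := Nat.floor_le (by positivity)
    have h2 : α ^ 2 ≤ Λ ^ 2 := by gcongr
    exact_mod_cast (show (R : ℝ) ≤ X by linarith)
  have hM2 : (M : ℝ) * M ≤ 4 * H ^ 2 := by
    rw [← sq_abs H]
    nlinarith [Nat.cast_nonneg (α := ℝ) M]
  have hv : ∀ r, 0 ≤ vb H2 H r := fun r => by unfold vb; split_ifs <;> positivity
  have h0 : ∑ z ∈ S with rI z = 0, vb H2 H (rI z) ≤ 32 * (|H2| * |H|) := by
    have s : S.filter (fun z => rI z = 0) ⊆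
        ((J_CntC M ×ˢ Ico (0 : ℤ) M) ×ˢ (({1, -1} : Finset ℤ) ×ˢ ({1, -1} : Finset ℤ))).image
          fun t => ph_CntC t.1.1 t.1.2 t.2.1 0 t.2.2 := by
      intro z hz
      obtain ⟨z1, z2⟩ := mem_filter.1 hz
      obtain ⟨σ, hσ, h, d, a, b, rfl, d0, d1, hh1, -⟩ := par_CntC (hS z z1).1 (hS z z1).2
      have p : Prim (a, b) := (hS _ z1).1.2.2.2.1
      have a0 : a = 0 := by simpa [rI, ph_CntC, om2] using z2
      subst a0
      have hb : b.natAbs = 1 := by simpa [Prim, ct] using p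
      refine mem_image.2 ⟨((h, d), (σ, b)), mem_product.2 ⟨mem_product.2 ⟨hh1,
        mem_Ico.2 ⟨d0, d1.trans_le (mem_CntC.1 hh1).2⟩⟩, mem_product.2 ⟨hσ, ?_⟩⟩, rfl⟩
      simp only [mem_insert, mem_singleton]
      omega
    have c : ((S.filter fun z => rI z = 0).card : ℝ) ≤ 32 * |H| ^ 2 := by
      have := (card_le_card s).trans card_image_le
      rw [card_product, card_product, card_product, card_pair (by norm_num), Int.card_Ico,
        sub_zero, Int.toNat_natCast] at this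
      have h2 : ((S.filter fun z => rI z = 0).card : ℝ) ≤ (J_CntC M).card * M * (2 * 2) := by
        exact_mod_cast this
      rw [card_CntC] at h2
      rw [sq_abs]
      linarith
    rw [sum_congr rfl (g := fun _ => |H2| / |H|) fun z hz => by
      rw [vb, if_pos (mem_filter.1 hz).2], sum_const, nsmul_eq_mul]
    refine (mul_le_mul_of_nonneg_right c (by positivity)).trans ?_
    rcases eq_or_ne |H| 0 with k | k
    · simp [k]
    · exact le_of_eq (by field_simp)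
  have h1 : ∑ z ∈ S with ¬rI z = 0, vb H2 H (rI z) ≤ 128 * Δ ^ 2 * H ^ 2 := by
    have s : S.filter (fun z => ¬rI z = 0) ⊆
        ((J_CntC R ×ˢ J_CntC M ×ˢ ({1, -1} : Finset ℤ) ×ˢ J_CntC M).sigma fun t =>
          (Ico 0 |t.2.1|).filter fun d => t.2.1 ∣ t.1 * d - t.2.2.2).image
          fun t => ph_CntC t.1.2.1 t.2 t.1.2.2.1 (-t.1.1)
            ((t.1.2.2.2 - t.2 * t.1.1) / t.1.2.1) := by
      intro z hz
      obtain ⟨z1, z2⟩ := mem_filter.1 hz
      have hr := memf_CntC z2 (hS z z1).1.2.2.2.2.1.2.2.2.2.2.2.1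
      obtain ⟨σ, hσ, h, d, a, b, rfl, d0, d1, hh1, hp⟩ := par_CntC (hS z z1).1 (hS z z1).2
      have e : rI (ph_CntC h d σ a b) = -a := by simp [rI, ph_CntC, om2]
      rw [e] at hr
      refine mem_image.2 ⟨⟨(-a, h, σ, h * b - d * a), d⟩, mem_sigma.2 ⟨mem_product.2 ⟨hr,
        mem_product.2 ⟨hh1, mem_product.2 ⟨hσ, hp⟩⟩⟩, mem_filter.2 ⟨mem_Ico.2 ⟨d0, d1⟩,
          ⟨-b, by ring⟩⟩⟩, ?_⟩
      dsimp only
      rw [neg_neg, show h * b - d * a - d * -a = h * b by ring,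
        Int.mul_ediv_cancel_left _ (mem_CntC.1 hh1).1]
    refine (sum_le_sum_of_subset_of_nonneg s fun _ _ _ => hv _).trans ?_
    refine (sum_image_le_of_nonneg fun _ _ => hv _).trans ?_
    rw [sum_sigma, sum_product]
    refine (sum_le_sum (g := fun r : ℤ => 32 * Δ * H ^ 2 * (1 / (r.natAbs : ℝ))) fun r hr => ?_).trans ?_
    · obtain ⟨r0, r1⟩ := mem_CntC.1 hr
      have e : ∀ h d σ b, vb H2 H (rI (ph_CntC h d σ (-r) b)) = 1 / (r.natAbs : ℝ) := by
        intro h d σ b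
        rw [show rI (ph_CntC h d σ (-r) b) = r by simp [rI, ph_CntC, om2], vb, if_neg r0,
          Nat.cast_natAbs, Int.cast_abs]
      simp only [e, sum_const, nsmul_eq_mul]
      rw [← sum_mul, sum_product]
      refine mul_le_mul_of_nonneg_right ?_ (by positivity)
      refine (sum_le_sum (g := fun h : ℤ => 4 * M * (Nat.gcd h.natAbs r.natAbs : ℝ))
        fun h hh1 => ?_).trans ?_
      · refine (sum_le_card_nsmul _ _ (Nat.gcd h.natAbs r.natAbs : ℝ) fun t _ => ?_).trans ?_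
        · exact_mod_cast hG.2.2.2.1 h r t.2 (mem_CntC.1 hh1).1
        · rw [card_product, card_pair (by norm_num), nsmul_eq_mul]
          push_cast
          rw [card_CntC]
          exact le_of_eq (by ring)
      · rw [← mul_sum, sum_CntC M fun m => (Nat.gcd m r.natAbs : ℝ)]
        have g1 := hG.2.1 r.natAbs M (by omega)
        have g2 := hΔ.2 r.natAbs (by rw [abs_le] at r1; omega)
        have g3 : (r.natAbs.divisors.card : ℝ) * M ≤ Δ * M := by gcongr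
        calc 4 * (M : ℝ) * (2 * ∑ m ∈ Icc 1 M, (Nat.gcd m r.natAbs : ℝ))
            ≤ 4 * M * (2 * (Δ * M)) := by gcongr; exact g1.trans g3
          _ = 8 * Δ * (M * M) := by ring
          _ ≤ 8 * Δ * (4 * H ^ 2) := by have := hΔ.1; gcongr
          _ = _ := by ring
    · rw [← mul_sum, sum_CntC R fun m => 1 / (m : ℝ)]
      have := hΔ.1
      calc 32 * Δ * H ^ 2 * (2 * ∑ m ∈ Icc 1 R, 1 / (m : ℝ))
          ≤ 32 * Δ * H ^ 2 * (2 * (2 * Δ)) := by gcongr; exact harm_le hΔ hRX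
        _ = _ := by ring
  rw [← sum_filter_add_sum_filter_not S fun z => rI z = 0]
  have k1 : 1 ≤ C * Λ ^ ε := one_le_mul_of_one_le_of_one_le hC hΛε
  have k2 : 0 ≤ |H2| * |H| := by positivity
  nlinarith [mul_le_mul_of_nonneg_right hC2 (sq_nonneg H), mul_le_mul_of_nonneg_right k1 k2]

end Pool.Agent.MP_c853c5_nt.W
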