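import Pool.Agent.MP_c853c5_nt.W.Api

set_option autoImplicit false

open Finset MeasureTheory
open scoped ENNReal ComplexConjugate

namespace Pool.Agent.MP_c853c5_nt.W

open Pool.Agent.MP_2a1f0e_nt Pool.Agent.MP_2a1f0e_nt.GM Pool.Agent.MP_2a1f0e_nt.DH

lemma inj_CntL {z w : Pr × Pr} (hz : z.1 = ((1, 0), (0, 1))) (hw : w.1 = ((1, 0), (0, 1)))
    (h1 : rI z = rI w) (h2 : nI z = nI w) (h3 : pI z = pI w) (h4 : sI z = sI w) : z = w := by
  simp only [rI, nI, pI, sI, om2, hz, hw] at h1 h2 h3 h4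
  refine Prod.ext (hz.trans hw.symm) (Prod.ext (Prod.ext ?_ ?_) (Prod.ext ?_ ?_)) <;> omega

lemma harm_CntL (R : Finset ℤ) (M : ℕ) (h : ∀ r ∈ R, r ≠ 0 ∧ r.natAbs ≤ M) :
    ∑ r ∈ R, 1 / |(r : ℝ)| ≤ 2 * ∑ m ∈ Icc 1 M, 1 / (m : ℝ) := by
  have h1 : R ⊆ (Icc 1 M).image (fun m : ℕ => (m : ℤ)) ∪ (Icc 1 M).image (fun m : ℕ => -(m : ℤ)) := by
    intro r hr
    obtain ⟨h2, h3⟩ := h r hr
    simp only [mem_union, mem_image, mem_Icc]
    rcases le_total 0 r with h4 | h4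
    · exact Or.inl ⟨r.natAbs, ⟨by omega, h3⟩, by omega⟩
    · exact Or.inr ⟨r.natAbs, ⟨by omega, h3⟩, by omega⟩
  refine (sum_le_sum_of_subset_of_nonneg h1 fun _ _ _ => by positivity).trans ?_
  have h2 := sum_union_inter (s₁ := (Icc 1 M).image (fun m : ℕ => (m : ℤ)))
    (s₂ := (Icc 1 M).image (fun m : ℕ => -(m : ℤ))) (f := fun r : ℤ => 1 / |(r : ℝ)|)
  rw [sum_image (fun a _ b _ hab => by simpa using hab),
    sum_image (fun a _ b _ hab => by simpa using hab)] at h2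
  simp only [Int.cast_natCast, Int.cast_neg, abs_neg, Nat.abs_cast] at h2
  have h3 : 0 ≤ ∑ r ∈ (Icc 1 M).image (fun m : ℕ => (m : ℤ)) ∩
      (Icc 1 M).image (fun m : ℕ => -(m : ℤ)), 1 / |(r : ℝ)| :=
    sum_nonneg fun _ _ => by positivity
  linarith

lemma small_CntL (S : Finset (Pr × Pr)) (h : ∀ z ∈ S, z.1 = ((1, 0), (0, 1)) ∧ |rI z| ≤ 1 ∧
    |nI z| ≤ 4 * |rI z| + 32 ∧ |pI z| ≤ 2 * |rI z| + 8 ∧ |sI z| ≤ 2 * |rI z| + 8) :
    ∑ z ∈ S, vb 1 1 (rI z) ≤ 96579 := by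
  have h0 : ∀ A B : ℤ, (∀ z ∈ S, |rI z| ≤ A ∧ |nI z| ≤ 36 * A ∧ |pI z| ≤ B ∧ |sI z| ≤ B) →
      S.card ≤ (A + 1 - -A).toNat * ((36 * A + 1 - -(36 * A)).toNat *
        ((B + 1 - -B).toNat * (B + 1 - -B).toNat)) := by
    intro A B h'
    have h1 := card_le_card_of_injOn (s := S)
      (t := Icc (-A) A ×ˢ Icc (-(36 * A)) (36 * A) ×ˢ Icc (-B) B ×ˢ Icc (-B) B)
      (fun z => (rI z, nI z, pI z, sI z)) (fun z hz => by
        obtain ⟨h2, h3, h4, h5⟩ := h' z hz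
        simp only [coe_product, Set.mem_prod, coe_Icc, Set.mem_Icc, ← abs_le]
        exact ⟨h2, h3, h4, h5⟩) fun z hz w hw e => by
        simp only [Prod.mk.injEq] at e
        exact inj_CntL (h z hz).1 (h w hw).1 e.1 e.2.1 e.2.2.1 e.2.2.2
    simpa only [card_product, Int.card_Icc] using h1
  have h1 : S.card ≤ 96579 := h0 1 10 fun z hz => by
    obtain ⟨-, h2, h3, h4, h5⟩ := h z hz
    omega
  have h2 : (S.card : ℝ) ≤ 96579 := by exact_mod_cast h1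
  refine (sum_le_card_nsmul S _ 1 fun z _ => ?_).trans (by simpa using h2)
  unfold vb
  split_ifs with h3
  · simp
  · rw [div_le_one (by positivity)]
    exact_mod_cast Int.one_le_abs h3

lemma fib_CntL (hG : GcdStmt) {X : ℕ} {Δ : ℝ} (hD : DivB X Δ) {b : ℕ} (hb : 1 ≤ b) {r : ℤ}
    (hr : 2 ≤ |r|) (hX : 36 * r ^ 2 + 1 ≤ X) (S : Finset (Pr × Pr))
    (h : ∀ z ∈ S, z.1 = ((1, 0), (0, 1)) ∧ rI z = r ∧ |nI z| ≤ 36 * |r| ∧ (b : ℤ) ∣ nI z ∧
      pI z * sI z = nI z * r - 1) :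
    (S.card : ℝ) ≤ (72 * |(r : ℝ)| / b + 1) * (2 * Δ) := by
  classical
  have h1 : ((S.image nI).card : ℝ) ≤ 2 * (36 * |(r : ℝ)|) / |((b : ℤ) : ℝ)| + 1 := by
    refine hG.2.2.2.2.1 b 1 0 _ _ (by omega) (by simp) (by positivity) fun s hs => ?_
    obtain ⟨z, hz, rfl⟩ := mem_image.1 hs
    exact ⟨by exact_mod_cast (h z hz).2.2.1, by simpa using (h z hz).2.2.2.1⟩
  rw [Int.cast_natCast, Nat.abs_cast, ← mul_assoc, show (2 : ℝ) * 36 = 72 by norm_num] at h1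
  have h2 : ∀ n ∈ S.image nI, ((S.filter fun z => nI z = n).card : ℝ) ≤ 2 * Δ := by
    intro n hn
    obtain ⟨z₀, hz₀, rfl⟩ := mem_image.1 hn
    have h3 : nI z₀ * r - 1 ≠ 0 := fun e => by
      have h4 : r ∣ 1 := Dvd.intro_left _ (by linarith)
      have := Int.le_of_dvd one_pos ((abs_dvd _ _).2 h4)
      omega
    have h4 : (nI z₀ * r - 1).natAbs ≤ X := by
      have h5 := abs_sub (nI z₀ * r) 1
      rw [abs_mul, abs_one] at h5
      have h6 := mul_le_mul_of_nonneg_right (h z₀ hz₀).2.2.1 (abs_nonneg r)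
      have h7 := sq_abs r
      zify
      nlinarith
    have h5 := hG.2.2.2.2.2 _ ((S.filter fun z => nI z = nI z₀).image fun z => (pI z, sI z)) h3
      fun k hk => by
        obtain ⟨z, hz, rfl⟩ := mem_image.1 hk
        rw [mem_filter] at hz
        rw [← hz.2]
        exact (h z hz.1).2.2.2.2
    rw [card_image_of_injOn fun z hz w hw e => by
      rw [mem_coe, mem_filter] at hz hw
      simp only [Prod.mk.injEq] at e
      exact inj_CntL (h z hz.1).1 (h w hw.1).1 ((h z hz.1).2.1.trans (h w hw.1).2.1.symm)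
        (hz.2.trans hw.2.symm) e.1 e.2] at h5
    have h6 : ((S.filter fun z => nI z = nI z₀).card : ℝ) ≤
        2 * ((nI z₀ * r - 1).natAbs.divisors.card : ℝ) := by exact_mod_cast h5
    linarith [hD.2 _ h4]
  rw [card_eq_sum_card_image nI S, Nat.cast_sum]
  refine (sum_le_card_nsmul _ _ _ h2).trans ?_
  rw [nsmul_eq_mul]
  exact mul_le_mul_of_nonneg_right h1 (by linarith [hD.1])

theorem cntL_stmt (hG : GcdStmt) : CntLStmt := by
  classical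
  intro ε hε
  obtain ⟨C, hC, hE⟩ := exD 4 2 40000 hε
  refine ⟨110000 * C, by positivity, fun Λ α a b S hΛ hα hαΛ ha hb hS => ?_⟩
  obtain ⟨X, Δ, hD, hX, hΔ⟩ := hE Λ hΛ
  have hΔ1 := hD.1
  have ha0 : (0 : ℝ) < a := Nat.cast_pos.2 ha
  have hb0 : (0 : ℝ) < b := Nat.cast_pos.2 hb
  have h0 : ∀ z ∈ S, z.1 = ((1, 0), (0, 1)) ∧ |(rI z : ℝ)| ≤ 32 * α ^ 2 ∧
      |nI z| ≤ 4 * |rI z| + 32 ∧ |pI z| ≤ 2 * |rI z| + 8 ∧ |sI z| ≤ 2 * |rI z| + 8 ∧
      pI z * sI z = nI z * rI z - 1 := by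
    intro z hz
    obtain ⟨h1, h2, h3, ⟨-, -, -, -, -, -, h4, h5, h6, h7⟩, -, -⟩ := hS z hz
    have h8 := plucker z
    rw [h2, h3] at h8
    simp only [abs_one, mul_one, one_pow] at h5 h6 h7
    exact ⟨isOrb_one h1 h2, h4, by exact_mod_cast h7, by exact_mod_cast h5, by exact_mod_cast h6,
      by linarith⟩
  have hα2 : α ^ 2 ≤ Λ ^ 2 := by gcongr
  have hΛ2 : 1 ≤ Λ ^ 2 := one_le_pow₀ hΛ
  have hΛ4 : Λ ^ 4 = Λ ^ 2 * Λ ^ 2 := by ring
  have h1 := small_CntL (S.filter fun z => |rI z| ≤ 1) fun z hz => by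
    rw [mem_filter] at hz
    obtain ⟨h1, -, h2, h3, h4, -⟩ := h0 z hz.1
    exact ⟨h1, hz.2, h2, h3, h4⟩
  set S₂ := S.filter fun z => ¬ |rI z| ≤ 1 with hS₂
  have hR : ∀ r ∈ S₂.image rI, 2 ≤ |r| ∧ |(r : ℝ)| ≤ 32 * α ^ 2 ∧ (a : ℤ) ∣ r := by
    intro r hr
    obtain ⟨z, hz, rfl⟩ := mem_image.1 hr
    rw [mem_filter] at hz
    exact ⟨by omega, (h0 z hz.1).2.1, (hS z hz.1).2.2.2.2.1⟩
  have h2 : ∀ r ∈ S₂.image rI, (S₂.filter fun z => rI z = r).card • vb 1 1 r ≤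
      144 * Δ / b + 2 * Δ * (1 / |(r : ℝ)|) := by
    intro r hr
    obtain ⟨r1, r2, -⟩ := hR r hr
    have r0 : r ≠ 0 := fun e => by simp [e] at r1
    have r3 : (0 : ℝ) < |(r : ℝ)| := by positivity
    have h3 := fib_CntL hG hD hb r1 (by
      have h4 : (36 * (r : ℝ) ^ 2 + 1 : ℝ) ≤ X := by
        have h5 : |(r : ℝ)| ^ 2 ≤ (32 * Λ ^ 2) ^ 2 := by gcongr; linarith
        rw [sq_abs] at h5
        nlinarith
      exact_mod_cast h4) (S₂.filter fun z => rI z = r) fun z hz => by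
        rw [mem_filter, mem_filter] at hz
        obtain ⟨h1, -, h2, -, -, h3⟩ := h0 z hz.1.1
        rw [hz.2] at h2 h3
        exact ⟨h1, hz.2, by omega, (hS z hz.1.1).2.2.2.2.2, h3⟩
    rw [nsmul_eq_mul, vb, if_neg r0]
    refine (mul_le_mul_of_nonneg_right h3 (by positivity)).trans (le_of_eq ?_)
    field_simp
    ring
  have h3 : ((S₂.image rI).card : ℝ) ≤ 64 * α ^ 2 / a := by
    have h4 := hG.2.2.2.2.1 a 1 0 (32 * α ^ 2) (insert 0 (S₂.image rI)) (by omega) (by simp)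
      (by positivity) fun s hs => by
        rcases mem_insert.1 hs with rfl | hs
        · simp
          positivity
        · exact ⟨(hR s hs).2.1, by simpa using (hR s hs).2.2⟩
    rw [card_insert_of_notMem fun e => by simpa using (hR 0 e).1, Int.cast_natCast, Nat.abs_cast,
      ← mul_assoc, show (2 : ℝ) * 32 = 64 by norm_num] at h4
    push_cast at h4
    linarith
  have h4 : ∑ r ∈ S₂.image rI, 1 / |(r : ℝ)| ≤ 4 * Δ := by
    refine (harm_CntL _ X fun r hr => ?_).trans (by linarith [harm_le hD le_rfl])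
    obtain ⟨r1, r2, -⟩ := hR r hr
    refine ⟨fun e => by simp [e] at r1, ?_⟩
    have h5 : |(r : ℝ)| ≤ X := by nlinarith
    zify
    exact_mod_cast h5
  have h5 : ∑ z ∈ S₂, vb 1 1 (rI z) ≤ 9216 * Δ * (α ^ 2 / (a * b)) + 8 * Δ ^ 2 := by
    rw [sum_comp (vb 1 1) rI]
    refine (sum_le_sum h2).trans ?_
    rw [sum_add_distrib, ← mul_sum, sum_const, nsmul_eq_mul]
    have h6 := mul_le_mul_of_nonneg_right h3 (by positivity : 0 ≤ 144 * Δ / b)
    have h7 := mul_le_mul_of_nonneg_left h4 (by positivity : 0 ≤ 2 * Δ)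
    have h8 : 64 * α ^ 2 / a * (144 * Δ / b) = 9216 * Δ * (α ^ 2 / (a * b)) := by
      field_simp
      ring
    linarith
  rw [← sum_filter_add_sum_filter_not S fun z => |rI z| ≤ 1]
  have h6 : 0 ≤ α ^ 2 / (a * b) := by positivity
  have h7 : Δ ≤ Δ ^ 2 := by nlinarith
  have h8 := mul_le_mul_of_nonneg_right (h7.trans hΔ) h6
  have h9 : 0 ≤ C * Λ ^ ε * (α ^ 2 / (a * b)) := by positivity
  nlinarith

end Pool.Agent.MP_c853c5_nt.W
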