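import Pool.Agent.MP_c853c5_nt.W.Api

set_option autoImplicit false

open Finset MeasureTheory
open scoped ENNReal ComplexConjugate

namespace Pool.Agent.MP_c853c5_nt.W

open Pool.Agent.MP_2a1f0e_nt Pool.Agent.MP_2a1f0e_nt.GM Pool.Agent.MP_2a1f0e_nt.DH

open scoped FourierTransform

lemma norm_int_Co1 {f : ℝ → ℂ} {a b B : ℝ} (hab : a ≤ b) (h0 : ∀ z, f z ≠ 0 → a ≤ z ∧ z ≤ b)
    (hB : ∀ z, a ≤ z → z ≤ b → ‖f z‖ ≤ B) : ‖∫ z, f z‖ ≤ B * (b - a) := by
  rw [← setIntegral_eq_integral_of_forall_compl_eq_zero (s := Set.Icc a b)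
    fun x hx => by_contra fun h => hx (h0 x h)]
  have := norm_setIntegral_le_of_norm_le_const (μ := volume) (s := Set.Icc a b) (f := f) (C := B)
    (by simp) fun x hx => hB x hx.1 hx.2
  rwa [Real.volume_real_Icc_of_le hab] at this

lemma FT1_eq_Co1 (f : ℝ → ℂ) : FT1 f = 𝓕 f := by
  funext y
  rw [Real.fourier_real_eq_integral_exp_smul, FT1]
  congr 1
  funext z
  rw [smul_eq_mul, mul_comm, ex]
  congr 2
  push_cast
  ring

lemma inv_Co1 {f : ℝ → ℂ} (hc : Continuous f) (hf : Integrable f) (h' : Integrable (FT1 f))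
    (z : ℝ) : f z = ∫ y : ℝ, FT1 f y * ex (y * z) := by
  rw [FT1_eq_Co1] at h' ⊢
  conv_lhs => rw [← hc.fourierInv_fourier_eq hf h']
  rw [Real.fourierInv_eq']
  congr 1
  funext y
  rw [smul_eq_mul, mul_comm, ex]
  congr 2
  simp only [RCLike.inner_apply, conj_trivial]
  push_cast
  ring

lemma meas_FT1_Co1 {f : ℝ → ℂ} (hc : Continuous f) : Measurable (FT1 f) := by
  have h : Continuous fun p : ℝ × ℝ => f p.2 * ex (-(p.1 * p.2)) :=
    (hc.comp continuous_snd).mul (continuous_ex.comp (continuous_fst.mul continuous_snd).neg)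
  exact (h.stronglyMeasurable.integral_prod_right' (ν := volume)).measurable

/-- the cut-off dilated transform -/
noncomputable def G_Co1 (ξ l z : ℝ) : ℂ := (Wt z : ℂ) * Eh ξ (l * z)

lemma norm_Wt_Co1 (z : ℝ) : ‖(Wt z : ℂ)‖ ≤ 1 := by
  rw [Complex.norm_real, Real.norm_of_nonneg (Wt_nonneg z)]
  exact Wt_le_one z

lemma hcs_Wt_Co1 : HasCompactSupport fun z : ℝ => (Wt z : ℂ) :=
  hasCompactSupport_Wt.comp_left (g := fun x : ℝ => (x : ℂ)) Complex.ofReal_zero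

lemma cont_Wt_Co1 : Continuous fun z : ℝ => (Wt z : ℂ) :=
  Complex.continuous_ofReal.comp continuous_Wt

lemma cont_G_Co1 (h : F1Stmt) (ξ l : ℝ) : Continuous (G_Co1 ξ l) :=
  cont_Wt_Co1.mul ((h (E ξ) (contDiff_E ξ) (hasCompactSupport_E ξ)).1.comp
    (continuous_const.mul continuous_id))

lemma int_G_Co1 (h : F1Stmt) (ξ l : ℝ) : Integrable (G_Co1 ξ l) :=
  (cont_G_Co1 h ξ l).integrable_of_hasCompactSupport hcs_Wt_Co1.mul_right

lemma fub_Co1 (ξ l ζ : ℝ) :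
    FT1 (G_Co1 ξ l) ζ = ∫ y : ℝ, E ξ y * FT1 (fun z => (Wt z : ℂ)) (ζ + l * y) := by
  have hE : Integrable (E ξ) :=
    (contDiff_E ξ).continuous.integrable_of_hasCompactSupport (hasCompactSupport_E ξ)
  have hW : Integrable fun z : ℝ => (Wt z : ℂ) :=
    cont_Wt_Co1.integrable_of_hasCompactSupport hcs_Wt_Co1
  have hI : Integrable (Function.uncurry fun z y : ℝ =>
      (Wt z : ℂ) * E ξ y * ex (-((ζ + l * y) * z))) (volume.prod volume) := by
    refine (hW.mul_prod hE).mul_bdd (c := 1) ?_ (Filter.Eventually.of_forall fun p => ?_)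
    · exact (continuous_ex.comp (((continuous_const.add (continuous_const.mul continuous_snd)).mul
        continuous_fst).neg)).aestronglyMeasurable
    · exact (norm_ex _).le
  have h1 : FT1 (G_Co1 ξ l) ζ =
      ∫ z : ℝ, ∫ y : ℝ, (Wt z : ℂ) * E ξ y * ex (-((ζ + l * y) * z)) := by
    rw [FT1]
    congr 1
    funext z
    rw [G_Co1, Eh, FT1, ← integral_const_mul, ← integral_mul_const]
    congr 1
    funext y
    rw [show -((ζ + l * y) * z) = -(l * z * y) + -(ζ * z) by ring, ex_add]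
    ring
  rw [h1, integral_integral_swap hI]
  congr 1
  funext y
  rw [FT1, ← integral_const_mul]
  congr 1
  funext z
  ring

lemma bd1_Co1 (hE : EhStmt) (A : ℕ) : ∃ C : ℝ, 0 < C ∧ ∀ ξ l ζ : ℝ,
    ‖FT1 (G_Co1 ξ l) ζ‖ ≤ C * (1 + |ξ|) ^ A / (1 + |l|) ^ A := by
  obtain ⟨C, hC, h⟩ := hE A
  refine ⟨C * 2 ^ A * (3 / 2), by positivity, fun ξ l ζ => ?_⟩
  have := norm_int_Co1 (f := fun z => G_Co1 ξ l z * ex (-(ζ * z))) (a := 3 / 4) (b := 9 / 4)
    (B := C * 2 ^ A * (1 + |ξ|) ^ A / (1 + |l|) ^ A) (by norm_num) (fun z hz => by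
      have h1 : Wt z ≠ 0 := fun h0 => hz (by simp [G_Co1, h0])
      exact ⟨(mem_of_Wt_ne_zero h1).1.le, (mem_of_Wt_ne_zero h1).2.le⟩) (fun z h1 _ => by
      rw [norm_mul, norm_ex, mul_one, G_Co1, norm_mul]
      refine (mul_le_of_le_one_left (norm_nonneg _) (norm_Wt_Co1 z)).trans ((h ξ _).trans ?_)
      have h2 : 1 + |l| ≤ 2 * (1 + |l * z|) := by
        rw [abs_mul, abs_of_nonneg (by linarith : 0 ≤ z)]
        nlinarith [abs_nonneg l]
      have h3 : (1 + |l|) ^ A ≤ 2 ^ A * (1 + |l * z|) ^ A := by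
        rw [← mul_pow]
        exact pow_le_pow_left₀ (by positivity) h2 A
      rw [div_le_div_iff₀ (by positivity) (by positivity)]
      calc C * (1 + |ξ|) ^ A * (1 + |l|) ^ A
          ≤ C * (1 + |ξ|) ^ A * (2 ^ A * (1 + |l * z|) ^ A) := by gcongr
        _ = _ := by ring)
  rw [FT1]
  refine this.trans (le_of_eq ?_)
  ring

lemma bd2_Co1 (h : F1Stmt) (A : ℕ) : ∃ C : ℝ, 0 < C ∧ ∀ ξ l ζ : ℝ,
    ‖FT1 (G_Co1 ξ l) ζ‖ ≤ C * (1 + |l|) ^ A / (1 + |ζ|) ^ A := by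
  obtain ⟨C, hC, hb⟩ := (h (fun z => (Wt z : ℂ))
    (Complex.ofRealCLM.contDiff.comp contDiff_Wt) hcs_Wt_Co1).2.1 A
  refine ⟨C * 2 ^ A * (2 / 3), by positivity, fun ξ l ζ => ?_⟩
  have := norm_int_Co1 (f := fun y => E ξ y * FT1 (fun z => (Wt z : ℂ)) (ζ + l * y)) (a := 1)
    (b := 5 / 3) (B := C * 2 ^ A * (1 + |l|) ^ A / (1 + |ζ|) ^ A) (by norm_num) (fun z hz => by
      have h1 : E ξ z ≠ 0 := left_ne_zero_of_mul hz
      exact ⟨(E_mem h1).1.le, (E_mem h1).2.le⟩) (fun z h1 h1' => by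
      rw [norm_mul]
      refine (mul_le_of_le_one_left (norm_nonneg _) (norm_E_le ξ z)).trans ((hb _).trans ?_)
      have h4 : |ζ| ≤ |ζ + l * z| + |l| * z := by
        have := abs_sub (ζ + l * z) (l * z)
        rwa [add_sub_cancel_right, abs_mul, abs_of_nonneg (by linarith : 0 ≤ z)] at this
      have h2 : 1 + |ζ| ≤ 2 * (1 + |l|) * (1 + |ζ + l * z|) := by
        nlinarith [abs_nonneg l, abs_nonneg (ζ + l * z),
          mul_nonneg (abs_nonneg l) (abs_nonneg (ζ + l * z))]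
      have h3 : (1 + |ζ|) ^ A ≤ 2 ^ A * (1 + |l|) ^ A * (1 + |ζ + l * z|) ^ A := by
        rw [← mul_pow, ← mul_pow]
        exact pow_le_pow_left₀ (by positivity) h2 A
      rw [div_le_div_iff₀ (by positivity) (by positivity)]
      calc C * (1 + |ζ|) ^ A
          ≤ C * (2 ^ A * (1 + |l|) ^ A * (1 + |ζ + l * z|) ^ A) := by gcongr
        _ = _ := by ring)
  rw [fub_Co1]
  refine this.trans (le_of_eq ?_)
  ring

lemma int_c_Co1 (h : F1Stmt) (ξ l : ℝ) : Integrable (FT1 (G_Co1 ξ l)) := by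
  obtain ⟨C, hC, hb⟩ := bd2_Co1 h 2
  refine (integrable_inv_one_add_sq.const_mul (C * (1 + |l|) ^ 2)).mono'
    (meas_FT1_Co1 (cont_G_Co1 h ξ l)).aestronglyMeasurable
    (Filter.Eventually.of_forall fun ζ => (hb ξ l ζ).trans ?_)
  rw [← div_eq_mul_inv]
  refine div_le_div_of_nonneg_left (by positivity) (by positivity) ?_
  nlinarith [abs_nonneg ζ, sq_abs ζ]

theorem co1_stmt (h : F1Stmt) (hE : EhStmt) (hW : WhStmt) : Co1Stmt := by
  intro M A
  obtain ⟨C1, hC1, h1⟩ := bd1_Co1 hE (2 * (M + A))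
  obtain ⟨C2, hC2, h2⟩ := bd2_Co1 h (2 * M)
  refine ⟨C1 + C2, by positivity, fun ξ l => ⟨FT1 (G_Co1 ξ l), meas_FT1_Co1 (cont_G_Co1 h ξ l),
    int_c_Co1 h ξ l, fun ζ => ?_, fun z => ?_⟩⟩
  · refine (pow_le_pow_iff_left₀ (norm_nonneg _) (by positivity) two_ne_zero).1 ?_
    have h4 := mul_le_mul (h1 ξ l ζ) (h2 ξ l ζ) (norm_nonneg _) (by positivity)
    rw [← sq] at h4
    refine h4.trans ?_
    have h5 : C1 * (1 + |ξ|) ^ (2 * (M + A)) / (1 + |l|) ^ (2 * (M + A)) *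
        (C2 * (1 + |l|) ^ (2 * M) / (1 + |ζ|) ^ (2 * M)) =
        C1 * C2 * ((1 + |ξ|) ^ (M + A) / ((1 + |l|) ^ A * (1 + |ζ|) ^ M)) ^ 2 := by
      have : (1 + |l|) ≠ 0 := by positivity
      have : (1 + |ζ|) ≠ 0 := by positivity
      field_simp
      ring
    rw [h5, mul_div_assoc, mul_pow]
    gcongr
    nlinarith [mul_pos hC1 hC2]
  · have h3 : (om z : ℂ) * Eh ξ (l * z) = om z * G_Co1 ξ l z := by
      by_cases h0 : om z = 0
      · simp [h0]
      · rw [G_Co1, Wt_eq_one (om_mem h0).1.le (by linarith [(om_mem h0).2]), Complex.ofReal_one,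
          one_mul]
    rw [h3, inv_Co1 (cont_G_Co1 h ξ l) (int_G_Co1 h ξ l) (int_c_Co1 h ξ l) z,
      ← integral_const_mul]
    congr 1
    funext ζ
    rw [E]
    ring

end Pool.Agent.MP_c853c5_nt.W
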