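import Pool.Agent.MP_c853c5_nt.W.Api

/-! Linear changes of variables on the space of matrices. -/

set_option autoImplicit false

open Finset MeasureTheory
open scoped ENNReal ComplexConjugate

namespace Pool.Agent.MP_c853c5_nt.W

open Pool.Agent.MP_2a1f0e_nt Pool.Agent.MP_2a1f0e_nt.GM Pool.Agent.MP_2a1f0e_nt.DH

lemma gen_CoV (L : MM →ₗ[ℝ] MM) {c : ℝ} (hc : c ≠ 0) (hL : LinearMap.det L = c ^ 2) :
    ∃ e : MM ≃ᵐ MM, (∀ x, e x = L x) ∧
      Measure.map e volume = ENNReal.ofReal (1 / c ^ 2) • (volume : Measure MM) := by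
  have h0 : LinearMap.det L ≠ 0 := hL ▸ pow_ne_zero 2 hc
  have _ : (volume : Measure R2).IsAddHaarMeasure :=
    inferInstanceAs ((volume : Measure ℝ).prod (volume : Measure ℝ)).IsAddHaarMeasure
  have _ : (volume : Measure MM).IsAddHaarMeasure :=
    inferInstanceAs ((volume : Measure R2).prod (volume : Measure R2)).IsAddHaarMeasure
  refine ⟨(L.equivOfDetNeZero h0).toContinuousLinearEquiv.toHomeomorph.toMeasurableEquiv,
    fun _ => rfl, ?_⟩
  have h1 := Measure.map_linearMap_addHaar_eq_smul_addHaar (volume : Measure MM) h0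
  rw [hL, abs_of_nonneg (by positivity), ← one_div] at h1
  exact h1

lemma rm_CoV (m : MM) : ∃ L : MM →ₗ[ℝ] MM, LinearMap.det L = dt m ^ 2 ∧ ∀ x, L x = rm m x := by
  let A : R2 →ₗ[ℝ] R2 := Matrix.toLin (Module.Basis.finTwoProd ℝ) (Module.Basis.finTwoProd ℝ)
    !![m.1.1, m.2.1; m.1.2, m.2.2]
  have hA : ∀ a, A a = rt m a := fun a => by
    simp only [A, Matrix.toLin_finTwoProd_apply, rt, mul_comm]
  refine ⟨A.prodMap A, ?_, fun x => ?_⟩
  · rw [LinearMap.det_prodMap, LinearMap.det_toLin, Matrix.det_fin_two_of, dt]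
    ring
  · rw [LinearMap.prodMap_apply, hA, hA, rm]

lemma act_CoV (P : Pr) :
    ∃ L : MM →ₗ[ℝ] MM, LinearMap.det L = (hh P : ℝ) ^ 2 ∧ ∀ x, L x = act P x := by
  obtain ⟨L, h1, h2⟩ := rm_CoV ((P.1.1, P.2.1), (P.1.2, P.2.2))
  let e : MM ≃ₗ[ℝ] MM := LinearEquiv.prodProdProdComm ℝ ℝ ℝ ℝ ℝ
  refine ⟨(e : MM →ₗ[ℝ] MM) ∘ₗ L ∘ₗ (e.symm : MM →ₗ[ℝ] MM), ?_, fun x => ?_⟩
  · rw [LinearMap.det_conj, h1]
    simp only [dt, hh, om2, Int.cast_sub, Int.cast_mul]
    ring
  · change e (L ((x.1.1, x.2.1), (x.1.2, x.2.2))) = _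
    rw [h2]
    simp only [act, vx, rm, rt, e, LinearEquiv.prodProdProdComm_apply, mul_comm]

theorem cov_stmt : CoVStmt := by
  refine ⟨fun P hP => ?_, fun m hm f => ?_⟩
  · obtain ⟨L, h1, h2⟩ := act_CoV P
    obtain ⟨e, h3, h4⟩ := gen_CoV L (Int.cast_ne_zero.2 hP) h1
    have h5 : ∀ x, act P x = e x := fun x => by rw [h3, h2]
    have h6 : (0 : ℝ) ≤ 1 / (hh P : ℝ) ^ 2 := by positivity
    simp only [h5]
    refine ⟨fun f => ?_, fun f => ?_, fun f => ?_, fun f hf => ?_⟩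
    · rw [← lintegral_map_equiv f e, h4, lintegral_smul_measure, smul_eq_mul]
    · rw [← integral_map_equiv e f, h4, integral_smul_measure, ENNReal.toReal_ofReal h6,
        Complex.real_smul]
    · rw [← integral_map_equiv e f, h4, integral_smul_measure, ENNReal.toReal_ofReal h6,
        smul_eq_mul]
    · refine (integrable_map_equiv e f).1 ?_
      rw [h4]
      exact hf.smul_measure ENNReal.ofReal_ne_top
  · obtain ⟨L, h1, h2⟩ := rm_CoV m
    obtain ⟨e, h3, h4⟩ := gen_CoV L (hm ▸ one_ne_zero) h1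
    have h5 : ∀ x, rm m x = e x := fun x => by rw [h3, h2]
    simp only [h5]
    rw [← lintegral_map_equiv f e, h4, hm, one_pow, div_one, ENNReal.ofReal_one, one_smul]

end Pool.Agent.MP_c853c5_nt.W
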