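import Pool.Agent.MP_c853c5_nt.W.Api

/-! Splitting a packet according to the content of the point. -/

set_option autoImplicit false

open Finset MeasureTheory
open scoped ENNReal ComplexConjugate

namespace Pool.Agent.MP_c853c5_nt.W

open Pool.Agent.MP_2a1f0e_nt Pool.Agent.MP_2a1f0e_nt.GM Pool.Agent.MP_2a1f0e_nt.DH

/-- the first vector is multiplied by `m` -/
def sm_Cont (m : ℕ) (P : Pr) : Pr := (((m : ℤ) * P.1.1, (m : ℤ) * P.1.2), P.2)

lemma inj_Cont {m : ℕ} (hm : 1 ≤ m) : Function.Injective (sm_Cont m) := by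
  intro P P' h
  have h0 : (m : ℤ) ≠ 0 := by omega
  obtain ⟨h1, h2⟩ := Prod.mk.inj h
  obtain ⟨h3, h4⟩ := Prod.mk.inj h1
  exact Prod.ext (Prod.ext (mul_left_cancel₀ h0 h3) (mul_left_cancel₀ h0 h4)) h2

lemma range_Cont {m : ℕ} {P : Pr} (h : m ∣ ct P.1) : P ∈ Set.range (sm_Cont m) := by
  obtain ⟨a, ha⟩ := (Int.natCast_dvd_natCast.2 h).trans (ct_dvd_one P.1)
  obtain ⟨b, hb⟩ := (Int.natCast_dvd_natCast.2 h).trans (ct_dvd_two P.1)
  exact ⟨((a, b), P.2), Prod.ext (Prod.ext ha.symm hb.symm) rfl⟩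

lemma ct_Cont (m : ℕ) (P : Pr) : ct (sm_Cont m P).1 = m * ct P.1 := by
  simp only [ct, sm_Cont, Int.gcd_mul_left, Int.natAbs_natCast]

lemma pa_Cont (d : Dat) (m : ℕ) (P : Pr) (x : MM) : pa d (sm_Cont m P) x = pa (d.sc m) P x := by
  have h1 : tt (sm_Cont m P) x / d.H2 = tt P x / (d.H2 / m) := by
    simp only [tt, sm_Cont, vx, Int.cast_mul, Int.cast_natCast, div_div_eq_mul_div]
    ring
  have h2 : (hh (sm_Cont m P) : ℝ) / d.H = (hh P : ℝ) / (d.H / m) := by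
    simp only [hh, om2, sm_Cont, Int.cast_mul, Int.cast_sub, Int.cast_natCast, div_div_eq_mul_div]
    ring
  rw [pa, h1, h2]
  rfl

lemma ind_Cont {q : ℕ} (hq : 1 ≤ q) (m : ℕ) (w : V) (P : Pr) :
    ind q (om2 w (sm_Cont m P).1) = ind (q / Nat.gcd m q) (om2 w P.1) := by
  have h : om2 w (sm_Cont m P).1 = m * om2 w P.1 := by
    simp only [om2, sm_Cont]
    ring
  rw [h]
  exact iC_congr (dvd_mul_iff_div hq _)

lemma mem_Cont {α H2 H : ℝ} {M : ℕ} (hM : 2 * |H| ≤ M) {P : Pr} {x : MM}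
    (h : SupA α H2 H P x) : ct P.1 ∈ Icc 1 M := by
  have h1 : (ct P.1 : ℤ) ∣ hh P :=
    ((ct_dvd_one P.1).mul_right _).sub ((ct_dvd_two P.1).mul_right _)
  have h2 : (ct P.1 : ℤ) ≤ |hh P| := Int.le_of_dvd (abs_pos.2 h.2.1) ((dvd_abs _ _).2 h1)
  have h3 : |hh P| ≤ (M : ℤ) := by exact_mod_cast h.2.2.2.2.2.2.2.trans hM
  refine mem_Icc.2 ⟨Nat.pos_of_ne_zero fun h0 => h.2.1 ?_, by omega⟩
  rwa [h0, Nat.cast_zero, zero_dvd_iff] at h1

lemma gen_Cont (hF : FinStmt) {d : Dat} {q M : ℕ} (κ a : ℕ → ℂ) (T : ℕ → ℕ → Prop) (x : MM)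
    (w : V) (hq : 1 ≤ q) (h0 : 0 < d.al) (hd : Adm d.al d.g) (hM : 2 * |d.H| ≤ M)
    (hT : ∀ m c, T m c → m ∣ c) (ha : ∀ c ∈ Icc 1 M, a c = ∑ m ∈ Icc 1 M, κ m * iC (T m c)) :
    vf q Prod.fst (fun P x => a (ct P.1) * pa d P x) x w = ∑ m ∈ Icc 1 M, κ m *
      vf (q / Nat.gcd m q) Prod.fst (fun P x => iC (T m (m * ct P.1)) * pa (d.sc m) P x) x w := by
  have e : ∀ P : Pr, a (ct P.1) * pa d P x * ind q (om2 w P.1) =
      ∑ m ∈ Icc 1 M, κ m * (iC (T m (ct P.1)) * pa d P x * ind q (om2 w P.1)) := fun P => by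
    by_cases h : pa d P x = 0
    · simp only [h, mul_zero, zero_mul, sum_const_zero]
    · rw [ha _ (mem_Cont hM (pa_supA hd h)), sum_mul, sum_mul]
      simp only [mul_assoc]
  unfold vf
  simp only [e]
  rw [Summable.tsum_finsetSum fun m _ => summable_of_hasFiniteSupport
    ((hF d.al d.H2 d.H x h0).subset fun P hP => pa_supA hd
      (right_ne_zero_of_mul (left_ne_zero_of_mul (right_ne_zero_of_mul hP))))]
  refine sum_congr rfl fun m hm => ?_
  rw [tsum_mul_left, ← (inj_Cont (mem_Icc.1 hm).1).tsum_eq fun P hP =>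
    range_Cont (hT _ _ (iC_ne_zero (left_ne_zero_of_mul (left_ne_zero_of_mul hP))))]
  simp only [ct_Cont, pa_Cont, ind_Cont hq]

theorem cont_stmt (hF : FinStmt) : ContStmt := by
  intro d q M κ x w hq h0 hd hM
  constructor
  · rw [gen_Cont hF κ κ (fun m c => c = m) x w hq h0 hd hM (fun m c h => h ▸ dvd_rfl)
      fun c hc => by
        rw [sum_eq_single_of_mem c hc fun m _ hm => by rw [iC_neg hm.symm, mul_zero], iC_pos rfl,
          mul_one]]
    refine sum_congr rfl fun m hm => ?_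
    have e : ∀ u : V, iC (m * ct u = m) = iC (Prim u) := fun u =>
      iC_congr (Nat.mul_eq_left (Nat.one_le_iff_ne_zero.1 (mem_Icc.1 hm).1))
    simp only [e]
    rfl
  · rw [gen_Cont hF κ (fun c => ∑ e ∈ c.divisors, κ e) (fun m c => m ∣ c) x w hq h0 hd hM
      (fun m c h => h) fun c hc => by
        obtain ⟨h1, h2⟩ := mem_Icc.1 hc
        have hs : c.divisors ⊆ Icc 1 M := fun m hm => mem_Icc.2
          ⟨Nat.pos_of_mem_divisors hm, (Nat.divisor_le hm).trans h2⟩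
        rw [← sum_subset hs fun m _ hm => by
          rw [iC_neg fun k => hm (Nat.mem_divisors.2 ⟨k, by omega⟩), mul_zero]]
        exact sum_congr rfl fun m hm => by rw [iC_pos (Nat.dvd_of_mem_divisors hm), mul_one]]
    refine sum_congr rfl fun m _ => ?_
    simp only [iC_pos (dvd_mul_right m _), one_mul]

end Pool.Agent.MP_c853c5_nt.W
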