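import Pool.Agent.MP_c853c5_nt.W.Api

set_option autoImplicit false

open Finset MeasureTheory
open scoped ENNReal ComplexConjugate

namespace Pool.Agent.MP_c853c5_nt.W

open Pool.Agent.MP_2a1f0e_nt Pool.Agent.MP_2a1f0e_nt.GM Pool.Agent.MP_2a1f0e_nt.DH

/-- the integers of absolute value at most `Y` -/
noncomputable def box_Crude (Y : ℝ) : Finset ℤ := Icc (-⌊Y⌋) ⌊Y⌋

lemma mem_box_Crude {Y : ℝ} {a : ℤ} (h : |(a : ℝ)| ≤ Y) : a ∈ box_Crude Y := by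
  have h1 : |a| ≤ ⌊Y⌋ := Int.le_floor.2 (by exact_mod_cast h)
  exact mem_Icc.2 (abs_le.1 h1)

lemma card_box_Crude {Y : ℝ} (h : 1 ≤ Y) : ((box_Crude Y).card : ℝ) ≤ 3 * Y := by
  have h0 : 0 ≤ ⌊Y⌋ := Int.floor_nonneg.2 (by linarith)
  have h1 : ((box_Crude Y).card : ℤ) = 2 * ⌊Y⌋ + 1 := by
    rw [box_Crude, Int.card_Icc, Int.toNat_of_nonneg (by omega)]
    ring
  have h2 : ((box_Crude Y).card : ℝ) = 2 * (⌊Y⌋ : ℝ) + 1 := by exact_mod_cast h1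
  linarith [Int.floor_le Y]

/-- a box that contains all orbits -/
noncomputable def all_Crude (Λ : ℝ) : Finset (Pr × Pr) :=
  ((box_Crude (2 * Λ) ×ˢ box_Crude (2 * Λ)) ×ˢ {((0 : ℤ), (1 : ℤ))}) ×ˢ
    ((box_Crude (72 * Λ ^ 3) ×ˢ box_Crude (304 * Λ ^ 4)) ×ˢ
      (box_Crude (32 * Λ ^ 2) ×ˢ box_Crude (136 * Λ ^ 3)))

lemma card_all_Crude {Λ : ℝ} (h : 1 ≤ Λ) :
    ((all_Crude Λ).card : ℝ) ≤ 3 ^ 6 * (2 * 2 * 72 * 304 * 32 * 136) * Λ ^ 14 := by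
  have h2 : 1 ≤ Λ ^ 2 := one_le_pow₀ h
  have h3 : 1 ≤ Λ ^ 3 := one_le_pow₀ h
  have h4 : 1 ≤ Λ ^ 4 := one_le_pow₀ h
  have a1 := card_box_Crude (Y := 2 * Λ) (by linarith)
  have a2 := card_box_Crude (Y := 72 * Λ ^ 3) (by linarith)
  have a3 := card_box_Crude (Y := 304 * Λ ^ 4) (by linarith)
  have a4 := card_box_Crude (Y := 32 * Λ ^ 2) (by linarith)
  have a5 := card_box_Crude (Y := 136 * Λ ^ 3) (by linarith)
  simp only [all_Crude, card_product, card_singleton, mul_one, Nat.cast_mul]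
  calc _ ≤ (3 * (2 * Λ)) * (3 * (2 * Λ)) * ((3 * (72 * Λ ^ 3)) * (3 * (304 * Λ ^ 4)) *
        ((3 * (32 * Λ ^ 2)) * (3 * (136 * Λ ^ 3)))) := by gcongr
    _ = _ := by ring

lemma mem_all_Crude {Λ α H2 H : ℝ} (hB : Bd Λ α H2 H) {z : Pr × Pr} (hO : IsOrb z)
    (hz : InvB α H2 H z) : z ∈ all_Crude Λ := by
  obtain ⟨⟨⟨h, d⟩, u⟩, ⟨s, v⟩, ⟨r, w⟩⟩ := z
  obtain ⟨hu, hd0, hd1⟩ := hO
  simp only at hu hd0 hd1
  subst hu
  obtain ⟨hΛ, hα, hαΛ, h2, h1⟩ := hB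
  obtain ⟨h0, -, -, hh', -, -, hr, hp, hs, hn⟩ := hz
  simp only [hh, om2, rI, pI, sI, nI, mul_one, mul_zero, sub_zero, zero_mul, one_mul, zero_sub,
    Int.cast_neg, abs_neg, Int.cast_sub, Int.cast_mul] at h0 hh' hr hp hs hn
  have p2 : Λ ≤ Λ ^ 2 := le_self_pow₀ hΛ (by norm_num)
  have p3 : Λ ≤ Λ ^ 3 := le_self_pow₀ hΛ (by norm_num)
  have p4 : Λ ^ 2 ≤ Λ ^ 4 := pow_le_pow_right₀ hΛ (by norm_num)
  have b1 : |(h : ℝ)| ≤ 2 * Λ := by linarith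
  have b0 : (1 : ℝ) ≤ |(h : ℝ)| := by exact_mod_cast Int.one_le_abs h0
  have b2 : |(d : ℝ)| ≤ 2 * Λ := by
    refine le_trans ?_ b1
    have : |d| ≤ |h| := by rw [abs_of_nonneg hd0]; exact hd1.le
    exact_mod_cast this
  have b3 : |(r : ℝ)| ≤ 32 * Λ ^ 2 := hr.trans (by gcongr)
  have k1 : 2 * |(r : ℝ)| * |H2| + 8 * |H| ≤ 72 * Λ ^ 3 := by
    calc 2 * |(r : ℝ)| * |H2| + 8 * |H| ≤ 2 * (32 * Λ ^ 2) * Λ + 8 * Λ ^ 3 := by
          gcongr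
          exact h1.trans p3
      _ = _ := by ring
  have b4 : |(s : ℝ)| ≤ 72 * Λ ^ 3 := hs.trans k1
  have k2 : 4 * H2 ^ 2 * |(r : ℝ)| + 32 * (|H2| * |H|) ≤ 160 * Λ ^ 4 := by
    rw [← sq_abs H2]
    calc 4 * |H2| ^ 2 * |(r : ℝ)| + 32 * (|H2| * |H|)
        ≤ 4 * Λ ^ 2 * (32 * Λ ^ 2) + 32 * (Λ * Λ) := by gcongr
      _ ≤ _ := by nlinarith
  have key : ∀ a b Y Z : ℝ, |h * a - d * b| ≤ Y → |b| ≤ Z → |a| ≤ Y + 2 * Λ * Z := by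
    intro a b Y Z e1 e2
    have e3 : |h * a| ≤ |h * a - d * b| + |d * b| := by
      simpa using abs_add_le (h * a - d * b) (d * b)
    rw [abs_mul, abs_mul] at e3
    have e4 : |(d : ℝ)| * |b| ≤ 2 * Λ * Z := by gcongr
    have e5 : |a| ≤ |(h : ℝ)| * |a| := le_mul_of_one_le_left (abs_nonneg _) b0
    linarith
  have b5 : |(v : ℝ)| ≤ 304 * Λ ^ 4 := (key _ _ _ _ (hn.trans k2) b4).trans_eq (by ring)
  have b6 : |(w : ℝ)| ≤ 136 * Λ ^ 3 := (key _ _ _ _ (hp.trans k1) b3).trans_eq (by ring)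
  simp only [all_Crude, mem_product, mem_singleton]
  exact ⟨⟨⟨mem_box_Crude b1, mem_box_Crude b2⟩, trivial⟩,
    ⟨mem_box_Crude b4, mem_box_Crude b5⟩, mem_box_Crude b3, mem_box_Crude b6⟩

theorem crude_stmt (hU : UnfStmt) (hI : InvStmt) (hV : Vol1Stmt) : CrudeStmt := by
  refine ⟨3 ^ 6 * (2 * 2 * 72 * 304 * 32 * 136) * 192, by norm_num, fun μ hμ Λ α H2 H hB => ?_⟩
  have hα := hB.2.1
  have hm : ∀ z : Pr × Pr, MeasurableSet {x | SupA α H2 H z.1 x ∧ SupA α H2 H z.2 x} := fun z =>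
    (measurableSet_SupA α H2 H z.1).inter (measurableSet_SupA α H2 H z.2)
  have e1 : LL μ (SupA α H2 H) =
      ∫⁻ x, ∑' z : Pr × Pr, iE (SupA α H2 H z.1 x ∧ SupA α H2 H z.2 x) ∂μ := by
    refine lintegral_congr fun x => ?_
    rw [ENNReal.tsum_prod (f := fun P P' => iE (SupA α H2 H P x ∧ SupA α H2 H P' x)), sq,
      ← ENNReal.tsum_mul_right]
    refine tsum_congr fun P => ?_
    rw [← ENNReal.tsum_mul_left]
    exact tsum_congr fun P' => (iE_and _ _).symm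
  rw [e1, hU μ hμ (fun z x => iE (SupA α H2 H z.1 x ∧ SupA α H2 H z.2 x))
    (fun z => measurable_iE (hm z))
    (fun z G x hG => iE_congr (and_congr (supA_inv α H2 H z.1 x hG) (supA_inv α H2 H z.2 x hG)))
    (fun z x hx => by
      obtain ⟨h1, -⟩ := iE_ne_zero hx
      exact ⟨h1.1, h1.2.1, by linarith [h1.2.2.2.1]⟩)]
  refine tsum_Orb_le (f := fun z => ∫⁻ x, iE (SupA α H2 H z.1 x ∧ SupA α H2 H z.2 x))
    fun S hS => ?_
  have h1 : ∀ z ∈ S, InvB α H2 H z := fun z hz => by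
    have h2 := (hS z hz).2
    rw [lintegral_iE _ (hm z)] at h2
    obtain ⟨x, hx⟩ := nonempty_of_measure_ne_zero h2
    exact hI α H2 H z x hα hx.1 hx.2
  have h2 : ∀ z ∈ S, ∫⁻ x, iE (SupA α H2 H z.1 x ∧ SupA α H2 H z.2 x) ≤
      ENNReal.ofReal (192 * (α ^ 2 * |H2|)) := fun z hz => by
    rw [lintegral_iE _ (hm z)]
    refine (measure_mono fun x hx => hx.1).trans
      ((hV α H2 H z.1 hα (hS z hz).1.1).trans (ENNReal.ofReal_le_ofReal ?_))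
    have h3 := (h1 z hz).half
    calc 96 * α ^ 2 * (|H2| / |H|) ≤ 96 * α ^ 2 * (|H2| / (1 / 2)) := by gcongr
      _ = _ := by ring
  have h3 : (S.card : ℝ) ≤ 3 ^ 6 * (2 * 2 * 72 * 304 * 32 * 136) * Λ ^ 14 :=
    le_trans (by exact_mod_cast card_le_card fun z hz => mem_all_Crude hB (hS z hz).1 (h1 z hz))
      (card_all_Crude hB.1)
  refine (sum_le_card_nsmul _ _ _ h2).trans ?_
  rw [nsmul_eq_mul, ← ENNReal.ofReal_natCast, ← ENNReal.ofReal_mul (Nat.cast_nonneg _)]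
  refine ENNReal.ofReal_le_ofReal ?_
  calc (S.card : ℝ) * (192 * (α ^ 2 * |H2|))
      ≤ 3 ^ 6 * (2 * 2 * 72 * 304 * 32 * 136) * Λ ^ 14 * (192 * (α ^ 2 * |H2|)) := by gcongr
    _ = _ := by ring

end Pool.Agent.MP_c853c5_nt.W
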