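import Pool.Agent.MP_c853c5_nt.W.Api

/-!
The diagonal terms at the top level.
-/

set_option autoImplicit false

open Finset MeasureTheory
open scoped ENNReal ComplexConjugate

namespace Pool.Agent.MP_c853c5_nt.W

open Pool.Agent.MP_2a1f0e_nt Pool.Agent.MP_2a1f0e_nt.GM Pool.Agent.MP_2a1f0e_nt.DH

open Classical in
noncomputable def iR_Diag (p : Prop) : ℝ := if p then 1 else 0

lemma iR_pos_Diag {p : Prop} (h : p) : iR_Diag p = 1 := if_pos h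

lemma iR_nonneg_Diag (p : Prop) : 0 ≤ iR_Diag p := by
  unfold iR_Diag
  split_ifs <;> norm_num

lemma sum_iR_le_Diag {ι : Type*} (s t : Finset ι) (p : ι → Prop) (h : ∀ i ∈ s, p i → i ∈ t) :
    ∑ i ∈ s, iR_Diag (p i) ≤ t.card := by
  classical
  unfold iR_Diag
  rw [sum_boole, Nat.cast_le]
  exact card_le_card fun i hi => h i (mem_filter.1 hi).1 (mem_filter.1 hi).2

lemma sum_dvd_Diag {X : ℕ} {Δ : ℝ} (h : DivB X Δ) (s : Finset ℕ) {n : ℤ} (h0 : 0 < n)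
    (hn : n ≤ X) : ∑ a ∈ s, iR_Diag ((a : ℤ) ∣ n) ≤ Δ := by
  refine (sum_iR_le_Diag s n.natAbs.divisors _ fun a _ ha => ?_).trans (h.2 _ (by omega))
  exact Nat.mem_divisors.2 ⟨Int.natCast_dvd.1 ha, by omega⟩

lemma sum_le_Diag (M : ℕ) {f y : ℝ} (hf : 0 < f) (hy : 0 < y) :
    ∑ v ∈ Icc (1 : ℤ) M, iR_Diag (f * v ≤ 2 * y) ≤ 2 * y / f := by
  have h0 : 0 ≤ 2 * y / f := by positivity
  refine (sum_iR_le_Diag _ (Icc (1 : ℤ) ⌊2 * y / f⌋) _ fun v hv h => ?_).trans ?_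
  · refine mem_Icc.2 ⟨(mem_Icc.1 hv).1, Int.le_floor.2 ?_⟩
    rw [le_div_iff₀ hf]
    linarith
  · have h1 : (((Icc (1 : ℤ) ⌊2 * y / f⌋).card : ℤ) : ℝ) = (⌊2 * y / f⌋ : ℤ) := by
      rw [Int.card_Icc, add_sub_cancel_right, Int.toNat_of_nonneg (Int.floor_nonneg.2 h0)]
    rw [Int.cast_natCast] at h1
    rw [h1]
    exact Int.floor_le _

lemma inv_ap_Diag {a : ℕ} (ha : 1 ≤ a) (e : ℕ) :
    1 ≤ ap a e ∧ 1 / (ap a e : ℝ) = (Nat.gcd a e : ℝ) / a := by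
  have hg : 0 < Nat.gcd a e := Nat.gcd_pos_of_pos_left _ ha
  refine ⟨Nat.div_pos (Nat.gcd_le_left _ ha) hg, ?_⟩
  rw [ap, Nat.cast_div (Nat.gcd_dvd_left a e) (by positivity), one_div_div]

lemma norm_dlT_Diag {a b : ℕ} (ha : 1 ≤ a) (hb : 1 ≤ b) (e : ℕ) (P : Pr) :
    ‖dlT a b e P‖ ≤ iR_Diag ((a : ℤ) ∣ e * P.1.1) * iR_Diag ((b : ℤ) ∣ e * P.1.2) +
      (Nat.gcd a e : ℝ) / a * ((Nat.gcd b e : ℝ) / b) := by
  have h0 := mul_nonneg (iR_nonneg_Diag ((a : ℤ) ∣ e * P.1.1))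
    (iR_nonneg_Diag ((b : ℤ) ∣ e * P.1.2))
  obtain ⟨a1, a2⟩ := inv_ap_Diag ha e
  obtain ⟨b1, b2⟩ := inv_ap_Diag hb e
  by_cases hc : Nat.Coprime (ap a e) (ap b e)
  swap
  · rw [dlT, iC_neg hc, zero_mul, norm_zero]
    positivity
  rw [dlT, iC_pos hc, one_mul, dl]
  refine norm_sub_le_of_le ?_ ?_
  · by_cases hd : ((ap a e * ap b e : ℕ) : ℤ) ∣ om2 ((ap a e : ℤ), (ap b e : ℤ)) P.1
    swap
    · rw [ind, iC_neg hd, norm_zero]
      exact h0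
    have hc' : IsCoprime (ap a e : ℤ) (ap b e : ℤ) := Nat.isCoprime_iff_coprime.2 hc
    rw [Nat.cast_mul, om2] at hd
    have h1 : (a : ℤ) ∣ e * P.1.1 := by
      rw [dvd_mul_iff_div ha, Nat.gcd_comm]
      exact hc'.dvd_of_dvd_mul_left
        ((dvd_sub_right (dvd_mul_right _ _)).1 ((dvd_mul_right _ _).trans hd))
    have h2 : (b : ℤ) ∣ e * P.1.2 := by
      rw [dvd_mul_iff_div hb, Nat.gcd_comm]
      exact hc'.symm.dvd_of_dvd_mul_left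
        ((dvd_sub_left (dvd_mul_right _ _)).1 ((dvd_mul_left _ _).trans hd))
    rw [iR_pos_Diag h1, iR_pos_Diag h2, one_mul]
    exact norm_ind_le _ _
  · have h1 := le_psiD (ap a e * ap b e)
    have h2 : (0 : ℝ) < (ap a e * ap b e : ℕ) := by positivity
    rw [Complex.norm_real, Real.norm_of_nonneg (one_div_nonneg.2 (h2.le.trans h1)), ← a2, ← b2,
      one_div_mul_one_div, ← Nat.cast_mul]
    exact one_div_le_one_div_of_le h2 h1

lemma norm_Gw_Diag {C : ℝ} (hC : ∀ s, ‖wh s‖ ≤ C) {N a : ℕ} (b e : ℕ) {f : ℕ} (T : ℝ) {y : ℝ}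
    (hy : 0 < y) (hN : 1 ≤ N) (ha : a ∈ Icc N (2 * N)) {v : V} (hv : 1 ≤ v.1) :
    ‖Gw T y a b e f (v, v)‖ ≤ C * (iR_Diag (e ≤ 4 * N * f) *
      (iR_Diag ((f : ℝ) * v.1 ≤ 2 * y) * iR_Diag ((f : ℝ) * v.2 ≤ 2 * y))) := by
  have hC0 : 0 ≤ C := (norm_nonneg _).trans (hC 0)
  by_cases h : Gw T y a b e f (v, v) = 0
  · rw [h, norm_zero]
    exact mul_nonneg hC0 (mul_nonneg (iR_nonneg_Diag _)
      (mul_nonneg (iR_nonneg_Diag _) (iR_nonneg_Diag _)))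
  have h1 := Complex.ofReal_ne_zero.1 (left_ne_zero_of_mul h)
  simp only [mul_ne_zero_iff] at h1
  obtain ⟨⟨⟨h1, -⟩, h3⟩, h4⟩ := h1
  obtain ⟨a1, a2⟩ := mem_Icc.1 ha
  have a3 : (0 : ℝ) < a := by exact_mod_cast hN.trans a1
  have a4 : (a : ℝ) ≤ 2 * N := by exact_mod_cast a2
  have v1 : (1 : ℝ) ≤ v.1 := by exact_mod_cast hv
  have k1 := (div_lt_iff₀ (by positivity)).1 (om_mem h1).2
  have k2 := (lt_div_iff₀ hy).1 (om_mem h3).1
  have k3 := (div_lt_iff₀ hy).1 (om_mem h3).2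
  have k4 := (div_lt_iff₀ hy).1 (om_mem h4).2
  have k5 : e ≤ 4 * N * f := by
    have hN' : (0 : ℝ) ≤ N := Nat.cast_nonneg N
    have k6 : (e : ℝ) * v.1 ≤ 4 * N * f * v.1 := by
      have k7 := mul_le_mul_of_nonneg_right a4 hy.le
      have k8 := mul_le_mul_of_nonneg_left k2.le hN'
      have k9 := mul_nonneg hN' hy.le
      nlinarith
    exact_mod_cast le_of_mul_le_mul_right k6 (by linarith)
  rw [iR_pos_Diag k5, iR_pos_Diag (by linarith), iR_pos_Diag (by linarith), Gw, norm_mul]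
  simp only [mul_one]
  refine (mul_le_of_le_one_left (norm_nonneg _) ?_).trans (hC _)
  push_cast
  simp only [norm_mul]
  exact mul_le_one₀ (mul_le_one₀ (mul_le_one₀ (norm_om_le _) (norm_nonneg _) (norm_om_le _))
    (norm_nonneg _) (norm_om_le _)) (norm_nonneg _) (norm_om_le _)

lemma norm_TS_Diag (T y : ℝ) (a b e f M : ℕ) :
    ‖TS T y a b e f M fun P => iC (hh P = 0) * dlT a b e P‖ ≤
      ∑ v ∈ Icc (1 : ℤ) M ×ˢ Icc (1 : ℤ) M, ‖Gw T y a b e f (v, v)‖ * ‖dlT a b e (v, v)‖ := by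
  set B := Icc (1 : ℤ) M ×ˢ Icc (1 : ℤ) M with hB
  calc _ ≤ ∑ P ∈ Bx M,
        if P.1 = P.2 then ‖Gw T y a b e f (P.1, P.1)‖ * ‖dlT a b e (P.1, P.1)‖ else 0 := by
        refine norm_sum_le_of_le _ fun P hP => ?_
        obtain ⟨hP, p1, p2⟩ := mem_filter.1 hP
        dsimp only
        by_cases h : hh P = 0
        · have h1 : P.2 = P.1 := by
            refine (prim_par p1 p2 h).resolve_right fun h2 => ?_
            have h3 := (mem_Icc.1 (mem_product.1 (mem_product.1 hP).1).1).1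
            have h4 := (mem_Icc.1 (mem_product.1 (mem_product.1 hP).2).1).1
            rw [h2, Prod.fst_neg] at h4
            omega
          have h2 : (P.1, P.1) = P := Prod.ext rfl h1.symm
          rw [if_pos h1.symm, iC_pos h, one_mul, norm_mul, h2]
        · rw [iC_neg h, zero_mul, mul_zero, norm_zero]
          positivity
    _ ≤ ∑ P ∈ B ×ˢ B,
        if P.1 = P.2 then ‖Gw T y a b e f (P.1, P.1)‖ * ‖dlT a b e (P.1, P.1)‖ else 0 :=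
        sum_le_sum_of_subset_of_nonneg (filter_subset _ _) fun _ _ _ => by positivity
    _ = _ := by
        rw [sum_product]
        exact sum_congr rfl fun v hv => by simp only [sum_ite_eq, if_pos hv]

theorem diag_stmt (hG : GcdStmt) (hW : WhStmt) : DiagStmt := by
  intro ε hε
  obtain ⟨C, hC, hw⟩ := hW.2.2 0
  simp only [pow_zero, div_one] at hw
  obtain ⟨C', hC', hD⟩ := exD 4 3 400 hε
  refine ⟨160 * C * C', by positivity, fun T y N M ⟨hT, hy, _, hN, _, _, hM⟩ => ?_⟩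
  obtain ⟨X, Δ, hΔ, hX, hΔ'⟩ := hD T hT
  have hΔ0 : 0 ≤ Δ := zero_le_one.trans hΔ.1
  have hMX : M * M ≤ X := by
    have h1 : (M : ℝ) * M ≤ 20 * T ^ 2 * (20 * T ^ 2) :=
      mul_le_mul hM hM (Nat.cast_nonneg M) (by positivity)
    have h2 : (M : ℝ) * M ≤ X := by linarith
    exact_mod_cast h2
  have hMX' : M ≤ X := (Nat.le_mul_self M).trans hMX
  set B := Icc (1 : ℤ) M ×ˢ Icc (1 : ℤ) M with hB
  set I := Icc N (2 * N) with hI
  let χ : ℕ → ℕ → V → ℝ := fun e f v => C * (iR_Diag (e ≤ 4 * N * f) *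
    (iR_Diag ((f : ℝ) * v.1 ≤ 2 * y) * iR_Diag ((f : ℝ) * v.2 ≤ 2 * y)))
  have hχ : ∀ e f v, 0 ≤ χ e f v := fun e f v => mul_nonneg hC.le (mul_nonneg (iR_nonneg_Diag _)
    (mul_nonneg (iR_nonneg_Diag _) (iR_nonneg_Diag _)))
  have h1 : ∀ e ∈ Icc 1 M, ∀ v ∈ B, ∑ a ∈ I, ∑ b ∈ I, ‖dlT a b e (v, v)‖ ≤ 5 * Δ ^ 2 := by
    intro e he v hv
    obtain ⟨e1, e2⟩ := mem_Icc.1 he
    have hd : ∀ w ∈ Icc (1 : ℤ) M, ∑ a ∈ I, iR_Diag ((a : ℤ) ∣ e * w) ≤ Δ := by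
      intro w hw
      obtain ⟨w1, w2⟩ := mem_Icc.1 hw
      refine sum_dvd_Diag hΔ I (by positivity) ?_
      calc (e : ℤ) * w ≤ M * M := by gcongr
        _ ≤ X := by exact_mod_cast hMX
    have hg : ∑ a ∈ I, (Nat.gcd a e : ℝ) / a ≤ 2 * Δ :=
      (hG.2.2.1 e N e1 hN).trans (by linarith [hΔ.2 e (e2.trans hMX')])
    have hg0 : 0 ≤ ∑ a ∈ I, (Nat.gcd a e : ℝ) / a := sum_nonneg fun _ _ => by positivity
    calc _ ≤ ∑ a ∈ I, ∑ b ∈ I, (iR_Diag ((a : ℤ) ∣ e * v.1) * iR_Diag ((b : ℤ) ∣ e * v.2) +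
          (Nat.gcd a e : ℝ) / a * ((Nat.gcd b e : ℝ) / b)) :=
          sum_le_sum fun a ha => sum_le_sum fun b hb =>
            norm_dlT_Diag (hN.trans (mem_Icc.1 ha).1) (hN.trans (mem_Icc.1 hb).1) e (v, v)
      _ = (∑ a ∈ I, iR_Diag ((a : ℤ) ∣ e * v.1)) * (∑ b ∈ I, iR_Diag ((b : ℤ) ∣ e * v.2)) +
          (∑ a ∈ I, (Nat.gcd a e : ℝ) / a) * ∑ b ∈ I, (Nat.gcd b e : ℝ) / b := by
          simp only [sum_add_distrib, sum_mul_sum]
      _ ≤ Δ * Δ + 2 * Δ * (2 * Δ) :=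
          add_le_add (mul_le_mul (hd _ (mem_product.1 hv).1) (hd _ (mem_product.1 hv).2)
            (sum_nonneg fun _ _ => iR_nonneg_Diag _) hΔ0) (mul_le_mul hg hg hg0 (by positivity))
      _ = _ := by ring
  have h2 : ∀ f ∈ Icc 1 M, ∑ e ∈ Icc 1 M, ∑ v ∈ B, χ e f v ≤ 16 * C * (N * y ^ 2) * (1 / f) := by
    intro f hf
    have f1 : (0 : ℝ) < f := by exact_mod_cast (mem_Icc.1 hf).1
    have k1 := sum_le_Diag M f1 hy
    have k0 : 0 ≤ ∑ v ∈ Icc (1 : ℤ) M, iR_Diag ((f : ℝ) * v ≤ 2 * y) :=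
      sum_nonneg fun _ _ => iR_nonneg_Diag _
    have k2 : ∑ e ∈ Icc 1 M, iR_Diag (e ≤ 4 * N * f) ≤ 4 * N * f := by
      refine (sum_iR_le_Diag _ (Icc 1 (4 * N * f)) _ fun e he h =>
        mem_Icc.2 ⟨(mem_Icc.1 he).1, h⟩).trans ?_
      simp
    calc _ = C * ((∑ e ∈ Icc 1 M, iR_Diag (e ≤ 4 * N * f)) *
          ((∑ v ∈ Icc (1 : ℤ) M, iR_Diag ((f : ℝ) * v ≤ 2 * y)) *
            ∑ v ∈ Icc (1 : ℤ) M, iR_Diag ((f : ℝ) * v ≤ 2 * y))) := by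
          rw [sum_mul_sum (Icc (1 : ℤ) M), sum_mul]
          simp only [hB, sum_product, mul_sum, χ]
      _ ≤ C * (4 * N * f * (2 * y / f * (2 * y / f))) := by gcongr
      _ = _ := by field_simp; ring
  calc _ ≤ ∑ a ∈ I, ∑ b ∈ I, ∑ e ∈ Icc 1 M, ∑ f ∈ Icc 1 M, ∑ v ∈ B,
        χ e f v * ‖dlT a b e (v, v)‖ := by
        refine sum_le_sum fun a ha => sum_le_sum fun b _ => sum_le_sum fun e _ =>
          sum_le_sum fun f _ => (norm_TS_Diag T y a b e f M).trans (sum_le_sum fun v hv => ?_)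
        exact mul_le_mul_of_nonneg_right
          (norm_Gw_Diag hw b e T hy hN ha (mem_Icc.1 (mem_product.1 hv).1).1) (norm_nonneg _)
    _ = ∑ f ∈ Icc 1 M, ∑ e ∈ Icc 1 M, ∑ v ∈ B,
        χ e f v * ∑ a ∈ I, ∑ b ∈ I, ‖dlT a b e (v, v)‖ := by
        simp only [mul_sum]
        rw [sum_comm (s := Icc 1 M) (t := Icc 1 M)]
        simp only [sum_comm (s := I) (t := Icc 1 M), sum_comm (s := I) (t := B)]
    _ ≤ ∑ f ∈ Icc 1 M, (∑ e ∈ Icc 1 M, ∑ v ∈ B, χ e f v) * (5 * Δ ^ 2) := by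
        simp only [sum_mul]
        exact sum_le_sum fun f _ => sum_le_sum fun e he => sum_le_sum fun v hv =>
          mul_le_mul_of_nonneg_left (h1 e he v hv) (hχ e f v)
    _ ≤ ∑ f ∈ Icc 1 M, 16 * C * (N * y ^ 2) * (1 / f) * (5 * Δ ^ 2) :=
        sum_le_sum fun f hf => mul_le_mul_of_nonneg_right (h2 f hf) (by positivity)
    _ = 16 * C * (N * y ^ 2) * (∑ f ∈ Icc 1 M, 1 / (f : ℝ)) * (5 * Δ ^ 2) := by
        rw [mul_sum, sum_mul]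
    _ ≤ 16 * C * (N * y ^ 2) * (2 * Δ) * (5 * Δ ^ 2) := by
        have := harm_le hΔ hMX'
        gcongr
    _ = 160 * C * Δ ^ 3 * (N * y ^ 2) := by ring
    _ ≤ 160 * C * (C' * T ^ ε) * (N * y ^ 2) := by gcongr
    _ = _ := by ring

end Pool.Agent.MP_c853c5_nt.W
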