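import Pool.Agent.MP_c853c5_nt.W.Api

set_option autoImplicit false

open Finset MeasureTheory
open scoped ENNReal ComplexConjugate

namespace Pool.Agent.MP_c853c5_nt.W

open Pool.Agent.MP_2a1f0e_nt Pool.Agent.MP_2a1f0e_nt.GM Pool.Agent.MP_2a1f0e_nt.DH

lemma int_Disc {g : ℝ → ℝ} (hg : Measurable g) {B : ℝ} (hB : ∀ u, |g u| ≤ B) (t : ℝ) :
    Integrable fun u => kp (u - t) * g u :=
  (integrable_kp.comp_sub_right t).mul_bdd (c := B) hg.aestronglyMeasurable
    (Filter.Eventually.of_forall hB)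

lemma cs_Disc {g : ℝ → ℝ} (hg : Measurable g) {B : ℝ} (hB : ∀ u, |g u| ≤ B) (t : ℝ) :
    (∫ u, kp (u - t) * g u) ^ 2 ≤ Real.pi * ∫ u, kp (u - t) * g u ^ 2 := by
  have h1 := int_Disc hg hB t
  have h2 := int_Disc (hg.pow_const 2) (B := B ^ 2) (fun u => by
    rw [abs_pow]; exact pow_le_pow_left₀ (abs_nonneg _) (hB u) 2) t
  have h3 : Integrable fun u => kp (u - t) := integrable_kp.comp_sub_right t
  have h4 : ∫ u, kp (u - t) = Real.pi := by rw [integral_sub_right_eq_self, integral_kp]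
  set I := ∫ u, kp (u - t) * g u with hI
  have h5 := integral_mono (h1.const_mul (2 * (I / Real.pi)))
    (h2.add (h3.const_mul ((I / Real.pi) ^ 2))) fun u => by
      have := mul_nonneg (kp_pos (u - t)).le (sq_nonneg (g u - I / Real.pi))
      simp only [Pi.add_apply]
      nlinarith
  simp only [Pi.add_apply] at h5
  rw [integral_add h2 (h3.const_mul _), integral_const_mul, integral_const_mul, h4, ← hI] at h5
  have hp := Real.pi_pos
  have e : Real.pi * (2 * (I / Real.pi) * I - (I / Real.pi) ^ 2 * Real.pi) = I ^ 2 := by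
    field_simp
    ring
  rw [← e]
  exact mul_le_mul_of_nonneg_left (by linarith) hp.le

lemma card_Disc {T : ℝ} (hT : 2 ≤ T) {S : Finset ℝ} (h1 : ∀ t ∈ S, T ≤ t ∧ t ≤ 2 * T)
    (h2 : ∀ s ∈ S, ∀ t ∈ S, s ≠ t → 1 ≤ |s - t|) : (S.card : ℝ) ≤ 10 * T := by
  have h := sum_kp_sep S (fun t => t) h2 T (L := T) (by linarith)
  have h3 := card_nsmul_le_sum S (fun t => kp ((t - T) / T)) (1 / 2) fun t ht => by
    have h4 : (t - T) / T ≤ 1 := by
      rw [div_le_one (by linarith)]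
      linarith [(h1 t ht).2]
    have h5 : 0 ≤ (t - T) / T := div_nonneg (by linarith [(h1 t ht).1]) (by linarith)
    exact one_div_le_one_div_of_le (by positivity) (by nlinarith)
  rw [nsmul_eq_mul] at h3
  linarith

/-- from a reproducing inequality to a bound on well spaced points -/
lemma abs_Disc {G : ℝ → ℝ} (hG : Continuous G) {B C T : ℝ} (h0 : ∀ u, 0 ≤ G u)
    (hB : ∀ u, G u ≤ B) (hT : 2 ≤ T)
    (hr : ∀ t, G t ≤ C * ∫ u, kp (u - t) * (G u / (1 + |u - t|) ^ 2)) {S : Finset ℝ}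
    (h1 : ∀ t ∈ S, T ≤ t ∧ t ≤ 2 * T) (h2 : ∀ s ∈ S, ∀ t ∈ S, s ≠ t → 1 ≤ |s - t|) :
    ∑ t ∈ S, G t ^ 2 ≤ C ^ 2 * Real.pi *
      (6 * (∫ u in (T / 2)..(4 * T), G u ^ 2) + 160 * Real.pi * (B ^ 2 / T ^ 3)) := by
  set H : ℝ → ℝ := (Set.Ioc (T / 2) (4 * T)).indicator fun u => G u ^ 2 with hH
  have hB0 : 0 ≤ B := (h0 0).trans (hB 0)
  have hG2 : ∀ u, G u ^ 2 ≤ B ^ 2 := fun u => pow_le_pow_left₀ (h0 u) (hB u) 2
  have hH0 : ∀ u, 0 ≤ H u := fun u => Set.indicator_nonneg (fun _ _ => sq_nonneg _) u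
  have hHm : Measurable H := (hG.measurable.pow_const 2).indicator measurableSet_Ioc
  have hHb : ∀ u, |H u| ≤ B ^ 2 := fun u => by
    rw [abs_of_nonneg (hH0 u)]
    exact (Set.indicator_le_self' (fun _ _ => sq_nonneg _) u).trans (hG2 u)
  have hHi : Integrable H := (integrable_indicator_iff measurableSet_Ioc).2
    ((hG.pow 2).integrableOn_Icc.mono_set Set.Ioc_subset_Icc_self)
  have hp := Real.pi_pos
  have hT0 : 0 < T := by linarith
  have key : ∀ t ∈ S, G t ^ 2 ≤ C ^ 2 * Real.pi *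
      ((∫ u, kp (u - t) * H u) + Real.pi * (16 * B ^ 2 / T ^ 4)) := fun t ht => by
    have hm : Measurable fun u => G u / (1 + |u - t|) ^ 2 := by fun_prop
    have hle : ∀ u, G u / (1 + |u - t|) ^ 2 ≤ G u := fun u =>
      div_le_self (h0 u) (one_le_pow₀ (by linarith [abs_nonneg (u - t)]))
    have hb : ∀ u, |G u / (1 + |u - t|) ^ 2| ≤ B := fun u => by
      rw [abs_of_nonneg (div_nonneg (h0 u) (sq_nonneg _))]
      exact (hle u).trans (hB u)
    have h3 := cs_Disc hm hb t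
    have h4 : ∫ u, kp (u - t) * (G u / (1 + |u - t|) ^ 2) ^ 2 ≤
        (∫ u, kp (u - t) * H u) + Real.pi * (16 * B ^ 2 / T ^ 4) := by
      have h5 : Integrable fun u => kp (u - t) := integrable_kp.comp_sub_right t
      have h6 : ∫ u, kp (u - t) = Real.pi := by rw [integral_sub_right_eq_self, integral_kp]
      rw [← h6, ← integral_mul_const, ← integral_add (int_Disc hHm hHb t) (h5.mul_const _)]
      refine integral_mono (int_Disc (hm.pow_const 2) (B := B ^ 2) (fun u => by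
        rw [abs_pow]; exact pow_le_pow_left₀ (abs_nonneg _) (hb u) 2) t)
        ((int_Disc hHm hHb t).add (h5.mul_const _)) fun u => ?_
      beta_reduce
      rw [← mul_add]
      refine mul_le_mul_of_nonneg_left ?_ (kp_pos _).le
      by_cases hu : u ∈ Set.Ioc (T / 2) (4 * T)
      · rw [hH, Set.indicator_of_mem hu]
        exact le_add_of_le_of_nonneg
          (pow_le_pow_left₀ (div_nonneg (h0 u) (sq_nonneg _)) (hle u) 2) (by positivity)
      · have h7 : T / 2 ≤ 1 + |u - t| := by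
          rw [Set.mem_Ioc, not_and_or, not_lt, not_le] at hu
          rcases hu with hu | hu
          · linarith [neg_abs_le (u - t), (h1 t ht).1]
          · linarith [le_abs_self (u - t), (h1 t ht).2]
        refine le_add_of_nonneg_of_le (hH0 u) ?_
        rw [div_pow, show 16 * B ^ 2 / T ^ 4 = B ^ 2 / ((T / 2) ^ 2) ^ 2 by field_simp; ring]
        have h8 := hG2 u
        gcongr
    calc G t ^ 2 ≤ (C * ∫ u, kp (u - t) * (G u / (1 + |u - t|) ^ 2)) ^ 2 :=
          pow_le_pow_left₀ (h0 t) (hr t) 2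
      _ ≤ _ := by
          rw [mul_pow, mul_assoc]
          exact mul_le_mul_of_nonneg_left
            (h3.trans (mul_le_mul_of_nonneg_left h4 hp.le)) (sq_nonneg _)
  refine (sum_le_sum key).trans ?_
  rw [← mul_sum, sum_add_distrib, sum_const, nsmul_eq_mul]
  refine mul_le_mul_of_nonneg_left (add_le_add ?_ ?_) (by positivity)
  · rw [← integral_finsetSum _ fun t _ => int_Disc hHm hHb t,
      intervalIntegral.integral_of_le (by linarith), ← integral_indicator measurableSet_Ioc,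
      ← integral_const_mul]
    refine integral_mono (integrable_finsetSum _ fun t _ => int_Disc hHm hHb t)
      (hHi.const_mul 6) fun u => ?_
    beta_reduce
    rw [← sum_mul]
    refine mul_le_mul_of_nonneg_right ?_ (hH0 u)
    have h8 := sum_kp_sep S (fun t => t) h2 u (L := 1) one_pos
    refine le_trans (le_of_eq (sum_congr rfl fun t _ => ?_)) (h8.trans (by norm_num))
    rw [div_one, ← kp_neg, neg_sub]
  · refine (mul_le_mul_of_nonneg_right (card_Disc hT h1 h2) (by positivity)).trans_eq ?_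
    field_simp
    ring

noncomputable def bp_Disc : ContDiffBump (15 / 4 : ℝ) := ⟨11 / 4, 13 / 4, by norm_num, by norm_num⟩

/-- the reproducing inequality for polynomials with frequencies in `[X, 6 X]` -/
lemma rep_Disc (hM : MelAStmt) : ∃ C : ℝ, 0 < C ∧ ∀ {ι : Type} (J : Finset ι) (c : ι → ℂ)
    (x : ι → ℝ) (X : ℝ) (F : ℝ → ℂ), 0 < X → (∀ i ∈ J, 0 < x i) →
    (∀ i ∈ J, c i ≠ 0 → 1 ≤ x i / X ∧ x i / X ≤ 6) → (∀ t, F t = ∑ i ∈ J, c i * pw (x i) t) →
    ∀ t, ‖F t‖ ≤ C * ∫ u, kp (u - t) * (‖F u‖ / (1 + |u - t|) ^ 2) := by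
  obtain ⟨C, hC, φ, hφ, hb, he⟩ := hM bp_Disc (1 / 2) 7 (by norm_num) bp_Disc.contDiff
    (fun x hx => bp_Disc.zero_of_le_dist (by
      change (13 / 4 : ℝ) ≤ _
      rw [Real.dist_eq]
      rcases hx with hx | hx
      · linarith [neg_abs_le (x - 15 / 4)]
      · linarith [le_abs_self (x - 15 / 4)])) 4
  have hb' : ∀ ξ, ‖φ ξ‖ ≤ C * (kp ξ / (1 + |ξ|) ^ 2) := fun ξ => by
    refine (hb ξ).trans ?_
    rw [kp, div_div, mul_one_div]
    refine div_le_div_of_nonneg_left hC.le (by positivity) ?_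
    have h1 : 1 + ξ ^ 2 ≤ (1 + |ξ|) ^ 2 := by nlinarith [abs_nonneg ξ, sq_abs ξ]
    calc (1 + ξ ^ 2) * (1 + |ξ|) ^ 2 ≤ (1 + |ξ|) ^ 2 * (1 + |ξ|) ^ 2 := by gcongr
      _ = _ := by ring
  have hφi : Integrable φ := (integrable_kp.const_mul C).mono' hφ.aestronglyMeasurable
    (Filter.Eventually.of_forall fun ξ => (hb' ξ).trans (mul_le_mul_of_nonneg_left
      (div_le_self (kp_pos ξ).le (one_le_pow₀ (by linarith [abs_nonneg ξ]))) hC.le))
  refine ⟨C, hC, fun J c x X F hX hx hc hF t => ?_⟩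
  have hFc : Continuous F := by
    rw [funext hF]
    exact continuous_finsetSum _ fun i _ => continuous_const.mul (continuous_pw _)
  have hFb : ∀ u, ‖F u‖ ≤ ∑ i ∈ J, ‖c i‖ := fun u => by
    rw [hF]
    refine (norm_sum_le _ _).trans_eq (sum_congr rfl fun i _ => ?_)
    rw [norm_mul, norm_pw, mul_one]
  have key : F t = ∫ ξ, φ ξ * (pw X (-ξ) * F (ξ + t)) := by
    simp only [hF, mul_sum]
    have hcc : ∀ i, Continuous fun ξ : ℝ => pw X (-ξ) * (c i * pw (x i) (ξ + t)) := fun i =>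
      ((continuous_pw X).comp continuous_neg).mul (continuous_const.mul
        ((continuous_pw _).comp (continuous_id.add continuous_const)))
    rw [integral_finsetSum _ fun i _ => hφi.mul_bdd (c := ‖c i‖) (hcc i).aestronglyMeasurable
      (Filter.Eventually.of_forall fun ξ => by
        rw [norm_mul, norm_mul, norm_pw, norm_pw, one_mul, mul_one])]
    refine sum_congr rfl fun i hi => ?_
    have e : ∀ ξ : ℝ, φ ξ * (pw X (-ξ) * (c i * pw (x i) (ξ + t))) =
        φ ξ * pw (x i / X) ξ * (c i * pw (x i) t) := fun ξ => by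
      rw [pw_div (hx i hi).ne' hX.ne', pw_add]
      ring
    simp only [e]
    rw [integral_mul_const, ← he _ (div_pos (hx i hi) hX)]
    by_cases h0 : c i = 0
    · rw [h0, zero_mul, mul_zero]
    · rw [bp_Disc.one_of_mem_closedBall, Complex.ofReal_one, one_mul]
      rw [Metric.mem_closedBall, Real.dist_eq, abs_le]
      change -(11 / 4 : ℝ) ≤ _ ∧ _ ≤ (11 / 4 : ℝ)
      constructor <;> linarith [(hc i hi h0).1, (hc i hi h0).2]
  have hi := int_Disc (g := fun u => ‖F u‖ / (1 + |u - t|) ^ 2) (by fun_prop) (fun u => by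
    rw [abs_of_nonneg (by positivity)]
    exact (div_le_self (norm_nonneg _) (one_le_pow₀ (by linarith [abs_nonneg (u - t)]))).trans
      (hFb u)) t
  rw [key, ← integral_const_mul, ← integral_add_right_eq_self
    (fun u => C * (kp (u - t) * (‖F u‖ / (1 + |u - t|) ^ 2))) t]
  refine norm_integral_le_of_norm_le ((hi.const_mul C).comp_add_right t)
    (Filter.Eventually.of_forall fun ξ => ?_)
  rw [norm_mul, norm_mul, norm_pw, one_mul, add_sub_cancel_right]
  refine (mul_le_mul_of_nonneg_right (hb' ξ) (norm_nonneg _)).trans_eq ?_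
  ring

lemma normZo_Disc {y : ℝ} (hy : 0 < y) (t : ℝ) : ‖Zo y t‖ ≤ 2 * y :=
  (norm_PP_le (L := ⌊2 * y⌋₊) (c := fun n => (om ((n : ℝ) / y) : ℂ)) (B := 1)
    (fun _ _ => norm_om_le _) t).trans (by rw [mul_one]; exact Nat.floor_le (by positivity))

lemma cmp_Disc {T T' y ε : ℝ} (n : ℝ) (hT : 0 < T) (hε : 0 < ε) (h1 : T / 2 ≤ T')
    (h2 : T' ≤ 2 * T) {z : ℝ} (hz : 0 ≤ z) :
    T' ^ ε * ((T' + √T' * n ^ 2) * z * (1 + y ^ 2 / T') ^ 2) ≤
      8 * 2 ^ ε * (T ^ ε * ((T + √T * n ^ 2) * z * (1 + y ^ 2 / T) ^ 2)) := by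
  have h0 : 0 < T' := by linarith
  have a1 : T' ^ ε ≤ 2 ^ ε * T ^ ε := by
    rw [← Real.mul_rpow zero_le_two hT.le]
    exact Real.rpow_le_rpow h0.le h2 hε.le
  have a2 : √T' ≤ 2 * √T := by
    rw [Real.sqrt_le_left (by positivity), mul_pow, Real.sq_sqrt hT.le]
    linarith
  have a3 : T' + √T' * n ^ 2 ≤ 2 * (T + √T * n ^ 2) := by nlinarith [sq_nonneg n]
  have a4 : 1 + y ^ 2 / T' ≤ 2 * (1 + y ^ 2 / T) := by
    have : y ^ 2 / T' ≤ y ^ 2 / (T / 2) := by gcongr
    rw [div_div_eq_mul_div, mul_div_right_comm] at this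
    linarith
  calc _ ≤ (2 ^ ε * T ^ ε) * ((2 * (T + √T * n ^ 2)) * z * (2 * (1 + y ^ 2 / T)) ^ 2) := by
        gcongr
    _ = _ := by ring

theorem disc_stmt (hM : MelAStmt) : DiscStmt := by
  intro hW ε hε
  obtain ⟨C, hC, hr⟩ := rep_Disc hM
  obtain ⟨K, hK, hI⟩ := hW ε hε
  have hp := Real.pi_pos
  refine ⟨C ^ 2 * Real.pi * (6 * (3 * (K * (8 * 2 ^ ε))) + 160 * Real.pi * 64), by positivity,
    fun N T y α S hT hy hyT hN hNT hα h1 h2 => ?_⟩
  have hT0 : 0 < T := by linarith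
  have hN' : (1 : ℝ) ≤ N := by exact_mod_cast hN
  have hF : ∀ t, Zo y t ^ 2 * DP N α t =
      ∑ i ∈ (Icc 1 ⌊2 * y⌋₊ ×ˢ Icc 1 ⌊2 * y⌋₊) ×ˢ Icc N (2 * N),
        ((om ((i.1.1 : ℝ) / y) : ℂ) * (om ((i.1.2 : ℝ) / y) : ℂ) * α i.2) *
          pw ((i.1.1 : ℝ) * i.1.2 * i.2) t := fun t => by
    rw [sq, Zo, DP, sum_mul_sum, ← sum_product', sum_mul_sum, ← sum_product']
    refine sum_congr rfl fun i hi => ?_
    simp only [mem_product, mem_Icc] at hi
    have a1 : (i.1.1 : ℝ) ≠ 0 := Nat.cast_ne_zero.2 (by omega)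
    have a2 : (i.1.2 : ℝ) ≠ 0 := Nat.cast_ne_zero.2 (by omega)
    have a3 : (i.2 : ℝ) ≠ 0 := Nat.cast_ne_zero.2 (by omega)
    rw [pw_mul (mul_ne_zero a1 a2) a3, pw_mul a1 a2]
    ring
  have hrep := hr _ _ _ (y ^ 2 * N) (fun t => Zo y t ^ 2 * DP N α t) (by positivity)
    (fun i hi => by
      simp only [mem_product, mem_Icc] at hi
      have a1 : (0 : ℝ) < i.1.1 := Nat.cast_pos.2 (by omega)
      have a2 : (0 : ℝ) < i.1.2 := Nat.cast_pos.2 (by omega)
      have a3 : (0 : ℝ) < i.2 := Nat.cast_pos.2 (by omega)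
      positivity)
    (fun i hi hc => by
      simp only [mem_product, mem_Icc] at hi
      simp only [mul_ne_zero_iff, Complex.ofReal_ne_zero] at hc
      obtain ⟨a1, a2⟩ := om_mem hc.1.1
      obtain ⟨b1, b2⟩ := om_mem hc.1.2
      have c1 : 1 ≤ (i.2 : ℝ) / N := (one_le_div (by linarith)).2 (by exact_mod_cast hi.2.1)
      have c2 : (i.2 : ℝ) / N ≤ 2 := (div_le_iff₀ (by linarith)).2 (by exact_mod_cast hi.2.2)
      rw [show (i.1.1 : ℝ) * i.1.2 * i.2 / (y ^ 2 * N) = i.1.1 / y * (i.1.2 / y) * (i.2 / N) by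
        field_simp]
      constructor
      · exact one_le_mul_of_one_le_of_one_le (one_le_mul_of_one_le_of_one_le a1.le b1.le) c1
      · calc _ ≤ (5 / 3 : ℝ) * (5 / 3) * 2 := by gcongr
          _ ≤ 6 := by norm_num) hF
  have hc : Continuous fun t => ‖Zo y t ^ 2 * DP N α t‖ := by
    rw [show (fun t => ‖Zo y t ^ 2 * DP N α t‖) = _ from funext fun t => congrArg _ (hF t)]
    exact (continuous_finsetSum _ fun i _ => continuous_const.mul (continuous_pw _)).norm
  have hB : ∀ t, ‖Zo y t ^ 2 * DP N α t‖ ≤ 8 * (y ^ 2 * N) := fun t => by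
    rw [norm_mul, norm_pow]
    calc _ ≤ (2 * y) ^ 2 * (N + N) := by
          gcongr
          · exact normZo_Disc hy t
          · exact (norm_DP_le N α hα t).trans (by linarith)
      _ = _ := by ring
  have e : ∀ t, ‖Zo y t ^ 2 * DP N α t‖ ^ 2 = ‖Zo y t‖ ^ 4 * ‖DP N α t‖ ^ 2 := fun t => by
    rw [norm_mul, norm_pow]
    ring
  have h3 := abs_Disc hc (fun _ => norm_nonneg _) hB hT hrep h1 h2
  have hc2 : Continuous fun t => ‖Zo y t‖ ^ 4 * ‖DP N α t‖ ^ 2 := by
    rw [← funext e]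
    exact hc.pow 2
  simp only [e] at h3
  set R := T ^ ε * ((T + √T * (N : ℝ) ^ 2) * (y ^ 2 * N) * (1 + y ^ 2 / T) ^ 2) with hR
  have h4 : ∀ T', T / 2 ≤ T' → T' ≤ 2 * T →
      ∫ t in T'..(2 * T'), ‖Zo y t‖ ^ 4 * ‖DP N α t‖ ^ 2 ≤ K * (8 * 2 ^ ε) * R := fun T' a b => by
    refine (hI N T' y α (by linarith) hy (by linarith) hN (by linarith) hα).trans ?_
    rw [mul_assoc K, mul_assoc K]
    exact mul_le_mul_of_nonneg_left (cmp_Disc N hT0 hε a b (z := y ^ 2 * N) (by positivity)) hK.le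
  have h5 : ∫ t in (T / 2)..(4 * T), ‖Zo y t‖ ^ 4 * ‖DP N α t‖ ^ 2 ≤
      3 * (K * (8 * 2 ^ ε)) * R := by
    have a1 := h4 (T / 2) le_rfl (by linarith)
    have a2 := h4 T (by linarith) (by linarith)
    have a3 := h4 (2 * T) (by linarith) le_rfl
    rw [show 2 * (T / 2) = T by ring] at a1
    rw [show 2 * (2 * T) = 4 * T by ring] at a3
    rw [← intervalIntegral.integral_add_adjacent_intervals (b := T) (hc2.intervalIntegrable _ _)
      (hc2.intervalIntegrable _ _), ← intervalIntegral.integral_add_adjacent_intervals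
      (a := T) (b := 2 * T) (hc2.intervalIntegrable _ _) (hc2.intervalIntegrable _ _)]
    linarith
  have h6 : (8 * (y ^ 2 * N)) ^ 2 / T ^ 3 ≤ 64 * R := by
    have a1 : y ^ 2 * N ≤ T ^ 3 := by
      calc y ^ 2 * N ≤ T ^ 2 * T := by gcongr
        _ = _ := by ring
    have a2 : y ^ 2 * N ≤ R := by
      calc y ^ 2 * N = 1 * (1 * (y ^ 2 * N) * 1) := by ring
        _ ≤ R := by
          rw [hR]
          gcongr
          · exact Real.one_le_rpow (by linarith) hε.le
          · exact le_add_of_le_of_nonneg (by linarith) (by positivity)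
          · exact one_le_pow₀ (le_add_of_nonneg_right (by positivity))
    rw [div_le_iff₀ (by positivity)]
    calc (8 * (y ^ 2 * N)) ^ 2 = 64 * (y ^ 2 * N) * (y ^ 2 * N) := by ring
      _ ≤ 64 * R * T ^ 3 := by gcongr
  refine h3.trans ?_
  rw [mul_assoc _ (T ^ ε), ← hR, mul_assoc (C ^ 2 * Real.pi)]
  refine mul_le_mul_of_nonneg_left ?_ (by positivity)
  have h7 := mul_le_mul_of_nonneg_left h6 (show 0 ≤ 160 * Real.pi by positivity)
  linarith

end Pool.Agent.MP_c853c5_nt.W
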