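import Pool.Agent.MP_c853c5_nt.W.Api

/-!
The dual packet is the sum of its pieces: bound for all vectors at large area.
-/

set_option autoImplicit false

open Finset MeasureTheory
open scoped ENNReal ComplexConjugate

namespace Pool.Agent.MP_c853c5_nt.W

open Pool.Agent.MP_2a1f0e_nt Pool.Agent.MP_2a1f0e_nt.GM Pool.Agent.MP_2a1f0e_nt.DH

lemma prod_Dual {ι κ : Type} {f : ι → ℝ} {g : κ → ℝ} {A B : ℝ} (f0 : ∀ i, 0 ≤ f i)
    (g0 : ∀ i, 0 ≤ g i) (hf : Summable f ∧ ∑' i, f i ≤ A) (hg : Summable g ∧ ∑' i, g i ≤ B) :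
    (Summable fun z : ι × κ => f z.1 * g z.2) ∧ ∑' z : ι × κ, f z.1 * g z.2 ≤ A * B := by
  have h := hf.1.mul_of_nonneg hg.1 f0 g0
  refine ⟨h, ?_⟩
  rw [← hf.1.tsum_mul_tsum hg.1 h]
  exact mul_le_mul hf.2 hg.2 (tsum_nonneg g0) ((tsum_nonneg f0).trans hf.2)

lemma bool_Dual {a : ℕ → ℝ} {S : ℝ} (a0 : ∀ i, 0 ≤ a i) (h : Summable a ∧ ∑' i, a i ≤ S) :
    (Summable fun s : Bool × ℕ => a s.2) ∧ ∑' s : Bool × ℕ, a s.2 ≤ 2 * S := by
  have h1 := prod_Dual (f := fun _ : Bool => (1 : ℝ)) (A := 2) (fun _ => zero_le_one) a0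
    ⟨(hasSum_fintype _).summable, by rw [tsum_fintype, Fintype.sum_bool]; norm_num⟩ h
  simpa only [one_mul] using h1

lemma opt_Dual {ι : Type} {g : ι → ℝ} {B : ℝ} (h : Summable g ∧ ∑' i, g i ≤ B) :
    (Summable fun o : Option ι => o.elim 1 g) ∧ ∑' o : Option ι, o.elim 1 g ≤ 1 + B := by
  have h1 : HasSum (fun o : Option ι => o.elim 1 g) (∑' i, g i + 1) := by
    rw [← (Equiv.optionEquivSumPUnit.{0} ι).symm.hasSum_iff]
    exact HasSum.sum h.1.hasSum (hasSum_unique _)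
  exact ⟨h1.summable, by rw [h1.tsum_eq]; linarith [h.2]⟩

lemma core_Dual (hM : MinkSStmt) {ι : Type} [Countable ι] (μ : Measure MM) (J : Finset ℕ)
    (f : ℕ → Fld) (fs : ℕ → ι → Fld) {b : ι → ℝ} {B W : ℝ} (hW : 0 ≤ W)
    (hm : ∀ q s, MF (fs q s)) (hb : ∀ s, 0 < b s) (hs : Summable b ∧ ∑' s, b s ≤ B)
    (hH : ∀ q ∈ J, ∀ x w, HasSum (fun s => fs q s x w) (f q x w))
    (hU : ∀ s, ∑ q ∈ J, LF μ q (fs q s) ≤ ENNReal.ofReal (W * b s ^ 2)) :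
    ∑ q ∈ J, LF μ q (f q) ≤ ENNReal.ofReal (B ^ 2 * W) := by
  have hB : 0 ≤ B := (tsum_nonneg fun s => (hb s).le).trans hs.2
  calc ∑ q ∈ J, LF μ q (f q)
      ≤ ∑ q ∈ J, ENNReal.ofReal B * ∑' s, ENNReal.ofReal (1 / b s) * LF μ q (fs q s) :=
        sum_le_sum fun q hq => hM ι μ q (f q) (fs q) b B (hm q) hb hs.1 hs.2
          fun x w _ => hH q hq x w
    _ = ENNReal.ofReal B * ∑' s, ENNReal.ofReal (1 / b s) * ∑ q ∈ J, LF μ q (fs q s) := by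
        rw [← mul_sum, ← Summable.tsum_finsetSum fun _ _ => ENNReal.summable]
        simp only [mul_sum]
    _ ≤ ENNReal.ofReal B * ∑' s, ENNReal.ofReal (W * b s) := by
        refine mul_le_mul_right (ENNReal.tsum_le_tsum fun s =>
          (mul_le_mul_right (hU s) _).trans_eq ?_) _
        rw [← ENNReal.ofReal_mul (one_div_pos.2 (hb s)).le]
        congr 1
        have := (hb s).ne'
        field_simp
    _ ≤ ENNReal.ofReal (B ^ 2 * W) := by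
        rw [← ENNReal.ofReal_tsum_of_nonneg (fun s => mul_nonneg hW (hb s).le) (hs.1.mul_left W),
          ← ENNReal.ofReal_mul hB, tsum_mul_left]
        refine ENNReal.ofReal_le_ofReal ?_
        calc B * (W * ∑' s, b s) ≤ B * (W * B) :=
              mul_le_mul_of_nonneg_left (mul_le_mul_of_nonneg_left hs.2 hW) hB
          _ = B ^ 2 * W := by ring

lemma abs_Ts_Dual {c : ℝ} (hc : 0 < c) (s : Bool × ℕ) : |Ts c s| = c * (4 / 3) ^ s.2 := by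
  have h : (0 : ℝ) < c * (4 / 3) ^ s.2 := by positivity
  unfold Ts
  split_ifs
  · rw [one_mul, abs_of_pos h]
  · rw [neg_one_mul, abs_neg, abs_of_pos h]

lemma Ts_ne_Dual {c : ℝ} (hc : 0 < c) (s : Bool × ℕ) : Ts c s ≠ 0 := by
  rw [← abs_pos, abs_Ts_Dual hc]
  positivity

lemma pd_Dual (hT : TermStmt) (hP : PartStmt) (hF : PoisFStmt) (hM : MinkSStmt) (hS : ScStmt)
    {η : ℝ} (hA : APp η) : ∃ m : ℕ, 4 ≤ m ∧ ∀ ε : ℝ, 0 < ε → ∃ K : ℝ, 0 < K ∧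
      ∀ μ : Measure MM, UM μ → ∀ (d : Dat) (Λ : ℝ) (Q : ℕ), d.ok Λ Q → 1 / 2 ≤ |d.H| →
        (Q : ℝ) ≤ 2 * d.PP → ∑ q ∈ Ico Q (2 * Q), LN μ q Prod.fst (pd d q) ≤
          ENNReal.ofReal (K * Λ ^ ε * d.xi ^ m * (d.DD * Q + d.XX * (Q : ℝ) ^ η)) := by
  obtain ⟨m, hm⟩ := hA
  obtain ⟨K2, hK2, h2⟩ := hT
  refine ⟨max m 16, le_max_of_le_right (by norm_num), fun ε hε => ?_⟩
  obtain ⟨K1, hK1, h1⟩ := hm (ε / 5) (by positivity)
  obtain ⟨C, hC, h3⟩ := hS (ε / 5) (by positivity)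
  refine ⟨(2 * C * (1 + 2 * C)) ^ 2 * (K1 + K2), by positivity, fun μ hμ d Λ Q hd hH hQ => ?_⟩
  have hΛ := hd.one_le
  have hQ1 : (1 : ℝ) ≤ Q := by exact_mod_cast hd.2.2.2.2.2.1
  have hQΛ := hd.2.2.2.2.2.2
  have hHΛ := hd.2.2.2.2.1
  have hL : 1 ≤ Λ ^ (ε / 5) := Real.one_le_rpow hΛ (by positivity)
  have hL5 : Λ ^ ε = (Λ ^ (ε / 5)) ^ 5 := by
    rw [← Real.rpow_natCast, ← Real.rpow_mul (by linarith)]
    congr 1
    push_cast
    ring
  have hT0 : 0 < 1 / Λ ^ 16 := by positivity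
  have hc1 : 1 ≤ 3 * Λ ^ 17 * (|d.H2| * (4 / 5) / Q) := by
    have k1 : (Q : ℝ) ≤ 2 * (|d.H2| * Λ) := hQ.trans (by
      unfold Dat.PP
      gcongr)
    have k2 : Λ ≤ Λ ^ 17 := le_self_pow₀ hΛ (by norm_num)
    rw [← mul_div_assoc, le_div_iff₀ (by linarith)]
    nlinarith [mul_le_mul_of_nonneg_left k2 (abs_nonneg d.H2), abs_nonneg d.H2]
  have hc2 : 1 ≤ 3 * Λ ^ 17 * (|d.H| * (1 / Λ ^ 16) / Q) := by
    rw [show 3 * Λ ^ 17 * (|d.H| * (1 / Λ ^ 16) / Q) = 3 * Λ * |d.H| / Q by field_simp,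
      le_div_iff₀ (by linarith)]
    nlinarith
  have s1 := h3 Λ _ hΛ hc1
  have s2 := h3 Λ _ hΛ hc2
  have p1 : ∀ i : ℕ, 0 < 1 + |d.H2| * (4 / 5) / Q * (4 / 3) ^ i := fun i => by positivity
  have p2 : ∀ i : ℕ, 0 < 1 + |d.H| * (1 / Λ ^ 16) / Q * (4 / 3) ^ i := fun i => by positivity
  have q2 : ∀ o : Option (Bool × ℕ), (0 : ℝ) <
      o.elim 1 fun s => 1 / (1 + |d.H| * (1 / Λ ^ 16) / Q * (4 / 3) ^ s.2) := by
    rintro (_ | s)
    · exact one_pos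
    · exact one_div_pos.2 (p2 _)
  have hs := prod_Dual (fun s : Bool × ℕ => (one_div_pos.2 (p1 s.2)).le) (fun o => (q2 o).le)
    (bool_Dual (fun i => (one_div_pos.2 (p1 i)).le) s1)
    (opt_Dual (bool_Dual (fun i => (one_div_pos.2 (p2 i)).le) s2))
  have hD := d.DD_nonneg
  have hX := d.XX_nonneg
  have hx := d.one_le_xi
  have hZ : 0 ≤ d.DD * Q + d.XX * (Q : ℝ) ^ η := by positivity
  have hc := core_Dual hM μ (Ico Q (2 * Q)) (fun q => vf q Prod.fst (pd d q))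
    (fun q (s : Ix) => vf q Prod.fst (pcs d q (1 / Λ ^ 16) s))
    (W := (K1 + K2) * Λ ^ (ε / 5) * d.xi ^ max m 16 * (d.DD * Q + d.XX * (Q : ℝ) ^ η))
    (by positivity) ?_ (fun s => mul_pos (one_div_pos.2 (p1 s.1.2)) (q2 s.2)) hs ?_ ?_
  · refine hc.trans (ENNReal.ofReal_le_ofReal ?_)
    rw [hL5]
    generalize Λ ^ (ε / 5) = L at hL
    have k : 2 * (C * L) * (1 + 2 * (C * L)) ≤ 2 * C * (1 + 2 * C) * L ^ 2 := by
      nlinarith [mul_le_mul_of_nonneg_left hL (show 0 ≤ C * L by positivity)]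
    calc _ ≤ (2 * C * (1 + 2 * C) * L ^ 2) ^ 2 *
          ((K1 + K2) * L * d.xi ^ max m 16 * (d.DD * Q + d.XX * (Q : ℝ) ^ η)) := by gcongr
      _ = _ := by ring
  · rintro q ⟨s, _ | s'⟩
    · exact MF_vf q _ (measurable_tm hd.2.1.1 q _ _)
    · exact MF_vf q _ (measurable_pc hd.2.1.1 q _ _)
  · intro q hq x w
    exact hP d q _ x w hT0 (hF d q x (hd.2.2.2.2.2.1.trans (mem_Ico.1 hq).1) hd.1 hd.2.1).1
  · rintro ⟨s, _ | s'⟩
    · refine (h2 μ hμ d Λ Q _ hd hH hQ (Ts_ne_Dual (by norm_num) s)).trans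
        (ENNReal.ofReal_le_ofReal ?_)
      rw [abs_Ts_Dual (by norm_num), show |d.H2| * (4 / 5 * (4 / 3) ^ s.2) / Q =
        |d.H2| * (4 / 5) / Q * (4 / 3) ^ s.2 by ring]
      have k := p1 s.2
      simp only [Option.elim_none, mul_one]
      generalize 1 + |d.H2| * (4 / 5) / Q * (4 / 3) ^ s.2 = u at k
      calc _ = K2 * 1 * d.xi ^ 16 * (d.DD * Q) * (1 / u) ^ 2 := by ring
        _ ≤ _ := by
          gcongr
          · linarith
          · exact le_max_right _ _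
          · exact le_add_of_nonneg_right (by positivity)
    · refine (h1 μ hμ d Λ Q _ _ hd hH hQ (Ts_ne_Dual (by norm_num) s) (Ts_ne_Dual hT0 s')).trans
        (ENNReal.ofReal_le_ofReal ?_)
      rw [abs_Ts_Dual (by norm_num), abs_Ts_Dual hT0, show |d.H2| * (4 / 5 * (4 / 3) ^ s.2) / Q =
        |d.H2| * (4 / 5) / Q * (4 / 3) ^ s.2 by ring,
        show |d.H| * (1 / Λ ^ 16 * (4 / 3) ^ s'.2) / Q =
        |d.H| * (1 / Λ ^ 16) / Q * (4 / 3) ^ s'.2 by ring]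
      have k := p1 s.2
      have k' := p2 s'.2
      simp only [Option.elim_some]
      generalize 1 + |d.H2| * (4 / 5) / Q * (4 / 3) ^ s.2 = u at k
      generalize 1 + |d.H| * (1 / Λ ^ 16) / Q * (4 / 3) ^ s'.2 = v at k'
      calc _ = K1 * Λ ^ (ε / 5) * d.xi ^ m * (d.DD * Q + d.XX * (Q : ℝ) ^ η) *
            (1 / u * (1 / v)) ^ 2 := by ring
        _ ≤ _ := by
          gcongr
          · linarith
          · exact le_max_left _ _

theorem dual_stmt (hT : TermStmt) (hP : PartStmt) (hF : PoisFStmt) (hL : LineLStmt)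
    (hM : MinkSStmt) (hS : ScStmt) : DualStmt := by
  intro η hη _ hA
  obtain ⟨m, hm4, hm⟩ := pd_Dual hT hP hF hM hS hA
  refine ⟨m, fun ε hε => ?_⟩
  obtain ⟨K1, hK1, h1⟩ := hm ε hε
  obtain ⟨K2, hK2, h2⟩ := hL ε hε
  refine ⟨2 * K1 + 2 * K2, by positivity, fun μ hμ d Λ Q hd hQ => ?_⟩
  rcases lt_or_ge |d.H| (1 / 2) with hH | hH
  · rw [pa_eq_zero hd.2.1 (Or.inl hH)]
    simp only [LN_zero, sum_const_zero, zero_le]
  have hΛ := hd.one_le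
  have hQ1 : (1 : ℝ) ≤ Q := by exact_mod_cast hd.2.2.2.2.2.1
  have hD := d.DD_nonneg
  have hX := d.XX_nonneg
  have hx := d.one_le_xi
  have hL0 : 0 < Λ ^ ε := by positivity
  have hQη : 1 ≤ (Q : ℝ) ^ η := Real.one_le_rpow hQ1 hη.le
  calc ∑ q ∈ Ico Q (2 * Q), LN μ q Prod.fst (pa d)
      ≤ ∑ q ∈ Ico Q (2 * Q), (2 * LN μ q Prod.fst (pd d q) + 2 * LF μ q (lnF d q)) :=
        sum_le_sum fun q hq => LF_add_le μ q (MF_vf q _ (measurable_pd hd.2.1.1 q)) fun x =>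
          (hF d q x (hd.2.2.2.2.2.1.trans (mem_Ico.1 hq).1) hd.1 hd.2.1).2
    _ ≤ 2 * ENNReal.ofReal (K1 * Λ ^ ε * d.xi ^ m * (d.DD * Q + d.XX * (Q : ℝ) ^ η)) +
          2 * ENNReal.ofReal (K2 * Λ ^ ε * d.xi ^ 4 * (d.DD * |d.H2| + d.XX)) := by
        rw [sum_add_distrib, ← mul_sum, ← mul_sum]
        exact add_le_add (mul_le_mul_right (h1 μ hμ d Λ Q hd hH hQ) _)
          (mul_le_mul_right (h2 μ hμ d Λ Q hd hH) _)
    _ ≤ _ := by
        rw [← ENNReal.ofReal_ofNat 2, ← ENNReal.ofReal_mul zero_le_two,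
          ← ENNReal.ofReal_mul zero_le_two, ← ENNReal.ofReal_add (by positivity) (by positivity)]
        refine ENNReal.ofReal_le_ofReal ?_
        have a1 : K1 * Λ ^ ε * d.xi ^ m * (d.DD * Q + d.XX * (Q : ℝ) ^ η) ≤
            K1 * Λ ^ ε * d.xi ^ m * (d.DD * (Q + |d.H2|) + d.XX * (Q : ℝ) ^ η) := by
          gcongr
          exact le_add_of_nonneg_right (abs_nonneg _)
        have a2 : K2 * Λ ^ ε * d.xi ^ 4 * (d.DD * |d.H2| + d.XX * 1) ≤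
            K2 * Λ ^ ε * d.xi ^ m * (d.DD * (Q + |d.H2|) + d.XX * (Q : ℝ) ^ η) := by
          gcongr
          exact le_add_of_nonneg_left (by linarith)
        rw [mul_one] at a2
        linarith

end Pool.Agent.MP_c853c5_nt.W
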