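import Pool.Agent.MP_c853c5_nt.W.Api
set_option autoImplicit false
open Finset MeasureTheory
open scoped ENNReal ComplexConjugate
namespace Pool.Agent.MP_c853c5_nt.W
open Pool.Agent.MP_2a1f0e_nt Pool.Agent.MP_2a1f0e_nt.GM Pool.Agent.MP_2a1f0e_nt.DH

lemma split_Er (W : ℕ → ℝ) (M : ℕ) {n : ℤ} (hn : n ≠ 0)
    (h : ∀ d ∈ n.natAbs.divisors, M < d → W d = 0) :
    ∑ q ∈ Icc 1 M, (W q : ℂ) * dl q n =
      ((∑ d ∈ n.natAbs.divisors, W d - ∑ q ∈ Icc 1 M, W q / psiD q : ℝ) : ℂ) := by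
  have k : ∑ q ∈ (Icc 1 M).filter (· ∣ n.natAbs), W q = ∑ d ∈ n.natAbs.divisors, W d := by
    refine sum_subset (fun d hd => Nat.mem_divisors.2 ⟨(mem_filter.1 hd).2, by simpa using hn⟩)
      fun d hd hd' => h d hd (lt_of_not_ge fun e => hd' ?_)
    exact mem_filter.2 ⟨mem_Icc.2 ⟨Nat.pos_of_mem_divisors hd, e⟩, Nat.dvd_of_mem_divisors hd⟩
  rw [← k, sum_filter, ← sum_sub_distrib, Complex.ofReal_sum]
  refine sum_congr rfl fun q _ => ?_
  unfold dl ind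
  split_ifs with e
  · rw [iC_pos (Int.natCast_dvd.2 e)]
    push_cast
    ring
  · rw [iC_neg fun e' => e (Int.natCast_dvd.1 e')]
    push_cast
    ring

lemma nu_eq_Er {Q : ℕ} (hQ : 1 ≤ Q) {n : ℤ} (hn : n ≠ 0) : nuQ Q n =
    ((∑ d ∈ n.natAbs.divisors, Wt ((d : ℝ) / Q) -
      ∑ q ∈ Icc 1 (3 * Q), Wt ((q : ℝ) / Q) / psiD q : ℝ) : ℂ) := by
  refine split_Er (fun q => Wt ((q : ℝ) / Q)) _ hn fun d _ hd => Wt_eq_zero (Or.inr ?_)
  have h1 : (0 : ℝ) < Q := by exact_mod_cast hQ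
  have h2 : (3 : ℝ) * Q < d := by exact_mod_cast hd
  rw [le_div_iff₀ h1]
  linarith

lemma swp_eq_Er (Q : ℕ) {Cm : ℕ} {n : ℤ} (hn : n ≠ 0) (h : |(n : ℝ)| ≤ Cm) : swp Q Cm n =
    ((∑ d ∈ n.natAbs.divisors, Wt ((d : ℝ) / Q) -
      ∑ q ∈ Icc 1 Cm, Wt (|(n : ℝ)| / (q * Q)) / psiD q : ℝ) : ℂ) := by
  have e : ((n.natAbs : ℕ) : ℝ) = |(n : ℝ)| := by rw [Nat.cast_natAbs, Int.cast_abs]
  have h1 : n.natAbs ≤ Cm := by exact_mod_cast e.trans_le h
  rw [← Nat.sum_div_divisors, sum_congr rfl (g := fun q : ℕ => Wt (|(n : ℝ)| / (q * Q)))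
    fun d hd => by
      rw [Nat.cast_div (Nat.dvd_of_mem_divisors hd)
        (Nat.cast_ne_zero.2 (Nat.pos_of_mem_divisors hd).ne'), e, div_div]]
  exact split_Er (fun q => Wt (|(n : ℝ)| / (q * Q))) _ hn fun d hd hd' =>
    absurd ((Nat.divisor_le hd).trans h1) (not_le.2 hd')

lemma triv_Er (W : ℕ → ℝ) (M : ℕ) (n : ℤ) : ‖∑ q ∈ Icc 1 M, (Wt (W q) : ℂ) * dl q n‖ ≤ M := by
  refine (norm_sum_le _ _).trans ((sum_le_card_nsmul _ _ 1 fun q hq => ?_).trans_eq (by simp))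
  rw [norm_mul, Complex.norm_real, Real.norm_of_nonneg (Wt_nonneg _)]
  exact mul_le_one₀ (Wt_le_one _) (norm_nonneg _) (norm_dl_le (mem_Icc.1 hq).1 n)

theorem nu_stmt : NuStmt := by
  intro Q Cm n hQ
  have h1 : (0 : ℝ) < Q := by exact_mod_cast hQ
  refine ⟨by exact_mod_cast triv_Er (fun q => (q : ℝ) / Q) (3 * Q) n, fun hn => ?_,
    sum_eq_zero fun c _ => ?_, triv_Er _ Cm n⟩
  · rw [nu_eq_Er hQ hn, Complex.norm_real]
    refine (norm_sub_le _ _).trans (add_le_add ?_ ?_)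
    · refine (norm_sum_le _ _).trans ((sum_le_card_nsmul _ _ 1 fun q _ => ?_).trans_eq (by simp))
      rw [Real.norm_of_nonneg (Wt_nonneg _)]
      exact Wt_le_one _
    · refine (norm_sum_le _ _).trans ((sum_le_card_nsmul _ _ (1 / (3 / 4 * (Q : ℝ)))
        fun q hq => ?_).trans_eq ?_)
      · have h2 := one_le_psiD (mem_Icc.1 hq).1
        rw [Real.norm_of_nonneg (div_nonneg (Wt_nonneg _) (by linarith))]
        rcases le_total ((q : ℝ) / Q) (3 / 4) with h3 | h3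
        · rw [Wt_eq_zero (Or.inl h3), zero_div]
          positivity
        · exact div_le_div₀ zero_le_one (Wt_le_one _) (by positivity)
            (((le_div_iff₀ h1).1 h3).trans (le_psiD q))
      · rw [Nat.card_Icc, Nat.add_sub_cancel, nsmul_eq_mul]
        push_cast
        field_simp
  · rw [Int.cast_zero, abs_zero, zero_div, Wt_eq_zero (Or.inl (by norm_num)), Complex.ofReal_zero,
      zero_mul]

lemma swap_Er (F : ℕ → ℕ → ℝ) {M D : ℕ} (h : M ≤ D) :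
    ∑ q ∈ Icc 1 M, ∑ e ∈ q.divisors, F e q = ∑ e ∈ Icc 1 D, ∑ k ∈ Icc 1 (M / e), F e (e * k) := by
  rw [sum_sigma', sum_sigma']
  refine sum_nbij' (fun x => ⟨x.2, x.1 / x.2⟩) (fun x => ⟨x.1 * x.2, x.1⟩) ?_ ?_ ?_ ?_ ?_
  · rintro ⟨q, e⟩ hx
    simp only [mem_sigma, mem_Icc] at hx ⊢
    have h1 := Nat.pos_of_mem_divisors hx.2
    have h2 := Nat.divisor_le hx.2
    exact ⟨⟨h1, by omega⟩, Nat.div_pos h2 h1, Nat.div_le_div_right hx.1.2⟩
  · rintro ⟨e, k⟩ hx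
    simp only [mem_sigma, mem_Icc, Nat.mem_divisors] at hx ⊢
    have h1 := Nat.mul_pos hx.1.1 hx.2.1
    exact ⟨⟨h1, mul_comm k e ▸ (Nat.le_div_iff_mul_le hx.1.1).1 hx.2.2⟩, dvd_mul_right _ _, h1.ne'⟩
  · rintro ⟨q, e⟩ hx
    simp only [mem_sigma] at hx
    simp only [Nat.mul_div_cancel' (Nat.dvd_of_mem_divisors hx.2)]
  · rintro ⟨e, k⟩ hx
    simp only [mem_sigma, mem_Icc] at hx
    simp only [Nat.mul_div_cancel_left k hx.1.1]
  · rintro ⟨q, e⟩ hx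
    simp only [mem_sigma] at hx
    simp only [Nat.mul_div_cancel' (Nat.dvd_of_mem_divisors hx.2)]

/-- the coefficient of the inner sums -/
noncomputable def cf_Er (e : ℕ) : ℝ := (ArithmeticFunction.moebius e : ℝ) / psiD e / e

lemma exp_Er (hP : PsmStmt) (W : ℕ → ℝ) {M D : ℕ} (h : M ≤ D) :
    ∑ q ∈ Icc 1 M, W q / psiD q =
      ∑ e ∈ Icc 1 D, cf_Er e * ∑ k ∈ Icc 1 (M / e), W (e * k) / k := by
  have k := swap_Er (fun e q => (ArithmeticFunction.moebius e : ℝ) / psiD e * (W q / q)) h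
  refine (sum_congr rfl fun q hq => ?_).trans (k.trans (sum_congr rfl fun e _ => ?_))
  · have h1 := (mem_Icc.1 hq).1
    have h2 : (q : ℝ) ≠ 0 := by positivity
    rw [← sum_mul, ← hP q h1]
    field_simp
  · rw [mul_sum]
    refine sum_congr rfl fun k _ => ?_
    rw [cf_Er, Nat.cast_mul]
    ring

lemma abs_cf_Er {e : ℕ} (he : 1 ≤ e) : |cf_Er e| ≤ ((e : ℝ) ^ 2)⁻¹ := by
  have h1 : (0 : ℝ) < e := by exact_mod_cast he
  have h2 := le_psiD e
  rw [cf_Er, div_div, abs_div, abs_of_pos (mul_pos (h1.trans_le h2) h1), ← one_div, sq]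
  exact div_le_div₀ zero_le_one (by exact_mod_cast ArithmeticFunction.abs_moebius_le_one)
    (by positivity) (mul_le_mul_of_nonneg_right h2 h1.le)

lemma bd_Er {X : ℕ} {Δ C y : ℝ} (hX : DivB X Δ) (hC : 0 < C) (hy : 0 < y) (hy' : y ≤ X)
    (R : ℕ → ℝ) (h : ∀ e : ℕ, 1 ≤ e → |R e| ≤ C * min 1 (1 / (y / e))) (D : ℕ) :
    |∑ e ∈ Icc 1 D, cf_Er e * R e| ≤ 4 * C * Δ * (1 / y) := by
  have k1 : ∑ e ∈ Icc 1 X, |cf_Er e * R e| ≤ C / y * (2 * Δ) := by
    refine le_trans ?_ (mul_le_mul_of_nonneg_left (harm_le hX le_rfl) (by positivity))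
    rw [mul_sum]
    refine sum_le_sum fun e he => ?_
    have h1 := (mem_Icc.1 he).1
    have h2 : (e : ℝ) ≠ 0 := by positivity
    rw [abs_mul]
    exact (mul_le_mul (abs_cf_Er h1) ((h e h1).trans (mul_le_mul_of_nonneg_left (min_le_right _ _)
      hC.le)) (abs_nonneg _) (by positivity)).trans_eq (by field_simp)
  have k2 : ∑ e ∈ Ioo X (D + 1), |cf_Er e * R e| ≤ C * (2 / y) := by
    refine le_trans ?_ (mul_le_mul_of_nonneg_left ((sum_Ioo_inv_sq_le X (D + 1)).trans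
      (div_le_div_of_nonneg_left zero_le_two hy (by linarith))) hC.le)
    rw [mul_sum]
    refine sum_le_sum fun e he => ?_
    have h1 : 1 ≤ e := by have := (mem_Ioo.1 he).1; omega
    rw [abs_mul]
    exact (mul_le_mul (abs_cf_Er h1) ((h e h1).trans (mul_le_mul_of_nonneg_left (min_le_left _ _)
      hC.le)) (abs_nonneg _) (by positivity)).trans_eq (by ring)
  have k3 : Icc 1 D ⊆ Icc 1 X ∪ Ioo X (D + 1) := fun e he => by
    simp only [mem_union, mem_Icc, mem_Ioo] at he ⊢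
    omega
  have k4 : Disjoint (Icc 1 X) (Ioo X (D + 1)) := disjoint_left.2 fun e h1 h2 => by
    simp only [mem_Icc, mem_Ioo] at h1 h2
    omega
  refine (abs_sum_le_sum_abs _ _).trans
    ((sum_le_sum_of_subset_of_nonneg k3 fun _ _ _ => abs_nonneg _).trans ?_)
  rw [sum_union k4]
  have k5 := mul_le_mul_of_nonneg_left hX.1 (by positivity : 0 ≤ C * (2 / y))
  refine (add_le_add k1 (k2.trans ((mul_one _).ge.trans k5))).trans_eq (by ring)

lemma div_le_Er (M : ℕ) {e : ℕ} (he : 1 ≤ e) : (M : ℝ) / e ≤ (M / e : ℕ) + 1 := by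
  rw [div_le_iff₀ (by exact_mod_cast he), mul_comm]
  exact_mod_cast (Nat.lt_mul_div_succ M he).le

theorem er_stmt (hR : RsStmt) (hP : PsmStmt) : ErStmt := by
  intro ε hε
  obtain ⟨C, I, hC, hR⟩ := hR
  obtain ⟨C', hC', hD⟩ := exD 1 1 1 hε
  refine ⟨4 * C * C', by positivity, fun Λ Q Cm n hQ hQ' hn hn' hm => ?_⟩
  have h1 : (1 : ℝ) ≤ Q := by exact_mod_cast hQ
  have h2 : 0 < |(n : ℝ)| := abs_pos.2 (Int.cast_ne_zero.2 hn)
  obtain ⟨X, Δ, hX, h3, h4⟩ := hD Λ (h1.trans hQ')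
  rw [pow_one, one_mul] at h3
  rw [pow_one] at h4
  have k1 := bd_Er hX hC (y := Q) (by positivity) (hQ'.trans h3)
    (fun e => ∑ k ∈ Icc 1 (3 * Q / e), Wt (((e * k : ℕ) : ℝ) / Q) / k - I) (fun e he => by
      have h5 : (0 : ℝ) < e := by exact_mod_cast he
      refine le_trans (le_of_eq ?_) (hR (Q / e) (3 * Q / e) (by positivity) ?_).1
      · congr 2
        refine sum_congr rfl fun k _ => ?_
        rw [div_div_eq_mul_div, Nat.cast_mul, mul_comm]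
      · refine le_trans (le_of_eq ?_) (div_le_Er (3 * Q) he)
        push_cast
        ring) (max (3 * Q) Cm)
  have k2 := bd_Er hX hC (y := |(n : ℝ)| / Q) (by positivity)
    ((div_le_self h2.le h1).trans (hn'.trans h3))
    (fun e => ∑ k ∈ Icc 1 (Cm / e), Wt (|(n : ℝ)| / ((e * k : ℕ) * Q)) / k - I) (fun e he => by
      have h5 : (0 : ℝ) < e := by exact_mod_cast he
      refine le_trans (le_of_eq ?_) (hR (|(n : ℝ)| / Q / e) (Cm / e) (by positivity) ?_).2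
      · congr 2
        refine sum_congr rfl fun k _ => ?_
        rw [div_div, div_div, Nat.cast_mul, mul_comm]
      · refine le_trans ?_ (div_le_Er Cm he)
        rw [← mul_div_assoc]
        exact div_le_div_of_nonneg_right ((mul_le_mul_of_nonneg_left (div_le_self h2.le h1)
          (by norm_num)).trans hm) h5.le) (max (3 * Q) Cm)
  rw [nu_eq_Er hQ hn, swp_eq_Er Q hn (by linarith), ← Complex.ofReal_sub, Complex.norm_real,
    Real.norm_eq_abs, sub_sub_sub_cancel_left,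
    exp_Er hP (fun q => Wt ((q : ℝ) / Q)) (le_max_left _ Cm),
    exp_Er hP (fun q => Wt (|(n : ℝ)| / (q * Q))) (le_max_right (3 * Q) Cm)]
  simp only [mul_sub, sum_sub_distrib] at k1 k2
  rw [← sub_sub_sub_cancel_right _ _ (∑ e ∈ Icc 1 (max (3 * Q) Cm), cf_Er e * I)]
  refine (abs_sub _ _).trans ((add_le_add k2 k1).trans ?_)
  rw [one_div_div, ← mul_add, mul_assoc _ C']
  gcongr

end Pool.Agent.MP_c853c5_nt.W
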