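import Pool.Agent.MP_c853c5_nt.W.Api

set_option autoImplicit false

open Finset MeasureTheory
open scoped ENNReal ComplexConjugate

namespace Pool.Agent.MP_c853c5_nt.W

open Pool.Agent.MP_2a1f0e_nt Pool.Agent.MP_2a1f0e_nt.GM Pool.Agent.MP_2a1f0e_nt.DH

lemma supp_Exp {T : ℝ} (hT : 0 < T) : HasCompactSupport fun t : ℝ => Wt (t / T) :=
  HasCompactSupport.intro (isCompact_Icc (a := 0) (b := 3 * T)) fun t ht => by
    refine Wt_eq_zero ?_
    rcases not_and_or.1 ht with h | h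
    · exact Or.inl ((div_nonpos_of_nonpos_of_nonneg (not_le.1 h).le hT.le).trans (by norm_num))
    · exact Or.inr (by rw [le_div_iff₀ hT]; linarith [not_le.1 h])

lemma cont_Exp (T : ℝ) : Continuous fun t : ℝ => Wt (t / T) :=
  continuous_Wt.comp (continuous_id.div_const T)

lemma integrable_Exp {T : ℝ} (hT : 0 < T) {F : ℝ → ℂ} (hF : Continuous F) :
    Integrable fun t : ℝ => (Wt (t / T) : ℂ) * F t :=
  ((Complex.continuous_ofReal.comp (cont_Exp T)).mul hF).integrable_of_hasCompactSupport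
    ((supp_Exp hT).comp_left (g := fun x : ℝ => (x : ℂ)) Complex.ofReal_zero).mul_right

lemma int_sum_Exp {T : ℝ} (hT : 0 < T) (s : Finset ℕ) {F : ℕ → ℝ → ℂ}
    (hF : ∀ i, Continuous (F i)) :
    ∫ t : ℝ, (Wt (t / T) : ℂ) * ∑ i ∈ s, F i t = ∑ i ∈ s, ∫ t : ℝ, (Wt (t / T) : ℂ) * F i t := by
  simp only [mul_sum]
  exact integral_finsetSum _ fun i _ => integrable_Exp hT (hF i)

lemma int_pw_Exp {T : ℝ} (hT : 0 < T) (c : ℂ) (X : ℝ) :
    ∫ t : ℝ, (Wt (t / T) : ℂ) * (c * pw X t) = T * (c * wh (T * Real.log X)) := by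
  have h := Measure.integral_comp_div
    (fun s : ℝ => (Wt s : ℂ) * Complex.exp (Complex.I * (s : ℂ) * ((T * Real.log X : ℝ) : ℂ))) T
  rw [abs_of_pos hT, Complex.real_smul] at h
  rw [mul_left_comm, wh, ← h, ← integral_const_mul]
  refine integral_congr_ae (Filter.Eventually.of_forall fun t => ?_)
  have hT' : (T : ℂ) ≠ 0 := Complex.ofReal_ne_zero.2 hT.ne'
  have e : Complex.I * ((t / T : ℝ) : ℂ) * ((T * Real.log X : ℝ) : ℂ) =
      Complex.I * (t : ℂ) * ((Real.log X : ℝ) : ℂ) := by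
    push_cast
    field_simp
  simp only [e, pw]
  ring

lemma six_Exp (A B : Finset ℕ) (f g p q : ℕ → ℂ) :
    ∑ a ∈ A, ∑ b ∈ A, ∑ k₁ ∈ B, ∑ l₂ ∈ B, ∑ k₂ ∈ B, ∑ l₁ ∈ B,
      f a * (g b * (p k₁ * (q l₂ * (q k₂ * p l₁)))) =
    (∑ a ∈ A, f a) * ((∑ b ∈ A, g b) * ((∑ k ∈ B, p k) * ((∑ k ∈ B, q k) *
      ((∑ k ∈ B, q k) * ∑ k ∈ B, p k)))) := by
  simp only [← mul_sum, ← sum_mul]

lemma point_Exp {N : ℕ} (hN : 1 ≤ N) (y : ℝ) (α : ℕ → ℂ) (t : ℝ) :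
    ((‖Zo y t‖ ^ 4 * ‖DP N α t‖ ^ 2 : ℝ) : ℂ) = ∑ a ∈ Icc N (2 * N), ∑ b ∈ Icc N (2 * N),
      ∑ k₁ ∈ Icc 1 ⌊2 * y⌋₊, ∑ l₂ ∈ Icc 1 ⌊2 * y⌋₊, ∑ k₂ ∈ Icc 1 ⌊2 * y⌋₊, ∑ l₁ ∈ Icc 1 ⌊2 * y⌋₊,
        α a * conj (α b) *
          ((om ((k₁ : ℝ) / y) * om ((l₂ : ℝ) / y) * om ((k₂ : ℝ) / y) * om ((l₁ : ℝ) / y) : ℝ) :
            ℂ) * pw (((a : ℝ) * k₁ * l₁) / ((b : ℝ) * l₂ * k₂)) t := by
  have h := six_Exp (Icc N (2 * N)) (Icc 1 ⌊2 * y⌋₊) (fun n => α n * pw (n : ℝ) t)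
    (fun n => conj (α n * pw (n : ℝ) t)) (fun n => (om ((n : ℝ) / y) : ℂ) * pw (n : ℝ) t)
    (fun n => conj ((om ((n : ℝ) / y) : ℂ) * pw (n : ℝ) t))
  rw [← map_sum, ← map_sum] at h
  change _ = DP N α t * (conj (DP N α t) * (Zo y t * (conj (Zo y t) *
    (conj (Zo y t) * Zo y t)))) at h
  have e : ((‖Zo y t‖ ^ 4 * ‖DP N α t‖ ^ 2 : ℝ) : ℂ) = DP N α t * (conj (DP N α t) *
      (Zo y t * (conj (Zo y t) * (conj (Zo y t) * Zo y t)))) := by
    have h1 := Complex.mul_conj' (Zo y t)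
    have h2 := Complex.mul_conj' (DP N α t)
    push_cast
    rw [show (‖Zo y t‖ : ℂ) ^ 4 = (‖Zo y t‖ : ℂ) ^ 2 * (‖Zo y t‖ : ℂ) ^ 2 by ring, ← h1, ← h2]
    ring
  rw [e, ← h]
  have n0 : ∀ {n M M' : ℕ}, 1 ≤ M → n ∈ Icc M M' → (n : ℝ) ≠ 0 := fun h1 h2 =>
    Nat.cast_ne_zero.2 (by have := (mem_Icc.1 h2).1; omega)
  refine sum_congr rfl fun a ha => sum_congr rfl fun b hb => sum_congr rfl fun k₁ hk₁ =>
    sum_congr rfl fun l₂ hl₂ => sum_congr rfl fun k₂ hk₂ => sum_congr rfl fun l₁ hl₁ => ?_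
  have a0 := n0 hN ha
  have b0 := n0 hN hb
  have c0 := n0 le_rfl hk₁
  have d0 := n0 le_rfl hl₂
  have e0 := n0 le_rfl hk₂
  have f0 := n0 le_rfl hl₁
  rw [pw_div (mul_ne_zero (mul_ne_zero a0 c0) f0) (mul_ne_zero (mul_ne_zero b0 d0) e0),
    pw_mul (mul_ne_zero a0 c0) f0, pw_mul a0 c0, pw_mul (mul_ne_zero b0 d0) e0, pw_mul b0 d0]
  simp only [map_mul, conj_pw, Complex.conj_ofReal]
  push_cast
  ring

theorem exp_stmt : ExpStmt := by
  intro N T y α hN hT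
  have cZ : Continuous (Zo y) :=
    continuous_finsetSum _ fun n _ => (continuous_pw _).const_mul _
  have cD : Continuous (DP N α) :=
    continuous_finsetSum _ fun n _ => (continuous_pw _).const_mul _
  refine ⟨((cont_Exp T).mul ((cZ.norm.pow 4).mul (cD.norm.pow 2))).integrable_of_hasCompactSupport
    (supp_Exp hT).mul_right, ?_⟩
  rw [← integral_complex_ofReal]
  simp only [Complex.ofReal_mul (Wt _), point_Exp hN, Q4, mul_sum (Icc _ _) _ (T : ℂ),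
    mul_sum (Icc _ _) _ (α _ * _)]
  have cp : ∀ (c : ℂ) (X : ℝ), Continuous fun t => c * pw X t := fun c X =>
    (continuous_pw _).const_mul _
  rw [int_sum_Exp hT _ fun _ => continuous_finsetSum _ fun _ _ => continuous_finsetSum _
    fun _ _ => continuous_finsetSum _ fun _ _ => continuous_finsetSum _ fun _ _ =>
    continuous_finsetSum _ fun _ _ => cp _ _]
  refine sum_congr rfl fun a _ => ?_
  rw [int_sum_Exp hT _ fun _ => continuous_finsetSum _ fun _ _ => continuous_finsetSum _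
    fun _ _ => continuous_finsetSum _ fun _ _ => continuous_finsetSum _ fun _ _ => cp _ _]
  refine sum_congr rfl fun b _ => ?_
  rw [int_sum_Exp hT _ fun _ => continuous_finsetSum _ fun _ _ => continuous_finsetSum _
    fun _ _ => continuous_finsetSum _ fun _ _ => cp _ _]
  refine sum_congr rfl fun k₁ _ => ?_
  rw [int_sum_Exp hT _ fun _ => continuous_finsetSum _ fun _ _ => continuous_finsetSum _
    fun _ _ => cp _ _]
  refine sum_congr rfl fun l₂ _ => ?_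
  rw [int_sum_Exp hT _ fun _ => continuous_finsetSum _ fun _ _ => cp _ _]
  refine sum_congr rfl fun k₂ _ => ?_
  rw [int_sum_Exp hT _ fun _ => cp _ _]
  refine sum_congr rfl fun l₁ _ => ?_
  rw [int_pw_Exp hT, mul_assoc (α a * _)]

end Pool.Agent.MP_c853c5_nt.W
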