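import Pool.Agent.MP_c853c5_nt.W.Api

set_option autoImplicit false

open Finset MeasureTheory
open scoped ENNReal ComplexConjugate

namespace Pool.Agent.MP_c853c5_nt.W

open Pool.Agent.MP_2a1f0e_nt Pool.Agent.MP_2a1f0e_nt.GM Pool.Agent.MP_2a1f0e_nt.DH
open scoped FourierTransform SchwartzMap

lemma four_F1 (f : ℝ → ℂ) (w : ℝ) : 𝓕 f w = FT1 f w := by
  rw [Real.fourier_real_eq_integral_exp_smul]
  refine integral_congr_ae (Filter.Eventually.of_forall fun v => ?_)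
  simp only [smul_eq_mul]
  rw [mul_comm]
  congr 1
  unfold ex
  rw [mul_comm]
  congr 3
  ring

lemma dec_F1 (f : 𝓢(ℝ, ℂ)) (A : ℕ) : ∃ C : ℝ, 0 < C ∧ ∀ x, ‖f x‖ ≤ C / (1 + |x|) ^ A := by
  refine ⟨2 ^ A * (Finset.Iic ((A, 0) : ℕ × ℕ)).sup
    (fun m => SchwartzMap.seminorm ℝ m.1 m.2) f + 1, by positivity, fun x => ?_⟩
  have h := SchwartzMap.one_add_le_sup_seminorm_apply (𝕜 := ℝ) (m := (A, 0)) (k := A) (n := 0)
    le_rfl le_rfl f x
  rw [norm_iteratedFDeriv_zero, Real.norm_eq_abs] at h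
  rw [le_div_iff₀ (by positivity), mul_comm]
  exact h.trans (le_add_of_nonneg_right zero_le_one)

theorem f1_stmt : F1Stmt := by
  intro f hf hc
  have e : ∀ y, FT1 f y = (𝓕 (hc.toSchwartzMap hf) : 𝓢(ℝ, ℂ)) y := fun y => by
    rw [SchwartzMap.fourier_coe, ← four_F1]
    rfl
  refine ⟨?_, fun A => ?_, fun z => ?_⟩
  · rw [funext e]
    exact (𝓕 (hc.toSchwartzMap hf) : 𝓢(ℝ, ℂ)).continuous
  · simp only [e]
    exact dec_F1 _ A
  · have h := (hc.toSchwartzMap hf).continuous.fourierInv_fourier_eq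
      (hc.toSchwartzMap hf).integrable (𝓕 (hc.toSchwartzMap hf) : 𝓢(ℝ, ℂ)).integrable
    have h1 : f z = 𝓕⁻ (𝓕 f) z := (congrFun h z).symm
    rw [h1, Real.fourierInv_eq_fourier_neg, four_F1, FT1]
    refine integral_congr_ae (Filter.Eventually.of_forall fun y => ?_)
    simp only [four_F1]
    congr 2
    ring

lemma shift_F1 (ξ y : ℝ) : Eh ξ y = FT1 (E 0) (y - ξ) := by
  refine integral_congr_ae (Filter.Eventually.of_forall fun z => ?_)
  have h := E_add 0 ξ z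
  rw [zero_add] at h
  simp only [h]
  rw [mul_assoc, ← ex_add]
  congr 2
  ring

theorem eh_stmt (h : F1Stmt) : EhStmt := by
  intro A
  obtain ⟨C, hC, hb⟩ := (h (E 0) (contDiff_E 0) (hasCompactSupport_E 0)).2.1 A
  refine ⟨C, hC, fun ξ y => ?_⟩
  rw [shift_F1]
  refine (hb _).trans ?_
  rw [div_le_div_iff₀ (by positivity) (by positivity), mul_assoc, ← mul_pow]
  have h1 : |y| ≤ |ξ| + |y - ξ| := by
    have := abs_add_le ξ (y - ξ)
    rwa [add_sub_cancel] at this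
  have h2 : 1 + |y| ≤ (1 + |ξ|) * (1 + |y - ξ|) := by
    nlinarith [abs_nonneg ξ, abs_nonneg (y - ξ), mul_nonneg (abs_nonneg ξ) (abs_nonneg (y - ξ))]
  gcongr

end Pool.Agent.MP_c853c5_nt.W
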