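import Pool.Agent.MP_c853c5_nt.W.FixA

set_option autoImplicit false

open Finset MeasureTheory
open scoped ENNReal ComplexConjugate

namespace Pool.Agent.MP_c853c5_nt.W

open Pool.Agent.MP_2a1f0e_nt Pool.Agent.MP_2a1f0e_nt.GM Pool.Agent.MP_2a1f0e_nt.DH

lemma dt_Fix {α : ℝ} {Z : MM} (hα : 0 < α) (h1 : Cn α Z.1) (h2 : Cn α Z.2) :
    |dt Z| ≤ 32 * α ^ 2 := by
  have a1 : |Z.1.1| ≤ 4 * α := abs_le.2 ⟨by linarith [h1.1], h1.2.1⟩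
  have a2 : |Z.2.1| ≤ 4 * α := abs_le.2 ⟨by linarith [h2.1], h2.2.1⟩
  have a3 : |Z.1.2| ≤ 4 * α := h1.2.2.trans h1.2.1
  have a4 : |Z.2.2| ≤ 4 * α := h2.2.2.trans h2.2.1
  have b1 : |Z.1.1 * Z.2.2| ≤ 4 * α * (4 * α) := by
    rw [abs_mul]
    gcongr
  have b2 : |Z.1.2 * Z.2.1| ≤ 4 * α * (4 * α) := by
    rw [abs_mul]
    gcongr
  have := abs_sub (Z.1.1 * Z.2.2) (Z.1.2 * Z.2.1)
  unfold dt
  linarith

lemma child_Fix {η ε K : ℝ} {m : ℕ} (hη : 0 ≤ η) (hK : 0 < K) {μ : Measure MM}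
    (h : ∀ (d : Dat) (Λ : ℝ) (Q : ℕ), d.ok Λ Q →
      ∑ q ∈ Icc 1 Q, LN μ q Prod.fst (pk d) ≤ ENNReal.ofReal (K * Λ ^ ε * d.xi ^ m *
        (d.DD * (Q + |d.H2|) + d.XX * (Q : ℝ) ^ η)))
    {d d' : Dat} {Λ ω X : ℝ} {Q Q' : ℕ} (hd : d.ok Λ Q) (hω : ω ≠ 0) (hω' : |ω| ≤ 32 * d.al ^ 2)
    (hal : d'.al = √|ω| / 2) (hg : Adm d'.al d'.g) (hH2 : |d'.H2| ≤ 4 / 3 * |d.H2|)
    (hH : d'.H = d.H) (hQ1 : 1 ≤ Q') (hQ : (Q' : ℝ) ≤ d.CC Q) (hx : d'.xi ≤ X) :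
    ∑ q ∈ Icc 1 Q', LN μ q Prod.fst (pk d') ≤ ENNReal.ofReal (K * (128 * Λ ^ 4) ^ ε * X ^ m *
      (ω ^ 2 * ((d.PP + d.H ^ 2) * (d.CC Q + |d.H2|) / |ω| +
        (d.H2 ^ 2 + d.PP) * d.CC Q ^ η))) := by
  have hΛ := hd.one_le
  obtain ⟨hα, -, k1, k2, k3, k4, -⟩ := hd
  have l1 : Λ ≤ Λ ^ 4 := le_self_pow₀ hΛ (by norm_num)
  have hA : 0 < √|ω| := Real.sqrt_pos.2 (abs_pos.2 hω)
  have hA2 : √|ω| ≤ 6 * d.al := by
    rw [Real.sqrt_le_left (by positivity)]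
    nlinarith [sq_nonneg d.al]
  have hC : d.CC Q ≤ 128 * Λ ^ 4 := by
    have q1 : (1 : ℝ) ≤ Q := by exact_mod_cast k4
    have q2 : d.H2 ^ 2 ≤ Λ ^ 2 := by
      rw [← sq_abs]
      gcongr
    calc d.CC Q ≤ 128 * d.al ^ 2 * d.H2 ^ 2 := div_le_self (by positivity) q1
      _ ≤ 128 * Λ ^ 2 * Λ ^ 2 := by gcongr
      _ = _ := by ring
  have hok : d'.ok (128 * Λ ^ 4) Q' :=
    ⟨by rw [hal]; linarith, hg, by rw [hal]; linarith, by linarith, by rw [hH]; linarith, hQ1,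
      hQ.trans hC⟩
  refine (h d' _ Q' hok).trans (ENNReal.ofReal_le_ofReal ?_)
  have hn := num_Fix (η := η) hη hω (d := d) (d' := d')
    (by rw [hal, div_pow, Real.sq_sqrt (abs_nonneg _)]; norm_num) hH2 hH hQ
  have := d'.DD_nonneg
  have := d'.XX_nonneg
  have := d'.one_le_xi
  have : 0 ≤ X := by linarith
  gcongr

theorem fix_stmt (hU : UmStmt) (hR : RtStmt) (hS : ShpStmt) (hT : ThStmt) (hM : MidStmt)
    (hP : SepStmt) (hA : AmpStmt) (hW : WhStmt) (hC : ChStmt) (hI : Id2Stmt) : FixStmt := by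
  classical
  intro η hη0 _ hAP
  obtain ⟨m0, hm0⟩ := hAP
  obtain ⟨μ, hμ⟩ := hU
  obtain ⟨C, hC0, hsep⟩ := hP 4 9 A2 f2 ex 11 hA.1 hA.2.1 hW.1
    (fun p hp => (hA.2.2.2.2 p hp).1) (m0 + 10)
  obtain ⟨B, hB0, hB⟩ := exists_intK 9
  have hc0 := hT.1
  refine ⟨m0 + (m0 + 10), fun ε hε => ?_⟩
  obtain ⟨K, hK, hKb⟩ := hm0 (ε / 4) (by linarith)
  refine ⟨9 * (2 * C * K * 128 ^ (ε / 4) * 4 ^ m0 * B) / c0, by positivity,
    fun d Λ Q Cm Z hd h1 h2 hb => ?_⟩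
  have hα := hd.1
  have hQ : 1 ≤ Q := hd.2.2.2.2.2.1
  have hΛ := hd.one_le
  set Gd := (Icc 1 Cm).filter fun c => ∃ z, Gc_Fix d Z Q c z ≠ 0 with hGd
  have e0 : ∀ z : Pr × Pr, swp Q Cm (nI z) * Fz d Z z =
      ∑ c ∈ Gd, dl c (nI z) * Gc_Fix d Z Q c z := by
    intro z
    rw [hGd, Finset.sum_filter_of_ne, swp, Finset.sum_mul]
    · refine Finset.sum_congr rfl fun c _ => ?_
      rw [Gc_Fix]
      ring
    · exact fun c _ h => ⟨z, right_ne_zero_of_mul h⟩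
  simp only [e0]
  rcases Gd.eq_empty_or_nonempty with hE | ⟨c1, hc1⟩
  · simp [hE]
  have hin : ∀ c ∈ Gd, 1 ≤ c ∧ 1 ≤ |dt Z| ∧ d.H2 ≠ 0 ∧ d.H ≠ 0 ∧ 1 / 4 ≤ pi2 d Z Q c 3 ∧
      pi2 d Z Q c 3 ≤ 4 := by
    intro c hc
    obtain ⟨k1, z, hz⟩ := Finset.mem_filter.1 hc
    have k2 := (Finset.mem_Icc.1 k1).1
    obtain ⟨a1, a2, a3, -, a5, a6⟩ := (hI d Z Q c z hα h1 h2 hb hQ k2).1 hz
    exact ⟨k2, a1, a2, a3, a5, a6⟩
  obtain ⟨-, hω1, hH2, hH, -⟩ := hin c1 hc1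
  have hω : dt Z ≠ 0 := abs_pos.1 (by linarith)
  have hω' := dt_Fix hα h1 h2
  have hQ0 : (0 : ℝ) < Q := by exact_mod_cast hQ
  set Q' : ℕ := ⌊4 * |dt Z| * d.H2 ^ 2 / Q⌋₊ with hQ'
  have hsub : Gd ⊆ Icc 1 Q' := by
    intro c hc
    obtain ⟨a0, -, -, -, a5, -⟩ := hin c hc
    refine Finset.mem_Icc.2 ⟨a0, Nat.le_floor ?_⟩
    have c0' : (0 : ℝ) < c := by exact_mod_cast a0
    have a6 : 1 / 4 ≤ |dt Z| * d.H2 ^ 2 / (c * Q) := a5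
    rw [le_div_iff₀ (by positivity)] at a6
    rw [le_div_iff₀ hQ0]
    linarith
  have hQ1 : 1 ≤ Q' := by
    have := Finset.mem_Icc.1 (hsub hc1)
    omega
  have hQC : (Q' : ℝ) ≤ d.CC Q := by
    refine (Nat.floor_le (by positivity)).trans (div_le_div_of_nonneg_right ?_ hQ0.le)
    nlinarith [sq_nonneg d.H2]
  set R : ℝ := (d.PP + d.H ^ 2) * (d.CC Q + |d.H2|) / |dt Z| +
    (d.H2 ^ 2 + d.PP) * d.CC Q ^ η with hRdef
  have hR0 : 0 ≤ R := by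
    have := d.PP_nonneg
    have := d.CC_nonneg Q
    positivity
  have hxi := d.one_le_xi
  set W : (Fin 9 → ℝ) → ℝ := fun ζ => C * (1 + |d.x1|) ^ (m0 + 10) / (1 + ‖ζ‖) ^ (m0 + 10)
    with hWdef
  have hone := fun c (hc : c ∈ Gd) => by
    obtain ⟨a0, -, -, -, a5, a6⟩ := hin c hc
    have hs := hsep (pi2 d Z Q c) d.x1 (pi_Fix hα h1 h2 hb hω hH2 a5 a6)
    exact one_Fix hR hS hM hC hI hμ hα h1 h2 hb hQ a0 hω hH2 hH (W := W) hs.choose_spec.1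
      hs.choose_spec.2.1 hs.choose_spec.2.2.1 hs.choose_spec.2.2.2
  have hμ' := (hR μ _ hμ (dt_rot hω)).1
  set T : ℝ := 2 * C * K * 128 ^ (ε / 4) * 4 ^ m0 * (Λ ^ ε * d.xi ^ (m0 + (m0 + 10)) * R)
    with hTdef
  have hT0 : 0 ≤ T := by positivity
  have key : ∀ j ∈ Icc (-1 : ℤ) 1 ×ˢ Icc (-1 : ℤ) 1,
      ∑ c ∈ Gd, ∫⁻ ζ, ENNReal.ofReal (1 / dt Z ^ 2 * W ζ) *
        (LN μ c Prod.fst (pk (ch1 (√|dt Z| / 2) √|dt Z| d.H2 d.x2 d.H j.1 ζ)) +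
          LN (μ.map (rm (rot (sg (dt Z))))) c Prod.fst
            (pk (ch2 (√|dt Z| / 2) (|dt Z| / √|dt Z|) d.H2 d.x2 d.H j.2 ζ))) ≤
      ENNReal.ofReal (T * B) := by
    intro j hj
    obtain ⟨j1, j2⟩ := Finset.mem_product.1 hj
    refine (sum_lintegral_le _ _ _).trans ?_
    rw [ENNReal.ofReal_mul hT0]
    refine le_trans ?_ (mul_le_mul' le_rfl hB)
    rw [← lintegral_const_mul' _ _ ENNReal.ofReal_ne_top]
    refine lintegral_mono fun ζ => ?_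
    rw [← Finset.mul_sum, Finset.sum_add_distrib]
    have b1 := child_Fix hη0.le hK (hKb μ hμ) hd hω hω'
      (d' := ch1 (√|dt Z| / 2) √|dt Z| d.H2 d.x2 d.H j.1 ζ) rfl (hC.1 _ _ _ _ _ _ _).1
      (H2_Fix _ j1) rfl hQ1 hQC (xi_Fix d ζ j1 5 7 rfl (abs_add_le _ _))
    have b2 := child_Fix hη0.le hK (hKb _ hμ') hd hω hω'
      (d' := ch2 (√|dt Z| / 2) (|dt Z| / √|dt Z|) d.H2 d.x2 d.H j.2 ζ) rfl (hC.1 _ _ _ _ _ _ _).2
      (H2_Fix _ j2) rfl hQ1 hQC (xi_Fix d ζ j2 6 8 (abs_neg _) (abs_sub _ _))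
    have b3 := add_le_add ((Finset.sum_le_sum_of_subset hsub).trans b1)
      ((Finset.sum_le_sum_of_subset hsub).trans b2)
    refine (mul_le_mul' le_rfl b3).trans ?_
    rw [← ENNReal.ofReal_add (by positivity) (by positivity),
      ← ENNReal.ofReal_mul (by positivity), ← ENNReal.ofReal_mul hT0]
    refine ENNReal.ofReal_le_ofReal ?_
    have n0 : 0 < 1 + ‖ζ‖ := by positivity
    have r1 : (128 * Λ ^ 4) ^ (ε / 4) = 128 ^ (ε / 4) * Λ ^ ε := by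
      rw [Real.mul_rpow (by norm_num) (by positivity), ← Real.rpow_natCast Λ 4,
        ← Real.rpow_mul (by linarith)]
      congr 2
      push_cast
      ring
    have r2 : (1 + |d.x1|) ^ (m0 + 10) ≤ d.xi ^ (m0 + 10) := by
      have : 1 + |d.x1| ≤ d.xi := le_add_of_nonneg_right (abs_nonneg _)
      gcongr
    rw [r1, ← hRdef]
    calc _ = 2 * C * K * 128 ^ (ε / 4) * 4 ^ m0 *
          (Λ ^ ε * (d.xi ^ m0 * (1 + |d.x1|) ^ (m0 + 10)) * R) * (1 / (1 + ‖ζ‖) ^ (9 + 1)) := by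
          simp only [hWdef, mul_pow, pow_add (1 + ‖ζ‖) m0 10]
          field_simp
          ring
      _ ≤ _ := by
          rw [hTdef, pow_add d.xi m0]
          gcongr
  have hsum : ∀ c ∈ Gd, Summable fun z : Orb => dl c (nI z.1) * Gc_Fix d Z Q c z.1 := by
    intro c hc
    refine Summable.of_norm_bounded (hone c hc).1 fun z => ?_
    rw [norm_mul]
    exact mul_le_of_le_one_left (norm_nonneg _) (norm_dl_le (hin c hc).1 _)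
  rw [Summable.tsum_finsetSum hsum, iE_pos hω1, one_mul]
  have fin : ENNReal.ofReal c0 * ‖∑ c ∈ Gd, ∑' z : Orb, dl c (nI z.1) * Gc_Fix d Z Q c z.1‖ₑ ≤
      ENNReal.ofReal (9 * (T * B)) := by
    refine (mul_le_mul' le_rfl (enorm_sum_le _ _)).trans ?_
    rw [Finset.mul_sum]
    refine (Finset.sum_le_sum fun c hc => (hone c hc).2).trans ?_
    rw [Finset.sum_comm]
    refine (Finset.sum_le_sum key).trans (le_of_eq ?_)
    have e9 : (Icc (-1 : ℤ) 1 ×ˢ Icc (-1 : ℤ) 1).card = 9 := by decide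
    rw [Finset.sum_const, ENNReal.ofReal_mul (p := 9) (by norm_num), nsmul_eq_mul, e9]
    norm_num
  have hne : ENNReal.ofReal c0 ≠ 0 := (ENNReal.ofReal_pos.2 hc0).ne'
  refine (ENNReal.mul_le_mul_iff_right hne ENNReal.ofReal_ne_top).1 (fin.trans (le_of_eq ?_))
  rw [← ENNReal.ofReal_mul hc0.le]
  congr 1
  rw [hTdef]
  field_simp

end Pool.Agent.MP_c853c5_nt.W
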