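import Pool.Agent.MP_c853c5_nt.W.Api

set_option autoImplicit false

open Finset MeasureTheory
open scoped ENNReal ComplexConjugate

namespace Pool.Agent.MP_c853c5_nt.W

open Pool.Agent.MP_2a1f0e_nt Pool.Agent.MP_2a1f0e_nt.GM Pool.Agent.MP_2a1f0e_nt.DH

/-- the weight at the complementary level `c` -/
noncomputable def Gc_Fix (d : Dat) (Z : MM) (Q c : ℕ) (z : Pr × Pr) : ℂ :=
  Fz d Z z * (Wt (|(nI z : ℝ)| / (c * Q)) : ℂ)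

lemma pow_Fix {i : ℤ} (hi : i ∈ Icc (-1 : ℤ) 1) :
    0 < (4 / 3 : ℝ) ^ i ∧ (4 / 3 : ℝ) ^ i ≤ 4 / 3 := by
  refine ⟨by positivity, ?_⟩
  have := zpow_le_zpow_right₀ (a := (4 / 3 : ℝ)) (by norm_num) (Finset.mem_Icc.1 hi).2
  rwa [zpow_one] at this

lemma H2_Fix (H2 : ℝ) {i : ℤ} (hi : i ∈ Icc (-1 : ℤ) 1) :
    |H2 * (4 / 3) ^ i| ≤ 4 / 3 * |H2| := by
  obtain ⟨h1, h2⟩ := pow_Fix hi
  rw [abs_mul, abs_of_pos h1, mul_comm]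
  exact mul_le_mul_of_nonneg_right h2 (abs_nonneg _)

lemma pi_Fix {d : Dat} {Z : MM} {Q c : ℕ} (hα : 0 < d.al) (h1 : Cn d.al Z.1) (h2 : Cn d.al Z.2)
    (hb : BigZ d Z) (hω : dt Z ≠ 0) (hH2 : d.H2 ≠ 0) (k1 : 1 / 4 ≤ pi2 d Z Q c 3)
    (k2 : pi2 d Z Q c 3 ≤ 4) : ‖pi2 d Z Q c‖ ≤ 11 := by
  refine (pi_norm_le_iff_of_nonneg (by norm_num)).2 fun i => ?_
  rw [Real.norm_eq_abs]
  fin_cases i
  · show |d.H / (dt Z * d.H2)| ≤ 11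
    rw [abs_div, abs_mul, div_le_iff₀ (mul_pos (abs_pos.2 hω) (abs_pos.2 hH2))]
    have : 1000 * |d.H| ≤ |dt Z| * |d.H2| := hb
    linarith [abs_nonneg d.H]
  · show |sg (dt Z)| ≤ 11
    rw [abs_sg hω]
    norm_num
  · show |Z.2.1 / Z.1.1| ≤ 11
    have h0 : 0 < Z.1.1 := by linarith [h1.1]
    have h3 : 0 < Z.2.1 := by linarith [h2.1]
    rw [abs_of_pos (div_pos h3 h0), div_le_iff₀ h0]
    linarith [h1.1, h2.2.1]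
  · exact abs_le.2 ⟨le_trans (by norm_num) k1, k2.trans (by norm_num)⟩

lemma one_Fix (hR : RtStmt) (hS : ShpStmt) (hM : MidStmt) (hC : ChStmt) (hI : Id2Stmt)
    {μ : Measure MM} (hμ : UM μ) {d : Dat} {Z : MM} {Q c : ℕ} (hα : 0 < d.al)
    (h1 : Cn d.al Z.1) (h2 : Cn d.al Z.2) (hb : BigZ d Z) (hQ : 1 ≤ Q) (hc : 1 ≤ c)
    (hω : dt Z ≠ 0) (hH2 : d.H2 ≠ 0) (hH : d.H ≠ 0) {cc : (Fin 9 → ℝ) → ℂ}
    {W : (Fin 9 → ℝ) → ℝ} (hm : Measurable cc) (hi : Integrable cc) (hW : ∀ ζ, ‖cc ζ‖ ≤ W ζ)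
    (hrep : ∀ y, (A2 (pi2 d Z Q c, y) : ℂ) * ex (d.x1 * f2 (pi2 d Z Q c, y)) =
      ∫ ζ, cc ζ * ex (∑ i, ζ i * y i)) :
    (Summable fun z : Orb => ‖Gc_Fix d Z Q c z.1‖) ∧
    ENNReal.ofReal c0 * ‖∑' z : Orb, dl c (nI z.1) * Gc_Fix d Z Q c z.1‖ₑ ≤
      ∑ j ∈ Icc (-1 : ℤ) 1 ×ˢ Icc (-1 : ℤ) 1, ∫⁻ ζ, ENNReal.ofReal (1 / dt Z ^ 2 * W ζ) *
        (LN μ c Prod.fst (pk (ch1 (√|dt Z| / 2) √|dt Z| d.H2 d.x2 d.H j.1 ζ)) +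
          LN (μ.map (rm (rot (sg (dt Z))))) c Prod.fst
            (pk (ch2 (√|dt Z| / 2) (|dt Z| / √|dt Z|) d.H2 d.x2 d.H j.2 ζ))) := by
  have hA : 0 < √|dt Z| := Real.sqrt_pos.2 (abs_pos.2 hω)
  have hA2 : 0 < √|dt Z| / 2 := by linarith
  have hj : ∀ i ∈ Icc (-1 : ℤ) 1, 5 / 6 * |d.H2 * (4 / 3) ^ i| ≤ |2 * d.H2| := by
    intro i hi
    have := H2_Fix d.H2 hi
    rw [abs_mul 2, abs_two]
    linarith [abs_nonneg d.H2]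
  obtain ⟨s1, s2⟩ := hM μ hμ (ℤ × ℤ) (Icc (-1 : ℤ) 1 ×ˢ Icc (-1 : ℤ) 1) 9 c Prod.fst Prod.fst
    (Sup (√|dt Z| / 2) (2 * d.H2) d.H)
    (fun P x => Sup (√|dt Z| / 2) (2 * d.H2) d.H P (rm (rot (sg (dt Z))) x))
    (fun j => k1 (√|dt Z| / 2) √|dt Z| d.H2 d.x2 d.H j.1)
    (fun j => k2 (√|dt Z| / 2) √|dt Z| (dt Z) d.H2 d.x2 d.H j.2)
    (fun ζ => ((1 / dt Z ^ 2 : ℝ) : ℂ) * cc ζ) √|dt Z| 1 (Gc_Fix d Z Q c) hc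
    ((hS μ hμ _ hA2).1 _ _) ((hS μ hμ _ hA2).2.1 _ _ _ (dt_rot hω)) hA one_pos
    (hm.const_mul _) (hi.const_mul _)
    (fun j hj' ζ => ⟨((hC.2.1 _ _ _ _ _ _ _ _ hω (hj _ (Finset.mem_product.1 hj').1)).1 ζ).1,
      ((hC.2.1 _ _ _ _ _ _ _ _ hω (hj _ (Finset.mem_product.1 hj').2)).1 ζ).2⟩)
    (fun j hj' P => ⟨((hC.2.1 _ _ _ _ _ _ _ _ hω (hj _ (Finset.mem_product.1 hj').1)).2 P).1,
      ((hC.2.1 _ _ _ _ _ _ _ _ hω (hj _ (Finset.mem_product.1 hj').2)).2 P).2⟩)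
    (fun z _ h => ((hI d Z Q c z hα h1 h2 hb hQ hc).1 h).2.2.2.1)
    (fun z _ x => by
      rw [Gc_Fix, (hI d Z Q c z hα h1 h2 hb hQ hc).2 hω hH2 hH x]
      refine Finset.sum_congr rfl fun j _ => ?_
      rw [hrep, ← integral_const_mul]
      refine integral_congr_ae (Filter.Eventually.of_forall fun ζ => ?_)
      simp only
      rw [← hC.2.2.2.1 _ _ _ _ _ _ _ _ _ _ _ _ ζ z x hω hA]
      ring)
  refine ⟨s1, s2.trans (Finset.sum_le_sum fun j _ => lintegral_mono fun ζ => ?_)⟩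
  rw [inv_one, ENNReal.ofReal_one, one_mul, one_mul]
  refine mul_le_mul' ?_ (add_le_add ?_ (le_of_eq ?_))
  · rw [← ofReal_norm, norm_mul, Complex.norm_real, Real.norm_of_nonneg (by positivity)]
    exact ENNReal.ofReal_le_ofReal (mul_le_mul_of_nonneg_left (hW ζ) (by positivity))
  · exact LN_mul_le μ c Prod.fst _ (a := fun x => ex (ζ 4 * dt x)) fun x => (norm_ex _).le
  · rw [LN, LN, LF, LF, (hR μ _ hμ (dt_rot hω)).2]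
    rfl

lemma num_Fix {d d' : Dat} {ω η : ℝ} {Q Q' : ℕ} (hη : 0 ≤ η) (hω : ω ≠ 0)
    (hal : d'.al ^ 2 = |ω| / 4) (hH2 : |d'.H2| ≤ 4 / 3 * |d.H2|) (hH : d'.H = d.H)
    (hQ : (Q' : ℝ) ≤ d.CC Q) :
    d'.DD * (Q' + |d'.H2|) + d'.XX * (Q' : ℝ) ^ η ≤
      ω ^ 2 * ((d.PP + d.H ^ 2) * (d.CC Q + |d.H2|) / |ω| + (d.H2 ^ 2 + d.PP) * d.CC Q ^ η) := by
  have h0 : 0 < |ω| := abs_pos.2 hω
  have hP : d'.PP ≤ 4 / 3 * d.PP := by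
    rw [Dat.PP, Dat.PP, hH, ← mul_assoc]
    exact mul_le_mul_of_nonneg_right hH2 (abs_nonneg _)
  have hP0 := d.PP_nonneg
  have hP1 := d'.PP_nonneg
  have hC0 := d.CC_nonneg Q
  have a0 := abs_nonneg d.H2
  have a1 := abs_nonneg d'.H2
  have hq : d'.H2 ^ 2 ≤ 16 / 9 * d.H2 ^ 2 := by
    rw [← sq_abs d'.H2, ← sq_abs d.H2]
    nlinarith
  have hD : d'.DD ≤ |ω| / 3 * (d.PP + d.H ^ 2) := by
    rw [Dat.DD, hal, hH]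
    nlinarith [sq_nonneg d.H]
  have hX : d'.XX ≤ ω ^ 2 * (d.H2 ^ 2 + d.PP) := by
    rw [Dat.XX, show d'.al ^ 4 = (d'.al ^ 2) ^ 2 by ring, hal, div_pow, sq_abs]
    nlinarith [sq_nonneg ω, sq_nonneg d.H2, mul_nonneg (sq_nonneg ω) hP0,
      mul_nonneg (sq_nonneg ω) (sq_nonneg d.H2),
      mul_le_mul_of_nonneg_left (add_le_add hq hP) (sq_nonneg ω)]
  have hr : (Q' : ℝ) ^ η ≤ d.CC Q ^ η := Real.rpow_le_rpow (Nat.cast_nonneg _) hQ hη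
  have e : ω ^ 2 * ((d.PP + d.H ^ 2) * (d.CC Q + |d.H2|) / |ω|) =
      |ω| / 3 * (d.PP + d.H ^ 2) * (3 * (d.CC Q + |d.H2|)) := by
    rw [← sq_abs ω]
    field_simp
  rw [mul_add (ω ^ 2), e, ← mul_assoc (ω ^ 2)]
  have := d'.DD_nonneg
  have := d'.XX_nonneg
  gcongr
  linarith

lemma xi_Fix (d : Dat) (ζ : Fin 9 → ℝ) {u v : ℝ} {i : ℤ} (hi : i ∈ Icc (-1 : ℤ) 1) (a b : Fin 9)
    (hu : |u| = |ζ a * (4 / 3) ^ i|) (hv : |v| ≤ |d.x2| + |ζ b|) :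
    1 + |u| + |v| ≤ 4 * (d.xi * (1 + ‖ζ‖)) := by
  have h1 : |ζ a| ≤ ‖ζ‖ := norm_le_pi_norm ζ a
  have h2 : |ζ b| ≤ ‖ζ‖ := norm_le_pi_norm ζ b
  have h3 := H2_Fix (ζ a) hi
  have h4 := norm_nonneg ζ
  have h5 := abs_nonneg d.x1
  have h6 := abs_nonneg d.x2
  rw [hu, Dat.xi]
  nlinarith [mul_nonneg h4 h5, mul_nonneg h4 h6]

end Pool.Agent.MP_c853c5_nt.W
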