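import Pool.Agent.MP_c853c5_nt.W.Api
set_option autoImplicit false
open Finset MeasureTheory
open scoped ENNReal ComplexConjugate
namespace Pool.Agent.MP_c853c5_nt.W
open Pool.Agent.MP_2a1f0e_nt Pool.Agent.MP_2a1f0e_nt.GM Pool.Agent.MP_2a1f0e_nt.DH

lemma sum_le_Gcd (S : Finset ℕ) {q : ℕ} (hq : 1 ≤ q) (F : ℕ → ℝ) (hF : ∀ m, 0 ≤ F m) (B : ℝ)
    (h : ∀ g : ℕ, 1 ≤ g → ∃ T : Finset ℕ, (∀ k, g * k ∈ S → k ∈ T) ∧
      ∑ k ∈ T, (g : ℝ) * F (g * k) ≤ B) :
    ∑ m ∈ S, (Nat.gcd m q : ℝ) * F m ≤ (q.divisors.card : ℝ) * B := by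
  rw [← sum_fiberwise_of_maps_to (t := q.divisors) (g := fun m => Nat.gcd m q)
    fun m _ => Nat.mem_divisors.2 ⟨Nat.gcd_dvd_right _ _, by omega⟩, ← nsmul_eq_mul]
  refine sum_le_card_nsmul _ _ _ fun g hg => ?_
  have h1 := Nat.pos_of_mem_divisors hg
  obtain ⟨T, h2, h3⟩ := h g h1
  refine le_trans ?_ h3
  rw [← sum_image (s := T) (g := fun k => g * k) (f := fun m => (g : ℝ) * F m)
    fun a _ b _ e => Nat.eq_of_mul_eq_mul_left h1 e,
    sum_congr rfl (g := fun m => (g : ℝ) * F m) fun m hm => by rw [(mem_filter.1 hm).2]]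
  refine sum_le_sum_of_subset_of_nonneg (fun m hm => ?_) fun m _ _ =>
    mul_nonneg (Nat.cast_nonneg _) (hF m)
  obtain ⟨h4, h5⟩ := mem_filter.1 hm
  obtain ⟨k, rfl⟩ : g ∣ m := h5 ▸ Nat.gcd_dvd_left m q
  exact mem_image_of_mem _ (h2 k h4)

lemma cancel_Gcd {g : ℕ} (hg : 1 ≤ g) (k : ℕ) : (g : ℝ) * (1 / ((g * k : ℕ) : ℝ)) = 1 / k := by
  have : (g : ℝ) ≠ 0 := by positivity
  rw [Nat.cast_mul, one_div, mul_inv, mul_inv_cancel_left₀ this, one_div]

lemma card_le_Gcd (S : Finset ℤ) {r : ℤ} (hr : 0 < r) {L : ℝ} (hL : 0 ≤ L)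
    (h : ∀ s ∈ S, ∀ t ∈ S, r ∣ s - t ∧ (s : ℝ) - t ≤ L) : (S.card : ℝ) ≤ L / r + 1 := by
  have hr' : (0 : ℝ) < r := by exact_mod_cast hr
  rcases S.eq_empty_or_nonempty with rfl | hS
  · rw [card_empty, Nat.cast_zero]
    positivity
  have hm := S.min'_mem hS
  have k : S ⊆ (range (⌊L / r⌋₊ + 1)).image fun k : ℕ => S.min' hS + r * k := by
    intro s hs
    obtain ⟨⟨c, hc⟩, h2⟩ := h s hs _ hm
    have h3 := S.min'_le s hs
    have h4 : 0 ≤ c := nonneg_of_mul_nonneg_right (by omega) hr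
    lift c to ℕ using h4
    refine mem_image.2 ⟨c, mem_range.2 (Nat.lt_succ_of_le (Nat.le_floor ?_)), by omega⟩
    rw [le_div_iff₀ hr', mul_comm]
    refine le_trans (le_of_eq ?_) h2
    exact_mod_cast hc.symm
  have k2 := (card_le_card k).trans card_image_le
  rw [card_range] at k2
  have k3 := Nat.floor_le (div_nonneg hL hr'.le)
  have k4 : (S.card : ℝ) ≤ ⌊L / r⌋₊ + 1 := by exact_mod_cast k2
  linarith

theorem gcd_stmt : GcdStmt := by
  refine ⟨fun q M hq => ?_, fun n M hn => ?_, fun e N he hN => ?_, fun h a n hh => ?_,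
    fun r a n Y S hr hg hY hS => ?_, fun m S hm hS => ?_⟩
  · simp only [div_eq_mul_one_div (Nat.gcd _ q : ℝ)]
    refine sum_le_Gcd _ hq (fun m => 1 / (m : ℝ)) (fun m => by positivity) _ fun g hg =>
      ⟨Icc 1 M, fun k hk => ?_, (sum_congr rfl fun k _ => cancel_Gcd hg k).le⟩
    rw [mem_Icc] at hk ⊢
    exact ⟨Nat.pos_of_mul_pos_left hk.1, (Nat.le_mul_of_pos_left k hg).trans hk.2⟩
  · have := sum_le_Gcd (Icc 1 M) hn (fun _ => 1) (fun _ => zero_le_one) M fun g hg =>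
      ⟨Icc 1 (M / g), fun k hk => ?_, ?_⟩
    · simpa using this
    · rw [mem_Icc] at hk ⊢
      exact ⟨Nat.pos_of_mul_pos_left hk.1, (Nat.le_div_iff_mul_le hg).2 (mul_comm g k ▸ hk.2)⟩
    · rw [sum_const, Nat.card_Icc, Nat.add_sub_cancel, nsmul_eq_mul, mul_one]
      exact_mod_cast Nat.div_mul_le_self M g
  · simp only [div_eq_mul_one_div (Nat.gcd _ e : ℝ)]
    rw [mul_comm (2 : ℝ)]
    refine sum_le_Gcd _ he (fun m => 1 / (m : ℝ)) (fun m => by positivity) _ fun g hg =>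
      ⟨Icc ((N - 1) / g + 1) (2 * ((N - 1) / g + 1)), fun k hk => ?_, ?_⟩
    · rw [mem_Icc] at hk ⊢
      have h1 := Nat.lt_mul_div_succ (N - 1) hg
      refine ⟨(Nat.div_lt_iff_lt_mul hg).2 (by rw [mul_comm]; omega),
        Nat.le_of_mul_le_mul_left (hk.2.trans ?_) hg⟩
      rw [mul_left_comm]
      omega
    · obtain ⟨c, hc⟩ : ∃ c, c = (N - 1) / g := ⟨_, rfl⟩
      rw [← hc, sum_congr rfl fun k _ => cancel_Gcd hg k]
      refine (sum_le_card_nsmul _ _ (1 / ((c + 1 : ℕ) : ℝ)) fun k hk => ?_).trans ?_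
      · exact one_div_le_one_div_of_le (by positivity) (by exact_mod_cast (mem_Icc.1 hk).1)
      · rw [Nat.card_Icc, nsmul_eq_mul, mul_one_div, div_le_iff₀ (by positivity)]
        exact_mod_cast (by omega)
  · have h1 : 0 < Int.gcd h a := Int.gcd_pos_of_ne_zero_left a hh
    obtain ⟨h', a', h2, h3, h4⟩ := Int.exists_gcd_one h1
    obtain ⟨g, hg⟩ : ∃ g, g = Int.gcd h a := ⟨_, rfl⟩
    rw [← hg] at h1 h3 h4 ⊢
    have h5 : h' ≠ 0 := fun e => hh (by rw [h3, e, zero_mul])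
    have h6 : 0 < |h'| := abs_pos.2 h5
    have h7 : (0 : ℝ) < |h'| := by exact_mod_cast h6
    have h8 : |h| = |h'| * g := by rw [h3, abs_mul, Nat.abs_cast]
    have k := card_le_Gcd ((Ico 0 |h|).filter fun d => h ∣ a * d - n) h6
      (L := ((|h| - 1 : ℤ) : ℝ)) (by exact_mod_cast (by have := abs_pos.2 hh; omega))
      fun s hs t ht => ?_
    · have k2 : ((|h| - 1 : ℤ) : ℝ) / (|h'| : ℤ) < g := by
        rw [div_lt_iff₀ (by exact_mod_cast h6), mul_comm]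
        exact_mod_cast (by omega)
      exact Nat.lt_succ_iff.1 (by exact_mod_cast k.trans_lt (add_lt_add_left k2 1))
    · simp only [mem_filter, mem_Ico] at hs ht
      refine ⟨(abs_dvd _ _).2 (Int.dvd_of_dvd_mul_right_of_gcd_one (b := a') ?_ h2),
        by exact_mod_cast (by omega)⟩
      have k3 := dvd_sub hs.2 ht.2
      rw [show a * s - n - (a * t - n) = a' * (s - t) * g by rw [h4]; ring, h3] at k3
      exact Int.dvd_of_mul_dvd_mul_right (by omega) k3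
  · rw [← Int.cast_abs]
    refine card_le_Gcd S (abs_pos.2 hr) (by positivity) fun s hs t ht =>
      ⟨(abs_dvd _ _).2 (Int.dvd_of_dvd_mul_right_of_gcd_one (b := a) ?_ hg), ?_⟩
    · have k3 := dvd_sub (hS s hs).2 (hS t ht).2
      rwa [show a * s - n - (a * t - n) = a * (s - t) by ring] at k3
    · linarith [(abs_le.1 (hS s hs).1).2, (abs_le.1 (hS t ht).1).1]
  · have k : m.divisors.card = 2 * m.natAbs.divisors.card := by
      rw [Int.divisors, card_disjUnion, card_map, card_map, two_mul]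
    rw [← k]
    refine card_le_card_of_injOn Prod.fst (fun x hx => ?_) fun x hx y hy e => ?_
    · exact mem_coe.2 (Int.mem_divisors.2 ⟨⟨x.2, (hS x hx).symm⟩, hm⟩)
    · have h1 := hS x hx
      have h2 := hS y hy
      refine Prod.ext e (mul_left_cancel₀ (a := y.1) (fun z => hm ?_) ?_)
      · rw [← h2, z, zero_mul]
      · rw [h2, ← e, h1]

end Pool.Agent.MP_c853c5_nt.W
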