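import Pool.Agent.MP_c853c5_nt.W.Api

set_option autoImplicit false

open Finset MeasureTheory
open scoped ENNReal ComplexConjugate

namespace Pool.Agent.MP_c853c5_nt.W

open Pool.Agent.MP_2a1f0e_nt Pool.Agent.MP_2a1f0e_nt.GM Pool.Agent.MP_2a1f0e_nt.DH

lemma cop_Gram {q : ℕ} {y : V} :
    Nat.Coprime (ct y) q ↔ ∃ a b c : ℤ, a * y.1 + b * y.2 + c * q = 1 := by
  rw [← Nat.isCoprime_iff_coprime]
  constructor
  · rintro ⟨s, c, hs⟩
    have hg : (ct y : ℤ) = y.1 * Int.gcdA y.1 y.2 + y.2 * Int.gcdB y.1 y.2 := Int.gcd_eq_gcd_ab _ _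
    rw [hg] at hs
    exact ⟨s * Int.gcdA y.1 y.2, s * Int.gcdB y.1 y.2, c, by linear_combination hs⟩
  · rintro ⟨a, b, c, h⟩
    obtain ⟨m, hm⟩ := ct_dvd_one y
    obtain ⟨n, hn⟩ := ct_dvd_two y
    exact ⟨a * m + b * n, c, by linear_combination h - a * hm - b * hn⟩

lemma trans_Gram {q : ℕ} {w u v : V} (hw : Nat.Coprime (ct w) q) (h1 : (q : ℤ) ∣ om2 w u)
    (h2 : (q : ℤ) ∣ om2 w v) : (q : ℤ) ∣ om2 u v := by
  obtain ⟨k, ⟨m, hm⟩, ⟨n, hn⟩⟩ := lin_mod hw h1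
  obtain ⟨r, hr⟩ := h2
  simp only [om2] at hr ⊢
  exact ⟨k * r + m * v.2 - n * v.1, by linear_combination k * hr + v.2 * hm - v.1 * hn⟩

lemma swap_Gram {q : ℕ} {u v : V} (h : (q : ℤ) ∣ om2 u v) : (q : ℤ) ∣ om2 v u := by
  rw [om2_swap]
  exact h.neg_right

lemma card_Gram {q : ℕ} (hq : 1 ≤ q) {y : V} (hy : Nat.Coprime (ct y) q) :
    q.totient = ((PQ q).filter fun w => (q : ℤ) ∣ om2 w y).card := by
  have hq0 : (0 : ℤ) < q := by exact_mod_cast hq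
  obtain ⟨a, b, c, h⟩ := cop_Gram.1 hy
  rw [Nat.totient_eq_card_coprime]
  refine card_nbij (fun l : ℕ => (((l : ℤ) * y.1) % q, ((l : ℤ) * y.2) % q)) (fun l hl => ?_)
    (fun l hl l' hl' e => ?_) fun w hw => ?_
  · obtain ⟨t, s, hs⟩ := Nat.isCoprime_iff_coprime.2 (mem_filter.1 (mem_coe.1 hl)).2
    have e1 := Int.emod_def ((l : ℤ) * y.1) q
    have e2 := Int.emod_def ((l : ℤ) * y.2) q
    refine mem_coe.2 (mem_filter.2 ⟨mem_PQ.2 ⟨⟨Int.emod_nonneg _ hq0.ne', Int.emod_lt_of_pos _ hq0⟩,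
      ⟨Int.emod_nonneg _ hq0.ne', Int.emod_lt_of_pos _ hq0⟩, cop_Gram.2 ⟨s * a, s * b,
        t + s * l * c + s * a * ((l : ℤ) * y.1 / q) + s * b * ((l : ℤ) * y.2 / q), ?_⟩⟩,
      ((l : ℤ) * y.2 / q) * y.1 - ((l : ℤ) * y.1 / q) * y.2, ?_⟩)
    · linear_combination hs + s * l * h + s * a * e1 + s * b * e2
    · simp only [om2]
      linear_combination y.2 * e1 - y.1 * e2
  · have h1 := mem_range.1 (mem_filter.1 (mem_coe.1 hl)).1
    have h2 := mem_range.1 (mem_filter.1 (mem_coe.1 hl')).1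
    obtain ⟨m, hm⟩ := Int.ModEq.dvd (congrArg Prod.fst e)
    obtain ⟨n, hn⟩ := Int.ModEq.dvd (congrArg Prod.snd e)
    have h3 : (q : ℤ) ∣ (l' : ℤ) - l :=
      ⟨a * m + b * n + c * (l' - l), by linear_combination a * hm + b * hn - (l' - l : ℤ) * h⟩
    exact Nat.ModEq.eq_of_lt_of_lt (Nat.modEq_iff_dvd.2 h3) h1 h2
  · obtain ⟨h1, h2⟩ := mem_filter.1 (mem_coe.1 hw)
    obtain ⟨h3, h4, h5⟩ := mem_PQ.1 h1
    obtain ⟨k, ⟨m, hm⟩, ⟨n, hn⟩⟩ := lin_mod hy (swap_Gram h2)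
    obtain ⟨a', b', c', h'⟩ := cop_Gram.1 h5
    obtain ⟨l, hl⟩ := Int.eq_ofNat_of_zero_le (Int.emod_nonneg k hq0.ne')
    have h6 := Int.emod_lt_of_pos k hq0
    have e := Int.emod_def k q
    rw [hl] at h6 e
    refine ⟨l, mem_coe.2 (mem_filter.2 ⟨mem_range.2 (by exact_mod_cast h6),
      Nat.isCoprime_iff_coprime.1 ⟨c' + a' * (m + k / q * y.1) + b' * (n + k / q * y.2),
        a' * y.1 + b' * y.2, ?_⟩⟩), Prod.ext ?_ ?_⟩
    · linear_combination h' - a' * hm - b' * hn + (a' * y.1 + b' * y.2) * e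
    · refine Eq.trans (Int.modEq_iff_dvd.2 ⟨m + k / q * y.1, ?_⟩) (Int.emod_eq_of_lt h3.1 h3.2)
      linear_combination hm - y.1 * e
    · refine Eq.trans (Int.modEq_iff_dvd.2 ⟨n + k / q * y.2, ?_⟩) (Int.emod_eq_of_lt h4.1 h4.2)
      linear_combination hn - y.2 * e

theorem gram_stmt : GramStmt := by
  intro q hq y y' hy _
  have h1 : ∀ w ∈ PQ q, ind q (om2 w y) * ind q (om2 w y') =
      (if (q : ℤ) ∣ om2 w y then 1 else 0) * ind q (om2 y y') := by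
    intro w hw
    unfold ind
    split_ifs with h
    · rw [iC_pos h]
      congr 1
      exact iC_congr ⟨trans_Gram (mem_PQ.1 hw).2.2 h, trans_Gram hy (swap_Gram h)⟩
    · rw [iC_neg h, zero_mul, zero_mul]
  rw [sum_congr rfl h1, ← sum_mul, sum_boole, ← card_Gram hq hy]

end Pool.Agent.MP_c853c5_nt.W
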