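import Pool.Agent.MP_c853c5_nt.W.Api
set_option autoImplicit false
open Finset MeasureTheory
open scoped ENNReal ComplexConjugate
namespace Pool.Agent.MP_c853c5_nt.W
open Pool.Agent.MP_2a1f0e_nt Pool.Agent.MP_2a1f0e_nt.GM Pool.Agent.MP_2a1f0e_nt.DH

lemma sum_ind_Grs (hG : GramStmt) {q : ℕ} (hq : 1 ≤ q) {y : V} (hy : Prim y) :
    ∑ w ∈ PQ q, ind q (om2 w y) = (q.totient : ℂ) := by
  have h := hG q hq y y (hy.coprime q) (hy.coprime q)
  have h0 : ind q (om2 y y) = 1 := by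
    rw [om2_self]
    exact iC_pos (dvd_zero _)
  rw [h0, mul_one] at h
  rw [← h]
  refine Finset.sum_congr rfl fun w _ => ?_
  unfold ind
  rw [← iC_and]
  exact iC_congr (and_self_iff.symm)

lemma summ_Grs {a : Pr → ℂ} (ha : Summable fun P => ‖a P‖) {c : Pr → ℂ} (hc : ∀ P, ‖c P‖ ≤ 1) :
    Summable fun P => ‖a P * c P‖ :=
  Summable.of_nonneg_of_le (fun _ => norm_nonneg _)
    (fun P => (norm_mul_le _ _).trans (mul_le_of_le_one_right (norm_nonneg _) (hc P))) ha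

lemma card_Grs (hC : CardStmt) {q : ℕ} (hq : 1 ≤ q) :
    ((PQ q).card : ℂ) = (q.totient : ℂ) * (psiD q : ℂ) := by
  exact_mod_cast hC q hq

lemma sub_av_Grs (hC : CardStmt) (hG : GramStmt) {q : ℕ} (hq : 1 ≤ q) (pt : Pr → V) {a : Pr → ℂ}
    (ha : Summable fun P => ‖a P‖) (hp : ∀ P, a P ≠ 0 → Prim (pt P)) (w : V) :
    (∑' P : Pr, a P * ind q (om2 w (pt P))) -
      av q (fun w => ∑' P : Pr, a P * ind q (om2 w (pt P))) =
      ∑' P : Pr, a P * dl q (om2 w (pt P)) := by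
  have hφ : (q.totient : ℂ) ≠ 0 := by exact_mod_cast (Nat.totient_pos.2 hq).ne'
  have hψ : (psiD q : ℂ) ≠ 0 := by exact_mod_cast (zero_lt_one.trans_le (one_le_psiD hq)).ne'
  have hs : ∀ w, Summable fun P => a P * ind q (om2 w (pt P)) := fun w =>
    (summ_Grs ha fun P => norm_ind_le q _).of_norm
  have h1 : ∑ w ∈ PQ q, ∑' P : Pr, a P * ind q (om2 w (pt P)) =
      (∑' P : Pr, a P) * (q.totient : ℂ) := by
    rw [← Summable.tsum_finsetSum fun w _ => hs w, ← tsum_mul_right]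
    refine tsum_congr fun P => ?_
    by_cases h0 : a P = 0
    · simp [h0]
    · rw [← Finset.mul_sum, sum_ind_Grs hG hq (hp P h0)]
  have h2 : av q (fun w => ∑' P : Pr, a P * ind q (om2 w (pt P))) =
      ∑' P : Pr, a P * ((1 / psiD q : ℝ) : ℂ) := by
    rw [av, h1, card_Grs hC hq, tsum_mul_right]
    push_cast
    field_simp
  rw [h2, ← Summable.tsum_sub (hs w) (ha.of_norm.mul_right _)]
  exact tsum_congr fun P => by rw [dl, mul_sub]

lemma conj_dl_Grs (q : ℕ) (n : ℤ) : conj (dl q n) = dl q n := by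
  rw [dl, map_sub, Complex.conj_ofReal, ind, conj_iC]

lemma sum_dl_Grs (hC : CardStmt) (hG : GramStmt) {q : ℕ} (hq : 1 ≤ q) {y y' : V} (hy : Prim y)
    (hy' : Prim y') :
    ∑ w ∈ PQ q, dl q (om2 w y) * dl q (om2 w y') = (q.totient : ℂ) * dl q (om2 y y') := by
  have hψ : (psiD q : ℂ) ≠ 0 := by exact_mod_cast (zero_lt_one.trans_le (one_le_psiD hq)).ne'
  have e : ∀ w, dl q (om2 w y) * dl q (om2 w y') =
      ind q (om2 w y) * ind q (om2 w y') - ((1 / psiD q : ℝ) : ℂ) * ind q (om2 w y) -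
        ((1 / psiD q : ℝ) : ℂ) * ind q (om2 w y') + ((1 / psiD q : ℝ) : ℂ) ^ 2 := fun w => by
    simp only [dl]
    ring
  simp only [e, Finset.sum_add_distrib, Finset.sum_sub_distrib, ← Finset.mul_sum,
    Finset.sum_const, nsmul_eq_mul]
  rw [hG q hq y y' (hy.coprime q) (hy'.coprime q), sum_ind_Grs hG hq hy, sum_ind_Grs hG hq hy',
    card_Grs hC hq, dl]
  push_cast
  field_simp
  ring

lemma abs_Grs {ι κ : Type} (S : Finset κ) (f g : κ → ι → ℂ) (hf : ∀ w, Summable fun P => ‖f w P‖)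
    (hg : ∀ w, Summable fun P => ‖g w P‖) :
    ∑ w ∈ S, (∑' P, f w P) * conj (∑' P, g w P) =
      ∑' z : ι × ι, ∑ w ∈ S, f w z.1 * conj (g w z.2) := by
  have hg' : ∀ w, Summable fun P => ‖conj (g w P)‖ := fun w => by simpa using hg w
  rw [Summable.tsum_finsetSum fun w _ => summable_mul_of_summable_norm (hf w) (hg' w)]
  refine Finset.sum_congr rfl fun w _ => ?_
  rw [Complex.conj_tsum, tsum_mul_tsum_of_summable_norm (hf w) (hg' w)]

theorem grs_stmt (hC : CardStmt) (hG : GramStmt) : GrsStmt := by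
  intro q hq pt₁ pt₂ a b ha hb hpa hpb
  have hφ : (q.totient : ℂ) ≠ 0 := by exact_mod_cast (Nat.totient_pos.2 hq).ne'
  have sa : ∀ w, Summable fun P => ‖a P * dl q (om2 w (pt₁ P))‖ := fun w =>
    summ_Grs ha fun P => norm_dl_le hq _
  have sb : ∀ w, Summable fun P => ‖b P * dl q (om2 w (pt₂ P))‖ := fun w =>
    summ_Grs hb fun P => norm_dl_le hq _
  rw [BV]
  simp only [sub_av_Grs hC hG hq pt₁ ha hpa, sub_av_Grs hC hG hq pt₂ hb hpb]
  rw [abs_Grs (PQ q) (fun w P => a P * dl q (om2 w (pt₁ P)))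
    (fun w P => b P * dl q (om2 w (pt₂ P))) sa sb, ← tsum_div_const]
  refine tsum_congr fun z => ?_
  by_cases h1 : a z.1 = 0
  · simp [h1]
  by_cases h2 : b z.2 = 0
  · simp [h2]
  have e : ∀ w, (a z.1 * dl q (om2 w (pt₁ z.1))) * conj (b z.2 * dl q (om2 w (pt₂ z.2))) =
      (a z.1 * conj (b z.2)) * (dl q (om2 w (pt₁ z.1)) * dl q (om2 w (pt₂ z.2))) := fun w => by
    rw [map_mul, conj_dl_Grs]
    ring
  simp only [e, ← Finset.mul_sum]
  rw [sum_dl_Grs hC hG hq (hpa _ h1) (hpb _ h2)]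
  field_simp

end Pool.Agent.MP_c853c5_nt.W
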