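import Pool.Agent.MP_c853c5_nt.W.IdC

set_option autoImplicit false

open Finset MeasureTheory
open scoped ComplexConjugate

namespace Pool.Agent.MP_c853c5_nt.W

open Pool.Agent.MP_2a1f0e_nt Pool.Agent.MP_2a1f0e_nt.GM Pool.Agent.MP_2a1f0e_nt.DH

namespace Id

lemma Fz_eq (d : Dat) (Z : MM) (z : Pr × Pr) :
    Fz d Z z = iC (Prim z.1.1) * iC (Prim z.1.2) * (iC (Prim z.2.1) * iC (Prim z.2.2)) *
      (E d.x2 ((hh z.1 : ℝ) / d.H) * conj (E d.x2 ((hh z.2 : ℝ) / d.H))) *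
      ((1 / (rI z : ℝ) ^ 2 * om (dt Z / (rI z : ℝ)) ^ 2 *
        (om (((pI z : ℝ) - (hh z.1 : ℝ) * (Z.2.1 / Z.1.1)) / ((rI z : ℝ) * d.H2)) *
          om (((sI z : ℝ) + (hh z.2 : ℝ) / (Z.2.1 / Z.1.1)) / ((rI z : ℝ) * d.H2))) : ℝ) : ℂ) *
      ex (d.x1 * (((pI z : ℝ) - (hh z.1 : ℝ) * (Z.2.1 / Z.1.1)) / ((rI z : ℝ) * d.H2) -
        ((sI z : ℝ) + (hh z.2 : ℝ) / (Z.2.1 / Z.1.1)) / ((rI z : ℝ) * d.H2))) := by
  unfold Fz
  rw [iC_and, iC_and, iC_and, map_mul, mul_sub, sub_eq_add_neg (d.x1 * _), ex_add, ← conj_ex]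
  conv_lhs => rw [E, E.eq_1 d.x1, map_mul, Complex.conj_ofReal]
  push_cast
  ring

end Id

open _root_.Pool.Agent.MP_c853c5_nt.W.Id

theorem id2_stmt : Id2Stmt := by
  intro d Z Q c z hα hZ1 hZ2 hbig hQ hc
  have hβ := beta_bd hα hZ1 hZ2
  have hcQ : (0 : ℝ) < c * Q := by positivity
  have e4 := rel4 z
  constructor
  · intro h
    rw [Fz_eq] at h
    simp only [ne_eq, mul_eq_zero, not_or, Complex.ofReal_eq_zero, pow_eq_zero_iff two_ne_zero,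
      one_div, inv_eq_zero] at h
    obtain ⟨⟨⟨⟨-, h7, h8⟩, ⟨hr, oD⟩, o1, o2⟩, -⟩, hW⟩ := h
    have o7 := E_ne h7
    have o8 := cE_ne h8
    have h2 : d.H2 ≠ 0 := by
      intro h0
      rw [h0, mul_zero, div_zero] at o1
      exact o1 (om_eq_zero (Or.inl zero_le_one))
    have hH : d.H ≠ 0 := by
      intro h0
      rw [h0, div_zero] at o7
      exact o7 (om_eq_zero (Or.inl zero_le_one))
    have hr' : rI z ≠ 0 := by exact_mod_cast hr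
    have hr1 : (1 : ℝ) ≤ |(rI z : ℝ)| := by
      rw [← Int.cast_abs]
      exact_mod_cast Int.one_le_abs hr'
    have hD := (om_ne oD).1
    have hω1 : 1 ≤ |dt Z| := by
      have := hD.le.trans (le_abs_self _)
      rw [abs_div, le_div_iff₀ (by linarith)] at this
      linarith
    have hω : dt Z ≠ 0 := abs_pos.1 (by linarith)
    obtain ⟨k1, k2, -⟩ := old_bd hω h2 hH hr hβ hbig e4 oD o1 o2 o7 o8
    rw [← wt_eq hω h2 hcQ (by linarith)] at hW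
    obtain ⟨w1, w2⟩ := mem_of_Wt_ne_zero hW
    have hκ : 0 ≤ |dt Z| * d.H2 ^ 2 / (c * Q) := by positivity
    refine ⟨hω1, h2, hH, hr', ?_, ?_⟩
    · show 1 / 4 ≤ |dt Z| * d.H2 ^ 2 / (c * Q)
      have := mul_le_mul_of_nonneg_left k2 hκ
      linarith
    · show |dt Z| * d.H2 ^ 2 / (c * Q) ≤ 4
      have := mul_le_mul_of_nonneg_left k1 hκ
      linarith
  · intro hω h2 hH x
    have hA : 0 < √|dt Z| := Real.sqrt_pos.2 (abs_pos.2 hω)
    have hωA : dt Z = sg (dt Z) * √|dt Z| ^ 2 := by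
      rw [Real.sq_sqrt (abs_nonneg _), sg_abs hω]
    have hs := sg_sq hω
    set y := yv √|dt Z| (dt Z) d.H2 d.H2 d.H d.H z x with hy
    set π := pi2 d Z Q c with hπ
    have G := fun hr g0 g3 g4 gr => good2 (κ := |dt Z| * d.H2 ^ 2 / (c * Q))
      (β := Z.2.1 / Z.1.1) π y hA hωA hs h2 hH
      (by linarith [hβ.1]) hr (rel1 z x) (rel2 z x) (rel3 z x) e4 rfl rfl rfl rfl rfl rfl rfl rfl
      rfl rfl rfl rfl rfl g0 g3 g4 gr
    have eR : ∑ j ∈ Icc (-1 : ℤ) 1 ×ˢ Icc (-1 : ℤ) 1, ((1 / dt Z ^ 2 : ℝ) : ℂ) *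
        (k1 (√|dt Z| / 2) √|dt Z| d.H2 d.x2 d.H j.1 0 z.1 x *
          conj (k2 (√|dt Z| / 2) √|dt Z| (dt Z) d.H2 d.x2 d.H j.2 0 z.2 x)) *
        ((A2 (π, y) : ℂ) * ex (d.x1 * f2 (π, y))) =
        iC (Prim z.1.1) * iC (Prim z.1.2) * (iC (Prim z.2.1) * iC (Prim z.2.2)) *
        (E d.x2 ((hh z.1 : ℝ) / d.H) * conj (E d.x2 ((hh z.2 : ℝ) / d.H))) *
        (iC (Cn (√|dt Z| / 2) (vx z.1.2 x)) *
          iC (Cn (√|dt Z| / 2) ((vx z.2.2 x).2 * sg (dt Z), -((vx z.2.2 x).1 * sg (dt Z))))) *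
        ((om (dt x) ^ 2 * ((∑ i ∈ Icc (-1 : ℤ) 1, om (tt z.1 x / d.H2 / (4 / 3) ^ i)) *
          ∑ i ∈ Icc (-1 : ℤ) 1, om (tr z.2 x / d.H2 / (4 / 3) ^ i)) *
          (1 / dt Z ^ 2 * A2 (π, y)) : ℝ) : ℂ) * ex (d.x1 * f2 (π, y)) := by
      rw [Finset.sum_mul_sum, ← Finset.sum_product']
      push_cast
      simp only [Finset.mul_sum, Finset.sum_mul]
      refine Finset.sum_congr rfl fun j _ => ?_
      rw [k1_zero, k2_zero _ _ _ _ _ hω]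
      ring
    rw [eR, Fz_eq]
    by_cases hE : E d.x2 ((hh z.1 : ℝ) / d.H) * conj (E d.x2 ((hh z.2 : ℝ) / d.H)) = 0
    · simp only [hE, mul_zero, zero_mul]
    have o7 := E_ne (left_ne_zero_of_mul hE)
    have o8 := cE_ne (right_ne_zero_of_mul hE)
    by_cases hL : (rI z : ℝ) ≠ 0 ∧ om (dt Z / (rI z : ℝ)) ≠ 0 ∧
        om (((pI z : ℝ) - (hh z.1 : ℝ) * (Z.2.1 / Z.1.1)) / ((rI z : ℝ) * d.H2)) ≠ 0 ∧
        om (((sI z : ℝ) + (hh z.2 : ℝ) / (Z.2.1 / Z.1.1)) / ((rI z : ℝ) * d.H2)) ≠ 0 ∧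
        th0 √|dt Z| z x ≠ 0
    · obtain ⟨hr, oD, o1, o2, ht⟩ := hL
      obtain ⟨c1, c2, c3, c5, c6, ⟨b0, b1, b2, b3, b4⟩, g0, g3, g4, gr⟩ :=
        supp2 hA hωA hs h2 hH hr hβ hbig (rel1 z x) (rel2 z x) (rel3 z x) e4 oD o1 o2 o7 o8 ht
      obtain ⟨-, -, -, a1, a2, a3⟩ := G hr g0 g3 g4 gr
      obtain ⟨k1, -⟩ := old_bd hω h2 hH hr hβ hbig e4 oD o1 o2 o7 o8
      have hcut : cut y = 1 := by
        refine cut_one fun i => ?_
        have q7 := om_ne o7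
        have q8 := om_ne o8
        fin_cases i
        · exact b0
        · exact b1
        · exact b2
        · exact b3
        · exact b4
        · exact ab10 (le_trans (by norm_num) c5.1) (c5.2.trans (by norm_num))
        · exact ab10 (le_trans (by norm_num) c6.1) (c6.2.trans (by norm_num))
        · exact ab10 (le_trans (by norm_num) q7.1.le) (q7.2.le.trans (by norm_num))
        · exact ab10 (le_trans (by norm_num) q8.1.le) (q8.2.le.trans (by norm_num))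
      have s5 := three c5.1 c5.2
      have s6 := three c6.1 c6.2
      rw [wt_eq hω h2 hcQ (by linarith), hcut] at a3
      rw [iC_pos (p := Cn (√|dt Z| / 2) (vx z.1.2 x)) c1, iC_pos c2, f2, a1, a2, a3, c3]
      unfold tt tr
      rw [s5, s6]
      unfold th0
      have hr' : ((rI z : ℝ) : ℂ) ≠ 0 := by exact_mod_cast hr
      have hω' : ((dt Z : ℝ) : ℂ) ≠ 0 := by exact_mod_cast hω
      push_cast at hr' ⊢
      field_simp
    · have hL0 : ((1 / (rI z : ℝ) ^ 2 * om (dt Z / (rI z : ℝ)) ^ 2 *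
          (om (((pI z : ℝ) - (hh z.1 : ℝ) * (Z.2.1 / Z.1.1)) / ((rI z : ℝ) * d.H2)) *
          om (((sI z : ℝ) + (hh z.2 : ℝ) / (Z.2.1 / Z.1.1)) / ((rI z : ℝ) * d.H2))) : ℝ) : ℂ) *
          (th0 √|dt Z| z x : ℂ) = 0 := by
        by_contra h
        simp only [mul_eq_zero, not_or, Complex.ofReal_eq_zero, pow_eq_zero_iff two_ne_zero,
          one_div, inv_eq_zero] at h
        exact hL ⟨h.1.1.1, h.1.1.2, h.1.2.1, h.1.2.2, h.2⟩
      have hR0 :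
          iC (Cn (√|dt Z| / 2) ((vx z.2.2 x).2 * sg (dt Z), -((vx z.2.2 x).1 * sg (dt Z)))) *
          ((om (dt x) * A2 (π, y) : ℝ) : ℂ) = 0 := by
        by_contra h
        have hc2 := iC_ne (left_ne_zero_of_mul h)
        have h3 := Complex.ofReal_ne_zero.1 (right_ne_zero_of_mul h)
        have oD := left_ne_zero_of_mul h3
        have hA2 := right_ne_zero_of_mul h3
        have ht : thA (π, y) ≠ 0 := left_ne_zero_of_mul (left_ne_zero_of_mul hA2)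
        obtain ⟨t1, t2, -⟩ := th_ne (left_ne_zero_of_mul ht)
        obtain ⟨hr, g0, g3, g4, gr⟩ := back2 hA hωA hs (rel1 z x) hc2 oD t1 t2
        obtain ⟨-, -, -, -, -, a3⟩ := G hr g0 g3 g4 gr
        rw [a3] at hA2
        simp only [ne_eq, mul_eq_zero, not_or, pow_eq_zero_iff two_ne_zero] at hA2
        exact hL ⟨hr, hA2.1.2.2, hA2.2.1.1, hA2.2.1.2, hA2.1.1.1⟩
      push_cast at hL0 hR0 ⊢
      linear_combination
        (iC (Prim z.1.1) * iC (Prim z.1.2) * (iC (Prim z.2.1) * iC (Prim z.2.2)) *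
          (E d.x2 ((hh z.1 : ℝ) / d.H) * conj (E d.x2 ((hh z.2 : ℝ) / d.H))) *
          ex (d.x1 * (((pI z : ℝ) - (hh z.1 : ℝ) * (Z.2.1 / Z.1.1)) / ((rI z : ℝ) * d.H2) -
            ((sI z : ℝ) + (hh z.2 : ℝ) / (Z.2.1 / Z.1.1)) / ((rI z : ℝ) * d.H2))) *
          (Wt (|(nI z : ℝ)| / (c * Q)) : ℂ)) * hL0 -
        (iC (Prim z.1.1) * iC (Prim z.1.2) * (iC (Prim z.2.1) * iC (Prim z.2.2)) *
          (E d.x2 ((hh z.1 : ℝ) / d.H) * conj (E d.x2 ((hh z.2 : ℝ) / d.H))) *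
          iC (Cn (√|dt Z| / 2) (vx z.1.2 x)) * (om (dt x) : ℂ) *
          ((∑ i ∈ Icc (-1 : ℤ) 1, (om (tt z.1 x / d.H2 / (4 / 3) ^ i) : ℂ)) *
          ∑ i ∈ Icc (-1 : ℤ) 1, (om (tr z.2 x / d.H2 / (4 / 3) ^ i) : ℂ)) *
          (1 / (dt Z : ℂ) ^ 2) * ex (d.x1 * f2 (π, y))) * hR0

end Pool.Agent.MP_c853c5_nt.W
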