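import Pool.Agent.MP_c853c5_nt.W.IdD

set_option autoImplicit false

open Finset MeasureTheory
open scoped ComplexConjugate

namespace Pool.Agent.MP_c853c5_nt.W

open Pool.Agent.MP_2a1f0e_nt Pool.Agent.MP_2a1f0e_nt.GM Pool.Agent.MP_2a1f0e_nt.DH

open _root_.Pool.Agent.MP_c853c5_nt.W.Id

lemma ratio_Id3 {N a : ℕ} (hN : 1 ≤ N) (ha : a ∈ Icc N (2 * N)) :
    1 / 2 ≤ (N : ℝ) / a ∧ (N : ℝ) / a ≤ 1 := by
  obtain ⟨h1, h2⟩ := Finset.mem_Icc.1 ha
  have h3 : (N : ℝ) ≤ a := by exact_mod_cast h1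
  have h4 : (a : ℝ) ≤ 2 * N := by exact_mod_cast h2
  have h5 : (1 : ℝ) ≤ N := by exact_mod_cast hN
  have h6 : (0 : ℝ) < a := by linarith
  rw [le_div_iff₀ h6, div_le_one h6]
  exact ⟨by linarith, h3⟩

theorem id3_stmt : Id3Stmt := by
  intro L T y A₀ H' y₁ y₂ N a b e f z hL hy hA hH hN ha hb he hf hy1 hy2 hμ hz
  have hA0 : 0 < A₀ := by linarith
  have hca := ratio_Id3 hN ha
  have hcb := ratio_Id3 hN hb
  have hN0 : (0 : ℝ) < N := by exact_mod_cast hN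
  have he0 : (0 : ℝ) < e := by exact_mod_cast he
  have hf0 : (0 : ℝ) < f := by exact_mod_cast hf
  have ha0 : (0 : ℝ) < a := by
    have := (Finset.mem_Icc.1 ha).1
    exact_mod_cast (by omega : 0 < a)
  have hb0 : (0 : ℝ) < b := by
    have := (Finset.mem_Icc.1 hb).1
    exact_mod_cast (by omega : 0 < b)
  have h1 : 0 < y₁ := by rw [hy1]; positivity
  have h2 : 0 < y₂ := by rw [hy2]; positivity
  have hr : (rI z : ℝ) = -(z.2.2.1 : ℝ) := by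
    simp only [rI, om2, hz.1]
    push_cast
    ring
  have hs : (sI z : ℝ) = -(z.2.1.1 : ℝ) := by
    simp only [sI, om2, hz.1]
    push_cast
    ring
  have eG : GT T y a b e f H' z = iC (hh z.1 = 1) * (iC (Prim z.2.1) * iC (Prim z.2.2)) *
      ((om ((z.2.1.1 : ℝ) / y₁ * (N / a)) * om ((z.2.1.2 : ℝ) / y₁ * (N / b)) *
        om ((z.2.2.1 : ℝ) / y₂) * om ((z.2.2.2 : ℝ) / y₂) * om ((hh z.2 : ℝ) / H') : ℝ) : ℂ) *
      wh (T * Real.log (((z.2.1.1 : ℝ) * z.2.2.2) / ((z.2.1.2 : ℝ) * z.2.2.1))) := by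
    have a1 : (z.2.1.1 : ℝ) / y₁ * (N / a) = e * z.2.1.1 / (a * y) := by
      rw [hy1]
      field_simp
    have a2 : (z.2.1.2 : ℝ) / y₁ * (N / b) = e * z.2.1.2 / (b * y) := by
      rw [hy1]
      field_simp
    have a3 : (z.2.2.1 : ℝ) / y₂ = f * z.2.2.1 / y := by
      rw [hy2]
      field_simp
    have a4 : (z.2.2.2 : ℝ) / y₂ = f * z.2.2.2 / y := by
      rw [hy2]
      field_simp
    rw [a1, a2, a3, a4, GT, Gw, iC_and]
    push_cast
    ring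
  constructor
  · intro h h0
    rw [eG] at h
    have h3 := Complex.ofReal_ne_zero.1 (right_ne_zero_of_mul (left_ne_zero_of_mul h))
    have h4 := right_ne_zero_of_mul (left_ne_zero_of_mul (left_ne_zero_of_mul h3))
    have h5 : (z.2.2.1 : ℝ) = 0 := by
      rw [h0] at hr
      simpa using hr
    rw [h5, zero_div] at h4
    exact h4 (om_eq_zero (Or.inl zero_le_one))
  intro x
  have hω : -y₂ ≠ 0 := by linarith
  have hσ : sg (-y₂) = -1 := by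
    rcases sg_cases hω with h | h
    · linarith [h.2]
    · exact h.1
  set Y := yv A₀ (-y₂) 1 (y₁ / y₂) 1 H' z x with hY
  set π := pi3 N a b A₀ y₁ y₂ H' with hπ
  have eR : ∑ j ∈ Ico (-3 : ℤ) 5,
      (kL A₀ 0 z.1 x * conj (k2 (y₂ / A₀) A₀ (-y₂) (y₁ / y₂) 0 H' j 0 z.2 x)) *
      ((A3 (π, Y) : ℂ) * wh (T * H' / (y₁ * y₂) * f3 L (π, Y))) =
      iC (SupL (A₀ / 2) z.1 x) * (iC (Prim z.2.1) * iC (Prim z.2.2)) *
      (iC (Cn (y₂ / A₀) ((vx z.2.2 x).2 * -1, -((vx z.2.2 x).1 * -1))) *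
        ((om (dt x) * (om ((hh z.2 : ℝ) / H') * A3 (π, Y)) : ℝ) : ℂ)) *
      ((om (dt x) * ∑ j ∈ Ico (-3 : ℤ) 5, om (tr z.2 x / (y₁ / y₂) / (4 / 3) ^ j) : ℝ) : ℂ) *
      wh (T * H' / (y₁ * y₂) * f3 L (π, Y)) := by
    push_cast
    simp only [Finset.mul_sum, Finset.sum_mul]
    refine Finset.sum_congr rfl fun j _ => ?_
    rw [k2_zero _ _ _ _ _ hω, hσ, E_zero, Complex.conj_ofReal]
    simp only [kL, Pi.zero_apply, zero_mul, add_zero, zero_div, ex_zero]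
    ring
  rw [eR, eG]
  by_cases hh1 : hh z.1 = 1
  swap
  · rw [iC_neg hh1, iC_neg (p := SupL (A₀ / 2) z.1 x) fun h => hh1 h.1]
    simp only [zero_mul]
  have hu : z.1.1 = (1, 0) := by
    have e1 : hh z.1 = z.1.1.1 := by simp [hh, om2, hz.1]
    have e2 := hz.2
    rw [← e1, hh1] at e2
    refine Prod.ext (by rw [← e1, hh1]) ?_
    have : |(1 : ℤ)| = 1 := rfl
    simp only
    omega
  have hp : (pI z : ℝ) = (z.2.2.2 : ℝ) := by
    simp only [pI, om2, hu]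
    push_cast
    ring
  have e1 := rel1 z x
  have e2 := rel2 z x
  have e3 := rel3 z x
  have e4 : (hh z.2 : ℝ) = (z.2.1.1 : ℝ) * z.2.2.2 - (z.2.1.2 : ℝ) * z.2.2.1 := by
    simp only [hh, om2]
    push_cast
    ring
  rw [hr] at e1 e2 e3
  rw [hp, hh1, Int.cast_one, one_mul] at e2
  rw [hs] at e3
  have G := fun g0 g3 g4 gr => good3 (ca := (N : ℝ) / a) (cb := (N : ℝ) / b) π Y hA0 h1 h2 hH
    e1 e2 e3 e4 rfl rfl rfl rfl rfl rfl rfl rfl rfl rfl rfl rfl g0 g3 g4 gr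
  unfold th0
  rw [hr]
  by_cases hS : om ((z.2.1.1 : ℝ) / y₁ * (N / a)) ≠ 0 ∧ om ((z.2.1.2 : ℝ) / y₁ * (N / b)) ≠ 0 ∧
      om ((z.2.2.1 : ℝ) / y₂) ≠ 0 ∧ om ((z.2.2.2 : ℝ) / y₂) ≠ 0 ∧ om ((hh z.2 : ℝ) / H') ≠ 0 ∧
      th ((vx z.1.2 x).1 / A₀) ((vx z.1.2 x).2 / A₀) ((vx z.2.2 x).1 * A₀ / -(z.2.2.1 : ℝ))
        ((vx z.2.2 x).2 * A₀ / -(z.2.2.1 : ℝ)) ≠ 0
  · obtain ⟨o1, o2, o3, o4, o8, ht⟩ := hS
    obtain ⟨c1, c2, c3, c5, c6, ⟨b0, b1, b2, b3⟩, g0, g3, gv, gz⟩ :=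
      supp3 hA h1 h2 hH hca hcb hμ e1 e2 e3 o1 o2 o3 o4 o8 ht
    have q3 := om_ne o3
    have q8 := om_ne o8
    obtain ⟨a3, a4⟩ := G g0 g3 (le_trans (by norm_num) c3.1) (by linarith [q3.1])
    have hcut : cut Y = 1 := by
      refine cut_one fun i => ?_
      fin_cases i
      · exact b0
      · exact b1
      · exact b2
      · exact b3
      · exact ab10 (le_trans (by norm_num) c3.1) (c3.2.trans (by norm_num))
      · show |tt z.1 x / 1| ≤ 10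
        rw [div_one]
        exact c5.trans (by norm_num)
      · exact ab10 (le_trans (by norm_num) c6.1) (c6.2.trans (by norm_num))
      · show |(hh z.1 : ℝ) / 1| ≤ 10
        rw [hh1]
        norm_num
      · exact ab10 (le_trans (by norm_num) q8.1.le) (q8.2.le.trans (by norm_num))
    have hSL : SupL (A₀ / 2) z.1 x := by
      refine ⟨hh1, ?_, by rw [hh1]; norm_num, c1, le_trans (by norm_num) c3.1,
        c3.2.trans (by norm_num), by rw [abs_one, mul_one]; exact c5, by rw [hh1]; norm_num,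
        by rw [hh1]; norm_num⟩
      rw [hz.1]
      rfl
    have hv2 : (z.2.1.2 : ℝ) ≠ 0 := by
      intro h0
      rw [h0] at gv
      norm_num at gv
    have hw1 : (z.2.2.1 : ℝ) ≠ 0 := by
      intro h0
      rw [h0] at q3
      norm_num at q3
    have hlog : Real.log (((z.2.1.1 : ℝ) * z.2.2.2) / ((z.2.1.2 : ℝ) * z.2.2.1)) =
        (hh z.2 : ℝ) / ((z.2.1.2 : ℝ) * z.2.2.1) *
          L ((hh z.2 : ℝ) / ((z.2.1.2 : ℝ) * z.2.2.1)) := by
      rw [← hL.2 _ gz]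
      congr 1
      rw [e4]
      field_simp
      ring
    have s6 := eight c6.1 c6.2
    rw [iC_pos hh1, iC_pos hSL, iC_pos c2, a4 L T gv, hlog, a3, hcut, om_one c3.1 c3.2]
    unfold tr
    rw [s6]
    push_cast
    ring
  · have hL0 : ((om ((z.2.1.1 : ℝ) / y₁ * (N / a)) * om ((z.2.1.2 : ℝ) / y₁ * (N / b)) *
        om ((z.2.2.1 : ℝ) / y₂) * om ((z.2.2.2 : ℝ) / y₂) * om ((hh z.2 : ℝ) / H') : ℝ) : ℂ) *
        (th ((vx z.1.2 x).1 / A₀) ((vx z.1.2 x).2 / A₀) ((vx z.2.2 x).1 * A₀ / -(z.2.2.1 : ℝ))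
          ((vx z.2.2 x).2 * A₀ / -(z.2.2.1 : ℝ)) : ℂ) = 0 := by
      by_contra h
      simp only [mul_eq_zero, not_or, Complex.ofReal_eq_zero] at h
      exact hS ⟨h.1.1.1.1.1, h.1.1.1.1.2, h.1.1.1.2, h.1.1.2, h.1.2, h.2⟩
    have hR0 : iC (Cn (y₂ / A₀) ((vx z.2.2 x).2 * -1, -((vx z.2.2 x).1 * -1))) *
        ((om (dt x) * (om ((hh z.2 : ℝ) / H') * A3 (π, Y)) : ℝ) : ℂ) = 0 := by
      by_contra h
      have hc2 := iC_ne (left_ne_zero_of_mul h)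
      have h3 := Complex.ofReal_ne_zero.1 (right_ne_zero_of_mul h)
      have oD := left_ne_zero_of_mul h3
      have o8 := left_ne_zero_of_mul (right_ne_zero_of_mul h3)
      have hA3 := right_ne_zero_of_mul (right_ne_zero_of_mul h3)
      have ht : thA (π, Y) ≠ 0 := left_ne_zero_of_mul hA3
      obtain ⟨t1, t2, -⟩ := th_ne (left_ne_zero_of_mul ht)
      obtain ⟨g0, g3, g4, gr⟩ := back3 hA0 h2 e1 hc2 oD t1 t2
      obtain ⟨a3, -⟩ := G g0 g3 g4 gr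
      rw [a3] at hA3
      simp only [ne_eq, mul_eq_zero, not_or] at hA3
      exact hS ⟨hA3.2.1.1.1, hA3.2.1.1.2, hA3.2.1.2, hA3.2.2, o8, hA3.1.1⟩
    rw [hR0, mul_zero, zero_mul, zero_mul, mul_right_comm _ (wh _), mul_assoc (iC _ * _), hL0,
      mul_zero, zero_mul]

end Pool.Agent.MP_c853c5_nt.W
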