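import Pool.Agent.MP_c853c5_nt.W.Defs

set_option autoImplicit false

open Finset MeasureTheory
open scoped ComplexConjugate

namespace Pool.Agent.MP_c853c5_nt.W.Id

open Pool.Agent.MP_2a1f0e_nt Pool.Agent.MP_2a1f0e_nt.GM Pool.Agent.MP_2a1f0e_nt.DH

lemma iv_eq {x : ℝ} (h : 1 / 10 ≤ x) : iv x = x⁻¹ := by
  unfold iv
  rw [Real.smoothTransition.one_of_one_le (by linarith), one_mul]

lemma bb_ne {x : ℝ} (h : bb x ≠ 0) : |x| < 1 / 100 := by
  by_contra h1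
  refine h (bmp.zero_of_le_dist ?_)
  rw [Real.dist_eq, sub_zero]
  exact not_lt.1 h1

lemma om_ne {x : ℝ} (h : om x ≠ 0) : 1 < x ∧ x < 5 / 3 := by
  by_contra h1
  rw [not_and_or, not_lt, not_lt] at h1
  exact h (om_eq_zero h1)

lemma om_one {x : ℝ} (h1 : 5 / 4 ≤ x) (h2 : x ≤ 4 / 3) : om x = 1 := by
  unfold om
  rw [psi_eq_one (by linarith), psi_eq_zero h1, sub_zero]

lemma cut_one {y : Fin 9 → ℝ} (h : ∀ i, |y i| ≤ 10) : cut y = 1 :=
  Finset.prod_eq_one fun i _ => bmq.one_of_mem_closedBall (by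
    rw [Metric.mem_closedBall, Real.dist_eq, sub_zero]
    exact h i)

lemma th_ne {a₁ a₂ b₁ b₂ : ℝ} (h : th a₁ a₂ b₁ b₂ ≠ 0) :
    |a₁ - 1| < 1 / 100 ∧ |a₂| < 1 / 100 ∧ |b₁| < 1 / 100 ∧ |b₂ - 32 / 25| < 1 / 100 := by
  unfold th at h
  simp only [ne_eq, mul_eq_zero, not_or] at h
  exact ⟨bb_ne h.1.1.1, bb_ne h.1.1.2, bb_ne h.1.2, bb_ne h.2⟩

lemma tele (w : ℝ) (i : ℤ) :
    om (w / (4 / 3) ^ i) = psi (w / (4 / 3) ^ (i + 1)) - psi (w / (4 / 3) ^ i) := by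
  unfold om
  congr 2
  rw [zpow_add_one₀ (by norm_num)]
  field_simp

lemma three {w : ℝ} (h1 : 15 / 16 ≤ w) (h2 : w ≤ 16 / 9) :
    ∑ i ∈ Icc (-1 : ℤ) 1, om (w / (4 / 3) ^ i) = 1 := by
  have e : Icc (-1 : ℤ) 1 = {-1, 0, 1} := by decide
  rw [e, Finset.sum_insert (by decide), Finset.sum_insert (by decide), Finset.sum_singleton,
    tele, tele, tele]
  have a : psi (w / (4 / 3) ^ ((1 : ℤ) + 1)) = 1 := psi_eq_one (by
    rw [div_le_one (by positivity)]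
    norm_num
    linarith)
  have b : psi (w / (4 / 3) ^ (-1 : ℤ)) = 0 := psi_eq_zero (by
    rw [le_div_iff₀ (by positivity)]
    norm_num
    linarith)
  rw [a, b]
  norm_num

lemma eight {w : ℝ} (h1 : 135 / 256 ≤ w) (h2 : w ≤ 1024 / 243) :
    ∑ i ∈ Ico (-3 : ℤ) 5, om (w / (4 / 3) ^ i) = 1 := by
  have e : Ico (-3 : ℤ) 5 = {-3, -2, -1, 0, 1, 2, 3, 4} := by decide
  rw [e, Finset.sum_insert (by decide), Finset.sum_insert (by decide),
    Finset.sum_insert (by decide), Finset.sum_insert (by decide), Finset.sum_insert (by decide),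
    Finset.sum_insert (by decide), Finset.sum_insert (by decide), Finset.sum_singleton]
  simp only [tele]
  have a : psi (w / (4 / 3) ^ ((4 : ℤ) + 1)) = 1 := psi_eq_one (by
    rw [div_le_one (by positivity)]
    norm_num
    linarith)
  have b : psi (w / (4 / 3) ^ (-3 : ℤ)) = 0 := psi_eq_zero (by
    rw [le_div_iff₀ (by positivity)]
    norm_num
    linarith)
  rw [a, b]
  norm_num

lemma sg_cases {ω : ℝ} (h : ω ≠ 0) : sg ω = 1 ∧ 0 < ω ∨ sg ω = -1 ∧ ω < 0 := by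
  unfold sg
  rcases lt_or_gt_of_ne h with h1 | h1
  · right
    rw [abs_of_neg h1]
    exact ⟨by field_simp, h1⟩
  · left
    rw [abs_of_pos h1]
    exact ⟨by field_simp, h1⟩

lemma sg_sq {ω : ℝ} (h : ω ≠ 0) : sg ω * sg ω = 1 := by
  rcases sg_cases h with h1 | h1 <;> rw [h1.1] <;> norm_num

lemma sg_abs {ω : ℝ} (h : ω ≠ 0) : sg ω * |ω| = ω := by
  unfold sg
  have := abs_pos.2 h
  field_simp

lemma vx_rm (s : ℝ) (u : V) (x : MM) :
    vx u (rm (rot s) x) = ((vx u x).2 * s, -((vx u x).1 * s)) := by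
  simp only [vx, rm, rt, rot]
  ext <;> simp only <;> ring

lemma dt_rm {s : ℝ} (hs : s * s = 1) (x : MM) : dt (rm (rot s) x) = dt x := by
  simp only [dt, rm, rt, rot]
  linear_combination (x.1.1 * x.2.2 - x.1.2 * x.2.1) * hs

lemma tt_rm {s : ℝ} (hs : s * s = 1) (P : Pr) (x : MM) : tt P (rm (rot s) x) = tr P x := by
  have h0 : s ≠ 0 := by
    rintro rfl
    norm_num at hs
  simp only [tt, tr, vx_rm]
  rw [mul_div_mul_right _ _ h0]

lemma rel1 (z : Pr × Pr) (x : MM) :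
    (vx z.1.2 x).1 * (vx z.2.2 x).2 - (vx z.1.2 x).2 * (vx z.2.2 x).1 = (rI z : ℝ) * dt x := by
  simp only [vx, rI, om2, dt]
  push_cast
  ring

lemma rel2 (z : Pr × Pr) (x : MM) : (rI z : ℝ) * (vx z.1.1 x).1 =
    (pI z : ℝ) * (vx z.1.2 x).1 - (hh z.1 : ℝ) * (vx z.2.2 x).1 := by
  simp only [vx, rI, pI, hh, om2]
  push_cast
  ring

lemma rel3 (z : Pr × Pr) (x : MM) : (rI z : ℝ) * (vx z.2.1 x).2 =
    (hh z.2 : ℝ) * (vx z.1.2 x).2 + (sI z : ℝ) * (vx z.2.2 x).2 := by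
  simp only [vx, rI, sI, hh, om2]
  push_cast
  ring

lemma rel4 (z : Pr × Pr) :
    (hh z.1 : ℝ) * (hh z.2 : ℝ) = (nI z : ℝ) * (rI z : ℝ) - (pI z : ℝ) * (sI z : ℝ) := by
  simp only [rI, sI, pI, nI, hh, om2]
  push_cast
  ring

lemma iC_and (p q : Prop) : iC (p ∧ q) = iC p * iC q := by
  unfold iC
  by_cases hp : p <;> by_cases hq : q <;> simp [hp, hq]

lemma iC_pos {p : Prop} (h : p) : iC p = 1 := by
  unfold iC
  rw [if_pos h]

lemma iC_neg {p : Prop} (h : ¬ p) : iC p = 0 := by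
  unfold iC
  rw [if_neg h]

lemma iC_ne {p : Prop} (h : iC p ≠ 0) : p := by
  by_contra h1
  exact h (iC_neg h1)

lemma conj_iC (p : Prop) : conj (iC p) = iC p := by
  unfold iC
  split_ifs <;> simp

lemma E_zero (w : ℝ) : E 0 w = (om w : ℂ) := by
  unfold E
  rw [zero_mul, ex_zero, mul_one]

lemma k1_zero (α A₀ H2 ξ H : ℝ) (i : ℤ) (P : Pr) (x : MM) :
    k1 α A₀ H2 ξ H i 0 P x = iC (Prim P.1) * iC (Prim P.2) * iC (Cn α (vx P.2 x)) *
      (om (dt x) : ℂ) * E ξ ((hh P : ℝ) / H) * (om (tt P x / H2 / (4 / 3) ^ i) : ℂ) := by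
  simp only [k1, pk, pa, ch1, Pi.zero_apply, zero_mul, add_zero, zero_div, ex_zero, mul_one,
    one_mul, E_zero, div_div]
  ring

lemma k2_zero (α A₀ H2 ξ H : ℝ) {ω : ℝ} (hω : ω ≠ 0) (i : ℤ) (P : Pr) (x : MM) :
    conj (k2 α A₀ ω H2 ξ H i 0 P x) = iC (Prim P.1) * iC (Prim P.2) *
      iC (Cn α ((vx P.2 x).2 * sg ω, -((vx P.2 x).1 * sg ω))) *
      (om (dt x) : ℂ) * conj (E ξ ((hh P : ℝ) / H)) * (om (tr P x / H2 / (4 / 3) ^ i) : ℂ) := by
  simp only [k2, pk, pa, ch2, Pi.zero_apply, zero_mul, sub_zero, zero_div, neg_zero, ex_zero,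
    mul_one, E_zero, div_div, vx_rm, dt_rm (sg_sq hω), tt_rm (sg_sq hω), map_mul, conj_iC,
    Complex.conj_ofReal]
  ring

end Pool.Agent.MP_c853c5_nt.W.Id
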