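import Pool.Agent.MP_c853c5_nt.W.IdB

set_option autoImplicit false

open Finset MeasureTheory
open scoped ComplexConjugate

namespace Pool.Agent.MP_c853c5_nt.W

open Pool.Agent.MP_2a1f0e_nt Pool.Agent.MP_2a1f0e_nt.GM Pool.Agent.MP_2a1f0e_nt.DH

namespace Id

/-- size of the normalised invariants -/
lemma nh_bd {D a b y7 y8 lam β : ℝ} (hD : 1 < D ∧ D < 5 / 3) (ha : 1 < a ∧ a < 5 / 3)
    (hb : 1 < b ∧ b < 5 / 3) (h7 : 1 < y7 ∧ y7 < 5 / 3) (h8 : 1 < y8 ∧ y8 < 5 / 3)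
    (hl : |lam| ≤ 1 / 1000) (hβ : 1 / 4 ≤ β ∧ β ≤ 4) :
    |y7 * lam * β * D| ≤ 1 / 90 ∧ |y8 * lam * β⁻¹ * D| ≤ 1 / 90 ∧
    0.586 ≤ D⁻¹ * (a + y7 * lam * β * D) * (b - y8 * lam * β⁻¹ * D) + y7 * y8 * lam ^ 2 * D ∧
    D⁻¹ * (a + y7 * lam * β * D) * (b - y8 * lam * β⁻¹ * D) + y7 * y8 * lam ^ 2 * D ≤ 2.82 := by
  have hβ0 : 0 < β := by linarith [hβ.1]
  have hD0 : 0 < D := by linarith [hD.1]
  have hi : β⁻¹ ≤ 4 := by
    rw [inv_le_comm₀ hβ0 (by norm_num)]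
    linarith [hβ.1]
  have k : ∀ y g : ℝ, 1 < y ∧ y < 5 / 3 → 0 ≤ g → g ≤ 4 → |y * lam * g * D| ≤ 1 / 90 := by
    intro y g hy hg hg'
    rw [abs_mul, abs_mul, abs_mul, abs_of_pos (by linarith [hy.1] : 0 < y), abs_of_nonneg hg,
      abs_of_pos hD0]
    calc y * |lam| * g * D ≤ 5 / 3 * (1 / 1000) * 4 * (5 / 3) := by
          gcongr
          · exact hy.2.le
          · exact hD.2.le
      _ = 1 / 90 := by norm_num
  have k1 := k y7 β h7 hβ0.le hβ.2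
  have k2 := k y8 β⁻¹ h8 (inv_nonneg.2 hβ0.le) hi
  have d1 : D⁻¹ ≤ 1 := inv_le_one_of_one_le₀ hD.1.le
  have d2 : 3 / 5 ≤ D⁻¹ := by
    rw [le_inv_comm₀ (by norm_num) hD0]
    linarith [hD.2]
  have l2 : lam ^ 2 ≤ (1 / 1000) ^ 2 := by
    rw [← sq_abs]
    gcongr
  have e0 : 0 ≤ y7 * y8 * lam ^ 2 * D := by
    have := h7.1
    have := h8.1
    positivity
  have e1 : y7 * y8 * lam ^ 2 * D ≤ 5 / 3 * (5 / 3) * (1 / 1000) ^ 2 * (5 / 3) := by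
    have := h7.1
    have := h8.1
    gcongr
    · exact h7.2.le
    · exact h8.2.le
    · exact hD.2.le
  obtain ⟨p1, p2⟩ := abs_le.1 k1
  obtain ⟨q1, q2⟩ := abs_le.1 k2
  refine ⟨k1, k2, ?_, ?_⟩
  · have f1 : 89 / 90 ≤ a + y7 * lam * β * D := by linarith [ha.1]
    have f2 : 89 / 90 ≤ b - y8 * lam * β⁻¹ * D := by linarith [hb.1]
    have f3 : 0 ≤ a + y7 * lam * β * D := by linarith
    have : 3 / 5 * (89 / 90) * (89 / 90) ≤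
        D⁻¹ * (a + y7 * lam * β * D) * (b - y8 * lam * β⁻¹ * D) := by
      gcongr
    linarith
  · have : D⁻¹ * (a + y7 * lam * β * D) * (b - y8 * lam * β⁻¹ * D) ≤
        1 * (151 / 90) * (151 / 90) := by
      gcongr <;> linarith [ha.1, hb.1, ha.2, hb.2]
    linarith

lemma beta_bd {α : ℝ} {a b : R2} (hα : 0 < α) (ha : Cn α a) (hb : Cn α b) :
    1 / 4 ≤ b.1 / a.1 ∧ b.1 / a.1 ≤ 4 := by
  have h0 : 0 < a.1 := by linarith [ha.1]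
  rw [le_div_iff₀ h0, div_le_iff₀ h0]
  constructor <;> linarith [ha.1, ha.2.1, hb.1, hb.2.1]

lemma lam_bd {ω H2 H : ℝ} (hω : ω ≠ 0) (h2 : H2 ≠ 0) (h : 1000 * |H| ≤ |ω| * |H2|) :
    |H / (ω * H2)| ≤ 1 / 1000 := by
  rw [abs_div, abs_mul, div_le_iff₀ (mul_pos (abs_pos.2 hω) (abs_pos.2 h2))]
  linarith

/-- the invariant `n` in terms of the old variables -/
lemma nh_eq {ω H2 H β r p s n h h' : ℝ} (hω : ω ≠ 0) (h2 : H2 ≠ 0) (hH : H ≠ 0) (hβ : β ≠ 0)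
    (hr : r ≠ 0) (e4 : h * h' = n * r - p * s) :
    (ω / r)⁻¹ * ((p - h * β) / (r * H2) + h / H * (H / (ω * H2)) * β * (ω / r)) *
        ((s + h' / β) / (r * H2) - h' / H * (H / (ω * H2)) * β⁻¹ * (ω / r)) +
      h / H * (h' / H) * (H / (ω * H2)) ^ 2 * (ω / r) = n / (ω * H2 ^ 2) := by
  have : n = (h * h' + p * s) / r := by
    field_simp
    linarith
  rw [this]
  field_simp
  ring

lemma wt_eq {ω H2 n c : ℝ} (hω : ω ≠ 0) (h2 : H2 ≠ 0) (hc : 0 < c)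
    (hn : 0 ≤ n / (ω * H2 ^ 2)) : |ω| * H2 ^ 2 / c * (n / (ω * H2 ^ 2)) = |n| / c := by
  rw [← abs_of_nonneg hn, abs_div, abs_mul, abs_of_nonneg (sq_nonneg H2)]
  have := abs_pos.2 hω
  field_simp

/-- exact values of the smooth functions where every inverse is a true inverse -/
lemma good2 {A0 ω sg' H2 H β κ r p s n h h' a1 a2 b1 b2 u1 w2 D : ℝ} (π : Fin 4 → ℝ)
    (y : Fin 9 → ℝ) (hA : 0 < A0) (hω : ω = sg' * A0 ^ 2) (hs : sg' * sg' = 1) (h2 : H2 ≠ 0)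
    (hH : H ≠ 0) (hβ : 1 / 10 ≤ β) (hr : r ≠ 0)
    (e1 : a1 * b2 - a2 * b1 = r * D) (e2 : r * u1 = p * a1 - h * b1)
    (e3 : r * w2 = h' * a2 + s * b2) (e4 : h * h' = n * r - p * s)
    (p0 : π 0 = H / (ω * H2)) (p1 : π 1 = sg') (p2 : π 2 = β) (p3 : π 3 = κ)
    (y0 : y 0 = a1 / A0) (y1 : y 1 = a2 / A0) (y2 : y 2 = b1 * A0 / ω) (y3 : y 3 = b2 * A0 / ω)
    (y4 : y 4 = D) (y5 : y 5 = u1 / a1 / H2) (y6 : y 6 = w2 / b2 / H2) (y7 : y 7 = h / H)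
    (y8 : y 8 = h' / H) (g0 : 1 / 10 ≤ y 0) (g3 : 1 / 10 ≤ y 3) (g4 : 1 / 10 ≤ y 4)
    (gr : 1 / 10 ≤ r / ω) :
    iv (rh (π, y)) = ω / r ∧ ph2 (π, y) = p / (r * H2) ∧ sh2 (π, y) = s / (r * H2) ∧
    z1 (π, y) = (p - h * β) / (r * H2) ∧ z2 (π, y) = (s + h' / β) / (r * H2) ∧
    A2 (π, y) = th (a1 / A0) (a2 / A0) (b1 * A0 / r) (b2 * A0 / r) * cut y *
      ((ω / r) ^ 2 * om (ω / r) ^ 2) * (om ((p - h * β) / (r * H2)) *
        om ((s + h' / β) / (r * H2)) * Wt (κ * (n / (ω * H2 ^ 2)))) := by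
  have hs0 : sg' ≠ 0 := by
    rintro rfl
    norm_num at hs
  have hω0 : ω ≠ 0 := by
    rw [hω]
    positivity
  have hβ0 : β ≠ 0 := by linarith
  have ha1 : a1 ≠ 0 := by
    rintro rfl
    rw [y0] at g0
    norm_num at g0
  have hb2 : b2 ≠ 0 := by
    rintro rfl
    rw [y3] at g3
    norm_num at g3
  have hD : D ≠ 0 := by
    rw [y4] at g4
    linarith
  have hrh : rh (π, y) = r / ω := by
    simp only [rh]
    rw [iv_eq g4, y0, y1, y2, y3, y4]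
    field_simp
    linarith
  have hir : iv (rh (π, y)) = ω / r := by rw [hrh, iv_eq gr, inv_div]
  have hu : u1 = (p * a1 - h * b1) / r := by
    field_simp
    linarith
  have hw : w2 = (h' * a2 + s * b2) / r := by
    field_simp
    linarith
  have hsi : sg' = sg'⁻¹ := by
    field_simp
    linarith
  have hph : ph2 (π, y) = p / (r * H2) := by
    simp only [ph2]
    rw [hir, iv_eq g0, y0, y2, y5, y7, p0, p1, hu, hω]
    field_simp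
    ring
  have hsh : sh2 (π, y) = s / (r * H2) := by
    simp only [sh2]
    rw [hir, iv_eq g3, y1, y3, y6, y8, p0, p1, hw, hω]
    field_simp
    linear_combination (-(h' * a2)) * hs
  have hz1 : z1 (π, y) = (p - h * β) / (r * H2) := by
    simp only [z1]
    rw [hir, hph, y7, p0, p2]
    field_simp
  have hz2 : z2 (π, y) = (s + h' / β) / (r * H2) := by
    simp only [z2]
    rw [hir, hsh, y8, p0, p2, iv_eq hβ]
    field_simp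
  have hn : nh2 (π, y) = n / (ω * H2 ^ 2) := by
    simp only [nh2]
    have : n = (h * h' + p * s) / r := by
      field_simp
      linarith
    rw [hir, hrh, hph, hsh, y7, y8, p0, this]
    field_simp
    ring
  refine ⟨hir, hph, hsh, hz1, hz2, ?_⟩
  simp only [A2, thA]
  rw [hir, hz1, hz2, hn, p3, y0, y1, y2, y3]
  congr 4 <;> field_simp

lemma old_bd {ω H2 H β r p s n h h' : ℝ} (hω : ω ≠ 0) (h2 : H2 ≠ 0) (hH : H ≠ 0) (hr : r ≠ 0)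
    (hβ : 1 / 4 ≤ β ∧ β ≤ 4) (hbig : 1000 * |H| ≤ |ω| * |H2|) (e4 : h * h' = n * r - p * s)
    (oD : om (ω / r) ≠ 0) (o1 : om ((p - h * β) / (r * H2)) ≠ 0)
    (o2 : om ((s + h' / β) / (r * H2)) ≠ 0) (o7 : om (h / H) ≠ 0) (o8 : om (h' / H) ≠ 0) :
    0.586 ≤ n / (ω * H2 ^ 2) ∧ n / (ω * H2 ^ 2) ≤ 2.82 ∧
    89 / 90 ≤ p / (r * H2) ∧ p / (r * H2) ≤ 151 / 90 ∧
    89 / 90 ≤ s / (r * H2) ∧ s / (r * H2) ≤ 151 / 90 := by
  have hβ0 : β ≠ 0 := by linarith [hβ.1]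
  obtain ⟨k1, k2, k3, k4⟩ := nh_bd (om_ne oD) (om_ne o1) (om_ne o2) (om_ne o7) (om_ne o8)
    (lam_bd hω h2 hbig) hβ
  rw [nh_eq hω h2 hH hβ0 hr e4] at k3 k4
  have a1 : p / (r * H2) =
      (p - h * β) / (r * H2) + h / H * (H / (ω * H2)) * β * (ω / r) := by
    field_simp
    ring
  have a2 : s / (r * H2) =
      (s + h' / β) / (r * H2) - h' / H * (H / (ω * H2)) * β⁻¹ * (ω / r) := by
    field_simp
    ring
  obtain ⟨p1, p2⟩ := abs_le.1 k1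
  obtain ⟨q1, q2⟩ := abs_le.1 k2
  have b1 := om_ne o1
  have b2 := om_ne o2
  refine ⟨k3, k4, ?_, ?_, ?_, ?_⟩ <;> linarith [b1.1, b1.2, b2.1, b2.2]

lemma small {y lam σ b c : ℝ} (hy : 1 < y ∧ y < 5 / 3) (hl : |lam| ≤ 1 / 1000) (hs : σ * σ = 1)
    (hb : |b| < 1 / 100) (hc : 2 / 5 ≤ c) : |y * lam * σ * b * c⁻¹| ≤ 1 / 1000 := by
  have h1 : |σ| = 1 := by
    have : |σ| * |σ| = 1 := by rw [← abs_mul, hs, abs_one]
    nlinarith [abs_nonneg σ]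
  have hc0 : 0 < c := by linarith
  have h2 : c⁻¹ ≤ 5 / 2 := by
    rw [inv_le_comm₀ hc0 (by norm_num)]
    linarith
  rw [abs_mul, abs_mul, abs_mul, abs_mul, h1, abs_of_pos (by linarith [hy.1] : 0 < y),
    abs_of_pos (inv_pos.2 hc0)]
  calc y * |lam| * 1 * |b| * c⁻¹ ≤ 5 / 3 * (1 / 1000) * 1 * (1 / 100) * (5 / 2) := by
        gcongr
        exact hy.2.le
    _ ≤ 1 / 1000 := by norm_num

lemma det_bd {α1 α2 β1 β2 : ℝ} (t1 : |α1 - 1| < 1 / 100) (t2 : |α2| < 1 / 100)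
    (t3 : |β1| < 1 / 100) (t4 : |β2 - 32 / 25| < 1 / 100) :
    5 / 4 ≤ α1 * β2 - α2 * β1 ∧ α1 * β2 - α2 * β1 ≤ 4 / 3 := by
  obtain ⟨t1a, t1b⟩ := abs_lt.1 t1
  obtain ⟨t4a, t4b⟩ := abs_lt.1 t4
  have h1 : |α2 * β1| ≤ 1 / 100 * (1 / 100) := by
    rw [abs_mul]
    gcongr
  obtain ⟨h2, h3⟩ := abs_le.1 h1
  have h4 : 99 / 100 * (127 / 100) ≤ α1 * β2 :=
    mul_le_mul (by linarith) (by linarith) (by norm_num) (by linarith)
  have h5 : α1 * β2 ≤ 101 / 100 * (129 / 100) :=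
    mul_le_mul (by linarith) (by linarith) (by linarith) (by norm_num)
  constructor <;> linarith

lemma cn_of {A c u v : ℝ} (hA : 0 < A) (h1 : c ≤ u) (h2 : u ≤ 4 * c) (h3 : |v| ≤ u) :
    Cn (c * A) (u * A, v * A) := by
  refine ⟨mul_le_mul_of_nonneg_right h1 hA.le, ?_, ?_⟩
  · rw [← mul_assoc]
    exact mul_le_mul_of_nonneg_right h2 hA.le
  · simp only
    rw [abs_mul, abs_of_pos hA]
    exact mul_le_mul_of_nonneg_right h3 hA.le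

lemma rho_bd {β1 β2 ρ : ℝ} (t3 : |β1| < 1 / 100) (t4 : |β2 - 32 / 25| < 1 / 100)
    (r1 : ρ ≤ 1) (r2 : 3 / 5 ≤ ρ) :
    β2 * ρ ≤ 129 / 100 ∧ 76 / 100 ≤ β2 * ρ ∧ |β1 * ρ| ≤ 1 / 100 ∧ 2 / 5 ≤ β2 * ρ * ρ := by
  obtain ⟨t4a, t4b⟩ := abs_lt.1 t4
  have h4 : 127 / 100 * (3 / 5) ≤ β2 * ρ :=
    mul_le_mul (by linarith) r2 (by norm_num) (by linarith)
  have h5 : β2 * ρ ≤ 129 / 100 * 1 :=
    mul_le_mul (by linarith) r1 (by linarith) (by norm_num)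
  have h6 : 76 / 100 * (3 / 5) ≤ β2 * ρ * ρ :=
    mul_le_mul (by linarith) r2 (by norm_num) (by linarith)
  have h7 : |β1| * ρ ≤ 1 / 100 * 1 := mul_le_mul t3.le r1 (by linarith) (by norm_num)
  refine ⟨by linarith, by linarith, ?_, by linarith⟩
  rw [abs_mul, abs_of_pos (by linarith : 0 < ρ)]
  linarith

lemma alg2 {A0 ω σ H2 H r p s h h' a1 a2 b1 b2 u1 w2 D : ℝ} (hA : 0 < A0)
    (hω : ω = σ * A0 ^ 2) (hs : σ * σ = 1) (h2 : H2 ≠ 0) (hH : H ≠ 0) (hr : r ≠ 0)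
    (ha1 : a1 ≠ 0) (hb2 : b2 ≠ 0)
    (e1 : a1 * b2 - a2 * b1 = r * D) (e2 : r * u1 = p * a1 - h * b1)
    (e3 : r * w2 = h' * a2 + s * b2) :
    b1 * σ = b1 * A0 / r * (r / ω) * A0 ∧ b2 * σ = b2 * A0 / r * (r / ω) * A0 ∧
    b1 * A0 / ω = b1 * A0 / r * (r / ω) ∧ b2 * A0 / ω = b2 * A0 / r * (r / ω) ∧
    D = a1 / A0 * (b2 * A0 / r) - a2 / A0 * (b1 * A0 / r) ∧
    u1 / a1 / H2 = p / (r * H2) - h / H * (H / (ω * H2)) * σ * (b1 * A0 / r) * (a1 / A0)⁻¹ ∧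
    w2 / b2 / H2 = s / (r * H2) +
      h' / H * (H / (ω * H2)) * σ * (a2 / A0) * (b2 * A0 / r * (r / ω) * (r / ω))⁻¹ := by
  have hs0 : σ ≠ 0 := by
    rintro rfl
    norm_num at hs
  have hu : u1 = (p * a1 - h * b1) / r := by
    field_simp
    linarith
  have hw : w2 = (h' * a2 + s * b2) / r := by
    field_simp
    linarith
  have hD : D = (a1 * b2 - a2 * b1) / r := by
    field_simp
    linarith
  subst hω
  refine ⟨?_, ?_, ?_, ?_, ?_, ?_, ?_⟩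
  · field_simp
    linear_combination b1 * hs
  · field_simp
    linear_combination hs
  · field_simp
  · field_simp
  · rw [hD]
    field_simp
  · rw [hu]
    field_simp
  · rw [hw]
    field_simp
    linear_combination (-(h' * a2)) * hs

/-- on the support of the left side all cut factors are one -/
lemma supp2 {A0 ω σ H2 H β r p s n h h' a1 a2 b1 b2 u1 w2 D : ℝ} (hA : 0 < A0)
    (hω : ω = σ * A0 ^ 2) (hs : σ * σ = 1) (h2 : H2 ≠ 0) (hH : H ≠ 0) (hr : r ≠ 0)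
    (hβ : 1 / 4 ≤ β ∧ β ≤ 4) (hbig : 1000 * |H| ≤ |ω| * |H2|)
    (e1 : a1 * b2 - a2 * b1 = r * D) (e2 : r * u1 = p * a1 - h * b1)
    (e3 : r * w2 = h' * a2 + s * b2) (e4 : h * h' = n * r - p * s)
    (oD : om (ω / r) ≠ 0) (o1 : om ((p - h * β) / (r * H2)) ≠ 0)
    (o2 : om ((s + h' / β) / (r * H2)) ≠ 0) (o7 : om (h / H) ≠ 0) (o8 : om (h' / H) ≠ 0)
    (ht : th (a1 / A0) (a2 / A0) (b1 * A0 / r) (b2 * A0 / r) ≠ 0) :
    Cn (A0 / 2) (a1, a2) ∧ Cn (A0 / 2) (b2 * σ, -(b1 * σ)) ∧ om D = 1 ∧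
    (15 / 16 ≤ u1 / a1 / H2 ∧ u1 / a1 / H2 ≤ 16 / 9) ∧
    (15 / 16 ≤ w2 / b2 / H2 ∧ w2 / b2 / H2 ≤ 16 / 9) ∧
    (|a1 / A0| ≤ 10 ∧ |a2 / A0| ≤ 10 ∧ |b1 * A0 / ω| ≤ 10 ∧ |b2 * A0 / ω| ≤ 10 ∧ |D| ≤ 10) ∧
    1 / 10 ≤ a1 / A0 ∧ 1 / 10 ≤ b2 * A0 / ω ∧ 1 / 10 ≤ D ∧ 1 / 10 ≤ r / ω := by
  have hs0 : σ ≠ 0 := by
    rintro rfl
    norm_num at hs
  have hω0 : ω ≠ 0 := by
    rw [hω]
    positivity
  obtain ⟨-, -, k1, k2, k3, k4⟩ := old_bd hω0 h2 hH hr hβ hbig e4 oD o1 o2 o7 o8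
  obtain ⟨t1, t2, t3, t4⟩ := th_ne ht
  have hl := lam_bd hω0 h2 hbig
  obtain ⟨d1, d2⟩ := om_ne oD
  have ha1 : a1 ≠ 0 := by
    rintro rfl
    norm_num at t1
  have hb2 : b2 ≠ 0 := by
    rintro rfl
    norm_num at t4
  obtain ⟨eb1, eb2, ey2, ey3, eD, e5, e6⟩ := alg2 hA hω hs h2 hH hr ha1 hb2 e1 e2 e3
  have hρ1 : r / ω = (ω / r)⁻¹ := by rw [inv_div]
  have r1 : r / ω ≤ 1 := by
    rw [hρ1]
    exact inv_le_one_of_one_le₀ d1.le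
  have r2 : 3 / 5 ≤ r / ω := by
    rw [hρ1, le_inv_comm₀ (by norm_num) (by linarith)]
    linarith
  obtain ⟨m1, m2, m3, m4⟩ := rho_bd t3 t4 r1 r2
  obtain ⟨D1, D2⟩ := det_bd t1 t2 t3 t4
  rw [← eD] at D1 D2
  obtain ⟨t1a, t1b⟩ := abs_lt.1 t1
  have s5 := abs_le.1 (small (om_ne o7) hl hs t3 (c := a1 / A0) (by linarith))
  have s6 := abs_le.1 (small (om_ne o8) hl hs t2 m4)
  have c1 := cn_of (c := 1 / 2) (u := a1 / A0) (v := a2 / A0) hA (by linarith) (by linarith)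
    (by linarith)
  have c2 := cn_of (c := 1 / 2) (u := b2 * A0 / r * (r / ω)) (v := -(b1 * A0 / r * (r / ω))) hA
    (by linarith) (by linarith) (by rw [abs_neg]; linarith)
  rw [div_mul_cancel₀ _ hA.ne', div_mul_cancel₀ _ hA.ne', one_div_mul_eq_div] at c1
  rw [neg_mul, ← eb1, ← eb2, one_div_mul_eq_div] at c2
  refine ⟨c1, c2, om_one D1 D2, ⟨?_, ?_⟩, ⟨?_, ?_⟩,
    ⟨?_, by linarith, by rw [ey2]; linarith, ?_, ?_⟩, by linarith, by rw [ey3]; linarith,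
    by linarith, by linarith⟩
  · rw [e5]
    linarith [s5.2]
  · rw [e5]
    linarith [s5.1]
  · rw [e6]
    linarith [s6.1]
  · rw [e6]
    linarith [s6.2]
  · rw [abs_le]
    constructor <;> linarith
  · rw [ey3, abs_le]
    constructor <;> linarith
  · rw [abs_le]
    constructor <;> linarith

lemma back_num {α1 α2 y2 y3 c ρ D : ℝ} (t1 : |α1 - 1| < 1 / 100) (t2 : |α2| < 1 / 100)
    (k3 : c ≤ y3) (hc : 0 < c) (k4 : |y2| ≤ y3) (hD : 1 < D ∧ D < 5 / 3)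
    (er : ρ * D = α1 * y3 - α2 * y2) : c / 2 ≤ ρ := by
  obtain ⟨t1a, t1b⟩ := abs_lt.1 t1
  have h1 : |α2 * y2| ≤ 1 / 100 * y3 := by
    rw [abs_mul]
    gcongr
  have h2 := (abs_le.1 h1).2
  have h3 : 99 / 100 * y3 ≤ α1 * y3 := mul_le_mul_of_nonneg_right (by linarith) (by linarith)
  by_contra hh
  have h4 : ρ * D ≤ c / 2 * D := mul_le_mul_of_nonneg_right (by linarith) (by linarith [hD.1])
  have h5 : c / 2 * D ≤ c / 2 * (5 / 3) := mul_le_mul_of_nonneg_left hD.2.le (by linarith)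
  linarith

/-- on the support of the right side every inverse is a true inverse -/
lemma back2 {A0 ω σ r a1 a2 b1 b2 D : ℝ} (hA : 0 < A0) (hω : ω = σ * A0 ^ 2) (hs : σ * σ = 1)
    (e1 : a1 * b2 - a2 * b1 = r * D) (hc : Cn (A0 / 2) (b2 * σ, -(b1 * σ))) (oD : om D ≠ 0)
    (t1 : |a1 / A0 - 1| < 1 / 100) (t2 : |a2 / A0| < 1 / 100) :
    r ≠ 0 ∧ 1 / 10 ≤ a1 / A0 ∧ 1 / 10 ≤ b2 * A0 / ω ∧ 1 / 10 ≤ D ∧ 1 / 10 ≤ r / ω := by
  have hs0 : σ ≠ 0 := by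
    rintro rfl
    norm_num at hs
  obtain ⟨c1, -, c3⟩ := hc
  simp only at c1 c3
  have hD := om_ne oD
  have ey3 : b2 * A0 / ω = b2 * σ / A0 := by
    rw [hω]
    field_simp
    linear_combination (-b2) * hs
  have k3 : 1 / 2 ≤ b2 * σ / A0 := by
    rw [le_div_iff₀ hA]
    linarith
  have er : r / ω * D = a1 / A0 * (b2 * σ / A0) - a2 / A0 * (b1 * σ / A0) := by
    rw [hω]
    field_simp
    linear_combination (-1 : ℝ) * e1 - (a1 * b2 - a2 * b1) * hs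
  have k4 : |b1 * σ / A0| ≤ b2 * σ / A0 := by
    rw [abs_neg] at c3
    rw [abs_div, abs_of_pos hA]
    exact div_le_div_of_nonneg_right c3 hA.le
  have k7 := back_num t1 t2 k3 (by norm_num) k4 hD er
  refine ⟨?_, by linarith [(abs_lt.1 t1).1], by rw [ey3]; linarith, by linarith [hD.1],
    by linarith⟩
  rintro rfl
  norm_num at k7

lemma ab10 {w : ℝ} (h1 : 0 ≤ w) (h2 : w ≤ 10) : |w| ≤ 10 := abs_le.2 ⟨by linarith, h2⟩

lemma E_ne {ξ w : ℝ} (h : E ξ w ≠ 0) : om w ≠ 0 := by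
  intro h1
  apply h
  rw [E, h1, Complex.ofReal_zero, zero_mul]

lemma cE_ne {ξ w : ℝ} (h : conj (E ξ w) ≠ 0) : om w ≠ 0 :=
  E_ne (ξ := ξ) fun h1 => h (by rw [h1, map_zero])

end Id

end Pool.Agent.MP_c853c5_nt.W
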