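import Pool.Agent.MP_c853c5_nt.W.IdC

set_option autoImplicit false

open Finset MeasureTheory
open scoped ComplexConjugate

namespace Pool.Agent.MP_c853c5_nt.W.Id

open Pool.Agent.MP_2a1f0e_nt Pool.Agent.MP_2a1f0e_nt.GM Pool.Agent.MP_2a1f0e_nt.DH

lemma good3 {A0 y1 y2 H' ca cb v1 v2 w1 w2 h' a1 a2 b1 b2 u1 s2 D : ℝ} (π : Fin 4 → ℝ)
    (y : Fin 9 → ℝ) (hA : 0 < A0) (h1 : 0 < y1) (h2 : 0 < y2) (hH : H' ≠ 0)
    (e1 : a1 * b2 - a2 * b1 = -w1 * D) (e2 : -w1 * u1 = w2 * a1 - b1)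
    (e3 : -w1 * s2 = h' * a2 + -v1 * b2) (e4 : h' = v1 * w2 - v2 * w1)
    (p0 : π 0 = ca) (p1 : π 1 = cb) (p2 : π 2 = 1 / A0 ^ 2) (p3 : π 3 = H' * A0 ^ 2 / (y1 * y2))
    (q0 : y 0 = a1 / A0) (q1 : y 1 = a2 / A0) (q2 : y 2 = b1 * A0 / -y2)
    (q3 : y 3 = b2 * A0 / -y2) (q4 : y 4 = D) (q5 : y 5 = u1 / a1 / 1)
    (q6 : y 6 = s2 / b2 / (y1 / y2)) (q8 : y 8 = h' / H') (g0 : 1 / 10 ≤ y 0)
    (g3 : 1 / 10 ≤ y 3) (g4 : 1 / 10 ≤ y 4) (gr : 1 / 10 ≤ w1 / y2) :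
    A3 (π, y) = th (a1 / A0) (a2 / A0) (b1 * A0 / -w1) (b2 * A0 / -w1) * cut y *
      (om (v1 / y1 * ca) * om (v2 / y1 * cb) * om (w1 / y2) * om (w2 / y2)) ∧
    ∀ (L : ℝ → ℝ) (T : ℝ), 1 / 10 ≤ v2 / y1 →
      T * H' / (y1 * y2) * f3 L (π, y) = T * (h' / (v2 * w1) * L (h' / (v2 * w1))) := by
  have hw1 : w1 ≠ 0 := by
    rintro rfl
    norm_num at gr
  have ha1 : a1 ≠ 0 := by
    rintro rfl
    rw [q0] at g0
    norm_num at g0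
  have hb2 : b2 ≠ 0 := by
    rintro rfl
    rw [q3] at g3
    norm_num at g3
  have hD : D ≠ 0 := by
    rw [q4] at g4
    linarith
  have hrh : rh (π, y) = w1 / y2 := by
    simp only [rh]
    rw [iv_eq g4, q0, q1, q2, q3, q4]
    field_simp
    linarith
  have hir : iv (rh (π, y)) = y2 / w1 := by rw [hrh, iv_eq gr, inv_div]
  have hu : u1 = -(w2 * a1 - b1) / w1 := by
    field_simp
    linarith
  have hs : s2 = -(h' * a2 + -v1 * b2) / w1 := by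
    field_simp
    linarith
  have hph : ph3 (π, y) = w2 / y2 := by
    simp only [ph3]
    rw [hrh, iv_eq g0, q0, q2, q5, p2, hu]
    field_simp
    ring
  have hv1 : v13 (π, y) = v1 / y1 := by
    simp only [v13]
    rw [hrh, iv_eq g3, q1, q3, q6, q8, p3, hs]
    field_simp
    ring
  have hv2 : v23 (π, y) = v2 / y1 := by
    simp only [v23]
    rw [hir, hph, hv1, q8, p3, p2, e4]
    field_simp
    ring
  refine ⟨?_, fun L T g => ?_⟩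
  · simp only [A3, thA]
    rw [hir, hrh, hph, hv1, hv2, p0, p1, q0, q1, q2, q3]
    congr 3 <;> field_simp
  · have hv : v2 ≠ 0 := by
      rintro rfl
      norm_num at g
    simp only [f3]
    rw [hir, hv2, iv_eq g, q8, p3, p2]
    have e : h' / H' * (H' * A0 ^ 2 / (y1 * y2)) * (1 / A0 ^ 2) * (v2 / y1)⁻¹ * (y2 / w1) =
        h' / (v2 * w1) := by field_simp
    rw [e]
    field_simp

lemma lift_bd {v c : ℝ} (h : om (v * c) ≠ 0) (h1 : 1 / 2 ≤ c) (h2 : c ≤ 1) :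
    1 ≤ v ∧ v ≤ 10 / 3 := by
  obtain ⟨k1, k2⟩ := om_ne h
  have hv : 0 < v := by
    by_contra hh
    have : v * c ≤ 0 := mul_nonpos_of_nonpos_of_nonneg (not_lt.1 hh) (by linarith)
    linarith
  have a1 := mul_le_mul_of_nonneg_left h1 hv.le
  have a2 := mul_le_mul_of_nonneg_left h2 hv.le
  constructor <;> linarith

lemma abs_mul_bd {a b A B : ℝ} (ha : |a| ≤ A) (hb : |b| ≤ B) : |a * b| ≤ A * B := by
  rw [abs_mul]
  exact mul_le_mul ha hb (abs_nonneg _) ((abs_nonneg _).trans ha)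

lemma inv_bd {c m : ℝ} (hm : 0 < m) (h : m ≤ c) : |c⁻¹| ≤ m⁻¹ := by
  rw [abs_of_pos (inv_pos.2 (by linarith))]
  exact inv_anti₀ hm h

lemma alg3 {A0 y1 y2 H' v1 w1 w2 h' a1 a2 b1 b2 u1 s2 D : ℝ} (hA : 0 < A0) (h1 : 0 < y1)
    (h2 : 0 < y2) (hH : H' ≠ 0) (hw1 : w1 ≠ 0) (ha1 : a1 ≠ 0) (hb2 : b2 ≠ 0)
    (e1 : a1 * b2 - a2 * b1 = -w1 * D) (e2 : -w1 * u1 = w2 * a1 - b1)
    (e3 : -w1 * s2 = h' * a2 + -v1 * b2) :
    b1 * -1 = b1 * A0 / -w1 * (w1 / y2) * (y2 / A0) ∧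
    b2 * -1 = b2 * A0 / -w1 * (w1 / y2) * (y2 / A0) ∧
    b1 * A0 / -y2 = b1 * A0 / -w1 * (w1 / y2) ∧ b2 * A0 / -y2 = b2 * A0 / -w1 * (w1 / y2) ∧
    D = a1 / A0 * (b2 * A0 / -w1) - a2 / A0 * (b1 * A0 / -w1) ∧
    u1 / a1 = -(w2 / y2 * (w1 / y2)⁻¹) - b1 * A0 / -w1 * (a1 / A0)⁻¹ * (A0 ^ 2)⁻¹ ∧
    s2 / b2 / (y1 / y2) = (v1 / y1 + h' / H' * (H' * A0 ^ 2 / (y1 * y2)) * (a2 / A0) *
      (b2 * A0 / -w1 * (w1 / y2))⁻¹) * (w1 / y2)⁻¹ := by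
  have hu : u1 = -(w2 * a1 - b1) / w1 := by
    field_simp
    linarith
  have hs : s2 = -(h' * a2 + -v1 * b2) / w1 := by
    field_simp
    linarith
  have hD : D = -(a1 * b2 - a2 * b1) / w1 := by
    field_simp
    linarith
  refine ⟨?_, ?_, ?_, ?_, ?_, ?_, ?_⟩
  · field_simp
  · field_simp
  · field_simp
  · field_simp
  · rw [hD]
    field_simp
    ring
  · rw [hu]
    field_simp
    ring
  · rw [hs]
    field_simp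
    ring

lemma supp3 {A0 y1 y2 H' ca cb v1 v2 w1 w2 h' a1 a2 b1 b2 u1 s2 D : ℝ} (hA : 1 ≤ A0)
    (h1 : 0 < y1) (h2 : 0 < y2) (hH : H' ≠ 0) (hca : 1 / 2 ≤ ca ∧ ca ≤ 1)
    (hcb : 1 / 2 ≤ cb ∧ cb ≤ 1) (hμ : |H'| * A0 ^ 2 / (y1 * y2) ≤ 1 / 100)
    (e1 : a1 * b2 - a2 * b1 = -w1 * D) (e2 : -w1 * u1 = w2 * a1 - b1)
    (e3 : -w1 * s2 = h' * a2 + -v1 * b2)
    (o1 : om (v1 / y1 * ca) ≠ 0) (o2 : om (v2 / y1 * cb) ≠ 0) (o3 : om (w1 / y2) ≠ 0)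
    (o4 : om (w2 / y2) ≠ 0) (o8 : om (h' / H') ≠ 0)
    (ht : th (a1 / A0) (a2 / A0) (b1 * A0 / -w1) (b2 * A0 / -w1) ≠ 0) :
    Cn (A0 / 2) (a1, a2) ∧ Cn (y2 / A0) (b2 * -1, -(b1 * -1)) ∧ (5 / 4 ≤ D ∧ D ≤ 4 / 3) ∧
    |u1 / a1| ≤ 2 ∧ (135 / 256 ≤ s2 / b2 / (y1 / y2) ∧ s2 / b2 / (y1 / y2) ≤ 1024 / 243) ∧
    (|a1 / A0| ≤ 10 ∧ |a2 / A0| ≤ 10 ∧ |b1 * A0 / -y2| ≤ 10 ∧ |b2 * A0 / -y2| ≤ 10) ∧
    1 / 10 ≤ a1 / A0 ∧ 1 / 10 ≤ b2 * A0 / -y2 ∧ 1 / 10 ≤ v2 / y1 ∧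
    |h' / (v2 * w1)| ≤ 1 / 2 := by
  have hA0 : 0 < A0 := by linarith
  obtain ⟨t1, t2, t3, t4⟩ := th_ne ht
  obtain ⟨r1, r2⟩ := om_ne o3
  obtain ⟨f1, f2⟩ := om_ne o4
  obtain ⟨n1, n2⟩ := om_ne o8
  obtain ⟨l1, l2⟩ := lift_bd o1 hca.1 hca.2
  obtain ⟨l3, l4⟩ := lift_bd o2 hcb.1 hcb.2
  have hw1 : w1 ≠ 0 := by
    rintro rfl
    norm_num at r1
  have hv2 : v2 ≠ 0 := by
    rintro rfl
    norm_num at l3
  have ha1 : a1 ≠ 0 := by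
    rintro rfl
    norm_num at t1
  have hb2 : b2 ≠ 0 := by
    rintro rfl
    norm_num at t4
  obtain ⟨eb1, eb2, ey2, ey3, eD, e5, e6⟩ := alg3 hA0 h1 h2 hH hw1 ha1 hb2 e1 e2 e3
  have hD := det_bd t1 t2 t3 t4
  rw [← eD] at hD
  obtain ⟨t1a, t1b⟩ := abs_lt.1 t1
  obtain ⟨t4a, t4b⟩ := abs_lt.1 t4
  have m1 : 127 / 100 * 1 ≤ b2 * A0 / -w1 * (w1 / y2) :=
    mul_le_mul (by linarith) r1.le (by norm_num) (by linarith)
  have m2 : b2 * A0 / -w1 * (w1 / y2) ≤ 129 / 100 * (5 / 3) :=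
    mul_le_mul (by linarith) r2.le (by linarith) (by norm_num)
  have m3 := abs_mul_bd t3.le (show |w1 / y2| ≤ 5 / 3 from abs_le.2 ⟨by linarith, r2.le⟩)
  have hπ : |H' * A0 ^ 2 / (y1 * y2)| ≤ 1 / 100 := by
    rwa [abs_div, abs_mul, abs_of_pos (pow_pos hA0 2), abs_of_pos (mul_pos h1 h2)]
  have n3 : |h' / H'| ≤ 5 / 3 := abs_le.2 ⟨by linarith, n2.le⟩
  have i1 := inv_bd one_pos r1.le
  have i2 := inv_bd one_pos (one_le_pow₀ (n := 2) hA)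
  have s1 := abs_le.1 (abs_mul_bd (show |w2 / y2| ≤ 5 / 3 from abs_le.2 ⟨by linarith, f2.le⟩) i1)
  have s2' := abs_le.1 (abs_mul_bd (abs_mul_bd t3.le
    (inv_bd (m := 1 / 2) (c := a1 / A0) (by norm_num) (by linarith))) i2)
  have s3 := abs_le.1 (abs_mul_bd (abs_mul_bd (abs_mul_bd n3 hπ) t2.le)
    (inv_bd (m := 1) (c := b2 * A0 / -w1 * (w1 / y2)) one_pos (by linarith)))
  have j1 : (w1 / y2)⁻¹ ≤ 1 := inv_le_one_of_one_le₀ r1.le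
  have j2 : 3 / 5 ≤ (w1 / y2)⁻¹ := by
    rw [le_inv_comm₀ (by norm_num) (by linarith)]
    linarith
  have c1 := cn_of (c := 1 / 2) (u := a1 / A0) (v := a2 / A0) hA0 (by linarith) (by linarith)
    (by linarith)
  have c2 := cn_of (c := 1) (u := b2 * A0 / -w1 * (w1 / y2)) (v := -(b1 * A0 / -w1 * (w1 / y2)))
    (div_pos h2 hA0) (by linarith) (by linarith) (by rw [abs_neg]; linarith)
  rw [div_mul_cancel₀ _ hA0.ne', div_mul_cancel₀ _ hA0.ne', one_div_mul_eq_div] at c1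
  rw [neg_mul, ← eb1, ← eb2, one_mul] at c2
  have ez : h' / (v2 * w1) =
      h' / H' * (H' * A0 ^ 2 / (y1 * y2)) * (A0 ^ 2)⁻¹ * (v2 / y1)⁻¹ * (w1 / y2)⁻¹ := by
    field_simp
  have s4 := abs_mul_bd (abs_mul_bd (abs_mul_bd (abs_mul_bd n3 hπ) i2) (inv_bd one_pos l3)) i1
  have u1' : 99 / 100 ≤ v1 / y1 + h' / H' * (H' * A0 ^ 2 / (y1 * y2)) * (a2 / A0) *
      (b2 * A0 / -w1 * (w1 / y2))⁻¹ := by linarith [s3.1]
  have u2' : v1 / y1 + h' / H' * (H' * A0 ^ 2 / (y1 * y2)) * (a2 / A0) *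
      (b2 * A0 / -w1 * (w1 / y2))⁻¹ ≤ 4 := by linarith [s3.2]
  have u3' := mul_le_mul u1' j2 (by norm_num) (by linarith)
  have u4' := mul_le_mul u2' j1 (by linarith) (by norm_num)
  refine ⟨c1, c2, hD, ?_, ⟨by rw [e6]; linarith, by rw [e6]; linarith⟩,
    ⟨?_, by linarith, by rw [ey2]; linarith, ?_⟩, by linarith,
    by rw [ey3]; linarith, by linarith, by rw [ez]; refine s4.trans (by norm_num)⟩
  · rw [e5, abs_le]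
    constructor <;> linarith [s1.1, s1.2, s2'.1, s2'.2]
  · rw [abs_le]
    constructor <;> linarith
  · rw [ey3, abs_le]
    constructor <;> linarith

lemma back3 {A0 y2 w1 a1 a2 b1 b2 D : ℝ} (hA : 0 < A0) (h2 : 0 < y2)
    (e1 : a1 * b2 - a2 * b1 = -w1 * D) (hc : Cn (y2 / A0) (b2 * -1, -(b1 * -1))) (oD : om D ≠ 0)
    (t1 : |a1 / A0 - 1| < 1 / 100) (t2 : |a2 / A0| < 1 / 100) :
    1 / 10 ≤ a1 / A0 ∧ 1 / 10 ≤ b2 * A0 / -y2 ∧ 1 / 10 ≤ D ∧ 1 / 10 ≤ w1 / y2 := by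
  obtain ⟨c1, -, c3⟩ := hc
  simp only at c1 c3
  have hD := om_ne oD
  have hq : 0 < A0 / y2 := div_pos hA h2
  have ey3 : b2 * A0 / -y2 = b2 * -1 * (A0 / y2) := by field_simp
  have ey2 : b1 * A0 / -y2 = b1 * -1 * (A0 / y2) := by field_simp
  have k3 : 1 ≤ b2 * A0 / -y2 := by
    rw [ey3]
    have := mul_le_mul_of_nonneg_right c1 hq.le
    rwa [show y2 / A0 * (A0 / y2) = 1 by field_simp] at this
  have k4 : |b1 * A0 / -y2| ≤ b2 * A0 / -y2 := by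
    rw [abs_neg] at c3
    rw [ey2, ey3, abs_mul, abs_of_pos hq]
    exact mul_le_mul_of_nonneg_right c3 hq.le
  have er : w1 / y2 * D = a1 / A0 * (b2 * A0 / -y2) - a2 / A0 * (b1 * A0 / -y2) := by
    field_simp
    linarith
  have k7 := back_num t1 t2 k3 one_pos k4 hD er
  exact ⟨by linarith [(abs_lt.1 t1).1], by linarith, by linarith [hD.1], by linarith⟩

end Pool.Agent.MP_c853c5_nt.W.Id
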