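import Pool.Agent.MP_c853c5_nt.W.Api

set_option autoImplicit false

open Finset MeasureTheory
open scoped ENNReal ComplexConjugate

namespace Pool.Agent.MP_c853c5_nt.W

open Pool.Agent.MP_2a1f0e_nt Pool.Agent.MP_2a1f0e_nt.GM Pool.Agent.MP_2a1f0e_nt.DH

lemma nu_Inv (z : Pr × Pr) (x : MM) : (nI z : ℝ) * (vx z.1.2 x).1 =
    (sI z : ℝ) * (vx z.1.1 x).1 + (hh z.1 : ℝ) * (vx z.2.1 x).1 := by
  simp only [hh, nI, sI, om2, vx]; push_cast; ring

lemma bd_Inv {y c d A a b S T C D : ℝ} (hA : 0 < A) (h : y * A = c * a + d * b)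
    (ha : |a| ≤ S * A) (hb : |b| ≤ T * A) (hc : |c| ≤ C) (hd : |d| ≤ D) :
    |y| ≤ C * S + D * T := by
  refine le_of_mul_le_mul_right ?_ hA
  have h1 : |c * a| ≤ C * (S * A) := by
    rw [abs_mul]
    exact mul_le_mul hc ha (abs_nonneg _) ((abs_nonneg _).trans hc)
  have h2 : |d * b| ≤ D * (T * A) := by
    rw [abs_mul]
    exact mul_le_mul hd hb (abs_nonneg _) ((abs_nonneg _).trans hd)
  have h3 : |y| * A = |c * a + d * b| := by rw [← h, abs_mul, abs_of_pos hA]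
  linarith [abs_add_le (c * a) (d * b)]

lemma tt_Inv {P : Pr} {x : MM} {S : ℝ} (h0 : 0 < (vx P.2 x).1) (h : |tt P x| ≤ S) :
    |(vx P.1 x).1| ≤ S * (vx P.2 x).1 := by
  rwa [tt, abs_div, abs_of_pos h0, div_le_iff₀ h0] at h

theorem inv_stmt : InvStmt := by
  rintro α H2 H z x hα ⟨-, a1, ⟨a2, a3, a4⟩, a5, -, a6, a7, a8⟩
    ⟨-, b1, ⟨b2, b3, b4⟩, -, -, b6, b7, b8⟩
  have hA : 0 < (vx z.1.2 x).1 := by linarith
  have hB : 0 < (vx z.2.2 x).1 := by linarith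
  have c1 := tt_Inv hA a6
  have c2 := tt_Inv hB b6
  have c3 : |(vx z.2.2 x).1| ≤ 4 * (vx z.1.2 x).1 := by rw [abs_of_pos hB]; linarith
  have c4 : |(vx z.1.2 x).1| ≤ 4 * (vx z.2.2 x).1 := by rw [abs_of_pos hA]; linarith
  have hs : |(sI z : ℝ)| ≤ 2 * |(rI z : ℝ)| * |H2| + 8 * |H| := by
    have := bd_Inv (y := sI z) (c := rI z) (d := -(hh z.2 : ℝ)) hB
      (by linarith [rv_one z x]) c2 c4 le_rfl ((abs_neg _).trans_le b8)
    linarith
  refine ⟨a1, b1, a7, a8, b7, b8, ?_, ?_, hs, ?_⟩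
  · have h1 := om2_dt z.1.2 z.2.2 x
    have h2 : |(rI z : ℝ)| * dt x =
        |(vx z.1.2 x).1 * (vx z.2.2 x).2 - (vx z.1.2 x).2 * (vx z.2.2 x).1| := by
      rw [← h1, abs_mul, abs_of_pos (show 0 < dt x by linarith), rI]
    have h3 : |(vx z.1.2 x).1 * (vx z.2.2 x).2| ≤ 4 * α * (4 * α) := by
      rw [abs_mul, abs_of_pos hA]
      exact mul_le_mul a3 (b4.trans b3) (abs_nonneg _) (by linarith)
    have h4 : |(vx z.1.2 x).2 * (vx z.2.2 x).1| ≤ 4 * α * (4 * α) := by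
      rw [abs_mul, abs_of_pos hB]
      exact mul_le_mul (a4.trans a3) b3 hB.le (by linarith)
    have h5 := le_mul_of_one_le_right (abs_nonneg (rI z : ℝ)) a5
    linarith [abs_sub ((vx z.1.2 x).1 * (vx z.2.2 x).2) ((vx z.1.2 x).2 * (vx z.2.2 x).1)]
  · have := bd_Inv (y := pI z) (c := rI z) (d := hh z.1) hA
      (by linarith [ru_one z x]) c1 c3 le_rfl a8
    linarith
  · have c5 : |(vx z.2.1 x).1| ≤ 8 * |H2| * (vx z.1.2 x).1 := by
      rw [abs_of_pos hB] at c3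
      nlinarith [abs_nonneg H2]
    have := bd_Inv hA (nu_Inv z x) c1 c5 hs a8
    rw [← sq_abs H2]
    linarith

lemma box_Inv (R : ℝ) {x : MM} (h : 1 ≤ dt x) :
    {w : V | |(vx w x).1| ≤ R ∧ |(vx w x).2| ≤ R}.Finite := by
  obtain ⟨n, hn⟩ := exists_nat_ge (R * (|x.1.1| + |x.1.2| + |x.2.1| + |x.2.2|))
  refine ((Set.finite_Icc (-n : ℤ) n).prod (Set.finite_Icc (-n : ℤ) n)).subset ?_
  rintro w ⟨h1, h2⟩
  have hD : 0 < dt x := by linarith
  have hR : 0 ≤ R := (abs_nonneg _).trans h1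
  have k : ∀ s : ℝ, |s| ≤ |s| * dt x := fun s => le_mul_of_one_le_right (abs_nonneg _) h
  have e1 := bd_Inv (y := w.1) (c := (vx w x).1) (d := -(vx w x).2) hD
    (by simp only [vx, dt]; ring) (k x.2.2) (k x.2.1) h1 ((abs_neg _).trans_le h2)
  have e2 := bd_Inv (y := w.2) (c := (vx w x).2) (d := -(vx w x).1) hD
    (by simp only [vx, dt]; ring) (k x.1.1) (k x.1.2) h2 ((abs_neg _).trans_le h1)
  have m : ∀ s : ℝ, 0 ≤ R * |s| := fun s => mul_nonneg hR (abs_nonneg s)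
  have f1 : |w.1| ≤ n := by
    exact_mod_cast (show |(w.1 : ℝ)| ≤ n by linarith [m x.1.1, m x.1.2])
  have f2 : |w.2| ≤ n := by
    exact_mod_cast (show |(w.2 : ℝ)| ≤ n by linarith [m x.2.1, m x.2.2])
  exact ⟨abs_le.1 f1, abs_le.1 f2⟩

theorem fin_stmt : FinStmt := by
  intro α H2 H x hα
  by_cases h : 1 ≤ dt x
  swap
  · exact Set.finite_empty.subset fun P hP => h hP.2.2.2.1
  have hb := box_Inv (4 * α + 8 * |H2| * α + 4 * |H| / α) h
  refine (hb.prod hb).subset ?_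
  rintro P ⟨-, -, ⟨a2, a3, a4⟩, -, a5, a6, -, a8⟩
  have hA : 0 < (vx P.2 x).1 := by linarith
  have c1 := tt_Inv hA a6
  have p1 : 0 ≤ 8 * |H2| * α := by positivity
  have p2 : 0 ≤ 4 * |H| / α := by positivity
  have c2 : |(vx P.1 x).1| ≤ 8 * |H2| * α := by nlinarith [abs_nonneg H2]
  have c3 : |dt x| ≤ 2 / α * (vx P.2 x).1 := by
    rw [abs_of_pos (by linarith), div_mul_eq_mul_div, le_div_iff₀ hα]
    nlinarith
  have c0 : (hh P : ℝ) * dt x = _ := om2_dt P.1 P.2 x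
  have c4 := bd_Inv (y := (vx P.1 x).2) (c := (vx P.1 x).1) (d := -(hh P : ℝ)) (b := dt x) hA
    (by linarith) (a4.trans_eq (one_mul _).symm) c3 c2 ((abs_neg _).trans_le a8)
  have c5 : 2 * |H| * (2 / α) = 4 * |H| / α := by ring
  refine ⟨⟨by linarith, by linarith⟩, ?_, by linarith⟩
  rw [abs_of_pos hA]
  linarith

end Pool.Agent.MP_c853c5_nt.W
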