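import Pool.Agent.MP_c853c5_nt.W.Api

/-!
The trivial bound for packets supported on matrices of determinant one.
-/

set_option autoImplicit false

open Finset MeasureTheory
open scoped ENNReal ComplexConjugate

namespace Pool.Agent.MP_c853c5_nt.W

open Pool.Agent.MP_2a1f0e_nt Pool.Agent.MP_2a1f0e_nt.GM Pool.Agent.MP_2a1f0e_nt.DH

lemma vb_nonneg_Left (H2 H : ℝ) (r : ℤ) : 0 ≤ vb H2 H r := by
  unfold vb
  split_ifs <;> positivity

lemma core_Left (hI : InvStmt) (hV : VolStmt) (hL : CntLStmt) {ε : ℝ} (hε : 0 < ε) :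
    ∃ C : ℝ, 0 < C ∧ ∀ (Λ α : ℝ) (a b : ℕ) (D : Pr × Pr → Prop), 1 ≤ Λ → 0 < α → α ≤ Λ →
      1 ≤ a → 1 ≤ b → (∀ z, D z → (a : ℤ) ∣ rI z ∧ (b : ℤ) ∣ nI z) →
      ∑' z : Orb, iE (D z.1) * vol (SupL α) (SupL α) z.1 ≤
        ENNReal.ofReal (C * Λ ^ ε * (α ^ 2 * (1 + α ^ 2 / (a * b)))) := by
  obtain ⟨C, hC, hL⟩ := hL ε hε
  refine ⟨288 * C, by positivity, fun Λ α a b D hΛ hα hαΛ ha hb hD => ?_⟩
  refine tsum_Orb_le (f := fun z => iE (D z) * vol (SupL α) (SupL α) z) fun S hS => ?_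
  have h1 := hL Λ α a b S hΛ hα hαΛ ha hb fun z hz => by
    obtain ⟨ho, hz0⟩ := hS z hz
    obtain ⟨x, hx1, hx2⟩ := nonempty_of_measure_ne_zero (right_ne_zero_of_mul hz0)
    exact ⟨ho, hx1.1, hx2.1, hI α 1 1 z x hα hx1.2 hx2.2,
      hD z (iE_ne_zero (left_ne_zero_of_mul hz0))⟩
  calc ∑ z ∈ S, iE (D z) * vol (SupL α) (SupL α) z
      ≤ ∑ z ∈ S, ENNReal.ofReal (288 * α ^ 2 * vb 1 1 (rI z)) := by
        refine sum_le_sum fun z hz => (mul_le_of_le_one_left' (iE_le_one _)).trans ?_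
        exact le_trans (measure_mono fun x hx => And.intro hx.1.2 hx.2.2)
          (hV α 1 1 z hα (hS z hz).1)
    _ = ENNReal.ofReal (288 * α ^ 2 * ∑ z ∈ S, vb 1 1 (rI z)) := by
        rw [mul_sum, ENNReal.ofReal_sum_of_nonneg fun z _ =>
          mul_nonneg (by positivity) (vb_nonneg_Left _ _ _)]
    _ ≤ _ := by
        refine ENNReal.ofReal_le_ofReal ?_
        refine (mul_le_mul_of_nonneg_left h1 (by positivity)).trans (le_of_eq ?_)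
        ring

lemma dvd_Left {a b : ℕ} (hab : Nat.Coprime a b) (z : Pr × Pr)
    (h : ((a * b : ℕ) : ℤ) ∣ om2 (vg ((a : ℤ), (b : ℤ)) z.1) (vg ((a : ℤ), (b : ℤ)) z.2)) :
    (a : ℤ) ∣ rI z ∧ (b : ℤ) ∣ nI z := by
  have e : om2 (vg ((a : ℤ), (b : ℤ)) z.1) (vg ((a : ℤ), (b : ℤ)) z.2) =
      (a : ℤ) ^ 2 * nI z + (b : ℤ) ^ 2 * rI z + (a : ℤ) * b * (pI z + sI z) := by
    simp only [om2, vg, nI, pI, sI, rI]
    ring
  have hc : IsCoprime (a : ℤ) (b : ℤ) := Nat.isCoprime_iff_coprime.2 hab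
  rw [e, Nat.cast_mul, dvd_add_left (dvd_mul_right _ _)] at h
  constructor
  · have h1 := (dvd_mul_right (a : ℤ) b).trans h
    rw [dvd_add_right ((dvd_pow_self (a : ℤ) two_ne_zero).mul_right _)] at h1
    exact (hc.pow_right (n := 2)).dvd_of_dvd_mul_left h1
  · have h1 := (dvd_mul_left (b : ℤ) a).trans h
    rw [dvd_add_left ((dvd_pow_self (b : ℤ) two_ne_zero).mul_right _)] at h1
    exact (hc.symm.pow_right (n := 2)).dvd_of_dvd_mul_left h1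

theorem left_stmt (hR : RoughStmt) (hS : ShpStmt) (hI : InvStmt) (hV : VolStmt)
    (hL : CntLStmt) : LeftStmt := by
  intro ε hε
  obtain ⟨C, hC, H⟩ := core_Left hI hV hL hε
  refine ⟨C, hC, fun μ hμ Λ α Ψ hΛ hα hαΛ h1 h2 => ⟨fun a b ha hb hab => ?_, fun g hg => ?_⟩⟩
  · refine (LF_le_L0 _ _ _).trans ((hR μ hμ (a * b) _ (SupL α) Ψ (Nat.mul_pos ha hb)
      ((hS μ hμ α hα).2.2.1 a b hab) h1 h2).trans ?_)
    exact H Λ α a b _ hΛ hα hαΛ ha hb (dvd_Left hab)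
  · refine (hR μ hμ g _ (SupL α) Ψ hg (hS μ hμ α hα).2.2.2 h1 h2).trans ?_
    have h3 := H Λ α g 1 (fun z => (g : ℤ) ∣ rI z) hΛ hα hαΛ hg le_rfl fun z hz =>
      ⟨hz, one_dvd _⟩
    rw [Nat.cast_one, mul_one] at h3
    exact h3

end Pool.Agent.MP_c853c5_nt.W
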