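import Pool.Agent.MP_c853c5_nt.W.Api

set_option autoImplicit false

open Finset MeasureTheory
open scoped ENNReal ComplexConjugate

namespace Pool.Agent.MP_c853c5_nt.W

open Pool.Agent.MP_2a1f0e_nt Pool.Agent.MP_2a1f0e_nt.GM Pool.Agent.MP_2a1f0e_nt.DH

noncomputable def u_Lev1 (Y t : ℝ) (n : ℤ) : ℂ := (om ((n : ℝ) / Y) : ℂ) * pw (n : ℝ) t

noncomputable def Zp_Lev1 (M : ℕ) (A B t : ℝ) : ℂ :=
  ∑ v ∈ (Icc (1 : ℤ) M ×ˢ Icc (1 : ℤ) M).filter (fun v : V => ct v = 1),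
    u_Lev1 A t v.1 * conj (u_Lev1 B t v.2)

noncomputable def G_Lev1 (M m : ℕ) (Y t : ℝ) : ℂ :=
  ∑ n ∈ Icc (1 : ℤ) M, iC ((m : ℤ) ∣ n) * u_Lev1 Y t n

lemma cont_u_Lev1 (Y : ℝ) (n : ℤ) : Continuous fun t => u_Lev1 Y t n :=
  continuous_const.mul (continuous_pw _)

lemma cont_Zo_Lev1 (Y : ℝ) : Continuous (Zo Y) :=
  continuous_finsetSum _ fun _ _ => continuous_const.mul (continuous_pw _)

lemma G_eq_Lev1 {M m : ℕ} {Y : ℝ} (t : ℝ) (hm : 1 ≤ m) (hY : 0 < Y) (hM : 2 * Y ≤ M) :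
    G_Lev1 M m Y t = pw (m : ℝ) t * Zo (Y / m) t := by
  have hm' : (0 : ℝ) < m := by exact_mod_cast hm
  rw [Zo, mul_sum, G_Lev1]
  symm
  refine sum_of_injOn (fun k : ℕ => (m : ℤ) * k) ?_ ?_ ?_ ?_
  · intro k _ k' _ h
    have h1 : (m : ℤ) ≠ 0 := by exact_mod_cast (by omega : m ≠ 0)
    exact_mod_cast mul_left_cancel₀ h1 h
  · intro k hk
    rw [mem_coe, mem_Icc] at hk ⊢
    beta_reduce
    have h1 : (k : ℝ) ≤ 2 * (Y / m) := (Nat.le_floor_iff (by positivity)).1 hk.2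
    rw [← mul_div_assoc, le_div_iff₀ hm'] at h1
    have h2 : ((m * k : ℕ) : ℝ) ≤ M := by push_cast; linarith
    have h3 : m * k ≤ M := by exact_mod_cast h2
    have h4 : 1 ≤ m * k := Nat.mul_pos hm hk.1
    exact ⟨by exact_mod_cast h4, by exact_mod_cast h3⟩
  · intro n hn hn'
    by_contra h0
    obtain ⟨k, rfl⟩ := iC_ne_zero (left_ne_zero_of_mul h0)
    have h1 := om_mem (Complex.ofReal_ne_zero.1 (left_ne_zero_of_mul (right_ne_zero_of_mul h0)))
    rw [lt_div_iff₀ hY, div_lt_iff₀ hY] at h1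
    push_cast at h1
    have h2 : (0 : ℝ) < k := by
      by_contra hk
      nlinarith [h1.1, not_lt.1 hk]
    have h3 : 0 < k := by exact_mod_cast h2
    lift k to ℕ using h3.le
    refine hn' ⟨k, ?_, rfl⟩
    rw [mem_coe, mem_Icc]
    refine ⟨by exact_mod_cast h3, Nat.le_floor ?_⟩
    rw [← mul_div_assoc, le_div_iff₀ hm']
    push_cast at h1
    linarith [h1.2]
  · intro k hk
    have h1 : (0 : ℝ) < k := by exact_mod_cast (mem_Icc.1 hk).1
    rw [iC_pos (dvd_mul_right _ _), one_mul, u_Lev1]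
    push_cast
    rw [pw_mul hm'.ne' h1.ne', show (k : ℝ) / (Y / m) = m * k / Y by field_simp]
    ring

lemma mob_Lev1 {M : ℕ} {v : V} (hv : v ∈ Icc (1 : ℤ) M ×ˢ Icc (1 : ℤ) M) :
    iC (ct v = 1) = ∑ m ∈ Icc 1 M, ((ArithmeticFunction.moebius m : ℤ) : ℂ) *
      (iC ((m : ℤ) ∣ v.1) * iC ((m : ℤ) ∣ v.2)) := by
  rw [mem_product, mem_Icc, mem_Icc] at hv
  have h0 : ct v ≠ 0 := fun h => by
    have := (Int.gcd_eq_zero_iff.1 h).1
    omega
  have h1 : ct v ≤ M := by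
    have := Int.le_of_dvd (by omega) (ct_dvd_one v)
    omega
  have h2 : ∑ m ∈ (ct v).divisors, ArithmeticFunction.moebius m = if ct v = 1 then 1 else 0 := by
    rw [← ArithmeticFunction.coe_mul_zeta_apply, ArithmeticFunction.moebius_mul_coe_zeta,
      ArithmeticFunction.one_apply]
  have h3 : iC (ct v = 1) = ∑ m ∈ (ct v).divisors, ((ArithmeticFunction.moebius m : ℤ) : ℂ) := by
    rw [← Int.cast_sum, h2]
    by_cases h : ct v = 1
    · rw [iC_pos h, if_pos h, Int.cast_one]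
    · rw [iC_neg h, if_neg h, Int.cast_zero]
  have h4 : ∀ m : ℕ, ((m : ℤ) ∣ v.1 ∧ (m : ℤ) ∣ v.2) ↔ m ∣ ct v := fun m =>
    ⟨fun h => Int.dvd_gcd h.1 h.2, fun h =>
      ⟨(Int.natCast_dvd_natCast.2 h).trans (ct_dvd_one v),
        (Int.natCast_dvd_natCast.2 h).trans (ct_dvd_two v)⟩⟩
  rw [h3]
  refine sum_subset_zero_on_sdiff ?_ ?_ ?_
  · intro m hm
    exact mem_Icc.2 ⟨Nat.pos_of_mem_divisors hm, (Nat.divisor_le hm).trans h1⟩
  · intro m hm
    rw [← iC_and, iC_neg, mul_zero]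
    rw [h4]
    exact fun h => (mem_sdiff.1 hm).2 (Nat.mem_divisors.2 ⟨h, h0⟩)
  · intro m hm
    rw [← iC_and, iC_pos ((h4 m).2 (Nat.dvd_of_mem_divisors hm)), mul_one]

lemma Zp_eq_Lev1 (M : ℕ) (A B t : ℝ) : Zp_Lev1 M A B t =
    ∑ m ∈ Icc 1 M, ((ArithmeticFunction.moebius m : ℤ) : ℂ) *
      (G_Lev1 M m A t * conj (G_Lev1 M m B t)) := by
  have h1 : Zp_Lev1 M A B t = ∑ v ∈ Icc (1 : ℤ) M ×ˢ Icc (1 : ℤ) M,
      iC (ct v = 1) * (u_Lev1 A t v.1 * conj (u_Lev1 B t v.2)) := by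
    rw [Zp_Lev1, sum_filter]
    refine sum_congr rfl fun v _ => ?_
    by_cases h : ct v = 1
    · rw [iC_pos h, if_pos h, one_mul]
    · rw [iC_neg h, if_neg h, zero_mul]
  rw [h1, sum_congr rfl fun v hv => by rw [mob_Lev1 hv, sum_mul], sum_comm]
  refine sum_congr rfl fun m _ => ?_
  simp only [G_Lev1, map_sum, map_mul, conj_iC]
  rw [sum_mul_sum, ← sum_product', mul_sum]
  exact sum_congr rfl fun v _ => by ring

lemma norm_Zp_Lev1 {M : ℕ} {A B : ℝ} (t : ℝ) (hA : 0 < A) (hB : 0 < B) (hA' : 2 * A ≤ M)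
    (hB' : 2 * B ≤ M) :
    ‖Zp_Lev1 M A B t‖ ≤ ∑ m ∈ Icc 1 M, ‖Zo (A / m) t‖ * ‖Zo (B / m) t‖ := by
  rw [Zp_eq_Lev1]
  refine (norm_sum_le _ _).trans (sum_le_sum fun m hm => ?_)
  have hm1 := (mem_Icc.1 hm).1
  rw [G_eq_Lev1 t hm1 hA hA', G_eq_Lev1 t hm1 hB hB', norm_mul, norm_mul, Complex.norm_conj,
    norm_mul, norm_mul, norm_pw, one_mul, one_mul]
  refine mul_le_of_le_one_left (by positivity) ?_
  rw [Complex.norm_intCast]
  exact_mod_cast ArithmeticFunction.abs_moebius_le_one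

lemma Gw_eq_Lev1 (T y : ℝ) (a b e f : ℕ) {P : Pr} (h1 : 1 ≤ P.1.1) (h2 : 1 ≤ P.1.2)
    (h3 : 1 ≤ P.2.1) (h4 : 1 ≤ P.2.2) :
    Gw T y a b e f P = ∫ s : ℝ, (Wt s : ℂ) *
      ((u_Lev1 (a * y / e) (s * T) P.1.1 * conj (u_Lev1 (b * y / e) (s * T) P.1.2)) *
        conj (u_Lev1 (y / f) (s * T) P.2.1 * conj (u_Lev1 (y / f) (s * T) P.2.2))) := by
  have k : ∀ n : ℤ, 1 ≤ n → (n : ℝ) ≠ 0 := fun n hn => by exact_mod_cast (by omega : n ≠ 0)
  have d : ∀ p q r : ℝ, p / (q / r) = r * p / q := fun p q r => by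
    rw [div_div_eq_mul_div, mul_comm]
  rw [Gw, wh, ← integral_const_mul]
  refine integral_congr_ae (Filter.Eventually.of_forall fun s => ?_)
  have e1 : Complex.exp (Complex.I * (s : ℂ) *
      ((T * Real.log (((P.1.1 : ℝ) * P.2.2) / ((P.1.2 : ℝ) * P.2.1)) : ℝ) : ℂ)) =
      pw (((P.1.1 : ℝ) * P.2.2) / ((P.1.2 : ℝ) * P.2.1)) (s * T) := by
    rw [pw]; congr 1; push_cast; ring
  beta_reduce
  rw [e1, div_eq_mul_inv ((P.1.1 : ℝ) * P.2.2), pw_mul (mul_ne_zero (k _ h1) (k _ h4))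
    (inv_ne_zero (mul_ne_zero (k _ h2) (k _ h3))), pw_inv, pw_mul (k _ h1) (k _ h4),
    pw_mul (k _ h2) (k _ h3)]
  simp only [u_Lev1, map_mul, Complex.conj_ofReal, conj_pw, neg_neg, d]
  push_cast
  ring

lemma TS_eq_Lev1 (T y : ℝ) (a b e f M : ℕ) : (TS T y a b e f M fun _ => 1) =
    ∫ s : ℝ, (Wt s : ℂ) * (Zp_Lev1 M (a * y / e) (b * y / e) (s * T) *
      conj (Zp_Lev1 M (y / f) (y / f) (s * T))) := by
  have hW : HasCompactSupport fun s : ℝ => (Wt s : ℂ) :=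
    hasCompactSupport_Wt.comp_left Complex.ofReal_zero
  have hc : ∀ (Y : ℝ) (n : ℤ), Continuous fun s : ℝ => u_Lev1 Y (s * T) n := fun Y n =>
    (cont_u_Lev1 Y n).comp (continuous_id.mul continuous_const)
  rw [TS, sum_congr rfl fun P hP => by
    have h := (mem_filter.1 hP).1
    simp only [mem_product, mem_Icc] at h
    rw [mul_one, Gw_eq_Lev1 T y a b e f h.1.1.1 h.1.2.1 h.2.1.1 h.2.2.1],
    ← integral_finsetSum]
  swap
  · exact fun P _ => Continuous.integrable_of_hasCompactSupport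
      ((Complex.continuous_ofReal.comp continuous_Wt).mul
        (((hc _ _).mul (Complex.continuous_conj.comp (hc _ _))).mul
          (Complex.continuous_conj.comp ((hc _ _).mul (Complex.continuous_conj.comp (hc _ _))))))
      hW.mul_right
  refine integral_congr_ae (Filter.Eventually.of_forall fun s => ?_)
  beta_reduce
  rw [← mul_sum, Zp_Lev1, Zp_Lev1, map_sum, sum_mul_sum, ← sum_product', Bx,
    filter_product (fun v : V => ct v = 1) fun v : V => ct v = 1]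

lemma pair_Lev1 {p q K L c A B : ℝ} (hpq : p ≤ q) (hL : 0 < L) (hc : 0 < c)
    (h1 : ∫ t in p..q, ‖Zo A t‖ ^ 4 ≤ K * L ^ 2) (h2 : ∫ t in p..q, ‖Zo B t‖ ^ 4 ≤ K * L ^ 2)
    (h3 : ∫ t in p..q, ‖Zo c t‖ ^ 4 ≤ K * c ^ 2) :
    ∫ t in p..q, ‖Zo A t‖ * ‖Zo B t‖ * (‖Zo c t‖ * ‖Zo c t‖) ≤ K * (L * c) := by
  have i4 : ∀ Y : ℝ, IntervalIntegrable (fun t => ‖Zo Y t‖ ^ 4) volume p q := fun Y =>
    ((cont_Zo_Lev1 Y).norm.pow 4).intervalIntegrable _ _
  have hw : 0 < c / L := div_pos hc hL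
  have hw' : 0 < L / c := div_pos hL hc
  have hww : c / L * (L / c) = 1 := by field_simp
  calc _ ≤ ∫ t in p..q, (c / L / 4 * ‖Zo A t‖ ^ 4 + c / L / 4 * ‖Zo B t‖ ^ 4 +
        L / c / 2 * ‖Zo c t‖ ^ 4) := by
        refine intervalIntegral.integral_mono_on hpq
          ((((cont_Zo_Lev1 A).norm.mul (cont_Zo_Lev1 B).norm).mul
            ((cont_Zo_Lev1 c).norm.mul (cont_Zo_Lev1 c).norm)).intervalIntegrable _ _)
          ((((i4 A).const_mul _).add ((i4 B).const_mul _)).add ((i4 c).const_mul _))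
          fun t _ => ?_
        generalize ‖Zo A t‖ = x₁
        generalize ‖Zo B t‖ = x₂
        generalize ‖Zo c t‖ = x₃
        generalize c / L = w at hw hww
        generalize L / c = w' at hw' hww
        have k1 : w' * (w * (x₁ * x₂) - x₃ ^ 2) ^ 2 =
            w * (x₁ * x₂) ^ 2 - 2 * (x₁ * x₂ * (x₃ * x₃)) + w' * x₃ ^ 4 := by
          linear_combination (w * (x₁ * x₂) ^ 2 - 2 * (x₁ * x₂ * (x₃ * x₃))) * hww
        have k2 := mul_nonneg hw'.le (sq_nonneg (w * (x₁ * x₂) - x₃ ^ 2))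
        have k3 := mul_nonneg hw.le (sq_nonneg (x₁ ^ 2 - x₂ ^ 2))
        linarith
    _ = c / L / 4 * (∫ t in p..q, ‖Zo A t‖ ^ 4) + c / L / 4 * (∫ t in p..q, ‖Zo B t‖ ^ 4) +
        L / c / 2 * ∫ t in p..q, ‖Zo c t‖ ^ 4 := by
        rw [intervalIntegral.integral_add (((i4 A).const_mul _).add ((i4 B).const_mul _))
          ((i4 c).const_mul _), intervalIntegral.integral_add ((i4 A).const_mul _)
          ((i4 B).const_mul _), intervalIntegral.integral_const_mul,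
          intervalIntegral.integral_const_mul, intervalIntegral.integral_const_mul]
    _ ≤ c / L / 4 * (K * L ^ 2) + c / L / 4 * (K * L ^ 2) + L / c / 2 * (K * c ^ 2) := by gcongr
    _ = K * (L * c) := by field_simp; ring

theorem lev1_stmt (hM : M4Stmt) : Lev1Stmt := by
  intro ε hε
  obtain ⟨C, hC, h4⟩ := hM (ε / 2) (half_pos hε)
  obtain ⟨D, hD, hd⟩ := exD 2 2 20 (half_pos hε)
  refine ⟨8 * C * D, by positivity, ?_⟩
  intro T y N M a b e f hR ha hb he hf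
  obtain ⟨hT, hy, hyT, hN, hNT, hNM, hMT⟩ := hR
  obtain ⟨X, Δ, hX, hXT, hΔ⟩ := hd T hT
  have hMX : M ≤ X := by exact_mod_cast hMT.trans hXT
  have hH := harm_le hX hMX
  have hT0 : 0 < T := by linarith
  have hN' : (1 : ℝ) ≤ N := by exact_mod_cast hN
  have he' : (1 : ℝ) ≤ e := by exact_mod_cast he
  have hf' : (1 : ℝ) ≤ f := by exact_mod_cast hf
  have hab : ∀ a : ℕ, a ∈ Icc N (2 * N) → 0 < a * y / e ∧ a * y / e ≤ 2 * (N * y / e) :=
    fun a ha => by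
      have h1 : (N : ℝ) ≤ a := by exact_mod_cast (mem_Icc.1 ha).1
      have h2 : (a : ℝ) ≤ 2 * N := by exact_mod_cast (mem_Icc.1 ha).2
      have h3 : (0 : ℝ) < a := by linarith
      refine ⟨by positivity, ?_⟩
      rw [← mul_div_assoc, ← mul_assoc]
      gcongr
  obtain ⟨hA, hA'⟩ := hab a ha
  obtain ⟨hB, hB'⟩ := hab b hb
  have hL : N * y / e ≤ N * y := div_le_self (by positivity) he'
  have hL0 : 0 < N * y / e := by positivity
  have hc : y / f ≤ y := div_le_self hy.le hf'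
  have hc0 : 0 < y / f := by positivity
  have hNy : N * y ≤ 4 * T ^ 2 := by nlinarith
  have hyN : y ≤ N * y := le_mul_of_one_le_left hy.le hN'
  rw [TS_eq_Lev1]
  generalize a * y / e = A at hA hA' ⊢
  generalize b * y / e = B at hB hB' ⊢
  generalize N * y / e = L at hA' hB' hL hL0 ⊢
  generalize y / f = c at hc hc0 ⊢
  have hK : 0 ≤ C * T ^ (ε / 2) * T := by positivity
  have h5 : ∀ (Y Z : ℝ) (m : ℕ), 1 ≤ m → 0 < Y → Y ≤ Z → Z ≤ 2 * (N * y) →
      ∫ t in (T / 2)..(3 * T), ‖Zo (Y / m) t‖ ^ 4 ≤ C * T ^ (ε / 2) * T * (Z / m) ^ 2 :=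
    fun Y Z m hm hY hYZ hZ => by
      have hm' : (1 : ℝ) ≤ m := by exact_mod_cast hm
      refine (h4 T (Y / m) hT (by positivity)
        ((div_le_self hY.le hm').trans (by linarith))).trans ?_
      rw [← mul_assoc]
      gcongr
  have hcont : ∀ m m' : ℕ, Continuous fun t =>
      ‖Zo (A / m) t‖ * ‖Zo (B / m) t‖ * (‖Zo (c / m') t‖ * ‖Zo (c / m') t‖) := fun m m' =>
    ((cont_Zo_Lev1 _).norm.mul (cont_Zo_Lev1 _).norm).mul
      ((cont_Zo_Lev1 _).norm.mul (cont_Zo_Lev1 _).norm)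
  set R : ℝ → ℝ := fun t => ∑ z ∈ Icc 1 M ×ˢ Icc 1 M,
    ‖Zo (A / z.1) t‖ * ‖Zo (B / z.1) t‖ * (‖Zo (c / z.2) t‖ * ‖Zo (c / z.2) t‖) with hR
  have hRc : Continuous R := continuous_finsetSum _ fun z _ => hcont z.1 z.2
  have h6 : ∫ t in (T / 2)..(3 * T), R t ≤
      C * T ^ (ε / 2) * T * (2 * L * c) * (∑ m ∈ Icc 1 M, 1 / (m : ℝ)) ^ 2 := by
    rw [hR, intervalIntegral.integral_finsetSum fun z _ => (hcont z.1 z.2).intervalIntegrable _ _,
      sq (∑ m ∈ Icc 1 M, 1 / (m : ℝ)), sum_mul_sum, ← sum_product', mul_sum]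
    refine sum_le_sum fun z hz => ?_
    obtain ⟨h1, h2⟩ := mem_product.1 hz
    have h1' := (mem_Icc.1 h1).1
    have h2' := (mem_Icc.1 h2).1
    have k1 : (0 : ℝ) < z.1 := by exact_mod_cast h1'
    have k2 : (0 : ℝ) < z.2 := by exact_mod_cast h2'
    refine (pair_Lev1 (by linarith) (by positivity : 0 < 2 * L / z.1) (by positivity)
      (h5 A _ _ h1' hA hA' (by linarith)) (h5 B _ _ h1' hB hB' (by linarith))
      (h5 c c _ h2' hc0 le_rfl (by linarith))).trans_eq ?_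
    ring
  rw [← intervalIntegral.integral_eq_integral_of_support_subset (a := 1 / 2) (b := 3) fun s hs =>
    by
      have h := mem_of_Wt_ne_zero (Complex.ofReal_ne_zero.1 (left_ne_zero_of_mul hs))
      exact ⟨by linarith [h.1], by linarith [h.2]⟩]
  refine (intervalIntegral.norm_integral_le_of_norm_le (g := fun s => R (s * T)) (by norm_num)
    (Filter.Eventually.of_forall fun s _ => ?_)
    ((hRc.comp (continuous_id.mul continuous_const)).intervalIntegrable _ _)).trans ?_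
  · rw [norm_mul, norm_mul, Complex.norm_conj, Complex.norm_real,
      Real.norm_of_nonneg (Wt_nonneg s)]
    refine (mul_le_of_le_one_left (by positivity) (Wt_le_one s)).trans ?_
    refine (mul_le_mul (norm_Zp_Lev1 _ hA hB (by linarith) (by linarith))
      (norm_Zp_Lev1 _ hc0 hc0 (by linarith) (by linarith)) (norm_nonneg _)
      (by positivity)).trans_eq ?_
    rw [sum_mul_sum, ← sum_product']
  rw [intervalIntegral.integral_comp_mul_right R hT0.ne', smul_eq_mul,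
    show 1 / 2 * T = T / 2 by ring]
  have h7 : (∑ m ∈ Icc 1 M, 1 / (m : ℝ)) ^ 2 ≤ 4 * (D * T ^ (ε / 2)) :=
    (pow_le_pow_left₀ (by positivity) hH 2).trans (by linarith)
  have h8 : T ^ ε = T ^ (ε / 2) * T ^ (ε / 2) := by rw [← Real.rpow_add hT0, add_halves]
  calc T⁻¹ * ∫ t in (T / 2)..(3 * T), R t
      ≤ T⁻¹ * (C * T ^ (ε / 2) * T * (2 * L * c) * (4 * (D * T ^ (ε / 2)))) := by
        gcongr
        exact h6.trans (by gcongr)
    _ = 8 * C * D * T ^ ε * (L * c) := by rw [h8]; field_simp; ring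

end Pool.Agent.MP_c853c5_nt.W
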