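import Pool.Agent.MP_c853c5_nt.W.Api

set_option autoImplicit false

open Finset MeasureTheory
open scoped ENNReal ComplexConjugate

namespace Pool.Agent.MP_c853c5_nt.W

open Pool.Agent.MP_2a1f0e_nt Pool.Agent.MP_2a1f0e_nt.GM Pool.Agent.MP_2a1f0e_nt.DH

lemma dsl_Lg {w : ℝ} (hw : |w| < 1) :
    ContDiffAt ℝ (⊤ : ℕ∞) (dslope (fun z : ℝ => Real.log (1 + z)) 0) w := by
  have h1 : 0 < 1 + w := by linarith [(abs_lt.1 hw).1]
  have ha : AnalyticAt ℝ (fun z : ℝ => Real.log (1 + z)) w :=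
    (analyticAt_const.add analyticAt_id).log h1
  rcases eq_or_ne w 0 with rfl | h0
  · obtain ⟨p, hp⟩ := ha
    exact hp.has_fpower_series_dslope_fslope.analyticAt.contDiffAt
  · refine ContDiffAt.congr_of_eventuallyEq ?_ (dslope_eventuallyEq_slope_of_ne _ h0)
    have e : slope (fun z : ℝ => Real.log (1 + z)) 0 = fun z : ℝ => Real.log (1 + z) / z := by
      funext z
      rw [slope_def_field]
      simp
    rw [e]
    exact ha.contDiffAt.div contDiffAt_id h0

theorem lg_stmt : LgStmt := by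
  let χ : ContDiffBump (0 : ℝ) := ⟨1 / 2, 3 / 4, by norm_num, by norm_num⟩
  have hχ : ContDiff ℝ (⊤ : ℕ∞) fun z : ℝ => χ z * z := χ.contDiff.mul contDiff_id
  have hlt : ∀ z : ℝ, |χ z * z| < 1 := fun z => by
    rcases lt_or_ge |z| (3 / 4) with h | h
    · rw [abs_mul, abs_of_nonneg χ.nonneg]
      exact (mul_le_of_le_one_left (abs_nonneg _) χ.le_one).trans_lt (by linarith)
    · rw [χ.zero_of_le_dist (by rwa [Real.dist_0_eq_abs]), zero_mul, abs_zero]
      exact one_pos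
  refine ⟨fun z => dslope (fun z : ℝ => Real.log (1 + z)) 0 (χ z * z), ?_, fun z hz => ?_⟩
  · exact contDiff_iff_contDiffAt.2 fun z =>
      ContDiffAt.comp (f := fun z : ℝ => χ z * z) z (dsl_Lg (hlt z)) hχ.contDiffAt
  · have e : χ z = 1 :=
      χ.one_of_mem_closedBall (by rwa [Metric.mem_closedBall, Real.dist_0_eq_abs])
    have := sub_smul_dslope (fun z : ℝ => Real.log (1 + z)) 0 z
    simp only [sub_zero, smul_eq_mul, add_zero, Real.log_one] at this
    simp only [e, one_mul]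
    exact this.symm

lemma inv_le_Lg {t θ : ℝ} (ht : 0 < t) (h0 : 0 ≤ θ) (h1 : θ ≤ 1) : 1 / (1 + t) ≤ t ^ (-θ) := by
  rcases le_total t 1 with h | h
  · refine le_trans ?_ (Real.one_le_rpow_of_pos_of_le_one_of_nonpos ht h (neg_nonpos.2 h0))
    rw [div_le_one (by linarith)]
    linarith
  · refine le_trans ?_ (Real.rpow_le_rpow_of_exponent_le h (neg_le_neg h1))
    rw [Real.rpow_neg_one, ← one_div]
    exact one_div_le_one_div_of_le ht (by linarith)

theorem sc_stmt : ScStmt := by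
  intro ε hε
  obtain ⟨θ, h0, h1, h2⟩ : ∃ θ : ℝ, 0 < θ ∧ θ ≤ 1 ∧ 17 * θ ≤ ε :=
    ⟨min 1 (ε / 17), lt_min one_pos (by positivity), min_le_left _ _,
      by linarith [min_le_right 1 (ε / 17)]⟩
  obtain ⟨q, hq⟩ : ∃ q : ℝ, q = (4 / 3 : ℝ) ^ (-θ) := ⟨_, rfl⟩
  have q0 : 0 ≤ q := hq ▸ Real.rpow_nonneg (by norm_num) _
  have q1 : q < 1 := hq ▸ Real.rpow_lt_one_of_one_lt_of_neg (by norm_num) (neg_lt_zero.2 h0)
  have q2 : 0 < (1 - q)⁻¹ := inv_pos.2 (by linarith)
  refine ⟨3 * (1 - q)⁻¹, by positivity, fun Λ c hΛ hc => ?_⟩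
  have hL : 0 < 3 * Λ ^ 17 := by positivity
  have c0 : 0 < c := by
    by_contra h
    nlinarith [mul_nonneg hL.le (neg_nonneg.2 (not_lt.1 h))]
  have hb : ∀ i : ℕ, 1 / (1 + c * (4 / 3) ^ i) ≤ c ^ (-θ) * q ^ i := fun i => by
    refine (inv_le_Lg (by positivity) h0.le h1).trans (le_of_eq ?_)
    rw [Real.mul_rpow c0.le (by positivity), hq, ← Real.rpow_natCast, ← Real.rpow_natCast,
      ← Real.rpow_mul (by norm_num), ← Real.rpow_mul (by norm_num), mul_comm (-θ)]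
  have hs : Summable fun i : ℕ => c ^ (-θ) * q ^ i :=
    (summable_geometric_of_lt_one q0 q1).mul_left _
  have hs' : Summable fun i : ℕ => 1 / (1 + c * (4 / 3) ^ i) :=
    Summable.of_nonneg_of_le (fun i => by positivity) hb hs
  refine ⟨hs', (hs'.tsum_le_tsum hb hs).trans ?_⟩
  rw [tsum_mul_left, tsum_geometric_of_lt_one q0 q1]
  have k1 : c ^ (-θ) ≤ (3 * Λ ^ 17) ^ θ := by
    rw [Real.rpow_neg c0.le, ← Real.inv_rpow c0.le]
    refine Real.rpow_le_rpow (inv_pos.2 c0).le ?_ h0.le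
    rw [inv_eq_one_div, div_le_iff₀ c0]
    exact hc
  have k2 : (3 * Λ ^ 17) ^ θ ≤ 3 * Λ ^ ε := by
    rw [Real.mul_rpow (by norm_num) (by positivity), ← Real.rpow_natCast,
      ← Real.rpow_mul (by linarith)]
    refine mul_le_mul ?_ (Real.rpow_le_rpow_of_exponent_le hΛ (by exact_mod_cast h2))
      (by positivity) (by norm_num)
    exact (Real.rpow_le_rpow_of_exponent_le (by norm_num) h1).trans (Real.rpow_one 3).le
  have k3 := mul_le_mul_of_nonneg_right (k1.trans k2) q2.le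
  linarith

end Pool.Agent.MP_c853c5_nt.W
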