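import Pool.Agent.MP_c853c5_nt.W.Api

set_option autoImplicit false

open Finset MeasureTheory
open scoped ENNReal ComplexConjugate

namespace Pool.Agent.MP_c853c5_nt.W

open Pool.Agent.MP_2a1f0e_nt Pool.Agent.MP_2a1f0e_nt.GM Pool.Agent.MP_2a1f0e_nt.DH

lemma dual_LineB (ξ : ℝ) {h : ℝ} (h1 : |h| < 1) : ‖∑' k : ℤ, E ξ (k / h)‖ ≤ 4 * |h| := by
  have a : ∀ k : ℤ, k ∉ ({1, -1} : Finset ℤ) → E ξ (k / h) = 0 := fun k hk => by
    by_contra hn
    obtain ⟨-, a1, a2⟩ := abs_of_mem (E_mem hn)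
    have a3 : (0 : ℝ) < |(k : ℝ)| := (abs_nonneg h).trans_lt a1
    have a4 : |(k : ℝ)| < 2 := by linarith
    have a5 : 0 < |k| := by exact_mod_cast a3
    have a6 : |k| < 2 := by exact_mod_cast a4
    simp only [mem_insert, mem_singleton] at hk
    rcases abs_cases k with a7 | a7 <;> omega
  have b : ∀ k ∈ ({1, -1} : Finset ℤ), ‖E ξ (k / h)‖ ≤ 2 * |h| := fun k hk => by
    by_cases hn : E ξ (k / h) = 0
    · rw [hn, norm_zero]
      positivity
    · obtain ⟨-, -, a2⟩ := abs_of_mem (E_mem hn)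
      have a3 : |(k : ℝ)| = 1 := by
        simp only [mem_insert, mem_singleton] at hk
        rcases hk with rfl | rfl <;> simp
      linarith [norm_E_le ξ (k / h), abs_nonneg h]
  rw [tsum_eq_sum a, sum_pair (by decide)]
  linarith [norm_add_le (E ξ (((1 : ℤ) : ℝ) / h)) (E ξ (((-1 : ℤ) : ℝ) / h)), b 1 (by simp),
    b (-1) (by simp)]

lemma small_LineB (hP : Pois1Stmt) (ξ : ℝ) {h : ℝ} (h0 : h ≠ 0) (h1 : |h| < 1) :
    ‖∑' k : ℤ, iC (k ≠ 0) * Eh ξ (h * k)‖ ≤ 4 + ‖Eh ξ 0‖ := by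
  have p : (0 : ℝ) < |h| := abs_pos.2 h0
  have a := (hP ξ h 0 0 h0).mul_left (((|h| : ℝ) : ℂ))⁻¹
  have e0 : ex 0 = 1 := by simp [ex]
  simp only [sub_zero, mul_zero, zero_mul, add_zero, e0, mul_one,
    inv_mul_cancel_left₀ (Complex.ofReal_ne_zero.2 p.ne')] at a
  have b := hasSum_ite_sub_hasSum a 0
  have c : ∑' k : ℤ, iC (k ≠ 0) * Eh ξ (h * k) =
      ∑' k : ℤ, if k = 0 then 0 else Eh ξ (h * k) := tsum_congr fun k => by
    by_cases hk : k = 0 <;> simp [iC, hk]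
  rw [c, b.tsum_eq, Int.cast_zero, mul_zero]
  refine (norm_sub_le _ _).trans (add_le_add_left ?_ _)
  rw [norm_mul, norm_inv, Complex.norm_real, norm_abs_eq_norm, Real.norm_eq_abs,
    inv_mul_le_iff₀ p, mul_comm]
  exact dual_LineB ξ h1

lemma large_LineB {ξ h B : ℝ} (hB : ∀ y, ‖Eh ξ y‖ ≤ B / (1 + |y|) ^ 2) (h1 : 1 ≤ |h|) :
    ‖∑' k : ℤ, iC (k ≠ 0) * Eh ξ (h * k)‖ ≤ B / |h| * ∑' k : ℤ, 1 / (k : ℝ) ^ 2 := by
  have B0 : 0 ≤ B := by simpa using (norm_nonneg _).trans (hB 0)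
  refine tsum_of_norm_bounded
    ((Real.summable_one_div_int_pow.2 one_lt_two).hasSum.mul_left _) fun k => ?_
  by_cases hk : k = 0
  · simp [iC, hk]
  have k0 : (0 : ℝ) < (k : ℝ) ^ 2 := by positivity
  have e : iC (k ≠ 0) = 1 := by simp [iC, hk]
  rw [e, one_mul, div_mul_div_comm, mul_one]
  refine (hB _).trans (div_le_div_of_nonneg_left B0 (by positivity) ?_)
  rw [abs_mul, ← sq_abs (k : ℝ)]
  have := mul_nonneg (abs_nonneg h) (abs_nonneg (k : ℝ))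
  nlinarith [mul_le_mul_of_nonneg_right h1 (mul_nonneg (abs_nonneg h) (sq_nonneg |(k : ℝ)|))]

theorem lineB_stmt (hE : EhStmt) (hP : Pois1Stmt) : LineBStmt := by
  obtain ⟨C, C0, hC⟩ := hE 2
  have S0 : 0 ≤ ∑' k : ℤ, 1 / (k : ℝ) ^ 2 := tsum_nonneg fun k => by positivity
  refine ⟨4 + C + C * ∑' k : ℤ, 1 / (k : ℝ) ^ 2, by positivity, fun ξ H g hg hH => ?_⟩
  have g0 : (0 : ℝ) < g := by exact_mod_cast hg
  have p : 0 < |H| := abs_pos.2 hH
  have e : Rl ξ H g = ∑' k : ℤ, iC (k ≠ 0) * Eh ξ (-H / g * k) :=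
    tsum_congr fun k => by congr 2; ring
  have a : |-H / g| = |H| / g := by rw [abs_div, abs_neg, abs_of_pos g0]
  have x1 : 1 ≤ (1 + |ξ|) ^ 2 := one_le_pow₀ (by linarith [abs_nonneg ξ])
  have := mul_nonneg C0.le S0
  rw [e]
  rcases lt_or_ge |H| g with h | h
  · rw [min_eq_left ((one_le_div p).2 h.le), mul_one]
    refine (small_LineB hP ξ (div_ne_zero (neg_ne_zero.2 hH) g0.ne')
      (by rwa [a, div_lt_one g0])).trans ?_
    have h2 := hC ξ 0
    simp only [abs_zero, add_zero, one_pow, div_one] at h2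
    nlinarith
  · rw [min_eq_right ((div_le_one p).2 h)]
    refine (large_LineB (hC ξ) (by rwa [a, one_le_div g0])).trans ?_
    rw [a, div_div_eq_mul_div, mul_div_assoc, mul_right_comm]
    refine mul_le_mul_of_nonneg_right ?_ (by positivity)
    nlinarith

end Pool.Agent.MP_c853c5_nt.W
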