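import Pool.Agent.MP_c853c5_nt.W.Api

set_option autoImplicit false

open Finset MeasureTheory
open scoped ENNReal ComplexConjugate

namespace Pool.Agent.MP_c853c5_nt.W

open Pool.Agent.MP_2a1f0e_nt Pool.Agent.MP_2a1f0e_nt.GM Pool.Agent.MP_2a1f0e_nt.DH

lemma sup_LineL {d : Dat} (hd : Adm d.al d.g) {G : Pr} {x : MM}
    (h : iC (An G x) * d.g (vx G.2 x) * (om (dt x) : ℂ) ≠ 0) : SupL d.al G x := by
  simp only [mul_ne_zero_iff] at h
  obtain ⟨h1, h2, h3⟩ := iC_ne_zero h.1.1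
  obtain ⟨h4, h5⟩ := om_mem (Complex.ofReal_ne_zero.1 h.2)
  refine ⟨h1, prim_two_of_hh h1, by rw [h1]; exact one_ne_zero, hd.2.2 _ h.1.2, h4.le,
    by linarith, ?_, ?_, ?_⟩
  · rw [abs_of_nonneg h2, abs_one]; linarith
  · rw [h1]; simp
  · rw [h1]; simp

lemma pt_LineL (hF : FinStmt) {d : Dat} (h0 : 0 < d.al) (hd : Adm d.al d.g) {q : ℕ} (hq : 1 ≤ q)
    {c : ℕ → ℝ} (hc : ∀ g ∈ q.divisors,
      ‖((d.PP / q : ℝ) : ℂ) * (Eh d.x1 0 * Rl d.x2 d.H g)‖ ≤ c g) (x : MM) (w : V) :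
    ‖lnF d q x w‖ ≤ ‖∑ g ∈ q.divisors,
      (c g : ℂ) * vf g Prod.snd (fun G x => iC (SupL d.al G x)) x w‖ := by
  classical
  have hS := hF d.al 1 1 x h0
  have e : ∀ g : ℕ, vf g Prod.snd (fun G x => iC (SupL d.al G x)) x w =
      ((∑ G ∈ hS.toFinset, ‖iC (SupL d.al G x) * ind g (om2 w G.2)‖ : ℝ) : ℂ) := fun g => by
    unfold vf
    beta_reduce
    rw [tsum_eq_sum (s := hS.toFinset) fun G hG => by
      rw [iC_neg fun h => hG (hS.mem_toFinset.2 h.2), zero_mul], Complex.ofReal_sum]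
    refine sum_congr rfl fun G _ => ?_
    rw [ind, ← iC_and]
    by_cases h : SupL d.al G x ∧ (g : ℤ) ∣ om2 w G.2
    · rw [iC_pos h]; simp
    · rw [iC_neg h]; simp
  have hc0 : ∀ g ∈ q.divisors, 0 ≤ c g := fun g hg => (norm_nonneg _).trans (hc g hg)
  have key : ∀ G : Pr, ‖iC (An G x) * d.g (vx G.2 x) * (om (dt x) : ℂ) * ((d.PP / q : ℝ) : ℂ) *
      (Eh d.x1 0 * Rl d.x2 d.H (Int.gcd (om2 w G.2) q))‖ ≤
      ∑ g ∈ q.divisors, c g * ‖iC (SupL d.al G x) * ind g (om2 w G.2)‖ := fun G => by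
    by_cases h : iC (An G x) * d.g (vx G.2 x) * (om (dt x) : ℂ) = 0
    · rw [h, zero_mul, zero_mul, norm_zero]
      exact sum_nonneg fun g hg => mul_nonneg (hc0 g hg) (norm_nonneg _)
    have hg : Int.gcd (om2 w G.2) q ∈ q.divisors :=
      Nat.mem_divisors.2 ⟨Int.natCast_dvd_natCast.1 (Int.gcd_dvd_right _ _), by omega⟩
    refine le_trans ?_ (single_le_sum
      (f := fun g => c g * ‖iC (SupL d.al G x) * ind g (om2 w G.2)‖)
      (fun g hg => mul_nonneg (hc0 g hg) (norm_nonneg _)) hg)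
    rw [iC_pos (sup_LineL hd h), ind, iC_pos (Int.gcd_dvd_left _ _), mul_one, norm_one, mul_one,
      mul_assoc, norm_mul]
    refine (mul_le_of_le_one_left (norm_nonneg _) ?_).trans (hc _ hg)
    rw [norm_mul, norm_mul]
    exact mul_le_one₀ (mul_le_one₀ (norm_iC_le _) (norm_nonneg _) (hd.2.1 _)) (norm_nonneg _)
      (norm_om_le _)
  unfold lnF
  rw [tsum_eq_sum (s := hS.toFinset) fun G hG => by
    rw [show iC (An G x) * d.g (vx G.2 x) * (om (dt x) : ℂ) = 0 from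
      by_contra fun h => hG (hS.mem_toFinset.2 (sup_LineL hd h).2), zero_mul, zero_mul]]
  refine (norm_sum_le_of_le _ fun G _ => key G).trans ?_
  simp only [e, ← Complex.ofReal_mul, ← Complex.ofReal_sum, Complex.norm_real, Real.norm_eq_abs]
  rw [sum_comm]
  simp only [← mul_sum]
  exact le_abs_self _

lemma nv_LineL (hP : PbStmt) {q X : ℕ} {Δ : ℝ} (hq : 1 ≤ q) (hD : DivB X Δ) (hX : q ≤ X)
    (c : ℕ → ℝ) {f : V → ℂ} {e : ℕ → V → ℂ} (he : ∀ g, Per g (e g))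
    (h : ∀ w, ‖f w‖ ≤ ‖∑ g ∈ q.divisors, (c g : ℂ) * e g w‖) :
    NV q f ≤ ∑ g ∈ q.divisors, Δ ^ 2 * c g ^ 2 * (q / g) * NC g (e g) 0 := by
  have h1 := NC_sum_le q q.divisors (fun g w => (c g : ℂ) * e g w) (fun _ => 0)
    (b := fun _ => 1) fun _ _ => one_pos
  simp only [sum_const_zero, div_one, sum_const, nsmul_eq_mul, mul_one] at h1
  refine (NV_le_NC q f 0).trans ((NC_mono fun w _ => h w).trans (h1.trans ?_))
  rw [mul_sum]
  refine sum_le_sum fun g hg => ?_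
  obtain ⟨k, hk⟩ := Nat.dvd_of_mem_divisors hg
  have hg0 : 1 ≤ g := Nat.pos_of_mem_divisors hg
  have hk0 : 1 ≤ k := Nat.pos_of_ne_zero fun h => by rw [h] at hk; omega
  have h2 := NC_mul q (c g) (e g) 0
  rw [mul_zero, Complex.norm_real, Real.norm_eq_abs, sq_abs] at h2
  have h3 := hP k g (e g) 0 hk0 hg0 (he g)
  rw [mul_comm k g, ← hk] at h3
  have h4 : (q : ℝ) / g = k := by
    rw [hk, Nat.cast_mul, mul_div_cancel_left₀ _ (by positivity)]
  have h5 := hD.2 q hX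
  have h6 := hD.2 k ((Nat.le_of_dvd hq ⟨g, by rw [hk, mul_comm]⟩).trans hX)
  have h7 := NC_nonneg g (e g) 0
  have h8 := NC_nonneg q (e g) 0
  have h9 : 0 ≤ Δ := zero_le_one.trans hD.1
  rw [h2, h4]
  calc (q.divisors.card : ℝ) * (c g ^ 2 * NC q (e g) 0)
      ≤ Δ * (c g ^ 2 * (k * Δ * NC g (e g) 0)) := by
        gcongr
        exact h3.trans (by gcongr)
    _ = _ := by ring

lemma lf_LineL (μ : Measure MM) (q : ℕ) {f : Fld} {e : ℕ → Fld} (he : ∀ g, MF (e g))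
    {a b : ℕ → ℝ} (ha : ∀ g, 0 ≤ a g) (hb : ∀ g, 0 ≤ b g)
    (h : ∀ x, NV q (f x) ≤ ∑ g ∈ q.divisors, a g * NC g (e g x) 0)
    (hL : ∀ g ∈ q.divisors, L0 μ g (e g) ≤ ENNReal.ofReal (b g)) :
    LF μ q f ≤ ENNReal.ofReal (∑ g ∈ q.divisors, a g * b g) := by
  calc LF μ q f ≤ ∫⁻ x, ∑ g ∈ q.divisors,
        ENNReal.ofReal (a g) * ENNReal.ofReal (NC g (e g x) 0) ∂μ := by
        refine lintegral_mono fun x => (ENNReal.ofReal_le_ofReal (h x)).trans_eq ?_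
        rw [ENNReal.ofReal_sum_of_nonneg fun g _ => mul_nonneg (ha g) (NC_nonneg _ _ _)]
        exact sum_congr rfl fun g _ => ENNReal.ofReal_mul (ha g)
    _ = ∑ g ∈ q.divisors, ENNReal.ofReal (a g) * L0 μ g (e g) := by
        rw [lintegral_finsetSum _ fun g _ =>
          (measurable_NC g (he g) measurable_const).ennreal_ofReal.const_mul _]
        exact sum_congr rfl fun g _ => lintegral_const_mul' _ _ ENNReal.ofReal_ne_top
    _ ≤ _ := by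
        rw [ENNReal.ofReal_sum_of_nonneg fun g _ => mul_nonneg (ha g) (hb g)]
        refine sum_le_sum fun g hg => ?_
        rw [ENNReal.ofReal_mul (ha g)]
        exact mul_le_mul_right (hL g hg) _

lemma cnt_LineL (Q : ℕ) (hQ : 1 ≤ Q) {a : ℕ → ℝ} (ha : ∀ g, 0 ≤ a g) :
    ∑ q ∈ Ico Q (2 * Q), ∑ g ∈ q.divisors, a g / q ≤ ∑ g ∈ Icc 1 (2 * Q), 2 * a g / g := by
  have hQ' : (0 : ℝ) < Q := by exact_mod_cast hQ
  calc ∑ q ∈ Ico Q (2 * Q), ∑ g ∈ q.divisors, a g / q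
      ≤ ∑ q ∈ Ico Q (2 * Q), ∑ g ∈ Icc 1 (2 * Q), if g ∣ q then a g / Q else 0 := by
        refine sum_le_sum fun q hq => ?_
        obtain ⟨h1, h2⟩ := mem_Ico.1 hq
        rw [← sum_filter]
        refine (sum_le_sum fun g _ => div_le_div_of_nonneg_left (ha g) hQ'
          (by exact_mod_cast h1)).trans (sum_le_sum_of_subset_of_nonneg (fun g hg => ?_)
          fun g _ _ => div_nonneg (ha g) hQ'.le)
        exact mem_filter.2 ⟨mem_Icc.2 ⟨Nat.pos_of_mem_divisors hg,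
          (Nat.divisor_le hg).trans h2.le⟩, Nat.dvd_of_mem_divisors hg⟩
    _ ≤ _ := by
        rw [sum_comm]
        refine sum_le_sum fun g hg => ?_
        have hg' : (0 : ℝ) < g := by exact_mod_cast (mem_Icc.1 hg).1
        rw [← sum_filter, sum_const, nsmul_eq_mul]
        have h1 : ((Ico Q (2 * Q)).filter fun q => g ∣ q).card ≤ 2 * Q / g := by
          rw [← Nat.Ioc_filter_dvd_card_eq_div]
          refine card_le_card (filter_subset_filter _ fun q hq => ?_)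
          obtain ⟨h1, h2⟩ := mem_Ico.1 hq
          exact mem_Ioc.2 ⟨by omega, h2.le⟩
        have h2 : (((Ico Q (2 * Q)).filter fun q => g ∣ q).card : ℝ) ≤ 2 * Q / g := by
          refine (Nat.cast_le.2 h1).trans (Nat.cast_div_le.trans_eq ?_)
          push_cast; rfl
        refine (mul_le_mul_of_nonneg_right h2 (div_nonneg (ha g) hQ'.le)).trans_eq ?_
        field_simp

lemma min_LineL {h g : ℝ} (hh : 0 < h) (hg : 1 ≤ g) :
    (h * min 1 (g / h) / g) ^ 2 ≤ 1 ∧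
      (h * min 1 (g / h) / g) ^ 2 ≤ 4 * h ^ 2 * (1 / (g - 1 + h) - 1 / (g + h)) := by
  have e : h * min 1 (g / h) = min h g := by
    rw [mul_min_of_nonneg _ _ hh.le, mul_one, mul_div_cancel₀ _ hh.ne']
  rw [e]
  have h1 := min_le_left h g
  have h2 := min_le_right h g
  have h3 : 0 < min h g := lt_min hh (by linarith)
  generalize min h g = t at h1 h2 h3
  have g0 : 0 < g := by linarith
  have g1 : 0 < g - 1 + h := by linarith
  have g2 : 0 < g + h := by linarith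
  refine ⟨pow_le_one₀ (by positivity) ((div_le_one g0).2 h2), ?_⟩
  have h4 : t / g ≤ 2 * h / (g + h) := by
    rw [div_le_div_iff₀ g0 g2]; nlinarith
  refine (pow_le_pow_left₀ (by positivity) h4 2).trans ?_
  rw [show 1 / (g - 1 + h) - 1 / (g + h) = 1 / ((g - 1 + h) * (g + h)) by field_simp; ring,
    div_pow, mul_one_div, show (2 * h) ^ 2 = 4 * h ^ 2 by ring]
  exact div_le_div_of_nonneg_left (by positivity) (by positivity) (by nlinarith)

lemma summin_LineL {h : ℝ} (hh : 0 < h) (M : ℕ) :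
    ∑ g ∈ Icc 1 M, (h * min 1 ((g : ℝ) / h) / g) ^ 2 ≤ 4 * h := by
  have k : ∑ g ∈ Icc 1 M, (h * min 1 ((g : ℝ) / h) / g) ^ 2 ≤
      4 * h ^ 2 * (1 / h - 1 / (M + h)) := by
    induction M with
    | zero => simp
    | succ M ih =>
      rw [sum_Icc_succ_top (by omega)]
      have := (min_LineL hh (g := ((M + 1 : ℕ) : ℝ)) (by exact_mod_cast Nat.succ_pos M)).2
      rw [show ((M + 1 : ℕ) : ℝ) - 1 = M by push_cast; ring] at this
      linarith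
  refine k.trans ?_
  have : 0 ≤ 4 * h ^ 2 * (1 / (M + h)) := by positivity
  rw [mul_sub, show 4 * h ^ 2 * (1 / h) = 4 * h by field_simp]
  linarith

lemma real_LineL {d : Dat} (hH : 0 < |d.H|) {Q X : ℕ} {Δ : ℝ} (hQ : 1 ≤ Q) (hD : DivB X Δ)
    (hX : 2 * Q ≤ X) :
    ∑ q ∈ Ico Q (2 * Q), ∑ g ∈ q.divisors, (d.PP / q * min 1 ((g : ℝ) / |d.H|)) ^ 2 * (q / g) *
      (d.al ^ 2 * (1 + d.al ^ 2 / g)) ≤ 8 * Δ * (d.DD * |d.H2| + d.XX) := by
  have h1 := cnt_LineL Q hQ (a := fun g => (d.PP * min 1 ((g : ℝ) / |d.H|)) ^ 2 / g *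
    (d.al ^ 2 * (1 + d.al ^ 2 / g))) fun g => by positivity
  refine le_trans (le_of_eq (sum_congr rfl fun q hq => sum_congr rfl fun g _ => ?_)) (h1.trans ?_)
  · have : (q : ℝ) ≠ 0 := Nat.cast_ne_zero.2 (by have := (mem_Ico.1 hq).1; omega)
    field_simp
  have h2 : ∀ g ∈ Icc 1 (2 * Q), 2 * ((d.PP * min 1 ((g : ℝ) / |d.H|)) ^ 2 / g *
      (d.al ^ 2 * (1 + d.al ^ 2 / g))) / g ≤
      2 * d.al ^ 2 * d.H2 ^ 2 * (|d.H| * min 1 ((g : ℝ) / |d.H|) / g) ^ 2 +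
        2 * d.al ^ 4 * d.H2 ^ 2 * (1 / g) := fun g hg => by
    have g1 : (1 : ℝ) ≤ g := by exact_mod_cast (mem_Icc.1 hg).1
    have h3 := (min_LineL hH g1).1
    have e : 2 * ((d.PP * min 1 ((g : ℝ) / |d.H|)) ^ 2 / g * (d.al ^ 2 * (1 + d.al ^ 2 / g))) / g =
        2 * d.al ^ 2 * d.H2 ^ 2 * (|d.H| * min 1 ((g : ℝ) / |d.H|) / g) ^ 2 +
        2 * d.al ^ 4 * d.H2 ^ 2 * (1 / g) * (|d.H| * min 1 ((g : ℝ) / |d.H|) / g) ^ 2 := by
      rw [Dat.PP, ← sq_abs d.H2]; ring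
    rw [e]
    exact add_le_add le_rfl (mul_le_of_le_one_right (by positivity) h3)
  refine (sum_le_sum h2).trans ?_
  rw [sum_add_distrib, ← mul_sum, ← mul_sum]
  have h3 := summin_LineL hH (2 * Q)
  have h4 := harm_le hD hX
  have h5 : d.al ^ 2 * d.H2 ^ 2 * |d.H| ≤ d.DD * |d.H2| := by
    rw [Dat.DD, Dat.PP, ← sq_abs d.H2]
    have : 0 ≤ d.al ^ 2 * d.H ^ 2 * |d.H2| := by positivity
    linarith
  have h6 : d.al ^ 4 * d.H2 ^ 2 ≤ d.XX := by
    rw [Dat.XX]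
    have := d.PP_nonneg
    have : 0 ≤ d.al ^ 4 * d.PP := by positivity
    linarith
  have h7 : 0 ≤ d.DD * |d.H2| := mul_nonneg d.DD_nonneg (abs_nonneg _)
  have h8 := d.XX_nonneg
  have h9 := hD.1
  calc _ ≤ 2 * d.al ^ 2 * d.H2 ^ 2 * (4 * |d.H|) + 2 * d.al ^ 4 * d.H2 ^ 2 * (2 * Δ) := by gcongr
    _ = 8 * (d.al ^ 2 * d.H2 ^ 2 * |d.H|) + 4 * Δ * (d.al ^ 4 * d.H2 ^ 2) := by ring
    _ ≤ 8 * (d.DD * |d.H2|) + 4 * Δ * d.XX := by gcongr
    _ ≤ _ := by nlinarith [mul_nonneg (sub_nonneg.2 h9) h7, mul_nonneg (sub_nonneg.2 h9) h8]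

theorem lineL_stmt (hB : LineBStmt) (hE : EhStmt) (hP : PbStmt) (hL : LeftStmt) (hF : FinStmt) :
    LineLStmt := by
  intro ε hε
  obtain ⟨CB, hCB, hB⟩ := hB
  obtain ⟨CE, hCE, hE⟩ := hE 0
  obtain ⟨CL, hCL, hL⟩ := hL (ε / 2) (half_pos hε)
  obtain ⟨CD, hCD, hD⟩ := exD 1 3 2 (half_pos hε)
  refine ⟨8 * (CE * CB) ^ 2 * CL * CD, by positivity, fun μ hμ d Λ Q hd hH => ?_⟩
  have hΛ := hd.one_le
  obtain ⟨X, Δ, hX, h2, h3⟩ := hD Λ hΛ
  obtain ⟨h0, hA, hα, -, -, hQ, hQΛ⟩ := hd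
  have hQX : 2 * Q ≤ X := by
    have : ((2 * Q : ℕ) : ℝ) ≤ X := by push_cast; rw [pow_one] at h2; linarith
    exact_mod_cast this
  have hH0 : 0 < |d.H| := by linarith
  have hΔ := hX.1
  have hξ := d.one_le_xi
  have hPP := d.PP_nonneg
  have hpw : 0 < Λ ^ (ε / 2) := Real.rpow_pos_of_pos (by linarith) _
  have k : ∀ q ∈ Ico Q (2 * Q), LF μ q (lnF d q) ≤ ENNReal.ofReal (∑ g ∈ q.divisors,
      Δ ^ 2 * (CE * CB * d.xi ^ 2 * (d.PP / q * min 1 ((g : ℝ) / |d.H|))) ^ 2 * (q / g) *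
        (CL * Λ ^ (ε / 2) * (d.al ^ 2 * (1 + d.al ^ 2 / g)))) := fun q hq => by
    obtain ⟨q1, q2⟩ := mem_Ico.1 hq
    refine lf_LineL μ q (e := fun g => vf g Prod.snd fun G x => iC (SupL d.al G x))
      (fun g => MF_vf g _ fun G => measurable_iC (measurableSet_SupL _ G))
      (fun g => by positivity) (fun g => by positivity)
      (fun x => nv_LineL hP (by omega) hX (by omega) _ (fun g => per_vf g _ _ x)
        (pt_LineL hF h0 hA (by omega) (fun g hg => ?_) x))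
      fun g hg => (hL μ hμ Λ d.al _ hΛ h0 hα (fun _ _ => norm_iC_le _)
        fun _ _ h => iC_ne_zero h).2 g (Nat.pos_of_mem_divisors hg)
    have e1 := hE d.x1 0
    rw [pow_zero, pow_zero, mul_one, div_one] at e1
    have e2 := hB d.x2 d.H g (Nat.pos_of_mem_divisors hg) (abs_pos.1 hH0)
    have e3 : 1 + |d.x2| ≤ d.xi := by unfold Dat.xi; linarith [abs_nonneg d.x1]
    have e4 : 0 ≤ min 1 ((g : ℝ) / |d.H|) := by positivity
    rw [norm_mul, norm_mul, Complex.norm_real, Real.norm_of_nonneg (by positivity)]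
    calc d.PP / q * (‖Eh d.x1 0‖ * ‖Rl d.x2 d.H g‖)
        ≤ d.PP / q * (CE * (CB * d.xi ^ 2 * min 1 ((g : ℝ) / |d.H|))) := by
          gcongr
          exact e2.trans (by gcongr)
      _ = _ := by ring
  refine (sum_le_sum k).trans ?_
  rw [← ENNReal.ofReal_sum_of_nonneg fun q _ => sum_nonneg fun g _ => by positivity]
  refine ENNReal.ofReal_le_ofReal ?_
  have h4 := real_LineL hH0 hQ hX hQX
  have h5 : 0 ≤ d.DD * |d.H2| + d.XX :=
    add_nonneg (mul_nonneg d.DD_nonneg (abs_nonneg _)) d.XX_nonneg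
  have h6 : Λ ^ ε = Λ ^ (ε / 2) * Λ ^ (ε / 2) := by
    rw [← Real.rpow_add (by linarith), add_halves]
  calc _ = Δ ^ 2 * (CE * CB) ^ 2 * d.xi ^ 4 * CL * Λ ^ (ε / 2) *
        ∑ q ∈ Ico Q (2 * Q), ∑ g ∈ q.divisors, (d.PP / q * min 1 ((g : ℝ) / |d.H|)) ^ 2 *
          (q / g) * (d.al ^ 2 * (1 + d.al ^ 2 / g)) := by
        simp only [mul_sum]
        exact sum_congr rfl fun q _ => sum_congr rfl fun g _ => by ring
    _ ≤ Δ ^ 2 * (CE * CB) ^ 2 * d.xi ^ 4 * CL * Λ ^ (ε / 2) *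
        (8 * Δ * (d.DD * |d.H2| + d.XX)) := by gcongr
    _ = Δ ^ 3 * (8 * (CE * CB) ^ 2 * d.xi ^ 4 * CL * Λ ^ (ε / 2) * (d.DD * |d.H2| + d.XX)) := by
        ring
    _ ≤ CD * Λ ^ (ε / 2) *
        (8 * (CE * CB) ^ 2 * d.xi ^ 4 * CL * Λ ^ (ε / 2) * (d.DD * |d.H2| + d.XX)) := by gcongr
    _ = _ := by rw [h6]; ring

end Pool.Agent.MP_c853c5_nt.W
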