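import Pool.Agent.MP_c853c5_nt.W.Api
import Pool.Agent.MP_c853c5_nt.R.Ref
import Pool.Agent.MP_c853c5_nt.E.Av
import Pool.Agent.MP_2a1f0e_nt.DH.MainLV

/-!
The fourth moment of a smooth zeta sum.
-/

set_option autoImplicit false

open Finset MeasureTheory
open scoped ENNReal ComplexConjugate

namespace Pool.Agent.MP_c853c5_nt.W

open Pool.Agent.MP_2a1f0e_nt Pool.Agent.MP_2a1f0e_nt.GM Pool.Agent.MP_2a1f0e_nt.DH

lemma grid_M4 {F : ℝ → ℝ} (hF : Continuous F) (h0 : ∀ t, 0 ≤ F t) {H : ℕ} {B a b : ℝ}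
    (ha : 0 ≤ a) (hab : a ≤ b) (hb : b ≤ H)
    (h : ∀ ξ : ℝ, ∑ d ∈ Icc (-(H : ℤ)) H, F (d + ξ) ≤ B) : ∫ t in a..b, F t ≤ B := by
  refine (intervalIntegral.integral_mono_interval ha hab hb (ae_of_all _ h0)
    (hF.intervalIntegrable _ _)).trans ?_
  have e := intervalIntegral.sum_integral_adjacent_intervals (f := F) (μ := volume)
    (a := fun k : ℕ => (k : ℝ)) (n := H) fun _ _ => hF.intervalIntegrable _ _
  have e1 : ∀ k : ℕ, ∫ t in (k : ℝ)..((k + 1 : ℕ) : ℝ), F t = ∫ t in (0 : ℝ)..1, F (k + t) :=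
    fun k => by rw [intervalIntegral.integral_comp_add_left, add_zero, Nat.cast_succ]
  have c : ∀ k : ℕ, Continuous fun t => F (k + t) := fun k => by fun_prop
  rw [Nat.cast_zero] at e
  rw [← e, sum_congr rfl fun k _ => e1 k,
    ← intervalIntegral.integral_finsetSum fun k _ => (c k).intervalIntegrable _ _]
  refine (intervalIntegral.integral_mono_on zero_le_one
    ((continuous_finsetSum _ fun k _ => c k).intervalIntegrable _ _)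
    (continuous_const.intervalIntegrable _ _) fun ξ _ => le_trans ?_ (h ξ)).trans_eq (by simp)
  have e2 := sum_image (s := range H) (g := fun k : ℕ => (k : ℤ)) (f := fun d : ℤ => F (d + ξ))
    fun _ _ _ _ e => Nat.cast_injective e
  simp only [Int.cast_natCast] at e2
  rw [← e2]
  refine sum_le_sum_of_subset_of_nonneg (fun d hd => ?_) fun _ _ _ => h0 _
  obtain ⟨k, hk, rfl⟩ := mem_image.1 hd
  have := mem_range.1 hk
  rw [mem_Icc]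
  omega

lemma poly_M4 {ε : ℝ} (hε : 0 < ε) : ∃ C : ℝ, 0 < C ∧ ∀ (M L H : ℕ) (K ξ : ℝ) (c : ℕ → ℂ),
    1 ≤ L → 3 * H ≤ L → M ^ 2 ≤ L → 0 ≤ K → (∀ l ∈ Icc 1 M, ‖c l‖ ≤ K * hf l) →
    ∑ d ∈ Icc (-(H : ℤ)) H, ‖PP M c (d + ξ)‖ ^ 4 ≤ C * (L : ℝ) ^ ε * K ^ 4 * L := by
  have hε' : 0 < ε / 3 := by positivity
  obtain ⟨C, hC, h⟩ := mean_Mom jut_all pos_stmt hε'
  obtain ⟨a, ha, hD⟩ := exists_DivB hε'
  refine ⟨C * a ^ 2, by positivity, fun M L H K ξ c hL hH hM hK hc => ?_⟩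
  have hc' : ∀ l ∈ Icc 1 M, ‖c l * pw (l : ℝ) ξ‖ ≤ K * hf l := fun l hl => by
    rw [norm_mul, norm_pw, mul_one]
    exact hc l hl
  obtain ⟨d, d1, d2⟩ := prod_PowZ (by rwa [← sq]) (hD L hL) hK hK hc' hc'
  have e : (L : ℝ) ^ ε = ((L : ℝ) ^ (ε / 3)) ^ 3 := by
    rw [← Real.rpow_natCast, ← Real.rpow_mul (Nat.cast_nonneg L)]
    congr 1
    push_cast
    ring
  refine le_trans (le_of_eq (sum_congr rfl fun x _ => ?_))
    ((h L H _ d hL hH (by positivity) d1).trans_eq (by rw [e]; ring))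
  rw [← d2, ← PP_add, norm_mul]
  ring

lemma set_M4 {ε : ℝ} (hε : 0 < ε) : ∃ η C : ℝ, 0 < η ∧ 0 < C ∧ ∀ T : ℝ, 12 ≤ T → ∃ H : ℕ,
    3 * T ≤ H ∧ T ^ η ≤ T / 2 ∧ ∀ (M : ℕ) (K ξ : ℝ) (c : ℕ → ℂ),
      (M : ℝ) ^ 2 ≤ 9 * T * (T ^ η) ^ 2 → 0 ≤ K → (∀ l ∈ Icc 1 M, ‖c l‖ ≤ K * hf l) →
      ∑ d ∈ Icc (-(H : ℤ)) H, ‖PP M c (d + ξ)‖ ^ 4 ≤ C * T ^ ε * (T * K ^ 4) := by
  obtain ⟨η, η0, η1, η2⟩ : ∃ η : ℝ, 0 < η ∧ η ≤ 1 / 2 ∧ η * 6 ≤ ε :=
    ⟨min (1 / 2) (ε / 6), by positivity, min_le_left _ _, by linarith [min_le_right (1 / 2) (ε / 6)]⟩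
  obtain ⟨C, hC, h⟩ := poly_M4 η0
  refine ⟨η, 22 * C, η0, by positivity, fun T hT => ?_⟩
  have T0 : 0 < T := by linarith
  have T1 : 1 ≤ T := by linarith
  have q1 : 1 ≤ T ^ η := Real.one_le_rpow T1 η0.le
  have q2 : T ^ η ≤ T / 2 := by
    refine (Real.rpow_le_rpow_of_exponent_le T1 η1).trans ?_
    rw [← Real.sqrt_eq_rpow, Real.sqrt_le_left (by positivity)]
    nlinarith
  have q3 : (T ^ η) ^ 6 ≤ T ^ ε := by
    rw [← Real.rpow_natCast, ← Real.rpow_mul T0.le]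
    exact Real.rpow_le_rpow_of_exponent_le T1 (by push_cast; linarith)
  refine ⟨⌈3 * T⌉₊, Nat.le_ceil _, q2, fun M K ξ c hM hK hc => ?_⟩
  have q4 : T ≤ T * (T ^ η) ^ 2 := le_mul_of_one_le_right T0.le (one_le_pow₀ q1)
  have a1 := Nat.ceil_lt_add_one (show 0 ≤ 3 * T by positivity)
  have a2 := Nat.ceil_lt_add_one (show 0 ≤ 9 * T * (T ^ η) ^ 2 by positivity)
  have a3 : M ^ 2 ≤ ⌈9 * T * (T ^ η) ^ 2⌉₊ := by exact_mod_cast hM.trans (Nat.le_ceil _)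
  have a4 : 0 < ⌈3 * T⌉₊ := Nat.ceil_pos.2 (by positivity)
  obtain ⟨L, hL⟩ : ∃ L, L = ⌈9 * T * (T ^ η) ^ 2⌉₊ + 3 * ⌈3 * T⌉₊ := ⟨_, rfl⟩
  have a5 : (L : ℝ) ≤ 22 * (T * (T ^ η) ^ 2) := by
    rw [hL]
    push_cast
    linarith
  have a6 : (L : ℝ) ≤ T ^ 4 := by
    have b1 : (T ^ η) ^ 2 ≤ (T / 2) ^ 2 := by gcongr
    nlinarith [mul_le_mul_of_nonneg_left b1 T0.le,
      mul_le_mul_of_nonneg_left hT (show 0 ≤ T ^ 3 by positivity), pow_pos T0 3]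
  have a7 : (L : ℝ) ^ η ≤ (T ^ η) ^ 4 := by
    rw [Real.rpow_pow_comm T0.le]
    exact Real.rpow_le_rpow (Nat.cast_nonneg _) a6 η0.le
  refine (h M L _ K ξ c (by omega) (by omega) (by omega) hK hc).trans ?_
  calc C * (L : ℝ) ^ η * K ^ 4 * L ≤ C * (T ^ η) ^ 4 * K ^ 4 * (22 * (T * (T ^ η) ^ 2)) := by
        gcongr
    _ = 22 * C * (T ^ η) ^ 6 * (T * K ^ 4) := by ring
    _ ≤ _ := by gcongr

lemma Zo_eq_M4 {y : ℝ} (hy : 0 < y) (t : ℝ) :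
    Zo y t = (√y : ℝ) * R.SZ (fun x => om x * √x) y ⌊2 * y⌋₊ t := by
  rw [Zo, R.SZ, PP, mul_sum]
  refine sum_congr rfl fun l hl => ?_
  have hl0 : (0 : ℝ) < l := by exact_mod_cast (mem_Icc.1 hl).1
  have e : om ((l : ℝ) / y) = √y * (om ((l : ℝ) / y) * √((l : ℝ) / y) * hf (l : ℝ)) := by
    have h1 := Real.sqrt_pos.2 hl0
    have h2 := Real.sqrt_pos.2 hy
    rw [hf, Real.sqrt_div hl0.le]
    field_simp
  rw [← mul_assoc, ← Complex.ofReal_mul, ← e]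

lemma cont_M4 (M : ℕ) : Continuous fun t : ℝ => ∫ ξ : ℝ, kp ξ * ‖ZZ M (t + ξ)‖ ^ 4 := by
  refine continuous_of_dominated (bound := fun ξ => kp ξ * (M : ℝ) ^ 4)
    (fun t => (E.mom_Av M 4 (by norm_num) t).1.aestronglyMeasurable)
    (fun t => ae_of_all _ fun ξ => ?_) (integrable_kp.mul_const _) (ae_of_all _ fun ξ => ?_)
  · rw [Real.norm_of_nonneg (mul_nonneg (kp_pos ξ).le (by positivity))]
    exact mul_le_mul_of_nonneg_left (pow_le_pow_left₀ (norm_nonneg _) (norm_ZZ_le M _) 4)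
      (kp_pos ξ).le
  · exact continuous_const.mul
      (((continuous_ZZ M).comp (continuous_id.add continuous_const)).norm.pow 4)

lemma avg_M4 {M H : ℕ} {B : ℝ}
    (h : ∀ ξ : ℝ, ∑ d ∈ Icc (-(H : ℤ)) H, ‖ZZ M (d + ξ)‖ ^ 4 ≤ B) (θ : ℝ) :
    ∑ d ∈ Icc (-(H : ℤ)) H, ∫ ξ : ℝ, kp ξ * ‖ZZ M (d + θ + ξ)‖ ^ 4 ≤ 4 * B := by
  have hi : ∀ d ∈ Icc (-(H : ℤ)) H, Integrable fun ξ : ℝ => kp ξ * ‖ZZ M (d + θ + ξ)‖ ^ 4 :=
    fun d _ => (E.mom_Av M 4 (by norm_num) _).1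
  have B0 : 0 ≤ B := (sum_nonneg fun _ _ => by positivity).trans (h 0)
  rw [← integral_finsetSum _ hi]
  refine (integral_mono (integrable_finsetSum _ hi) (integrable_kp.mul_const B) fun ξ => ?_).trans ?_
  · simp only [← mul_sum, add_assoc]
    exact mul_le_mul_of_nonneg_left (h _) (kp_pos ξ).le
  · rw [integral_mul_const, integral_kp]
    exact mul_le_mul_of_nonneg_right Real.pi_le_four B0

theorem m4_stmt : M4Stmt := by
  intro ε hε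
  obtain ⟨η, C, η0, hC, h⟩ := set_M4 hε
  obtain ⟨A, hA, hs⟩ := R.sc_stmt _ _ _
    (R.sup_om.mul (g := fun x => √x) fun _ hx => Real.contDiffAt_sqrt hx.ne') (η / 3) 0
    (by positivity)
  refine ⟨40 * 1152 ^ 2 + 4 * C + 8 * A ^ 4 * (4096 * C + 3), by positivity,
    fun T y T1 hy hyT => ?_⟩
  have T0 : 0 < T := by linarith
  have hT : T / 2 ≤ 3 * T := by linarith
  have e1 : 1 ≤ T ^ ε := Real.one_le_rpow T1 hε.le
  have u0 : 0 < T * y ^ 2 := by positivity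
  have u1 : T * y ^ 2 ≤ T ^ ε * (T * y ^ 2) := le_mul_of_one_le_left u0.le e1
  have cZ : Continuous fun t => ‖Zo y t‖ ^ 4 :=
    (continuous_PP ⌊2 * y⌋₊ fun n => (om ((n : ℝ) / y) : ℂ)).norm.pow 4
  have f1 : (⌊2 * y⌋₊ : ℝ) ≤ 2 * y := Nat.floor_le (by positivity)
  have fin : ∀ D : ℝ, D ≤ 40 * 1152 ^ 2 + 4 * C + 8 * A ^ 4 * (4096 * C + 3) →
      ∫ t in (T / 2)..(3 * T), ‖Zo y t‖ ^ 4 ≤ D * (T ^ ε * (T * y ^ 2)) →
      ∫ t in (T / 2)..(3 * T), ‖Zo y t‖ ^ 4 ≤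
        (40 * 1152 ^ 2 + 4 * C + 8 * A ^ 4 * (4096 * C + 3)) * T ^ ε * (T * y ^ 2) :=
    fun D h1 h2 => h2.trans ((mul_le_mul_of_nonneg_right h1 (by positivity)).trans_eq (by ring))
  have p1 : 0 ≤ 8 * A ^ 4 * (4096 * C + 3) := by positivity
  rcases le_or_gt y 1152 with y1 | y1
  · refine fin (40 * 1152 ^ 2) (by linarith) ?_
    have b1 : ∀ t, ‖Zo y t‖ ^ 4 ≤ 16 * 1152 ^ 2 * y ^ 2 := fun t => by
      have b2 : ‖Zo y t‖ ≤ 2 * y := (norm_PP_le (L := ⌊2 * y⌋₊)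
        (c := fun n => (om ((n : ℝ) / y) : ℂ)) (fun l _ => norm_om_le _) t).trans (by linarith)
      have b3 : y ^ 2 ≤ 1152 ^ 2 := by gcongr
      calc ‖Zo y t‖ ^ 4 ≤ (2 * y) ^ 4 := by gcongr
        _ = 16 * y ^ 2 * y ^ 2 := by ring
        _ ≤ _ := by gcongr
    refine (intervalIntegral.integral_mono_on hT (cZ.intervalIntegrable _ _)
      (continuous_const.intervalIntegrable _ _) fun t _ => b1 t).trans ?_
    rw [intervalIntegral.integral_const, smul_eq_mul]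
    linarith
  have T2 : 12 ≤ T := by nlinarith
  obtain ⟨H, hH, q2, hm⟩ := h T T2
  have q1 : 1 ≤ T ^ η := Real.one_le_rpow T1 η0.le
  rcases le_or_gt (y ^ 2) T with y2 | y2
  · refine fin (4 * C) (by linarith) ?_
    refine (grid_M4 cZ (fun _ => by positivity) (by positivity) hT hH fun ξ =>
      hm ⌊2 * y⌋₊ (√(2 * y)) ξ (fun n => (om ((n : ℝ) / y) : ℂ)) ?_ (Real.sqrt_nonneg _)
        fun l hl => (norm_om_le _).trans ?_).trans_eq ?_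
    · have b1 : (⌊2 * y⌋₊ : ℝ) ^ 2 ≤ (2 * y) ^ 2 := by gcongr
      nlinarith [le_mul_of_one_le_right T0.le (one_le_pow₀ q1 : 1 ≤ (T ^ η) ^ 2)]
    · have l0 : (0 : ℝ) < l := by exact_mod_cast (mem_Icc.1 hl).1
      have l1 : (l : ℝ) ≤ ⌊2 * y⌋₊ := by exact_mod_cast (mem_Icc.1 hl).2
      rw [hf, mul_one_div, one_le_div (Real.sqrt_pos.2 l0)]
      exact Real.sqrt_le_sqrt (l1.trans f1)
    · rw [show 4 = 2 * 2 from rfl, pow_mul, Real.sq_sqrt (by positivity)]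
      ring
  refine fin (8 * A ^ 4 * (4096 * C + 3)) (by linarith) ?_
  obtain ⟨M, hM⟩ : ∃ M, M = ⌊3 * T * T ^ η / y⌋₊ := ⟨_, rfl⟩
  have m1 : (M : ℝ) * y ≤ 3 * T * T ^ η :=
    (le_div_iff₀ hy).1 (hM ▸ Nat.floor_le (by positivity))
  have m2 : 3 * T * T ^ η ≤ (M + 1) * y := ((div_lt_iff₀ hy).1 (hM ▸ Nat.lt_floor_add_one _)).le
  have m3 : (M : ℝ) ^ 2 ≤ 9 * T * (T ^ η) ^ 2 := by
    have b1 : ((M : ℝ) * y) ^ 2 ≤ (3 * T * T ^ η) ^ 2 := by gcongr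
    refine le_of_mul_le_mul_right ?_ T0
    nlinarith [mul_le_mul_of_nonneg_left y2.le (sq_nonneg (M : ℝ))]
  have e3 : (T ^ 3) ^ (η / 3) = T ^ η := by
    rw [← Real.rpow_natCast, ← Real.rpow_mul T0.le]
    congr 1
    push_cast
    ring
  have g1 := grid_M4 (cont_M4 M)
    (fun t => integral_nonneg fun ξ => mul_nonneg (kp_pos ξ).le (by positivity))
    (by positivity) hT hH (avg_M4 fun ξ => hm M 1 ξ _ m3 zero_le_one fun l _ => by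
      rw [Complex.norm_real, Real.norm_of_nonneg (hf_nonneg _), one_mul])
  have b1 : ∀ t ∈ Set.Icc (T / 2) (3 * T), ‖Zo y t‖ ^ 4 ≤
      8 * A ^ 4 * y ^ 2 * (1024 * (∫ ξ : ℝ, kp ξ * ‖ZZ M (t + ξ)‖ ^ 4) + 1) := fun t ht => by
    have t0 : 0 < t := by linarith [ht.1]
    have T3 : 12 * T ^ 2 ≤ T ^ 3 := by nlinarith [mul_le_mul_of_nonneg_left T2 (sq_nonneg T)]
    have b2 := hs (T ^ 3) y (3 * T) ⌊2 * y⌋₊ M t (by linarith) (by nlinarith)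
      (by linarith [Nat.lt_floor_add_one (2 * y)]) (by nlinarith) (by rw [e3]; linarith)
      (by rw [e3, abs_of_pos t0]; linarith [ht.1]) (by rw [abs_of_pos t0]; exact ht.2)
    have b3 := (E.mom_Av M 4 (by norm_num) t).2
    have b4 : 0 ≤ ∫ ξ : ℝ, kp ξ * ‖ZZ M (t + ξ)‖ :=
      integral_nonneg fun ξ => mul_nonneg (kp_pos ξ).le (norm_nonneg _)
    rw [neg_zero, Real.rpow_zero, ← mul_add] at b2
    generalize (∫ ξ : ℝ, kp ξ * ‖ZZ M (t + ξ)‖) = I at b2 b3 b4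
    generalize (∫ ξ : ℝ, kp ξ * ‖ZZ M (t + ξ)‖ ^ 4) = J at b3 ⊢
    have b5 : (I + 1) ^ 4 ≤ 8 * (1024 * J + 1) := by
      have := add_pow_le b4 zero_le_one 4
      norm_num at this
      linarith
    rw [Zo_eq_M4 hy, norm_mul, Complex.norm_real, Real.norm_of_nonneg (Real.sqrt_nonneg _),
      mul_pow, show 4 = 2 * 2 from rfl, pow_mul (√y), Real.sq_sqrt hy.le]
    calc y ^ 2 * _ ^ 4 ≤ y ^ 2 * (A * (I + 1)) ^ 4 := by gcongr
      _ = y ^ 2 * A ^ 4 * (I + 1) ^ 4 := by ring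
      _ ≤ y ^ 2 * A ^ 4 * (8 * (1024 * J + 1)) := by gcongr
      _ = _ := by ring
  have c1 : Continuous fun t : ℝ => 1024 * ∫ ξ : ℝ, kp ξ * ‖ZZ M (t + ξ)‖ ^ 4 :=
    continuous_const.mul (cont_M4 M)
  have c2 : Continuous fun t : ℝ =>
      8 * A ^ 4 * y ^ 2 * (1024 * (∫ ξ : ℝ, kp ξ * ‖ZZ M (t + ξ)‖ ^ 4) + 1) :=
    continuous_const.mul (c1.add continuous_const)
  refine (intervalIntegral.integral_mono_on hT (cZ.intervalIntegrable _ _)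
    (c2.intervalIntegrable _ _) b1).trans ?_
  rw [intervalIntegral.integral_const_mul, intervalIntegral.integral_add
    (c1.intervalIntegrable _ _) (continuous_const.intervalIntegrable _ _),
    intervalIntegral.integral_const_mul, intervalIntegral.integral_const, smul_eq_mul]
  have g2 : 1024 * (∫ t in (T / 2)..(3 * T), ∫ ξ : ℝ, kp ξ * ‖ZZ M (t + ξ)‖ ^ 4) +
      (3 * T - T / 2) * 1 ≤ (4096 * C + 3) * (T ^ ε * T) := by
    linarith [le_mul_of_one_le_left T0.le e1]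
  exact (mul_le_mul_of_nonneg_left g2 (by positivity)).trans_eq (by ring)

end Pool.Agent.MP_c853c5_nt.W
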