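import Pool.Agent.MP_c853c5_nt.W.Api

/-! Mellin inversion for smooth functions with compact support in the positive reals. -/

set_option autoImplicit false

open Finset MeasureTheory
open scoped ENNReal ComplexConjugate

namespace Pool.Agent.MP_c853c5_nt.W

open Pool.Agent.MP_2a1f0e_nt Pool.Agent.MP_2a1f0e_nt.GM Pool.Agent.MP_2a1f0e_nt.DH

theorem melA_stmt (h : F1Stmt) : MelAStmt := by
  intro f a b ha hf hz A
  have hpi : (0 : ℝ) < 2 * Real.pi := Real.two_pi_pos
  have hF : ContDiff ℝ (⊤ : ℕ∞) fun u : ℝ => ((f (Real.exp u) : ℝ) : ℂ) :=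
    Complex.ofRealCLM.contDiff.comp (hf.comp Real.contDiff_exp)
  have hs : HasCompactSupport fun u : ℝ => ((f (Real.exp u) : ℝ) : ℂ) := by
    refine HasCompactSupport.intro (isCompact_Icc (a := Real.log a) (b := b)) fun u hu => ?_
    rw [hz, Complex.ofReal_zero]
    rw [Set.mem_Icc, not_and_or, not_le, not_le] at hu
    rcases hu with hu | hu
    · exact Or.inl ((Real.lt_log_iff_exp_lt ha).1 hu).le
    · exact Or.inr (by linarith [Real.add_one_le_exp u])
  obtain ⟨c1, hb, hi⟩ := h _ hF hs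
  obtain ⟨C, hC, hb⟩ := hb A
  set F : ℝ → ℂ := FT1 fun u : ℝ => ((f (Real.exp u) : ℝ) : ℂ) with hFdef
  refine ⟨C * 8 ^ A, by positivity,
    fun ξ => (((2 * Real.pi)⁻¹ : ℝ) : ℂ) * F (ξ / (2 * Real.pi)), by fun_prop,
    fun ξ => ?_, fun x hx => ?_⟩
  · rw [norm_mul, Complex.norm_real, Real.norm_of_nonneg (by positivity)]
    refine (mul_le_of_le_one_left (norm_nonneg _) (inv_le_one_of_one_le₀ ?_)).trans
      ((hb _).trans ?_)
    · linarith [Real.pi_gt_three]
    · have e : 1 + |ξ| ≤ 8 * (1 + |ξ / (2 * Real.pi)|) := by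
        have e1 : |ξ| = 2 * Real.pi * |ξ / (2 * Real.pi)| := by
          rw [abs_div, abs_of_pos hpi, mul_div_cancel₀ _ hpi.ne']
        have e2 := abs_nonneg (ξ / (2 * Real.pi))
        nlinarith [Real.pi_le_four]
      rw [div_le_div_iff₀ (by positivity) (by positivity), mul_assoc, ← mul_pow]
      gcongr
  · have k := Measure.integral_comp_div
      (fun w : ℝ => (((2 * Real.pi)⁻¹ : ℝ) : ℂ) * F w * pw x (2 * Real.pi * w)) (2 * Real.pi)
    simp only [mul_div_cancel₀ _ hpi.ne'] at k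
    have k1 := hi (Real.log x)
    rw [Real.exp_log hx] at k1
    rw [k, k1, ← integral_smul, abs_of_pos hpi]
    refine integral_congr_ae (Filter.Eventually.of_forall fun w => ?_)
    have e : ((2 * Real.pi : ℝ) : ℂ) * (((2 * Real.pi)⁻¹ : ℝ) : ℂ) = 1 := by
      rw [← Complex.ofReal_mul, mul_inv_cancel₀ hpi.ne', Complex.ofReal_one]
    simp only [Complex.real_smul, pw_eq_ex]
    rw [← mul_assoc, ← mul_assoc, e, one_mul]
    congr 2
    field_simp

end Pool.Agent.MP_c853c5_nt.W
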