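import Pool.Agent.MP_c853c5_nt.W.Api
set_option autoImplicit false
open Finset MeasureTheory
open scoped ENNReal ComplexConjugate
namespace Pool.Agent.MP_c853c5_nt.W
open Pool.Agent.MP_2a1f0e_nt Pool.Agent.MP_2a1f0e_nt.GM Pool.Agent.MP_2a1f0e_nt.DH

lemma enorm_le_Mid {S₁ S₂ : Pr → MM → Prop} {Ψ₁ Ψ₂ : Pk} (h1 : Pac S₁ Ψ₁) (h2 : Pac S₂ Ψ₂)
    (z : Pr × Pr) (x : MM) : ‖Ψ₁ z.1 x * conj (Ψ₂ z.2 x)‖ₑ ≤ iE (S₁ z.1 x ∧ S₂ z.2 x) := by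
  refine enorm_le_iE ?_ fun h => ⟨h1.sp _ _ (left_ne_zero_of_mul h), h2.sp _ _ fun e => ?_⟩
  · rw [norm_mul, Complex.norm_conj]
    exact mul_le_one₀ (h1.bd _ _) (norm_nonneg _) (h2.bd _ _)
  · rw [e, map_zero, mul_zero] at h
    exact h rfl

lemma norm_int_le_Mid {S₁ S₂ : Pr → MM → Prop} {Ψ₁ Ψ₂ : Pk} (h1 : Pac S₁ Ψ₁) (h2 : Pac S₂ Ψ₂)
    {z : Pr × Pr} (hm : MeasurableSet {x | S₁ z.1 x ∧ S₂ z.2 x}) (hv : vol S₁ S₂ z ≠ ⊤) :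
    ‖∫ x, Ψ₁ z.1 x * conj (Ψ₂ z.2 x)‖ ≤ (vol S₁ S₂ z).toReal := by
  rw [← toReal_enorm]
  refine ENNReal.toReal_mono hv ((enorm_integral_le_lintegral_enorm _).trans ?_)
  exact (lintegral_mono (enorm_le_Mid h1 h2 z)).trans_eq (lintegral_iE _ hm)

lemma integrable_Mid {n : ℕ} {S₁ S₂ : Pr → MM → Prop} {Ψ₁ Ψ₂ : (Fin n → ℝ) → Pk}
    {c : (Fin n → ℝ) → ℂ} (hc : Measurable c) (hi : Integrable c)
    (h : ∀ ζ, Pac S₁ (Ψ₁ ζ) ∧ Pac S₂ (Ψ₂ ζ)) {z : Pr × Pr}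
    (m1 : Measurable fun p : (Fin n → ℝ) × MM => Ψ₁ p.1 z.1 p.2)
    (m2 : Measurable fun p : (Fin n → ℝ) × MM => Ψ₂ p.1 z.2 p.2)
    (hm : MeasurableSet {x | S₁ z.1 x ∧ S₂ z.2 x}) (hv : vol S₁ S₂ z ≠ ⊤) :
    Integrable (fun p : (Fin n → ℝ) × MM => c p.1 * (Ψ₁ p.1 z.1 p.2 * conj (Ψ₂ p.1 z.2 p.2)))
      (volume.prod volume) := by
  refine ⟨((hc.comp measurable_fst).mul
    (m1.mul (Complex.continuous_conj.measurable.comp m2))).aestronglyMeasurable, ?_⟩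
  calc ∫⁻ p : (Fin n → ℝ) × MM, ‖c p.1 * (Ψ₁ p.1 z.1 p.2 * conj (Ψ₂ p.1 z.2 p.2))‖ₑ
        ∂(volume.prod volume)
      ≤ ∫⁻ p : (Fin n → ℝ) × MM, ‖c p.1‖ₑ * iE (S₁ z.1 p.2 ∧ S₂ z.2 p.2)
        ∂(volume.prod volume) := by
        refine lintegral_mono fun p => ?_
        rw [enorm_mul]
        exact mul_le_mul_right (enorm_le_Mid (h p.1).1 (h p.1).2 z p.2) _
    _ = (∫⁻ ζ, ‖c ζ‖ₑ) * vol S₁ S₂ z := by
        rw [lintegral_prod_mul (f := fun ζ => ‖c ζ‖ₑ) (g := fun x => iE (S₁ z.1 x ∧ S₂ z.2 x))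
          hc.enorm.aemeasurable (measurable_iE hm).aemeasurable, lintegral_iE _ hm, vol]
    _ < ⊤ := ENNReal.mul_lt_top hi.2 hv.lt_top

theorem mid_stmt (hO : OsStmt) (hT : ThStmt) : MidStmt := by
  intro μ hμ ι J n q pt₁ pt₂ S₁ S₂ Ψ₁ Ψ₂ c A₀ κ G hq s1 s2 hA hκ hc hi hP hM hr hG
  obtain ⟨hfin, hOS⟩ := hO μ hμ pt₁ pt₂ S₁ S₂ s1 s2
  have hm : ∀ z : Pr × Pr, MeasurableSet {x | S₁ z.1 x ∧ S₂ z.2 x} := fun z =>
    (s1.meas z.1).inter (s2.meas z.2)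
  have hv : ∀ z : Orb, vol S₁ S₂ z.1 ≠ ⊤ := fun z => ENNReal.ne_top_of_tsum_ne_top hfin z
  have hs : Summable fun z : Orb => (vol S₁ S₂ z.1).toReal := ENNReal.summable_toReal hfin
  have hF := fun j (hj : j ∈ J) (z : Orb) =>
    integrable_Mid hc hi (hP j hj) (hM j hj z.1.1).1 (hM j hj z.1.2).2 (hm z.1) (hv z)
  set I : ι → Orb → (Fin n → ℝ) → ℂ := fun j z ζ =>
    ∫ x, Ψ₁ j ζ z.1.1 x * conj (Ψ₂ j ζ z.1.2 x) with hI
  have hIi : ∀ j ∈ J, ∀ z : Orb, Integrable fun ζ => c ζ * I j z ζ := fun j hj z => by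
    simpa only [integral_const_mul] using (hF j hj z).integral_prod_left
  have hIb : ∀ j ∈ J, ∀ (z : Orb) (a : ℂ), ‖a‖ ≤ 1 →
      ∫ ζ, ‖a * (c ζ * I j z ζ)‖ ≤ (∫ ζ, ‖c ζ‖) * (vol S₁ S₂ z.1).toReal := by
    intro j hj z a ha
    rw [← integral_mul_const]
    refine integral_mono ((hIi j hj z).const_mul a).norm (hi.norm.mul_const _) fun ζ => ?_
    have := norm_int_le_Mid (hP j hj ζ).1 (hP j hj ζ).2 (hm z.1) (hv z)
    calc ‖a * (c ζ * I j z ζ)‖ = ‖a‖ * (‖c ζ‖ * ‖I j z ζ‖) := by rw [norm_mul, norm_mul]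
      _ ≤ 1 * (‖c ζ‖ * (vol S₁ S₂ z.1).toReal) := by gcongr
      _ = _ := one_mul _
  have key : ∀ z : Orb, (c0 : ℂ) * G z.1 = ∑ j ∈ J, ∫ ζ, c ζ * I j z ζ := by
    intro z
    have e1 : ∫ x, G z.1 * (th0 A₀ z.1 x : ℂ) = (c0 : ℂ) * G z.1 := by
      by_cases h0 : G z.1 = 0
      · simp [h0]
      · rw [integral_const_mul, integral_complex_ofReal,
          (hT.2 A₀ z.1 hA (hr z.1 z.2 h0)).2, mul_comm]
    rw [← e1, integral_congr_ae (ae_of_all _ (hG z.1 z.2)),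
      integral_finsetSum _ fun j hj => (hF j hj z).integral_prod_right]
    refine sum_congr rfl fun j hj => ?_
    rw [← integral_integral_swap (f := fun ζ x =>
      c ζ * (Ψ₁ j ζ z.1.1 x * conj (Ψ₂ j ζ z.1.2 x))) (hF j hj z)]
    simp only [integral_const_mul, hI]
  have hsum : Summable fun z : Orb => ‖G z.1‖ := by
    refine Summable.of_nonneg_of_le (fun z => norm_nonneg _) (fun z => ?_)
      (hs.mul_left (c0⁻¹ * (J.card * ∫ ζ, ‖c ζ‖)))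
    rw [mul_assoc, le_inv_mul_iff₀ hT.1, mul_assoc, ← nsmul_eq_mul]
    have e : c0 * ‖G z.1‖ = ‖(c0 : ℂ) * G z.1‖ := by
      rw [norm_mul, Complex.norm_real, Real.norm_of_nonneg hT.1.le]
    rw [e, key z]
    refine (norm_sum_le _ _).trans (sum_le_card_nsmul _ _ _ fun j hj => ?_)
    refine (norm_integral_le_integral_norm _).trans ?_
    simpa only [one_mul] using hIb j hj z 1 norm_one.le
  refine ⟨hsum, ?_⟩
  have hH : ∀ j ∈ J, HasSum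
      (fun z : Orb => dl q (om2 (pt₁ z.1.1) (pt₂ z.1.2)) * ∫ ζ, c ζ * I j z ζ)
      (∫ ζ, c ζ * OS (dl q) pt₁ pt₂ (Ψ₁ j ζ) (Ψ₂ j ζ)) := by
    intro j hj
    have := hasSum_integral_of_summable_integral_norm
      (F := fun (z : Orb) ζ => dl q (om2 (pt₁ z.1.1) (pt₂ z.1.2)) * (c ζ * I j z ζ))
      (fun z => (hIi j hj z).const_mul _)
      (Summable.of_nonneg_of_le (fun z => integral_nonneg fun ζ => norm_nonneg _)
        (fun z => hIb j hj z _ (norm_dl_le hq _)) (hs.mul_left _))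
    simp only [integral_const_mul] at this
    simpa only [mul_left_comm (dl q _), tsum_mul_left, OS] using this
  have e : (c0 : ℂ) * ∑' z : Orb, dl q (om2 (pt₁ z.1.1) (pt₂ z.1.2)) * G z.1 =
      ∑ j ∈ J, ∫ ζ, c ζ * OS (dl q) pt₁ pt₂ (Ψ₁ j ζ) (Ψ₂ j ζ) := by
    rw [← (hasSum_sum hH).tsum_eq, ← tsum_mul_left]
    refine tsum_congr fun z => ?_
    rw [mul_left_comm, key z, mul_sum]
  have e2 : ENNReal.ofReal c0 = ‖(c0 : ℂ)‖ₑ := by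
    rw [← ofReal_norm, Complex.norm_real, Real.norm_of_nonneg hT.1.le]
  rw [e2, ← enorm_mul, e]
  refine (enorm_sum_le _ _).trans (sum_le_sum fun j hj => ?_)
  refine (enorm_integral_le_lintegral_enorm _).trans (lintegral_mono fun ζ => ?_)
  rw [enorm_mul]
  exact mul_le_mul_right ((hOS q _ _ hq (hP j hj ζ).1 (hP j hj ζ).2).1 κ hκ) _

end Pool.Agent.MP_c853c5_nt.W
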