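import Pool.Agent.MP_c853c5_nt.W.Api

set_option autoImplicit false

open Finset MeasureTheory
open scoped ENNReal ComplexConjugate

namespace Pool.Agent.MP_c853c5_nt.W

open Pool.Agent.MP_2a1f0e_nt Pool.Agent.MP_2a1f0e_nt.GM Pool.Agent.MP_2a1f0e_nt.DH

lemma cs_MinkI {S : Type} [MeasurableSpace S] (ν : Measure S) {A U : S → ℝ≥0∞}
    (hA : Measurable A) (hU : Measurable U) :
    (∫⁻ s, A s * U s ∂ν) ^ 2 ≤ (∫⁻ s, A s ∂ν) * ∫⁻ s, A s * U s ^ 2 ∂ν := by
  have k : ∀ x : ℝ≥0∞, (x ^ (1 / 2 : ℝ)) ^ 2 = x := fun x => by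
    rw [← ENNReal.rpow_natCast, ← ENNReal.rpow_mul]
    norm_num
  have k' : ∀ x : ℝ≥0∞, (x ^ 2) ^ (1 / 2 : ℝ) = x := fun x => by
    rw [← ENNReal.rpow_natCast, ← ENNReal.rpow_mul]
    norm_num
  have h := ENNReal.lintegral_mul_norm_pow_le (μ := ν) hA.aemeasurable
    (hA.fun_mul (hU.pow_const 2)).aemeasurable (p := 1 / 2) (q := 1 / 2) (by norm_num) (by norm_num)
    (by norm_num)
  have e : ∀ s, A s ^ (1 / 2 : ℝ) * (A s * U s ^ 2) ^ (1 / 2 : ℝ) = A s * U s := fun s => by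
    rw [ENNReal.mul_rpow_of_nonneg _ _ (by norm_num), ← mul_assoc, ← sq, k, k']
  simp only [e] at h
  refine (pow_le_pow_left' h 2).trans_eq ?_
  rw [mul_pow, k, k]

lemma nv_MinkI (q : ℕ) (g : V → ℂ) : ENNReal.ofReal (NV q g) =
    ∑ w ∈ PQ q, ENNReal.ofReal (q.totient : ℝ)⁻¹ * ‖g w - av q g‖ₑ ^ 2 := by
  rw [NV, NC, div_eq_inv_mul, ENNReal.ofReal_mul (by positivity),
    ENNReal.ofReal_sum_of_nonneg fun _ _ => by positivity, mul_sum]
  refine sum_congr rfl fun w _ => ?_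
  rw [ENNReal.ofReal_pow (norm_nonneg _), ofReal_norm]

lemma pt_MinkI {S : Type} [MeasurableSpace S] (ν : Measure S) (q : ℕ) (f : V → ℂ)
    (fs : S → V → ℂ) (c : S → ℂ) {A : S → ℝ≥0∞} (hm : ∀ w, Measurable fun s => fs s w)
    (hA : Measurable A) (hc : ∀ s, ‖c s‖ₑ ≤ A s)
    (h : ∀ w ∈ PQ q, Integrable (fun s => c s * fs s w) ν ∧ f w = ∫ s, c s * fs s w ∂ν) :
    ENNReal.ofReal (NV q f) ≤ (∫⁻ s, A s ∂ν) * ∫⁻ s, A s * ENNReal.ofReal (NV q (fs s)) ∂ν := by
  have e : (fun s => c s * av q (fs s)) =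
      fun s => (∑ w ∈ PQ q, c s * fs s w) / ((PQ q).card : ℂ) := funext fun s => (av_mul _ _ _).symm
  have h1 : Integrable (fun s => c s * av q (fs s)) ν := by
    rw [e]
    exact (integrable_finsetSum _ fun w hw => (h w hw).1).div_const _
  have h2 : av q f = ∫ s, c s * av q (fs s) ∂ν := by
    rw [e, integral_div, integral_finsetSum _ fun w hw => (h w hw).1, av,
      sum_congr rfl fun w hw => (h w hw).2]
  have hU : ∀ w, Measurable fun s => ‖fs s w - av q (fs s)‖ₑ := fun w =>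
    ((hm w).sub (measurable_av q hm)).enorm
  simp only [nv_MinkI, mul_sum]
  rw [lintegral_finsetSum _ fun w _ => hA.fun_mul (((hU w).pow_const 2).const_mul _), mul_sum]
  refine sum_le_sum fun w hw => ?_
  simp only [mul_left_comm (A _)]
  rw [lintegral_const_mul _ (hA.fun_mul ((hU w).pow_const 2)), mul_left_comm]
  refine mul_le_mul_right (le_trans (pow_le_pow_left' ?_ 2) (cs_MinkI ν hA (hU w))) _
  rw [(h w hw).2, h2, ← integral_sub (h w hw).1 h1]
  refine (enorm_integral_le_lintegral_enorm _).trans (lintegral_mono fun s => ?_)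
  rw [← mul_sub, enorm_mul]
  exact mul_le_mul_left (hc s) _

theorem minkI_stmt : MinkIStmt := by
  intro S _ _ μ hμ q f fs c a B hm ha hi hB hc h
  have hA : Measurable fun s => ENNReal.ofReal (a s) := ha.ennreal_ofReal
  have h1 : ∫⁻ s, ENNReal.ofReal (a s) ≤ ENNReal.ofReal B := by
    rw [← ofReal_integral_eq_lintegral_ofReal hi
      (ae_of_all _ fun s => (norm_nonneg _).trans (hc s))]
    exact ENNReal.ofReal_le_ofReal hB
  have h2 : Measurable fun p : S × MM => ENNReal.ofReal (NV q (fs p.1 p.2)) :=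
    (measurable_NV q hm).ennreal_ofReal
  have h3 : ∫⁻ s, ENNReal.ofReal (a s) * LF μ q (fs s) =
      ∫⁻ x, (∫⁻ s, ENNReal.ofReal (a s) * ENNReal.ofReal (NV q (fs s x))) ∂μ := by
    rw [← lintegral_lintegral_swap ((hA.comp measurable_fst).mul h2).aemeasurable]
    exact lintegral_congr fun s => (lintegral_const_mul' _ _ ENNReal.ofReal_ne_top).symm
  rw [h3, ← lintegral_const_mul' _ _ ENNReal.ofReal_ne_top]
  refine lintegral_mono fun x => ?_
  refine (pt_MinkI volume q (f x) (fun s => fs s x) c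
    (fun w => (hm w).comp measurable_prodMk_right) hA (fun s => ?_) (h x)).trans
    (mul_le_mul_left h1 _)
  rw [← ofReal_norm]
  exact ENNReal.ofReal_le_ofReal (hc s)

end Pool.Agent.MP_c853c5_nt.W
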