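import Pool.Agent.MP_c853c5_nt.W.Api

/-!
The weighted inequality of Cauchy for series.
-/

set_option autoImplicit false

open Finset MeasureTheory
open scoped ENNReal ComplexConjugate

namespace Pool.Agent.MP_c853c5_nt.W

open Pool.Agent.MP_2a1f0e_nt Pool.Agent.MP_2a1f0e_nt.GM Pool.Agent.MP_2a1f0e_nt.DH

lemma tend_MinkS {ι : Type} (q : ℕ) {f : V → ℂ} {fs : ι → V → ℂ}
    (h : ∀ w ∈ PQ q, HasSum (fun s => fs s w) (f w)) :
    Filter.Tendsto (fun t : Finset ι => NV q fun w => ∑ s ∈ t, fs s w) Filter.atTop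
      (nhds (NV q f)) := by
  have h1 : Filter.Tendsto (fun t : Finset ι => av q fun w => ∑ s ∈ t, fs s w) Filter.atTop
      (nhds (av q f)) := (tendsto_finsetSum _ fun w hw => h w hw).div_const _
  exact (tendsto_finsetSum _ fun w hw =>
    ((Filter.Tendsto.sub (h w hw) h1).norm.pow 2)).div_const _

lemma point_MinkS {ι : Type} (q : ℕ) {f : V → ℂ} {fs : ι → V → ℂ} {b : ι → ℝ} {B : ℝ}
    (hb : ∀ s, 0 < b s) (hs : Summable b) (hB : ∑' s, b s ≤ B)
    (h : ∀ w ∈ PQ q, HasSum (fun s => fs s w) (f w)) :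
    ENNReal.ofReal (NV q f) ≤
      ENNReal.ofReal B * ∑' s, ENNReal.ofReal (1 / b s) * ENNReal.ofReal (NV q (fs s)) := by
  refine le_of_tendsto' (ENNReal.tendsto_ofReal (tend_MinkS q h)) fun t => ?_
  refine (ENNReal.ofReal_le_ofReal (NV_sum_le q t fs fun j _ => hb j)).trans ?_
  rw [ENNReal.ofReal_mul (sum_nonneg fun j _ => (hb j).le),
    ENNReal.ofReal_sum_of_nonneg (f := fun j => NV q (fs j) / b j)
      fun j _ => div_nonneg (NV_nonneg _ _) (hb j).le]
  refine mul_le_mul' (ENNReal.ofReal_le_ofReal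
    ((hs.sum_le_tsum t fun j _ => (hb j).le).trans hB))
    (le_trans (le_of_eq (sum_congr rfl fun j _ => ?_)) (ENNReal.sum_le_tsum t))
  rw [← ENNReal.ofReal_mul (one_div_pos.2 (hb j)).le, one_div_mul_eq_div]

theorem minkS_stmt : MinkSStmt := by
  intro ι _ μ q f fs b B hf hb hs hB h
  simp only [LF, ← lintegral_const_mul' _ _ ENNReal.ofReal_ne_top]
  rw [← lintegral_tsum fun s =>
      ((measurable_NV q (hf s)).ennreal_ofReal.const_mul _).aemeasurable,
    ← lintegral_const_mul' _ _ ENNReal.ofReal_ne_top]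
  exact lintegral_mono fun x => point_MinkS q hb hs hB (h x)

end Pool.Agent.MP_c853c5_nt.W
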