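import Pool.Agent.MP_c853c5_nt.W.Api

/-!
Orbital sums as integrals of the pairing of two fields.
-/

set_option autoImplicit false

open Finset MeasureTheory
open scoped ENNReal ComplexConjugate

namespace Pool.Agent.MP_c853c5_nt.W

open Pool.Agent.MP_2a1f0e_nt Pool.Agent.MP_2a1f0e_nt.GM Pool.Agent.MP_2a1f0e_nt.DH

lemma meas_Os {μ : Measure MM} {pt : Pr → V} {S : Pr → MM → Prop} (h : Shp μ pt S) :
    Measurable fun x => (∑' P : Pr, iE (S P x)) ^ 2 :=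
  (Measurable.tsum fun P => measurable_iE (h.meas P)).pow_const 2

lemma vol_Os (hU : UnfStmt) {μ : Measure MM} (hμ : UM μ) {pt₁ pt₂ : Pr → V}
    {S₁ S₂ : Pr → MM → Prop} (h₁ : Shp μ pt₁ S₁) (h₂ : Shp μ pt₂ S₂) :
    ∑' z : Orb, vol S₁ S₂ z.1 ≠ ⊤ := by
  have hm : ∀ z : Pr × Pr, MeasurableSet {x | S₁ z.1 x ∧ S₂ z.2 x} := fun z =>
    (h₁.meas z.1).inter (h₂.meas z.2)
  have e := hU μ hμ (fun z x => iE (S₁ z.1 x ∧ S₂ z.2 x)) (fun z => measurable_iE (hm z))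
    (fun z G x hG => iE_congr (and_congr (h₁.inv _ G x hG) (h₂.inv _ G x hG))) fun z x hz => by
      obtain ⟨a, b, c, -⟩ := h₁.sup _ x (iE_ne_zero hz).1
      exact ⟨a, b, c⟩
  have e2 : ∑' z : Orb, vol S₁ S₂ z.1 = ∑' z : Orb, ∫⁻ x, iE (S₁ z.1.1 x ∧ S₂ z.1.2 x) :=
    tsum_congr fun z => (lintegral_iE _ (hm z.1)).symm
  rw [e2, ← e]
  refine ne_top_of_le_ne_top (ENNReal.add_ne_top.2 ⟨h₁.fin, h₂.fin⟩) ?_
  rw [LL, LL, ← lintegral_add_left (meas_Os h₁)]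
  refine lintegral_mono fun x => ?_
  have e3 : ∑' z : Pr × Pr, iE (S₁ z.1 x ∧ S₂ z.2 x) =
      (∑' P : Pr, iE (S₁ P x)) * ∑' P : Pr, iE (S₂ P x) := by
    rw [ENNReal.tsum_prod', ← ENNReal.tsum_mul_right]
    exact tsum_congr fun P => by simp only [iE_and, ENNReal.tsum_mul_left]
  simp only [e3, sq]
  rcases le_total (∑' P : Pr, iE (S₁ P x)) (∑' P : Pr, iE (S₂ P x)) with h | h
  · exact (mul_le_mul_left h _).trans le_add_self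
  · exact (mul_le_mul_right h _).trans le_self_add

lemma sum_Os {μ : Measure MM} {pt : Pr → V} {S : Pr → MM → Prop} (h : Shp μ pt S) {Ψ : Pk}
    (hΨ : Pac S Ψ) : ∀ᵐ x ∂μ, Summable fun P => ‖Ψ P x‖ := by
  filter_upwards [ae_lt_top (meas_Os h) h.fin] with x hx
  refine tsum_enorm_ne_top_iff_summable_norm.1 (ne_top_of_le_ne_top
    (fun e => ?_) (ENNReal.tsum_le_tsum fun P => enorm_le_iE (hΨ.bd P x) (hΨ.sp P x)))
  rw [e] at hx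
  simp at hx

lemma int_Os (hU : UnfStmt) (hC : UnfCStmt) (hG : GrsStmt) {μ : Measure MM} (hμ : UM μ)
    {pt₁ pt₂ : Pr → V} {S₁ S₂ : Pr → MM → Prop} (h₁ : Shp μ pt₁ S₁) (h₂ : Shp μ pt₂ S₂) {q : ℕ}
    {Ψ₁ Ψ₂ : Pk} (hq : 1 ≤ q) (p₁ : Pac S₁ Ψ₁) (p₂ : Pac S₂ Ψ₂) :
    Integrable (fun x => BV q (vf q pt₁ Ψ₁ x) (vf q pt₂ Ψ₂ x)) μ ∧
      OS (dl q) pt₁ pt₂ Ψ₁ Ψ₂ = ∫ x, BV q (vf q pt₁ Ψ₁ x) (vf q pt₂ Ψ₂ x) ∂μ := by
  have hs : ∀ (z : Pr × Pr) x, dl q (om2 (pt₁ z.1) (pt₂ z.2)) * (Ψ₁ z.1 x * conj (Ψ₂ z.2 x)) ≠ 0 →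
      S₁ z.1 x ∧ S₂ z.2 x := fun z x hz =>
    ⟨p₁.sp _ x (left_ne_zero_of_mul (right_ne_zero_of_mul hz)), p₂.sp _ x fun e =>
      right_ne_zero_of_mul (right_ne_zero_of_mul hz) (by rw [e, map_zero])⟩
  obtain ⟨i1, i2⟩ := hC μ hμ
    (fun z x => dl q (om2 (pt₁ z.1) (pt₂ z.2)) * (Ψ₁ z.1 x * conj (Ψ₂ z.2 x)))
    (fun z => ((p₁.meas z.1).mul
      (Complex.continuous_conj.measurable.comp (p₂.meas z.2))).const_mul _)
    (fun z G x hG => by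
      simp only [h₁.eqv, h₂.eqv, om2_vg, hG, mul_one, p₁.inv _ G x hG, p₂.inv _ G x hG])
    (fun z x hz => by
      obtain ⟨a, b, c, -⟩ := h₁.sup _ x (hs z x hz).1
      exact ⟨a, b, c⟩)
    (ne_top_of_le_ne_top (vol_Os hU hμ h₁ h₂) (ENNReal.tsum_le_tsum fun z => by
      refine (lintegral_mono fun x => enorm_le_iE ?_ (hs z.1 x)).trans
        (lintegral_iE _ ((h₁.meas z.1.1).inter (h₂.meas z.1.2))).le
      rw [norm_mul, norm_mul, Complex.norm_conj]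
      exact mul_le_one₀ (norm_dl_le hq _) (by positivity)
        (mul_le_one₀ (p₁.bd _ x) (norm_nonneg _) (p₂.bd _ x))))
  have e : (fun x => ∑' z : Pr × Pr,
      dl q (om2 (pt₁ z.1) (pt₂ z.2)) * (Ψ₁ z.1 x * conj (Ψ₂ z.2 x))) =ᵐ[μ]
      fun x => BV q (vf q pt₁ Ψ₁ x) (vf q pt₂ Ψ₂ x) := by
    filter_upwards [sum_Os h₁ p₁, sum_Os h₂ p₂] with x a b
    exact (hG q hq pt₁ pt₂ (fun P => Ψ₁ P x) (fun P => Ψ₂ P x) a b
      (fun P hP => (h₁.sup P x (p₁.sp P x hP)).2.2.2)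
      fun P hP => (h₂.sup P x (p₂.sp P x hP)).2.2.2).symm
  refine ⟨i1.congr e, ?_⟩
  rw [← integral_congr_ae e, i2, OS]
  exact tsum_congr fun z => (integral_const_mul _ _).symm

theorem os_stmt (hU : UnfStmt) (hC : UnfCStmt) (hG : GrsStmt) : OsStmt := by
  intro μ hμ pt₁ pt₂ S₁ S₂ h₁ h₂
  refine ⟨vol_Os hU hμ h₁ h₂, fun q Ψ₁ Ψ₂ hq p₁ p₂ => ?_⟩
  obtain ⟨i1, i2⟩ := int_Os hU hC hG hμ h₁ h₂ hq p₁ p₂
  rw [i2]
  refine ⟨fun κ hκ => (enorm_integral_le_lintegral_enorm _).trans ?_, ?_⟩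
  · have m1 := (measurable_NV q (MF_vf q pt₁ p₁.meas)).ennreal_ofReal
    have m2 := (measurable_NV q (MF_vf q pt₂ p₂.meas)).ennreal_ofReal
    rw [LN, LN, LF, LF, ← lintegral_const_mul _ m1, ← lintegral_const_mul _ m2,
      ← lintegral_add_left (m1.const_mul _)]
    refine lintegral_mono fun x => ?_
    have hκ' : 0 ≤ κ⁻¹ := (inv_pos.2 hκ).le
    rw [← ENNReal.ofReal_mul hκ.le, ← ENNReal.ofReal_mul hκ', ← ENNReal.ofReal_add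
      (mul_nonneg hκ.le (NV_nonneg _ _)) (mul_nonneg hκ' (NV_nonneg _ _)), ← ofReal_norm]
    exact ENNReal.ofReal_le_ofReal (norm_BV_le q _ _ hκ)
  · rintro rfl rfl
    simp only [BV_self] at i1 ⊢
    rw [integral_complex_ofReal, Complex.ofReal_re]
    refine ⟨integral_nonneg fun x => NV_nonneg _ _, ?_⟩
    rw [ofReal_integral_eq_lintegral_ofReal (by simpa using i1.re)
      (Filter.Eventually.of_forall fun x => NV_nonneg _ _), LN, LF]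

end Pool.Agent.MP_c853c5_nt.W
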