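import Pool.Agent.MP_c853c5_nt.W.Api

set_option autoImplicit false

open Finset MeasureTheory
open scoped ENNReal ComplexConjugate

namespace Pool.Agent.MP_c853c5_nt.W

open Pool.Agent.MP_2a1f0e_nt Pool.Agent.MP_2a1f0e_nt.GM Pool.Agent.MP_2a1f0e_nt.DH

lemma dt_le_Out {α : ℝ} {Z : MM} (hα : 0 < α) (h1 : Cn α Z.1) (h2 : Cn α Z.2) :
    |dt Z| ≤ 32 * α ^ 2 := by
  obtain ⟨a1, a2, a3⟩ := h1
  obtain ⟨b1, b2, b3⟩ := h2
  unfold dt
  have e1 : |Z.1.1 * Z.2.2| ≤ (4 * α) * (4 * α) := by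
    rw [abs_mul]
    exact mul_le_mul (by rw [abs_of_pos (by linarith)]; exact a2) (b3.trans b2) (abs_nonneg _)
      (by positivity)
  have e2 : |Z.1.2 * Z.2.1| ≤ (4 * α) * (4 * α) := by
    rw [abs_mul]
    exact mul_le_mul (a3.trans a2) (by rw [abs_of_pos (by linarith)]; exact b2) (abs_nonneg _)
      (by positivity)
  have := abs_sub (Z.1.1 * Z.2.2) (Z.1.2 * Z.2.1)
  nlinarith

lemma swap_Out (hU : UmStmt) (hS : ShpStmt) (hO : OsStmt) (hC : ChgStmt) (hN : NuStmt)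
    (d : Dat) (Q Cm : ℕ) (hα : 0 < d.al) (hd : Adm d.al d.g) (hQ : 1 ≤ Q) :
    ∑' z : Orb, swp Q Cm (nI z.1) * Jb d z.1 =
      ∫ Z : MM, iC (BigZ d Z) * (d.g Z.1 * conj (d.g Z.2)) *
        ∑' z : Orb, swp Q Cm (nI z.1) * Fz d Z z.1 := by
  obtain ⟨μ, hμ⟩ := hU
  have hv := (hO μ hμ _ _ _ _ ((hS μ hμ d.al hα).1 d.H2 d.H) ((hS μ hμ d.al hα).1 d.H2 d.H)).1
  have h1 := integral_tsum (μ := (volume : Measure MM))
    (f := fun (z : Orb) (Z : MM) => swp Q Cm (nI z.1) *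
      (iC (BigZ d Z) * (d.g Z.1 * conj (d.g Z.2)) * Fz d Z z.1))
    (fun z => (((hC d z.1 hα hd).1).const_mul _).aestronglyMeasurable) (by
      refine ne_top_of_le_ne_top (ENNReal.mul_ne_top (ENNReal.natCast_ne_top Cm) hv) ?_
      rw [← ENNReal.tsum_mul_left]
      refine ENNReal.tsum_le_tsum fun z => ?_
      simp_rw [enorm_mul (swp Q Cm (nI z.1))]
      rw [lintegral_const_mul' _ _ enorm_ne_top]
      refine mul_le_mul' ?_ (hC d z.1 hα hd).2.2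
      rw [← ofReal_norm, ← ENNReal.ofReal_natCast]
      exact ENNReal.ofReal_le_ofReal (hN Q Cm (nI z.1) hQ).2.2.2)
  simp_rw [integral_const_mul] at h1
  rw [tsum_congr fun z : Orb => by rw [(hC d z.1 hα hd).2.1], ← h1]
  refine integral_congr_ae (Filter.Eventually.of_forall fun Z => ?_)
  simp only
  rw [← tsum_mul_left]
  exact tsum_congr fun z => by ring

theorem out_stmt (hU : UmStmt) (hS : ShpStmt) (hO : OsStmt) (hC : ChgStmt) (hN : NuStmt)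
    (hZ : VolZStmt) (hL : LogVStmt) : OutStmt := by
  intro η _ _ ⟨m, hm⟩
  refine ⟨m, fun ε hε => ?_⟩
  obtain ⟨K, hK, hF⟩ := hm (ε / 2) (by positivity)
  obtain ⟨C, hC0, hL'⟩ := hL (ε / 2) (by positivity)
  refine ⟨K * (C + 4608), by positivity, fun d Λ Q Cm hok => ?_⟩
  have hΛ := hok.one_le
  obtain ⟨hα, hd, hαΛ, -, -, hQ, -⟩ := id hok
  have hxi := d.one_le_xi
  have hPP := d.PP_nonneg
  have hCC := d.CC_nonneg Q
  have hCη : 0 ≤ d.CC Q ^ η := Real.rpow_nonneg hCC _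
  have hΛε : 1 ≤ Λ ^ (ε / 2) := Real.one_le_rpow hΛ (by positivity)
  set a := K * Λ ^ (ε / 2) * d.xi ^ m * ((d.PP + d.H ^ 2) * (d.CC Q + |d.H2|)) with ha
  set b := K * Λ ^ (ε / 2) * d.xi ^ m * ((d.H2 ^ 2 + d.PP) * d.CC Q ^ η) with hb
  have ha0 : 0 ≤ a := by positivity
  have hb0 : 0 ≤ b := by positivity
  have hpt : ∀ Z : MM, ‖iC (BigZ d Z) * (d.g Z.1 * conj (d.g Z.2)) *
      ∑' z : Orb, swp Q Cm (nI z.1) * Fz d Z z.1‖ₑ ≤
      ENNReal.ofReal a * (iE (Cn d.al Z.1 ∧ Cn d.al Z.2 ∧ 1 ≤ |dt Z|) *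
        ENNReal.ofReal (1 / |dt Z|)) +
      ENNReal.ofReal b * iE (Cn d.al Z.1 ∧ Cn d.al Z.2 ∧ |dt Z| ≤ 32 * d.al ^ 2) := fun Z => by
    by_cases h0 : iC (BigZ d Z) * (d.g Z.1 * conj (d.g Z.2)) = 0
    · rw [h0, zero_mul, enorm_zero]
      exact zero_le
    have hB : BigZ d Z := iC_ne_zero (left_ne_zero_of_mul h0)
    have h1 : Cn d.al Z.1 := hd.2.2 _ (left_ne_zero_of_mul (right_ne_zero_of_mul h0))
    have h2 : Cn d.al Z.2 := hd.2.2 _ (by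
      simpa using right_ne_zero_of_mul (right_ne_zero_of_mul h0))
    have h3 : ‖iC (BigZ d Z) * (d.g Z.1 * conj (d.g Z.2))‖ₑ ≤ 1 := by
      rw [← ofReal_norm, ENNReal.ofReal_le_one, norm_mul, norm_mul, Complex.norm_conj]
      exact mul_le_one₀ (norm_iC_le _) (by positivity)
        (mul_le_one₀ (hd.2.1 _) (norm_nonneg _) (hd.2.1 _))
    rw [enorm_mul]
    refine (mul_le_mul' h3 (hF d Λ Q Cm Z hok h1 h2 hB)).trans ?_
    rw [one_mul]
    by_cases h4 : 1 ≤ |dt Z|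
    · rw [iE_pos h4, iE_pos ⟨h1, h2, h4⟩, iE_pos ⟨h1, h2, dt_le_Out hα h1 h2⟩, one_mul, one_mul,
        mul_one, ← ENNReal.ofReal_mul ha0, ← ENNReal.ofReal_add (by positivity) hb0]
      refine ENNReal.ofReal_le_ofReal (le_of_eq ?_)
      rw [ha, hb]
      ring
    · rw [iE_neg h4, zero_mul]
      exact zero_le
  have hms : MeasurableSet {Z : MM | Cn d.al Z.1 ∧ Cn d.al Z.2 ∧ |dt Z| ≤ 32 * d.al ^ 2} :=
    (measurable_fst (measurableSet_Cn d.al)).inter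
      ((measurable_snd (measurableSet_Cn d.al)).inter
        (measurableSet_le continuous_dt.abs.measurable measurable_const))
  rw [swap_Out hU hS hO hC hN d Q Cm hα hd hQ]
  refine (enorm_integral_le_lintegral_enorm _).trans ((lintegral_mono hpt).trans ?_)
  rw [lintegral_add_right _ ((measurable_iE hms).const_mul _),
    lintegral_const_mul' _ _ ENNReal.ofReal_ne_top,
    lintegral_const_mul' _ _ ENNReal.ofReal_ne_top, lintegral_iE _ hms]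
  refine (add_le_add (mul_le_mul' le_rfl (hL' Λ d.al hΛ hα hαΛ))
    (mul_le_mul' le_rfl (hZ d.al _ hα))).trans ?_
  rw [← ENNReal.ofReal_mul ha0, ← ENNReal.ofReal_mul hb0,
    ← ENNReal.ofReal_add (by positivity) (by positivity)]
  refine ENNReal.ofReal_le_ofReal ?_
  have e : Λ ^ ε = Λ ^ (ε / 2) * Λ ^ (ε / 2) := by
    rw [← Real.rpow_add (by linarith)]
    congr 1
    ring
  have e1 : a * (C * Λ ^ (ε / 2) * d.al ^ 2) =
      C * (K * Λ ^ ε * d.xi ^ m * (d.DD * (d.CC Q + |d.H2|))) := by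
    rw [ha, e, Dat.DD]
    ring
  have e2 : b * (144 * d.al ^ 2 * (32 * d.al ^ 2)) =
      4608 * (K * Λ ^ (ε / 2) * d.xi ^ m * (d.XX * d.CC Q ^ η)) := by
    rw [hb, Dat.XX]
    ring
  have hD := d.DD_nonneg
  have hX := d.XX_nonneg
  have e3 : K * Λ ^ (ε / 2) * d.xi ^ m * (d.XX * d.CC Q ^ η) ≤
      K * Λ ^ ε * d.xi ^ m * (d.XX * d.CC Q ^ η) := by
    gcongr
    linarith
  have e4 : 0 ≤ K * Λ ^ ε * d.xi ^ m * (d.XX * d.CC Q ^ η) := by positivity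
  have e5 : 0 ≤ K * Λ ^ ε * d.xi ^ m * (d.DD * (d.CC Q + |d.H2|)) := by positivity
  rw [e1, e2]
  have e6 : K * (C + 4608) * Λ ^ ε * d.xi ^ m * (d.DD * (d.CC Q + |d.H2|) + d.XX * d.CC Q ^ η) =
      (C + 4608) * (K * Λ ^ ε * d.xi ^ m * (d.DD * (d.CC Q + |d.H2|))) +
        (C + 4608) * (K * Λ ^ ε * d.xi ^ m * (d.XX * d.CC Q ^ η)) := by ring
  rw [e6]
  nlinarith [mul_nonneg hC0.le e4]

end Pool.Agent.MP_c853c5_nt.W
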