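import Pool.Agent.MP_c853c5_nt.W.Api

/-!
Smooth decomposition of the dual packet.
-/

set_option autoImplicit false

open Finset MeasureTheory
open scoped ENNReal ComplexConjugate

namespace Pool.Agent.MP_c853c5_nt.W

open Pool.Agent.MP_2a1f0e_nt Pool.Agent.MP_2a1f0e_nt.GM Pool.Agent.MP_2a1f0e_nt.DH

lemma fin_Part {c : ℝ} (hc : 0 < c) (t : ℝ) : ∃ S : Finset (Bool × ℕ),
    (∀ s, s ∉ S → om (t / Ts c s) = 0) ∧ ∑ s ∈ S, om (t / Ts c s) = 1 - psi (|t| / c) := by
  obtain ⟨I, hI⟩ := pow_unbounded_of_one_lt (|t| / c) (show (1 : ℝ) < 4 / 3 by norm_num)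
  rw [div_lt_iff₀ hc, mul_comm] at hI
  have h1 : ∀ (z : ℝ) (i : ℕ), z ≤ |t| → I ≤ i → z / (c * (4 / 3) ^ i) ≤ 1 := by
    intro z i hz hi
    rw [div_le_one (by positivity)]
    exact (hz.trans hI.le).trans
      (mul_le_mul_of_nonneg_left (pow_le_pow_right₀ (by norm_num) hi) hc.le)
  have e1 : ∀ i : ℕ, t / Ts c (true, i) = t / (c * (4 / 3) ^ i) := fun i => by simp [Ts]
  have e2 : ∀ i : ℕ, t / Ts c (false, i) = -t / (c * (4 / 3) ^ i) := fun i => by
    simp [Ts, div_neg, neg_div]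
  refine ⟨univ ×ˢ range I, ?_, ?_⟩
  · rintro ⟨b, i⟩ hs
    have hi : I ≤ i := by simpa using hs
    refine om_eq_zero (Or.inl ?_)
    cases b
    · rw [e2]
      exact h1 _ _ (neg_le_abs t) hi
    · rw [e1]
      exact h1 _ _ (le_abs_self t) hi
  · rw [sum_product, Fintype.sum_bool]
    simp only [e1, e2]
    rw [om_tel, om_tel, psi_eq_one (h1 _ _ (le_abs_self t) le_rfl),
      psi_eq_one (h1 _ _ (neg_le_abs t) le_rfl)]
    rcases le_total 0 t with h | h
    · rw [abs_of_nonneg h, psi_eq_one (x := -t / c)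
        ((div_nonpos_of_nonpos_of_nonneg (by linarith) hc.le).trans zero_le_one)]
      ring
    · rw [abs_of_nonpos h, psi_eq_one (x := t / c)
        ((div_nonpos_of_nonpos_of_nonneg h hc.le).trans zero_le_one)]
      ring

lemma int_Part {h : ℤ} (hh : h ≠ 0) : HasSum (fun s : Bool × ℕ => om (h / Ts (4 / 5) s)) 1 := by
  obtain ⟨S, h1, h2⟩ := fin_Part (show (0 : ℝ) < 4 / 5 by norm_num) h
  have : (1 : ℝ) ≤ |(h : ℝ)| := by exact_mod_cast Int.one_le_abs hh
  rw [psi_eq_zero (by rw [le_div_iff₀ (by norm_num)]; linarith), sub_zero] at h2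
  rw [← h2]
  exact hasSum_sum_of_ne_finset_zero h1

/-- the second factor of the weights -/
noncomputable def wo_Part (c t : ℝ) (o : Option (Bool × ℕ)) : ℝ :=
  o.elim (psi (|t| / c)) fun s => om (t / Ts c s)

lemma wo_nonneg_Part (c t : ℝ) (o : Option (Bool × ℕ)) : 0 ≤ wo_Part c t o := by
  cases o
  · exact psi_nonneg _
  · exact om_nonneg _

lemma opt_Part {c : ℝ} (hc : 0 < c) (t : ℝ) : HasSum (wo_Part c t) 1 := by
  obtain ⟨S, h1, h2⟩ := fin_Part hc t
  have e : ∑ o ∈ insertNone S, wo_Part c t o = 1 := by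
    rw [sum_insertNone]
    change psi (|t| / c) + ∑ s ∈ S, om (t / Ts c s) = 1
    rw [h2]
    ring
  rw [← e]
  refine hasSum_sum_of_ne_finset_zero fun o ho => ?_
  cases o with
  | none => exact absurd none_mem_insertNone ho
  | some s => exact h1 s fun hs => ho (some_mem_insertNone.2 hs)

lemma swap_Part {ι κ : Type} (f : κ → ℂ) (w : ι → κ → ℝ) (hf : Summable fun P => ‖f P‖)
    (hw0 : ∀ s P, 0 ≤ w s P) (hw : ∀ P, f P ≠ 0 → HasSum (fun s => w s P) 1) :
    HasSum (fun s => ∑' P, f P * (w s P : ℂ)) (∑' P, f P) := by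
  have a1 : ∀ P, HasSum (fun s => f P * (w s P : ℂ)) (f P) := by
    intro P
    by_cases h : f P = 0
    · simp [h]
    · have := (Complex.hasSum_ofReal.2 (hw P h)).mul_left (f P)
      rwa [Complex.ofReal_one, mul_one] at this
  have a2 : ∀ P, HasSum (fun s => ‖f P * (w s P : ℂ)‖) ‖f P‖ := by
    intro P
    by_cases h : f P = 0
    · simp [h]
    · have := (hw P h).mul_left ‖f P‖
      simpa only [mul_one, norm_mul, Complex.norm_real, Real.norm_of_nonneg (hw0 _ _)] using this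
  have a3 : Summable fun p : κ × ι => f p.1 * (w p.2 p.1 : ℂ) := by
    refine Summable.of_norm ((summable_prod_of_nonneg fun _ => norm_nonneg _).2 ⟨fun P => ?_, ?_⟩)
    · exact (a2 P).summable
    · exact hf.congr fun P => (a2 P).tsum_eq.symm
  have a4 := a3.hasSum.prod_fiberwise a1
  rw [a4.tsum_eq]
  have a5 : HasSum (fun p : ι × κ => f p.2 * (w p.1 p.2 : ℂ))
      (∑' p : κ × ι, f p.1 * (w p.2 p.1 : ℂ)) :=
    (Equiv.prodComm κ ι).hasSum_iff.1 a3.hasSum
  exact a5.prod_fiberwise fun s => (a5.summable.prod_factor s).hasSum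

theorem part_stmt : PartStmt := by
  intro d q T₀ x w hT hs
  have key := swap_Part (ι := Ix) (fun P => pd d q P x * ind q (om2 w P.1))
    (fun s P => om ((hh P : ℝ) / Ts (4 / 5) s.1) * wo_Part T₀ (tt P x) s.2)
    (hs.of_nonneg_of_le (fun _ => norm_nonneg _) fun P => by
      rw [norm_mul]
      exact mul_le_of_le_one_right (norm_nonneg _) (norm_iC_le _))
    (fun s P => mul_nonneg (om_nonneg _) (wo_nonneg_Part _ _ _))
    (fun P hP => by
      have h0 : hh P ≠ 0 := fun h => hP (by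
        simp only [pd]
        rw [iC_neg fun h' => h'.2 h]
        simp)
      have := (int_Part h0).mul (opt_Part hT (tt P x)) ((int_Part h0).summable.mul_of_nonneg
        (opt_Part hT (tt P x)).summable (fun _ => om_nonneg _) (wo_nonneg_Part _ _))
      rwa [mul_one] at this)
  have e : (fun s : Ix => vf q Prod.fst (pcs d q T₀ s) x w) = fun s : Ix => ∑' P : Pr,
      pd d q P x * ind q (om2 w P.1) *
        ((om ((hh P : ℝ) / Ts (4 / 5) s.1) * wo_Part T₀ (tt P x) s.2 : ℝ) : ℂ) := by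
    funext s
    obtain ⟨s, o⟩ := s
    refine tsum_congr fun P => ?_
    cases o
    · exact mul_right_comm _ _ _
    · exact mul_right_comm _ _ _
  rw [e]
  exact key

end Pool.Agent.MP_c853c5_nt.W
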