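import Pool.Agent.MP_c853c5_nt.W.Api

set_option autoImplicit false

open Finset MeasureTheory
open scoped ENNReal ComplexConjugate

namespace Pool.Agent.MP_c853c5_nt.W

open Pool.Agent.MP_2a1f0e_nt Pool.Agent.MP_2a1f0e_nt.GM Pool.Agent.MP_2a1f0e_nt.DH

/-- reduction of both coordinates -/
def red_Pb (q : ℕ) (w : V) : V := (w.1 % q, w.2 % q)

lemma red_mem_Pb {g q : ℕ} (hq : 1 ≤ q) {w : V} (hw : w ∈ PQ (g * q)) : red_Pb q w ∈ PQ q := by
  have hq0 : (0 : ℤ) < q := by exact_mod_cast hq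
  refine mem_PQ.2 ⟨⟨Int.emod_nonneg _ hq0.ne', Int.emod_lt_of_pos _ hq0⟩,
    ⟨Int.emod_nonneg _ hq0.ne', Int.emod_lt_of_pos _ hq0⟩, ?_⟩
  refine Nat.coprime_of_dvd fun p hp h1 h2 => ?_
  have h3 : (p : ℤ) ∣ q := Int.natCast_dvd_natCast.2 h2
  have h4 : (p : ℤ) ∣ ct (red_Pb q w) := Int.natCast_dvd_natCast.2 h1
  have hk : ∀ a : ℤ, (p : ℤ) ∣ a % q → (p : ℤ) ∣ a := fun a ha => by
    rw [← Int.emod_add_mul_ediv a q]
    exact ha.add (h3.mul_right _)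
  have h5 : (p : ℤ) ∣ w.1 := hk _ (h4.trans (ct_dvd_one _))
  have h6 : (p : ℤ) ∣ w.2 := hk _ (h4.trans (ct_dvd_two _))
  have h7 : p ∣ ct w := Int.dvd_gcd h5 h6
  have h8 := Nat.dvd_gcd h7 (h2.mul_left g)
  rw [(mem_PQ.1 hw).2.2] at h8
  exact hp.one_lt.ne' (Nat.dvd_one.1 h8)

lemma card_fib_Pb {g q : ℕ} (hq : 1 ≤ q) (v : V) :
    ((PQ (g * q)).filter fun w => red_Pb q w = v).card ≤ g ^ 2 := by
  have hq0 : (0 : ℤ) < q := by exact_mod_cast hq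
  have hd : ∀ a : ℤ, 0 ≤ a → a < (g * q : ℕ) → a / q ∈ Ico (0 : ℤ) g := fun a h0 h1 =>
    mem_Ico.2 ⟨Int.ediv_nonneg h0 hq0.le, Int.ediv_lt_of_lt_mul hq0 (by exact_mod_cast h1)⟩
  refine (card_le_card_of_injOn (t := Ico (0 : ℤ) g ×ˢ Ico (0 : ℤ) g)
    (fun w => (w.1 / q, w.2 / q)) (fun w hw => ?_) fun w hw w' hw' e => ?_).trans ?_
  · obtain ⟨h1, h2, -⟩ := mem_PQ.1 (mem_filter.1 (mem_coe.1 hw)).1
    exact mem_coe.2 (mem_product.2 ⟨hd _ h1.1 h1.2, hd _ h2.1 h2.2⟩)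
  · have e2 : red_Pb q w = red_Pb q w' :=
      (mem_filter.1 (mem_coe.1 hw)).2.trans (mem_filter.1 (mem_coe.1 hw')).2.symm
    have a1 : w.1 % q = w'.1 % q := congrArg Prod.fst e2
    have a2 : w.2 % q = w'.2 % q := congrArg Prod.snd e2
    have b1 : w.1 / q = w'.1 / q := congrArg Prod.fst e
    have b2 : w.2 / q = w'.2 / q := congrArg Prod.snd e
    refine Prod.ext ?_ ?_
    · rw [← Int.emod_add_mul_ediv w.1 q, a1, b1, Int.emod_add_mul_ediv]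
    · rw [← Int.emod_add_mul_ediv w.2 q, a2, b2, Int.emod_add_mul_ediv]
  · simp [sq]

lemma le_tau_phi_Pb {g : ℕ} (hg : 1 ≤ g) : g ≤ g.divisors.card * g.totient := by
  calc g = ∑ e ∈ g.divisors, e.totient := (Nat.sum_totient g).symm
    _ ≤ g.divisors.card • g.totient := sum_le_card_nsmul _ _ _ fun e he =>
        Nat.le_of_dvd (Nat.totient_pos.2 hg) (Nat.totient_dvd_of_dvd (Nat.dvd_of_mem_divisors he))
    _ = _ := smul_eq_mul _ _

theorem pb_stmt : PbStmt := by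
  intro g q f c hg hq hf
  have h1 : ∑ w ∈ PQ (g * q), ‖f w - c‖ ^ 2 ≤ (g : ℝ) ^ 2 * ∑ w ∈ PQ q, ‖f w - c‖ ^ 2 := by
    rw [← sum_fiberwise_of_maps_to (fun w hw => red_mem_Pb hq hw), mul_sum]
    refine sum_le_sum fun v _ => ?_
    refine (sum_le_card_nsmul _ _ (‖f v - c‖ ^ 2) fun w hw => le_of_eq ?_).trans ?_
    · rw [← (mem_filter.1 hw).2, hf w (red_Pb q w) (Int.dvd_self_sub_emod) (Int.dvd_self_sub_emod)]
    · rw [nsmul_eq_mul]
      exact mul_le_mul_of_nonneg_right (by exact_mod_cast card_fib_Pb hq v) (sq_nonneg _)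
  have h2 : (g.totient : ℝ) * q.totient ≤ (g * q).totient := by
    exact_mod_cast Nat.totient_super_multiplicative g q
  have h3 : (g : ℝ) ≤ g.divisors.card * g.totient := by exact_mod_cast le_tau_phi_Pb hg
  have p1 : (0 : ℝ) < g.totient := by exact_mod_cast Nat.totient_pos.2 hg
  have p2 : (0 : ℝ) < q.totient := by exact_mod_cast Nat.totient_pos.2 hq
  have p3 : 0 ≤ ∑ w ∈ PQ q, ‖f w - c‖ ^ 2 := by positivity
  unfold NC
  calc (∑ w ∈ PQ (g * q), ‖f w - c‖ ^ 2) / ((g * q).totient : ℝ)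
      ≤ (g : ℝ) ^ 2 * (∑ w ∈ PQ q, ‖f w - c‖ ^ 2) / (g.totient * q.totient) := by gcongr
    _ = g * g * (∑ w ∈ PQ q, ‖f w - c‖ ^ 2) / (g.totient * q.totient) := by rw [sq]
    _ ≤ g * (g.divisors.card * g.totient) * (∑ w ∈ PQ q, ‖f w - c‖ ^ 2) /
        (g.totient * q.totient) := by gcongr
    _ = _ := by field_simp

end Pool.Agent.MP_c853c5_nt.W
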