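import Pool.Agent.MP_c853c5_nt.W.Api
set_option autoImplicit false
open Finset MeasureTheory
open scoped ENNReal ComplexConjugate
namespace Pool.Agent.MP_c853c5_nt.W
open Pool.Agent.MP_2a1f0e_nt Pool.Agent.MP_2a1f0e_nt.GM Pool.Agent.MP_2a1f0e_nt.DH

lemma lf_pull_Pdl (hP : PbStmt) (μ : Measure MM) {g q' : ℕ} (hg : 1 ≤ g) (hq : 1 ≤ q')
    (f : Fld) (hf : ∀ x, Per q' (f x)) :
    LF μ (g * q') f ≤ ENNReal.ofReal (g * (g.divisors.card : ℝ)) * LF μ q' f := by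
  rw [LF, LF, ← lintegral_const_mul' _ _ ENNReal.ofReal_ne_top]
  refine lintegral_mono fun x => ?_
  rw [← ENNReal.ofReal_mul (by positivity)]
  exact ENNReal.ofReal_le_ofReal ((NV_le_NC _ _ _).trans (hP g q' (f x) _ hg hq (hf x)))

lemma fiber_Pdl {Q m : ℕ} (hQ : 1 ≤ Q) (hm : 1 ≤ m) (F : ℕ → ℕ → ℝ≥0∞) :
    ∑ q ∈ Ico Q (2 * Q), F (Nat.gcd m q) (q / Nat.gcd m q) ≤
      ∑ g ∈ m.divisors, ∑ q' ∈ Ico (cq Q g) (2 * cq Q g), F g q' := by
  classical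
  have hi : Set.InjOn (fun q => (⟨Nat.gcd m q, q / Nat.gcd m q⟩ : Σ _ : ℕ, ℕ))
      (Ico Q (2 * Q) : Finset ℕ) := by
    intro a _ b _ h
    simp only [Sigma.mk.injEq, heq_eq_eq] at h
    rw [← Nat.mul_div_cancel' (Nat.gcd_dvd_right m a), h.2, h.1,
      Nat.mul_div_cancel' (Nat.gcd_dvd_right m b)]
  rw [sum_sigma', ← sum_image (f := fun p : Σ _ : ℕ, ℕ => F p.1 p.2) hi]
  refine sum_le_sum_of_subset fun p hp => ?_
  obtain ⟨q, hq, rfl⟩ := mem_image.1 hp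
  have hg : 1 ≤ Nat.gcd m q := Nat.gcd_pos_of_pos_left _ hm
  obtain ⟨-, -, h3, h4⟩ := cq_facts hQ hg
  have he := Nat.mul_div_cancel' (Nat.gcd_dvd_right m q)
  obtain ⟨h1, h2⟩ := mem_Ico.1 hq
  refine mem_sigma.2 ⟨Nat.mem_divisors.2 ⟨Nat.gcd_dvd_left _ _, by omega⟩, mem_Ico.2 ⟨?_, ?_⟩⟩
  · show cq Q (Nat.gcd m q) ≤ q / Nat.gcd m q
    refine Nat.le_of_lt_succ (Nat.lt_of_mul_lt_mul_left (a := Nat.gcd m q) ?_)
    rw [Nat.mul_succ]; omega
  · show q / Nat.gcd m q < 2 * cq Q (Nat.gcd m q)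
    refine Nat.lt_of_mul_lt_mul_left (a := Nat.gcd m q) ?_
    rw [Nat.mul_left_comm]; omega

theorem pdl_stmt (hP : PbStmt) (hG : GcdStmt) : PdlStmt := by
  intro μ Q M X Δ Z f fm U S hQ hΔ hQX hMX hZ hf hfm hU
  have hΔ0 : 0 ≤ Δ := zero_le_one.trans hΔ.1
  have hH := harm_le hΔ hMX
  have h1 : ∀ q ∈ Ico Q (2 * Q), LF μ q (f q) ≤ ENNReal.ofReal (2 * Δ ^ 2) *
      ∑ m ∈ Icc 1 M, ENNReal.ofReal (m * Δ) *
        (iE (S m (Nat.gcd m q)) * U m (q / Nat.gcd m q)) := by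
    intro q hq
    obtain ⟨hq1, hq2⟩ := mem_Ico.1 hq
    have hq0 : 1 ≤ q := hQ.trans hq1
    refine (LF_sum_le μ q (Icc 1 M) (b := fun m => (Nat.gcd m q : ℝ) / m) ?_
      (fun m hm => (hfm q hq m hm).1) (hf q hq)).trans (mul_le_mul' ?_ (sum_le_sum ?_))
    · intro m hm
      have : 0 < m := (mem_Icc.1 hm).1
      have : 0 < Nat.gcd m q := Nat.gcd_pos_of_pos_left _ this
      positivity
    · refine ENNReal.ofReal_le_ofReal ((hG.1 q M hq0).trans ?_)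
      have := hΔ.2 q (by omega)
      calc _ ≤ Δ * (2 * Δ) := mul_le_mul this hH (by positivity) hΔ0
        _ = _ := by ring
    · intro m hm
      have hm0 : 0 < m := (mem_Icc.1 hm).1
      have hg : 0 < Nat.gcd m q := Nat.gcd_pos_of_pos_left _ hm0
      have he := Nat.mul_div_cancel' (Nat.gcd_dvd_right m q)
      have hq' : 1 ≤ q / Nat.gcd m q := Nat.div_pos (Nat.le_of_dvd hq0 (Nat.gcd_dvd_right m q)) hg
      have h2 := lf_pull_Pdl hP μ hg hq' (fm q m) (hfm q hq m hm).2.1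
      rw [he] at h2
      refine (mul_le_mul' le_rfl (h2.trans (mul_le_mul' le_rfl (hfm q hq m hm).2.2))).trans ?_
      rw [← mul_assoc, ← ENNReal.ofReal_mul (by positivity)]
      refine mul_le_mul' (ENNReal.ofReal_le_ofReal ?_) le_rfl
      have h3 := hΔ.2 (Nat.gcd m q)
        ((Nat.le_of_dvd hm0 (Nat.gcd_dvd_left m q)).trans ((mem_Icc.1 hm).2.trans hMX))
      have hg' : (0 : ℝ) < Nat.gcd m q := by exact_mod_cast hg
      have hm' : (0 : ℝ) < m := by exact_mod_cast hm0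
      calc _ = m * ((Nat.gcd m q).divisors.card : ℝ) := by field_simp
        _ ≤ _ := by gcongr
  have h2 : ∀ m ∈ Icc 1 M, ∑ q ∈ Ico Q (2 * Q), ENNReal.ofReal (m * Δ) *
      (iE (S m (Nat.gcd m q)) * U m (q / Nat.gcd m q)) ≤
      ENNReal.ofReal (Δ ^ 2 * Z * (1 / (m : ℝ))) := by
    intro m hm
    have hm0 : 0 < m := (mem_Icc.1 hm).1
    have hm' : (0 : ℝ) < m := by exact_mod_cast hm0
    rw [← mul_sum]
    have h3 := fiber_Pdl hQ hm0 fun g q' => iE (S m g) * U m q'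
    have h4 : ∑ g ∈ m.divisors, ∑ q' ∈ Ico (cq Q g) (2 * cq Q g), iE (S m g) * U m q' ≤
        ∑ _g ∈ m.divisors, ENNReal.ofReal (Z / (m : ℝ) ^ 2) := by
      refine sum_le_sum fun g hg => ?_
      rw [← mul_sum]
      by_cases hS : S m g
      · rw [iE_pos hS, one_mul]; exact hU m hm g (Nat.dvd_of_mem_divisors hg) hS
      · rw [iE_neg hS, zero_mul]; exact zero_le
    rw [← ENNReal.ofReal_sum_of_nonneg fun _ _ => by positivity, sum_const, nsmul_eq_mul] at h4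
    refine (mul_le_mul' le_rfl (h3.trans h4)).trans ?_
    rw [← ENNReal.ofReal_mul (by positivity)]
    refine ENNReal.ofReal_le_ofReal ?_
    have h5 := hΔ.2 m ((mem_Icc.1 hm).2.trans hMX)
    calc _ ≤ m * Δ * (Δ * (Z / (m : ℝ) ^ 2)) := by gcongr
      _ = _ := by field_simp
  refine (sum_le_sum h1).trans ?_
  rw [← mul_sum, sum_comm]
  refine (mul_le_mul' le_rfl (sum_le_sum h2)).trans ?_
  rw [← ENNReal.ofReal_sum_of_nonneg fun _ _ => by positivity, ← mul_sum,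
    ← ENNReal.ofReal_mul (by positivity)]
  refine ENNReal.ofReal_le_ofReal ?_
  calc _ ≤ 2 * Δ ^ 2 * (Δ ^ 2 * Z * (2 * Δ)) := by gcongr
    _ = _ := by ring

end Pool.Agent.MP_c853c5_nt.W
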