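import Pool.Agent.MP_c853c5_nt.W.Api

/-!
One piece of the dual packet is a superposition of packets.
-/

set_option autoImplicit false

open Finset MeasureTheory
open scoped ENNReal ComplexConjugate

namespace Pool.Agent.MP_c853c5_nt.W

open Pool.Agent.MP_2a1f0e_nt Pool.Agent.MP_2a1f0e_nt.GM Pool.Agent.MP_2a1f0e_nt.DH

/-- the data of the packets -/
def Dz_Piece (d : Dat) (H' T' : ℝ) (ζ : ℝ × ℝ) : Dat := ⟨d.g, d.al, ζ.2, ζ.1, T', H'⟩

/-- the weight -/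
noncomputable def wt_Piece (M : ℕ) (ζ : ℝ × ℝ) : ℝ := 1 / ((1 + |ζ.1|) * (1 + |ζ.2|)) ^ M

lemma wt_pos_Piece (M : ℕ) (ζ : ℝ × ℝ) : 0 < wt_Piece M ζ := by
  unfold wt_Piece
  positivity

lemma wt_meas_Piece (M : ℕ) : Measurable (wt_Piece M) := by
  unfold wt_Piece
  fun_prop

lemma wt_xi_Piece (m : ℕ) (ζ : ℝ × ℝ) {y : ℝ} (h0 : 0 ≤ y) (h : y ≤ (1 + |ζ.1|) * (1 + |ζ.2|)) :
    wt_Piece (m + 2) ζ * y ^ m ≤ wt_Piece 2 ζ := by
  unfold wt_Piece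
  rw [div_mul_eq_mul_div, one_mul, div_le_div_iff₀ (by positivity) (by positivity), one_mul,
    pow_add]
  gcongr

lemma wt_int_Piece : Integrable (wt_Piece 2) := by
  have h : Integrable fun t : ℝ => 1 / (1 + |t|) ^ 2 := by
    refine (integrable_one_add_norm (E := ℝ) (μ := volume) (r := 2) (by simp)).congr
      (Filter.Eventually.of_forall fun t => ?_)
    beta_reduce
    rw [Real.rpow_neg (by positivity), Real.rpow_two, one_div, Real.norm_eq_abs]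
  refine (h.mul_prod h).congr (Filter.Eventually.of_forall fun ζ => ?_)
  simp only [wt_Piece, mul_pow, div_mul_div_comm, one_mul]

lemma meas_Piece {d : Dat} (h : Measurable d.g) (H' T' : ℝ) (P : Pr) :
    Measurable fun p : (ℝ × ℝ) × MM => pa (Dz_Piece d H' T' p.1) P p.2 :=
  (((measurable_const.mul (h.comp ((continuous_vx P.2).measurable.comp measurable_snd))).mul
    (Complex.measurable_ofReal.comp (measurable_om.comp
      (continuous_dt.measurable.comp measurable_snd)))).mul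
    (measurable_E measurable_fst.snd (((measurable_tt P).comp measurable_snd).div_const _))).mul
    (measurable_E measurable_fst.fst (measurable_const (a := (hh P : ℝ) / H')))

lemma ident_Piece (d : Dat) (q : ℕ) {H' T' : ℝ} (hH : H' ≠ 0) (hT : T' ≠ 0) {c₁ c₂ : ℝ → ℂ}
    (h1 : ∀ z : ℝ, (om z : ℂ) * Eh d.x1 (d.H2 * H' / q * z) = ∫ ζ : ℝ, c₁ ζ * E ζ z)
    (h2 : ∀ z : ℝ, (om z : ℂ) * Eh d.x2 (-(d.H * T' / q) * z) = ∫ ζ : ℝ, c₂ ζ * E ζ z)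
    (P : Pr) (x : MM) : pc d q H' T' P x = ∫ ζ : ℝ × ℝ,
      ((d.PP / q : ℝ) : ℂ) * (c₁ ζ.1 * c₂ ζ.2) * pa (Dz_Piece d H' T' ζ) P x := by
  have e1 := h1 ((hh P : ℝ) / H')
  have e2 := h2 (tt P x / T')
  rw [show d.H2 * H' / q * ((hh P : ℝ) / H') = d.H2 * (hh P : ℝ) / q by field_simp] at e1
  rw [show -(d.H * T' / q) * (tt P x / T') = -(d.H * tt P x / q) by field_simp] at e2
  have e3 : ∀ ζ : ℝ × ℝ, ((d.PP / q : ℝ) : ℂ) * (c₁ ζ.1 * c₂ ζ.2) * pa (Dz_Piece d H' T' ζ) P x =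
      iC (Prim P.2 ∧ hh P ≠ 0) * d.g (vx P.2 x) * (om (dt x) : ℂ) * ((d.PP / q : ℝ) : ℂ) *
        ((c₁ ζ.1 * E ζ.1 ((hh P : ℝ) / H')) * (c₂ ζ.2 * E ζ.2 (tt P x / T'))) := fun ζ => by
    by_cases c : hh P = 0
    · simp only [pa, Dz_Piece, c, Int.cast_zero, zero_div, E_zero, mul_zero, zero_mul]
    · rw [iC_and, iC_pos c]
      simp only [pa, Dz_Piece]
      ring
  simp only [e3]
  rw [integral_const_mul, Measure.volume_eq_prod,
    integral_prod_mul (fun t => c₁ t * E t ((hh P : ℝ) / H')) fun t => c₂ t * E t (tt P x / T'),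
    ← e1, ← e2]
  simp only [pc, pd]
  push_cast
  ring

lemma mink_Piece (hM : MinkIStmt) (hF : FinStmt) {μ : Measure MM} (hμ : SFinite μ) {d : Dat}
    (h0 : 0 < d.al) (hd : Adm d.al d.g) (q : ℕ) {H' T' : ℝ} {Ψ : Pk} {c : ℝ × ℝ → ℂ}
    (hc : Integrable c) (h : ∀ P x, Ψ P x = ∫ ζ, c ζ * pa (Dz_Piece d H' T' ζ) P x)
    {a : ℝ × ℝ → ℝ} {B : ℝ} (a1 : Measurable a) (a2 : Integrable a) (a3 : ∫ ζ, a ζ ≤ B)
    (a4 : ∀ ζ, ‖c ζ‖ ≤ a ζ) : LN μ q Prod.fst Ψ ≤ ENNReal.ofReal B *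
      ∫⁻ ζ, ENNReal.ofReal (a ζ) * LN μ q Prod.fst (pa (Dz_Piece d H' T' ζ)) := by
  refine hM (ℝ × ℝ) μ hμ q _ (fun ζ => vf q Prod.fst (pa (Dz_Piece d H' T' ζ))) c a B
    (fun w => measurable_vf q Prod.fst (meas_Piece hd.1 H' T') w) a1 a2 a3 a4 fun x w _ => ?_
  have z : ∀ ζ, ∀ P ∉ (hF d.al T' H' x h0).toFinset, pa (Dz_Piece d H' T' ζ) P x = 0 :=
    fun ζ P hP => by_contra fun k =>
      hP ((Set.Finite.mem_toFinset _).2 (pa_supA (d := Dz_Piece d H' T' ζ) hd k))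
  have e1 : ∀ ζ, c ζ * vf q Prod.fst (pa (Dz_Piece d H' T' ζ)) x w =
      ∑ P ∈ (hF d.al T' H' x h0).toFinset,
        c ζ * pa (Dz_Piece d H' T' ζ) P x * ind q (om2 w P.1) := fun ζ => by
    rw [vf, tsum_eq_sum fun P hP => by rw [z ζ P hP, zero_mul], mul_sum]
    simp only [mul_assoc]
  have e2 : ∀ P, Integrable fun ζ => c ζ * pa (Dz_Piece d H' T' ζ) P x * ind q (om2 w P.1) :=
    fun P => (hc.mul_bdd ((meas_Piece hd.1 H' T' P).comp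
      (measurable_id.prodMk measurable_const)).aestronglyMeasurable
      (Filter.Eventually.of_forall fun ζ =>
        norm_pa_le (d := Dz_Piece d H' T' ζ) hd.2.1 P x)).mul_const _
  simp only [e1]
  refine ⟨integrable_finsetSum _ fun P _ => e2 P, ?_⟩
  rw [integral_finsetSum _ fun P _ => e2 P, vf, tsum_eq_sum (s := (hF d.al T' H' x h0).toFinset)
    fun P hP => by simp only [h, z _ P hP, mul_zero, integral_zero, zero_mul]]
  exact sum_congr rfl fun P _ => by rw [h, integral_mul_const]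

lemma coef_Piece {C ξ X l L t u : ℝ} {M : ℕ} (hC : 0 < C) (hX : 1 + |ξ| ≤ X) (hL : 0 ≤ L)
    (hl : L ≤ 2 * |l|) (h : u ≤ C * (1 + |ξ|) ^ (M + 3) / ((1 + |l|) ^ 3 * (1 + |t|) ^ M)) :
    u ≤ 8 * C * X ^ (M + 3) / (1 + L) ^ 3 / (1 + |t|) ^ M := by
  have h0 : 0 ≤ X := le_trans (by positivity) hX
  refine h.trans ?_
  rw [← div_div]
  refine div_le_div_of_nonneg_right ?_ (by positivity)
  rw [div_le_div_iff₀ (by positivity) (by positivity)]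
  have h1 : (1 + L) ^ 3 ≤ (2 * (1 + |l|)) ^ 3 := by
    gcongr
    linarith
  calc C * (1 + |ξ|) ^ (M + 3) * (1 + L) ^ 3 ≤ C * X ^ (M + 3) * (2 * (1 + |l|)) ^ 3 := by gcongr
    _ = _ := by ring

lemma num_Piece (d : Dat) {H' T' Q s : ℝ} (ζ : ℝ × ℝ) (hQ : 0 < Q) (hs : 0 ≤ s) :
    (d.PP / Q) ^ 2 * ((Dz_Piece d H' T' ζ).DD * Q + (Dz_Piece d H' T' ζ).XX * s) ≤
      ((1 + |d.H2| * |H'| / Q) * (1 + |d.H| * |T'| / Q)) ^ 2 * (d.DD * Q + d.XX * s) := by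
  obtain ⟨l₁, h1⟩ : ∃ l, l = |d.H2| * |H'| / Q := ⟨_, rfl⟩
  obtain ⟨l₂, h2⟩ : ∃ l, l = |d.H| * |T'| / Q := ⟨_, rfl⟩
  have p1 : 0 ≤ l₁ := by rw [h1]; positivity
  have p2 : 0 ≤ l₂ := by rw [h2]; positivity
  have e1 : (d.PP / Q) ^ 2 * (Dz_Piece d H' T' ζ).DD =
      d.al ^ 2 * (l₁ * l₂ * d.PP + l₁ ^ 2 * d.H ^ 2) := by
    simp only [Dat.DD, Dat.PP, Dz_Piece, h1, h2]
    rw [← sq_abs H', ← sq_abs d.H]
    ring
  have e2 : (d.PP / Q) ^ 2 * (Dz_Piece d H' T' ζ).XX =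
      d.al ^ 4 * (l₂ ^ 2 * d.H2 ^ 2 + l₁ * l₂ * d.PP) := by
    simp only [Dat.XX, Dat.PP, Dz_Piece, h1, h2]
    rw [← sq_abs T', ← sq_abs d.H2]
    ring
  have p3 := mul_nonneg p1 p2
  have k0 : 1 ≤ (1 + l₁) * (1 + l₂) := by nlinarith
  have k1 : l₁ * l₂ ≤ ((1 + l₁) * (1 + l₂)) ^ 2 := by nlinarith
  have k2 : l₁ ^ 2 ≤ ((1 + l₁) * (1 + l₂)) ^ 2 := pow_le_pow_left₀ p1 (by nlinarith) 2
  have k3 : l₂ ^ 2 ≤ ((1 + l₁) * (1 + l₂)) ^ 2 := pow_le_pow_left₀ p2 (by nlinarith) 2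
  have p4 := d.PP_nonneg
  rw [← h1, ← h2, mul_add, ← mul_assoc, ← mul_assoc, e1, e2]
  calc _ ≤ d.al ^ 2 * (((1 + l₁) * (1 + l₂)) ^ 2 * d.PP + ((1 + l₁) * (1 + l₂)) ^ 2 * d.H ^ 2) * Q +
        d.al ^ 4 * (((1 + l₁) * (1 + l₂)) ^ 2 * d.H2 ^ 2 + ((1 + l₁) * (1 + l₂)) ^ 2 * d.PP) *
          s := by gcongr
    _ = _ := by
      simp only [Dat.DD, Dat.XX]
      ring

lemma size_Piece {a b c Λ Q L : ℝ} (hQ : 0 < Q) (ha : 0 ≤ a) (hb : b ≤ Λ) (hc : 0 ≤ c)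
    (h : Q ≤ 2 * (a * b)) (hΛ : 0 ≤ Λ) (hL : a * c / Q ≤ L) : c ≤ 2 * L * Λ := by
  have h1 : c ≤ 2 * (a * c / Q) * Λ := by
    rw [show 2 * (a * c / Q) * Λ = 2 * (a * Λ) * c / Q by ring, le_div_iff₀ hQ, mul_comm]
    exact mul_le_mul_of_nonneg_right (h.trans (by gcongr)) hc
  exact h1.trans (by gcongr)

theorem piece_stmt (hC : Co1Stmt) (hM : MinkIStmt) (hF : FinStmt) : PieceStmt := by
  rintro η - - ⟨m, hm⟩
  refine ⟨4 * (m + 5), fun ε hε => ?_⟩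
  obtain ⟨K, hK, hm⟩ := hm (min ε 1) (lt_min hε one_pos)
  obtain ⟨C, hC0, hC⟩ := hC (m + 2) 3
  obtain ⟨J, hJ0, hJ⟩ : ∃ J : ℝ, 0 < J ∧ ∫ ζ, wt_Piece 2 ζ ≤ J :=
    ⟨|∫ ζ, wt_Piece 2 ζ| + 1, by positivity, by linarith [le_abs_self (∫ ζ, wt_Piece 2 ζ)]⟩
  refine ⟨4 * (64 * C ^ 2 * J) ^ 2 * K, by positivity, ?_⟩
  intro μ hμ d Λ Q H' T' hd _ hQP hH hT
  have hΛ := hd.one_le
  obtain ⟨d0, d1, d2, d3, d4, d5, d6⟩ := hd
  have hQ : (0 : ℝ) < Q := by exact_mod_cast d5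
  have hxi := d.one_le_xi
  have hPP := d.PP_nonneg
  obtain ⟨l₁, h1⟩ : ∃ l, l = |d.H2| * |H'| / Q := ⟨_, rfl⟩
  obtain ⟨l₂, h2⟩ : ∃ l, l = |d.H| * |T'| / Q := ⟨_, rfl⟩
  have p1 : 0 ≤ l₁ := by rw [h1]; positivity
  have p2 : 0 ≤ l₂ := by rw [h2]; positivity
  have p3 := mul_nonneg p1 p2
  obtain ⟨L, hL⟩ : ∃ L, L = (1 + l₁) * (1 + l₂) := ⟨_, rfl⟩
  have L1 : 1 ≤ L := by rw [hL]; nlinarith
  have hΛ' : Λ ≤ 2 * L * Λ := by nlinarith
  obtain ⟨a₀, ha₀⟩ : ∃ a, a = d.PP / Q * (64 * C ^ 2 * d.xi ^ (2 * (m + 5)) / L ^ 3) := ⟨_, rfl⟩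
  have a0 : 0 ≤ a₀ := by rw [ha₀]; positivity
  have hw : ∀ ζ, wt_Piece (m + 2) ζ ≤ wt_Piece 2 ζ := fun ζ => by
    have := wt_xi_Piece m ζ zero_le_one
      (one_le_mul_of_one_le_of_one_le (by linarith [abs_nonneg ζ.1]) (by linarith [abs_nonneg ζ.2]))
    rwa [one_pow, mul_one] at this
  have hi : Integrable (wt_Piece (m + 2)) :=
    wt_int_Piece.mono' (wt_meas_Piece _).aestronglyMeasurable
      (Filter.Eventually.of_forall fun ζ => by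
        rw [Real.norm_of_nonneg (wt_pos_Piece _ ζ).le]
        exact hw ζ)
  have step : ∀ q ∈ Ico Q (2 * Q), LN μ q Prod.fst (pc d q H' T') ≤ ENNReal.ofReal (a₀ * J) *
      ∫⁻ ζ, ENNReal.ofReal (a₀ * wt_Piece (m + 2) ζ) *
        LN μ q Prod.fst (pa (Dz_Piece d H' T' ζ)) := by
    intro q hq
    have q1 : (Q : ℝ) ≤ q := by exact_mod_cast (mem_Ico.1 hq).1
    have q2 : (q : ℝ) ≤ 2 * Q := by exact_mod_cast (mem_Ico.1 hq).2.le
    have q0 : (0 : ℝ) < q := hQ.trans_le q1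
    obtain ⟨c₁, -, i1, b1, e1⟩ := hC d.x1 (d.H2 * H' / q)
    obtain ⟨c₂, -, i2, b2, e2⟩ := hC d.x2 (-(d.H * T' / q))
    have half : ∀ y : ℝ, 0 ≤ y → y / Q ≤ 2 * (y / q) := fun y hy => by
      rw [mul_div_assoc', div_le_div_iff₀ hQ q0]
      nlinarith
    refine mink_Piece hM hF hμ.1 d0 d1 q ((i1.mul_prod i2).const_mul _)
      (ident_Piece d q hH hT e1 e2) ((wt_meas_Piece _).const_mul _) (hi.const_mul _) ?_ fun ζ => ?_
    · rw [integral_const_mul]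
      exact mul_le_mul_of_nonneg_left ((integral_mono hi wt_int_Piece hw).trans hJ) a0
    · have k1 := coef_Piece (X := d.xi) (L := l₁) hC0
        (by rw [Dat.xi]; linarith [abs_nonneg d.x2]) p1 (by
          rw [h1, abs_div, abs_mul, abs_of_pos q0]
          exact half _ (by positivity)) (b1 ζ.1)
      have k2 := coef_Piece (X := d.xi) (L := l₂) hC0
        (by rw [Dat.xi]; linarith [abs_nonneg d.x1]) p2 (by
          rw [h2, abs_neg, abs_div, abs_mul, abs_of_pos q0]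
          exact half _ (by positivity)) (b2 ζ.2)
      rw [norm_mul, norm_mul, Complex.norm_real, Real.norm_of_nonneg (by positivity)]
      refine (mul_le_mul (div_le_div_of_nonneg_left hPP hQ q1)
        (mul_le_mul k1 k2 (norm_nonneg _) (by positivity)) (by positivity)
        (by positivity)).trans_eq ?_
      rw [ha₀, hL, wt_Piece, mul_pow, mul_pow]
      field_simp
      ring
  obtain ⟨Z, hZ⟩ : ∃ Z, Z = K * (2 * L * Λ) ^ min ε 1 * ((1 + |T'| * |H'| / Q) *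
      ((Dz_Piece d H' T' 0).DD * Q + (Dz_Piece d H' T' 0).XX * (Q : ℝ) ^ η)) := ⟨_, rfl⟩
  have z1 := (Dz_Piece d H' T' 0).DD_nonneg
  have z2 := (Dz_Piece d H' T' 0).XX_nonneg
  have z0 : 0 ≤ Z := by rw [hZ]; positivity
  have s1 : |T'| ≤ 2 * L * Λ :=
    size_Piece hQ (abs_nonneg d.H) d3 (abs_nonneg T') (by rwa [mul_comm |d.H|])
      (by linarith) (by rw [← h2, hL]; nlinarith)
  have s2 : |H'| ≤ 2 * L * Λ := size_Piece hQ (abs_nonneg d.H2) d4 (abs_nonneg H') hQP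
    (by linarith) (by rw [← h1, hL]; nlinarith)
  have inner : ∀ ζ : ℝ × ℝ, ∑ q ∈ Ico Q (2 * Q), ENNReal.ofReal (a₀ * wt_Piece (m + 2) ζ) *
      LN μ q Prod.fst (pa (Dz_Piece d H' T' ζ)) ≤ ENNReal.ofReal (a₀ * Z * wt_Piece 2 ζ) := by
    intro ζ
    have k := hm μ hμ (Dz_Piece d H' T' ζ) (2 * L * Λ) Q (fun _ _ => 1) (|T'| * |H'| / Q)
      ⟨d0, d1, d2.trans hΛ', s1, s2, d5, d6.trans hΛ'⟩ (by positivity)
      (fun q k hk => by
        rw [norm_one]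
        exact_mod_cast card_pos.2 ⟨1, Nat.one_mem_divisors.2 (by omega)⟩)
      (fun q k hk _ => by
        rw [div_mul_cancel₀ _ hQ.ne']
        refine mul_le_mul_of_nonneg_left ?_ (Dat.PP_nonneg _)
        exact_mod_cast (Nat.gcd_le_left q hk).trans (Nat.le_self_pow two_ne_zero k))
    simp only [one_mul] at k
    have w0 := wt_pos_Piece (m + 2) ζ
    rw [← mul_sum]
    refine (mul_le_mul_right k _).trans ?_
    rw [← ENNReal.ofReal_mul (by positivity)]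
    refine ENNReal.ofReal_le_ofReal ?_
    have k2 := wt_xi_Piece m ζ (zero_le_one.trans (Dz_Piece d H' T' ζ).one_le_xi) (by
      show 1 + |ζ.2| + |ζ.1| ≤ _
      nlinarith [mul_nonneg (abs_nonneg ζ.1) (abs_nonneg ζ.2)])
    refine le_trans (le_of_eq ?_) (mul_le_mul_of_nonneg_left k2 (mul_nonneg a0 z0))
    rw [hZ]
    simp only [Dat.DD, Dat.XX, Dat.PP, Dz_Piece]
    ring
  refine (sum_le_sum step).trans ?_
  rw [← mul_sum]
  refine (mul_le_mul_right ((sum_lintegral_le _ _ _).trans (lintegral_mono inner)) _).trans ?_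
  rw [← ofReal_integral_eq_lintegral_ofReal (wt_int_Piece.const_mul _)
    (Filter.Eventually.of_forall fun ζ => mul_nonneg (mul_nonneg a0 z0) (wt_pos_Piece 2 ζ).le),
    ← ENNReal.ofReal_mul (by positivity), integral_const_mul]
  refine ENNReal.ofReal_le_ofReal ?_
  have n1 := num_Piece d (H' := H') (T' := T') 0 hQ (Real.rpow_nonneg hQ.le η)
  rw [← h1, ← h2, ← hL] at n1
  have n2 : (2 * L * Λ) ^ min ε 1 ≤ 2 * L * Λ ^ ε := by
    rw [Real.mul_rpow (by positivity) (by positivity)]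
    exact mul_le_mul ((Real.rpow_le_rpow_of_exponent_le (by linarith) (min_le_right _ _)).trans_eq
      (Real.rpow_one _)) (Real.rpow_le_rpow_of_exponent_le hΛ (min_le_left _ _)) (by positivity)
      (by positivity)
  have n3 : 1 + |T'| * |H'| / Q ≤ 2 * L := by
    have : |T'| * |H'| / Q ≤ 2 * (l₁ * l₂) := by
      rw [h1, h2, show 2 * (|d.H2| * |H'| / Q * (|d.H| * |T'| / Q)) =
        |T'| * |H'| / Q * (2 * d.PP / Q) by rw [Dat.PP]; ring]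
      exact le_mul_of_one_le_right (by positivity) ((one_le_div hQ).2 hQP)
    rw [hL]
    nlinarith
  rw [← h1, ← h2, ← mul_pow, ← hL]
  have y1 := d.DD_nonneg
  have y2 := d.XX_nonneg
  calc a₀ * J * (a₀ * Z * ∫ ζ, wt_Piece 2 ζ) ≤ a₀ * J * (a₀ * Z * J) := by gcongr
    _ = (64 * C ^ 2 * J * d.xi ^ (2 * (m + 5)) / L ^ 3) ^ 2 * K * ((2 * L * Λ) ^ min ε 1 *
        ((1 + |T'| * |H'| / Q) * ((d.PP / Q) ^ 2 * ((Dz_Piece d H' T' 0).DD * Q +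
          (Dz_Piece d H' T' 0).XX * (Q : ℝ) ^ η)))) := by
      rw [ha₀, hZ]
      ring
    _ ≤ (64 * C ^ 2 * J * d.xi ^ (2 * (m + 5)) / L ^ 3) ^ 2 * K * (2 * L * Λ ^ ε *
        (2 * L * (L ^ 2 * (d.DD * Q + d.XX * (Q : ℝ) ^ η)))) := by gcongr
    _ = _ := by
      field_simp
      ring

end Pool.Agent.MP_c853c5_nt.W
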