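import Pool.Agent.MP_c853c5_nt.W.Api

set_option autoImplicit false

open Finset MeasureTheory
open scoped ENNReal ComplexConjugate

namespace Pool.Agent.MP_c853c5_nt.W

open Pool.Agent.MP_2a1f0e_nt Pool.Agent.MP_2a1f0e_nt.GM Pool.Agent.MP_2a1f0e_nt.DH

lemma inj_PoisF {G : Pr} (h : hh G = 1) :
    Function.Injective fun k : V => ((vg k G, G.2) : Pr) := by
  intro k k' e
  have e1 : vg k G = vg k' G := congrArg Prod.fst e
  simp only [vg, Prod.mk.injEq] at e1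
  simp only [hh, om2] at h
  obtain ⟨a, b⟩ := e1
  refine Prod.ext ?_ ?_
  · linear_combination G.2.2 * a - G.2.1 * b - (k.1 - k'.1) * h
  · linear_combination G.1.1 * b - G.1.2 * a - (k.2 - k'.2) * h

lemma hh_PoisF {G : Pr} (h : hh G = 1) (k : V) : hh ((vg k G, G.2) : Pr) = k.1 := by
  simp only [hh, om2, vg] at h ⊢
  linear_combination k.1 * h

lemma tt_PoisF {G : Pr} {x : MM} (h : (vx G.2 x).1 ≠ 0) (k : V) :
    tt ((vg k G, G.2) : Pr) x = k.2 + k.1 * tt G x := by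
  have e : (vx (vg k G) x).1 = k.2 * (vx G.2 x).1 + k.1 * (vx G.1 x).1 := by
    simp only [vx, vg]; push_cast; ring
  simp only [tt]
  rw [e]
  field_simp

lemma om2_PoisF (G : Pr) (w k : V) :
    om2 w (vg k G) = om2 ((om2 w G.2, om2 G.1 w) : V) k := by
  simp only [om2, vg]
  ring

lemma ct_PoisF {G : Pr} (h : hh G = 1) (w : V) :
    ct ((om2 w G.2, om2 G.1 w) : V) = ct w := by
  rw [← ct_vg h]
  congr 1
  simp only [hh, om2, vg] at h ⊢
  refine Prod.ext ?_ ?_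
  · linear_combination w.1 * h
  · linear_combination w.2 * h

/-- unfolding along the anchors -/
lemma unf_PoisF (hA : AnchStmt) {M : Type} [AddCommMonoid M] [TopologicalSpace M]
    [ContinuousAdd M] (x : MM) (T : V → Prop) (A : Finset Pr)
    (hT : ∀ v, T v → (vx v x).1 ≠ 0) (hm : ∀ G, G ∈ A ↔ An G x ∧ T G.2) (F : Pr → M)
    (hF : ∀ P, F P ≠ 0 → Prim P.2 ∧ T P.2) (s : Pr → M)
    (hs : ∀ G ∈ A, HasSum (fun k : V => F (vg k G, G.2)) (s G)) : HasSum F (∑ G ∈ A, s G) := by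
  classical
  have h1 : ∀ G ∈ A, HasSum ((Set.range fun k : V => ((vg k G, G.2) : Pr)).indicator F) (s G) := by
    intro G hG
    refine ((inj_PoisF ((hm G).1 hG).1.1).hasSum_iff fun P hP => Set.indicator_of_notMem hP _).1 ?_
    have e : ((Set.range fun k : V => ((vg k G, G.2) : Pr)).indicator F) ∘
        (fun k : V => ((vg k G, G.2) : Pr)) = fun k : V => F (vg k G, G.2) :=
      funext fun k => Set.indicator_of_mem (Set.mem_range_self k) _
    rw [e]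
    exact hs G hG
  have e : (fun P => ∑ G ∈ A,
      (Set.range fun k : V => ((vg k G, G.2) : Pr)).indicator F P) = F := by
    funext P
    by_cases h0 : F P = 0
    · rw [h0]
      exact sum_eq_zero fun G _ => Set.indicator_apply_eq_zero.2 fun _ => h0
    obtain ⟨h2, h3⟩ := hF P h0
    obtain ⟨w, ⟨hw1, hw2⟩, hu⟩ := hA x P h2 (hT _ h3)
    have hw : w.1 ∈ A := (hm _).2 ⟨hw1, by rw [hw2] at h3; exact h3⟩
    rw [sum_eq_single_of_mem w.1 hw]
    · exact Set.indicator_of_mem (Set.mem_range.2 ⟨w.2, hw2.symm⟩) _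
    · intro G hG hne
      refine Set.indicator_of_notMem ?_ _
      rintro ⟨k, hk⟩
      exact hne (congrArg Prod.fst (hu (G, k) ⟨((hm G).1 hG).1, hk.symm⟩))
  have h2 := hasSum_sum h1
  rwa [e] at h2

/-- the terms with `k.1 = 0` -/
lemma line_PoisF (q : ℕ) (hq : 1 ≤ q) (n : ℤ) (ξ H : ℝ) (a : ℂ)
    (hs : Summable fun j : ℤ => a * Eh ξ (-(H * j / q))) :
    ∑' j : ℤ, a * Eh ξ (-(H * j / q)) * ind q (n * j) =
      a * Eh ξ 0 + a * Rl ξ H (Int.gcd n q) := by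
  classical
  have hg : 0 < Nat.gcd n.natAbs q := Nat.gcd_pos_of_pos_right _ hq
  have eg : Int.gcd n q = Nat.gcd n.natAbs q := by simp [Int.gcd]
  rw [eg]
  obtain ⟨q', hq'⟩ := Nat.gcd_dvd_right n.natAbs q
  have hd : ∀ j : ℤ, (q : ℤ) ∣ n * j ↔ (q' : ℤ) ∣ j := fun j => by
    have h := dvd_mul_iff_div (m := n.natAbs) hq j
    rw [Nat.div_eq_of_eq_mul_right hg hq'] at h
    rw [← h, Int.natCast_natAbs]
    rcases abs_choice n with e | e
    · rw [e]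
    · rw [e, neg_mul, dvd_neg]
  generalize Nat.gcd n.natAbs q = g at hg hq'
  have hq0 : (q' : ℤ) ≠ 0 := by
    rintro h
    have : q' = 0 := by exact_mod_cast h
    rw [this] at hq'
    omega
  have hi : Function.Injective fun i : ℤ => (q' : ℤ) * i := fun _ _ h => mul_left_cancel₀ hq0 h
  have hr : (q' : ℝ) ≠ 0 := by exact_mod_cast hq0
  have hg' : (g : ℝ) ≠ 0 := by exact_mod_cast hg.ne'
  have e1 : ∀ i : ℤ, H * (((q' : ℤ) * i : ℤ) : ℝ) / q = H * i / g := fun i => by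
    rw [hq']; push_cast; field_simp
  have h1 : Summable fun i : ℤ => a * Eh ξ (-(H * i / g)) :=
    (hs.comp_injective hi).congr fun i => by simp only [Function.comp, e1]
  rw [← hi.tsum_eq (f := fun j : ℤ => a * Eh ξ (-(H * j / q)) * ind q (n * j))]
  · have e2 : ∀ i : ℤ, a * Eh ξ (-(H * (((q' : ℤ) * i : ℤ) : ℝ) / q)) * ind q (n * (q' * i)) =
        a * Eh ξ (-(H * i / g)) := fun i => by
      rw [e1, ind, iC_pos ((hd _).2 (dvd_mul_right _ _)), mul_one]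
    rw [tsum_congr e2, h1.tsum_eq_add_tsum_ite 0, Rl, ← tsum_mul_left]
    congr 1
    · simp
    · refine tsum_congr fun i => ?_
      by_cases h : i = 0
      · rw [if_pos h, iC_neg (not_not.2 h), zero_mul, mul_zero]
      · rw [if_neg h, iC_pos h, one_mul]
  · intro j hj
    obtain ⟨i, hi⟩ := (hd j).1 (iC_ne_zero (right_ne_zero_of_mul hj))
    exact ⟨i, hi.symm⟩

/-- splitting the dual sum -/
lemma split_PoisF (q : ℕ) (hq : 1 ≤ q) (w : V) (β ξ₁ ξ₂ H2 H : ℝ) (c : ℂ)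
    (hs : Summable fun k : V => ‖Eh ξ₁ (H2 * k.1 / q) * Eh ξ₂ (-(H * (k.2 + k.1 * β) / q))‖) :
    ∑' k : V, c * (Eh ξ₁ (H2 * k.1 / q) * Eh ξ₂ (-(H * (k.2 + k.1 * β) / q))) * ind q (om2 w k) =
      ∑' k : V, iC (k.1 ≠ 0) * c * (Eh ξ₁ (H2 * k.1 / q) * Eh ξ₂ (-(H * (k.2 + k.1 * β) / q))) *
        ind q (om2 w k) + c * (Eh ξ₁ 0 * Rl ξ₂ H (Int.gcd w.1 q)) + c * (Eh ξ₁ 0 * Eh ξ₂ 0) := by
  have hb : ∀ p : V → Prop, Summable fun k : V => iC (p k) * c *
      (Eh ξ₁ (H2 * k.1 / q) * Eh ξ₂ (-(H * (k.2 + k.1 * β) / q))) * ind q (om2 w k) := fun p => by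
    refine Summable.of_norm_bounded (hs.mul_left ‖c‖) fun k => ?_
    rw [norm_mul, norm_mul, norm_mul]
    refine (mul_le_of_le_one_right (by positivity) (norm_iC_le _)).trans ?_
    exact mul_le_mul_of_nonneg_right (mul_le_of_le_one_left (norm_nonneg _) (norm_iC_le _))
      (norm_nonneg _)
  have hi : Function.Injective fun j : ℤ => ((0, j) : V) := fun _ _ h => congrArg Prod.snd h
  have h1 : Summable fun j : ℤ => c * Eh ξ₁ 0 * Eh ξ₂ (-(H * j / q)) := by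
    refine (((hs.of_norm).comp_injective hi).mul_left c).congr fun j => ?_
    simp [mul_assoc]
  have h2 := line_PoisF q hq w.1 ξ₂ H _ h1
  have h3 : ∑' k : V, iC (¬k.1 ≠ 0) * c *
      (Eh ξ₁ (H2 * k.1 / q) * Eh ξ₂ (-(H * (k.2 + k.1 * β) / q))) * ind q (om2 w k) =
      ∑' j : ℤ, c * Eh ξ₁ 0 * Eh ξ₂ (-(H * j / q)) * ind q (w.1 * j) := by
    rw [← hi.tsum_eq]
    · refine tsum_congr fun j => ?_
      rw [iC_pos (not_not.2 rfl)]
      simp [om2, mul_assoc]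
    · intro k hk
      have h0 := iC_ne_zero (left_ne_zero_of_mul (left_ne_zero_of_mul (left_ne_zero_of_mul hk)))
      exact ⟨k.2, Prod.ext (not_not.1 h0).symm rfl⟩
  rw [add_assoc, ← mul_assoc c, ← mul_assoc c, add_comm (c * _ * Rl _ _ _), ← h2, ← h3,
    ← (hb fun k => k.1 ≠ 0).tsum_add (hb fun k => ¬k.1 ≠ 0)]
  refine tsum_congr fun k => ?_
  rw [← add_mul, ← add_mul, ← add_mul, iC_add_not, one_mul]

lemma nrm_PoisF (a b c : ℂ) (p : Prop) : ‖a * (iC p * b * c)‖ ≤ ‖a‖ * ‖b‖ * ‖c‖ := by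
  rw [norm_mul, norm_mul, norm_mul, mul_assoc ‖a‖]
  refine mul_le_mul_of_nonneg_left ?_ (norm_nonneg _)
  exact mul_le_mul_of_nonneg_right (mul_le_of_le_one_left (norm_nonneg _) (norm_iC_le _))
    (norm_nonneg _)

lemma unf2_PoisF (hA : AnchStmt) (x : MM) (T : V → Prop) (A : Finset Pr)
    (hT : ∀ v, T v → (vx v x).1 ≠ 0) (hm : ∀ G, G ∈ A ↔ An G x ∧ T G.2) (q : ℕ) (w : V) (Ψ : Pk)
    (hF : ∀ P, Ψ P x ≠ 0 → Prim P.2 ∧ T P.2)
    (hs : Summable fun P => Ψ P x * ind q (om2 w P.1)) :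
    vf q Prod.fst Ψ x w = ∑ G ∈ A, ∑' k : V, Ψ (vg k G, G.2) x *
      ind q (om2 ((om2 w G.2, om2 G.1 w) : V) k) := by
  refine (unf_PoisF hA x T A hT hm (fun P => Ψ P x * ind q (om2 w P.1))
    (fun P h => hF P (left_ne_zero_of_mul h)) _ fun G hG => ?_).tsum_eq
  have h1 := (hs.comp_injective (inj_PoisF ((hm G).1 hG).1.1)).hasSum
  simp only [Function.comp_def, om2_PoisF] at h1 ⊢
  exact h1

theorem poisF_stmt (hA : AnchStmt) (hF : FinStmt) (hP : PoisZStmt) : PoisFStmt := by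
  intro d q x hq hal hd
  by_cases h0 : d.H2 = 0 ∨ d.H = 0
  · have h1 : pa d = 0 := pa_eq_zero hd (h0.symm.imp_left fun h => by rw [h]; norm_num)
    have h2 : d.PP = 0 := by rcases h0 with h | h <;> simp [Dat.PP, h]
    have h3 : pd d q = 0 := by funext P x; simp [pd, h2]
    refine ⟨by simp [h3], 0, fun w _ => ?_⟩
    simp [vf, lnF, h1, h2, h3]
  rw [not_or] at h0
  set T : V → Prop := fun v => d.g (vx v x) ≠ 0 ∧ om (dt x) ≠ 0 with hTd
  have hT : ∀ v, T v → (vx v x).1 ≠ 0 := fun v hv => (hal.trans_le (hd.2.2 _ hv.1).1).ne'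
  have hfin : {G : Pr | An G x ∧ T G.2}.Finite := by
    refine (hF d.al 1 1 x hal).subset ?_
    rintro G ⟨⟨h1, h2, h3⟩, h4, h5⟩
    have h6 := om_mem h5
    refine ⟨prim_two_of_hh h1, by rw [h1]; exact one_ne_zero, hd.2.2 _ h4, h6.1.le,
      by linarith [h6.2], ?_, ?_, ?_⟩
    · rw [abs_of_nonneg h2, abs_one]; linarith
    · rw [h1, Int.cast_one]
    · rw [h1, Int.cast_one, abs_one]; norm_num
  have hm : ∀ G, G ∈ hfin.toFinset ↔ An G x ∧ T G.2 := fun G => hfin.mem_toFinset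
  generalize hfin.toFinset = A at hm
  have hpd : ∀ P, pd d q P x ≠ 0 → Prim P.2 ∧ T P.2 := fun P h => by
    simp only [pd, mul_ne_zero_iff] at h
    exact ⟨(iC_ne_zero h.1.1.1.1).1, h.1.1.1.2, Complex.ofReal_ne_zero.1 h.1.1.2⟩
  have hpa : ∀ P, pa d P x ≠ 0 → Prim P.2 ∧ T P.2 := fun P h => by
    simp only [pa, mul_ne_zero_iff] at h
    exact ⟨iC_ne_zero h.1.1.1.1, h.1.1.1.2, Complex.ofReal_ne_zero.1 h.1.1.2⟩
  have epd : ∀ G ∈ A, ∀ k : V, pd d q (vg k G, G.2) x =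
      d.g (vx G.2 x) * (om (dt x) : ℂ) * (iC (k.1 ≠ 0) * ((|d.H2| * |d.H| / q : ℝ) : ℂ) *
        (Eh d.x1 (d.H2 * k.1 / q) * Eh d.x2 (-(d.H * (k.2 + k.1 * tt G x) / q)))) := by
    intro G hG k
    obtain ⟨h1, h2⟩ := (hm G).1 hG
    rw [pd, hh_PoisF h1.1, tt_PoisF (hT _ h2), iC_and, iC_pos (prim_two_of_hh h1.1), Dat.PP]
    ring
  have epa : ∀ G ∈ A, ∀ k : V, pa d (vg k G, G.2) x = d.g (vx G.2 x) * (om (dt x) : ℂ) *
      (E d.x1 ((k.2 + k.1 * tt G x) / d.H2) * E d.x2 (k.1 / d.H)) := by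
    intro G hG k
    obtain ⟨h1, h2⟩ := (hm G).1 hG
    rw [pa, hh_PoisF h1.1, tt_PoisF (hT _ h2), iC_pos (prim_two_of_hh h1.1)]
    ring
  have hone : Nat.Coprime (ct ((1, 0) : V)) q := by simp [ct]
  have hS : Summable fun P => ‖pd d q P x‖ := by
    refine (unf_PoisF hA x T A hT hm (fun P => ‖pd d q P x‖) (fun P h => hpd P (norm_ne_zero_iff.1 h))
      (fun G => ∑' k : V, ‖pd d q (vg k G, G.2) x‖) fun G hG => Summable.hasSum ?_).summable
    have h1 := (hP q (1, 0) (tt G x) d.x1 d.x2 d.H2 d.H hq hone h0.1 h0.2).1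
    refine Summable.of_nonneg_of_le (fun _ => norm_nonneg _) (fun k => ?_)
      (h1.mul_left (‖d.g (vx G.2 x) * (om (dt x) : ℂ)‖ * ‖((|d.H2| * |d.H| / q : ℝ) : ℂ)‖))
    rw [epd G hG]
    exact nrm_PoisF _ _ _ _
  refine ⟨hS, ∑ G ∈ A, d.g (vx G.2 x) * (om (dt x) : ℂ) *
    (((|d.H2| * |d.H| / q : ℝ) : ℂ) * (Eh d.x1 0 * Eh d.x2 0)), fun w hw => ?_⟩
  have hSa : Summable fun P => pa d P x * ind q (om2 w P.1) :=
    summable_of_hasFiniteSupport ((hF d.al d.H2 d.H x hal).subset fun P h =>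
      pa_supA hd (left_ne_zero_of_mul h))
  have hSd : Summable fun P => pd d q P x * ind q (om2 w P.1) := by
    refine Summable.of_norm_bounded hS fun P => ?_
    rw [norm_mul]
    exact mul_le_of_le_one_right (norm_nonneg _) (norm_iC_le _)
  have h1 := unf2_PoisF hA x T A hT hm q w _ hpa hSa
  have h2 := unf2_PoisF hA x T A hT hm q w _ hpd hSd
  have h3 : lnF d q x w = ∑ G ∈ A, d.g (vx G.2 x) * (om (dt x) : ℂ) *
      (((|d.H2| * |d.H| / q : ℝ) : ℂ) * (Eh d.x1 0 * Rl d.x2 d.H (Int.gcd (om2 w G.2) q))) := by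
    rw [lnF, tsum_eq_sum (s := A)]
    · refine sum_congr rfl fun G hG => ?_
      rw [iC_pos ((hm G).1 hG).1, Dat.PP]
      ring
    · intro G hG
      by_contra h
      simp only [mul_ne_zero_iff] at h
      exact hG ((hm G).2 ⟨iC_ne_zero h.1.1.1.1, h.1.1.1.2, Complex.ofReal_ne_zero.1 h.1.1.2⟩)
  rw [h1, h2, h3, ← sum_add_distrib, ← sum_add_distrib]
  refine sum_congr rfl fun G hG => ?_
  have h4 := ((hm G).1 hG).1.1
  have h5 : Nat.Coprime (ct ((om2 w G.2, om2 G.1 w) : V)) q := by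
    rw [ct_PoisF h4]; exact (mem_PQ.1 hw).2.2
  obtain ⟨h6, h7⟩ := hP q _ (tt G x) d.x1 d.x2 d.H2 d.H hq h5 h0.1 h0.2
  rw [split_PoisF q hq _ _ _ _ _ _ _ h6] at h7
  simp only [epa G hG, epd G hG, mul_assoc (d.g (vx G.2 x) * (om (dt x) : ℂ)), tsum_mul_left]
  rw [h7]
  ring

end Pool.Agent.MP_c853c5_nt.W
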