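import Mathlib
import Pool.Agent.MP_2a1f0e_nt.Kernel

set_option autoImplicit false

open Finset MeasureTheory
open scoped FourierTransform SchwartzMap

namespace Pool.Agent.MP_c853c5_nt.W.Po

open Pool.Agent.MP_2a1f0e_nt

lemma cont_ex : Continuous ex := by
  unfold ex
  fun_prop

lemma four_ex (f : ℝ → ℂ) (w : ℝ) : 𝓕 f w = ∫ v : ℝ, ex (-(v * w)) * f v := by
  rw [Real.fourier_real_eq_integral_exp_smul]
  refine integral_congr_ae (Filter.Eventually.of_forall fun v => ?_)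
  simp only [smul_eq_mul]
  congr 1
  unfold ex
  rw [mul_comm]
  congr 3
  ring

lemma dec (f : 𝓢(ℝ, ℂ)) : ∃ C : ℝ, 0 ≤ C ∧ ∀ x, ‖f x‖ ≤ C / (1 + |x|) ^ 2 := by
  refine ⟨2 ^ 2 * (Finset.Iic ((2, 0) : ℕ × ℕ)).sup
    (fun m => SchwartzMap.seminorm ℝ m.1 m.2) f, by positivity, fun x => ?_⟩
  have h := SchwartzMap.one_add_le_sup_seminorm_apply (𝕜 := ℝ) (m := (2, 0)) (k := 2) (n := 0)
    le_rfl le_rfl f x
  rw [norm_iteratedFDeriv_zero, Real.norm_eq_abs] at h
  rw [le_div_iff₀ (by positivity), mul_comm]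
  exact h

lemma sum_ker {c : ℝ} (hc : c ≠ 0) : Summable fun n : ℤ => 1 / (1 + |c| * |(n : ℝ)| / 2) ^ 2 := by
  have hc' : 0 < |c| := abs_pos.2 hc
  refine Summable.of_norm_bounded_eventually
    ((Real.summable_one_div_int_pow.2 one_lt_two).mul_left (4 / |c| ^ 2)) ?_
  filter_upwards [(Set.finite_singleton (0 : ℤ)).compl_mem_cofinite] with m hm
  have hm' : (m : ℝ) ≠ 0 := Int.cast_ne_zero.2 hm
  have hm2 : 0 < |(m : ℝ)| := abs_pos.2 hm'
  rw [Real.norm_eq_abs, abs_of_nonneg (by positivity), ← sq_abs (m : ℝ)]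
  calc 1 / (1 + |c| * |(m : ℝ)| / 2) ^ 2 ≤ 1 / (|c| * |(m : ℝ)| / 2) ^ 2 := by
        gcongr
        linarith
    _ = _ := by field_simp; ring

/-- summability along an arithmetic progression, uniformly in the shift -/
lemma unif (f : 𝓢(ℝ, ℂ)) {c : ℝ} (hc : c ≠ 0) : ∃ B : ℝ, ∀ s : ℝ,
    (Summable fun n : ℤ => ‖f (c * n + s)‖) ∧ ∑' n : ℤ, ‖f (c * n + s)‖ ≤ B := by
  obtain ⟨C, hC, hf⟩ := dec f
  have hc' : 0 < |c| := abs_pos.2 hc
  refine ⟨C * ∑' n : ℤ, 1 / (1 + |c| * |(n : ℝ)| / 2) ^ 2, fun s => ?_⟩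
  set n0 : ℤ := round (-s / c) with hn0
  have hb : ∀ n : ℤ, ‖f (c * n + s)‖ ≤
      C * (1 / (1 + |c| * |(((Equiv.subRight n0) n : ℤ) : ℝ)| / 2) ^ 2) := by
    intro n
    refine (hf _).trans ?_
    rw [mul_one_div]
    have h1 : |-s / c - n0| ≤ 1 / 2 := abs_sub_round _
    have e : c * n + s = c * (((n - n0 : ℤ) : ℝ) - (-s / c - n0)) := by
      push_cast
      field_simp
      ring
    have h2 : |c| * |((n - n0 : ℤ) : ℝ)| / 2 ≤ |c * n + s| := by
      rw [e, abs_mul, mul_div_assoc]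
      gcongr
      rcases eq_or_ne (n - n0) 0 with h | h
      · rw [h]
        simp only [Int.cast_zero, abs_zero, zero_div]
        exact abs_nonneg _
      · have h3 : (1 : ℝ) ≤ |((n - n0 : ℤ) : ℝ)| := by
          rw [← Int.cast_abs]
          exact_mod_cast Int.one_le_abs h
        have h4 := abs_sub_abs_le_abs_sub ((n - n0 : ℤ) : ℝ) (-s / c - n0)
        linarith
    simp only [Equiv.subRight_apply]
    gcongr
  have hs : Summable fun n : ℤ =>
      C * (1 / (1 + |c| * |(((Equiv.subRight n0) n : ℤ) : ℝ)| / 2) ^ 2) :=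
    ((Equiv.subRight n0).summable_iff.2 (sum_ker hc)).mul_left C
  have h1 := Summable.of_nonneg_of_le (fun n => norm_nonneg _) hb hs
  refine ⟨h1, (h1.tsum_le_tsum hb hs).trans (le_of_eq ?_)⟩
  rw [tsum_mul_left, (Equiv.subRight n0).tsum_eq
    (fun n : ℤ => 1 / (1 + |c| * |(n : ℝ)| / 2) ^ 2)]

/-- summability on a sheared lattice -/
lemma sum2 (f g : 𝓢(ℝ, ℂ)) {c c' : ℝ} (hc : c ≠ 0) (hc' : c' ≠ 0) (s : ℝ) (u : ℤ → ℝ) :
    Summable fun v : ℤ × ℤ => ‖f (c * v.1 + s)‖ * ‖g (c' * v.2 + u v.1)‖ := by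
  obtain ⟨B, hB⟩ := unif g hc'
  obtain ⟨B', hB'⟩ := unif f hc
  rw [summable_prod_of_nonneg (fun v => by positivity)]
  refine ⟨fun h => ((hB (u h)).1.mul_left ‖f (c * h + s)‖), ?_⟩
  refine Summable.of_nonneg_of_le (fun h => tsum_nonneg fun _ => by positivity) (fun h => ?_)
    ((hB' s).1.mul_right B)
  simp only
  rw [tsum_mul_left]
  gcongr
  exact (hB (u h)).2

/-- twisted and scaled Poisson summation in one variable -/
lemma pois1 (f : 𝓢(ℝ, ℂ)) {H : ℝ} (hH : H ≠ 0) (s α : ℝ) :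
    ∑' d : ℤ, f ((d + s) / H) * ex (α * d) =
      ∑' b : ℤ, (|H| : ℝ) * (𝓕 f : 𝓢(ℝ, ℂ)) (H * (b - α)) * ex (s * (b - α)) := by
  set g : ℝ → ℂ := fun x => f ((x + s) / H) * ex (α * x) with hg
  have hc : Continuous g :=
    (f.continuous.comp (by fun_prop)).mul (cont_ex.comp (by fun_prop))
  have hF : ∀ w : ℝ, 𝓕 g w =
      (|H| : ℝ) * (𝓕 f : 𝓢(ℝ, ℂ)) (H * (w - α)) * ex (s * (w - α)) := by
    intro w
    rw [SchwartzMap.fourier_coe, four_ex, four_ex]
    have h1 := MeasureTheory.Measure.integral_comp_div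
      (fun z : ℝ => ex (-(z * (H * (w - α)))) * f z) H
    have h2 := integral_add_right_eq_self (μ := volume)
      (fun x : ℝ => ex (-(x / H * (H * (w - α)))) * f (x / H)) s
    rw [Complex.real_smul] at h1
    rw [← h1, ← h2, ← integral_mul_const]
    refine integral_congr_ae (Filter.Eventually.of_forall fun x => ?_)
    simp only [hg]
    have e : -(x * w) + α * x = -((x + s) / H * (H * (w - α))) + s * (w - α) := by
      field_simp
      ring
    calc ex (-(x * w)) * (f ((x + s) / H) * ex (α * x))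
        = f ((x + s) / H) * ex (-(x * w) + α * x) := by rw [ex_add]; ring
      _ = _ := by rw [e, ex_add]; ring
  have hO : g =O[Filter.cocompact ℝ] fun x : ℝ => |x| ^ (-(2 : ℝ)) := by
    obtain ⟨C, hC, hf⟩ := dec f
    have hH' : 0 < |H| := abs_pos.2 hH
    refine Asymptotics.IsBigO.of_bound (C * (4 * |H| ^ 2)) ?_
    filter_upwards [(isCompact_Icc (a := -(2 * |s| + 1)) (b := 2 * |s| + 1)).compl_mem_cocompact]
      with x hx
    have hx1 : 2 * |s| + 1 < |x| := by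
      by_contra h
      exact hx (abs_le.1 (not_lt.1 h))
    have hs0 := abs_nonneg s
    have hx0 : 0 < |x| := by linarith
    have h2 : |x| / 2 ≤ |x + s| := by
      have := abs_sub_abs_le_abs_sub x (-s)
      rw [abs_neg, sub_neg_eq_add] at this
      linarith
    rw [Real.norm_of_nonneg (Real.rpow_nonneg hx0.le _), Real.rpow_neg hx0.le, Real.rpow_two]
    simp only [hg]
    rw [norm_mul, norm_ex, mul_one]
    refine (hf _).trans ?_
    rw [abs_div]
    calc C / (1 + |x + s| / |H|) ^ 2 ≤ C / (|x| / 2 / |H|) ^ 2 := by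
          gcongr
          have : |x| / 2 / |H| ≤ |x + s| / |H| := by gcongr
          linarith
      _ = _ := by field_simp; ring
  have hS : Summable fun n : ℤ => 𝓕 g n := by
    obtain ⟨B, hB⟩ := unif (𝓕 f) hH
    refine Summable.of_norm ?_
    refine ((hB (-(H * α))).1.mul_left |H|).congr fun n => ?_
    rw [hF, norm_mul, norm_mul, norm_ex, mul_one, Complex.norm_real, Real.norm_eq_abs, abs_abs]
    congr 3
    ring
  have h1 := Real.tsum_eq_tsum_fourier_of_rpow_decay_of_summable hc one_lt_two hO hS 0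
  simp only [zero_add, hF, QuotientAddGroup.mk_zero, fourier_eval_zero, mul_one] at h1
  exact h1

lemma orth (q : ℕ) (hq : 1 ≤ q) (m : ℤ) :
    (if (q : ℤ) ∣ m then (1 : ℂ) else 0) = (1 / q : ℂ) * ∑ k ∈ range q, ex (k * (m / q)) := by
  have hq0 : (q : ℝ) ≠ 0 := by positivity
  have hq1 : (q : ℂ) ≠ 0 := by exact_mod_cast hq0
  simp only [ex_nat_mul]
  split_ifs with h
  · obtain ⟨j, rfl⟩ := h
    have : ex ((((q : ℤ) * j : ℤ) : ℝ) / q) = 1 := by
      rw [← ex_int j]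
      congr 1
      push_cast
      field_simp
    rw [this]
    simp [hq1]
  · have h1 : ex ((m : ℝ) / q) ≠ 1 := by
      intro h2
      unfold ex at h2
      obtain ⟨j, hj⟩ := Complex.exp_eq_one_iff.1 h2
      apply h
      refine ⟨j, ?_⟩
      have h3 : ((2 * Real.pi * (m / q) : ℝ) : ℂ) = ((j * (2 * Real.pi) : ℝ) : ℂ) := by
        apply mul_left_cancel₀ Complex.I_ne_zero
        rw [hj]
        push_cast
        ring
      have h4 : 2 * Real.pi * (m / q) = j * (2 * Real.pi) := by exact_mod_cast h3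
      have h5 : (m : ℝ) = q * j := by
        have := Real.pi_pos
        field_simp at h4
        linarith
      exact_mod_cast h5
    have h2 : ex ((m : ℝ) / q) ^ q = 1 := by
      rw [← ex_nat_mul, ← ex_int m]
      congr 1
      field_simp
    rw [geom_sum_eq h1, h2]
    simp

lemma class_sum (q : ℕ) (hq : 1 ≤ q) (w1 w2 : ℤ) (hw : ∃ x y z : ℤ, x * w1 + y * w2 + z * q = 1)
    (v : ℤ × ℤ) :
    ∑ k ∈ range q, (if (q : ℤ) ∣ v.1 + k * w1 ∧ (q : ℤ) ∣ v.2 + k * w2 then (1 : ℂ) else 0) =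
      if (q : ℤ) ∣ w1 * v.2 - w2 * v.1 then 1 else 0 := by
  obtain ⟨x, y, z, hxyz⟩ := hw
  have hq0 : (0 : ℤ) < q := by exact_mod_cast hq
  split_ifs with h
  · set k0 : ℤ := (-(x * v.1 + y * v.2)) % q with hk0
    have h0 : 0 ≤ k0 := Int.emod_nonneg _ hq0.ne'
    have h1 : k0 < q := Int.emod_lt_of_pos _ hq0
    have hd : (q : ℤ) ∣ k0 + (x * v.1 + y * v.2) := by
      have := Int.emod_add_mul_ediv (-(x * v.1 + y * v.2)) q
      exact ⟨-((-(x * v.1 + y * v.2)) / q), by linarith⟩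
    obtain ⟨j, hj⟩ := hd
    obtain ⟨i, hi⟩ := h
    rw [Finset.sum_eq_single k0.toNat]
    · rw [Int.toNat_of_nonneg h0, if_pos]
      constructor
      · exact ⟨j * w1 + z * v.1 - y * i, by linear_combination w1 * hj - y * hi - v.1 * hxyz⟩
      · exact ⟨j * w2 + z * v.2 + x * i, by linear_combination w2 * hj + x * hi - v.2 * hxyz⟩
    · intro k hk hne
      rw [if_neg]
      rintro ⟨⟨a, ha⟩, ⟨b, hb⟩⟩
      apply hne
      have hk' : (k : ℤ) < q := by exact_mod_cast Finset.mem_range.1 hk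
      have hdv : (q : ℤ) ∣ k - k0 :=
        ⟨x * a + y * b - j + z * k, by linear_combination x * ha + y * hb - hj - (k : ℤ) * hxyz⟩
      have := Int.eq_zero_of_abs_lt_dvd hdv (abs_lt.2 ⟨by omega, by omega⟩)
      omega
    · intro hk
      exact absurd (Finset.mem_range.2 (by omega)) hk
  · refine Finset.sum_eq_zero fun k _ => if_neg ?_
    rintro ⟨⟨a, ha⟩, ⟨b, hb⟩⟩
    exact h ⟨w1 * b - w2 * a, by linear_combination w1 * hb - w2 * ha⟩

lemma class_tsum (q : ℕ) (hq : 1 ≤ q) (c1 c2 : ℤ) (G : ℤ × ℤ → ℂ) :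
    ∑' v : ℤ × ℤ, G (q * v.1 - c1, -(q * v.2 + c2)) =
      ∑' v : ℤ × ℤ, (if (q : ℤ) ∣ v.1 + c1 ∧ (q : ℤ) ∣ v.2 + c2 then (1 : ℂ) else 0) * G v := by
  have hq0 : (q : ℤ) ≠ 0 := by
    have : (0 : ℤ) < q := by exact_mod_cast hq
    exact this.ne'
  have hinj : Function.Injective fun v : ℤ × ℤ => ((q * v.1 - c1, -(q * v.2 + c2)) : ℤ × ℤ) := by
    intro a b h
    simp only [Prod.mk.injEq] at h
    exact Prod.ext (mul_left_cancel₀ hq0 (by linarith [h.1])) (mul_left_cancel₀ hq0 (by linarith [h.2]))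
  rw [← hinj.tsum_eq (f := fun v : ℤ × ℤ =>
    (if (q : ℤ) ∣ v.1 + c1 ∧ (q : ℤ) ∣ v.2 + c2 then (1 : ℂ) else 0) * G v)]
  · refine tsum_congr fun v => ?_
    rw [if_pos, one_mul]
    exact ⟨⟨v.1, by simp⟩, ⟨-v.2, by simp⟩⟩
  · intro v hv
    have h : (q : ℤ) ∣ v.1 + c1 ∧ (q : ℤ) ∣ v.2 + c2 := by
      by_contra h
      apply hv
      simp only [if_neg h, zero_mul]
    obtain ⟨⟨a, ha⟩, ⟨b, hb⟩⟩ := h
    exact ⟨(a, -b), Prod.ext (by simp only; linarith) (by simp only; linarith)⟩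

lemma sum_left (f1 f2 : 𝓢(ℝ, ℂ)) {H2 H : ℝ} (h2 : H2 ≠ 0) (hH : H ≠ 0) (β : ℝ) :
    Summable fun v : ℤ × ℤ => ‖f1 ((v.2 + v.1 * β) / H2) * f2 (v.1 / H)‖ := by
  refine (sum2 f2 f1 (inv_ne_zero hH) (inv_ne_zero h2) 0 (fun h => h * β / H2)).congr fun v => ?_
  rw [norm_mul, mul_comm]
  congr 3 <;> field_simp
  ring

lemma sum_right (f1 f2 : 𝓢(ℝ, ℂ)) {H2 H : ℝ} (h2 : H2 ≠ 0) (hH : H ≠ 0) (β : ℝ) (q : ℕ)
    (hq : 1 ≤ q) :
    Summable fun v : ℤ × ℤ => ‖f1 (H2 * v.1 / q) * f2 (-(H * (v.2 + v.1 * β) / q))‖ := by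
  have hq0 : (q : ℝ) ≠ 0 := by positivity
  refine (sum2 f1 f2 (div_ne_zero h2 hq0) (neg_ne_zero.2 (div_ne_zero hH hq0)) 0
    (fun h => -(H * (h * β) / q))).congr fun v => ?_
  rw [norm_mul]
  congr 3 <;> field_simp <;> ring

/-- Poisson summation on the self dual lattice `q ∣ w1 d - w2 h` -/
theorem pois2 (f1 f2 : 𝓢(ℝ, ℂ)) {H2 H : ℝ} (h2 : H2 ≠ 0) (hH : H ≠ 0) (β : ℝ) (q : ℕ)
    (hq : 1 ≤ q) (w1 w2 : ℤ) (hw : ∃ x y z : ℤ, x * w1 + y * w2 + z * q = 1) :
    ∑' v : ℤ × ℤ, (if (q : ℤ) ∣ w1 * v.2 - w2 * v.1 then (1 : ℂ) else 0) *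
        (f1 ((v.2 + v.1 * β) / H2) * f2 (v.1 / H)) =
      ((|H2| * |H| / q : ℝ) : ℂ) *
        ∑' v : ℤ × ℤ, (if (q : ℤ) ∣ w1 * v.2 - w2 * v.1 then (1 : ℂ) else 0) *
          ((𝓕 f1 : 𝓢(ℝ, ℂ)) (H2 * v.1 / q) *
            (𝓕 f2 : 𝓢(ℝ, ℂ)) (-(H * (v.2 + v.1 * β) / q))) := by
  have hq0 : (q : ℝ) ≠ 0 := by positivity
  have hq1 : (q : ℂ) ≠ 0 := by exact_mod_cast hq0
  set G : ℤ × ℤ → ℂ := fun v => (𝓕 f1 : 𝓢(ℝ, ℂ)) (H2 * v.1 / q) *
    (𝓕 f2 : 𝓢(ℝ, ℂ)) (-(H * (v.2 + v.1 * β) / q)) with hG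
  have hGs : Summable fun v => ‖G v‖ := sum_right _ _ h2 hH β q hq
  set F : ℤ × ℤ → ℂ := fun v => f1 ((v.2 + v.1 * β) / H2) * f2 (v.1 / H) with hF
  have hFs : Summable fun v => ‖F v‖ := sum_left _ _ h2 hH β
  -- one additive character
  have key : ∀ k : ℕ, ∑' v : ℤ × ℤ, ex (k * (((w1 * v.2 - w2 * v.1 : ℤ) : ℝ) / q)) * F v =
      ((|H2| * |H| : ℝ) : ℂ) * ∑' v : ℤ × ℤ, G (q * v.1 - k * w1, -(q * v.2 + k * w2)) := by
    intro k
    have s1 : Summable fun v : ℤ × ℤ =>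
        ex (k * (((w1 * v.2 - w2 * v.1 : ℤ) : ℝ) / q)) * F v :=
      Summable.of_norm (hFs.congr fun v => by rw [norm_mul (ex _), norm_ex, one_mul])
    rw [s1.tsum_prod]
    set T : ℤ × ℤ → ℂ := fun v => (|H2| : ℝ) * (𝓕 f1 : 𝓢(ℝ, ℂ)) (H2 * (v.2 - k * w1 / q)) *
      (f2 ((v.1 + 0) / H) * ex ((β * (v.2 - k * w1 / q) - k * w2 / q) * v.1)) with hT
    have e1 : ∀ h : ℤ, ∑' d : ℤ, ex (k * (((w1 * d - w2 * h : ℤ) : ℝ) / q)) * F (h, d) =
        ∑' b : ℤ, T (h, b) := by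
      intro h
      have h1 := pois1 f1 h2 (h * β) (k * w1 / q)
      calc _ = ∑' d : ℤ, (f1 ((d + h * β) / H2) * ex (k * w1 / q * d)) *
            (f2 (h / H) * ex (-(k * w2 / q) * h)) := by
            refine tsum_congr fun d => ?_
            have e : (k * (((w1 * d - w2 * h : ℤ) : ℝ) / q)) =
                k * w1 / q * d + -(k * w2 / q) * h := by
              push_cast
              ring
            rw [e, ex_add]
            simp only [hF]
            ring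
        _ = _ := by
            rw [tsum_mul_right, h1, ← tsum_mul_right]
            refine tsum_congr fun b => ?_
            have e : (β * (b - k * w1 / q) - k * w2 / q) * h =
                h * β * (b - k * w1 / q) + -(k * w2 / q) * h := by ring
            simp only [hT]
            rw [e, ex_add, add_zero]
            ring
    have s2 : Summable T := by
      refine Summable.of_norm ?_
      refine ((sum2 f2 (𝓕 f1) (inv_ne_zero hH) h2 0
        (fun _ => -(H2 * (k * w1 / q)))).mul_left |H2|).congr fun v => ?_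
      simp only [hT]
      rw [norm_mul, norm_mul, norm_mul, norm_ex, mul_one, Complex.norm_real, Real.norm_eq_abs,
        abs_abs, mul_assoc]
      rw [mul_comm ‖f2 _‖]
      congr 4
      · ring
      · field_simp
        ring
    simp only [e1]
    rw [← s2.tsum_comm']
    rotate_left
    · exact fun h => s2.prod_factor h
    · exact fun b => s2.prod_symm.prod_factor b
    have s3 : Summable fun v : ℤ × ℤ => G (q * v.1 - k * w1, -(q * v.2 + k * w2)) := by
      refine Summable.of_norm ?_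
      refine (sum2 (𝓕 f1) (𝓕 f2) h2 hH (-(H2 * (k * w1) / q))
        (fun b => H * (k * w2 / q - (b - k * w1 / q) * β))).congr fun v => ?_
      simp only [hG]
      rw [norm_mul]
      congr 3 <;> push_cast <;> field_simp <;> ring
    rw [s3.tsum_prod, ← tsum_mul_left]
    refine tsum_congr fun b => ?_
    simp only [hT]
    rw [tsum_mul_left, pois1 f2 hH 0 (β * (b - k * w1 / q) - k * w2 / q), ← tsum_mul_left,
      ← tsum_mul_left]
    refine tsum_congr fun a => ?_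
    simp only [hG]
    rw [zero_mul, ex_zero, mul_one]
    have e2 : H2 * ((b : ℝ) - k * w1 / q) = H2 * ((q * b - k * w1 : ℤ) : ℝ) / q := by
      push_cast
      field_simp
    have e3 : H * ((a : ℝ) - (β * (b - k * w1 / q) - k * w2 / q)) =
        -(H * (((-(q * a + k * w2) : ℤ) : ℝ) + ((q * b - k * w1 : ℤ) : ℝ) * β) / q) := by
      push_cast
      field_simp
      ring
    rw [e2, e3]
    push_cast
    ring
  have sA : ∀ k ∈ range q, Summable fun v : ℤ × ℤ =>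
      ex (k * (((w1 * v.2 - w2 * v.1 : ℤ) : ℝ) / q)) * F v := fun k _ =>
    Summable.of_norm (hFs.congr fun v => by rw [norm_mul (ex _), norm_ex, one_mul])
  have sB : ∀ k ∈ range q, Summable fun v : ℤ × ℤ =>
      (if (q : ℤ) ∣ v.1 + k * w1 ∧ (q : ℤ) ∣ v.2 + k * w2 then (1 : ℂ) else 0) * G v := by
    intro k _
    refine Summable.of_norm_bounded hGs fun v => ?_
    split_ifs <;> simp
  calc _ = ∑' v : ℤ × ℤ, (1 / q : ℂ) * ∑ k ∈ range q,
        ex (k * (((w1 * v.2 - w2 * v.1 : ℤ) : ℝ) / q)) * F v := by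
        refine tsum_congr fun v => ?_
        rw [orth q hq, ← Finset.sum_mul, mul_assoc]
    _ = (1 / q : ℂ) * ∑ k ∈ range q, ((|H2| * |H| : ℝ) : ℂ) * ∑' v : ℤ × ℤ,
        (if (q : ℤ) ∣ v.1 + k * w1 ∧ (q : ℤ) ∣ v.2 + k * w2 then (1 : ℂ) else 0) * G v := by
        rw [tsum_mul_left, Summable.tsum_finsetSum sA]
        congr 1
        refine Finset.sum_congr rfl fun k _ => ?_
        rw [key k, class_tsum q hq]
    _ = _ := by
        rw [← Finset.mul_sum, ← Summable.tsum_finsetSum sB, ← mul_assoc]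
        congr 1
        · push_cast
          field_simp
        · refine tsum_congr fun v => ?_
          rw [← Finset.sum_mul, class_sum q hq w1 w2 hw v]

end Pool.Agent.MP_c853c5_nt.W.Po
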