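import Pool.Agent.MP_c853c5_nt.W.Defs
import Pool.Agent.MP_c853c5_nt.W.Po2

set_option autoImplicit false

open Finset MeasureTheory
open scoped FourierTransform SchwartzMap

namespace Pool.Agent.MP_c853c5_nt.W

open Pool.Agent.MP_2a1f0e_nt Pool.Agent.MP_2a1f0e_nt.GM Pool.Agent.MP_2a1f0e_nt.DH

lemma contDiff_E_PoisZ (ξ : ℝ) : ContDiff ℝ (⊤ : ℕ∞) (E ξ) := by
  unfold E ex
  refine (Complex.ofRealCLM.contDiff.comp contDiff_om).mul ?_
  refine Complex.contDiff_exp.comp (contDiff_const.mul (Complex.ofRealCLM.contDiff.comp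
    (f := fun z : ℝ => 2 * Real.pi * (ξ * z)) ?_))
  fun_prop

lemma supp_E_PoisZ (ξ : ℝ) : HasCompactSupport (E ξ) := by
  refine HasCompactSupport.intro (isCompact_Icc (a := (1 : ℝ)) (b := 5 / 3)) fun x hx => ?_
  have h : om x = 0 := om_eq_zero (by
    by_contra h
    rw [not_or, not_le, not_le] at h
    exact hx ⟨h.1.le, h.2.le⟩)
  simp only [E, h, Complex.ofReal_zero, zero_mul]

/-- the bump times a character as a Schwartz function -/
noncomputable def ES (ξ : ℝ) : 𝓢(ℝ, ℂ) := (supp_E_PoisZ ξ).toSchwartzMap (contDiff_E_PoisZ ξ)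

lemma ES_apply (ξ z : ℝ) : ES ξ z = E ξ z := rfl

lemma ES_four (ξ y : ℝ) : (𝓕 (ES ξ) : 𝓢(ℝ, ℂ)) y = Eh ξ y := by
  rw [SchwartzMap.fourier_coe, Po.four_ex]
  unfold Eh FT1
  refine integral_congr_ae (Filter.Eventually.of_forall fun v => ?_)
  simp only [ES_apply]
  rw [mul_comm, mul_comm v y]

theorem pois1_stmt : Pois1Stmt := by
  intro ξ H c θ hH
  have h := Po.pois1 (ES ξ) hH c θ
  simp only [ES_apply, ES_four, mul_comm c] at h
  rw [h]
  refine Summable.hasSum (Summable.of_norm ?_)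
  obtain ⟨B, hB⟩ := Po.unif (𝓕 (ES ξ)) hH
  refine ((hB (-(H * θ))).1.mul_left |H|).congr fun n => ?_
  rw [ES_four, norm_mul, norm_mul, norm_ex, mul_one, Complex.norm_real, Real.norm_eq_abs, abs_abs]
  congr 3
  ring

theorem poisz_stmt : PoisZStmt := by
  intro q w β ξ₁ ξ₂ H2 H hq hw h2 hH
  have hb : ∃ x y z : ℤ, x * w.1 + y * w.2 + z * q = 1 := by
    have h1 : IsCoprime ((ct w : ℕ) : ℤ) (q : ℤ) := Nat.isCoprime_iff_coprime.2 hw
    obtain ⟨a, b, hab⟩ := h1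
    have h3 := Int.gcd_eq_gcd_ab w.1 w.2
    refine ⟨a * Int.gcdA w.1 w.2, a * Int.gcdB w.1 w.2, b, ?_⟩
    unfold ct at hab
    rw [h3] at hab
    linear_combination hab
  have hi : ∀ k : V, ind q (om2 w k) =
      if (q : ℤ) ∣ w.1 * k.2 - w.2 * k.1 then (1 : ℂ) else 0 := by
    intro k
    unfold ind iC om2
    congr
  refine ⟨by simpa only [ES_four] using Po.sum_right (𝓕 (ES ξ₁)) (𝓕 (ES ξ₂)) h2 hH β q hq, ?_⟩
  have h := Po.pois2 (ES ξ₁) (ES ξ₂) h2 hH β q hq w.1 w.2 hb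
  simp only [ES_apply, ES_four] at h
  rw [← tsum_mul_left] at h
  simp only [hi]
  calc _ = _ := tsum_congr fun k => mul_comm _ _
    _ = _ := h
    _ = _ := tsum_congr fun k => by ring

end Pool.Agent.MP_c853c5_nt.W
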