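import Pool.Agent.MP_c853c5_nt.W.Api

set_option autoImplicit false

open Finset MeasureTheory
open scoped ENNReal ComplexConjugate

namespace Pool.Agent.MP_c853c5_nt.W

open Pool.Agent.MP_2a1f0e_nt Pool.Agent.MP_2a1f0e_nt.GM Pool.Agent.MP_2a1f0e_nt.DH

lemma psiD_mul_Psm {m n : ℕ} (h : m.Coprime n) : psiD (m * n) = psiD m * psiD n := by
  unfold psiD
  rw [h.primeFactors_mul, prod_union h.disjoint_primeFactors]
  push_cast
  ring

theorem psm_stmt : PsmStmt := by
  intro q hq
  have hq0 : q ≠ 0 := by omega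
  let f : ArithmeticFunction ℝ := ⟨fun n => 1 / psiD n, by simp [psiD]⟩
  have hfa : ∀ n, f n = 1 / psiD n := fun _ => rfl
  have hf : f.IsMultiplicative := by
    refine ⟨by simp [hfa, psiD], fun {m n} h => ?_⟩
    rw [hfa, hfa, hfa, psiD_mul_Psm h, one_div_mul_one_div]
  have hp : ∀ p ∈ q.primeFactors, p.Prime := fun p hp => Nat.prime_of_mem_primeFactors hp
  have hpf : (∏ p ∈ q.primeFactors, p).primeFactors = q.primeFactors := Nat.primeFactors_prod hp
  have hsq : Squarefree (∏ p ∈ q.primeFactors, p) := by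
    refine Finset.squarefree_prod_of_pairwise_isCoprime (fun a ha b hb hab => ?_)
      fun p h => (hp p h).squarefree
    exact Nat.coprime_iff_isRelPrime.1 ((Nat.coprime_primes (hp a ha) (hp b hb)).2 hab)
  have h1 := hf.prodPrimeFactors_one_sub_of_squarefree f hsq
  rw [hpf] at h1
  have h2 : ∑ d ∈ (∏ p ∈ q.primeFactors, p).divisors, (ArithmeticFunction.moebius d : ℝ) * f d =
      ∑ e ∈ q.divisors, (ArithmeticFunction.moebius e : ℝ) / psiD e := by
    rw [sum_congr rfl fun d _ => by rw [hfa, mul_one_div]]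
    refine sum_subset (Nat.divisors_subset_of_dvd hq0 (Nat.prod_primeFactors_dvd q))
      fun e he hne => ?_
    have h3 : ¬ Squarefree e := fun hs => hne <| Nat.mem_divisors.2 ⟨by
      rw [← Nat.prod_primeFactors_of_squarefree hs]
      exact prod_dvd_prod_of_subset _ _ _
        (Nat.primeFactors_mono (Nat.dvd_of_mem_divisors he) hq0), hsq.ne_zero⟩
    rw [ArithmeticFunction.moebius_eq_zero_of_not_squarefree h3, Int.cast_zero, zero_div]
  rw [← h2, ← h1, psiD, div_mul_cancel_left₀ (Nat.cast_ne_zero.2 hq0), ← prod_inv_distrib]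
  refine prod_congr rfl fun p h => ?_
  have h4 : (0 : ℝ) < p := Nat.cast_pos.2 (hp p h).pos
  rw [hfa, psiD, (hp p h).primeFactors, prod_singleton]
  field_simp
  ring

end Pool.Agent.MP_c853c5_nt.W
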