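import Pool.Agent.MP_c853c5_nt.W.Api
set_option autoImplicit false
open Finset MeasureTheory
open scoped ENNReal ComplexConjugate
namespace Pool.Agent.MP_c853c5_nt.W
open Pool.Agent.MP_2a1f0e_nt Pool.Agent.MP_2a1f0e_nt.GM Pool.Agent.MP_2a1f0e_nt.DH

noncomputable def mm_R1 (r : ℝ) (j : ℕ) : MM := ((r, -(-1 + j * r ^ 2) / r), (0, 1 / r))

noncomputable def nn_R1 (r : ℝ) (j : ℕ) (b : R2) : R2 :=
  (b.1 / r, (-1 + j * r ^ 2) * b.1 / r + b.2 * r)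

noncomputable def fl_R1 (r : ℝ) (a : R2) : ℕ := ⌊(a.2 / a.1 + 1) / r ^ 2⌋₊

noncomputable def dj_R1 (d : Dat) (r : ℝ) (j : ℕ) : Dat :=
  ⟨fun b => d.g (nn_R1 r j b) * iC (fl_R1 r (nn_R1 r j b) = j), d.al * r, d.x1, d.x2, d.H2, d.H⟩

lemma dt_mm_R1 {r : ℝ} (hr : 0 < r) (j : ℕ) : dt (mm_R1 r j) = 1 := by
  simp only [dt, mm_R1]
  field_simp
  ring

lemma nn_rt_R1 {r : ℝ} (hr : 0 < r) (j : ℕ) (a : R2) : nn_R1 r j (rt (mm_R1 r j) a) = a := by
  refine Prod.ext ?_ ?_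
  · simp only [nn_R1, rt, mm_R1]
    field_simp
    ring
  · simp only [nn_R1, rt, mm_R1]
    field_simp
    ring

lemma tt_rm_R1 {r : ℝ} (hr : 0 < r) (j : ℕ) (P : Pr) (x : MM) :
    tt P (rm (mm_R1 r j) x) = tt P x := by
  simp only [tt, vx_rm, rt, mm_R1, mul_zero, add_zero]
  exact mul_div_mul_right _ _ hr.ne'

lemma meas_nn_R1 (r : ℝ) (j : ℕ) : Measurable (nn_R1 r j) := by
  unfold nn_R1
  fun_prop

lemma meas_fl_R1 (r : ℝ) : Measurable (fl_R1 r) := by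
  unfold fl_R1
  exact Measurable.nat_floor (by fun_prop)

lemma adm_R1 {d : Dat} (h0 : 0 < d.al) (hd : Adm d.al d.g) {r : ℝ} (hr : 0 < r) (j : ℕ) :
    Adm (dj_R1 d r j).al (dj_R1 d r j).g := by
  refine ⟨?_, fun b => ?_, fun b hb => ?_⟩
  · exact (hd.1.comp (meas_nn_R1 r j)).mul (measurable_iC
      (((meas_fl_R1 r).comp (meas_nn_R1 r j)) (measurableSet_singleton j)))
  · exact (norm_mul_le _ _).trans (mul_le_one₀ (hd.2.1 _) (norm_nonneg _) (norm_iC_le _))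
  · obtain ⟨h1, h2, h3⟩ := hd.2.2 _ (left_ne_zero_of_mul hb)
    have h4 : fl_R1 r (nn_R1 r j b) = j := iC_ne_zero (right_ne_zero_of_mul hb)
    have ha : 0 < (nn_R1 r j b).1 := h0.trans_le h1
    have h5 : 0 ≤ ((nn_R1 r j b).2 / (nn_R1 r j b).1 + 1) / r ^ 2 := by
      have : -1 ≤ (nn_R1 r j b).2 / (nn_R1 r j b).1 := by
        rw [le_div_iff₀ ha]
        linarith [(abs_le.1 h3).1]
      exact div_nonneg (by linarith) (sq_nonneg r)
    obtain ⟨h6, h7⟩ := (Nat.floor_eq_iff h5).1 h4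
    have e1 : (nn_R1 r j b).1 = b.1 / r := rfl
    have hb1 : 0 < b.1 := by
      rw [e1] at ha
      exact (div_pos_iff_of_pos_right hr).1 ha
    have e2 : ((nn_R1 r j b).2 / (nn_R1 r j b).1 + 1) / r ^ 2 = j + b.2 / b.1 := by
      simp only [nn_R1]
      field_simp
      ring
    rw [e2] at h6 h7
    rw [e1] at h1 h2
    have h8 : 0 ≤ b.2 / b.1 := by linarith
    have h9 : b.2 / b.1 < 1 := by linarith
    rw [le_div_iff₀ hb1, zero_mul] at h8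
    rw [div_lt_one hb1] at h9
    refine ⟨(le_div_iff₀ hr).1 h1, ?_, ?_⟩
    · have := (div_le_iff₀ hr).1 h2
      change b.1 ≤ 4 * (d.al * r)
      linarith
    · rw [abs_of_nonneg h8]
      exact h9.le

lemma pk_sum_R1 {d : Dat} (h0 : 0 < d.al) (hd : Adm d.al d.g) {r : ℝ} (hr : 0 < r) (P : Pr)
    (x : MM) : pk d P x =
      ∑ j ∈ range (⌊2 / r ^ 2⌋₊ + 1), pk (dj_R1 d r j) P (rm (mm_R1 r j) x) := by
  have e : ∀ j, pk (dj_R1 d r j) P (rm (mm_R1 r j) x) =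
      pk d P x * iC (fl_R1 r (vx P.2 x) = j) := fun j => by
    simp only [pk, pa, dj_R1, vx_rm, nn_rt_R1 hr, dt_rm, dt_mm_R1 hr, tt_rm_R1 hr, mul_one]
    ring
  simp only [e, ← Finset.mul_sum]
  by_cases hg : d.g (vx P.2 x) = 0
  · simp [pk, pa, hg]
  obtain ⟨h1, -, h3⟩ := hd.2.2 _ hg
  have ha : 0 < (vx P.2 x).1 := h0.trans_le h1
  have hm : fl_R1 r (vx P.2 x) ∈ range (⌊2 / r ^ 2⌋₊ + 1) := by
    rw [Finset.mem_range, Nat.lt_succ_iff]
    refine Nat.floor_le_floor (div_le_div_of_nonneg_right ?_ (sq_nonneg r))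
    have : (vx P.2 x).2 / (vx P.2 x).1 ≤ 1 := (div_le_one ha).2 (abs_le.1 h3).2
    linarith
  rw [Finset.sum_eq_single_of_mem _ hm fun j _ hj => iC_neg fun h => hj h.symm, iC_pos rfl,
    mul_one]

lemma vf_sum_R1 (hF : FinStmt) {d : Dat} (h0 : 0 < d.al) (hd : Adm d.al d.g) {r : ℝ} (hr : 0 < r)
    (q : ℕ) (x : MM) (w : V) : vf q Prod.fst (pk d) x w =
      ∑ j ∈ range (⌊2 / r ^ 2⌋₊ + 1),
        vf q Prod.fst (pk (dj_R1 d r j)) (rm (mm_R1 r j) x) w := by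
  unfold vf
  rw [← Summable.tsum_finsetSum]
  · refine tsum_congr fun P => ?_
    rw [pk_sum_R1 h0 hd hr, Finset.sum_mul]
  · intro j _
    refine summable_of_hasFiniteSupport ((hF (d.al * r) d.H2 d.H (rm (mm_R1 r j) x)
      (mul_pos h0 hr)).subset fun P hP => ?_)
    exact pa_supA (d := dj_R1 d r j) (adm_R1 h0 hd hr j)
      (right_ne_zero_of_mul (left_ne_zero_of_mul hP))

lemma LN_le_R1 (hR : RtStmt) (hF : FinStmt) {μ : Measure MM} (hμ : UM μ) {d : Dat}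
    (h0 : 0 < d.al) (hd : Adm d.al d.g) {r : ℝ} (hr : 0 < r) (q : ℕ) :
    LN μ q Prod.fst (pk d) ≤ ENNReal.ofReal ((⌊2 / r ^ 2⌋₊ + 1 : ℕ) : ℝ) *
      ∑ j ∈ range (⌊2 / r ^ 2⌋₊ + 1),
        LN (μ.map (rm (mm_R1 r j))) q Prod.fst (pk (dj_R1 d r j)) := by
  have h := LF_sum_le μ q (range (⌊2 / r ^ 2⌋₊ + 1)) (k := vf q Prod.fst (pk d))
    (f := fun j x w => vf q Prod.fst (pk (dj_R1 d r j)) (rm (mm_R1 r j) x) w)
    (b := fun _ => 1) (fun _ _ => one_pos)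
    (fun j _ w => (MF_vf q Prod.fst (measurable_pk (adm_R1 h0 hd hr j).1) w).comp
      (continuous_rm _).measurable)
    (fun x w _ => vf_sum_R1 hF h0 hd hr q x w)
  simp only [Finset.sum_const, Finset.card_range, nsmul_eq_mul, mul_one, div_one,
    ENNReal.ofReal_one, one_mul] at h
  refine h.trans (le_of_eq ?_)
  congr 1
  refine Finset.sum_congr rfl fun j _ => ?_
  exact ((hR μ _ hμ (dt_mm_R1 hr j)).2 fun x =>
    ENNReal.ofReal (NV q (vf q Prod.fst (pk (dj_R1 d r j)) x))).symm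

theorem r1_stmt (hR : RtStmt) (hF : FinStmt) : R1Stmt := by
  intro η hη _ ⟨m, hm⟩
  refine ⟨m, fun ε hε => ?_⟩
  obtain ⟨K, hK, h⟩ := hm ε hε
  refine ⟨9 * K, by positivity, fun μ hμ d Λ Q hok => ?_⟩
  have hQ : (0 : ℝ) < Q := by exact_mod_cast hok.2.2.2.2.2.1
  have hΛ : 0 < Λ := zero_lt_one.trans_le hok.one_le
  have hxi : 0 < d.xi := zero_lt_one.trans_le d.one_le_xi
  have hP := d.PP_nonneg
  have hD := d.DD_nonneg
  have hXX := d.XX_nonneg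
  have hA : 0 ≤ K * Λ ^ ε * d.xi ^ m * (1 + d.PP / Q) := by positivity
  have hDQ : 0 ≤ d.DD * Q := by positivity
  have hXQ : 0 ≤ d.XX * (Q : ℝ) ^ (η / (1 + η)) := by positivity
  by_cases hc : d.X ^ (1 + η) ≤ Q
  · refine (h μ hμ d Λ Q hok hc).trans (ENNReal.ofReal_le_ofReal ?_)
    nlinarith [mul_nonneg hA hDQ, mul_nonneg hA hXQ]
  rw [not_le] at hc
  have h1η : 0 < 1 + η := by linarith
  have hX : 0 < d.X := by
    rcases d.X_nonneg.eq_or_lt with h0 | h0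
    · rw [← h0, Real.zero_rpow h1η.ne'] at hc
      linarith
    · exact h0
  have hH : d.H ≠ 0 := by
    intro h0
    simp [Dat.X, h0] at hX
  set Y : ℝ := (Q : ℝ) ^ (1 / (1 + η)) with hY
  have hY0 : 0 < Y := Real.rpow_pos_of_pos hQ _
  have hYQ : Y ^ (1 + η) = Q := by
    rw [hY, ← Real.rpow_mul hQ.le, one_div_mul_cancel h1η.ne', Real.rpow_one]
  have hYX : Y ≤ d.X := by
    rw [← hYQ] at hc
    exact ((Real.rpow_lt_rpow_iff hY0.le hX.le h1η).1 hc).le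
  have hYe : Y * (Q : ℝ) ^ (η / (1 + η)) = Q := by
    rw [hY, ← Real.rpow_add hQ, ← add_div, div_self h1η.ne', Real.rpow_one]
  set r : ℝ := √(Y / d.X) with hr
  have hr0 : 0 < r := Real.sqrt_pos.2 (div_pos hY0 hX)
  have hr2 : r ^ 2 = Y / d.X := Real.sq_sqrt (div_pos hY0 hX).le
  have hr21 : r ^ 2 ≤ 1 := by
    rw [hr2]
    exact (div_le_one hX).2 hYX
  have hr1 : r ≤ 1 := by nlinarith
  set n : ℕ := ⌊2 / r ^ 2⌋₊ + 1 with hn
  have hn3 : (n : ℝ) * r ^ 2 ≤ 3 := by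
    have h1 : (⌊2 / r ^ 2⌋₊ : ℝ) ≤ 2 / r ^ 2 := Nat.floor_le (by positivity)
    rw [le_div_iff₀ (by positivity)] at h1
    rw [hn]
    push_cast
    linarith
  have hj : ∀ j ∈ range n, ∑ q ∈ Ico Q (2 * Q),
      LN (μ.map (rm (mm_R1 r j))) q Prod.fst (pk (dj_R1 d r j)) ≤
      ENNReal.ofReal (K * Λ ^ ε * d.xi ^ m * (1 + d.PP / Q) * (d.DD * Q) * r ^ 2) := by
    intro j _
    have hokj : (dj_R1 d r j).ok Λ Q :=
      ⟨mul_pos hok.1 hr0, adm_R1 hok.1 hok.2.1 hr0 j,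
        (mul_le_of_le_one_right hok.1.le hr1).trans hok.2.2.1, hok.2.2.2⟩
    have hXj : (dj_R1 d r j).X = Y := by
      have e : (dj_R1 d r j).X = d.X * r ^ 2 := by
        simp only [Dat.X, dj_R1]
        ring
      rw [e, hr2]
      field_simp
    refine (h _ (hR μ _ hμ (dt_mm_R1 hr0 j)).1 _ Λ Q hokj (by rw [hXj, hYQ])).trans
      (le_of_eq ?_)
    congr 1
    simp only [Dat.xi, Dat.PP, Dat.DD, dj_R1]
    ring
  calc ∑ q ∈ Ico Q (2 * Q), LN μ q Prod.fst (pk d)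
      ≤ ∑ q ∈ Ico Q (2 * Q), ENNReal.ofReal (n : ℝ) * ∑ j ∈ range n,
          LN (μ.map (rm (mm_R1 r j))) q Prod.fst (pk (dj_R1 d r j)) :=
        Finset.sum_le_sum fun q _ => LN_le_R1 hR hF hμ hok.1 hok.2.1 hr0 q
    _ = ENNReal.ofReal (n : ℝ) * ∑ j ∈ range n, ∑ q ∈ Ico Q (2 * Q),
          LN (μ.map (rm (mm_R1 r j))) q Prod.fst (pk (dj_R1 d r j)) := by
        rw [← Finset.mul_sum, Finset.sum_comm]
    _ ≤ ENNReal.ofReal (n : ℝ) * ∑ j ∈ range n,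
          ENNReal.ofReal (K * Λ ^ ε * d.xi ^ m * (1 + d.PP / Q) * (d.DD * Q) * r ^ 2) := by
        gcongr with j hjn
        exact hj j hjn
    _ = ENNReal.ofReal ((n : ℝ) * (n *
          (K * Λ ^ ε * d.xi ^ m * (1 + d.PP / Q) * (d.DD * Q) * r ^ 2))) := by
        rw [Finset.sum_const, Finset.card_range, nsmul_eq_mul,
          ENNReal.ofReal_mul (Nat.cast_nonneg n), ENNReal.ofReal_mul (Nat.cast_nonneg n),
          ENNReal.ofReal_natCast]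
    _ ≤ _ := by
        refine ENNReal.ofReal_le_ofReal ?_
        have e1 : d.DD * Q = d.XX * (Q : ℝ) ^ (η / (1 + η)) * r ^ 2 := by
          rw [d.XX_eq hH, hr2]
          nth_rewrite 1 [← hYe]
          field_simp
        have e2 : ((n : ℝ) * r ^ 2) ^ 2 ≤ 9 := by
          have : 0 ≤ (n : ℝ) * r ^ 2 := by positivity
          nlinarith
        have e3 : (n : ℝ) * (n *
            (K * Λ ^ ε * d.xi ^ m * (1 + d.PP / Q) * (d.DD * Q) * r ^ 2)) =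
            ((n : ℝ) * r ^ 2) ^ 2 * (K * Λ ^ ε * d.xi ^ m * (1 + d.PP / Q) *
              (d.XX * (Q : ℝ) ^ (η / (1 + η)))) := by
          rw [e1]
          ring
        rw [e3]
        nlinarith [mul_nonneg hA hDQ, mul_le_mul_of_nonneg_right e2 (mul_nonneg hA hXQ)]

end Pool.Agent.MP_c853c5_nt.W
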