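import Pool.Agent.MP_c853c5_nt.W.R2A

set_option autoImplicit false

open Finset MeasureTheory
open scoped ENNReal ComplexConjugate

namespace Pool.Agent.MP_c853c5_nt.W

open Pool.Agent.MP_2a1f0e_nt Pool.Agent.MP_2a1f0e_nt.GM Pool.Agent.MP_2a1f0e_nt.DH

lemma half_R2 {Λ ε : ℝ} (hΛ : 1 ≤ Λ) : Λ ^ (ε / 2) * Λ ^ (ε / 2) = Λ ^ ε := by
  rw [← Real.rpow_add (by linarith), add_halves]

lemma first_R2 (hT : TrivStmt) (hN : NuStmt) {ε : ℝ} (hε : 0 < ε) : ∃ K : ℝ, 0 < K ∧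
    ∀ (d : Dat) (Λ : ℝ) (Q : ℕ), d.ok Λ Q → d.H2 ≠ 0 →
    ∑' z : Orb, iE (|(rI z.1 : ℝ)| ≤ 1000 * |d.H| / |d.H2|) *
        ENNReal.ofReal ‖nuQ Q (nI z.1)‖ * vol (Sup d.al d.H2 d.H) (Sup d.al d.H2 d.H) z.1 ≤
      ENNReal.ofReal (K * Λ ^ ε * (d.DD * (Q + d.PP))) := by
  obtain ⟨C, hC, hT⟩ := hT (ε / 2) (half_pos hε)
  obtain ⟨C', hC', hD⟩ := exD 4 1 160 (half_pos hε)
  refine ⟨C * (5005 * C'), by positivity, fun d Λ Q hd h2 => ?_⟩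
  have hΛ := hd.one_le
  have hQ := hd.2.2.2.2.2.1
  have hQ' : (1 : ℝ) ≤ Q := by exact_mod_cast hQ
  obtain ⟨X, Δ, d1, d2, d3⟩ := hD Λ hΛ
  have h1 := d1.1
  rw [pow_one] at d3
  refine (hT Λ d.al d.H2 d.H _ (Δ + 4) 0 (3 * Q) (fun n => ‖nuQ Q n‖) hd.bd (by positivity)
    (by linarith) le_rfl (by positivity) (hN Q 0 0 hQ).1 fun n hn hb => ?_).trans
    (ENNReal.ofReal_le_ofReal ?_)
  · rw [zero_div, add_zero]
    refine ((hN Q 0 n hQ).2.1 hn).trans (add_le_add (d1.2 _ ?_) le_rfl)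
    have : ((n.natAbs : ℕ) : ℝ) ≤ X := by
      rw [Nat.cast_natAbs, Int.cast_abs]
      exact hb.trans d2
    exact_mod_cast this
  · have h3 : 0 < |d.H2| := abs_pos.2 h2
    have e : d.H2 ^ 2 * (1000 * |d.H| / |d.H2|) = 1000 * d.PP := by
      rw [Dat.PP, ← sq_abs]
      field_simp
    have hP := d.PP_nonneg
    have hDD := d.DD_nonneg
    rw [e]
    change C * Λ ^ (ε / 2) * (d.DD * (3 * Q + 0 + (Δ + 4) * (1 + d.PP + 1000 * d.PP))) ≤ _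
    have k : 3 * (Q : ℝ) + 0 + (Δ + 4) * (1 + d.PP + 1000 * d.PP) ≤ 5005 * Δ * (Q + d.PP) := by
      nlinarith [mul_nonneg (sub_nonneg.2 h1) hP, mul_nonneg (sub_nonneg.2 h1) (sub_nonneg.2 hQ')]
    calc _ ≤ C * Λ ^ (ε / 2) * (d.DD * (5005 * (C' * Λ ^ (ε / 2)) * (Q + d.PP))) := by
          gcongr
          refine k.trans ?_
          gcongr
      _ = _ := by rw [← half_R2 (ε := ε) hΛ]; ring

lemma sq_R2 {d : Dat} (h : d.H ≠ 0) : d.H2 ^ 2 * d.al ^ 2 = d.PP * d.X := by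
  have h1 : |d.H| ≠ 0 := abs_ne_zero.2 h
  rw [Dat.PP, Dat.X, ← sq_abs d.H2]
  field_simp

lemma second_R2 (hT : TrivStmt) (hE : ErStmt) (hN : NuStmt) {ε : ℝ} (hε : 0 < ε) :
    ∃ K : ℝ, 0 < K ∧ ∀ (d : Dat) (Λ : ℝ) (Q : ℕ), d.ok Λ Q → d.H ≠ 0 → d.X ≤ Q →
    ∑' z : Orb, iE (|(rI z.1 : ℝ)| ≤ 32 * d.al ^ 2) *
        ENNReal.ofReal ‖nuQ Q (nI z.1) - swp Q ⌈480 * Λ ^ 4⌉₊ (nI z.1)‖ *
          vol (Sup d.al d.H2 d.H) (Sup d.al d.H2 d.H) z.1 ≤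
      ENNReal.ofReal (K * Λ ^ ε * (d.DD * (Q + d.PP))) := by
  obtain ⟨C, hC, hT⟩ := hT (ε / 2) (half_pos hε)
  obtain ⟨C', hC', hE⟩ := hE (ε / 8) (by positivity)
  refine ⟨C * (3 + 33 * (C' * 160 ^ (ε / 8))), by positivity, fun d Λ Q hd h2 hX => ?_⟩
  have hΛ := hd.one_le
  have hQ := hd.2.2.2.2.2.1
  have hQ' : (1 : ℝ) ≤ Q := by exact_mod_cast hQ
  have h4 : Λ ≤ Λ ^ 4 := le_self_pow₀ hΛ (by norm_num)
  have eD : C' * (160 * Λ ^ 4) ^ (ε / 8) = C' * 160 ^ (ε / 8) * Λ ^ (ε / 2) := by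
    rw [Real.mul_rpow (by norm_num) (by positivity), ← Real.rpow_natCast,
      ← Real.rpow_mul (by linarith), mul_assoc]
    congr 3
    push_cast
    ring
  have l1 : 1 ≤ Λ ^ (ε / 2) := Real.one_le_rpow hΛ (half_pos hε).le
  generalize hD : C' * 160 ^ (ε / 8) = D at eD ⊢
  have D0 : 0 < D := by rw [← hD]; positivity
  refine (hT Λ d.al d.H2 d.H _ (D * Λ ^ (ε / 2) / Q) (D * Λ ^ (ε / 2) * Q) (3 * Q)
    (fun n => ‖nuQ Q n - swp Q ⌈480 * Λ ^ 4⌉₊ n‖) hd.bd (by positivity) (by positivity)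
    (by positivity) (by positivity) ?_ fun n hn hb => ?_).trans (ENNReal.ofReal_le_ofReal ?_)
  · beta_reduce
    rw [(hN Q _ 0 hQ).2.2.1, sub_zero]
    exact (hN Q 0 0 hQ).1
  · refine (hE (160 * Λ ^ 4) Q _ n hQ (by linarith [hd.2.2.2.2.2.2]) hn hb
      (le_trans (by linarith) (Nat.le_ceil _))).trans_eq ?_
    rw [eD]
    ring
  · have hP := d.PP_nonneg
    have hDD := d.DD_nonneg
    have e : d.H2 ^ 2 * (32 * d.al ^ 2) = 32 * (d.PP * d.X) := by rw [← sq_R2 h2]; ring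
    rw [e]
    change C * Λ ^ (ε / 2) * (d.DD * (3 * Q + D * Λ ^ (ε / 2) * Q +
      D * Λ ^ (ε / 2) / Q * (1 + d.PP + 32 * (d.PP * d.X)))) ≤ _
    have k1 : 1 + d.PP + 32 * (d.PP * d.X) ≤ Q * (Q + 33 * d.PP) := by
      nlinarith [mul_le_mul_of_nonneg_left hX hP, mul_nonneg (sub_nonneg.2 hQ') hP]
    have k2 : D * Λ ^ (ε / 2) / Q * (1 + d.PP + 32 * (d.PP * d.X)) ≤
        D * Λ ^ (ε / 2) * (Q + 33 * d.PP) := by
      calc _ ≤ D * Λ ^ (ε / 2) / Q * (Q * (Q + 33 * d.PP)) := by gcongr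
        _ = _ := by field_simp
    have k3 : 3 * (Q : ℝ) + D * Λ ^ (ε / 2) * Q +
        D * Λ ^ (ε / 2) / Q * (1 + d.PP + 32 * (d.PP * d.X)) ≤
        (3 + 33 * D) * Λ ^ (ε / 2) * (Q + d.PP) := by
      have m1 : 0 ≤ D * Λ ^ (ε / 2) * Q := by positivity
      have m2 : 0 ≤ Λ ^ (ε / 2) * d.PP := by positivity
      have m3 : (Q : ℝ) ≤ Λ ^ (ε / 2) * Q := le_mul_of_one_le_left (by linarith) l1
      nlinarith
    calc _ ≤ C * Λ ^ (ε / 2) * (d.DD * ((3 + 33 * D) * Λ ^ (ε / 2) * (Q + d.PP))) := by gcongr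
      _ = _ := by rw [← half_R2 (ε := ε) hΛ]; ring

lemma third_R2 {d : Dat} {Q : ℕ} {η : ℝ} (hη : 0 < η) (hη' : η ≤ 1) (hQ : 1 ≤ Q)
    (h : 1 / 2 ≤ |d.H|) (hX : d.X ≤ Q) (hX' : d.X ^ (1 + η) ≤ Q) :
    d.DD * (d.CC Q + |d.H2|) + d.XX * d.CC Q ^ η ≤ 258 * (d.DD * (Q + d.PP)) := by
  have h0 : d.H ≠ 0 := abs_pos.1 (by linarith)
  have hQ' : (0 : ℝ) < Q := by exact_mod_cast hQ
  have hP := d.PP_nonneg
  have hDD := d.DD_nonneg
  have hX0 := d.X_nonneg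
  have e : d.CC Q = d.X * (128 * d.PP / Q) := by
    rw [Dat.CC, mul_assoc, mul_comm (d.al ^ 2), sq_R2 h0]
    ring
  have k1 : d.CC Q ≤ 128 * d.PP := by
    rw [e]
    calc _ ≤ Q * (128 * d.PP / Q) := by gcongr
      _ = _ := by field_simp
  have k2 : |d.H2| ≤ 2 * d.PP := by
    rw [Dat.PP]
    nlinarith [abs_nonneg d.H2]
  have k3 : (128 * d.PP / Q) ^ η ≤ 1 + 128 * d.PP / Q := by
    have p : 0 ≤ 128 * d.PP / Q := by positivity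
    rcases le_total (128 * d.PP / Q) 1 with a | a
    · linarith [Real.rpow_le_one p a hη.le]
    · have := Real.rpow_le_rpow_of_exponent_le a hη'
      rw [Real.rpow_one] at this
      linarith
  have k4 : d.X * d.CC Q ^ η ≤ Q + 128 * d.PP := by
    rw [e, Real.mul_rpow hX0 (by positivity), ← mul_assoc, ← Real.rpow_one_add' hX0 (by linarith)]
    calc _ ≤ Q * (1 + 128 * d.PP / Q) := by gcongr
      _ = _ := by field_simp
  rw [d.XX_eq h0, mul_assoc, ← mul_add, mul_left_comm]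
  exact mul_le_mul_of_nonneg_left (by linarith) hDD

theorem r2_stmt (hS : ShpStmt) (hO : OsStmt) (hI : InvStmt) (hT : TrivStmt) (hE : ErStmt)
    (hN : NuStmt) : R2Stmt := by
  rintro η hη hη' ⟨m, hP⟩
  refine ⟨m, fun ε hε => ?_⟩
  obtain ⟨K₁, k1, h1⟩ := first_R2 hT hN hε
  obtain ⟨K₂, k2, h2⟩ := second_R2 hT hE hN hε
  obtain ⟨K₃, k3, h3⟩ := hP ε hε
  refine ⟨K₁ + K₂ + K₃ * 258, by positivity, fun μ hμ d Λ Q hd hX' => ?_⟩
  by_cases h0 : |d.H| < 1 / 2 ∨ d.H2 = 0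
  · simp only [pk_eq_zero hd.2.1 h0, LN_zero, sum_const_zero]
    exact zero_le
  rw [not_or, not_lt] at h0
  have hΛ := hd.one_le
  have hQ := hd.2.2.2.2.2.1
  have hQ' : (1 : ℝ) ≤ Q := by exact_mod_cast hQ
  have hH : d.H ≠ 0 := abs_pos.1 (by linarith [h0.1])
  have hX : d.X ≤ Q := by
    rcases le_total d.X 1 with a | a
    · exact a.trans hQ'
    · exact (Real.self_le_rpow_of_one_le a (by linarith)).trans hX'
  have hP := d.PP_nonneg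
  have hDD := d.DD_nonneg
  have x1 : 1 ≤ d.xi ^ m := one_le_pow₀ d.one_le_xi
  have l0 : 0 ≤ Λ ^ ε := by positivity
  have k := third_R2 hη hη' hQ h0.1 hX hX'
  refine (three_R2 hS hO hI hN hμ hd.1 hd.2.1 h0.2 hQ ⌈480 * Λ ^ 4⌉₊).trans
    ((add_le_add (add_le_add (h1 d Λ Q hd h0.2) (h2 d Λ Q hd hH hX)) ((h3 d Λ Q _ hd).trans
      (ENNReal.ofReal_le_ofReal (mul_le_mul_of_nonneg_left k (by positivity))))).trans ?_)
  rw [← ENNReal.ofReal_add (by positivity) (by positivity),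
    ← ENNReal.ofReal_add (by positivity) (by positivity)]
  refine ENNReal.ofReal_le_ofReal ?_
  have e : (1 + d.PP / Q) * (d.DD * Q) = d.DD * (Q + d.PP) := by field_simp
  rw [e]
  have p : 0 ≤ d.DD * (Q + d.PP) := by positivity
  generalize d.DD * (Q + d.PP) = W at p ⊢
  have m1 := mul_le_mul_of_nonneg_left x1 (show 0 ≤ (K₁ + K₂) * Λ ^ ε * W by positivity)
  linarith

end Pool.Agent.MP_c853c5_nt.W
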