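import Pool.Agent.MP_c853c5_nt.W.Api

/-!
The quadruple sum, sorted by the contents of two integer vectors.
-/

set_option autoImplicit false

open Finset MeasureTheory
open scoped ENNReal ComplexConjugate

namespace Pool.Agent.MP_c853c5_nt.W

open Pool.Agent.MP_2a1f0e_nt Pool.Agent.MP_2a1f0e_nt.GM Pool.Agent.MP_2a1f0e_nt.DH

/-- primitive vectors in a box -/
noncomputable def PB_Rep (M : ℕ) : Finset V :=
  (Icc (1 : ℤ) M ×ˢ Icc (1 : ℤ) M).filter fun v => ct v = 1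

lemma mem_PB_Rep {M : ℕ} {v : V} : v ∈ PB_Rep M ↔
    (1 ≤ v.1 ∧ v.1 ≤ M) ∧ (1 ≤ v.2 ∧ v.2 ≤ M) ∧ ct v = 1 := by
  simp only [PB_Rep, mem_filter, mem_product, mem_Icc, and_assoc]

lemma Bx_Rep (M : ℕ) : Bx M = PB_Rep M ×ˢ PB_Rep M :=
  filter_product (fun v : V => ct v = 1) fun v : V => ct v = 1

lemma ct_mul_Rep (e : ℕ) {v : V} (h : ct v = 1) : ct ((e : ℤ) * v.1, (e : ℤ) * v.2) = e := by
  unfold ct at h ⊢
  rw [Int.gcd_mul_left, h, mul_one, Int.natAbs_natCast]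

/-- sorting a box by the content -/
lemma dec_Rep (M : ℕ) (g : V → ℂ) (h : ∀ c, g c ≠ 0 → c.1 ≤ M ∧ c.2 ≤ M) :
    ∑ e ∈ Icc 1 M, ∑ v ∈ PB_Rep M, g ((e : ℤ) * v.1, (e : ℤ) * v.2) =
      ∑ c ∈ Icc (1 : ℤ) M ×ˢ Icc (1 : ℤ) M, g c := by
  rw [← sum_product' (f := fun (e : ℕ) (v : V) => g ((e : ℤ) * v.1, (e : ℤ) * v.2))]
  refine sum_bij_ne_zero (fun p _ _ => ((p.1 : ℤ) * p.2.1, (p.1 : ℤ) * p.2.2))
    (fun p hp hg => ?_) (fun p hp _ p' hp' _ e => ?_) (fun c hc _ => ?_) fun _ _ _ => rfl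
  · rw [mem_product, mem_Icc, mem_PB_Rep] at hp
    have he : (1 : ℤ) ≤ p.1 := by exact_mod_cast hp.1.1
    rw [mem_product, mem_Icc, mem_Icc]
    exact ⟨⟨one_le_mul_of_one_le_of_one_le he hp.2.1.1, (h _ hg).1⟩,
      one_le_mul_of_one_le_of_one_le he hp.2.2.1.1, (h _ hg).2⟩
  · rw [mem_product, mem_Icc, mem_PB_Rep] at hp hp'
    have e1 : p.1 = p'.1 := by
      rw [← ct_mul_Rep p.1 hp.2.2.2, ← ct_mul_Rep p'.1 hp'.2.2.2, e]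
    have he : (p.1 : ℤ) ≠ 0 := by
      have := hp.1.1
      omega
    rw [← e1, Prod.mk.injEq] at e
    exact Prod.ext e1 (Prod.ext (mul_left_cancel₀ he e.1) (mul_left_cancel₀ he e.2))
  · rw [mem_product, mem_Icc, mem_Icc] at hc
    have hpos : 0 < Int.gcd c.1 c.2 := Int.gcd_pos_of_ne_zero_left _ (by omega)
    obtain ⟨e, v₁, v₂, he, hv, e1, e2⟩ := Int.exists_gcd_one' hpos
    have he' : (1 : ℤ) ≤ e := by exact_mod_cast he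
    have p1 : 0 < v₁ := by
      by_contra hn
      nlinarith [hc.1.1]
    have p2 : 0 < v₂ := by
      by_contra hn
      nlinarith [hc.2.1]
    have hce : ((e : ℤ) * v₁, (e : ℤ) * v₂) = c :=
      Prod.ext ((mul_comm _ _).trans e1.symm) ((mul_comm _ _).trans e2.symm)
    refine ⟨(e, (v₁, v₂)), ?_, by rwa [hce], hce⟩
    rw [mem_product, mem_Icc, mem_PB_Rep]
    have : (e : ℤ) ≤ M := by nlinarith [hc.1.2]
    exact ⟨⟨he, by exact_mod_cast this⟩, ⟨p1, by nlinarith [hc.1.2]⟩,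
      ⟨p2, by nlinarith [hc.2.2]⟩, hv⟩

/-- multiples in a box -/
lemma lin_Rep {M Y a b : ℕ} (ha : 1 ≤ a) (hb : 1 ≤ b) (h1 : a * Y ≤ M) (h2 : b * Y ≤ M)
    (g : V → ℂ) (h : ∀ c, g c ≠ 0 →
      (a : ℤ) ∣ c.1 ∧ (b : ℤ) ∣ c.2 ∧ c.1 ≤ a * Y ∧ c.2 ≤ b * Y) :
    ∑ c ∈ Icc (1 : ℤ) M ×ˢ Icc (1 : ℤ) M, g c =
      ∑ k ∈ Icc 1 Y, ∑ l ∈ Icc 1 Y, g ((a : ℤ) * k, (b : ℤ) * l) := by
  have ha' : (1 : ℤ) ≤ a := by exact_mod_cast ha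
  have hb' : (1 : ℤ) ≤ b := by exact_mod_cast hb
  have h1' : (a : ℤ) * Y ≤ M := by exact_mod_cast h1
  have h2' : (b : ℤ) * Y ≤ M := by exact_mod_cast h2
  rw [← sum_product' (f := fun (k l : ℕ) => g ((a : ℤ) * k, (b : ℤ) * l))]
  symm
  refine sum_bij_ne_zero (fun p _ _ => ((a : ℤ) * p.1, (b : ℤ) * p.2))
    (fun p hp hg => ?_) (fun p _ _ p' _ _ e => ?_) (fun c hc hg => ?_) fun _ _ _ => rfl
  · rw [mem_product, mem_Icc, mem_Icc] at hp ⊢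
    have p1 : (1 : ℤ) ≤ p.1 := by exact_mod_cast hp.1.1
    have p2 : (1 : ℤ) ≤ p.2 := by exact_mod_cast hp.2.1
    exact ⟨⟨one_le_mul_of_one_le_of_one_le ha' p1, (h _ hg).2.2.1.trans h1'⟩,
      one_le_mul_of_one_le_of_one_le hb' p2, (h _ hg).2.2.2.trans h2'⟩
  · rw [Prod.mk.injEq] at e
    have e1 := mul_left_cancel₀ (by omega : (a : ℤ) ≠ 0) e.1
    have e2 := mul_left_cancel₀ (by omega : (b : ℤ) ≠ 0) e.2
    exact Prod.ext (by exact_mod_cast e1) (by exact_mod_cast e2)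
  · rw [mem_product, mem_Icc, mem_Icc] at hc
    obtain ⟨⟨k, hk⟩, ⟨l, hl⟩, h3, h4⟩ := h c hg
    have p1 : 0 < k := by
      by_contra hn
      nlinarith [hc.1.1]
    have p2 : 0 < l := by
      by_contra hn
      nlinarith [hc.2.1]
    have q1 : k ≤ Y := by
      rw [hk] at h3
      exact le_of_mul_le_mul_left h3 (by omega)
    have q2 : l ≤ Y := by
      rw [hl] at h4
      exact le_of_mul_le_mul_left h4 (by omega)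
    lift k to ℕ using p1.le
    lift l to ℕ using p2.le
    have hce : ((a : ℤ) * k, (b : ℤ) * l) = c := Prod.ext hk.symm hl.symm
    refine ⟨(k, l), ?_, by rwa [hce], hce⟩
    rw [mem_product, mem_Icc, mem_Icc]
    exact ⟨⟨by omega, by omega⟩, by omega, by omega⟩

lemma comb_Rep {M Y a b : ℕ} (ha : 1 ≤ a) (hb : 1 ≤ b) (h1 : a * Y ≤ M) (h2 : b * Y ≤ M)
    (g : V → ℂ) (h : ∀ c, g c ≠ 0 →
      (a : ℤ) ∣ c.1 ∧ (b : ℤ) ∣ c.2 ∧ c.1 ≤ a * Y ∧ c.2 ≤ b * Y) :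
    ∑ e ∈ Icc 1 M, ∑ v ∈ PB_Rep M, g ((e : ℤ) * v.1, (e : ℤ) * v.2) =
      ∑ k ∈ Icc 1 Y, ∑ l ∈ Icc 1 Y, g ((a : ℤ) * k, (b : ℤ) * l) := by
  have h1' : (a : ℤ) * Y ≤ M := by exact_mod_cast h1
  have h2' : (b : ℤ) * Y ≤ M := by exact_mod_cast h2
  rw [dec_Rep M g fun c hc => ⟨(h c hc).2.2.1.trans h1', (h c hc).2.2.2.trans h2'⟩,
    lin_Rep ha hb h1 h2 g h]

/-- the divisibility condition on a primitive vector -/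
lemma dvd_Rep {a b : ℕ} (e : ℕ) (ha : 1 ≤ a) (hb : 1 ≤ b) {v : V} (hv : ct v = 1) :
    (Nat.Coprime (ap a e) (ap b e) ∧
      ((ap a e * ap b e : ℕ) : ℤ) ∣ om2 ((ap a e : ℤ), (ap b e : ℤ)) v) ↔
    ((a : ℤ) ∣ (e : ℤ) * v.1 ∧ (b : ℤ) ∣ (e : ℤ) * v.2) := by
  rw [dvd_mul_iff_div ha, dvd_mul_iff_div hb, Nat.gcd_comm e a, Nat.gcd_comm e b]
  change _ ↔ ((ap a e : ℤ) ∣ v.1 ∧ (ap b e : ℤ) ∣ v.2)
  generalize ap a e = a', ap b e = b'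
  simp only [om2, Nat.cast_mul]
  constructor
  · rintro ⟨hc, hd⟩
    have hc' : IsCoprime (a' : ℤ) (b' : ℤ) := Nat.isCoprime_iff_coprime.2 hc
    constructor
    · have h1 : (a' : ℤ) ∣ a' * v.2 - b' * v.1 := (dvd_mul_right _ _).trans hd
      have h2 : (a' : ℤ) ∣ b' * v.1 := by
        have := (dvd_mul_right (a' : ℤ) v.2).sub h1
        rwa [sub_sub_cancel] at this
      exact hc'.dvd_of_dvd_mul_left h2
    · have h1 : (b' : ℤ) ∣ a' * v.2 - b' * v.1 := (dvd_mul_left _ _).trans hd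
      have h2 : (b' : ℤ) ∣ a' * v.2 := by
        have := h1.add (dvd_mul_right (b' : ℤ) v.1)
        rwa [sub_add_cancel] at this
      exact hc'.symm.dvd_of_dvd_mul_left h2
  · rintro ⟨h1, h2⟩
    have hp : IsCoprime v.1 v.2 := prim_iff.1 hv
    refine ⟨Nat.isCoprime_iff_coprime.1
      ((hp.of_isCoprime_of_dvd_left h1).of_isCoprime_of_dvd_right h2),
      (mul_dvd_mul_left _ h2).sub ?_⟩
    rw [mul_comm]
    exact mul_dvd_mul_left _ h1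

/-- the summand as a function of two vectors -/
noncomputable def Ph_Rep (T y : ℝ) (a b : ℕ) (c c' : V) : ℂ :=
  ((om ((c.1 : ℝ) / (a * y)) * om ((c.2 : ℝ) / (b * y)) *
      om ((c'.1 : ℝ) / y) * om ((c'.2 : ℝ) / y) : ℝ) : ℂ) *
    wh (T * Real.log (((c.1 : ℝ) * c'.2) / ((c.2 : ℝ) * c'.1))) *
    iC ((a : ℤ) ∣ c.1 ∧ (b : ℤ) ∣ c.2)

lemma le_Rep {y : ℝ} (hy : 0 < y) {a : ℕ} (ha : 1 ≤ a) {c : ℤ} (hd : (a : ℤ) ∣ c)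
    (h : om ((c : ℝ) / (a * y)) ≠ 0) : c ≤ a * ⌊2 * y⌋₊ := by
  obtain ⟨k, rfl⟩ := hd
  have ha' : (0 : ℝ) < a := by exact_mod_cast ha
  have h1 := om_mem h
  rw [Int.cast_mul, Int.cast_natCast, mul_div_mul_left _ _ ha'.ne', lt_div_iff₀ hy,
    div_lt_iff₀ hy] at h1
  have hk : (0 : ℤ) ≤ k := by
    have : (0 : ℝ) ≤ k := by linarith [h1.1]
    exact_mod_cast this
  lift k to ℕ using hk
  refine mul_le_mul_of_nonneg_left ?_ (Nat.cast_nonneg _)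
  have : k ≤ ⌊2 * y⌋₊ := Nat.le_floor (by
    have := h1.2
    rw [Int.cast_natCast] at this
    linarith)
  exact_mod_cast this

lemma sup_Rep {T y : ℝ} (hy : 0 < y) {a b : ℕ} (ha : 1 ≤ a) (hb : 1 ≤ b) {c c' : V}
    (h : Ph_Rep T y a b c c' ≠ 0) :
    ((a : ℤ) ∣ c.1 ∧ (b : ℤ) ∣ c.2 ∧ c.1 ≤ a * ⌊2 * y⌋₊ ∧ c.2 ≤ b * ⌊2 * y⌋₊) ∧
    (((1 : ℕ) : ℤ) ∣ c'.1 ∧ ((1 : ℕ) : ℤ) ∣ c'.2 ∧ c'.1 ≤ (1 : ℕ) * ⌊2 * y⌋₊ ∧
      c'.2 ≤ (1 : ℕ) * ⌊2 * y⌋₊) := by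
  have h1 := iC_ne_zero (right_ne_zero_of_mul h)
  have h2 := Complex.ofReal_ne_zero.1 (left_ne_zero_of_mul (left_ne_zero_of_mul h))
  simp only [mul_ne_zero_iff] at h2
  have d : ∀ c : ℤ, ((1 : ℕ) : ℤ) ∣ c := fun c => by simp
  refine ⟨⟨h1.1, h1.2, le_Rep hy ha h1.1 h2.1.1.1, le_Rep hy hb h1.2 h2.1.1.2⟩, d _, d _,
    le_Rep hy le_rfl (d _) ?_, le_Rep hy le_rfl (d _) ?_⟩
  · rw [Nat.cast_one, one_mul]
    exact h2.1.2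
  · rw [Nat.cast_one, one_mul]
    exact h2.2

lemma term_Rep (T y : ℝ) {a b e f : ℕ} (ha : 1 ≤ a) (hb : 1 ≤ b) (he : 1 ≤ e) (hf : 1 ≤ f)
    {v : V} (hv : ct v = 1) (w : V) :
    Gw T y a b e f (v, w) * (iC (Nat.Coprime (ap a e) (ap b e)) *
      ind (ap a e * ap b e) (om2 ((ap a e : ℤ), (ap b e : ℤ)) v)) =
    Ph_Rep T y a b ((e : ℤ) * v.1, (e : ℤ) * v.2) ((f : ℤ) * w.1, (f : ℤ) * w.2) := by
  have he' : (e : ℝ) ≠ 0 := by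
    have : (0 : ℝ) < e := by exact_mod_cast he
    exact this.ne'
  have hf' : (f : ℝ) ≠ 0 := by
    have : (0 : ℝ) < f := by exact_mod_cast hf
    exact this.ne'
  rw [ind, ← iC_and, iC_congr (dvd_Rep e ha hb hv), Gw, Ph_Rep]
  simp only [Int.cast_mul, Int.cast_natCast]
  rw [show (e : ℝ) * v.1 * (f * w.2) / (e * v.2 * (f * w.1)) = v.1 * w.2 / (v.2 * w.1) by
    rw [mul_mul_mul_comm, mul_mul_mul_comm (e : ℝ) v.2, mul_div_mul_left _ _ (mul_ne_zero he' hf')]]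

lemma top_Rep (T y : ℝ) {a b : ℕ} (ha : 1 ≤ a) (hb : 1 ≤ b) (k₁ l₂ k₂ l₁ : ℕ) :
    Ph_Rep T y a b ((a : ℤ) * k₁, (b : ℤ) * l₂) (((1 : ℕ) : ℤ) * k₂, ((1 : ℕ) : ℤ) * l₁) =
    ((om ((k₁ : ℝ) / y) * om ((l₂ : ℝ) / y) * om ((k₂ : ℝ) / y) * om ((l₁ : ℝ) / y) : ℝ) : ℂ) *
      wh (T * Real.log (((a : ℝ) * k₁ * l₁) / ((b : ℝ) * l₂ * k₂))) := by
  have ha' : (a : ℝ) ≠ 0 := by
    have : (0 : ℝ) < a := by exact_mod_cast ha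
    exact this.ne'
  have hb' : (b : ℝ) ≠ 0 := by
    have : (0 : ℝ) < b := by exact_mod_cast hb
    exact this.ne'
  rw [Ph_Rep, iC_pos ⟨dvd_mul_right _ _, dvd_mul_right _ _⟩, mul_one]
  simp only [Int.cast_mul, Int.cast_natCast, Nat.cast_one, one_mul]
  rw [mul_div_mul_left _ _ ha', mul_div_mul_left _ _ hb']

theorem rep_stmt : RepStmt := by
  intro T y N M a b hR ha hb
  obtain ⟨-, hy, -, hN, -, hM, -⟩ := hR
  rw [mem_Icc] at ha hb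
  have ha1 : 1 ≤ a := hN.trans ha.1
  have hb1 : 1 ≤ b := hN.trans hb.1
  have hY : 2 * N * ⌊2 * y⌋₊ ≤ M := by
    have h1 : (⌊2 * y⌋₊ : ℝ) ≤ 2 * y := Nat.floor_le (by positivity)
    have h2 : (2 * N : ℝ) * ⌊2 * y⌋₊ ≤ 2 * N * (2 * y) :=
      mul_le_mul_of_nonneg_left h1 (by positivity)
    have h3 : (2 * N : ℝ) * ⌊2 * y⌋₊ ≤ M := by linarith
    exact_mod_cast h3
  have hA : a * ⌊2 * y⌋₊ ≤ M := (Nat.mul_le_mul_right _ ha.2).trans hY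
  have hB : b * ⌊2 * y⌋₊ ≤ M := (Nat.mul_le_mul_right _ hb.2).trans hY
  have h1 : 1 * ⌊2 * y⌋₊ ≤ M := (Nat.mul_le_mul_right _ ha1).trans hA
  symm
  calc ∑ e ∈ Icc 1 M, ∑ f ∈ Icc 1 M, TS T y a b e f M (fun P =>
        iC (Nat.Coprime (ap a e) (ap b e)) *
          ind (ap a e * ap b e) (om2 ((ap a e : ℤ), (ap b e : ℤ)) P.1))
      = ∑ e ∈ Icc 1 M, ∑ v ∈ PB_Rep M, ∑ f ∈ Icc 1 M, ∑ w ∈ PB_Rep M,
          Ph_Rep T y a b ((e : ℤ) * v.1, (e : ℤ) * v.2) ((f : ℤ) * w.1, (f : ℤ) * w.2) := by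
        refine sum_congr rfl fun e he => ?_
        rw [sum_comm]
        refine sum_congr rfl fun f hf => ?_
        rw [TS, Bx_Rep, sum_product]
        exact sum_congr rfl fun v hv => sum_congr rfl fun w _ =>
          term_Rep T y ha1 hb1 (mem_Icc.1 he).1 (mem_Icc.1 hf).1 (mem_PB_Rep.1 hv).2.2 w
    _ = ∑ e ∈ Icc 1 M, ∑ v ∈ PB_Rep M, ∑ k₂ ∈ Icc 1 ⌊2 * y⌋₊, ∑ l₁ ∈ Icc 1 ⌊2 * y⌋₊,
          Ph_Rep T y a b ((e : ℤ) * v.1, (e : ℤ) * v.2)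
            (((1 : ℕ) : ℤ) * k₂, ((1 : ℕ) : ℤ) * l₁) :=
        sum_congr rfl fun e _ => sum_congr rfl fun v _ =>
          comb_Rep le_rfl le_rfl h1 h1 _ fun c hc => (sup_Rep hy ha1 hb1 hc).2
    _ = ∑ k₁ ∈ Icc 1 ⌊2 * y⌋₊, ∑ l₂ ∈ Icc 1 ⌊2 * y⌋₊, ∑ k₂ ∈ Icc 1 ⌊2 * y⌋₊,
          ∑ l₁ ∈ Icc 1 ⌊2 * y⌋₊, Ph_Rep T y a b ((a : ℤ) * k₁, (b : ℤ) * l₂)
            (((1 : ℕ) : ℤ) * k₂, ((1 : ℕ) : ℤ) * l₁) := by
        refine comb_Rep ha1 hb1 hA hB (fun c => ∑ k₂ ∈ Icc 1 ⌊2 * y⌋₊, ∑ l₁ ∈ Icc 1 ⌊2 * y⌋₊,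
          Ph_Rep T y a b c (((1 : ℕ) : ℤ) * k₂, ((1 : ℕ) : ℤ) * l₁)) fun c hc => ?_
        obtain ⟨k, -, hk⟩ := exists_ne_zero_of_sum_ne_zero hc
        obtain ⟨l, -, hl⟩ := exists_ne_zero_of_sum_ne_zero hk
        exact (sup_Rep hy ha1 hb1 hl).1
    _ = Q4 T y a b :=
        sum_congr rfl fun k₁ _ => sum_congr rfl fun l₂ _ => sum_congr rfl fun k₂ _ =>
          sum_congr rfl fun l₁ _ => top_Rep T y ha1 hb1 k₁ l₂ k₂ l₁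

end Pool.Agent.MP_c853c5_nt.W
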