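import Pool.Agent.MP_c853c5_nt.W.Api

set_option autoImplicit false

open Finset MeasureTheory
open scoped ENNReal ComplexConjugate

namespace Pool.Agent.MP_c853c5_nt.W

open Pool.Agent.MP_2a1f0e_nt Pool.Agent.MP_2a1f0e_nt.GM Pool.Agent.MP_2a1f0e_nt.DH

lemma lip_Rs {φ : ℝ → ℝ} (hs : ∀ x ≠ 0, ContDiffAt ℝ 1 φ x) (h0 : ∀ z ≤ 1 / 3, φ z = 0)
    (h1 : ∀ z, 9 / 4 ≤ z → φ z = 0) : ∃ L, LipschitzWith L φ := by
  refine ContDiff.lipschitzWith_of_hasCompactSupport (𝕂 := ℝ) (n := 1) ?_ ?_ one_ne_zero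
  · refine HasCompactSupport.intro (isCompact_Icc (a := 0) (b := 9 / 4)) fun x hx => ?_
    rw [Set.mem_Icc, not_and_or, not_le, not_le] at hx
    rcases hx with hx | hx
    · exact h0 x (by linarith)
    · exact h1 x hx.le
  · refine contDiff_iff_contDiffAt.2 fun x => ?_
    by_cases hx : x = 0
    · refine (contDiffAt_const (c := (0 : ℝ))).congr_of_eventuallyEq ?_
      filter_upwards [Iio_mem_nhds (show x < 1 / 3 by rw [hx]; norm_num)] with z hz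
      exact h0 z (le_of_lt hz)
    · exact hs x hx

lemma riem_Rs {φ : ℝ → ℝ} {L : NNReal} (hL : LipschitzWith L φ) (h1 : ∀ z, 9 / 4 ≤ z → φ z = 0)
    {Y : ℝ} {M : ℕ} (hY : 2 ≤ Y) (hM : 3 * Y ≤ M + 1) :
    |∑ k ∈ Icc 1 M, φ ((k : ℝ) / Y) / Y - ∫ x in Set.Ioi (0 : ℝ), φ x| ≤ 3 * L * (1 / Y) := by
  have hY0 : 0 < Y := by linarith
  obtain ⟨N, hN1, hN2⟩ : ∃ N : ℕ, 9 / 4 * Y ≤ N ∧ (N : ℝ) ≤ 9 / 4 * Y + 1 :=
    ⟨⌈9 / 4 * Y⌉₊, Nat.le_ceil _, (Nat.ceil_lt_add_one (by positivity)).le⟩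
  have hNM : N ≤ M + 1 := by
    have : (N : ℝ) ≤ (M + 1 : ℕ) := by push_cast; linarith
    exact_mod_cast this
  have hNM' : N ≤ M := by
    have : (N : ℝ) < (M + 1 : ℕ) := by push_cast; linarith
    have h2 : N < M + 1 := by exact_mod_cast this
    omega
  have e1 : ∑ k ∈ Icc 1 M, φ ((k : ℝ) / Y) / Y =
      ∑ k ∈ range N, φ (((k + 1 : ℕ) : ℝ) / Y) / Y := by
    rw [← sum_subset (Icc_subset_Icc_right hNM') fun k hk hk' => ?_]
    · rw [range_eq_Ico, sum_Ico_add' (fun k : ℕ => φ ((k : ℝ) / Y) / Y) 0 N 1]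
      rfl
    · rw [mem_Icc] at hk hk'
      have h2 : (N : ℝ) ≤ k := by exact_mod_cast (by omega : N ≤ k)
      rw [h1 _ (by rw [le_div_iff₀ hY0]; linarith), zero_div]
  have hc := hL.continuous
  have e2 : ∫ x in Set.Ioi (0 : ℝ), φ x =
      ∑ k ∈ range N, ∫ x in ((k : ℝ) / Y)..(((k + 1 : ℕ) : ℝ) / Y), φ x := by
    rw [intervalIntegral.sum_integral_adjacent_intervals (a := fun k : ℕ => (k : ℝ) / Y)
      fun k _ => hc.intervalIntegrable _ _, Nat.cast_zero, zero_div,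
      intervalIntegral.integral_of_le (by positivity)]
    refine setIntegral_eq_of_subset_of_forall_sdiff_eq_zero measurableSet_Ioi
      Set.Ioc_subset_Ioi_self fun x hx => h1 x ?_
    have h2 : (N : ℝ) / Y < x := not_le.1 fun h => hx.2 ⟨hx.1, h⟩
    have h3 : 9 / 4 ≤ (N : ℝ) / Y := by rw [le_div_iff₀ hY0]; exact hN1
    linarith
  rw [e1, e2, ← sum_sub_distrib]
  have key : ∀ k ∈ range N, |φ (((k + 1 : ℕ) : ℝ) / Y) / Y -
      ∫ x in ((k : ℝ) / Y)..(((k + 1 : ℕ) : ℝ) / Y), φ x| ≤ L * (1 / Y) * (1 / Y) := by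
    intro k _
    have e3 : ((k + 1 : ℕ) : ℝ) / Y - k / Y = 1 / Y := by push_cast; ring
    have h4 : (0 : ℝ) < 1 / Y := by positivity
    have e4 : φ (((k + 1 : ℕ) : ℝ) / Y) / Y -
        ∫ x in ((k : ℝ) / Y)..(((k + 1 : ℕ) : ℝ) / Y), φ x =
        ∫ x in ((k : ℝ) / Y)..(((k + 1 : ℕ) : ℝ) / Y), (φ (((k + 1 : ℕ) : ℝ) / Y) - φ x) := by
      rw [intervalIntegral.integral_sub intervalIntegrable_const (hc.intervalIntegrable _ _),
        intervalIntegral.integral_const, e3, smul_eq_mul]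
      ring
    rw [e4, ← Real.norm_eq_abs]
    refine (intervalIntegral.norm_integral_le_of_norm_le_const (C := L * (1 / Y))
      fun x hx => ?_).trans (by rw [e3, abs_of_pos h4])
    rw [Set.uIoc_of_le (by linarith)] at hx
    rw [← dist_eq_norm]
    refine (hL.dist_le_mul _ _).trans (mul_le_mul_of_nonneg_left ?_ L.2)
    rw [Real.dist_eq, abs_le]
    constructor <;> linarith [hx.1, hx.2]
  refine (abs_sum_le_sum_abs _ _).trans ((sum_le_card_nsmul _ _ _ key).trans ?_)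
  rw [card_range, nsmul_eq_mul]
  have h5 : (N : ℝ) * (1 / Y) ≤ 3 := by
    rw [mul_one_div, div_le_iff₀ hY0]
    linarith
  have h6 : (0 : ℝ) ≤ L * (1 / Y) := by positivity
  nlinarith

lemma small_Rs {f : ℕ → ℝ} (h0 : ∀ k, 0 ≤ f k) (h1 : ∀ k, f k ≤ 1) (h2 : ∀ k, 5 ≤ k → f k = 0)
    (M : ℕ) : |∑ k ∈ Icc 1 M, f k / k| ≤ 4 := by
  rw [abs_of_nonneg (sum_nonneg fun k _ => div_nonneg (h0 k) (Nat.cast_nonneg k))]
  rw [← sum_filter_add_sum_filter_not (Icc 1 M) (fun k => k ≤ 4),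
    sum_eq_zero (s := (Icc 1 M).filter fun k => ¬k ≤ 4) fun k hk => by
      rw [h2 k (by have := (mem_filter.1 hk).2; omega), zero_div], add_zero]
  have h3 : ((Icc 1 M).filter fun k => k ≤ 4).card ≤ 4 := by
    refine (card_le_card (t := Icc 1 4) fun k hk => ?_).trans (by simp)
    rw [mem_filter, mem_Icc] at hk
    exact mem_Icc.2 ⟨hk.1.1, hk.2⟩
  refine (sum_le_card_nsmul _ _ 1 fun k hk => ?_).trans ?_
  · have h4 : (1 : ℝ) ≤ k := by exact_mod_cast (mem_Icc.1 (mem_filter.1 hk).1).1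
    rw [div_le_one (by linarith)]
    exact (h1 k).trans h4
  · rw [nsmul_eq_mul, mul_one]
    exact_mod_cast h3

lemma int_Rs : ∫ x in Set.Ioi (0 : ℝ), Wt x⁻¹ / x = ∫ x in Set.Ioi (0 : ℝ), Wt x / x := by
  rw [← integral_comp_rpow_Ioi (fun x => Wt x / x) (p := -1) (by norm_num)]
  refine setIntegral_congr_fun measurableSet_Ioi fun x hx => ?_
  have hx0 : 0 < x := hx
  simp only [smul_eq_mul]
  rw [Real.rpow_neg_one, show (-1 - 1 : ℝ) = -(2 : ℕ) by norm_num, Real.rpow_neg hx0.le,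
    Real.rpow_natCast]
  field_simp
  norm_num

theorem rs_stmt : RsStmt := by
  have z1 : ∀ z : ℝ, 9 / 4 ≤ z → Wt z / z = 0 := fun z hz => by
    rw [Wt_eq_zero (Or.inr hz), zero_div]
  have z2 : ∀ z : ℝ, 9 / 4 ≤ z → Wt z⁻¹ / z = 0 := fun z hz => by
    rw [Wt_eq_zero (Or.inl (by rw [inv_le_comm₀ (by linarith) (by norm_num)]; linarith)), zero_div]
  obtain ⟨L₁, hL₁⟩ := lip_Rs (φ := fun z => Wt z / z)
    (fun x hx => (contDiff_Wt (n := 1)).contDiffAt.div contDiffAt_id hx)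
    (fun z hz => by rw [Wt_eq_zero (Or.inl (by linarith)), zero_div]) z1
  obtain ⟨L₂, hL₂⟩ := lip_Rs (φ := fun z => Wt z⁻¹ / z)
    (fun x hx => ((contDiff_Wt (n := 1)).contDiffAt.comp x (contDiffAt_inv ℝ hx)).div
      contDiffAt_id hx)
    (fun z hz => by
      rcases le_or_gt z 0 with h | h
      · rw [Wt_eq_zero (Or.inl ((inv_nonpos.2 h).trans (by norm_num))), zero_div]
      · rw [Wt_eq_zero (Or.inr (by rw [le_inv_comm₀ (by norm_num) h]; linarith)), zero_div]) z2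
  obtain ⟨I, hI⟩ : ∃ I, I = ∫ x in Set.Ioi (0 : ℝ), Wt x / x := ⟨_, rfl⟩
  have p1 := L₁.2
  have p2 := L₂.2
  have p3 := abs_nonneg I
  refine ⟨3 * L₁ + 3 * L₂ + 2 * (4 + |I|), I, by positivity, fun Y M hY hM => ?_⟩
  rcases le_total 2 Y with h2 | h2
  · have hm : min 1 (1 / Y) = 1 / Y := min_eq_right (by rw [div_le_one hY]; linarith)
    have h4 : (0 : ℝ) ≤ 1 / Y := by positivity
    have a1 := riem_Rs hL₁ z1 h2 hM
    have a2 := riem_Rs hL₂ z2 h2 hM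
    rw [int_Rs] at a2
    rw [← hI] at a1 a2
    have e1 : ∑ k ∈ Icc 1 M, Wt ((k : ℝ) / Y) / k =
        ∑ k ∈ Icc 1 M, Wt ((k : ℝ) / Y) / ((k : ℝ) / Y) / Y :=
      sum_congr rfl fun k _ => by rw [div_div, div_mul_cancel₀ _ hY.ne']
    have e2 : ∑ k ∈ Icc 1 M, Wt (Y / (k : ℝ)) / k =
        ∑ k ∈ Icc 1 M, Wt ((k : ℝ) / Y)⁻¹ / ((k : ℝ) / Y) / Y :=
      sum_congr rfl fun k _ => by rw [div_div, div_mul_cancel₀ _ hY.ne', inv_div]
    rw [hm, e1, e2]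
    refine ⟨a1.trans (mul_le_mul_of_nonneg_right ?_ h4),
      a2.trans (mul_le_mul_of_nonneg_right ?_ h4)⟩
    · have : (0 : ℝ) ≤ L₂ := p2
      linarith
    · have : (0 : ℝ) ≤ L₁ := p1
      linarith
  · have hm : 1 / 2 ≤ min 1 (1 / Y) :=
      le_min (by norm_num) (one_div_le_one_div_of_le hY h2)
    have a1 := small_Rs (f := fun k => Wt ((k : ℝ) / Y)) (fun _ => Wt_nonneg _)
      (fun _ => Wt_le_one _) (fun k hk => Wt_eq_zero (Or.inr (by
        have : (5 : ℝ) ≤ k := by exact_mod_cast hk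
        rw [le_div_iff₀ hY]
        linarith))) M
    have a2 := small_Rs (f := fun k => Wt (Y / (k : ℝ))) (fun _ => Wt_nonneg _)
      (fun _ => Wt_le_one _) (fun k hk => Wt_eq_zero (Or.inl (by
        have : (5 : ℝ) ≤ k := by exact_mod_cast hk
        rw [div_le_iff₀ (by linarith)]
        linarith))) M
    have q1 : (0 : ℝ) ≤ L₁ := p1
    have q2 : (0 : ℝ) ≤ L₂ := p2
    have b : 4 + |I| ≤ (3 * L₁ + 3 * L₂ + 2 * (4 + |I|)) * min 1 (1 / Y) := by nlinarith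
    exact ⟨(abs_sub _ _).trans (by linarith), (abs_sub _ _).trans (by linarith)⟩

end Pool.Agent.MP_c853c5_nt.W
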