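import Pool.Agent.MP_c853c5_nt.W.Api

set_option autoImplicit false

open Finset MeasureTheory
open scoped ENNReal ComplexConjugate

namespace Pool.Agent.MP_c853c5_nt.W

open Pool.Agent.MP_2a1f0e_nt Pool.Agent.MP_2a1f0e_nt.GM Pool.Agent.MP_2a1f0e_nt.DH

lemma rt_rt_Rt {m : MM} (h : dt m = 1) (a : R2) :
    rt ((m.2.2, -m.1.2), (-m.2.1, m.1.1)) (rt m a) = a ∧
      rt m (rt ((m.2.2, -m.1.2), (-m.2.1, m.1.1)) a) = a := by
  unfold dt at h
  constructor
  · ext
    · simp only [rt]; linear_combination a.1 * h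
    · simp only [rt]; linear_combination a.2 * h
  · ext
    · simp only [rt]; linear_combination a.1 * h
    · simp only [rt]; linear_combination a.2 * h

/-- right multiplication as a measurable equivalence -/
def rmE_Rt {m : MM} (h : dt m = 1) : MM ≃ᵐ MM where
  toFun := rm m
  invFun := rm ((m.2.2, -m.1.2), (-m.2.1, m.1.1))
  left_inv _ := Prod.ext (rt_rt_Rt h _).1 (rt_rt_Rt h _).1
  right_inv _ := Prod.ext (rt_rt_Rt h _).2 (rt_rt_Rt h _).2
  measurable_toFun := (continuous_rm m).measurable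
  measurable_invFun := (continuous_rm _).measurable

theorem rt_stmt (hC : CoVStmt) : RtStmt := by
  intro μ m hμ hm
  have h2 : ∀ F : MM → ℝ≥0∞, ∫⁻ x, F x ∂(μ.map (rm m)) = ∫⁻ x, F (rm m x) ∂μ :=
    fun F => lintegral_map_equiv F (rmE_Rt hm)
  refine ⟨⟨?_, fun f hf h0 => ?_⟩, h2⟩
  · have := hμ.1
    infer_instance
  · rw [h2]
    simp_rw [act_rm]
    rw [hμ.2 (fun x => f (rm m x)) (hf.comp (continuous_rm m).measurable)
      (fun x hx => h0 _ (by rw [dt_rm, hx, zero_mul])), hC.2 m hm f]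

end Pool.Agent.MP_c853c5_nt.W
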