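import Pool.Agent.MP_c853c5_nt.W.Defs

set_option autoImplicit false

open Finset MeasureTheory
open scoped FourierTransform ContDiff RealInnerProductSpace

namespace Pool.Agent.MP_c853c5_nt.W.Sp

open Pool.Agent.MP_2a1f0e_nt

/-- uniform bound for derivatives in the second variable on a compact set -/
lemma slice_bd {P V E : Type} [NormedAddCommGroup P] [NormedSpace ℝ P] [NormedAddCommGroup V]
    [NormedSpace ℝ V] [NormedAddCommGroup E] [NormedSpace ℝ E]
    (B : P × V → E) (hB : ContDiff ℝ ∞ B) (KP : Set P) (KV : Set V) (hP : IsCompact KP)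
    (hV : IsCompact KV) (M : ℕ) :
    ∃ C : ℝ, 1 ≤ C ∧ ∀ j ≤ M, ∀ p ∈ KP, ∀ y ∈ KV,
      ‖iteratedFDeriv ℝ j (fun y => B (p, y)) y‖ ≤ C := by
  have h1 : ∀ j : ℕ, ∃ C : ℝ, ∀ w ∈ KP ×ˢ KV, ‖iteratedFDeriv ℝ j B w‖ ≤ C := fun j =>
    (hP.prod hV).exists_bound_of_continuousOn
      ((hB.continuous_iteratedFDeriv (m := j) (by exact_mod_cast le_top)).continuousOn)
  choose C hC using h1
  refine ⟨1 + ∑ j ∈ range (M + 1), |C j|, by
    have : 0 ≤ ∑ j ∈ range (M + 1), |C j| := Finset.sum_nonneg fun j _ => abs_nonneg _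
    linarith, fun j hj p hp y hy => ?_⟩
  have e1 : (fun y => B (p, y)) =
      (fun w => B ((p, 0) + w)) ∘ (ContinuousLinearMap.inr ℝ P V) := by
    funext y
    simp
  have hB' : ContDiff ℝ ∞ (fun w => B ((p, 0) + w)) :=
    hB.comp (contDiff_const.add contDiff_id)
  rw [e1, ContinuousLinearMap.iteratedFDeriv_comp_right _ hB' y (by exact_mod_cast le_top),
    iteratedFDeriv_comp_add_left]
  refine (ContinuousMultilinearMap.norm_compContinuousLinearMap_le _ _).trans ?_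
  have h2 : ∏ _i : Fin j, ‖ContinuousLinearMap.inr ℝ P V‖ ≤ 1 :=
    Finset.prod_le_one (fun _ _ => norm_nonneg _)
      (fun _ _ => ContinuousLinearMap.norm_inr_le_one ℝ P V)
  have h3 : ‖iteratedFDeriv ℝ j B ((p, 0) + ContinuousLinearMap.inr ℝ P V y)‖ ≤ C j := by
    apply hC
    simp [hp, hy]
  have h4 : |C j| ≤ ∑ j ∈ range (M + 1), |C j| :=
    Finset.single_le_sum (f := fun j => |C j|) (fun _ _ => abs_nonneg _)
      (Finset.mem_range.2 (by omega))
  calc _ ≤ ‖iteratedFDeriv ℝ j B ((p, 0) + ContinuousLinearMap.inr ℝ P V y)‖ * 1 := by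
        gcongr
    _ ≤ _ := by
        have := le_abs_self (C j)
        linarith

/-- derivative bound for the oscillating product -/
lemma prod_bd {P V : Type} [NormedAddCommGroup P] [NormedSpace ℝ P] [NormedAddCommGroup V]
    [NormedSpace ℝ V]
    (A : P × V → ℂ) (ph : P × V → ℝ) (Om : ℝ → ℂ) (hA : ContDiff ℝ ∞ A) (hph : ContDiff ℝ ∞ ph)
    (hOm : ContDiff ℝ ∞ Om) (hB : ∀ j : ℕ, ∃ B : ℝ, ∀ x, ‖iteratedDeriv j Om x‖ ≤ B)
    (KP : Set P) (KV : Set V) (hP : IsCompact KP) (hV : IsCompact KV) (M : ℕ) :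
    ∃ C : ℝ, 0 < C ∧ ∀ j ≤ M, ∀ p ∈ KP, ∀ xi : ℝ, ∀ y ∈ KV,
      ‖iteratedFDeriv ℝ j (fun y => A (p, y) * Om (xi * ph (p, y))) y‖ ≤
        C * (1 + |xi|) ^ M := by
  obtain ⟨C1, h11, hC1⟩ := slice_bd A hA KP KV hP hV M
  obtain ⟨C2, h21, hC2⟩ := slice_bd ph hph KP KV hP hV M
  choose B hB using hB
  set B0 : ℝ := 1 + ∑ j ∈ range (M + 1), |B j| with hB0
  have hB1 : 1 ≤ B0 := by
    have : 0 ≤ ∑ j ∈ range (M + 1), |B j| := Finset.sum_nonneg fun j _ => abs_nonneg _
    linarith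
  have hB2 : ∀ j ≤ M, ∀ x, ‖iteratedFDeriv ℝ j Om x‖ ≤ B0 := by
    intro j hj x
    rw [norm_iteratedFDeriv_eq_norm_iteratedDeriv]
    have h4 : |B j| ≤ ∑ j ∈ range (M + 1), |B j| :=
      Finset.single_le_sum (f := fun j => |B j|) (fun _ _ => abs_nonneg _)
        (Finset.mem_range.2 (by omega))
    have := le_abs_self (B j)
    have := hB j x
    linarith
  refine ⟨2 ^ M * (C1 * (M.factorial * B0 * C2 ^ M)), by positivity, fun j hj p hp xi y hy => ?_⟩
  have hA' : ContDiff ℝ ∞ (fun y => A (p, y)) := hA.comp (contDiff_const.prodMk contDiff_id)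
  have hp' : ContDiff ℝ ∞ (fun y => ph (p, y)) := hph.comp (contDiff_const.prodMk contDiff_id)
  have hx' : ContDiff ℝ ∞ (fun y => xi * ph (p, y)) := contDiff_const.mul hp'
  have hD1 : 1 ≤ C2 * (1 + |xi|) := by
    have := abs_nonneg xi
    nlinarith
  have hO : ∀ i ≤ M, ‖iteratedFDeriv ℝ i (fun y => Om (xi * ph (p, y))) y‖ ≤
      M.factorial * B0 * (C2 * (1 + |xi|)) ^ M := by
    intro i hi
    have h := norm_iteratedFDeriv_comp_le (n := i) hOm hx' (by exact_mod_cast le_top) y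
      (C := B0) (D := C2 * (1 + |xi|)) (fun l hl => hB2 l (hl.trans hi) _) (fun l h1 hl => by
        have e : (fun y => xi * ph (p, y)) = xi • (fun y => ph (p, y)) := by
          funext y
          simp
        rw [e, iteratedFDeriv_const_smul_apply
          ((hp'.of_le (by exact_mod_cast le_top)).contDiffAt), norm_smul, Real.norm_eq_abs]
        have h5 := hC2 l (hl.trans hi) p hp y hy
        have h6 : C2 * (1 + |xi|) ≤ (C2 * (1 + |xi|)) ^ l := le_self_pow₀ hD1 (by omega)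
        have h7 := abs_nonneg xi
        have h8 : |xi| * ‖iteratedFDeriv ℝ l (fun y => ph (p, y)) y‖ ≤ |xi| * C2 := by gcongr
        nlinarith)
    refine h.trans ?_
    have h1 : (i.factorial : ℝ) ≤ M.factorial := by exact_mod_cast Nat.factorial_le hi
    have h2 : (C2 * (1 + |xi|)) ^ i ≤ (C2 * (1 + |xi|)) ^ M := pow_le_pow_right₀ hD1 hi
    gcongr
  have hO' : ContDiff ℝ ∞ (fun y => Om (xi * ph (p, y))) := hOm.comp hx'
  refine (norm_iteratedFDeriv_mul_le (n := j) hA' hO' y (by exact_mod_cast le_top)).trans ?_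
  calc _ ≤ ∑ i ∈ range (j + 1), (j.choose i : ℝ) *
          (C1 * (M.factorial * B0 * (C2 * (1 + |xi|)) ^ M)) := by
        refine Finset.sum_le_sum fun i hi => ?_
        have hi' : i ≤ j := Nat.lt_succ_iff.1 (Finset.mem_range.1 hi)
        rw [mul_assoc]
        gcongr
        · exact hC1 i (hi'.trans hj) p hp y hy
        · exact hO (j - i) (by omega)
    _ = 2 ^ j * (C1 * (M.factorial * B0 * (C2 * (1 + |xi|)) ^ M)) := by
        rw [← Finset.sum_mul]
        congr 1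
        exact_mod_cast Nat.sum_range_choose j
    _ ≤ 2 ^ M * (C1 * (M.factorial * B0 * (C2 * (1 + |xi|)) ^ M)) := by
        gcongr
        norm_num
    _ = _ := by
        rw [mul_pow]
        ring

/-- decay of the Fourier transform from derivative bounds on a compact support -/
lemma four_bd {V : Type} [NormedAddCommGroup V] [InnerProductSpace ℝ V] [FiniteDimensional ℝ V]
    [MeasurableSpace V] [BorelSpace V] (KV : Set V) (hV : IsCompact KV) (M : ℕ) :
    ∃ C : ℝ, 0 < C ∧ ∀ (F : V → ℂ) (D : ℝ), 0 ≤ D → ContDiff ℝ ∞ F → (∀ y ∉ KV, F y = 0) →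
      (∀ j ≤ M, ∀ y ∈ KV, ‖iteratedFDeriv ℝ j F y‖ ≤ D) →
      ∀ w, ‖𝓕 F w‖ ≤ C * D / (1 + ‖w‖) ^ M := by
  refine ⟨2 ^ M * (2 * (2 ^ M * (M + 1) * (volume.real KV + 1))), by positivity,
    fun F D hD hF h0 hb w => ?_⟩
  have hts : tsupport F ⊆ KV :=
    closure_minimal (fun y hy => by
      by_contra h
      exact hy (h0 y h)) hV.isClosed
  have hc : HasCompactSupport F := hV.of_isClosed_subset (isClosed_tsupport F) hts
  have hz : ∀ j : ℕ, ∀ y ∉ KV, iteratedFDeriv ℝ j F y = 0 := by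
    intro j y hy
    by_contra h
    exact hy (hts (support_iteratedFDeriv_subset j h))
  have hcont : ∀ j : ℕ, Continuous (iteratedFDeriv ℝ j F) := fun j =>
    hF.continuous_iteratedFDeriv (m := j) (by exact_mod_cast le_top)
  have hint : ∀ k j : ℕ, Integrable (fun v : V => ‖v‖ ^ k * ‖iteratedFDeriv ℝ j F v‖) := by
    intro k j
    apply Continuous.integrable_of_hasCompactSupport
    · exact (continuous_norm.pow k).mul (hcont j).norm
    · exact (hc.iteratedFDeriv j).norm.mul_left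
  have hI : ∀ j ≤ M, ∫ v, ‖iteratedFDeriv ℝ j F v‖ ≤ D * (volume.real KV + 1) := by
    intro j hj
    have e : ∫ v, ‖iteratedFDeriv ℝ j F v‖ = ∫ v in KV, ‖iteratedFDeriv ℝ j F v‖ := by
      rw [setIntegral_eq_integral_of_forall_compl_eq_zero]
      intro y hy
      rw [hz j y hy, norm_zero]
    rw [e]
    have h1 := norm_setIntegral_le_of_norm_le_const (μ := volume) (s := KV)
      (f := fun v => ‖iteratedFDeriv ℝ j F v‖) (C := D) hV.measure_lt_top
      (fun y hy => by rw [norm_norm]; exact hb j hj y hy)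
    have h2 := (Real.le_norm_self _).trans h1
    nlinarith
  have hn : ∀ n ≤ M, ‖w‖ ^ n * ‖𝓕 F w‖ ≤ 2 ^ M * (M + 1) * (volume.real KV + 1) * D := by
    intro n hn
    have h := Real.pow_mul_norm_iteratedFDeriv_fourier_le (K := ⊤) (N := ⊤) hF
      (fun k j _ _ => hint k j) (k := 0) (n := n) le_top le_top w
    simp only [norm_iteratedFDeriv_zero, pow_zero, one_mul, Nat.cast_zero, mul_zero, zero_add,
      Finset.range_one, Finset.singleton_product, Finset.sum_map,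
      Function.Embedding.coeFn_mk] at h
    refine h.trans ?_
    have h1 : ∑ j ∈ range (n + 1), ∫ v, ‖iteratedFDeriv ℝ j F v‖ ≤
        (M + 1) * (D * (volume.real KV + 1)) := by
      calc _ ≤ ∑ _j ∈ range (n + 1), D * (volume.real KV + 1) :=
            Finset.sum_le_sum fun j hj => hI j (by
              have := Finset.mem_range.1 hj
              omega)
        _ = (n + 1) * (D * (volume.real KV + 1)) := by simp
        _ ≤ _ := by
            have : (n : ℝ) ≤ M := by exact_mod_cast hn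
            gcongr
    have h2 : (2 : ℝ) ^ n ≤ 2 ^ M := pow_le_pow_right₀ (by norm_num) hn
    calc _ ≤ (2 : ℝ) ^ M * ((M + 1) * (D * (volume.real KV + 1))) := by
          gcongr
          exact Finset.sum_nonneg fun j _ => integral_nonneg fun _ => norm_nonneg _
      _ = _ := by ring
  rw [le_div_iff₀ (by positivity)]
  have h0' := hn 0 (Nat.zero_le _)
  have hM := hn M le_rfl
  have hp : (1 + ‖w‖) ^ M ≤ 2 ^ M * (1 + ‖w‖ ^ M) := by
    have h := add_pow_le (a := (1 : ℝ)) (b := ‖w‖) zero_le_one (norm_nonneg _) M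
    rw [one_pow] at h
    refine h.trans ?_
    gcongr
    · norm_num
    · omega
  rw [pow_zero, one_mul] at h0'
  calc ‖𝓕 F w‖ * (1 + ‖w‖) ^ M ≤ ‖𝓕 F w‖ * (2 ^ M * (1 + ‖w‖ ^ M)) := by gcongr
    _ = 2 ^ M * (‖𝓕 F w‖ + ‖w‖ ^ M * ‖𝓕 F w‖) := by ring
    _ ≤ 2 ^ M * (2 ^ M * (M + 1) * (volume.real KV + 1) * D +
          2 ^ M * (M + 1) * (volume.real KV + 1) * D) := by gcongr
    _ = _ := by ring

/-- uniform Fourier separation of variables -/
theorem sep {k n : ℕ} (A : (Fin k → ℝ) × (Fin n → ℝ) → ℂ) (ph : (Fin k → ℝ) × (Fin n → ℝ) → ℝ)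
    (Om : ℝ → ℂ) (hA : ContDiff ℝ ∞ A) (hph : ContDiff ℝ ∞ ph) (hOm : ContDiff ℝ ∞ Om)
    (hB : ∀ j : ℕ, ∃ B : ℝ, ∀ x, ‖iteratedDeriv j Om x‖ ≤ B) (R : ℝ)
    (hR : ∀ p y, R < ‖y‖ → A (p, y) = 0) (M : ℕ) :
    ∃ C : ℝ, 0 < C ∧ ∀ p : Fin k → ℝ, ‖p‖ ≤ R → ∀ xi : ℝ, ∃ c : (Fin n → ℝ) → ℂ,
      Continuous c ∧ Integrable c ∧ (∀ z, ‖c z‖ ≤ C * (1 + |xi|) ^ M / (1 + ‖z‖) ^ M) ∧
      ∀ y, A (p, y) * Om (xi * ph (p, y)) = ∫ z, c z * ex (∑ i, z i * y i) := by
  set L : EuclideanSpace ℝ (Fin n) ≃L[ℝ] (Fin n → ℝ) := EuclideanSpace.equiv (Fin n) ℝ with hL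
  have hLc : ContDiff ℝ ∞ (fun w : (Fin k → ℝ) × EuclideanSpace ℝ (Fin n) => (w.1, L w.2)) :=
    contDiff_fst.prodMk (L.contDiff.comp contDiff_snd)
  set KV : Set (EuclideanSpace ℝ (Fin n)) := L ⁻¹' Metric.closedBall 0 R with hKV
  have hV : IsCompact KV := L.toHomeomorph.isCompact_preimage.2 (isCompact_closedBall 0 R)
  obtain ⟨C1, hC1, h1⟩ := prod_bd (fun w => A (w.1, L w.2)) (fun w => ph (w.1, L w.2)) Om
    (hA.comp hLc) (hph.comp hLc) hOm hB (Metric.closedBall 0 R) KV (isCompact_closedBall 0 R) hV M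
  obtain ⟨C2, hC2, h2⟩ := four_bd KV hV M
  refine ⟨C2 * C1, by positivity, fun p hp xi => ?_⟩
  set F : EuclideanSpace ℝ (Fin n) → ℂ := fun y => A (p, L y) * Om (xi * ph (p, L y)) with hF
  have hq : ContDiff ℝ ∞ (fun y : EuclideanSpace ℝ (Fin n) => (p, L y)) :=
    contDiff_const.prodMk L.contDiff
  have hFc : ContDiff ℝ ∞ F :=
    (hA.comp hq).mul (hOm.comp (contDiff_const.mul (hph.comp hq)))
  have hF0 : ∀ y ∉ KV, F y = 0 := by
    intro y hy
    have : R < ‖L y‖ := by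
      simpa [hKV] using hy
    simp only [hF, hR p _ this, zero_mul]
  have hts : tsupport F ⊆ KV :=
    closure_minimal (fun y hy => by
      by_contra h
      exact hy (hF0 y h)) hV.isClosed
  have hc : HasCompactSupport F := hV.of_isClosed_subset (isClosed_tsupport F) hts
  have hb := h2 F (C1 * (1 + |xi|) ^ M) (by positivity) hFc hF0
    (fun j hj y hy => h1 j hj p (by simpa using hp) xi y hy)
  set S := hc.toSchwartzMap hFc with hS
  have hSF : (S : EuclideanSpace ℝ (Fin n) → ℂ) = F := rfl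
  have hFF : 𝓕 F = ((𝓕 S : SchwartzMap _ ℂ) : EuclideanSpace ℝ (Fin n) → ℂ) := by
    rw [SchwartzMap.fourier_coe, hSF]
  have hFi : Integrable (𝓕 F) := by
    rw [hFF]
    exact (𝓕 S).integrable
  have hFcont : Continuous (𝓕 F) := by
    rw [hFF]
    exact (𝓕 S).continuous
  have hmp : MeasurePreserving (@WithLp.toLp 2 (Fin n → ℝ)) := PiLp.volume_preserving_toLp (Fin n)
  have hme : MeasurableEmbedding (@WithLp.toLp 2 (Fin n → ℝ)) :=
    (MeasurableEquiv.toLp 2 (Fin n → ℝ)).measurableEmbedding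
  refine ⟨fun z => 𝓕 F (WithLp.toLp 2 z), hFcont.comp (PiLp.continuous_toLp 2 _),
    (hmp.integrable_comp_emb hme).2 hFi, fun z => ?_, fun y => ?_⟩
  · refine (hb _).trans ?_
    have hz : ‖z‖ ≤ ‖(WithLp.toLp 2 z : EuclideanSpace ℝ (Fin n))‖ := by
      refine (pi_norm_le_iff_of_nonneg (norm_nonneg _)).2 fun i => ?_
      exact PiLp.norm_apply_le (WithLp.toLp 2 z : EuclideanSpace ℝ (Fin n)) i
    rw [← mul_assoc]
    gcongr
  · have hinv := (hFc.continuous.fourierInv_fourier_eq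
      (hFc.continuous.integrable_of_hasCompactSupport hc) hFi)
    have e1 : A (p, y) * Om (xi * ph (p, y)) = F (WithLp.toLp 2 y) := rfl
    have e2 : F (WithLp.toLp 2 y) = 𝓕⁻ (𝓕 F) (WithLp.toLp 2 y) := by rw [hinv]
    rw [e1, e2, Real.fourierInv_eq', ← hmp.integral_comp hme]
    refine integral_congr_ae (Filter.Eventually.of_forall fun z => ?_)
    simp only [smul_eq_mul]
    rw [mul_comm]
    congr 1
    unfold ex
    congr 1
    rw [mul_comm]
    congr 2
    simp [PiLp.inner_apply, mul_comm]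

end Pool.Agent.MP_c853c5_nt.W.Sp

namespace Pool.Agent.MP_c853c5_nt.W

theorem sep_stmt : SepStmt := by
  intro k n A φ Ω R hA hφ hΩ hR M
  obtain ⟨C, hC, h⟩ := Sp.sep (fun p => (A p : ℂ)) φ Ω (Complex.ofRealCLM.contDiff.comp hA) hφ
    hΩ.1 hΩ.2 R (fun p y hy => by simp only [hR (p, y) hy, Complex.ofReal_zero]) M
  refine ⟨C, hC, fun π ξ hπ => ?_⟩
  obtain ⟨c, h1, h2, h3, h4⟩ := h π hπ ξ
  exact ⟨c, h1.measurable, h2, h3, h4⟩

end Pool.Agent.MP_c853c5_nt.W
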