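import Pool.Agent.MP_c853c5_nt.W.Api

set_option autoImplicit false

open Finset MeasureTheory
open scoped ENNReal ComplexConjugate

namespace Pool.Agent.MP_c853c5_nt.W

open Pool.Agent.MP_2a1f0e_nt Pool.Agent.MP_2a1f0e_nt.GM Pool.Agent.MP_2a1f0e_nt.DH

lemma fin_Shp (hC : CrudeStmt) {μ : Measure MM} (hμ : UM μ) {α : ℝ} (hα : 0 < α) (H2 H : ℝ)
    {S : Pr → MM → Prop} (h : ∀ P x, S P x → SupA α H2 H P x) : LL μ S ≠ ⊤ := by
  obtain ⟨C, -, hC⟩ := hC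
  have h1 := abs_nonneg H2
  have h2 := abs_nonneg H
  refine ne_top_of_le_ne_top ENNReal.ofReal_ne_top (le_trans ?_
    (hC μ hμ (1 + α + |H2| + |H|) α H2 H (by
      unfold Bd
      refine ⟨?_, ?_, ?_, ?_, ?_⟩ <;> linarith)))
  exact lintegral_mono fun x => pow_le_pow_left' (ENNReal.tsum_le_tsum fun P => iE_mono (h P x)) 2

theorem shp_stmt (hR : RtStmt) (hC : CrudeStmt) : ShpStmt := by
  intro μ hμ α hα
  have d0 : ∀ {H2 H : ℝ} {P : Pr} {x : MM}, SupA α H2 H P x → dt x ≠ 0 := fun h =>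
    (one_pos.trans_le h.2.2.2.1).ne'
  refine ⟨fun H2 H => ⟨fun _ _ => rfl, fun P G x h => sup_inv α H2 H P x h,
      measurableSet_Sup α H2 H, fun P x h => ⟨h.2.1, h.2.2.1, d0 h.2, h.1⟩,
      fin_Shp hC hμ hα H2 H fun _ _ h => h.2⟩,
    fun H2 H m hm => ⟨fun _ _ => rfl, fun P G x h => ?_,
      fun P => (continuous_rm m).measurable (measurableSet_Sup α H2 H P),
      fun P x h => ⟨h.2.1, h.2.2.1, ?_, h.1⟩, ?_⟩,
    fun a b hab => ⟨vg_vg _, fun P G x h => supL_inv α P x h, measurableSet_SupL α,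
      fun P x h => ⟨h.2.1, h.2.2.1, d0 h.2, (prim_vg h.1 _).2 ?_⟩,
      fin_Shp hC hμ hα 1 1 fun _ _ h => h.2⟩,
    fun _ _ => rfl, fun P G x h => supL_inv α P x h, measurableSet_SupL α,
      fun P x h => ⟨h.2.1, h.2.2.1, d0 h.2, h.2.1⟩, fin_Shp hC hμ hα 1 1 fun _ _ h => h.2⟩
  · rw [sup_inv α H2 H P _ h, act_rm]
  · have h1 := d0 h.2
    rwa [dt_rm, hm, mul_one] at h1
  · obtain ⟨h1, h2⟩ := hR μ m hμ hm
    have h3 := fin_Shp hC h1 hα H2 H (S := Sup α H2 H) fun _ _ h => h.2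
    rwa [LL, h2] at h3
  · exact (Int.gcd_natCast_natCast a b).trans hab

end Pool.Agent.MP_c853c5_nt.W
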