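import Pool.Agent.MP_c853c5_nt.W.Api

set_option autoImplicit false

open Finset MeasureTheory
open scoped ENNReal ComplexConjugate

namespace Pool.Agent.MP_c853c5_nt.W

open Pool.Agent.MP_2a1f0e_nt Pool.Agent.MP_2a1f0e_nt.GM Pool.Agent.MP_2a1f0e_nt.DH

lemma log_Tail {X Y W : ℝ} (hX : 0 < X) (hY : 0 < Y) (h1 : X ≤ W) (h2 : Y ≤ W) :
    |X - Y| ≤ W * |Real.log (X / Y)| := by
  have h3 := Real.one_sub_inv_le_log_of_pos (div_pos hX hY)
  have h4 := Real.log_le_sub_one_of_pos (div_pos hX hY)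
  have h5 := mul_le_mul_of_nonneg_left (h3.trans (le_abs_self _)) hX.le
  have h6 := mul_le_mul_of_nonneg_left ((neg_abs_le _).trans h4) hY.le
  have e1 : X * (1 - (X / Y)⁻¹) = X - Y := by field_simp
  have e2 : Y * (X / Y - 1) = X - Y := by field_simp
  have h7 := mul_le_mul_of_nonneg_right h1 (abs_nonneg (Real.log (X / Y)))
  have h8 := mul_le_mul_of_nonneg_right h2 (abs_nonneg (Real.log (X / Y)))
  exact abs_le.2 ⟨by linarith, by linarith⟩

lemma om_Tail {e u c d : ℝ} (he : 0 < e) (hc : 0 < c) (hd : c ≤ d) (h : om (e * u / c) ≠ 0) :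
    u ≤ 5 / 3 * (d / e) := by
  have h1 := (om_mem h).2
  rw [div_lt_iff₀ hc] at h1
  rw [← mul_div_assoc, le_div_iff₀ he]
  linarith

lemma card_Tail (M : ℕ) : (Bx M).card ≤ M ^ 4 := by
  refine (card_filter_le _ _).trans ?_
  simp only [card_product, Int.card_Icc, add_sub_cancel_right, Int.toNat_natCast]
  exact le_of_eq (by ring)

theorem tail_stmt (hW : WhStmt) : TailStmt := by
  intro δ hδ
  obtain ⟨A, hA⟩ := exists_nat_ge (14 / δ)
  obtain ⟨C, hC, hw⟩ := hW.2.2 A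
  refine ⟨20 ^ 4 * (3 * C * 6 ^ A), by positivity, ?_⟩
  rintro T y N M a b e f κ ⟨hT, hy, -, hN, -, -, hM⟩ ha hb he hf h1 h2
  have hT0 : 0 < T := by linarith
  have he0 : (0 : ℝ) < e := by exact_mod_cast he
  have hf0 : (1 : ℝ) ≤ f := by exact_mod_cast hf
  have hN0 : (0 : ℝ) < N := by exact_mod_cast hN
  have hab : ∀ c ∈ Icc N (2 * N), 0 < (c : ℝ) * y ∧ (c : ℝ) * y ≤ 2 * (N * y) := fun c hc => by
    have k1 : (N : ℝ) ≤ c := by exact_mod_cast (mem_Icc.1 hc).1
    have k2 : (c : ℝ) ≤ 2 * N := by exact_mod_cast (mem_Icc.1 hc).2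
    exact ⟨mul_pos (by linarith) hy, by nlinarith⟩
  have key : ∀ P ∈ Bx M, ‖Gw T y a b e f P * κ P‖ ≤ 3 * C * 6 ^ A * y ^ 2 / T ^ 14 := by
    intro P hP
    by_cases h0 : Gw T y a b e f P * κ P = 0
    · rw [h0, norm_zero]
      positivity
    have h3 := h2 P (right_ne_zero_of_mul h0)
    have h4 := left_ne_zero_of_mul (left_ne_zero_of_mul h0)
    rw [Complex.ofReal_ne_zero] at h4
    simp only [mul_ne_zero_iff] at h4
    obtain ⟨⟨⟨o1, o2⟩, o3⟩, o4⟩ := h4
    simp only [Bx, mem_filter, mem_product, mem_Icc] at hP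
    obtain ⟨⟨⟨⟨p1, -⟩, p2, -⟩, ⟨p3, -⟩, p4, -⟩, -⟩ := hP
    have q1 : (1 : ℝ) ≤ P.1.1 := by exact_mod_cast p1
    have q2 : (1 : ℝ) ≤ P.1.2 := by exact_mod_cast p2
    have q3 : (1 : ℝ) ≤ P.2.1 := by exact_mod_cast p3
    have q4 : (1 : ℝ) ≤ P.2.2 := by exact_mod_cast p4
    have r1 := om_Tail he0 (hab a ha).1 (hab a ha).2 o1
    have r2 := om_Tail he0 (hab b hb).1 (hab b hb).2 o2
    have r3 := om_Tail (by linarith) hy le_rfl o3
    have r4 := om_Tail (by linarith) hy le_rfl o4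
    have r5 : y / f ≤ y := div_le_self hy.le hf0
    have r6 : 1 ≤ 3 * y ^ 2 := by nlinarith
    rw [mul_div_assoc (2 : ℝ)] at r1 r2
    have y1 : 0 < N * y / e := by positivity
    have y2 : 0 < y / f := by positivity
    have y3 := mul_pos y1 y2
    have s1 := mul_le_mul r1 r4 (by linarith) (by linarith)
    have s2 := mul_le_mul r2 r3 (by linarith) (by linarith)
    have s3 := log_Tail (X := (P.1.1 : ℝ) * P.2.2) (Y := (P.1.2 : ℝ) * P.2.1)
      (W := 6 * (N * y / e * (y / f))) (by positivity) (by positivity) (by linarith) (by linarith)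
    have s4 : (hh P : ℝ) = (P.1.1 : ℝ) * P.2.2 - (P.1.2 : ℝ) * P.2.1 := by
      simp only [hh, om2]; push_cast; ring
    set L := Real.log ((P.1.1 : ℝ) * P.2.2 / ((P.1.2 : ℝ) * P.2.1)) with hL
    have s5 : T ^ δ ≤ 6 * (1 + |T * L|) := by
      rw [s4, div_le_iff₀ hT0] at h3
      have s6 := h3.trans (mul_le_mul_of_nonneg_right s3 hT0.le)
      have s7 : T ^ δ ≤ 6 * (T * |L|) := le_of_mul_le_mul_right (by linarith) y3
      rw [abs_mul, abs_of_pos hT0]
      linarith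
    have s8 : T ^ 14 ≤ 6 ^ A * (1 + |T * L|) ^ A := by
      rw [← mul_pow]
      refine le_trans ?_ (pow_le_pow_left₀ (by positivity) s5 A)
      rw [← Real.rpow_mul_natCast hT0.le, ← Real.rpow_natCast]
      refine Real.rpow_le_rpow_of_exponent_le hT ?_
      rw [div_le_iff₀ hδ] at hA
      push_cast
      linarith
    have s9 : ‖Gw T y a b e f P * κ P‖ ≤ ‖wh (T * L)‖ := by
      rw [norm_mul, Gw, norm_mul]
      refine (mul_le_of_le_one_right (by positivity) (h1 P)).trans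
        (mul_le_of_le_one_left (norm_nonneg _) ?_)
      push_cast
      simp only [norm_mul]
      exact mul_le_one₀ (mul_le_one₀ (mul_le_one₀ (norm_om_le _) (norm_nonneg _) (norm_om_le _))
        (norm_nonneg _) (norm_om_le _)) (norm_nonneg _) (norm_om_le _)
    refine s9.trans ((hw _).trans ?_)
    rw [div_le_div_iff₀ (by positivity) (by positivity)]
    calc C * T ^ 14 ≤ C * (6 ^ A * (1 + |T * L|) ^ A) * 1 := by
          rw [mul_one]
          exact mul_le_mul_of_nonneg_left s8 hC.le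
      _ ≤ C * (6 ^ A * (1 + |T * L|) ^ A) * (3 * y ^ 2) :=
          mul_le_mul_of_nonneg_left r6 (by positivity)
      _ = _ := by ring
  refine (norm_sum_le _ _).trans ((sum_le_card_nsmul _ _ _ key).trans ?_)
  have h5 : ((Bx M).card : ℝ) ≤ (20 * T ^ 2) ^ 4 :=
    le_trans (by exact_mod_cast card_Tail M) (pow_le_pow_left₀ (Nat.cast_nonneg M) hM 4)
  rw [nsmul_eq_mul]
  refine (mul_le_mul_of_nonneg_right h5 (by positivity)).trans (le_of_eq ?_)
  field_simp

end Pool.Agent.MP_c853c5_nt.W
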