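import Pool.Agent.MP_c853c5_nt.W.Api

set_option autoImplicit false

open Finset MeasureTheory
open scoped ENNReal ComplexConjugate

namespace Pool.Agent.MP_c853c5_nt.W

open Pool.Agent.MP_2a1f0e_nt Pool.Agent.MP_2a1f0e_nt.GM Pool.Agent.MP_2a1f0e_nt.DH

lemma NV_le_Term {q : ℕ} (hq : 1 ≤ q) {f : V → ℂ} {Y : ℝ≥0∞} (h : ∀ w, ‖f w‖ₑ ≤ Y) :
    ENNReal.ofReal (NV q f) ≤ ENNReal.ofReal ((q : ℝ) ^ 2) * Y ^ 2 := by
  have q0 : (0 : ℝ) < q := by exact_mod_cast hq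
  by_cases hY : Y = ⊤
  · rw [hY, ENNReal.top_pow (by norm_num),
      ENNReal.mul_top (ENNReal.ofReal_pos.2 (by positivity)).ne']
    exact le_top
  · have h1 : ∀ w ∈ PQ q, ‖f w‖ ≤ Y.toReal := fun w _ => by
      rw [← toReal_enorm]
      exact ENNReal.toReal_mono hY (h w)
    refine (ENNReal.ofReal_le_ofReal ((NV_le_NC q f 0).trans (NC_le_sq hq h1))).trans_eq ?_
    rw [ENNReal.ofReal_mul (sq_nonneg _), ENNReal.ofReal_pow ENNReal.toReal_nonneg,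
      ENNReal.ofReal_toReal hY]

lemma LN_le_Term (μ : Measure MM) {q : ℕ} (hq : 1 ≤ q) (pt : Pr → V) {Ψ : Pk}
    {S : Pr → MM → Prop} {A : ℝ} (hA : 0 ≤ A) (h : ∀ P x, Ψ P x ≠ 0 → S P x ∧ ‖Ψ P x‖ ≤ A) :
    LN μ q pt Ψ ≤ ENNReal.ofReal ((q : ℝ) ^ 2 * A ^ 2) * LL μ S := by
  rw [LN, LF, LL, ← lintegral_const_mul' _ _ ENNReal.ofReal_ne_top]
  refine lintegral_mono fun x => ?_
  refine (NV_le_Term hq (Y := ENNReal.ofReal A * ∑' P : Pr, iE (S P x)) fun w => ?_).trans_eq ?_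
  · rw [← ENNReal.tsum_mul_left]
    refine enorm_tsum_le_tsum_enorm.trans (ENNReal.tsum_le_tsum fun P => ?_)
    by_cases e : Ψ P x = 0
    · rw [e, zero_mul, enorm_zero]
      exact zero_le
    · rw [iE_pos (h P x e).1, mul_one, ← ofReal_norm, norm_mul]
      exact ENNReal.ofReal_le_ofReal
        ((mul_le_of_le_one_right (norm_nonneg _) (norm_ind_le _ _)).trans (h P x e).2)
  · rw [mul_pow, ENNReal.ofReal_mul (sq_nonneg _), ENNReal.ofReal_pow hA, mul_assoc]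

lemma sup_Term {d : Dat} (hd : Adm d.al d.g) {q : ℕ} {H' T₀ : ℝ} (hT : 0 < T₀) {P : Pr} {x : MM}
    (h : tm d q H' T₀ P x ≠ 0) : SupA d.al T₀ H' P x := by
  simp only [tm, pd, mul_ne_zero_iff, Complex.ofReal_ne_zero] at h
  obtain ⟨⟨⟨⟨⟨h1, h2⟩, h3⟩, -⟩, -⟩, h4, h5⟩ := h
  obtain ⟨-, h6, h7⟩ := abs_of_mem (om_mem h4)
  have h8 : |tt P x| / T₀ < 5 / 4 := not_le.1 fun e => h5 (psi_eq_zero e)
  rw [div_lt_iff₀ hT] at h8
  refine ⟨(iC_ne_zero h1).1, (iC_ne_zero h1).2, hd.2.2 _ h2, (om_mem h3).1.le,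
    by linarith [(om_mem h3).2], ?_, h6.le, by linarith [abs_nonneg H']⟩
  rw [abs_of_pos hT]
  linarith

lemma amp_Term {d : Dat} (hd : Adm d.al d.g) {q Q : ℕ} (hQ : 1 ≤ Q) (hq : q ∈ Ico Q (2 * Q))
    {H' T₀ C₈ C₀ : ℝ} (hC : 0 < C₈) (h8 : ∀ ξ y : ℝ, ‖Eh ξ y‖ ≤ C₈ * (1 + |ξ|) ^ 8 / (1 + |y|) ^ 8)
    (h0 : ∀ ξ y : ℝ, ‖Eh ξ y‖ ≤ C₀) {P : Pr} {x : MM} (hP : |H'| ≤ |(hh P : ℝ)|) :
    ‖tm d q H' T₀ P x‖ ≤
      d.PP / Q * (C₈ * d.xi ^ 8 / ((1 + |d.H2| * |H'| / Q) / 2) ^ 8 * C₀) := by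
  have Q0 : (0 : ℝ) < Q := by exact_mod_cast hQ
  have q1 : (Q : ℝ) ≤ q := by exact_mod_cast (mem_Ico.1 hq).1
  have q2 : (q : ℝ) ≤ 2 * Q := by exact_mod_cast (mem_Ico.1 hq).2.le
  have q0 : (0 : ℝ) < q := Q0.trans_le q1
  have hPP := d.PP_nonneg
  have hxi := d.one_le_xi
  have a1 : ‖iC (Prim P.2 ∧ hh P ≠ 0) * d.g (vx P.2 x) * (om (dt x) : ℂ)‖ ≤ 1 := by
    rw [norm_mul, norm_mul]
    exact mul_le_one₀ (mul_le_one₀ (norm_iC_le _) (norm_nonneg _) (hd.2.1 _)) (norm_nonneg _)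
      (norm_om_le _)
  have a2 : ‖((d.PP / q : ℝ) : ℂ)‖ ≤ d.PP / Q := by
    rw [Complex.norm_real, Real.norm_of_nonneg (by positivity)]
    exact div_le_div_of_nonneg_left hPP Q0 q1
  have a3 : ‖((om ((hh P : ℝ) / H') * psi (|tt P x| / T₀) : ℝ) : ℂ)‖ ≤ 1 := by
    rw [Complex.norm_real, Real.norm_of_nonneg (mul_nonneg (om_nonneg _) (psi_nonneg _))]
    exact mul_le_one₀ (om_le_one _) (psi_nonneg _) (psi_le_one _)
  have a4 : |d.H2| * |H'| / Q / 2 ≤ |d.H2 * (hh P : ℝ) / q| := by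
    rw [abs_div, abs_mul, Nat.abs_cast, div_div]
    exact div_le_div₀ (by positivity) (mul_le_mul_of_nonneg_left hP (abs_nonneg _)) q0
      (by linarith)
  have a5 : ‖Eh d.x1 (d.H2 * (hh P : ℝ) / q)‖ ≤
      C₈ * d.xi ^ 8 / ((1 + |d.H2| * |H'| / Q) / 2) ^ 8 := by
    refine (h8 _ _).trans (div_le_div₀ (by positivity) ?_ (by positivity) ?_)
    · refine mul_le_mul_of_nonneg_left (pow_le_pow_left₀ (by positivity) ?_ 8) hC.le
      unfold Dat.xi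
      linarith [abs_nonneg d.x2]
    · exact pow_le_pow_left₀ (by positivity) (by linarith) 8
  rw [tm, pd, norm_mul, norm_mul, norm_mul, norm_mul (Eh _ _)]
  refine (mul_le_of_le_one_right (by positivity) a3).trans (mul_le_mul
    ((mul_le_of_le_one_left (norm_nonneg _) a1).trans a2)
    (mul_le_mul a5 (h0 _ _) (norm_nonneg _) (by positivity)) (by positivity) (by positivity))

theorem term_stmt (hE : EhStmt) (hC : CrudeStmt) : TermStmt := by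
  obtain ⟨C₈, c8, h8⟩ := hE 8
  obtain ⟨C₀, c0, h0⟩ := hE 0
  obtain ⟨C, c1, h1⟩ := hC
  simp only [pow_zero, mul_one, div_one] at h0
  refine ⟨2 ^ 32 * (C₈ ^ 2 * C₀ ^ 2 * C), by positivity, fun μ hμ d Λ Q H' hd _ hQP _ => ?_⟩
  have L1 := hd.one_le
  obtain ⟨a0, hA, a1, a2, a3, hQ, -⟩ := hd
  have Q0 : (0 : ℝ) < Q := by exact_mod_cast hQ
  have L0 : 0 < Λ := by linarith
  have T0 : 0 < 1 / Λ ^ 16 := by positivity
  have hPP := d.PP_nonneg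
  have hxi := d.one_le_xi
  have hDD := d.DD_nonneg
  have key := fun q (hq : q ∈ Ico Q (2 * Q)) => LN_le_Term μ (hQ.trans (mem_Ico.1 hq).1) Prod.fst
    (Ψ := tm d q H' (1 / Λ ^ 16)) (S := SupA d.al (1 / Λ ^ 16) H') (by positivity)
    fun P x e => ⟨sup_Term hA T0 e, amp_Term hA hQ hq c8 h8 h0 (sup_Term hA T0 e).2.2.2.2.2.2.1⟩
  obtain ⟨l, hl⟩ : ∃ l : ℝ, l = |d.H2| * |H'| / Q := ⟨_, rfl⟩
  rw [← hl] at key ⊢
  have l0 : 0 ≤ l := by rw [hl]; positivity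
  have b1 : |H'| ≤ 2 * Λ * l := by
    rw [hl, ← mul_div_assoc, le_div_iff₀ Q0]
    have e1 := mul_le_mul_of_nonneg_left hQP (abs_nonneg H')
    have e2 := mul_le_mul_of_nonneg_left a3 (show 0 ≤ |d.H2| * |H'| by positivity)
    unfold Dat.PP at e1
    linarith
  have b2 : Λ ≤ 2 * Λ * (1 + l) := by nlinarith
  have b3 := h1 μ hμ (2 * Λ * (1 + l)) d.al (1 / Λ ^ 16) H' ⟨L1.trans b2, a0, a1.trans b2, by
    rw [abs_of_pos T0]
    exact ((div_le_one (by positivity)).2 (one_le_pow₀ L1)).trans (L1.trans b2), by linarith⟩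
  rw [abs_of_pos T0] at b3
  have b4 : d.PP ^ 2 * d.al ^ 2 ≤ Λ ^ 2 * d.DD := by
    have e1 : d.PP ^ 2 ≤ Λ ^ 2 * (d.PP + d.H ^ 2) := by
      have e2 : d.PP ^ 2 = |d.H2| ^ 2 * d.H ^ 2 := by rw [Dat.PP, mul_pow, sq_abs d.H]
      rw [e2]
      exact mul_le_mul (pow_le_pow_left₀ (abs_nonneg _) a2 2) (by linarith) (sq_nonneg _)
        (sq_nonneg _)
    have := mul_le_mul_of_nonneg_right e1 (sq_nonneg d.al)
    unfold Dat.DD
    linarith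
  refine (sum_le_card_nsmul _ _ (ENNReal.ofReal (2 ^ 32 * (C₈ ^ 2 * C₀ ^ 2 * C) * d.xi ^ 16 *
    (d.DD / (1 + l) ^ 2))) fun q hq => ?_).trans_eq ?_
  · have q2 : (q : ℝ) ≤ 2 * Q := by exact_mod_cast (mem_Ico.1 hq).2.le
    refine (key q hq).trans ((mul_le_mul_right b3 _).trans ?_)
    rw [← ENNReal.ofReal_mul (by positivity)]
    refine ENNReal.ofReal_le_ofReal ?_
    calc _ ≤ (2 * (Q : ℝ)) ^ 2 * (d.PP / Q * (C₈ * d.xi ^ 8 / ((1 + l) / 2) ^ 8 * C₀)) ^ 2 *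
          (C * (2 * Λ * (1 + l)) ^ 14 * (d.al ^ 2 * (1 / Λ ^ 16))) := by gcongr
      _ = 2 ^ 32 * (C₈ ^ 2 * C₀ ^ 2 * C) * d.xi ^ 16 *
          (d.PP ^ 2 * d.al ^ 2 / Λ ^ 2 / (1 + l) ^ 2) := by
          field_simp
      _ ≤ _ := by
          gcongr
          rw [div_le_iff₀ (by positivity)]
          linarith
  · rw [Nat.card_Ico, show 2 * Q - Q = Q by omega, nsmul_eq_mul, ← ENNReal.ofReal_natCast,
      ← ENNReal.ofReal_mul Q0.le]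
    congr 1
    ring

end Pool.Agent.MP_c853c5_nt.W
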