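import Pool.Agent.MP_c853c5_nt.W.Api

set_option autoImplicit false

open Finset MeasureTheory
open scoped ENNReal ComplexConjugate

namespace Pool.Agent.MP_c853c5_nt.W

open Pool.Agent.MP_2a1f0e_nt Pool.Agent.MP_2a1f0e_nt.GM Pool.Agent.MP_2a1f0e_nt.DH

lemma one_Th {k : ℝ} (hk : k ≠ 0) (c : ℝ) : Integrable (fun t : ℝ => bb (t * k - c)) ∧
    ∫ t : ℝ, bb (t * k - c) = |k⁻¹| * ∫ t : ℝ, bb t := by
  have h : Integrable bb := bmp.integrable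
  refine ⟨(h.comp_sub_right c).comp_mul_right' hk, ?_⟩
  rw [Measure.integral_comp_mul_right (fun t => bb (t - c)) k, integral_sub_right_eq_self,
    smul_eq_mul]

lemma two_Th {α β : Type} [MeasureSpace α] [MeasureSpace β] [SFinite (volume : Measure α)]
    [SFinite (volume : Measure β)] {f : α → ℝ} {g : β → ℝ} (hf : Integrable f)
    (hg : Integrable g) : Integrable (fun z : α × β => f z.1 * g z.2) ∧
      ∫ z : α × β, f z.1 * g z.2 = (∫ x, f x) * ∫ y, g y := by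
  rw [Measure.volume_eq_prod]
  exact ⟨hf.mul_prod hg, integral_prod_mul f g⟩

theorem th_stmt (hC : CoVStmt) : ThStmt := by
  refine ⟨pow_pos bmp.integral_pos 4, fun A₀ z hA hr => ?_⟩
  have hr' : (rI z : ℝ) ≠ 0 := by exact_mod_cast hr
  have k1 : A₀⁻¹ ≠ 0 := inv_ne_zero hA.ne'
  have k2 : A₀ / (rI z : ℝ) ≠ 0 := div_ne_zero hA.ne' hr'
  obtain ⟨a1, b1⟩ := one_Th k1 1
  obtain ⟨a2, b2⟩ := one_Th k1 0
  obtain ⟨a3, b3⟩ := one_Th k2 0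
  obtain ⟨a4, b4⟩ := one_Th k2 (32 / 25)
  obtain ⟨a5, b5⟩ := two_Th a1 a2
  obtain ⟨a6, b6⟩ := two_Th a3 a4
  obtain ⟨a7, b7⟩ := two_Th a5 a6
  obtain ⟨-, -, h3, h4⟩ := hC.1 (z.1.2, z.2.2) hr
  have e : th0 A₀ z = fun x => (fun Z : MM => (bb (Z.1.1 * A₀⁻¹ - 1) * bb (Z.1.2 * A₀⁻¹ - 0)) *
      (bb (Z.2.1 * (A₀ / (rI z : ℝ)) - 0) * bb (Z.2.2 * (A₀ / (rI z : ℝ)) - 32 / 25)))
      (act (z.1.2, z.2.2) x) := by
    funext x
    simp only [th0, th, act, sub_zero, div_eq_mul_inv, mul_assoc]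
  rw [e]
  refine ⟨h4 _ a7, (h3 _).trans ?_⟩
  rw [b7, b5, b6, b1, b2, b3, b4, c0, show hh (z.1.2, z.2.2) = rI z from rfl, inv_inv, inv_div,
    abs_div, abs_of_pos hA, ← sq_abs (rI z : ℝ)]
  have h5 : |(rI z : ℝ)| ≠ 0 := abs_ne_zero.2 hr'
  field_simp

end Pool.Agent.MP_c853c5_nt.W
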