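import Pool.Agent.MP_c853c5_nt.W.TopSumA

/-! The summation at the top level. -/

set_option autoImplicit false

open Finset MeasureTheory
open scoped ENNReal ComplexConjugate

namespace Pool.Agent.MP_c853c5_nt.W

open Pool.Agent.MP_2a1f0e_nt Pool.Agent.MP_2a1f0e_nt.GM Pool.Agent.MP_2a1f0e_nt.DH

lemma norm_Zo_TopSum {y : ℝ} (hy : 0 < y) (t : ℝ) : ‖Zo y t‖ ≤ 2 * y := by
  refine (norm_sum_le _ _).trans ((sum_le_card_nsmul _ _ 1 fun n _ => ?_).trans ?_)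
  · rw [norm_mul, norm_pw, mul_one]
    exact norm_om_le _
  · simpa using Nat.floor_le (show 0 ≤ 2 * y by linarith)

lemma small_TopSum {N : ℕ} {T y : ℝ} {α : ℕ → ℂ} (hT : 1 ≤ T) (hT' : T ≤ 10 ^ 8) (hy : 0 < y)
    (hy' : y ≤ 2 * T) (hN : 1 ≤ N) (hN' : (N : ℝ) ≤ 2 * T) (hα : ∀ n, ‖α n‖ ≤ 1) :
    ∫ t in T..(2 * T), ‖Zo y t‖ ^ 4 * ‖DP N α t‖ ^ 2 ≤ 10 ^ 27 * (T * (y ^ 2 * N)) := by
  have n1 : (1 : ℝ) ≤ N := by exact_mod_cast hN
  have h := intervalIntegral.norm_integral_le_of_norm_le_const (a := T) (b := 2 * T)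
    (f := fun t => ‖Zo y t‖ ^ 4 * ‖DP N α t‖ ^ 2) (C := (2 * y) ^ 4 * (2 * N) ^ 2) fun t _ => by
      rw [Real.norm_of_nonneg (by positivity)]
      have h1 := norm_Zo_TopSum hy t
      have h2 : ‖DP N α t‖ ≤ 2 * N := (norm_DP_le N α hα t).trans (by linarith)
      gcongr
  rw [abs_of_nonneg (by linarith)] at h
  refine ((le_abs_self _).trans h).trans ?_
  have h3 : y ^ 2 * N ≤ (2 * 10 ^ 8) ^ 2 * (2 * 10 ^ 8) := by
    have : y ≤ 2 * 10 ^ 8 := by linarith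
    have : (N : ℝ) ≤ 2 * 10 ^ 8 := by linarith
    gcongr
  have h4 : 0 ≤ T * (y ^ 2 * N) := by positivity
  calc _ = 64 * (y ^ 2 * N) * (T * (y ^ 2 * N)) := by ring
    _ ≤ _ := mul_le_mul_of_nonneg_right (by linarith) h4

lemma red_TopSum (hE : ExpStmt) {N : ℕ} {T : ℝ} (y : ℝ) {α : ℕ → ℂ} (hT : 0 < T) (hN : 1 ≤ N)
    (hα : ∀ n, ‖α n‖ ≤ 1) : ∫ t in T..(2 * T), ‖Zo y t‖ ^ 4 * ‖DP N α t‖ ^ 2 ≤
      T * ∑ a ∈ Icc N (2 * N), ∑ b ∈ Icc N (2 * N), ‖Q4 T y a b‖ := by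
  obtain ⟨h1, h2⟩ := hE N T y α hN hT
  rw [intervalIntegral.integral_of_le (by linarith)]
  calc _ = ∫ t in Set.Ioc T (2 * T), Wt (t / T) * (‖Zo y t‖ ^ 4 * ‖DP N α t‖ ^ 2) :=
        setIntegral_congr_fun measurableSet_Ioc fun t ht => by
          rw [Wt_eq_one ((one_le_div hT).2 ht.1.le) ((div_le_iff₀ hT).2 ht.2), one_mul]
    _ ≤ ∫ t, Wt (t / T) * (‖Zo y t‖ ^ 4 * ‖DP N α t‖ ^ 2) :=
        setIntegral_le_integral h1 (Filter.Eventually.of_forall fun t =>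
          mul_nonneg (Wt_nonneg _) (by positivity))
    _ ≤ _ := by
        refine (le_abs_self _).trans ?_
        rw [← Real.norm_eq_abs, ← Complex.norm_real, h2, norm_mul, Complex.norm_real,
          Real.norm_of_nonneg hT.le]
        refine mul_le_mul_of_nonneg_left ((norm_sum_le _ _).trans (sum_le_sum fun a _ =>
          (norm_sum_le _ _).trans (sum_le_sum fun b _ => ?_))) hT.le
        rw [norm_mul, norm_mul, Complex.norm_conj]
        exact mul_le_of_le_one_left (norm_nonneg _) (mul_le_one₀ (hα a) (norm_nonneg _) (hα b))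

lemma n1_TopSum {T : ℝ} (T0 : 0 < T) (n : ℝ) : T * ((n ^ 2 + √T) / √T) = T + √T * n ^ 2 := by
  have s0 : 0 < √T := Real.sqrt_pos.2 T0
  have := Real.mul_self_sqrt T0.le
  field_simp
  nlinarith

lemma n2_TopSum {T m p : ℝ} (h1 : 1 ≤ T) (a1 : m ≤ 4 * p + 1) (a2 : p ≤ 2 * T * (2 * T)) :
    m ≤ 20 * T ^ 2 := by nlinarith

lemma n3_TopSum {T m x : ℝ} (h1 : 1 ≤ T) (a1 : m ≤ 20 * T ^ 2) (a2 : 20 * T ^ 3 ≤ x) :
    m ≤ x := by nlinarith [sq_nonneg T]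

lemma n4_TopSum {T n : ℝ} (h1 : 1 ≤ T) (a0 : 1 ≤ n) (a1 : n ≤ 2 * T) :
    (n + 1) ^ 2 ≤ 9 * T ^ 2 := by nlinarith

lemma n5_TopSum {i Δ : ℝ} (h1 : 1 ≤ Δ) (a1 : i ≤ 3 * Δ) : i ≤ 3 * Δ ^ 2 := by nlinarith

theorem topSum_stmt (hE : ExpStmt) (hR : RepStmt) (hD : DiagStmt) (hL : Lev1Stmt)
    (hT : TailStmt) (hG : GcdStmt) : TopSumStmt := by
  intro hP ε hε
  obtain ⟨η, -, hη, m, hP⟩ := hP (ε / 12) (by positivity)
  obtain ⟨K, hK, hP⟩ := hP (ε / 6) (by positivity)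
  obtain ⟨CD, hCD, hD⟩ := hD (ε / 2) (by positivity)
  obtain ⟨CL, hCL, hL⟩ := hL (ε / 2) (by positivity)
  obtain ⟨δ, hδ, hδ1, hδ2⟩ : ∃ δ : ℝ, 0 < δ ∧ δ ≤ 1 / 4 ∧ m * δ ≤ ε / 6 := by
    refine ⟨min (1 / 4) (ε / 6 / (m + 1)), by positivity, min_le_left _ _, ?_⟩
    refine (mul_le_mul_of_nonneg_left (min_le_right _ _) (Nat.cast_nonneg m)).trans ?_
    rw [mul_div_assoc', div_le_iff₀ (by positivity)]
    nlinarith
  obtain ⟨CT, hCT, hT⟩ := hT δ hδ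
  obtain ⟨C₀, hC₀, hX⟩ := exD 3 4 20 (half_pos hε)
  refine ⟨10 ^ 27 + (CD + 3600 * CT + 16 * CL + 24 * K) * C₀, by positivity,
    fun N T y α h1 hy hy' hN hN' hα => ?_⟩
  have T0 : 0 < T := by linarith
  have n1 : (1 : ℝ) ≤ N := by exact_mod_cast hN
  have s0 : 0 < √T := Real.sqrt_pos.2 T0
  obtain ⟨Wd, hW1, hW2, hW3⟩ : ∃ Wd : ℝ, 1 ≤ Wd ∧
      Wd = (1 + y ^ 2 / T) ^ 2 * (((N : ℝ) ^ 2 + √T) / √T) ∧
      T * (N * y ^ 2 * Wd) = (T + √T * (N : ℝ) ^ 2) * (y ^ 2 * N) * (1 + y ^ 2 / T) ^ 2 := by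
    refine ⟨_, one_le_mul_of_one_le_of_one_le (one_le_pow₀ (le_add_of_nonneg_right (by positivity)))
      ((one_le_div s0).2 (le_add_of_nonneg_left (by positivity))), rfl, ?_⟩
    rw [← n1_TopSum T0]
    ring
  rw [← hW3]
  have u1 : 1 ≤ T ^ ε := Real.one_le_rpow h1 hε.le
  have Z0 : 0 < (N : ℝ) * y ^ 2 := by positivity
  have Z1 : (N : ℝ) * y ^ 2 ≤ N * y ^ 2 * Wd := le_mul_of_one_le_right Z0.le hW1
  rcases le_total T (10 ^ 8) with hs | hs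
  · refine (small_TopSum h1 hs hy hy' hN hN' hα).trans ?_
    refine mul_le_mul (le_trans ?_ (le_mul_of_one_le_right (by positivity) u1))
      (mul_le_mul_of_nonneg_left (by linarith) T0.le) (by positivity) (by positivity)
    exact le_add_of_nonneg_right (by positivity)
  obtain ⟨X, Δ, hΔ, hX1, hX2⟩ := hX T h1
  have d1 : 1 ≤ Δ := hΔ.1
  obtain ⟨M, hM⟩ : ∃ M : ℕ, Rg T y N M := by
    refine ⟨⌈4 * N * y⌉₊, h1, hy, hy', hN, hN', Nat.le_ceil _, ?_⟩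
    have a1 := (Nat.ceil_lt_add_one (show 0 ≤ 4 * N * y by positivity)).le
    have a2 : (N : ℝ) * y ≤ 2 * T * (2 * T) := by gcongr
    exact n2_TopSum h1 (by rwa [mul_assoc] at a1 ⊢) a2
  have M1 : (M : ℝ) ≤ 20 * T ^ 2 := hM.2.2.2.2.2.2
  have MX : M ≤ X := by
    have : (M : ℝ) ≤ X := n3_TopSum h1 M1 hX1
    exact_mod_cast this
  set U := T ^ (ε / 2) with hU
  have U1 : 1 ≤ U := Real.one_le_rpow h1 (by positivity)
  have key : ∀ e ∈ Icc 1 M, ∀ f ∈ Icc 1 M, ∑ a ∈ Icc N (2 * N), ∑ b ∈ Icc N (2 * N),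
      ‖TS T y a b e f M fun P => iC (Nat.Coprime (ap a e) (ap b e)) *
        ind (ap a e * ap b e) (om2 ((ap a e : ℤ), (ap b e : ℤ)) P.1)‖ ≤
      ∑ a ∈ Icc N (2 * N), ∑ b ∈ Icc N (2 * N),
        ‖TS T y a b e f M fun P => iC (hh P = 0) * dlT a b e P‖ +
        (9 * T ^ 2 * (CT * y ^ 2 / T ^ 6) +
          (4 * CL + 6 * K) * Δ ^ 2 * U * (N * y ^ 2 * Wd) * (1 / e * (1 / f))) := by
    intro e he f hf
    have e1 := (mem_Icc.1 he).1
    have f1 := (mem_Icc.1 hf).1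
    have e1' : (1 : ℝ) ≤ e := by exact_mod_cast e1
    have f1' : (1 : ℝ) ≤ f := by exact_mod_cast f1
    have eq : (N : ℝ) * y / e * (y / f) = N * y ^ 2 * (1 / e * (1 / f)) := by ring
    have v0 : (0 : ℝ) < 1 / e * (1 / f) := by positivity
    have v1 : (1 : ℝ) / e * (1 / f) ≤ 1 :=
      mul_le_one₀ ((div_le_one (by linarith)).2 e1') (by positivity)
        ((div_le_one (by linarith)).2 f1')
    obtain ⟨I, hI1, hI2, hI3⟩ := exI_TopSum (B := T ^ δ * (N * y / e * (y / f)) / T) hΔ (by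
      have b1 : T ^ δ ≤ T := by
        simpa using Real.rpow_le_rpow_of_exponent_le h1 (show δ ≤ 1 by linarith)
      have b2 : (N : ℝ) * y ^ 2 ≤ 2 * T * (2 * T) ^ 2 := by gcongr
      have b3 : (N : ℝ) * y / e * (y / f) ≤ 8 * T ^ 3 := by
        rw [eq]
        exact (mul_le_of_le_one_right Z0.le v1).trans (by linarith)
      have b4 : T ^ δ * (N * y / e * (y / f)) / T ≤ 8 * T ^ 3 := by
        rw [div_le_iff₀ T0, mul_comm (8 * T ^ 3)]
        gcongr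
      linarith [pow_pos T0 3])
    refine (ef_TopSum (I := I) (g := 2 * Δ) (c₁ := CL * U * (N * y / e * (y / f)))
      (c₃ := CT * y ^ 2 / T ^ 6) (c₄ := K * U * (N * y / e * (y / f) * Wd)) hN (by positivity)
      ((hG.2.2.1 e N e1 hN).trans (by linarith [hΔ.2 e ((mem_Icc.1 he).2.trans MX)]))
      (fun a ha b hb => hL T y N M a b e f hM ha hb e1 f1)
      (fun a ha b hb κ k1 k2 => hT T y N M a b e f κ hM ha hb e1 f1 k1
        fun P k => hI2.trans (k2 P k)) fun s hs' => ?_).trans (add_le_add le_rfl ?_)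
    · refine (hP δ T y _ N M e f hδ hδ1 hs hM he hf ?_ ?_).trans ?_
      · rw [abs_Ts_TopSum]
        exact le_mul_of_one_le_right (by norm_num) (one_le_pow₀ (by norm_num))
      · rw [abs_Ts_TopSum]
        exact hI3 _ hs'
      · rw [hW2, mul_assoc (N * y / e * (y / f))]
        refine mul_le_mul_of_nonneg_right (mul_le_mul_of_nonneg_left
          (Real.rpow_le_rpow_of_exponent_le h1 (by linarith)) hK.le) (by positivity)
    · have c1 : ((N : ℝ) + 1) ^ 2 * (CT * y ^ 2 / T ^ 6) ≤ 9 * T ^ 2 * (CT * y ^ 2 / T ^ 6) :=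
        mul_le_mul_of_nonneg_right (n4_TopSum h1 n1 hN') (by positivity)
      have c2 : (2 * Δ) ^ 2 * (CL * U * (N * y / e * (y / f))) ≤
          4 * CL * Δ ^ 2 * U * (N * y ^ 2 * Wd) * (1 / e * (1 / f)) :=
        calc _ = 4 * CL * Δ ^ 2 * U * (N * y ^ 2) * (1 / e * (1 / f)) := by rw [eq]; ring
          _ ≤ _ := by gcongr
      have c3 : 2 * I * (K * U * (N * y / e * (y / f) * Wd)) ≤
          6 * K * Δ ^ 2 * U * (N * y ^ 2 * Wd) * (1 / e * (1 / f)) :=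
        calc _ = 2 * K * I * U * (N * y ^ 2 * Wd) * (1 / e * (1 / f)) := by rw [eq]; ring
          _ ≤ 2 * K * (3 * Δ ^ 2) * U * (N * y ^ 2 * Wd) * (1 / e * (1 / f)) := by
              have := n5_TopSum d1 hI1
              gcongr
          _ = _ := by ring
      linarith
  have hS : ∑ a ∈ Icc N (2 * N), ∑ b ∈ Icc N (2 * N), ‖Q4 T y a b‖ ≤
      (CD + 3600 * CT + 16 * CL + 24 * K) * Δ ^ 4 * U * (N * y ^ 2 * Wd) := by
    refine (sum_le_sum fun a ha => sum_le_sum fun b hb => (hR T y N M a b hM ha hb).symm ▸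
      (norm_sum_le _ _).trans (sum_le_sum fun e _ => norm_sum_le _ _)).trans ?_
    rw [comm_TopSum]
    refine (sum_le_sum fun e he => sum_le_sum fun f hf => key e he f hf).trans ?_
    simp only [sum_add_distrib]
    rw [← comm_TopSum]
    have t1 := hD T y N M hM
    have t2 : ∑ e ∈ Icc 1 M, ∑ f ∈ Icc 1 M, 9 * T ^ 2 * (CT * y ^ 2 / T ^ 6) ≤
        3600 * CT * y ^ 2 := by
      simp only [sum_const, Nat.card_Icc, Nat.add_sub_cancel, nsmul_eq_mul]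
      calc _ ≤ 20 * T ^ 2 * (20 * T ^ 2 * (9 * T ^ 2 * (CT * y ^ 2 / T ^ 6))) := by gcongr
        _ = _ := by field_simp; ring
    have t3 : ∑ e ∈ Icc 1 M, ∑ f ∈ Icc 1 M,
        (4 * CL + 6 * K) * Δ ^ 2 * U * (N * y ^ 2 * Wd) * (1 / (e : ℝ) * (1 / (f : ℝ))) ≤
        (16 * CL + 24 * K) * Δ ^ 4 * U * (N * y ^ 2 * Wd) := by
      simp only [← mul_sum]
      rw [← sum_mul]
      have := harm_le hΔ MX
      calc _ ≤ (4 * CL + 6 * K) * Δ ^ 2 * U * (N * y ^ 2 * Wd) * (2 * Δ * (2 * Δ)) := by gcongr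
        _ = _ := by ring
    have d4 : 1 ≤ Δ ^ 4 := one_le_pow₀ d1
    have t4 : CD * U * (N * y ^ 2) ≤ CD * Δ ^ 4 * U * (N * y ^ 2 * Wd) :=
      calc _ = CD * 1 * U * (N * y ^ 2) := by ring
        _ ≤ _ := by gcongr
    have t5 : 3600 * CT * y ^ 2 ≤ 3600 * CT * Δ ^ 4 * U * (N * y ^ 2 * Wd) :=
      calc _ = 3600 * CT * 1 * 1 * (1 * y ^ 2 * 1) := by ring
        _ ≤ _ := by gcongr
    linarith
  refine (red_TopSum hE y T0 hN hα).trans ((mul_le_mul_of_nonneg_left hS T0.le).trans ?_)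
  have hUU : U * U = T ^ ε := by rw [hU, ← Real.rpow_add T0, add_halves]
  calc _ = (CD + 3600 * CT + 16 * CL + 24 * K) * Δ ^ 4 * U * (T * (N * y ^ 2 * Wd)) := by ring
    _ ≤ (CD + 3600 * CT + 16 * CL + 24 * K) * (C₀ * U) * U * (T * (N * y ^ 2 * Wd)) := by gcongr
    _ = (CD + 3600 * CT + 16 * CL + 24 * K) * C₀ * T ^ ε * (T * (N * y ^ 2 * Wd)) := by
        rw [← hUU]; ring
    _ ≤ _ := by
        gcongr
        exact le_add_of_nonneg_left (by positivity)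

end Pool.Agent.MP_c853c5_nt.W
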