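import Pool.Agent.MP_c853c5_nt.W.Api

/-!
The trivial bound for a weighted sum over orbits.
-/

set_option autoImplicit false

open Finset MeasureTheory
open scoped ENNReal ComplexConjugate

namespace Pool.Agent.MP_c853c5_nt.W

open Pool.Agent.MP_2a1f0e_nt Pool.Agent.MP_2a1f0e_nt.GM Pool.Agent.MP_2a1f0e_nt.DH

lemma vb_nonneg_Triv (H2 H : ℝ) (r : ℤ) : 0 ≤ vb H2 H r := by
  unfold vb
  split_ifs <;> positivity

lemma n_le_Triv {Λ α H2 H : ℝ} (hb : Bd Λ α H2 H) {z : Pr × Pr} (h : InvB α H2 H z) :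
    |(nI z : ℝ)| ≤ 160 * Λ ^ 4 := by
  obtain ⟨h1, h2, h3, h4, h5⟩ := hb
  obtain ⟨-, -, -, -, -, -, h6, -, -, h7⟩ := h
  have a1 : α ^ 2 ≤ Λ ^ 2 := by gcongr
  have a2 : H2 ^ 2 ≤ Λ ^ 2 := by
    rw [← sq_abs]
    gcongr
  have a3 : |H2| * |H| ≤ Λ * Λ := mul_le_mul h4 h5 (abs_nonneg _) (by linarith)
  have a4 : H2 ^ 2 * |(rI z : ℝ)| ≤ Λ ^ 2 * (32 * Λ ^ 2) :=
    mul_le_mul a2 (by linarith) (abs_nonneg _) (by positivity)
  have a5 : Λ ^ 2 ≤ Λ ^ 4 := pow_le_pow_right₀ h1 (by norm_num)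
  nlinarith

theorem triv_stmt (hI : InvStmt) (hV : VolStmt) (hA : CntAStmt) (hB : CntBStmt)
    (hC : CntCStmt) : TrivStmt := by
  intro ε hε
  obtain ⟨C₁, c1, hA⟩ := hA ε hε
  obtain ⟨C₂, c2, hB⟩ := hB ε hε
  obtain ⟨C₃, c3, hC⟩ := hC ε hε
  refine ⟨288 * (C₁ + C₂ + C₃), by positivity,
    fun Λ α H2 H R₀ A B B₀ ν hb hR hA0 hB0 hB₀ h0 h1 => ?_⟩
  refine tsum_Orb_le (f := fun z => iE (|(rI z : ℝ)| ≤ R₀) * ENNReal.ofReal (ν (nI z)) *
    vol (Sup α H2 H) (Sup α H2 H) z) fun S hS => ?_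
  have α0 := hb.2.1
  have hcs : ∀ z ∈ S, Cs α H2 H R₀ z := fun z hz => by
    obtain ⟨h2, h3⟩ := hS z hz
    obtain ⟨x, x1, x2⟩ := nonempty_of_measure_ne_zero (right_ne_zero_of_mul h3)
    exact ⟨h2, x1.1, x2.1, x2.2.1, hI α H2 H z x α0 x1.2 x2.2,
      iE_ne_zero (left_ne_zero_of_mul (left_ne_zero_of_mul h3))⟩
  obtain ⟨g, hg⟩ : ∃ g : Pr × Pr → ℝ, ∀ z,
    g z = if nI z = 0 then B₀ else A + B / |(nI z : ℝ)| := ⟨_, fun _ => rfl⟩
  have g0 : ∀ z, 0 ≤ g z := fun z => by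
    rw [hg]
    split_ifs <;> positivity
  have g1 : ∀ z ∈ S, ν (nI z) ≤ g z := fun z hz => by
    rw [hg]
    split_ifs with h
    · rwa [h]
    · exact h1 _ h (n_le_Triv hb (hcs z hz).2.2.2.2.1)
  have v0 := vb_nonneg_Triv H2 H
  refine (sum_le_sum (g := fun z => ENNReal.ofReal (288 * α ^ 2 * (g z * vb H2 H (rI z))))
    fun z hz => ?_).trans ?_
  · refine (mul_le_mul' (mul_le_mul' (iE_le_one _) (ENNReal.ofReal_le_ofReal (g1 z hz)))
      (le_trans (measure_mono fun x hx => And.intro hx.1.2 hx.2.2)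
        (hV α H2 H z α0 (hcs z hz).1))).trans_eq ?_
    rw [one_mul, ← ENNReal.ofReal_mul (g0 z), mul_left_comm]
  rw [← ENNReal.ofReal_sum_of_nonneg
    (f := fun z => 288 * α ^ 2 * (g z * vb H2 H (rI z)))
    fun z _ => mul_nonneg (by positivity) (mul_nonneg (g0 z) (v0 _)), ← mul_sum]
  refine ENNReal.ofReal_le_ofReal ?_
  have a1 := hA Λ α H2 H R₀ A B ((S.filter fun z => ¬ nI z = 0).filter
    fun z => ¬ pI z * sI z = 0) hb hR hA0 hB0 fun z hz =>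
      ⟨hcs z (mem_filter.1 (mem_filter.1 hz).1).1, (mem_filter.1 (mem_filter.1 hz).1).2,
        (mem_filter.1 hz).2⟩
  have a2 := hB Λ α H2 H R₀ A B ((S.filter fun z => ¬ nI z = 0).filter
    fun z => pI z * sI z = 0) hb hR hA0 hB0 fun z hz =>
      ⟨hcs z (mem_filter.1 (mem_filter.1 hz).1).1, (mem_filter.1 (mem_filter.1 hz).1).2,
        (mem_filter.1 hz).2⟩
  have a3 := mul_le_mul_of_nonneg_left (hC Λ α H2 H R₀ (S.filter fun z => nI z = 0) hb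
    fun z hz => ⟨hcs z (mem_filter.1 hz).1, (mem_filter.1 hz).2⟩) hB₀
  have e : ∑ z ∈ S, g z * vb H2 H (rI z) =
      B₀ * ∑ z ∈ S.filter fun z => nI z = 0, vb H2 H (rI z) +
        ∑ z ∈ S.filter fun z => ¬ nI z = 0, (A + B / |(nI z : ℝ)|) * vb H2 H (rI z) := by
    rw [← sum_filter_add_sum_filter_not S fun z => nI z = 0, mul_sum]
    congr 1
    · exact sum_congr rfl fun z hz => by rw [hg, if_pos (mem_filter.1 hz).2]
    · exact sum_congr rfl fun z hz => by rw [hg, if_neg (mem_filter.1 hz).2]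
  rw [← sum_filter_add_sum_filter_not (S.filter fun z => ¬ nI z = 0)
    fun z => pI z * sI z = 0] at e
  have l0 : 0 ≤ Λ ^ ε := Real.rpow_nonneg (by linarith [hb.1]) _
  have d0 : 0 ≤ Λ ^ ε * (|H2| * |H| + H ^ 2) := by positivity
  have u0 : 0 ≤ B + A * (1 + |H2| * |H| + H2 ^ 2 * R₀) := by positivity
  have key : ∑ z ∈ S, g z * vb H2 H (rI z) ≤ (C₁ + C₂ + C₃) * (Λ ^ ε * (|H2| * |H| + H ^ 2)) *
      (B₀ + (B + A * (1 + |H2| * |H| + H2 ^ 2 * R₀))) := by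
    linarith [mul_nonneg c1.le (mul_nonneg d0 hB₀), mul_nonneg c2.le (mul_nonneg d0 hB₀),
      mul_nonneg c3.le (mul_nonneg d0 u0)]
  exact (mul_le_mul_of_nonneg_left key (by positivity)).trans_eq (by ring)

end Pool.Agent.MP_c853c5_nt.W
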