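import Pool.Agent.MP_c853c5_nt.W.Api
set_option autoImplicit false
open Finset MeasureTheory
open scoped ENNReal ComplexConjugate
namespace Pool.Agent.MP_c853c5_nt.W
open Pool.Agent.MP_2a1f0e_nt Pool.Agent.MP_2a1f0e_nt.GM Pool.Agent.MP_2a1f0e_nt.DH

/-- the adjugate -/
def iv_Um (G : Pr) : Pr := ((G.2.2, -G.1.2), (-G.2.1, G.1.1))

lemma iv_iv_Um (G : Pr) : iv_Um (iv_Um G) = G := by
  simp only [iv_Um, neg_neg]

lemma hh_iv_Um (G : Pr) : hh (iv_Um G) = hh G := by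
  simp only [iv_Um, hh, om2]; ring

lemma pg_iv_Um {H : Pr} (h : hh H = 1) (G : Pr) : pg (pg G H) (iv_Um H) = G := by
  simp only [hh, om2] at h
  refine Prod.ext (Prod.ext ?_ ?_) (Prod.ext ?_ ?_) <;> simp only [pg, vg, iv_Um]
  · linear_combination G.1.1 * h
  · linear_combination G.1.2 * h
  · linear_combination G.2.1 * h
  · linear_combination G.2.2 * h

lemma act_one_Um (x : MM) : act ((1, 0), (0, 1)) x = x := by
  simp [act, vx]

lemma act_iv_Um {G : Pr} (h : hh G = 1) (x : MM) : act (iv_Um G) (act G x) = x := by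
  have h' : (G.1.1 : ℝ) * G.2.2 - G.1.2 * G.2.1 = 1 := by
    simp only [hh, om2] at h
    exact_mod_cast h
  refine Prod.ext (Prod.ext ?_ ?_) (Prod.ext ?_ ?_) <;> simp only [act, vx, iv_Um] <;> push_cast
  · linear_combination x.1.1 * h'
  · linear_combination x.1.2 * h'
  · linear_combination x.2.1 * h'
  · linear_combination x.2.2 * h'

lemma fin_vec_Um {x : MM} (hx : dt x ≠ 0) (R : ℝ) : {u : V | ‖vx u x‖ ≤ R}.Finite := by
  obtain ⟨M, hM⟩ := exists_int_gt (2 * (R * ‖x‖) / |dt x|)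
  have hd : 0 < |dt x| := abs_pos.2 hx
  rw [div_lt_iff₀ hd] at hM
  refine ((Set.finite_Icc (-M) M).prod (Set.finite_Icc (-M) M)).subset fun u hu => ?_
  have hu' : ‖vx u x‖ ≤ R := hu
  have hR : 0 ≤ R := (norm_nonneg _).trans hu'
  have a1 : |(vx u x).1| ≤ R := (norm_fst_le (vx u x)).trans hu'
  have a2 : |(vx u x).2| ≤ R := (norm_snd_le (vx u x)).trans hu'
  have b1 : |x.1.1| ≤ ‖x‖ := (norm_fst_le x.1).trans (norm_fst_le x)
  have b2 : |x.1.2| ≤ ‖x‖ := (norm_snd_le x.1).trans (norm_fst_le x)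
  have b3 : |x.2.1| ≤ ‖x‖ := (norm_fst_le x.2).trans (norm_snd_le x)
  have b4 : |x.2.2| ≤ ‖x‖ := (norm_snd_le x.2).trans (norm_snd_le x)
  have key : ∀ (n : ℤ) (a b c d : ℝ), (n : ℝ) * dt x = a * b - c * d → |a| ≤ R → |b| ≤ ‖x‖ →
      |c| ≤ R → |d| ≤ ‖x‖ → n ∈ Set.Icc (-M) M := by
    intro n a b c d e ha hb hc hd'
    have h1 : |(n : ℝ)| * |dt x| ≤ 2 * (R * ‖x‖) := by
      rw [← abs_mul, e]
      refine (abs_sub _ _).trans ?_
      rw [abs_mul, abs_mul]
      linarith [mul_le_mul ha hb (abs_nonneg _) hR, mul_le_mul hc hd' (abs_nonneg _) hR]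
    have h2 : |(n : ℝ)| ≤ M := le_of_mul_le_mul_right (h1.trans hM.le) hd
    have h3 : |n| ≤ M := by exact_mod_cast h2
    exact abs_le.1 h3
  exact ⟨key u.1 _ _ _ _ (by simp only [vx, dt]; ring) a1 b4 a2 b3,
    key u.2 _ _ _ _ (by simp only [vx, dt]; ring) a2 b1 a1 b2⟩

lemma fin_Um {x : MM} (hx : dt x ≠ 0) : {G : Pr | hh G = 1 ∧ ‖act G x‖ ≤ ‖x‖}.Finite :=
  ((fin_vec_Um hx ‖x‖).prod (fin_vec_Um hx ‖x‖)).subset fun G hG =>
    ⟨(norm_fst_le (act G x)).trans hG.2, (norm_snd_le (act G x)).trans hG.2⟩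

/-- points of minimal norm in the orbit -/
def Mn_Um (x : MM) : Prop := ∀ G : Pr, hh G = 1 → ‖x‖ ≤ ‖act G x‖

lemma meas_Mn_Um : Measurable fun x => iE (Mn_Um x) := by
  refine measurable_iE ?_
  simp only [Mn_Um, Set.setOf_forall]
  exact MeasurableSet.iInter fun G => MeasurableSet.iInter fun _ =>
    measurableSet_le continuous_norm.measurable (continuous_act G).norm.measurable

/-- the number of minimal points -/
noncomputable def S_Um (x : MM) : ℝ≥0∞ := ∑' G : Pr, iE (hh G = 1) * iE (Mn_Um (act G x))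

lemma meas_S_Um : Measurable S_Um :=
  Measurable.ennreal_tsum fun G => (meas_Mn_Um.comp (continuous_act G).measurable).const_mul _

lemma S_act_Um {H : Pr} (h : hh H = 1) (x : MM) : S_Um (act H x) = S_Um x := by
  let e : Pr ≃ Pr := ⟨fun G => pg G H, fun G => pg G (iv_Um H), pg_iv_Um h, fun G => by
    have := pg_iv_Um ((hh_iv_Um H).trans h) G
    rwa [iv_iv_Um] at this⟩
  unfold S_Um
  rw [← e.tsum_eq fun G => iE (hh G = 1) * iE (Mn_Um (act G x))]
  refine tsum_congr fun G => ?_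
  change _ = iE (hh (pg G H) = 1) * iE (Mn_Um (act (pg G H) x))
  rw [hh_pg, h, mul_one, act_pg]

lemma S_ne_zero_Um {x : MM} (hx : dt x ≠ 0) : S_Um x ≠ 0 := by
  obtain ⟨G, hG, hmin⟩ := Set.exists_min_image _ (fun G => ‖act G x‖) (fin_Um hx)
    ⟨((1, 0), (0, 1)), rfl, (congrArg norm (act_one_Um x)).le⟩
  have h1 : Mn_Um (act G x) := by
    intro H hH
    rw [← act_pg]
    rcases le_total ‖act (pg H G) x‖ ‖x‖ with h | h
    · exact hmin _ ⟨by rw [hh_pg, hH, hG.1, mul_one], h⟩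
    · exact hG.2.trans h
  intro h0
  have := ENNReal.tsum_eq_zero.1 h0 G
  rw [iE_pos hG.1, iE_pos h1, one_mul] at this
  exact one_ne_zero this

lemma S_ne_top_Um {x : MM} (hx : dt x ≠ 0) : S_Um x ≠ ⊤ := by
  unfold S_Um
  rw [tsum_eq_sum (s := (fin_Um hx).toFinset) fun G hG => ?_]
  · exact ENNReal.sum_ne_top.2 fun G _ => ENNReal.mul_ne_top (iE_ne_top _) (iE_ne_top _)
  · rw [← iE_and]
    refine iE_neg fun h => hG ((fin_Um hx).mem_toFinset.2 ⟨h.1, ?_⟩)
    have := h.2 (iv_Um G) ((hh_iv_Um G).trans h.1)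
    rwa [act_iv_Um h.1] at this

lemma part_Um {y : MM} (hy : dt y ≠ 0) :
    ∑' G : Pr, iE (hh G = 1) * (iE (Mn_Um (act (iv_Um G) y)) / S_Um (act (iv_Um G) y)) = 1 := by
  let e : Pr ≃ Pr := ⟨iv_Um, iv_Um, iv_iv_Um, iv_iv_Um⟩
  have h1 : ∀ G : Pr, iE (hh G = 1) * (iE (Mn_Um (act (iv_Um G) y)) / S_Um (act (iv_Um G) y)) =
      iE (hh (e G) = 1) * iE (Mn_Um (act (e G) y)) * (S_Um y)⁻¹ := by
    intro G
    change _ = iE (hh (iv_Um G) = 1) * iE (Mn_Um (act (iv_Um G) y)) * (S_Um y)⁻¹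
    rw [hh_iv_Um]
    by_cases h : hh G = 1
    · rw [S_act_Um ((hh_iv_Um G).trans h), div_eq_mul_inv, mul_assoc]
    · rw [iE_neg h, zero_mul, zero_mul, zero_mul]
  rw [tsum_congr h1, ENNReal.tsum_mul_right,
    e.tsum_eq fun G => iE (hh G = 1) * iE (Mn_Um (act G y))]
  exact ENNReal.mul_inv_cancel (S_ne_zero_Um hy) (S_ne_top_Um hy)

theorem um_stmt (hC : CoVStmt) : UmStmt := by
  obtain ⟨w, hw⟩ : ∃ w : MM → ℝ≥0∞, w = fun x => iE (Mn_Um x) / S_Um x := ⟨_, rfl⟩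
  have hm : Measurable w := by
    rw [hw]
    exact meas_Mn_Um.div meas_S_Um
  refine ⟨volume.withDensity w, inferInstance, fun f hf h0 => ?_⟩
  have m1 : ∀ G : Pr, Measurable fun x => iE (hh G = 1) * f (act G x) := fun G =>
    (hf.comp (continuous_act G).measurable).const_mul _
  have m2 : ∀ G : Pr, Measurable fun y => iE (hh G = 1) * w (act (iv_Um G) y) * f y := fun G =>
    ((hm.comp (continuous_act _).measurable).const_mul _).mul hf
  have step : ∀ G : Pr, ∫⁻ x, iE (hh G = 1) * f (act G x) ∂(volume.withDensity w) =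
      ∫⁻ y, iE (hh G = 1) * w (act (iv_Um G) y) * f y := by
    intro G
    by_cases h : hh G = 1
    · have h1 := (hC.1 G (by rw [h]; exact one_ne_zero)).1
        fun y => iE (hh G = 1) * w (act (iv_Um G) y) * f y
      rw [show ENNReal.ofReal (1 / (hh G : ℝ) ^ 2) = 1 by rw [h]; simp, one_mul] at h1
      rw [lintegral_withDensity_eq_lintegral_mul _ hm (m1 G), ← h1]
      refine lintegral_congr fun x => ?_
      rw [Pi.mul_apply, act_iv_Um h]
      ring
    · simp only [iE_neg h, zero_mul, lintegral_zero]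
  rw [lintegral_tsum fun G => (m1 G).aemeasurable, tsum_congr step,
    ← lintegral_tsum fun G => (m2 G).aemeasurable]
  refine lintegral_congr fun y => ?_
  rw [ENNReal.tsum_mul_right]
  by_cases hy : dt y = 0
  · rw [h0 y hy, mul_zero]
  · rw [hw, part_Um hy, one_mul]

end Pool.Agent.MP_c853c5_nt.W
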