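import Pool.Agent.MP_c853c5_nt.W.Api

set_option autoImplicit false

open Finset MeasureTheory
open scoped ENNReal ComplexConjugate

namespace Pool.Agent.MP_c853c5_nt.W

open Pool.Agent.MP_2a1f0e_nt Pool.Agent.MP_2a1f0e_nt.GM Pool.Agent.MP_2a1f0e_nt.DH

lemma tsum_Unf (hO : OrbStmt) (F : Pr × Pr → ℝ≥0∞)
    (hF : ∀ z, F z ≠ 0 → Prim z.1.2 ∧ hh z.1 ≠ 0) :
    ∑' z : Pr × Pr, F z =
      ∑' z : Orb, ∑' G : Pr, iE (hh G = 1) * F (pg z.1.1 G, pg z.1.2 G) := by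
  classical
  let Φ : Orb × {G : Pr // hh G = 1} → Pr × Pr := fun w => (pg w.1.1.1 w.2.1, pg w.1.1.2 w.2.1)
  have hinj : Function.Injective Φ := by
    rintro ⟨⟨z, hz⟩, ⟨G, hG⟩⟩ ⟨⟨z', hz'⟩, ⟨G', hG'⟩⟩ h
    have h1 : Prim (pg z.1 G, pg z.2 G).1.2 := by
      refine (prim_vg hG _).2 ?_
      rw [hz.1]
      rfl
    have h2 : hh (pg z.1 G, pg z.2 G).1 ≠ 0 := by
      change hh (pg z.1 G) ≠ 0
      rw [hh_pg, hG, mul_one]
      exact isOrb_hh_ne hz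
    have h3 := (hO _ h1 h2).unique (y₁ := (z, G)) (y₂ := (z', G')) ⟨hz, hG, rfl⟩ ⟨hz', hG', h⟩
    obtain ⟨rfl, rfl⟩ := Prod.mk.inj h3
    rfl
  have hsup : Function.support F ⊆ Set.range Φ := by
    intro z hz
    obtain ⟨w, ⟨h1, h2, h3⟩, -⟩ := hO z (hF z hz).1 (hF z hz).2
    exact ⟨(⟨w.1, h1⟩, ⟨w.2, h2⟩), h3.symm⟩
  rw [← hinj.tsum_eq hsup, ENNReal.tsum_prod']
  refine tsum_congr fun z => ?_
  have h := tsum_subtype {G : Pr | hh G = 1} fun G => F (pg z.1.1 G, pg z.1.2 G)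
  refine h.trans (tsum_congr fun G => ?_)
  by_cases hG : hh G = 1
  · rw [Set.indicator_of_mem (by exact hG), iE_pos hG, one_mul]
  · rw [Set.indicator_of_notMem (by exact hG), iE_neg hG, zero_mul]

theorem unf_stmt (hO : OrbStmt) : UnfStmt := by
  intro μ hμ f hm hinv hsup
  have h1 : ∀ x, ∑' z : Pr × Pr, f z x =
      ∑' z : Orb, ∑' G : Pr, iE (hh G = 1) * f z.1 (act G x) := by
    intro x
    rw [tsum_Unf hO (fun z => f z x) fun z hz => ⟨(hsup z x hz).1, (hsup z x hz).2.1⟩]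
    refine tsum_congr fun z => tsum_congr fun G => ?_
    by_cases hG : hh G = 1
    · rw [hinv z.1 G x hG]
    · rw [iE_neg hG, zero_mul, zero_mul]
  simp only [h1]
  have h2 : ∀ z : Orb, Measurable fun x => ∑' G : Pr, iE (hh G = 1) * f z.1 (act G x) :=
    fun z => Measurable.tsum fun G => ((hm z.1).comp (continuous_act G).measurable).const_mul _
  rw [lintegral_tsum fun z : Orb => (h2 z).aemeasurable]
  refine tsum_congr fun z => hμ.2 _ (hm z.1) fun x hx => ?_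
  by_contra h
  exact (hsup z.1 x h).2.2 hx

end Pool.Agent.MP_c853c5_nt.W
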