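import Pool.Agent.MP_c853c5_nt.W.Api

set_option autoImplicit false

open Finset MeasureTheory
open scoped ENNReal ComplexConjugate

namespace Pool.Agent.MP_c853c5_nt.W

open Pool.Agent.MP_2a1f0e_nt Pool.Agent.MP_2a1f0e_nt.GM Pool.Agent.MP_2a1f0e_nt.DH

lemma slice_Vol {b₁ : ℝ} (hb : 0 < b₁) (b₂ c ρ : ℝ) :
    volume {a : R2 | |a.1 - c| ≤ ρ ∧ 1 ≤ a.1 * b₂ - a.2 * b₁ ∧ a.1 * b₂ - a.2 * b₁ ≤ 2} ≤
      ENNReal.ofReal (2 * ρ / b₁) := by
  have hm : MeasurableSet
      {a : R2 | |a.1 - c| ≤ ρ ∧ 1 ≤ a.1 * b₂ - a.2 * b₁ ∧ a.1 * b₂ - a.2 * b₁ ≤ 2} :=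
    by measurability
  rw [Measure.volume_eq_prod, Measure.prod_apply hm]
  refine (lintegral_mono (g := (Set.Icc (c - ρ) (c + ρ)).indicator
    fun _ => ENNReal.ofReal (1 / b₁)) fun t => ?_).trans ?_
  · by_cases ht : t ∈ Set.Icc (c - ρ) (c + ρ)
    · rw [Set.indicator_of_mem ht]
      refine (measure_mono (t := Set.Icc ((t * b₂ - 2) / b₁) ((t * b₂ - 1) / b₁))
        fun s hs => ?_).trans ?_
      · obtain ⟨-, h1, h2⟩ := hs
        refine ⟨(div_le_iff₀ hb).2 ?_, (le_div_iff₀ hb).2 ?_⟩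
        · dsimp only at h2
          linarith
        · dsimp only at h1
          linarith
      · rw [Real.volume_Icc]
        refine le_of_eq (congrArg _ ?_)
        ring
    · rw [Set.indicator_of_notMem ht]
      refine le_of_eq (measure_mono_null (t := ∅) (fun s hs => ht ?_) measure_empty)
      have h1 := abs_le.1 hs.1
      dsimp only at h1
      exact ⟨by linarith [h1.1], by linarith [h1.2]⟩
  · rw [lintegral_indicator_const measurableSet_Icc, Real.volume_Icc,
      ← ENNReal.ofReal_mul (by positivity)]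
    refine le_of_eq (congrArg _ ?_)
    ring

theorem vol1_stmt : Vol1Stmt := by
  rintro α H2 H ⟨⟨h, d⟩, v⟩ hα hP
  dsimp only at hP
  subst hP
  have hh1 : hh ((h, d), (0, 1)) = h := by simp [hh, om2]
  have hv : ∀ x : MM, vx (0, 1) x = x.2 := fun x => by simp [vx]
  rw [Measure.volume_eq_prod, Measure.prod_apply_symm (measurableSet_SupA α H2 H _)]
  refine (lintegral_mono (g := (Set.Icc α (4 * α) ×ˢ Set.Icc (-(4 * α)) (4 * α)).indicator
    fun _ => ENNReal.ofReal (4 * (|H2| / |H|))) fun b => ?_).trans ?_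
  · rcases Set.eq_empty_or_nonempty
      ((fun a : R2 => (a, b)) ⁻¹' {x : MM | SupA α H2 H ((h, d), (0, 1)) x}) with he | ⟨a₀, ha₀⟩
    · dsimp only
      rw [he, measure_empty]
      exact zero_le
    have hH := SupA.half ha₀
    obtain ⟨-, h0, hcn, -, -, -, hHh, -⟩ := ha₀
    rw [hh1] at h0 hHh
    dsimp only at hcn
    rw [hv] at hcn
    obtain ⟨c1, c2, c3⟩ := hcn
    dsimp only at c1 c2 c3
    have hb : 0 < b.1 := hα.trans_le c1
    have h0' : (h : ℝ) ≠ 0 := by exact_mod_cast h0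
    have h0'' : 0 < |(h : ℝ)| := abs_pos.2 h0'
    have c4 := abs_le.1 c3
    rw [Set.indicator_of_mem
      (show b ∈ Set.Icc α (4 * α) ×ˢ Set.Icc (-(4 * α)) (4 * α) from
        ⟨⟨c1, c2⟩, by linarith [c4.1], by linarith [c4.2]⟩)]
    refine (measure_mono fun a ha => ?_).trans ((slice_Vol hb b.2 (-(d * b.1) / h)
      (2 * |H2| * b.1 / |(h : ℝ)|)).trans (ENNReal.ofReal_le_ofReal ?_))
    · obtain ⟨-, -, -, h1, h2, h3, -, -⟩ := ha
      refine ⟨?_, h1, h2⟩
      have e : a.1 - -(d * b.1) / h = tt ((h, d), (0, 1)) (a, b) * b.1 / h := by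
        simp only [tt, vx, Int.cast_zero, Int.cast_one, zero_mul, one_mul, zero_add]
        field_simp
        ring
      rw [e, abs_div, abs_mul, abs_of_pos hb]
      gcongr
    · have e : 2 * (2 * |H2| * b.1 / |(h : ℝ)|) / b.1 = 4 * (|H2| / |(h : ℝ)|) := by
        field_simp
        ring
      rw [e]
      gcongr
  · rw [lintegral_indicator_const (measurableSet_Icc.prod measurableSet_Icc),
      Measure.volume_eq_prod, Measure.prod_prod, Real.volume_Icc, Real.volume_Icc,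
      ← ENNReal.ofReal_mul (by linarith), ← ENNReal.ofReal_mul (by positivity)]
    refine le_of_eq (congrArg _ ?_)
    ring

theorem vol_stmt (hC : CoVStmt) (hZ : VolZStmt) (h1 : Vol1Stmt) : VolStmt := by
  intro α H2 H z hα hz
  rw [vol, vb]
  split_ifs with hr
  · refine (measure_mono fun x hx => hx.1).trans ((h1 α H2 H z.1 hα hz.1).trans
      (ENNReal.ofReal_le_ofReal ?_))
    gcongr
    norm_num
  · have hr' : (rI z : ℝ) ≠ 0 := by exact_mod_cast hr
    have hr'' : 0 < |(rI z : ℝ)| := abs_pos.2 hr'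
    have hm : MeasurableSet {Z : MM | Cn α Z.1 ∧ Cn α Z.2 ∧ |dt Z| ≤ 2 * |(rI z : ℝ)|} :=
      (measurable_fst (measurableSet_Cn α)).inter ((measurable_snd (measurableSet_Cn α)).inter
        (measurableSet_le continuous_dt.abs.measurable measurable_const))
    have h2 := (hC.1 (z.1.2, z.2.2) hr).1
      fun Z => iE (Cn α Z.1 ∧ Cn α Z.2 ∧ |dt Z| ≤ 2 * |(rI z : ℝ)|)
    have h5 := lintegral_iE volume ((continuous_act (z.1.2, z.2.2)).measurable hm)
    rw [lintegral_iE _ hm] at h2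
    refine (measure_mono fun x hx => ?_).trans ((h5.symm.trans h2).le.trans ?_)
    · refine ⟨hx.1.2.2.1, hx.2.2.2.1, ?_⟩
      have h3 := hx.1.2.2.2.1
      have h4 := hx.1.2.2.2.2.1
      rw [dt_act, abs_mul, abs_of_nonneg (by linarith : 0 ≤ dt x), mul_comm]
      exact mul_le_mul_of_nonneg_right h4 (abs_nonneg _)
    · refine (mul_le_mul_right (hZ α _ hα) _).trans ?_
      rw [← ENNReal.ofReal_mul (by positivity)]
      refine le_of_eq (congrArg _ ?_)
      change 1 / (rI z : ℝ) ^ 2 * _ = _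
      rw [← sq_abs (rI z : ℝ)]
      field_simp
      ring

end Pool.Agent.MP_c853c5_nt.W
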