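import Pool.Agent.MP_c853c5_nt.W.Api

set_option autoImplicit false

open Finset MeasureTheory
open scoped ENNReal ComplexConjugate

namespace Pool.Agent.MP_c853c5_nt.W

open Pool.Agent.MP_2a1f0e_nt Pool.Agent.MP_2a1f0e_nt.GM Pool.Agent.MP_2a1f0e_nt.DH

lemma slice_VolZ {X Y : Type*} [MeasurableSpace X] [MeasurableSpace Y] (μ : Measure X)
    (ν : Measure Y) [SFinite ν] {s : Set (X × Y)} (hs : MeasurableSet s) {T : Set X}
    (hT : MeasurableSet T) {c : ℝ≥0∞} (h1 : ∀ p ∈ s, p.1 ∈ T)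
    (h2 : ∀ x ∈ T, ν (Prod.mk x ⁻¹' s) ≤ c) : μ.prod ν s ≤ c * μ T := by
  rw [Measure.prod_apply hs, ← setLIntegral_const T c, ← lintegral_indicator hT]
  refine lintegral_mono fun x => ?_
  by_cases hx : x ∈ T
  · rw [Set.indicator_of_mem hx]
    exact h2 x hx
  · have : Prod.mk x ⁻¹' s = ∅ := Set.eq_empty_of_forall_notMem fun y hy => hx (h1 _ hy)
    simp [this]

lemma meas_VolZ (α Ω : ℝ) : MeasurableSet {Z : MM | Cn α Z.1 ∧ Cn α Z.2 ∧ |dt Z| ≤ Ω} :=
  (measurable_fst (measurableSet_Cn α)).inter ((measurable_snd (measurableSet_Cn α)).inter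
    (measurableSet_le continuous_dt.abs.measurable measurable_const))

theorem volZ_stmt : VolZStmt := by
  intro α Ω hα
  have hs := meas_VolZ α Ω
  have h1 := slice_VolZ (volume : Measure R2) (volume : Measure R2) hs
    (T := Set.Icc α (4 * α) ×ˢ Set.Icc (-(4 * α)) (4 * α) ∩ {A | Cn α A})
    ((measurableSet_Icc.prod measurableSet_Icc).inter (measurableSet_Cn α))
    (c := ENNReal.ofReal (2 * Ω / α) * ENNReal.ofReal (3 * α))
    (fun p hp => ⟨⟨⟨hp.1.1, hp.1.2.1⟩, abs_le.1 (hp.1.2.2.trans hp.1.2.1)⟩, hp.1⟩) (by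
      intro A hA
      have hA1 : α ≤ A.1 := hA.2.1
      have hA0 : 0 < A.1 := hα.trans_le hA1
      have h2 := slice_VolZ (volume : Measure ℝ) (volume : Measure ℝ)
        (measurable_prodMk_left (x := A) hs) (T := Set.Icc α (4 * α)) measurableSet_Icc
        (c := ENNReal.ofReal (2 * Ω / α)) (fun p hp => ⟨hp.2.1.1, hp.2.1.2.1⟩) (by
          intro b _
          have h3 : Prod.mk b ⁻¹' (Prod.mk A ⁻¹' {Z : MM | Cn α Z.1 ∧ Cn α Z.2 ∧ |dt Z| ≤ Ω}) ⊆
              Set.Icc (A.2 * b / A.1 - Ω / α) (A.2 * b / A.1 + Ω / α) := by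
            intro y hy
            have h4 : |A.1 * y - A.2 * b| ≤ Ω := hy.2.2
            have h5 : |y - A.2 * b / A.1| ≤ Ω / α := by
              rw [show y - A.2 * b / A.1 = (A.1 * y - A.2 * b) / A.1 by field_simp, abs_div,
                abs_of_pos hA0]
              exact div_le_div₀ ((abs_nonneg _).trans h4) h4 hα hA1
            rw [abs_le] at h5
            exact ⟨by linarith [h5.1], by linarith [h5.2]⟩
          refine (measure_mono h3).trans (le_of_eq ?_)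
          rw [Real.volume_Icc]
          congr 1
          ring)
      rw [Real.volume_Icc, show 4 * α - α = 3 * α by ring] at h2
      exact h2)
  refine h1.trans ((mul_le_mul_right (measure_mono Set.inter_subset_left) _).trans (le_of_eq ?_))
  rw [Measure.volume_eq_prod, Measure.prod_prod, Real.volume_Icc, Real.volume_Icc, mul_comm,
    mul_comm (ENNReal.ofReal (2 * Ω / α)), ← ENNReal.ofReal_mul (by linarith),
    ← ENNReal.ofReal_mul (by linarith), ← ENNReal.ofReal_mul (by nlinarith)]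
  congr 1
  field_simp
  ring

lemma dt_le_VolZ {α : ℝ} {Z : MM} (h1 : Cn α Z.1) (h2 : Cn α Z.2) : |dt Z| ≤ 32 * α ^ 2 := by
  have a1 : |Z.1.1| ≤ 4 * α := by
    rw [abs_of_nonneg ((abs_nonneg _).trans h1.2.2)]
    exact h1.2.1
  have a2 : |Z.1.2| ≤ 4 * α := h1.2.2.trans h1.2.1
  have b1 : |Z.2.1| ≤ 4 * α := by
    rw [abs_of_nonneg ((abs_nonneg _).trans h2.2.2)]
    exact h2.2.1
  have b2 : |Z.2.2| ≤ 4 * α := h2.2.2.trans h2.2.1
  have h0 : 0 ≤ 4 * α := (abs_nonneg _).trans a1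
  refine (abs_sub _ _).trans ?_
  rw [abs_mul, abs_mul]
  have c1 := mul_le_mul a1 b2 (abs_nonneg _) h0
  have c2 := mul_le_mul a2 b1 (abs_nonneg _) h0
  linarith

theorem logV_stmt (h : VolZStmt) : LogVStmt := by
  intro ε hε
  obtain ⟨C, hC, hD⟩ := exD 2 1 32 hε
  refine ⟨288 * C, by positivity, fun Λ α hΛ hα hαΛ => ?_⟩
  obtain ⟨X, Δ, d1, d2, d3⟩ := hD Λ hΛ
  have hJ := DivB_log d1 (le_refl X)
  have hp : ∀ Z : MM, iE (Cn α Z.1 ∧ Cn α Z.2 ∧ 1 ≤ |dt Z|) * ENNReal.ofReal (1 / |dt Z|) ≤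
      ∑ j ∈ range (Nat.log 2 X + 1),
        iE (Cn α Z.1 ∧ Cn α Z.2 ∧ |dt Z| ≤ 2 ^ (j + 1)) * ENNReal.ofReal (1 / 2 ^ j) := by
    intro Z
    by_cases hZ : Cn α Z.1 ∧ Cn α Z.2 ∧ 1 ≤ |dt Z|
    · have t1 : |dt Z| ≤ X := by
        have := dt_le_VolZ hZ.1 hZ.2.1
        have : α ^ 2 ≤ Λ ^ 2 := by gcongr
        linarith
      have t2 : ⌊|dt Z|⌋₊ ≤ X := Nat.floor_le_of_le t1
      have t3 : ⌊|dt Z|⌋₊ ≠ 0 := (Nat.floor_pos.2 hZ.2.2).ne'
      have t4 : (2 : ℝ) ^ Nat.log 2 ⌊|dt Z|⌋₊ ≤ |dt Z| := by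
        refine le_trans ?_ (Nat.floor_le (abs_nonneg _))
        exact_mod_cast Nat.pow_log_le_self 2 t3
      have t5 : |dt Z| ≤ 2 ^ (Nat.log 2 ⌊|dt Z|⌋₊ + 1) := by
        refine (Nat.lt_floor_add_one _).le.trans ?_
        exact_mod_cast Nat.lt_pow_succ_log_self one_lt_two _
      refine le_trans ?_ (single_le_sum (f := fun j =>
        iE (Cn α Z.1 ∧ Cn α Z.2 ∧ |dt Z| ≤ 2 ^ (j + 1)) * ENNReal.ofReal (1 / 2 ^ j))
        (fun _ _ => zero_le) (mem_range.2 (Nat.lt_succ_of_le (Nat.log_mono_right t2))))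
      rw [iE_pos hZ, iE_pos ⟨hZ.1, hZ.2.1, t5⟩, one_mul, one_mul]
      exact ENNReal.ofReal_le_ofReal (one_div_le_one_div_of_le (by positivity) t4)
    · rw [iE_neg hZ, zero_mul]
      exact zero_le
  refine (lintegral_mono hp).trans ?_
  rw [lintegral_finsetSum _ fun j _ => (measurable_iE (meas_VolZ α _)).mul_const _]
  have hj : ∀ j ∈ range (Nat.log 2 X + 1), ∫⁻ Z : MM,
      iE (Cn α Z.1 ∧ Cn α Z.2 ∧ |dt Z| ≤ 2 ^ (j + 1)) * ENNReal.ofReal (1 / 2 ^ j) ≤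
      ENNReal.ofReal (288 * α ^ 2) := by
    intro j _
    rw [lintegral_mul_const _ (measurable_iE (meas_VolZ α _)), lintegral_iE _ (meas_VolZ α _)]
    refine (mul_le_mul_left (h α _ hα) _).trans (le_of_eq ?_)
    rw [← ENNReal.ofReal_mul (by positivity)]
    congr 1
    field_simp
    ring
  refine (sum_le_card_nsmul _ _ _ hj).trans ?_
  rw [card_range, nsmul_eq_mul, ← ENNReal.ofReal_natCast, ← ENNReal.ofReal_mul (Nat.cast_nonneg _)]
  refine ENNReal.ofReal_le_ofReal ?_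
  push_cast
  rw [pow_one] at d3
  have := mul_le_mul_of_nonneg_right (hJ.trans d3) (by positivity : 0 ≤ 288 * α ^ 2)
  linarith

end Pool.Agent.MP_c853c5_nt.W
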