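import Pool.Agent.MP_c853c5_nt.W.Api

/-! Bounded derivatives of the exponential and of the transform of the weight. -/

set_option autoImplicit false

open Finset MeasureTheory
open scoped ENNReal ComplexConjugate

namespace Pool.Agent.MP_c853c5_nt.W

open Pool.Agent.MP_2a1f0e_nt Pool.Agent.MP_2a1f0e_nt.GM Pool.Agent.MP_2a1f0e_nt.DH

lemma bdd_Wh (F : ℕ → ℝ → ℂ) (h1 : ∀ j s, HasDerivAt (F j) (F (j + 1) s) s)
    (h2 : ∀ j, ∃ B : ℝ, ∀ s, ‖F j s‖ ≤ B) : Bdd (F 0) := by
  have e : ∀ j, iteratedDeriv j (F 0) = F j := fun j => by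
    induction j with
    | zero => exact iteratedDeriv_zero
    | succ j ih =>
      rw [iteratedDeriv_succ, ih]
      exact funext fun s => (h1 j s).deriv
  refine ⟨contDiff_of_differentiable_iteratedDeriv fun m _ => ?_, fun j => ?_⟩
  · rw [e]
    exact fun s => (h1 m s).differentiableAt
  · rw [e]
    exact h2 j

lemma ex_Wh : Bdd ex := by
  have h := bdd_Wh (fun j s => (2 * Real.pi * Complex.I) ^ j * ex (1 * s)) (fun j s =>
    ((hasDerivAt_ex 1 s).const_mul _).congr_deriv (by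
      rw [Complex.ofReal_one]
      ring)) fun j => ⟨‖(2 * Real.pi * Complex.I) ^ j‖, fun s => by
        rw [norm_mul, norm_ex, mul_one]⟩
  simpa only [pow_zero, one_mul] using h

/-- the integrand -/
noncomputable def G_Wh (j : ℕ) (y s : ℝ) : ℂ :=
  (Wt s : ℂ) * (Complex.I * s) ^ j * Complex.exp (Complex.I * (s : ℂ) * (y : ℂ))

lemma norm_G_Wh (j : ℕ) (y s : ℝ) : ‖G_Wh j y s‖ = Wt s * |s| ^ j := by
  rw [G_Wh, mul_assoc Complex.I, ← Complex.ofReal_mul, norm_mul, Complex.norm_exp_I_mul_ofReal,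
    mul_one, norm_mul, norm_pow, norm_mul, Complex.norm_I, one_mul, Complex.norm_real,
    Complex.norm_real, Real.norm_of_nonneg (Wt_nonneg s), Real.norm_eq_abs]

lemma cont_G_Wh (j : ℕ) (y : ℝ) : Continuous (G_Wh j y) := by
  have := continuous_Wt
  unfold G_Wh
  fun_prop

lemma int_Wh (j : ℕ) : Integrable fun s : ℝ => Wt s * |s| ^ j :=
  (continuous_Wt.mul (continuous_abs.pow j)).integrable_of_hasCompactSupport
    hasCompactSupport_Wt.mul_right

lemma der_G_Wh (j : ℕ) (y s : ℝ) : HasDerivAt (fun y => G_Wh j y s) (G_Wh (j + 1) y s) y := by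
  have h1 : HasDerivAt (fun y : ℝ => (y : ℂ)) 1 y := Complex.ofRealCLM.hasDerivAt
  refine (((h1.const_mul (Complex.I * s)).cexp).const_mul
    ((Wt s : ℂ) * (Complex.I * s) ^ j)).congr_deriv ?_
  rw [G_Wh]
  ring

lemma whb_Wh : Bdd wh := by
  have h := bdd_Wh (fun j y => ∫ s, G_Wh j y s) (fun j y =>
    (hasDerivAt_integral_of_dominated_loc_of_deriv_le (F := G_Wh j) (F' := G_Wh (j + 1))
      (s := Set.univ) Filter.univ_mem
      (.of_forall fun x => (cont_G_Wh j x).aestronglyMeasurable)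
      ((int_Wh j).mono' (cont_G_Wh j y).aestronglyMeasurable
        (.of_forall fun s => (norm_G_Wh j y s).le))
      (cont_G_Wh (j + 1) y).aestronglyMeasurable
      (.of_forall fun s x _ => (norm_G_Wh (j + 1) x s).le) (int_Wh (j + 1))
      (.of_forall fun s x _ => der_G_Wh j x s)).2)
    fun j => ⟨∫ s : ℝ, Wt s * |s| ^ j, fun y => by
      refine (norm_integral_le_integral_norm _).trans (le_of_eq ?_)
      simp only [norm_G_Wh]⟩
  have e : (fun y => ∫ s, G_Wh 0 y s) = wh := by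
    funext y
    simp only [G_Wh, pow_zero, mul_one, wh]
  rwa [e] at h

theorem wh_stmt (h : F1Stmt) : WhStmt := by
  refine ⟨ex_Wh, whb_Wh, fun A => ?_⟩
  obtain ⟨C, hC, h1⟩ := (h (fun s => (Wt s : ℂ)) (Complex.ofRealCLM.contDiff.comp contDiff_Wt)
    (hasCompactSupport_Wt.comp_left (g := fun t : ℝ => (t : ℂ)) Complex.ofReal_zero)).2.1 A
  have hπ : 1 ≤ 2 * Real.pi := by linarith [Real.two_le_pi]
  refine ⟨C * (2 * Real.pi) ^ A, by positivity, fun s => ?_⟩
  have e : wh s = FT1 (fun s => (Wt s : ℂ)) (-(s / (2 * Real.pi))) := by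
    unfold wh FT1 ex
    refine integral_congr_ae (.of_forall fun z => ?_)
    have e1 : 2 * Real.pi * -(-(s / (2 * Real.pi)) * z) = z * s := by field_simp
    simp only [e1, Complex.ofReal_mul, mul_assoc]
  rw [e]
  refine (h1 _).trans ?_
  rw [div_le_div_iff₀ (by positivity) (by positivity), mul_assoc, ← mul_pow, abs_neg, abs_div,
    abs_of_pos (by positivity : 0 < 2 * Real.pi), mul_add, mul_div_cancel₀ _ (by positivity)]
  gcongr
  linarith

end Pool.Agent.MP_c853c5_nt.W
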