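import Pool.Agent.MP_c853c5_nt.W.All
import Pool.Agent.MP_c853c5_nt.W.Amp
import Pool.Agent.MP_c853c5_nt.W.Base
import Pool.Agent.MP_c853c5_nt.W.Blk
import Pool.Agent.MP_c853c5_nt.W.Card
import Pool.Agent.MP_c853c5_nt.W.Ch
import Pool.Agent.MP_c853c5_nt.W.Chg
import Pool.Agent.MP_c853c5_nt.W.CntA
import Pool.Agent.MP_c853c5_nt.W.CntB
import Pool.Agent.MP_c853c5_nt.W.CntC
import Pool.Agent.MP_c853c5_nt.W.CntL
import Pool.Agent.MP_c853c5_nt.W.Co1
import Pool.Agent.MP_c853c5_nt.W.CoV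
import Pool.Agent.MP_c853c5_nt.W.Cont
import Pool.Agent.MP_c853c5_nt.W.Crude
import Pool.Agent.MP_c853c5_nt.W.Diag
import Pool.Agent.MP_c853c5_nt.W.Disc
import Pool.Agent.MP_c853c5_nt.W.Dual
import Pool.Agent.MP_c853c5_nt.W.Er
import Pool.Agent.MP_c853c5_nt.W.Exp
import Pool.Agent.MP_c853c5_nt.W.F1
import Pool.Agent.MP_c853c5_nt.W.Fix
import Pool.Agent.MP_c853c5_nt.W.Gcd
import Pool.Agent.MP_c853c5_nt.W.Gram
import Pool.Agent.MP_c853c5_nt.W.Grs
import Pool.Agent.MP_c853c5_nt.W.Id2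
import Pool.Agent.MP_c853c5_nt.W.Id3
import Pool.Agent.MP_c853c5_nt.W.Inv
import Pool.Agent.MP_c853c5_nt.W.Left
import Pool.Agent.MP_c853c5_nt.W.Lev1
import Pool.Agent.MP_c853c5_nt.W.Lg
import Pool.Agent.MP_c853c5_nt.W.LineB
import Pool.Agent.MP_c853c5_nt.W.LineL
import Pool.Agent.MP_c853c5_nt.W.M4
import Pool.Agent.MP_c853c5_nt.W.MelA
import Pool.Agent.MP_c853c5_nt.W.Mid
import Pool.Agent.MP_c853c5_nt.W.MinkI
import Pool.Agent.MP_c853c5_nt.W.MinkS
import Pool.Agent.MP_c853c5_nt.W.Orb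
import Pool.Agent.MP_c853c5_nt.W.Os
import Pool.Agent.MP_c853c5_nt.W.Out
import Pool.Agent.MP_c853c5_nt.W.Part
import Pool.Agent.MP_c853c5_nt.W.Pb
import Pool.Agent.MP_c853c5_nt.W.Pdl
import Pool.Agent.MP_c853c5_nt.W.Piece
import Pool.Agent.MP_c853c5_nt.W.PoisF
import Pool.Agent.MP_c853c5_nt.W.PoisZ
import Pool.Agent.MP_c853c5_nt.W.Psm
import Pool.Agent.MP_c853c5_nt.W.R1
import Pool.Agent.MP_c853c5_nt.W.R2
import Pool.Agent.MP_c853c5_nt.W.Rep
import Pool.Agent.MP_c853c5_nt.W.Rough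
import Pool.Agent.MP_c853c5_nt.W.Rs
import Pool.Agent.MP_c853c5_nt.W.Rt
import Pool.Agent.MP_c853c5_nt.W.Sep
import Pool.Agent.MP_c853c5_nt.W.Shp
import Pool.Agent.MP_c853c5_nt.W.Tail
import Pool.Agent.MP_c853c5_nt.W.Term
import Pool.Agent.MP_c853c5_nt.W.Th
import Pool.Agent.MP_c853c5_nt.W.TopMid
import Pool.Agent.MP_c853c5_nt.W.TopSum
import Pool.Agent.MP_c853c5_nt.W.Triv
import Pool.Agent.MP_c853c5_nt.W.Um
import Pool.Agent.MP_c853c5_nt.W.Unf
import Pool.Agent.MP_c853c5_nt.W.UnfC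
import Pool.Agent.MP_c853c5_nt.W.Vol
import Pool.Agent.MP_c853c5_nt.W.VolZ
import Pool.Agent.MP_c853c5_nt.W.Wh

set_option autoImplicit false

namespace Pool.Agent.MP_c853c5_nt.W

theorem um_all : UmStmt := um_stmt cov_stmt
theorem rt_all : RtStmt := rt_stmt cov_stmt
theorem unf_all : UnfStmt := unf_stmt orb_stmt
theorem os_all : OsStmt := os_stmt unf_all (unfC_stmt unf_all) (grs_stmt card_stmt gram_stmt)
theorem th_all : ThStmt := th_stmt cov_stmt
theorem mid_all : MidStmt := mid_stmt os_all th_all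
theorem rough_all : RoughStmt := rough_stmt unf_all gram_stmt
theorem pdl_all : PdlStmt := pdl_stmt pb_stmt gcd_stmt
theorem eh_all : EhStmt := eh_stmt f1_stmt
theorem wh_all : WhStmt := wh_stmt f1_stmt
theorem vol_all : VolStmt := vol_stmt cov_stmt volZ_stmt vol1_stmt
theorem triv_all : TrivStmt :=
  triv_stmt inv_stmt vol_all (cntA_stmt gcd_stmt) (cntB_stmt gcd_stmt) (cntC_stmt gcd_stmt)
theorem crude_all : CrudeStmt := crude_stmt unf_all inv_stmt vol1_stmt
theorem shp_all : ShpStmt := shp_stmt rt_all crude_all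
theorem left_all : LeftStmt := left_stmt rough_all shp_all inv_stmt vol_all (cntL_stmt gcd_stmt)
theorem cont_all : ContStmt := cont_stmt fin_stmt
theorem dual_all : DualStmt :=
  dual_stmt (term_stmt eh_all crude_all) part_stmt (poisF_stmt anch_stmt fin_stmt poisz_stmt)
    (lineL_stmt (lineB_stmt eh_all pois1_stmt) eh_all pb_stmt left_all fin_stmt) minkS_stmt sc_stmt

/-- from one dyadic block to all levels -/
theorem aps_of_ap {η : ℝ} (h0 : 0 < η) (h1 : η ≤ 1) (h : AP η) : APs η := by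
  have hl := all_stmt pdl_all cont_all η h0 h1 h
  exact dy_stmt η h0 h1 (blk_stmt pdl_all cont_all η h0 h1 hl (dual_all η h0 h1
    (piece_stmt (co1_stmt f1_stmt eh_all wh_all) minkI_stmt fin_stmt η h0 h1 hl)))

/-- one step of the iteration -/
theorem ap_step {η : ℝ} (h0 : 0 < η) (h1 : η ≤ 1) (h : AP η) : AP (η / (1 + η)) :=
  r1_stmt rt_all fin_stmt η h0 h1
    (r2_stmt shp_all os_all inv_stmt triv_all (er_stmt rs_stmt psm_stmt) nu_stmt η h0 h1
      (out_stmt um_all shp_all os_all (chg_stmt cov_stmt) nu_stmt volZ_stmt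
        (logV_stmt volZ_stmt) η h0 h1
        (fix_stmt um_all rt_all shp_all th_all mid_all sep_stmt amp_stmt wh_all ch_stmt id2_stmt
          η h0 h1 (aps_of_ap h0 h1 h))))

theorem inv_le_one (k : ℕ) : 1 / ((k : ℝ) + 1) ≤ 1 :=
  div_le_one_of_le₀ (by linarith [Nat.cast_nonneg (α := ℝ) k]) (by positivity)

theorem ap_all (k : ℕ) : AP (1 / ((k : ℝ) + 1)) := by
  induction k with
  | zero => simpa [BaseStmt] using base_stmt rough_all shp_all triv_all inv_stmt
  | succ k ih =>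
    have h := ap_step (by positivity) (inv_le_one k) ih
    rwa [show 1 / ((k : ℝ) + 1) / (1 + 1 / ((k : ℝ) + 1)) = 1 / (((k + 1 : ℕ) : ℝ) + 1) by
      push_cast; field_simp] at h

/-- the twisted fourth moment, mean form -/
theorem wattI_all : WattI := by
  refine topSum_stmt exp_stmt rep_stmt (diag_stmt gcd_stmt wh_all) (lev1_stmt m4_stmt)
    (tail_stmt wh_all) gcd_stmt fun η₀ h => ?_
  obtain ⟨k, hk⟩ := exists_nat_one_div_lt h
  exact ⟨_, by positivity, hk.le, topMid_stmt um_all rt_all shp_all th_all mid_all sep_stmt amp_stmt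
    wh_all lg_stmt ch_stmt id3_stmt left_all gcd_stmt _ (by positivity) (inv_le_one k)
    (aps_of_ap (by positivity) (inv_le_one k) (ap_all k))⟩

/-- the twisted fourth moment on a well spaced set -/
theorem wattD_all : WattD := disc_stmt (melA_stmt f1_stmt) wattI_all

end Pool.Agent.MP_c853c5_nt.W
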