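import Pool.Agent.MP_c853c5_nt.W.Api

set_option autoImplicit false

open Finset MeasureTheory
open scoped ENNReal ComplexConjugate

namespace Pool.Agent.MP_c853c5_nt.W

open Pool.Agent.MP_2a1f0e_nt Pool.Agent.MP_2a1f0e_nt.GM Pool.Agent.MP_2a1f0e_nt.DH

lemma coord_Orb {G : Pr} (h : hh G = 1) (u : V) : vg (om2 u G.2, om2 G.1 u) G = u := by
  simp only [hh, om2] at h
  refine Prod.ext ?_ ?_
  · simp only [vg, om2]; linear_combination u.1 * h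
  · simp only [vg, om2]; linear_combination u.2 * h

lemma vg_inj_Orb {G : Pr} (h : hh G = 1) {u v : V} (e : vg u G = vg v G) : u = v := by
  have e1 := congrArg Prod.fst e
  have e2 := congrArg Prod.snd e
  simp only [hh, om2, vg] at h e1 e2
  refine Prod.ext ?_ ?_
  · linear_combination G.2.2 * e1 - G.2.1 * e2 - (u.1 - v.1) * h
  · linear_combination G.1.1 * e2 - G.1.2 * e1 - (u.2 - v.2) * h

lemma vg_base_Orb (G : Pr) : vg (0, 1) G = G.2 := by simp [vg]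

lemma shift_Orb {a b u : V} (ha : om2 a u = 1) (hb : om2 b u = 1) :
    ∃ k : ℤ, b = (a.1 + k * u.1, a.2 + k * u.2) := by
  refine ⟨om2 a b, ?_⟩
  have := coord_Orb (G := (a, u)) ha b
  rw [hb] at this
  conv_lhs => rw [← this]
  simp only [vg, one_mul]

lemma om2_shift_Orb (a u v : V) (k : ℤ) :
    om2 (a.1 + k * u.1, a.2 + k * u.2) v = om2 a v + k * om2 u v := by
  simp only [om2]; ring

lemma tt_shift_Orb (a u : V) (k : ℤ) {x : MM} (h : (vx u x).1 ≠ 0) :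
    tt ((a.1 + k * u.1, a.2 + k * u.2), u) x = tt (a, u) x + k := by
  simp only [tt]
  rw [div_add' _ _ _ h]
  congr 1
  simp only [vx]
  push_cast
  ring

theorem orb_stmt : OrbStmt := by
  rintro ⟨⟨u, u'⟩, v, v'⟩ hp h0
  refine existsUnique_of_exists_of_unique ?_ ?_
  · obtain ⟨a, ha⟩ := prim_iff_exists.1 hp
    change om2 a u' = 1 at ha
    change om2 u u' ≠ 0 at h0
    obtain ⟨b, hb, hd⟩ : ∃ b : V, om2 b u' = 1 ∧ om2 b u = om2 a u % om2 u u' := by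
      refine ⟨(a.1 + om2 a u / om2 u u' * u'.1, a.2 + om2 a u / om2 u u' * u'.2), ?_, ?_⟩
      · rw [om2_shift_Orb, om2_self, ha, mul_zero, add_zero]
      · rw [om2_shift_Orb, om2_swap u' u, Int.emod_def]; ring
    have hG : hh (b, u') = 1 := hb
    refine ⟨((((om2 u u', om2 b u), (0, 1)), ((om2 v u', om2 b v), (om2 v' u', om2 b v'))),
      (b, u')), ⟨rfl, ?_, ?_⟩, hG, ?_⟩
    · change 0 ≤ om2 b u
      rw [hd]
      exact Int.emod_nonneg _ h0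
    · change om2 b u < |om2 u u'|
      rw [hd]
      exact Int.emod_lt_abs _ h0
    · exact Prod.ext (Prod.ext (coord_Orb hG u).symm (vg_base_Orb (b, u')).symm)
        (Prod.ext (coord_Orb hG v).symm (coord_Orb hG v').symm)
  · rintro ⟨⟨⟨⟨h₁, d₁⟩, e₁⟩, Q₁⟩, a₁, b₁⟩ ⟨⟨⟨⟨h₂, d₂⟩, e₂⟩, Q₂⟩, a₂, b₂⟩
      ⟨⟨he₁, l₁, r₁⟩, hG₁, z₁⟩ ⟨⟨he₂, l₂, r₂⟩, hG₂, z₂⟩
    simp only at he₁ he₂ l₁ l₂ r₁ r₂ hG₁ hG₂
    subst he₁ he₂
    have z := z₁.symm.trans z₂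
    simp only [pg, Prod.mk.injEq, vg_base_Orb] at z
    obtain ⟨⟨y1, rfl⟩, y2, y3⟩ := z
    obtain ⟨k, rfl⟩ := shift_Orb (a := a₁) (b := a₂) (u := b₁) hG₁ hG₂
    have y4 : vg (h₁, d₁) (a₁, b₁) = vg (h₂, d₂ + k * h₂) (a₁, b₁) := by
      rw [y1]
      simp only [vg, Prod.mk.injEq]
      constructor <;> ring
    obtain ⟨rfl, rfl⟩ := Prod.mk.inj (vg_inj_Orb hG₁ y4)
    have hk : k = 0 := by
      have h5 : |k * h₁| < |h₁| := abs_lt.2 ⟨by linarith, by linarith⟩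
      rw [abs_mul] at h5
      have h6 : |k| < 1 := by
        by_contra hc
        nlinarith [not_lt.1 hc, abs_nonneg h₁]
      exact Int.abs_lt_one_iff.1 h6
    subst hk
    simp only [zero_mul, add_zero] at y2 y3 ⊢
    rw [Prod.ext (vg_inj_Orb hG₁ y2) (vg_inj_Orb hG₁ y3)]

theorem anch_stmt : AnchStmt := by
  rintro x ⟨u, u'⟩ hp h0
  change (vx u' x).1 ≠ 0 at h0
  refine existsUnique_of_exists_of_unique ?_ ?_
  · obtain ⟨a, ha⟩ := prim_iff_exists.1 hp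
    change om2 a u' = 1 at ha
    obtain ⟨b, hb, hd⟩ : ∃ b : V, om2 b u' = 1 ∧ tt (b, u') x = Int.fract (tt (a, u') x) := by
      refine ⟨(a.1 + (-⌊tt (a, u') x⌋) * u'.1, a.2 + (-⌊tt (a, u') x⌋) * u'.2), ?_, ?_⟩
      · rw [om2_shift_Orb, om2_self, ha, mul_zero, add_zero]
      · rw [tt_shift_Orb _ _ _ h0, Int.fract, Int.cast_neg, sub_eq_add_neg]
    have hG : hh (b, u') = 1 := hb
    refine ⟨((b, u'), (om2 u u', om2 b u)), ⟨hG, ?_, ?_⟩, Prod.ext (coord_Orb hG u).symm rfl⟩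
    · change 0 ≤ tt (b, u') x
      rw [hd]
      exact Int.fract_nonneg _
    · change tt (b, u') x < 1
      rw [hd]
      exact Int.fract_lt_one _
  · rintro ⟨⟨a₁, b₁⟩, w₁⟩ ⟨⟨a₂, b₂⟩, w₂⟩ ⟨⟨hG₁, l₁, r₁⟩, z₁⟩ ⟨⟨hG₂, l₂, r₂⟩, z₂⟩
    simp only [Prod.mk.injEq] at hG₁ hG₂ l₁ l₂ r₁ r₂ z₁ z₂
    obtain ⟨y1, rfl⟩ := z₁
    obtain ⟨y2, rfl⟩ := z₂
    obtain ⟨k, rfl⟩ := shift_Orb (a := a₁) (b := a₂) (u := u') hG₁ hG₂
    rw [tt_shift_Orb _ _ _ h0] at l₂ r₂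
    have hk : k = 0 := by
      have h5 : |(k : ℝ)| < 1 := abs_lt.2 ⟨by linarith, by linarith⟩
      exact Int.abs_lt_one_iff.1 (by exact_mod_cast h5)
    subst hk
    simp only [zero_mul, add_zero] at y2 ⊢
    rw [vg_inj_Orb hG₁ (y1.symm.trans y2)]

end Pool.Agent.MP_c853c5_nt.W
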