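import Pool.Agent.MP_c853c5_nt.W.Api

set_option autoImplicit false

open Finset MeasureTheory
open scoped ENNReal ComplexConjugate

namespace Pool.Agent.MP_c853c5_nt.W

open Pool.Agent.MP_2a1f0e_nt Pool.Agent.MP_2a1f0e_nt.GM Pool.Agent.MP_2a1f0e_nt.DH

/-- the inner product over a part of the space -/
noncomputable def Jp_R2 (d : Dat) (p : MM → Prop) (z : Pr × Pr) : ℂ :=
  ∫ x, iC (p x) * (pk d z.1 x * conj (pk d z.2 x))

lemma lint_R2 {d : Dat} (hd : Adm d.al d.g) (p : MM → Prop) (z : Pr × Pr) :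
    ∫⁻ x, ‖iC (p x) * (pk d z.1 x * conj (pk d z.2 x))‖ₑ ≤
      vol (Sup d.al d.H2 d.H) (Sup d.al d.H2 d.H) z := by
  have hP := pac_pk' hd
  refine le_trans (lintegral_mono fun x => enorm_le_iE ?_ fun h => ?_) (lintegral_iE volume
    ((measurableSet_Sup _ _ _ z.1).inter (measurableSet_Sup _ _ _ z.2))).le
  · rw [norm_mul, norm_mul, Complex.norm_conj]
    exact mul_le_one₀ (norm_iC_le _) (by positivity)
      (mul_le_one₀ (hP.bd _ _) (norm_nonneg _) (hP.bd _ _))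
  · have h1 := right_ne_zero_of_mul h
    exact ⟨hP.sp _ _ (left_ne_zero_of_mul h1),
      hP.sp _ _ ((map_ne_zero _).1 (right_ne_zero_of_mul h1))⟩

lemma Jp_le_R2 {d : Dat} (hd : Adm d.al d.g) (p : MM → Prop) (z : Pr × Pr) :
    ‖Jp_R2 d p z‖ₑ ≤ vol (Sup d.al d.H2 d.H) (Sup d.al d.H2 d.H) z :=
  (enorm_integral_le_lintegral_enorm _).trans (lint_R2 hd p z)

lemma integ_R2 {d : Dat} (hd : Adm d.al d.g) {p : MM → Prop} (hp : MeasurableSet {x | p x})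
    {z : Pr × Pr} (hv : vol (Sup d.al d.H2 d.H) (Sup d.al d.H2 d.H) z ≠ ⊤) :
    Integrable fun x => iC (p x) * (pk d z.1 x * conj (pk d z.2 x)) :=
  ⟨((measurable_iC hp).mul ((measurable_pk hd.1 _).mul
    (Complex.continuous_conj.measurable.comp (measurable_pk hd.1 _)))).aestronglyMeasurable,
    (lint_R2 hd p z).trans_lt (lt_top_iff_ne_top.2 hv)⟩

lemma big_R2 (d : Dat) (G : Pr) : MeasurableSet {x | BigZ d (act G x)} :=
  measurableSet_le measurable_const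
    ((continuous_dt.comp (continuous_act G)).abs.measurable.mul_const _)

lemma split_R2 {d : Dat} (hd : Adm d.al d.g) {z : Pr × Pr}
    (hv : vol (Sup d.al d.H2 d.H) (Sup d.al d.H2 d.H) z ≠ ⊤) :
    ∫ x, pk d z.1 x * conj (pk d z.2 x) =
      Jp_R2 d (fun x => ¬BigZ d (act (z.1.2, z.2.2) x)) z + Jb d z := by
  rw [Jp_R2, Jb, ← integral_add (integ_R2 hd (p := fun x => ¬BigZ d (act (z.1.2, z.2.2) x))
    (big_R2 d _).compl hv) (integ_R2 hd (big_R2 d _) hv)]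
  refine integral_congr_ae (Filter.Eventually.of_forall fun x => ?_)
  beta_reduce
  rw [← add_mul, add_comm, iC_add_not, one_mul]

lemma small_R2 {d : Dat} (hd : Adm d.al d.g) (h2 : d.H2 ≠ 0) (z : Pr × Pr) :
    ‖Jp_R2 d (fun x => ¬BigZ d (act (z.1.2, z.2.2) x)) z‖ₑ ≤
      iE (|(rI z : ℝ)| ≤ 1000 * |d.H| / |d.H2|) *
        vol (Sup d.al d.H2 d.H) (Sup d.al d.H2 d.H) z := by
  by_cases h : |(rI z : ℝ)| ≤ 1000 * |d.H| / |d.H2|
  · rw [iE_pos h, one_mul]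
    exact Jp_le_R2 hd _ z
  have e : ∀ x, iC (¬BigZ d (act (z.1.2, z.2.2) x)) * (pk d z.1 x * conj (pk d z.2 x)) = 0 := by
    intro x
    by_contra h0
    have h1 := iC_ne_zero (left_ne_zero_of_mul h0)
    have h3 := ((pac_pk' hd).sp _ _ (left_ne_zero_of_mul (right_ne_zero_of_mul h0))).2.2.2.2.1
    have h4 : 0 < |d.H2| := abs_pos.2 h2
    apply h
    rw [BigZ, dt_act, abs_mul, abs_of_nonneg (zero_le_one.trans h3), not_le] at h1
    rw [le_div_iff₀ h4]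
    refine le_trans ?_ h1.le
    exact mul_le_mul_of_nonneg_right (le_mul_of_one_le_right (abs_nonneg _) h3) h4.le
  simp [Jp_R2, e]

lemma rad_R2 (hI : InvStmt) {α : ℝ} (hα : 0 < α) (H2 H : ℝ) (z : Pr × Pr) :
    vol (Sup α H2 H) (Sup α H2 H) z ≤
      iE (|(rI z : ℝ)| ≤ 32 * α ^ 2) * vol (Sup α H2 H) (Sup α H2 H) z := by
  by_cases h : |(rI z : ℝ)| ≤ 32 * α ^ 2
  · rw [iE_pos h, one_mul]
  have e : {x | Sup α H2 H z.1 x ∧ Sup α H2 H z.2 x} = ∅ :=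
    Set.eq_empty_of_forall_notMem fun x hx =>
      h (hI α H2 H z x hα hx.1.2 hx.2.2).2.2.2.2.2.2.1
  rw [vol, e, measure_empty]
  exact zero_le

lemma summ_R2 {v : Orb → ℝ≥0∞} (hv : ∑' z, v z ≠ ⊤) {F c : Orb → ℂ} {B : ℝ}
    (hF : ∀ z, ‖F z‖ₑ ≤ v z) (hc : ∀ z, ‖c z‖ ≤ B) : Summable fun z => c z * F z := by
  have h1 : Summable fun z => ‖F z‖ := by
    have h2 : ∑' z, ‖F z‖ₑ ≠ ⊤ := ne_top_of_le_ne_top hv (ENNReal.tsum_le_tsum hF)
    simp only [enorm_eq_nnnorm] at h2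
    rw [ENNReal.tsum_coe_ne_top_iff_summable, ← NNReal.summable_coe] at h2
    exact h2
  refine Summable.of_norm_bounded (h1.mul_left B) fun z => ?_
  rw [norm_mul]
  exact mul_le_mul_of_nonneg_right (hc z) (norm_nonneg _)

lemma ser_R2 {v : Orb → ℝ≥0∞} {p : Orb → Prop} {F c : Orb → ℂ}
    (hF : ∀ z, ‖F z‖ₑ ≤ iE (p z) * v z) :
    ‖∑' z, c z * F z‖ₑ ≤ ∑' z, iE (p z) * ENNReal.ofReal ‖c z‖ * v z := by
  refine enorm_tsum_le_tsum_enorm.trans (ENNReal.tsum_le_tsum fun z => ?_)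
  rw [enorm_mul, ofReal_norm_eq_enorm, mul_comm (iE _), mul_assoc]
  exact mul_le_mul_right (hF z) _

lemma pos_R2 (hS : ShpStmt) (hO : OsStmt) {μ : Measure MM} (hμ : UM μ) {d : Dat} (hα : 0 < d.al)
    (hd : Adm d.al d.g) {Q : ℕ} (hQ : 1 ≤ Q) :
    ∑ q ∈ Ico Q (2 * Q), LN μ q Prod.fst (pk d) ≤
      ‖∑' z : Orb, nuQ Q (nI z.1) * ∫ x, pk d z.1.1 x * conj (pk d z.1.2 x)‖ₑ := by
  have hs := (hS μ hμ d.al hα).1 d.H2 d.H
  obtain ⟨hv, ho⟩ := hO μ hμ _ _ _ _ hs hs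
  have hP := pac_pk' hd
  have hJ : ∀ z : Orb, ‖∫ x, pk d z.1.1 x * conj (pk d z.1.2 x)‖ₑ ≤
      vol (Sup d.al d.H2 d.H) (Sup d.al d.H2 d.H) z.1 := fun z => by
    have := Jp_le_R2 hd (fun _ => True) z.1
    simpa only [Jp_R2, iC_pos trivial, one_mul] using this
  have e : ∑' z : Orb, nuQ Q (nI z.1) * ∫ x, pk d z.1.1 x * conj (pk d z.1.2 x) =
      ∑ q ∈ Icc 1 (3 * Q), (Wt ((q : ℝ) / Q) : ℂ) * OS (dl q) Prod.fst Prod.fst (pk d) (pk d) := by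
    simp only [nuQ, sum_mul, OS, ← tsum_mul_left]
    rw [Summable.tsum_finsetSum]
    · exact sum_congr rfl fun q _ => tsum_congr fun z => mul_assoc _ _ _
    · intro q hq
      refine summ_R2 hv hJ (B := 1) fun z => ?_
      rw [norm_mul, Complex.norm_real, Real.norm_of_nonneg (Wt_nonneg _)]
      exact mul_le_one₀ (Wt_le_one _) (norm_nonneg _) (norm_dl_le (mem_Icc.1 hq).1 _)
  have hQ' : (0 : ℝ) < Q := by exact_mod_cast hQ
  have hsub : Ico Q (2 * Q) ⊆ Icc 1 (3 * Q) := fun q hq => by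
    rw [mem_Ico] at hq
    rw [mem_Icc]
    omega
  have h0 : ∀ q ∈ Icc 1 (3 * Q), 0 ≤ (OS (dl q) Prod.fst Prod.fst (pk d) (pk d)).re :=
    fun q hq => ((ho q _ _ (mem_Icc.1 hq).1 hP hP).2 rfl rfl).1
  rw [e, ← ofReal_norm_eq_enorm, sum_congr rfl fun q hq =>
    ((ho q _ _ (mem_Icc.1 (hsub hq)).1 hP hP).2 rfl rfl).2,
    ← ENNReal.ofReal_sum_of_nonneg fun q hq => h0 q (hsub hq)]
  refine ENNReal.ofReal_le_ofReal (le_trans ?_ (Complex.re_le_norm _))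
  rw [Complex.re_sum]
  simp only [Complex.re_ofReal_mul]
  refine le_trans (le_of_eq (sum_congr rfl fun q hq => ?_)) (sum_le_sum_of_subset_of_nonneg hsub
    fun q hq _ => mul_nonneg (Wt_nonneg _) (h0 q hq))
  rw [mem_Ico] at hq
  rw [Wt_eq_one, one_mul]
  · rw [le_div_iff₀ hQ', one_mul]
    exact_mod_cast hq.1
  · rw [div_le_iff₀ hQ']
    exact_mod_cast hq.2.le

/-- the three parts -/
lemma three_R2 (hS : ShpStmt) (hO : OsStmt) (hI : InvStmt) (hN : NuStmt) {μ : Measure MM}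
    (hμ : UM μ) {d : Dat} (hα : 0 < d.al) (hd : Adm d.al d.g) (h2 : d.H2 ≠ 0) {Q : ℕ}
    (hQ : 1 ≤ Q) (Cm : ℕ) :
    ∑ q ∈ Ico Q (2 * Q), LN μ q Prod.fst (pk d) ≤
      ∑' z : Orb, iE (|(rI z.1 : ℝ)| ≤ 1000 * |d.H| / |d.H2|) *
          ENNReal.ofReal ‖nuQ Q (nI z.1)‖ * vol (Sup d.al d.H2 d.H) (Sup d.al d.H2 d.H) z.1 +
        ∑' z : Orb, iE (|(rI z.1 : ℝ)| ≤ 32 * d.al ^ 2) *
          ENNReal.ofReal ‖nuQ Q (nI z.1) - swp Q Cm (nI z.1)‖ *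
            vol (Sup d.al d.H2 d.H) (Sup d.al d.H2 d.H) z.1 +
        ‖∑' z : Orb, swp Q Cm (nI z.1) * Jb d z.1‖ₑ := by
  have hs := (hS μ hμ d.al hα).1 d.H2 d.H
  have hv := (hO μ hμ _ _ _ _ hs hs).1
  have hb : ∀ z : Orb, ‖Jb d z.1‖ₑ ≤ vol (Sup d.al d.H2 d.H) (Sup d.al d.H2 d.H) z.1 :=
    fun z => Jp_le_R2 hd _ z.1
  have s1 := summ_R2 hv
    (fun z => Jp_le_R2 hd (fun x => ¬BigZ d (act (z.1.1.2, z.1.2.2) x)) z.1)
    fun z => (hN Q Cm (nI z.1) hQ).1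
  have s2 := summ_R2 hv hb (c := fun z => nuQ Q (nI z.1) - swp Q Cm (nI z.1)) fun z =>
    (norm_sub_le _ _).trans (add_le_add (hN Q Cm (nI z.1) hQ).1 (hN Q Cm (nI z.1) hQ).2.2.2)
  have s3 := summ_R2 hv hb fun z => (hN Q Cm (nI z.1) hQ).2.2.2
  refine (pos_R2 hS hO hμ hα hd hQ).trans ?_
  have e : ∑' z : Orb, nuQ Q (nI z.1) * ∫ x, pk d z.1.1 x * conj (pk d z.1.2 x) =
      ∑' z : Orb, nuQ Q (nI z.1) * Jp_R2 d (fun x => ¬BigZ d (act (z.1.1.2, z.1.2.2) x)) z.1 +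
        ∑' z : Orb, (nuQ Q (nI z.1) - swp Q Cm (nI z.1)) * Jb d z.1 +
        ∑' z : Orb, swp Q Cm (nI z.1) * Jb d z.1 := by
    rw [← s1.tsum_add s2, ← (s1.add s2).tsum_add s3]
    refine tsum_congr fun z => ?_
    rw [split_R2 hd (ENNReal.ne_top_of_tsum_ne_top hv z)]
    ring
  rw [e]
  refine (enorm_add_le _ _).trans (add_le_add ((enorm_add_le _ _).trans (add_le_add ?_ ?_)) le_rfl)
  · exact ser_R2 fun z => small_R2 hd h2 z.1
  · exact ser_R2 fun z => (hb z).trans (rad_R2 hI hα _ _ z.1)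

end Pool.Agent.MP_c853c5_nt.W
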