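import Pool.Agent.MP_c853c5_nt.W.Api

/-!
The rough bound for the field of a packet.
-/

set_option autoImplicit false

open Finset MeasureTheory
open scoped ENNReal ComplexConjugate

namespace Pool.Agent.MP_c853c5_nt.W

open Pool.Agent.MP_2a1f0e_nt Pool.Agent.MP_2a1f0e_nt.GM Pool.Agent.MP_2a1f0e_nt.DH

lemma gram_Rough (hG : GramStmt) {q : ℕ} (hq : 1 ≤ q) {y y' : V} (h : Prim y) (h' : Prim y') :
    ∑ w ∈ PQ q, iE ((q : ℤ) ∣ om2 w y) * iE ((q : ℤ) ∣ om2 w y') =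
      iE ((q : ℤ) ∣ om2 y y') * (q.totient : ℝ≥0∞) := by
  obtain ⟨N, h1, h2⟩ : ∃ N : Prop → ℕ, (∀ p, iC p = N p) ∧ ∀ p, iE p = N p := by
    classical
    exact ⟨fun p => if p then 1 else 0, fun p => by by_cases h : p <;> simp [iC, h],
      fun p => by by_cases h : p <;> simp [iE, h]⟩
  have k := hG q hq y y' (h.coprime q) (h'.coprime q)
  simp only [ind, h1] at k
  simp only [h2]
  rw [mul_comm]
  exact_mod_cast k

lemma point_Rough (hG : GramStmt) {q : ℕ} (hq : 1 ≤ q) {pt : Pr → V} {S : Pr → Prop}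
    {a : Pr → ℂ} (h1 : ∀ P, ‖a P‖ ≤ 1) (h2 : ∀ P, a P ≠ 0 → S P) (h3 : ∀ P, S P → Prim (pt P)) :
    ENNReal.ofReal (NC q (fun w => ∑' P : Pr, a P * ind q (om2 w (pt P))) 0) ≤
      ∑' z : Pr × Pr, iE ((q : ℤ) ∣ om2 (pt z.1) (pt z.2)) * iE (S z.1 ∧ S z.2) := by
  have k1 : ∀ w, ‖∑' P : Pr, a P * ind q (om2 w (pt P))‖ₑ ≤
      ∑' P : Pr, iE (S P) * iE ((q : ℤ) ∣ om2 w (pt P)) := fun w =>
    enorm_tsum_le_tsum_enorm.trans (ENNReal.tsum_le_tsum fun P => by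
      rw [enorm_mul, ind, enorm_iC]
      exact mul_le_mul_left (enorm_le_iE (h1 P) (h2 P)) _)
  have k2 : ∀ w, ENNReal.ofReal (‖(∑' P : Pr, a P * ind q (om2 w (pt P))) - 0‖ ^ 2) ≤
      ∑' z : Pr × Pr, iE (S z.1 ∧ S z.2) *
        (iE ((q : ℤ) ∣ om2 w (pt z.1)) * iE ((q : ℤ) ∣ om2 w (pt z.2))) := fun w => by
    rw [sub_zero, ENNReal.ofReal_pow (norm_nonneg _), ofReal_norm, sq]
    refine (mul_le_mul' (k1 w) (k1 w)).trans_eq ?_
    rw [ENNReal.tsum_prod' (α := Pr) (β := Pr), ← ENNReal.tsum_mul_right]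
    refine tsum_congr fun P => ?_
    rw [← ENNReal.tsum_mul_left]
    refine tsum_congr fun P' => ?_
    rw [iE_and]
    ring
  have k3 : (0 : ℝ) < q.totient := by exact_mod_cast Nat.totient_pos.2 hq
  rw [NC, ENNReal.ofReal_div_of_pos k3, ENNReal.ofReal_natCast,
    ENNReal.ofReal_sum_of_nonneg fun _ _ => by positivity]
  refine ENNReal.div_le_of_le_mul ((sum_le_sum fun w _ => k2 w).trans ?_)
  rw [← Summable.tsum_finsetSum fun _ _ => ENNReal.summable, ← ENNReal.tsum_mul_right]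
  refine ENNReal.tsum_le_tsum fun z => ?_
  rw [← mul_sum]
  by_cases c : S z.1 ∧ S z.2
  · rw [gram_Rough hG hq (h3 _ c.1) (h3 _ c.2)]
    exact le_of_eq (by ring)
  · rw [iE_neg c, zero_mul]
    exact zero_le

theorem rough_stmt (hU : UnfStmt) (hG : GramStmt) : RoughStmt := by
  intro μ hμ q pt S Ψ hq hS h1 h2
  have hm : ∀ z : Pr × Pr, MeasurableSet {x | S z.1 x ∧ S z.2 x} := fun z =>
    (hS.meas z.1).inter (hS.meas z.2)
  refine (lintegral_mono fun x => point_Rough hG hq (S := fun P => S P x) (fun P => h1 P x)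
    (fun P => h2 P x) fun P h => (hS.sup P x h).2.2.2).trans_eq ?_
  rw [hU μ hμ (fun z x => iE ((q : ℤ) ∣ om2 (pt z.1) (pt z.2)) * iE (S z.1 x ∧ S z.2 x))
    (fun z => (measurable_iE (hm z)).const_mul _)
    (fun z G x hG => by
      simp only [hS.eqv, om2_vg, hG, mul_one, hS.inv _ G x hG])
    fun z x h => by
      have := hS.sup _ x (iE_ne_zero (right_ne_zero_of_mul h)).1
      exact ⟨this.1, this.2.1, this.2.2.1⟩]
  refine tsum_congr fun z => ?_
  rw [lintegral_const_mul _ (measurable_iE (hm z.1)), lintegral_iE _ (hm z.1), vol]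

end Pool.Agent.MP_c853c5_nt.W
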