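import Pool.Agent.MP_c853c5_nt.W.Api

set_option autoImplicit false

open Finset MeasureTheory
open scoped ENNReal ComplexConjugate

namespace Pool.Agent.MP_c853c5_nt.W

open Pool.Agent.MP_2a1f0e_nt Pool.Agent.MP_2a1f0e_nt.GM Pool.Agent.MP_2a1f0e_nt.DH

lemma box_TM {c Y M : ℝ} {v : ℤ} (hc : 1 ≤ c) (hY : 0 < Y) (hM : 2 * Y ≤ M)
    (h : om (c * v / Y) ≠ 0) : 1 ≤ v ∧ (v : ℝ) ≤ M := by
  obtain ⟨h1, h2⟩ := om_mem h
  rw [lt_div_iff₀ hY] at h1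
  rw [div_lt_iff₀ hY] at h2
  have h3 : (0 : ℝ) < v := by
    by_contra h4
    nlinarith [mul_nonneg (zero_le_one.trans hc) (neg_nonneg.2 (not_lt.1 h4))]
  exact ⟨by exact_mod_cast h3, by nlinarith⟩

lemma ap_pos_TM {a : ℕ} (ha : 1 ≤ a) (e : ℕ) : 1 ≤ ap a e :=
  Nat.div_pos (Nat.gcd_le_left _ ha) (Nat.gcd_pos_of_pos_left _ ha)

lemma ap_mul_TM (a e : ℕ) : ap a e * Nat.gcd a e = a := Nat.div_mul_cancel (Nat.gcd_dvd_left a e)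

lemma ts_eq_TM {T y : ℝ} (H' : ℝ) {N M a b e f : ℕ} (hR : Rg T y N M) (ha : a ∈ Icc N (2 * N))
    (hb : b ∈ Icc N (2 * N)) (he : 1 ≤ e) (hf : 1 ≤ f) (hc : Nat.Coprime (ap a e) (ap b e)) :
    (TS T y a b e f M fun P => dlT a b e P * (om ((hh P : ℝ) / H') : ℂ)) =
      ∑' z : Orb, dl (ap a e * ap b e)
        (om2 (vg ((ap a e : ℤ), (ap b e : ℤ)) z.1.1) (Prod.fst z.1.2)) * GT T y a b e f H' z.1 := by
  obtain ⟨-, hy, -, hN, -, hM, -⟩ := hR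
  rw [mem_Icc] at ha hb
  have hN' : (1 : ℝ) ≤ N := by exact_mod_cast hN
  have k : ∀ a : ℕ, N ≤ a ∧ a ≤ 2 * N → 0 < (a : ℝ) * y ∧ 2 * ((a : ℝ) * y) ≤ M := fun a ha => by
    have h1 : (N : ℝ) ≤ a := by exact_mod_cast ha.1
    have h2 : (a : ℝ) ≤ 2 * N := by exact_mod_cast ha.2
    exact ⟨mul_pos (by linarith) hy, by nlinarith⟩
  have ky : 2 * y ≤ M := by nlinarith
  let ι : Pr → Orb := fun P => ⟨(((1, 0), (0, 1)), P), by simp [IsOrb]⟩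
  have hι : Function.Injective ι := fun P P' h => congrArg (fun z : Orb => z.1.2) h
  rw [← hι.tsum_eq, tsum_eq_sum (s := Bx M), TS]
  · refine sum_congr rfl fun P hP => ?_
    have hP' := (mem_filter.1 hP).2
    have e1 : vg ((ap a e : ℤ), (ap b e : ℤ)) ((1, 0), (0, 1)) = ((ap a e : ℤ), (ap b e : ℤ)) := by
      simp [vg]
    simp only [ι, GT, dlT, e1]
    rw [iC_pos hc, iC_pos (show hh (((1, 0), (0, 1)) : Pr) = 1 by decide),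
      iC_pos (show Prim P.1 ∧ Prim P.2 from hP')]
    ring
  · intro P hP
    by_contra h0
    have h1 := right_ne_zero_of_mul h0
    simp only [ι, GT, Gw, mul_ne_zero_iff, Complex.ofReal_ne_zero] at h1
    obtain ⟨⟨⟨-, h2⟩, ⟨⟨⟨h3, h4⟩, h5⟩, h6⟩, -⟩, -⟩ := h1
    have he' : (1 : ℝ) ≤ e := by exact_mod_cast he
    have hf' : (1 : ℝ) ≤ f := by exact_mod_cast hf
    have g3 := box_TM he' (k a ha).1 (k a ha).2 h3
    have g4 := box_TM he' (k b hb).1 (k b hb).2 h4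
    have g5 := box_TM hf' hy ky h5
    have g6 := box_TM hf' hy ky h6
    refine hP (mem_filter.2 ⟨?_, iC_ne_zero h2⟩)
    simp only [mem_product, mem_Icc]
    exact ⟨⟨⟨g3.1, by exact_mod_cast g3.2⟩, g4.1, by exact_mod_cast g4.2⟩,
      ⟨g5.1, by exact_mod_cast g5.2⟩, g6.1, by exact_mod_cast g6.2⟩
  · intro z hz
    have h1 := right_ne_zero_of_mul hz
    simp only [GT, mul_ne_zero_iff] at h1
    exact ⟨z.1.2, Subtype.ext (Prod.ext (isOrb_one z.2 (iC_ne_zero h1.1.1.1)).symm rfl)⟩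

/-- multiplicity of the level -/
lemma mult_TM {N e X : ℕ} {Δ : ℝ} (hN : 1 ≤ N) (he : 1 ≤ e) (hD : DivB X Δ) (h1 : e ≤ X)
    (h2 : 4 * N ^ 2 ≤ X) (U : ℕ → ℝ≥0∞) :
    ∑ p ∈ Icc N (2 * N) ×ˢ Icc N (2 * N), U (ap p.1 e * ap p.2 e) ≤
      ENNReal.ofReal (Δ ^ 3) * ∑ q ∈ Icc 1 (4 * N ^ 2), U q := by
  have hm : ∀ p ∈ Icc N (2 * N) ×ˢ Icc N (2 * N), ap p.1 e * ap p.2 e ∈ Icc 1 (4 * N ^ 2) := by
    intro p hp
    simp only [mem_product, mem_Icc] at hp ⊢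
    refine ⟨Nat.mul_pos (ap_pos_TM (by omega) e) (ap_pos_TM (by omega) e), ?_⟩
    calc ap p.1 e * ap p.2 e ≤ (2 * N) * (2 * N) :=
          Nat.mul_le_mul ((Nat.div_le_self _ _).trans hp.1.2) ((Nat.div_le_self _ _).trans hp.2.2)
      _ = 4 * N ^ 2 := by ring
  rw [← sum_fiberwise_of_maps_to hm, mul_sum]
  refine sum_le_sum fun q hq => ?_
  rw [sum_congr rfl fun p hp => by rw [(mem_filter.1 hp).2], sum_const, nsmul_eq_mul]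
  refine mul_le_mul_left ?_ _
  rw [mem_Icc] at hq
  have h3 : ((Icc N (2 * N) ×ˢ Icc N (2 * N)).filter fun p => ap p.1 e * ap p.2 e = q).card ≤
      (q.divisors ×ˢ e.divisors ×ˢ e.divisors).card := by
    refine card_le_card_of_injOn (fun p => (ap p.1 e, Nat.gcd p.1 e, Nat.gcd p.2 e))
      (fun p hp => ?_) fun p hp p' hp' h => ?_
    · have h4 := (mem_filter.1 hp).2
      simp only [coe_product, Set.mem_prod, mem_coe, Nat.mem_divisors]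
      exact ⟨⟨Dvd.intro _ h4, by omega⟩, ⟨Nat.gcd_dvd_right _ _, by omega⟩,
        Nat.gcd_dvd_right _ _, by omega⟩
    · have h4 := (mem_filter.1 hp).2
      have h5 := (mem_filter.1 hp').2
      simp only [Prod.mk.injEq] at h
      have h6 : 0 < ap p.1 e := Nat.pos_of_ne_zero fun h0 => by rw [h0] at h4; omega
      have h7 : ap p.2 e = ap p'.2 e :=
        Nat.eq_of_mul_eq_mul_left h6 (by rw [h4, h.1, h5])
      refine Prod.ext ?_ ?_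
      · rw [← ap_mul_TM p.1 e, h.1, h.2.1, ap_mul_TM]
      · rw [← ap_mul_TM p.2 e, h7, h.2.2, ap_mul_TM]
  rw [← ENNReal.ofReal_natCast]
  refine ENNReal.ofReal_le_ofReal (le_trans (Nat.cast_le.2 h3) ?_)
  rw [card_product, card_product]
  push_cast
  have h8 := hD.2 q (hq.2.trans h2)
  have h9 := hD.2 e h1
  have h0 := zero_le_one.trans hD.1
  calc _ ≤ Δ * (Δ * Δ) := by gcongr
    _ = Δ ^ 3 := by ring

/-- one pair `(a, b)` -/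
lemma one_TM (hR : RtStmt) (hS : ShpStmt) (hM : MidStmt) (hC : ChStmt) (hI : Id3Stmt)
    {μ : Measure MM} (hμ : UM μ) {L : ℝ → ℝ} (hL : IsLg L) {T y A₀ H' y₁ y₂ κ Lb : ℝ}
    {N M a b e f : ℕ} {w : (Fin 9 → ℝ) → ℝ} (hg : Rg T y N M) (ha : a ∈ Icc N (2 * N))
    (hb : b ∈ Icc N (2 * N)) (he : 1 ≤ e) (hf : 1 ≤ f) (hA : 1 ≤ A₀) (hH : H' ≠ 0)
    (h1 : y₁ = N * y / e) (h2 : y₂ = y / f) (hm : |H'| * A₀ ^ 2 / (y₁ * y₂) ≤ 1 / 100)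
    (hκ : 0 < κ)
    (hc : ∃ c : (Fin 9 → ℝ) → ℂ, Measurable c ∧ Integrable c ∧ (∀ ζ, ‖c ζ‖ ≤ w ζ) ∧
      ∀ v, (A3 (pi3 N a b A₀ y₁ y₂ H', v) : ℂ) *
        wh (T * H' / (y₁ * y₂) * f3 L (pi3 N a b A₀ y₁ y₂ H', v)) =
          ∫ ζ, c ζ * ex (∑ i, ζ i * v i))
    (hl : Nat.Coprime (ap a e) (ap b e) → ∀ ζ, LN μ (ap a e * ap b e)
      (vg ((ap a e : ℤ), (ap b e : ℤ))) (kL A₀ ζ) ≤ ENNReal.ofReal Lb) :
    ENNReal.ofReal c0 * ‖TS T y a b e f M fun P => dlT a b e P * (om ((hh P : ℝ) / H') : ℂ)‖ₑ ≤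
      ∑ j ∈ Ico (-3 : ℤ) 5, ∫⁻ ζ, ENNReal.ofReal (w ζ) *
        (ENNReal.ofReal κ * ENNReal.ofReal Lb + ENNReal.ofReal κ⁻¹ *
          LN (μ.map (rm (rot (sg (-y₂))))) (ap a e * ap b e) Prod.fst
            (pk (ch2 (y₂ / A₀) (|-y₂| / A₀) (y₁ / y₂) 0 H' j ζ))) := by
  by_cases hp : Nat.Coprime (ap a e) (ap b e)
  swap
  · simp [TS, dlT, iC_neg hp]
  obtain ⟨c, hc1, hc2, hc3, hc4⟩ := hc
  have hy := hg.2.1
  have hN := hg.2.2.2.1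
  have hy2 : 0 < y₂ := by rw [h2]; positivity
  have hω : -y₂ ≠ 0 := by linarith
  have hA0 : 0 < A₀ := by linarith
  have hq : 1 ≤ ap a e * ap b e := Nat.mul_pos (ap_pos_TM (hN.trans (mem_Icc.1 ha).1) e)
    (ap_pos_TM (hN.trans (mem_Icc.1 hb).1) e)
  have hj : ∀ j ∈ Ico (-3 : ℤ) 5, 5 / 6 * |y₁ / y₂ * (4 / 3) ^ j| ≤ |3 * (y₁ / y₂)| := by
    intro j hj
    have h3 : ((4 : ℝ) / 3) ^ j ≤ (4 / 3) ^ (4 : ℤ) :=
      zpow_le_zpow_right₀ (by norm_num) (by rw [mem_Ico] at hj; omega)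
    rw [abs_mul, abs_mul, abs_of_pos (by positivity : (0 : ℝ) < (4 / 3) ^ j)]
    norm_num at h3 ⊢
    nlinarith [abs_nonneg (y₁ / y₂)]
  have key := hM μ hμ ℤ (Ico (-3) 5) 9 (ap a e * ap b e) (vg ((ap a e : ℤ), (ap b e : ℤ)))
    Prod.fst (SupL (A₀ / 2))
    (fun P x => Sup (y₂ / A₀) (3 * (y₁ / y₂)) H' P (rm (rot (sg (-y₂))) x))
    (fun _ ζ => kL A₀ ζ) (fun j ζ => k2 (y₂ / A₀) A₀ (-y₂) (y₁ / y₂) 0 H' j ζ) c A₀ κ
    (GT T y a b e f H') hq ((hS μ hμ _ (by positivity)).2.2.1 _ _ hp)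
    ((hS μ hμ _ (by positivity)).2.1 _ _ _ (dt_rot hω)) hA0 hκ hc1 hc2
    (fun j h ζ => ⟨(hC.2.2.1 A₀).1 ζ, ((hC.2.1 _ _ _ _ _ _ _ j hω (hj j h)).1 ζ).2⟩)
    (fun j h P => ⟨(hC.2.2.1 A₀).2 P, ((hC.2.1 _ _ _ _ _ _ _ j hω (hj j h)).2 P).2⟩)
    (fun z hz => (hI L T y A₀ H' y₁ y₂ N a b e f z hL hy hA hH hN ha hb he hf h1 h2 hm hz).1)
    (fun z hz x => by
      rw [(hI L T y A₀ H' y₁ y₂ N a b e f z hL hy hA hH hN ha hb he hf h1 h2 hm hz).2 x]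
      refine sum_congr rfl fun j _ => ?_
      rw [hc4, ← integral_const_mul]
      refine integral_congr_ae (Filter.Eventually.of_forall fun ζ => ?_)
      beta_reduce
      rw [← hC.2.2.2.2 _ A₀ (-y₂) _ _ _ j ζ z x hω hA0]
      ring)
  rw [ts_eq_TM H' hg ha hb he hf hp]
  refine key.2.trans (sum_le_sum fun j _ => lintegral_mono fun ζ => ?_)
  refine mul_le_mul' ?_ (add_le_add (mul_le_mul_right (hl hp ζ) _) (le_of_eq ?_))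
  · rw [← ofReal_norm_eq_enorm]
    exact ENNReal.ofReal_le_ofReal (hc3 ζ)
  · congr 1
    rw [LN, LN, LF, LF, (hR μ _ hμ (dt_rot hω)).2]
    rfl

end Pool.Agent.MP_c853c5_nt.W
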