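import Pool.Agent.MP_c853c5_nt.W.Api

/-! The decomposition of the top sums according to the size of the determinant. -/

set_option autoImplicit false

open Finset MeasureTheory
open scoped ENNReal ComplexConjugate

namespace Pool.Agent.MP_c853c5_nt.W

open Pool.Agent.MP_2a1f0e_nt Pool.Agent.MP_2a1f0e_nt.GM Pool.Agent.MP_2a1f0e_nt.DH

/-- the part of the partition of unity that is left -/
noncomputable def tl_TopSum (I : ℕ) (h : ℤ) : ℝ :=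
  if h = 0 then 0 else 1 - psi (|(h : ℝ)| / (4 / 5 * (4 / 3) ^ I))

lemma abs_tl_TopSum (I : ℕ) (h : ℤ) : |tl_TopSum I h| ≤ 1 := by
  unfold tl_TopSum
  split_ifs
  · simp
  · rw [abs_le]
    constructor <;> linarith [psi_nonneg (|(h : ℝ)| / (4 / 5 * (4 / 3) ^ I)),
      psi_le_one (|(h : ℝ)| / (4 / 5 * (4 / 3) ^ I))]

lemma tl_ne_TopSum {I : ℕ} {h : ℤ} (k : tl_TopSum I h ≠ 0) : 4 / 5 * (4 / 3) ^ I ≤ |(h : ℝ)| := by
  by_contra hn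
  refine k ?_
  unfold tl_TopSum
  rw [psi_eq_one ((div_le_one (by positivity)).2 (not_le.1 hn).le)]
  simp

lemma part_TopSum (I : ℕ) (h : ℤ) : iC (h = 0) + (tl_TopSum I h : ℂ) +
    ∑ s ∈ univ ×ˢ range I, (om ((h : ℝ) / Ts (4 / 5) s) : ℂ) = 1 := by
  by_cases h0 : h = 0
  · subst h0
    simp [iC_pos, tl_TopSum, om_zero]
  · have h1 : (1 : ℝ) ≤ |(h : ℝ)| := by exact_mod_cast Int.one_le_abs h0
    have e : ∑ s ∈ univ ×ˢ range I, om ((h : ℝ) / Ts (4 / 5) s) =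
        ∑ i ∈ range I, om (|(h : ℝ)| / (4 / 5 * (4 / 3) ^ i)) := by
      rw [sum_product_right]
      refine sum_congr rfl fun i _ => ?_
      have p : (0 : ℝ) < 4 / 5 * (4 / 3) ^ i := by positivity
      simp only [Fintype.sum_bool, Ts, if_true, one_mul, Bool.false_eq_true, if_false, neg_mul,
        div_neg]
      rcases le_total 0 (h : ℝ) with k | k
      · have : 0 ≤ (h : ℝ) / (4 / 5 * (4 / 3) ^ i) := by positivity
        rw [abs_of_nonneg k, om_eq_zero (x := -_) (Or.inl (by linarith)), add_zero]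
      · have : (h : ℝ) / (4 / 5 * (4 / 3) ^ i) ≤ 0 := div_nonpos_of_nonpos_of_nonneg k p.le
        rw [abs_of_nonpos k, om_eq_zero (x := _ / _) (Or.inl (by linarith)), zero_add, neg_div]
    rw [iC_neg h0, ← Complex.ofReal_sum, e, om_tel, tl_TopSum, if_neg h0,
      psi_eq_zero (x := |(h : ℝ)| / (4 / 5)) (by rw [le_div_iff₀ (by norm_num)]; linarith)]
    push_cast
    ring

lemma ts_TopSum (T y : ℝ) (a b e f M I : ℕ) :
    TS T y a b e f M (fun P => iC (Nat.Coprime (ap a e) (ap b e)) *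
      ind (ap a e * ap b e) (om2 ((ap a e : ℤ), (ap b e : ℤ)) P.1)) =
    iC (Nat.Coprime (ap a e) (ap b e)) * ((1 / psiD (ap a e * ap b e) : ℝ) : ℂ) *
        TS T y a b e f M (fun _ => 1) +
      TS T y a b e f M (fun P => iC (hh P = 0) * dlT a b e P) +
      TS T y a b e f M (fun P => dlT a b e P * (tl_TopSum I (hh P) : ℂ)) +
      ∑ s ∈ univ ×ˢ range I,
        TS T y a b e f M fun P => dlT a b e P * (om ((hh P : ℝ) / Ts (4 / 5) s) : ℂ) := by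
  unfold TS
  rw [sum_comm, mul_sum, ← sum_add_distrib, ← sum_add_distrib, ← sum_add_distrib]
  refine sum_congr rfl fun P _ => ?_
  have k := part_TopSum I (hh P)
  rw [← mul_sum, ← mul_sum, eq_sub_of_add_eq' k]
  simp only [dlT, dl]
  ring

lemma lev_TopSum {a b : ℕ} (e : ℕ) (ha : 1 ≤ a) (hb : 1 ≤ b) :
    ‖iC (Nat.Coprime (ap a e) (ap b e)) * ((1 / psiD (ap a e * ap b e) : ℝ) : ℂ)‖ ≤
      (Nat.gcd a e : ℝ) / a * ((Nat.gcd b e : ℝ) / b) := by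
  have key : ∀ c : ℕ, 1 ≤ c → 0 < (ap c e : ℝ) ∧ (Nat.gcd c e : ℝ) / c = 1 / ap c e := by
    intro c hc
    have g0 : 0 < Nat.gcd c e := Nat.gcd_pos_of_pos_left _ hc
    have e1 : (ap c e : ℝ) = c / Nat.gcd c e :=
      Nat.cast_div (Nat.gcd_dvd_left _ _) (Nat.cast_ne_zero.2 g0.ne')
    rw [e1, one_div_div]
    exact ⟨by positivity, rfl⟩
  obtain ⟨p1, e1⟩ := key a ha
  obtain ⟨p2, e2⟩ := key b hb
  have l := le_psiD (ap a e * ap b e)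
  push_cast at l
  have p3 := mul_pos p1 p2
  rw [norm_mul, Complex.norm_real, Real.norm_of_nonneg (one_div_pos.2 (p3.trans_le l)).le, e1, e2,
    one_div_mul_one_div]
  exact (mul_le_of_le_one_left (one_div_pos.2 (p3.trans_le l)).le (norm_iC_le _)).trans
    (one_div_le_one_div_of_le p3 l)

lemma ef_TopSum {T y g c₁ c₃ c₄ : ℝ} {N M e f I : ℕ} (hN : 1 ≤ N) (hc : 0 ≤ c₁)
    (hg : ∑ a ∈ Icc N (2 * N), (Nat.gcd a e : ℝ) / a ≤ g)
    (h1 : ∀ a ∈ Icc N (2 * N), ∀ b ∈ Icc N (2 * N), ‖TS T y a b e f M fun _ => 1‖ ≤ c₁)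
    (h3 : ∀ a ∈ Icc N (2 * N), ∀ b ∈ Icc N (2 * N), ∀ κ : Pr → ℂ, (∀ P, ‖κ P‖ ≤ 1) →
      (∀ P, κ P ≠ 0 → 4 / 5 * (4 / 3) ^ I ≤ |(hh P : ℝ)|) → ‖TS T y a b e f M κ‖ ≤ c₃)
    (h4 : ∀ s : Bool × ℕ, s.2 < I → ∑ a ∈ Icc N (2 * N), ∑ b ∈ Icc N (2 * N),
      ‖TS T y a b e f M fun P => dlT a b e P * (om ((hh P : ℝ) / Ts (4 / 5) s) : ℂ)‖ ≤ c₄) :
    ∑ a ∈ Icc N (2 * N), ∑ b ∈ Icc N (2 * N),
      ‖TS T y a b e f M fun P => iC (Nat.Coprime (ap a e) (ap b e)) *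
        ind (ap a e * ap b e) (om2 ((ap a e : ℤ), (ap b e : ℤ)) P.1)‖ ≤
    ∑ a ∈ Icc N (2 * N), ∑ b ∈ Icc N (2 * N),
      ‖TS T y a b e f M fun P => iC (hh P = 0) * dlT a b e P‖ +
      (g ^ 2 * c₁ + ((N : ℝ) + 1) ^ 2 * c₃ + 2 * I * c₄) := by
  have step : ∀ a ∈ Icc N (2 * N), ∀ b ∈ Icc N (2 * N),
      ‖TS T y a b e f M fun P => iC (Nat.Coprime (ap a e) (ap b e)) *
        ind (ap a e * ap b e) (om2 ((ap a e : ℤ), (ap b e : ℤ)) P.1)‖ ≤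
      (Nat.gcd a e : ℝ) / a * ((Nat.gcd b e : ℝ) / b) * c₁ +
        ‖TS T y a b e f M fun P => iC (hh P = 0) * dlT a b e P‖ + c₃ +
        ∑ s ∈ univ ×ˢ range I,
          ‖TS T y a b e f M fun P => dlT a b e P * (om ((hh P : ℝ) / Ts (4 / 5) s) : ℂ)‖ := by
    intro a ha b hb
    have a1 : 1 ≤ a := hN.trans (mem_Icc.1 ha).1
    have b1 : 1 ≤ b := hN.trans (mem_Icc.1 hb).1
    rw [ts_TopSum T y a b e f M I]
    refine norm_add_le_of_le (norm_add_le_of_le (norm_add_le_of_le ?_ le_rfl) ?_) (norm_sum_le _ _)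
    · rw [norm_mul]
      exact mul_le_mul (lev_TopSum e a1 b1) (h1 a ha b hb) (norm_nonneg _) (by positivity)
    · refine h3 a ha b hb _ (fun P => ?_) fun P k => tl_ne_TopSum fun k' => k (by simp [k'])
      rw [norm_mul, Complex.norm_real]
      exact mul_le_one₀ (norm_dlT_le a1 b1 P) (norm_nonneg _) (abs_tl_TopSum _ _)
  refine (sum_le_sum fun a ha => sum_le_sum fun b hb => step a ha b hb).trans ?_
  simp only [sum_add_distrib]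
  have s1 : ∑ a ∈ Icc N (2 * N), ∑ b ∈ Icc N (2 * N),
      (Nat.gcd a e : ℝ) / a * ((Nat.gcd b e : ℝ) / b) * c₁ ≤ g ^ 2 * c₁ := by
    simp only [← sum_mul]
    rw [← sum_mul_sum, ← sq]
    exact mul_le_mul_of_nonneg_right (pow_le_pow_left₀ (by positivity) hg 2) hc
  have s3 : ∑ a ∈ Icc N (2 * N), ∑ b ∈ Icc N (2 * N), c₃ = ((N : ℝ) + 1) ^ 2 * c₃ := by
    simp only [sum_const, Nat.card_Icc, show 2 * N + 1 - N = N + 1 by omega, nsmul_eq_mul]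
    push_cast
    ring
  have s4 : ∑ a ∈ Icc N (2 * N), ∑ b ∈ Icc N (2 * N), ∑ s ∈ univ ×ˢ range I,
      ‖TS T y a b e f M fun P => dlT a b e P * (om ((hh P : ℝ) / Ts (4 / 5) s) : ℂ)‖ ≤
      2 * I * c₄ := by
    rw [sum_congr rfl fun a _ => sum_comm, sum_comm]
    refine (sum_le_card_nsmul _ _ c₄ fun s hs => h4 s (mem_range.1 (mem_product.1 hs).2)).trans ?_
    simp
  linarith

lemma comm_TopSum (R J : Finset ℕ) (F : ℕ → ℕ → ℕ → ℕ → ℝ) :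
    ∑ a ∈ R, ∑ b ∈ R, ∑ e ∈ J, ∑ f ∈ J, F a b e f =
      ∑ e ∈ J, ∑ f ∈ J, ∑ a ∈ R, ∑ b ∈ R, F a b e f :=
  calc _ = ∑ p ∈ R ×ˢ R, ∑ q ∈ J ×ˢ J, F p.1 p.2 q.1 q.2 := by simp only [sum_product]
    _ = ∑ q ∈ J ×ˢ J, ∑ p ∈ R ×ˢ R, F p.1 p.2 q.1 q.2 := sum_comm
    _ = _ := by simp only [sum_product]

lemma exI_TopSum {B Δ : ℝ} {X : ℕ} (hX : DivB X Δ) (hB : B ≤ 4 / 5 * X) :
    ∃ I : ℕ, (I : ℝ) ≤ 3 * Δ ∧ B ≤ 4 / 5 * (4 / 3) ^ I ∧ ∀ i < I, 4 / 5 * (4 / 3 : ℝ) ^ i ≤ B := by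
  classical
  have h1 : B < 4 / 5 * (4 / 3) ^ (3 * (Nat.log 2 X + 1)) := by
    have h2 : (X : ℝ) < 2 ^ (Nat.log 2 X + 1) := by
      exact_mod_cast Nat.lt_pow_succ_log_self one_lt_two X
    have h3 : (2 : ℝ) ^ (Nat.log 2 X + 1) ≤ (4 / 3) ^ (3 * (Nat.log 2 X + 1)) := by
      rw [pow_mul]
      exact pow_le_pow_left₀ (by norm_num) (by norm_num) _
    linarith
  have ex : ∃ I : ℕ, B < 4 / 5 * (4 / 3) ^ I := ⟨_, h1⟩
  refine ⟨Nat.find ex, ?_, (Nat.find_spec ex).le, fun i hi => not_lt.1 (Nat.find_min ex hi)⟩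
  have h4 : (Nat.find ex : ℝ) ≤ (3 * (Nat.log 2 X + 1) : ℕ) := by
    exact_mod_cast Nat.find_min' ex h1
  have h5 := DivB_log hX le_rfl
  push_cast at h4
  linarith

lemma abs_Ts_TopSum (s : Bool × ℕ) : |Ts (4 / 5) s| = 4 / 5 * (4 / 3) ^ s.2 := by
  have p : (0 : ℝ) < 4 / 5 * (4 / 3) ^ s.2 := by positivity
  unfold Ts
  split_ifs
  · rw [one_mul, abs_of_pos p]
  · rw [neg_one_mul, abs_neg, abs_of_pos p]

end Pool.Agent.MP_c853c5_nt.W
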