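import Pool.Agent.MP_c853c5_nt.W.Api

/-!
Unfolding for complex valued functions.
-/

set_option autoImplicit false

open Finset MeasureTheory
open scoped ENNReal ComplexConjugate

namespace Pool.Agent.MP_c853c5_nt.W

open Pool.Agent.MP_2a1f0e_nt Pool.Agent.MP_2a1f0e_nt.GM Pool.Agent.MP_2a1f0e_nt.DH

section

variable {μ : Measure MM} {f : Pr × Pr → MM → ℂ}

lemma comp_UnfC (hU : UnfStmt) (hμ : UM μ) (hm : ∀ z, Measurable (f z))
    (hi : ∀ (z : Pr × Pr) G x, hh G = 1 → f (pg z.1 G, pg z.2 G) x = f z (act G x))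
    (hs : ∀ z x, f z x ≠ 0 → Prim z.1.2 ∧ hh z.1 ≠ 0 ∧ dt x ≠ 0) {L : ℂ → ℝ≥0∞}
    (hL : Measurable L) (h0 : L 0 = 0) :
    ∑' z : Pr × Pr, ∫⁻ x, L (f z x) ∂μ = ∑' z : Orb, ∫⁻ x, L (f z.1 x) := by
  rw [← lintegral_tsum (f := fun z x => L (f z x)) fun z => (hL.comp (hm z)).aemeasurable]
  exact hU μ hμ (fun z x => L (f z x)) (fun z => hL.comp (hm z))
    (fun z G x h => by rw [hi z G x h]) fun z x h => hs z x fun e => h (by rw [e, h0])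

lemma pos_UnfC (hU : UnfStmt) (hμ : UM μ) (hm : ∀ z, Measurable (f z))
    (hi : ∀ (z : Pr × Pr) G x, hh G = 1 → f (pg z.1 G, pg z.2 G) x = f z (act G x))
    (hs : ∀ z x, f z x ≠ 0 → Prim z.1.2 ∧ hh z.1 ≠ 0 ∧ dt x ≠ 0)
    (hf : ∑' z : Orb, ∫⁻ x, ‖f z.1 x‖ₑ ≠ ⊤) (L : ℂ →L[ℝ] ℝ) (hL : ∀ c, L c ≤ ‖c‖) :
    ∃ T : ℝ, HasSum (fun z : Pr × Pr => (∫⁻ x, ENNReal.ofReal (L (f z x)) ∂μ).toReal) T ∧
      HasSum (fun z : Orb => (∫⁻ x, ENNReal.ofReal (L (f z.1 x))).toReal) T := by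
  have H := comp_UnfC hU hμ hm hi hs (L := fun c => ENNReal.ofReal (L c))
    L.continuous.measurable.ennreal_ofReal (by simp)
  have h2 : ∑' z : Orb, ∫⁻ x, ENNReal.ofReal (L (f z.1 x)) ≠ ⊤ := by
    refine ne_top_of_le_ne_top hf (ENNReal.tsum_le_tsum fun z => lintegral_mono fun x => ?_)
    rw [← ofReal_norm]
    exact ENNReal.ofReal_le_ofReal (hL _)
  have h1 := H.trans_ne h2
  refine ⟨_, ENNReal.hasSum_toReal h1, ?_⟩
  rw [← ENNReal.tsum_toReal_eq (ENNReal.ne_top_of_tsum_ne_top h1), H,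
    ENNReal.tsum_toReal_eq (ENNReal.ne_top_of_tsum_ne_top h2)]
  exact ENNReal.hasSum_toReal h2

lemma lin_UnfC {X : Type*} [MeasurableSpace X] {ν : Measure X} {g : X → ℂ} (hm : Measurable g)
    (h : ∫⁻ x, ‖g x‖ₑ ∂ν ≠ ⊤) (L : ℂ →L[ℝ] ℝ) :
    L (∫ x, g x ∂ν) = (∫⁻ x, ENNReal.ofReal (L (g x)) ∂ν).toReal -
      (∫⁻ x, ENNReal.ofReal ((-L) (g x)) ∂ν).toReal := by
  have hg : Integrable g ν := ⟨hm.aestronglyMeasurable, h.lt_top⟩
  rw [← L.integral_comp_comm hg]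
  exact integral_eq_lintegral_pos_part_sub_lintegral_neg_part (L.integrable_comp hg)

end

theorem unfC_stmt (hU : UnfStmt) : UnfCStmt := by
  intro μ hμ f hm hi hs hf
  have h1 : ∑' z : Pr × Pr, ∫⁻ x, ‖f z x‖ₑ ∂μ ≠ ⊤ :=
    (comp_UnfC hU hμ hm hi hs (L := fun c => ‖c‖ₑ) measurable_enorm enorm_zero).trans_ne hf
  refine ⟨⟨(measurable_ctsum hm).aestronglyMeasurable, ?_⟩, ?_⟩
  · refine lt_of_le_of_lt (lintegral_mono fun x => enorm_tsum_le_tsum_enorm) ?_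
    rw [lintegral_tsum fun z => (hm z).enorm.aemeasurable]
    exact h1.lt_top
  · have key : ∀ L : ℂ →L[ℝ] ℝ, (∀ c, |L c| ≤ ‖c‖) →
        ∃ T : ℝ, HasSum (fun z : Pr × Pr => L (∫ x, f z x ∂μ)) T ∧
          HasSum (fun z : Orb => L (∫ x, f z.1 x)) T := by
      intro L hL
      obtain ⟨T, a1, a2⟩ := pos_UnfC hU hμ hm hi hs hf L fun c => (le_abs_self _).trans (hL c)
      obtain ⟨T', b1, b2⟩ := pos_UnfC hU hμ hm hi hs hf (-L) fun c => (neg_le_abs _).trans (hL c)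
      refine ⟨T - T', ?_, ?_⟩
      · simp only [fun z => lin_UnfC (hm z) (ENNReal.ne_top_of_tsum_ne_top h1 z) L]
        exact a1.sub b1
      · simp only [fun z : Orb => lin_UnfC (hm z.1) (ENNReal.ne_top_of_tsum_ne_top hf z) L]
        exact a2.sub b2
    obtain ⟨T, a1, a2⟩ := key Complex.reCLM Complex.abs_re_le_norm
    obtain ⟨T', b1, b2⟩ := key Complex.imCLM Complex.abs_im_le_norm
    rw [integral_tsum (fun z => (hm z).aestronglyMeasurable) h1,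
      ((Complex.hasSum_iff _ ⟨T, T'⟩).2 ⟨a1, b1⟩).tsum_eq,
      ((Complex.hasSum_iff _ ⟨T, T'⟩).2 ⟨a2, b2⟩).tsum_eq]

end Pool.Agent.MP_c853c5_nt.W
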